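import Mathlib

/-! # Row A.4: calculus of absolutely continuous independence

`AI P X Y Z`: over `X`, the variable `Z` is independent of `Y` up to absolute continuity, i.e. the law of
`((X, Y), Z)` is absolutely continuous with respect to `law (X, Y) ⊗ κ (X)` for some Markov kernel `κ`.
-/

set_option autoImplicit false

open MeasureTheory ProbabilityTheory Set Filter
open scoped ENNReal

noncomputable section

namespace Pool.Agent.SPHK

variable {Ω A A' B B' C C' D : Type*} [MeasurableSpace Ω] [MeasurableSpace A] [MeasurableSpace A']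
  [MeasurableSpace B] [MeasurableSpace B'] [MeasurableSpace C] [MeasurableSpace C']
  [MeasurableSpace D]

/-- over `X`, the variable `Z` is independent of `Y` up to absolute continuity -/
def AI (P : Measure Ω) (X : Ω → A) (Y : Ω → B) (Z : Ω → C) : Prop :=
  ∃ κ : Kernel A C, IsMarkovKernel κ ∧
    P.map (fun ω => ((X ω, Y ω), Z ω)) ≪ (P.map (fun ω => (X ω, Y ω))) ⊗ₘ (κ.prodMkRight B)

section basic

variable {P : Measure Ω} {X : Ω → A} {Y : Ω → B} {Z : Ω → C}

theorem law_compProd_apply [SFinite P] (hX : Measurable X) (hY : Measurable Y) (κ : Kernel A C)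
    [IsSFiniteKernel κ] {s : Set ((A × B) × C)} (hs : MeasurableSet s) :
    ((P.map (fun ω => (X ω, Y ω))) ⊗ₘ (κ.prodMkRight B)) s =
      ∫⁻ ω, κ (X ω) (Prod.mk (X ω, Y ω) ⁻¹' s) ∂P := by
  rw [Measure.compProd_apply hs, lintegral_map (Kernel.measurable_kernel_prodMk_left hs)
    (hX.prodMk hY)]
  rfl

theorem law_compProd_zero_iff [SFinite P] (hX : Measurable X) (hY : Measurable Y) (κ : Kernel A C)
    [IsSFiniteKernel κ] {s : Set ((A × B) × C)} (hs : MeasurableSet s) :
    ((P.map (fun ω => (X ω, Y ω))) ⊗ₘ (κ.prodMkRight B)) s = 0 ↔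
      ∀ᵐ ω ∂P, κ (X ω) (Prod.mk (X ω, Y ω) ⁻¹' s) = 0 := by
  rw [law_compProd_apply hX hY κ hs, lintegral_eq_zero_iff]
  · rfl
  · exact (Kernel.measurable_kernel_prodMk_left (κ := κ.prodMkRight B) hs).comp (hX.prodMk hY)

theorem ac_iff [SFinite P] (hX : Measurable X) (hY : Measurable Y) (hZ : Measurable Z)
    (κ : Kernel A C) [IsSFiniteKernel κ] :
    P.map (fun ω => ((X ω, Y ω), Z ω)) ≪ (P.map (fun ω => (X ω, Y ω))) ⊗ₘ (κ.prodMkRight B) ↔
      ∀ s : Set ((A × B) × C), MeasurableSet s →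
        (∀ᵐ ω ∂P, κ (X ω) (Prod.mk (X ω, Y ω) ⁻¹' s) = 0) → ∀ᵐ ω ∂P, ((X ω, Y ω), Z ω) ∉ s := by
  have hm : Measurable (fun ω => ((X ω, Y ω), Z ω)) := (hX.prodMk hY).prodMk hZ
  constructor
  · intro h s hs h0
    have h1 := h ((law_compProd_zero_iff hX hY κ hs).2 h0)
    rw [Measure.map_apply hm hs] at h1
    rw [ae_iff]
    simp only [not_not]
    exact h1
  · intro h
    refine Measure.AbsolutelyContinuous.mk fun s hs h0 => ?_
    have h1 := h s hs ((law_compProd_zero_iff hX hY κ hs).1 h0)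
    rw [Measure.map_apply hm hs]
    rw [ae_iff] at h1
    simp only [not_not] at h1
    exact h1

theorem AI_iff [SFinite P] (hX : Measurable X) (hY : Measurable Y) (hZ : Measurable Z) :
    AI P X Y Z ↔ ∃ κ : Kernel A C, IsMarkovKernel κ ∧ ∀ s : Set ((A × B) × C), MeasurableSet s →
      (∀ᵐ ω ∂P, κ (X ω) (Prod.mk (X ω, Y ω) ⁻¹' s) = 0) → ∀ᵐ ω ∂P, ((X ω, Y ω), Z ω) ∉ s := by
  unfold AI
  constructor
  · rintro ⟨κ, h1, h2⟩
    exact ⟨κ, h1, (ac_iff hX hY hZ κ).1 h2⟩
  · rintro ⟨κ, h1, h2⟩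
    exact ⟨κ, h1, (ac_iff hX hY hZ κ).2 h2⟩

/-- functions of the second and third variable -/
theorem AI.comp [SFinite P] (h : AI P X Y Z) (hX : Measurable X) (hY : Measurable Y)
    (hZ : Measurable Z) {f : B → B'} (hf : Measurable f) {g : C → C'} (hg : Measurable g) :
    AI P X (fun ω => f (Y ω)) (fun ω => g (Z ω)) := by
  obtain ⟨κ, h1, h2⟩ := (AI_iff hX hY hZ).1 h
  refine (AI_iff hX (hf.comp hY) (hg.comp hZ)).2
    ⟨κ.map g, Kernel.IsMarkovKernel.map κ hg, fun s hs h0 => ?_⟩
  have hm : Measurable (fun p : (A × B) × C => ((p.1.1, f p.1.2), g p.2)) := by fun_prop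
  refine h2 _ (hm hs) ?_
  filter_upwards [h0] with ω hω
  rw [Kernel.map_apply' κ hg _ (measurable_prodMk_left hs)] at hω
  exact hω

/-- the first variable may be replaced by an equivalent one -/
theorem AI.base [SFinite P] (h : AI P X Y Z) (hX : Measurable X) (hY : Measurable Y)
    (hZ : Measurable Z) {X' : Ω → A'} (hX' : Measurable X') {e : A' → A} (he : Measurable e)
    {e' : A → A'} (he' : Measurable e') (h1 : ∀ ω, X ω = e (X' ω)) (h2 : ∀ ω, X' ω = e' (X ω)) :
    AI P X' Y Z := by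
  obtain ⟨κ, h3, h4⟩ := (AI_iff hX hY hZ).1 h
  rw [AI_iff hX' hY hZ]
  refine ⟨κ.comap e he, inferInstance, fun s hs h0 => ?_⟩
  have hm : Measurable (fun p : (A × B) × C => ((e' p.1.1, p.1.2), p.2)) := by fun_prop
  have h5 := h4 _ (hm hs) ?_
  · filter_upwards [h5] with ω hω
    simp only [mem_preimage, ← h2] at hω
    exact hω
  · filter_upwards [h0] with ω hω
    rw [Kernel.comap_apply, ← h1] at hω
    have : (Prod.mk (X ω, Y ω) ⁻¹' ((fun p : (A × B) × C => ((e' p.1.1, p.1.2), p.2)) ⁻¹' s)) =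
        Prod.mk (X' ω, Y ω) ⁻¹' s := by
      ext c
      simp only [mem_preimage, ← h2]
    rw [this]
    exact hω

/-- comparison with an arbitrary measure on the first two variables -/
theorem AI.of_ac [IsProbabilityMeasure P] [StandardBorelSpace C] [Nonempty C] (hX : Measurable X)
    (hY : Measurable Y) (hZ : Measurable Z) (ν : Measure (A × B)) [SigmaFinite ν] (κ : Kernel A C)
    [IsMarkovKernel κ]
    (h : P.map (fun ω => ((X ω, Y ω), Z ω)) ≪ ν ⊗ₘ (κ.prodMkRight B)) : AI P X Y Z := by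
  refine ⟨κ, inferInstance, ?_⟩
  set ρ := P.map (fun ω => ((X ω, Y ω), Z ω)) with hρ
  have hm : Measurable (fun ω => ((X ω, Y ω), Z ω)) := (hX.prodMk hY).prodMk hZ
  have : IsProbabilityMeasure ρ := Measure.isProbabilityMeasure_map hm.aemeasurable
  have hfst : ρ.fst = P.map (fun ω => (X ω, Y ω)) := by
    rw [hρ, Measure.fst, Measure.map_map measurable_fst hm]
    rfl
  have h1 := h
  rw [← ρ.disintegrate ρ.condKernel] at h1
  have h2 := Measure.absolutelyContinuous_compProd_of_compProd h1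
  rw [ρ.disintegrate ρ.condKernel, hfst] at h2
  exact h2

theorem compProd_swap (μ : Measure A) [SFinite μ] (κ₁ : Kernel A B) [IsSFiniteKernel κ₁]
    (κ₂ : Kernel A C) [IsSFiniteKernel κ₂] :
    ((μ ⊗ₘ κ₁) ⊗ₘ (κ₂.prodMkRight B)).map (fun p : (A × B) × C => ((p.1.1, p.2), p.1.2)) =
      (μ ⊗ₘ κ₂) ⊗ₘ (κ₁.prodMkRight C) := by
  have hm : Measurable (fun p : (A × B) × C => ((p.1.1, p.2), p.1.2)) := by fun_prop
  ext s hs
  rw [Measure.map_apply hm hs, Measure.compProd_apply (hm hs), Measure.compProd_apply hs,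
    Measure.lintegral_compProd (Kernel.measurable_kernel_prodMk_left (hm hs)),
    Measure.lintegral_compProd (Kernel.measurable_kernel_prodMk_left hs)]
  refine lintegral_congr fun a => ?_
  have hs' : MeasurableSet {p : B × C | ((a, p.2), p.1) ∈ s} := by
    have h1 : Measurable (fun p : B × C => ((a, p.2), p.1)) := by fun_prop
    exact h1 hs
  have h1 := Measure.prod_apply (μ := κ₁ a) (ν := κ₂ a) hs'
  have h2 := Measure.prod_apply_symm (μ := κ₁ a) (ν := κ₂ a) hs'
  exact h1.symm.trans h2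

theorem AI.symm [IsProbabilityMeasure P] [StandardBorelSpace B] [Nonempty B]
    [StandardBorelSpace C] [Nonempty C] (h : AI P X Y Z) (hX : Measurable X) (hY : Measurable Y)
    (hZ : Measurable Z) : AI P X Z Y := by
  obtain ⟨κ, h1, h2⟩ := h
  set ρ := P.map (fun ω => (X ω, Y ω)) with hρ
  have hm : Measurable (fun ω => (X ω, Y ω)) := hX.prodMk hY
  have : IsProbabilityMeasure ρ := Measure.isProbabilityMeasure_map hm.aemeasurable
  have hfst : ρ.fst = P.map X := by
    rw [hρ, Measure.fst, Measure.map_map measurable_fst hm]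
    rfl
  have : IsProbabilityMeasure (P.map X) := Measure.isProbabilityMeasure_map hX.aemeasurable
  have hdis : ρ = (P.map X) ⊗ₘ ρ.condKernel := by
    rw [← hfst]
    exact (ρ.disintegrate ρ.condKernel).symm
  have hsw : Measurable (fun p : (A × B) × C => ((p.1.1, p.2), p.1.2)) := by fun_prop
  refine AI.of_ac hX hZ hY ((P.map X) ⊗ₘ κ) ρ.condKernel ?_
  rw [← compProd_swap, ← hdis]
  have h3 := h2.map hsw
  rw [Measure.map_map hsw (hm.prodMk hZ)] at h3
  exact h3

/-- the third variable in two steps -/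
theorem AI.chain [IsProbabilityMeasure P] {Z' : Ω → D} (h1 : AI P X Y Z)
    (h2 : AI P (fun ω => (X ω, Z ω)) Y Z') (hX : Measurable X) (hY : Measurable Y)
    (hZ : Measurable Z) (hZ' : Measurable Z') : AI P X Y (fun ω => (Z ω, Z' ω)) := by
  obtain ⟨κ₁, i1, h3⟩ := (AI_iff hX hY hZ).1 h1
  obtain ⟨κ₂, i2, h4⟩ := (AI_iff (hX.prodMk hZ) hY hZ').1 h2
  rw [AI_iff hX hY (hZ.prodMk hZ')]
  refine ⟨κ₁ ⊗ₖ κ₂, inferInstance, fun s hs h0 => ?_⟩
  have hm : Measurable (fun p : ((A × C) × B) × D => ((p.1.1.1, p.1.2), (p.1.1.2, p.2))) := by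
    fun_prop
  have h5 := h4 _ (hm hs) ?_
  · filter_upwards [h5] with ω hω
    exact hω
  · -- the set of `((x, y), z)` with a positive section
    set T : Set ((A × B) × C) := {p | κ₂ (p.1.1, p.2) {c | (p.1, (p.2, c)) ∈ s} ≠ 0} with hT
    have hTm : MeasurableSet T := by
      have h6 : Measurable (fun p : (A × B) × C => κ₂ (p.1.1, p.2) {c | (p.1, (p.2, c)) ∈ s}) := by
        have h7 : Measurable (fun p : (A × B) × C => (p.1.1, p.2)) := by fun_prop
        have h8 : Measurable (fun q : ((A × B) × C) × D => (q.1.1, (q.1.2, q.2))) := by fun_prop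
        exact Kernel.measurable_kernel_prodMk_left (κ := κ₂.comap _ h7) (h8 hs)
      exact (h6 (measurableSet_singleton 0)).compl
    have h6 := h3 T hTm ?_
    · filter_upwards [h6] with ω hω
      rw [hT] at hω
      simp only [mem_ofPred_eq, not_not, ne_eq] at hω
      exact hω
    · filter_upwards [h0] with ω hω
      rw [Kernel.compProd_apply (measurable_prodMk_left hs), lintegral_eq_zero_iff
        (Kernel.measurable_kernel_prodMk_left' (measurable_prodMk_left hs) _)] at hω
      have h7 : ∀ᵐ c ∂(κ₁ (X ω)), c ∉ Prod.mk (X ω, Y ω) ⁻¹' T := by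
        filter_upwards [hω] with c hc
        rw [hT]
        simp only [mem_preimage, mem_ofPred_eq, not_not, ne_eq]
        exact hc
      exact measure_eq_zero_iff_ae_notMem.2 h7

end basic

end Pool.Agent.SPHK
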