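import Pool.Agent.SPHK.Rect
import Mathlib.Probability.Kernel.Representation

/-! Project SPHK, row DEC: decorrelation from absolutely continuous independence. -/

set_option autoImplicit false

open MeasureTheory ProbabilityTheory Filter
open scoped ENNReal Topology unitInterval

noncomputable section
namespace SPHK

theorem dec_core {Ω : Type} [MeasurableSpace Ω] [StandardBorelSpace Ω] [Nonempty Ω] {V B : Type}
    [Fintype V] [Fintype B] (ρ : Measure ((V → Ω) × (B → Ω))) [IsProbabilityMeasure ρ]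
    (κ : Kernel (V → Ω) (B → Ω)) [IsMarkovKernel κ]
    (ν : Measure (((V → Ω) × (B → Ω)) × (B → Ω))) [IsProbabilityMeasure ν]
    (hac : ν ≪ ρ ⊗ₘ (κ.prodMkRight (B → Ω))) (δ : ℝ) (hδ : 0 < δ) :
    ∃ δ' : ℝ, 0 < δ' ∧ ∃ (N : ℕ) (R0 : Fin N → Set (V → Ω)) (R R' : Fin N → B → Set Ω),
      (∀ t, MeasurableSet (R0 t)) ∧ (∀ t v, MeasurableSet (R t v)) ∧
      (∀ t v, MeasurableSet (R' t v)) ∧
      ∀ Φ : ((V → Ω) × (B → Ω)) × (B → Ω) → ℝ, Bdd Φ → δ ≤ |∫ x, Φ x ∂ν| →
        ∃ (t : Fin N) (s : (V → Ω) → (B → Ω)), Measurable s ∧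
          δ' ≤ |∫ p, Φ (p, s p.1) * (R0 t).indicator (fun _ => (1 : ℝ)) p.1 *
            (∏ v, (R t v).indicator (fun _ => (1 : ℝ)) (p.2 v)) *
            (∏ v, (R' t v).indicator (fun _ => (1 : ℝ)) (s p.1 v)) ∂ρ| := by
  obtain ⟨N, c, R0, R, R', h0, hR, hR', happ⟩ := exists_rect_approx ν
    (ρ ⊗ₘ (κ.prodMkRight (B → Ω))) hac (δ / 2) (half_pos hδ)
  obtain ⟨f, hf, hfκ⟩ := Kernel.exists_measurable_map_eq_unitInterval κ
  set K : ℝ := ∑ t, |c t| + 1 with hK
  have hKpos : 0 < K := by positivity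
  refine ⟨δ / (2 * K), by positivity, N, R0, R, R', h0, hR, hR', fun Φ hΦ hbig => ?_⟩
  set G : Fin N → ((V → Ω) × (B → Ω)) × (B → Ω) → ℝ := fun t x =>
    Φ x * (R0 t).indicator (fun _ => (1 : ℝ)) x.1.1 *
      (∏ v, (R t v).indicator (fun _ => (1 : ℝ)) (x.1.2 v)) *
      (∏ v, (R' t v).indicator (fun _ => (1 : ℝ)) (x.2 v)) with hG
  have hGm : ∀ t, Measurable (G t) := by
    intro t
    refine ((hΦ.1.mul ?_).mul ?_).mul ?_
    · exact (measurable_const.indicator (h0 t)).comp (measurable_fst.comp measurable_fst)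
    · refine Finset.measurable_fun_prod _ fun v _ => ?_
      exact (measurable_const.indicator (hR t v)).comp
        ((measurable_pi_apply v).comp (measurable_snd.comp measurable_fst))
    · refine Finset.measurable_fun_prod _ fun v _ => ?_
      exact (measurable_const.indicator (hR' t v)).comp ((measurable_pi_apply v).comp measurable_snd)
  have hind : ∀ (S : Set Ω) (x : Ω), |S.indicator (fun _ => (1 : ℝ)) x| ≤ 1 := by
    intro S x
    by_cases hx : x ∈ S <;> simp [hx]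
  have hind0 : ∀ (S : Set (V → Ω)) (x : V → Ω), |S.indicator (fun _ => (1 : ℝ)) x| ≤ 1 := by
    intro S x
    by_cases hx : x ∈ S <;> simp [hx]
  have hprod : ∀ (Q : B → Set Ω) (y : B → Ω),
      |∏ v, (Q v).indicator (fun _ => (1 : ℝ)) (y v)| ≤ 1 := by
    intro Q y
    rw [Finset.abs_prod]
    exact Finset.prod_le_one (fun _ _ => abs_nonneg _) fun v _ => hind _ _
  have hGb : ∀ t x, |G t x| ≤ 1 := by
    intro t x
    simp only [hG, abs_mul]
    refine mul_le_one₀ (mul_le_one₀ (mul_le_one₀ (hΦ.2 x) (abs_nonneg _) (hind0 _ _))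
      (abs_nonneg _) (hprod _ _)) (abs_nonneg _) (hprod _ _)
  -- pigeonhole
  have h1 := happ Φ hΦ
  have hpig : ∃ t, δ / (2 * K) ≤ |∫ x, G t x ∂(ρ ⊗ₘ (κ.prodMkRight (B → Ω)))| := by
    by_contra hcon
    push Not at hcon
    have h2 : |∑ t, c t * ∫ x, G t x ∂(ρ ⊗ₘ (κ.prodMkRight (B → Ω)))| < δ / 2 := by
      calc |∑ t, c t * ∫ x, G t x ∂(ρ ⊗ₘ (κ.prodMkRight (B → Ω)))|
          ≤ ∑ t, |c t * ∫ x, G t x ∂(ρ ⊗ₘ (κ.prodMkRight (B → Ω)))| :=
            Finset.abs_sum_le_sum_abs _ _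
        _ ≤ ∑ t, |c t| * (δ / (2 * K)) := by
            refine Finset.sum_le_sum fun t _ => ?_
            rw [abs_mul]
            exact mul_le_mul_of_nonneg_left (hcon t).le (abs_nonneg _)
        _ = (K - 1) * (δ / (2 * K)) := by rw [← Finset.sum_mul, hK]; ring
        _ < K * (δ / (2 * K)) := by
            have : 0 < δ / (2 * K) := by positivity
            nlinarith
        _ = δ / 2 := by field_simp
    have h3 : |∫ x, Φ x ∂ν| ≤ |∫ x, Φ x ∂ν -
        ∑ t, c t * ∫ x, G t x ∂(ρ ⊗ₘ (κ.prodMkRight (B → Ω)))| +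
        |∑ t, c t * ∫ x, G t x ∂(ρ ⊗ₘ (κ.prodMkRight (B → Ω)))| := by
      have := abs_add_le (∫ x, Φ x ∂ν -
        ∑ t, c t * ∫ x, G t x ∂(ρ ⊗ₘ (κ.prodMkRight (B → Ω))))
        (∑ t, c t * ∫ x, G t x ∂(ρ ⊗ₘ (κ.prodMkRight (B → Ω))))
      simpa using this
    have h4 : |∫ x, Φ x ∂ν - ∑ t, c t * ∫ x, G t x ∂(ρ ⊗ₘ (κ.prodMkRight (B → Ω)))| ≤ δ / 2 := h1
    linarith
  obtain ⟨t, ht⟩ := hpig
  have hGi : ∀ (μ' : Measure (((V → Ω) × (B → Ω)) × (B → Ω))) [IsFiniteMeasure μ'],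
      Integrable (G t) μ' := fun μ' _ =>
    Integrable.of_bound (hGm t).aestronglyMeasurable 1 (Eventually.of_forall fun x => hGb t x)
  have hfm : Measurable (fun q : ((V → Ω) × (B → Ω)) × I => G t (q.1, f q.1.1 q.2)) := by
    refine (hGm t).comp (measurable_fst.prodMk ?_)
    exact hf.comp ((measurable_fst.comp measurable_fst).prodMk measurable_snd)
  have hfi : Integrable (fun q : ((V → Ω) × (B → Ω)) × I => G t (q.1, f q.1.1 q.2))
      (ρ.prod (volume : Measure I)) :=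
    Integrable.of_bound hfm.aestronglyMeasurable 1 (Eventually.of_forall fun x => hGb t _)
  have h5 : ∫ x, G t x ∂(ρ ⊗ₘ (κ.prodMkRight (B → Ω))) =
      ∫ ξ : I, ∫ p, G t (p, f p.1 ξ) ∂ρ := by
    rw [Measure.integral_compProd (hGi _)]
    rw [integral_integral_swap (f := fun (ξ : I) (p : (V → Ω) × (B → Ω)) => G t (p, f p.1 ξ))]
    · refine integral_congr_ae (Eventually.of_forall fun p => ?_)
      simp only [Kernel.prodMkRight_apply]
      rw [← hfκ p.1, integral_map]
      · exact (hf.comp measurable_prodMk_left).aemeasurable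
      · exact ((hGm t).comp measurable_prodMk_left).aestronglyMeasurable
    · exact hfi.swap
  have h6 : Integrable (fun ξ : I => |∫ p, G t (p, f p.1 ξ) ∂ρ|) volume :=
    (hfi.swap.integral_prod_left).abs
  obtain ⟨ξ, hξ⟩ := exists_integral_le h6
  refine ⟨t, fun v => f v ξ, hf.comp measurable_prodMk_right, ?_⟩
  calc δ / (2 * K) ≤ |∫ x, G t x ∂(ρ ⊗ₘ (κ.prodMkRight (B → Ω)))| := ht
    _ = |∫ ξ : I, ∫ p, G t (p, f p.1 ξ) ∂ρ| := by rw [h5]
    _ ≤ ∫ ξ : I, |∫ p, G t (p, f p.1 ξ) ∂ρ| := abs_integral_le_integral_abs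
    _ ≤ |∫ p, G t (p, f p.1 ξ) ∂ρ| := hξ

variable {J : Type} (H : Host J)

theorem Host.dec_of_ac {V B : Type} [Fintype V] [Fintype B] (cV : V → J) (j : J)
    (h : H.AC cV B B j) : H.DEC (V := V) (B := B) cV j := by
  intro δ hδ
  have m1 : Measurable (fun y : V ⊕ (B ⊕ B) → H.Om =>
      (((fun v => y (Sum.inl v), fun b => y (Sum.inr (Sum.inl b))),
      fun b => y (Sum.inr (Sum.inr b))) : ((V → H.Om) × (B → H.Om)) × (B → H.Om))) := by
    refine ((measurable_pi_lambda _ fun v => measurable_pi_apply _).prodMk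
      (measurable_pi_lambda _ fun v => measurable_pi_apply _)).prodMk
      (measurable_pi_lambda _ fun v => measurable_pi_apply _)
  have m2 : Measurable (fun y : V ⊕ B → H.Om =>
      ((fun v => y (Sum.inl v), fun b => y (Sum.inr b)) : (V → H.Om) × (B → H.Om))) :=
    (measurable_pi_lambda _ fun v => measurable_pi_apply _).prodMk
      (measurable_pi_lambda _ fun v => measurable_pi_apply _)
  have : IsProbabilityMeasure (H.triple cV B B j) :=
    Measure.isProbabilityMeasure_map m1.aemeasurable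
  obtain ⟨δ', hδ', N, R0, R, R', h0, hR, hR', hmain⟩ := dec_core (H.pair cV B j)
    (H.pair cV B j).condKernel (H.triple cV B B j) h δ hδ
  refine ⟨δ', hδ', N, R0, R, R', h0, hR, hR', fun Φ hΦ hbig => ?_⟩
  have mΦ : Measurable (fun x : ((V → H.Om) × (B → H.Om)) × (B → H.Om) =>
      Φ (x.1.1, x.1.2, x.2)) :=
    hΦ.1.comp ((measurable_fst.comp measurable_fst).prodMk
      ((measurable_snd.comp measurable_fst).prodMk measurable_snd))
  obtain ⟨t, s, hs, hfin⟩ := hmain (fun x => Φ (x.1.1, x.1.2, x.2)) ⟨mΦ, fun x => hΦ.2 _⟩ (by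
    unfold Host.triple
    rw [integral_map m1.aemeasurable mΦ.aestronglyMeasurable]
    exact hbig)
  refine ⟨t, s, hs, ?_⟩
  unfold Host.pair at hfin
  rw [integral_map m2.aemeasurable] at hfin
  · exact hfin
  · refine Measurable.aestronglyMeasurable ?_
    have ms : Measurable (fun p : (V → H.Om) × (B → H.Om) => s p.1) := hs.comp measurable_fst
    refine ((Measurable.mul ?_ ?_).mul ?_).mul ?_
    · exact mΦ.comp (measurable_id.prodMk ms)
    · exact (measurable_const.indicator (h0 t)).comp measurable_fst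
    · refine Finset.measurable_fun_prod _ fun v _ => ?_
      exact (measurable_const.indicator (hR t v)).comp ((measurable_pi_apply v).comp measurable_snd)
    · refine Finset.measurable_fun_prod _ fun v _ => ?_
      exact (measurable_const.indicator (hR' t v)).comp ((measurable_pi_apply v).comp ms)

end SPHK
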