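import Pool.Agent.SPHK.Law
import Pool.Agent.SPHK.AI
import Pool.Agent.SPHK.Dec

/-! Project SPHK, row ACM: decorrelation of single vertices gives decorrelation of groups. -/

set_option autoImplicit false

open MeasureTheory ProbabilityTheory Filter
open scoped ENNReal Topology

noncomputable section
namespace SPHK

/-- a.c. independence with the conditional kernel of the third variable -/
theorem ai_cond {Ω A B C : Type} [MeasurableSpace Ω] [MeasurableSpace A] [MeasurableSpace B]
    [MeasurableSpace C] [StandardBorelSpace B] [Nonempty B] [StandardBorelSpace C] [Nonempty C]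
    {P : Measure Ω} [IsProbabilityMeasure P] {X : Ω → A} {Y : Ω → B} {Z : Ω → C}
    (h : Pool.Agent.SPHK.AI P X Y Z) (hX : Measurable X) (hY : Measurable Y) (hZ : Measurable Z) :
    P.map (fun ω => ((X ω, Y ω), Z ω)) ≪
      (P.map (fun ω => (X ω, Y ω))) ⊗ₘ ((P.map (fun ω => (X ω, Z ω))).condKernel.prodMkRight B) := by
  obtain ⟨κ, i1, h2⟩ := h.symm hX hY hZ
  set ρ := P.map (fun ω => (X ω, Z ω)) with hρ
  have hm : Measurable (fun ω => (X ω, Z ω)) := hX.prodMk hZ
  have : IsProbabilityMeasure ρ := Measure.isProbabilityMeasure_map hm.aemeasurable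
  have hfst : ρ.fst = P.map X := by
    rw [hρ, Measure.fst, Measure.map_map measurable_fst hm]
    rfl
  have : IsProbabilityMeasure (P.map X) := Measure.isProbabilityMeasure_map hX.aemeasurable
  have hdis : ρ = (P.map X) ⊗ₘ ρ.condKernel := by
    rw [← hfst]
    exact (ρ.disintegrate ρ.condKernel).symm
  have hsw : Measurable (fun p : (A × C) × B => ((p.1.1, p.2), p.1.2)) := by fun_prop
  have h3 := h2.map hsw
  rw [Measure.map_map hsw (hm.prodMk hY)] at h3
  have h4 : P.map (fun ω => ((X ω, Y ω), Z ω)) ≪
      ((P.map X) ⊗ₘ κ) ⊗ₘ (ρ.condKernel.prodMkRight B) := by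
    have h5 := Pool.Agent.SPHK.compProd_swap (P.map X) ρ.condKernel κ
    rw [← h5, ← hdis]
    exact h3
  set τ := P.map (fun ω => ((X ω, Y ω), Z ω)) with hτ
  have hm' : Measurable (fun ω => ((X ω, Y ω), Z ω)) := (hX.prodMk hY).prodMk hZ
  have : IsProbabilityMeasure τ := Measure.isProbabilityMeasure_map hm'.aemeasurable
  have hfst' : τ.fst = P.map (fun ω => (X ω, Y ω)) := by
    rw [hτ, Measure.fst, Measure.map_map measurable_fst hm']
    rfl
  have h6 := h4
  rw [← τ.disintegrate τ.condKernel] at h6
  have h7 := Measure.absolutelyContinuous_compProd_of_compProd h6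
  rw [τ.disintegrate τ.condKernel, hfst'] at h7
  exact h7

/-- a constant third variable -/
theorem ai_const {Ω A B C : Type} [MeasurableSpace Ω] [MeasurableSpace A] [MeasurableSpace B]
    [MeasurableSpace C] {P : Measure Ω} [IsProbabilityMeasure P] {X : Ω → A} {Y : Ω → B}
    {Z : Ω → C} (hX : Measurable X) (hY : Measurable Y) (hZ : Measurable Z) (c : C)
    (hc : ∀ ω, Z ω = c) : Pool.Agent.SPHK.AI P X Y Z := by
  rw [Pool.Agent.SPHK.AI_iff hX hY hZ]
  refine ⟨Kernel.const A (Measure.dirac c), inferInstance, fun s hs h0 => ?_⟩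
  filter_upwards [h0] with ω hω
  rw [Kernel.const_apply, Measure.dirac_apply' _ (measurable_prodMk_left hs)] at hω
  intro hmem
  rw [hc ω] at hmem
  have : (Prod.mk (X ω, Y ω) ⁻¹' s).indicator (1 : C → ℝ≥0∞) c = 1 := by
    rw [Set.indicator_of_mem]
    · rfl
    · exact hmem
  rw [this] at hω
  exact one_ne_zero hω

section fin

variable {U O : Type} [MeasurableSpace O]

/-- restriction to a finite set of vertices -/
def rs (A : Finset U) (y : U → O) : A → O := fun i => y i.1

theorem measurable_rs (A : Finset U) : Measurable (rs A : (U → O) → (A → O)) :=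
  measurable_pi_lambda _ fun _ => measurable_pi_apply _

theorem rs_sub {A T : Finset U} (h : A ⊆ T) : ∃ g : (T → O) → (A → O), Measurable g ∧
    ∀ y : U → O, rs A y = g (rs T y) :=
  ⟨fun z i => z ⟨i.1, h i.2⟩, measurable_pi_lambda _ fun _ => measurable_pi_apply _, fun _ => rfl⟩

theorem rs_glue [DecidableEq U] {A S T : Finset U} (h : T ⊆ A ∪ S) :
    ∃ g : (A → O) × (S → O) → (T → O), Measurable g ∧ ∀ y : U → O, rs T y = g (rs A y, rs S y) := by
  refine ⟨fun p i => if hi : i.1 ∈ A then p.1 ⟨i.1, hi⟩ else
    p.2 ⟨i.1, (Finset.mem_union.1 (h i.2)).resolve_left hi⟩, ?_, ?_⟩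
  · refine measurable_pi_lambda _ fun i => ?_
    by_cases hi : i.1 ∈ A
    · simp only [hi, dif_pos]
      exact (measurable_pi_apply _).comp measurable_fst
    · simp only [hi, dif_neg, not_false_eq_true]
      exact (measurable_pi_apply _).comp measurable_snd
  · intro y
    funext i
    by_cases hi : i.1 ∈ A
    · simp [hi, rs]
    · simp [hi, rs]

end fin

variable {J : Type} (H : Host J)

/-- AC with an arbitrary Markov kernel -/
def Host.ACe {V : Type} [Fintype V] (cV : V → J) (B B' : Type) [Fintype B] [Fintype B']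
    (j : J) : Prop :=
  ∃ κ : Kernel (V → H.Om) (B' → H.Om), IsMarkovKernel κ ∧
    H.triple cV B B' j ≪ (H.pair cV B j) ⊗ₘ (κ.prodMkRight (B → H.Om))

/-- the same for single vertices and all bases up to size N -/
def Host.ACe1s (N : ℕ) : Prop :=
  ∀ (V : Type) [Fintype V] (cV : V → J) (j : J), Fintype.card V ≤ N → H.ACe cV Unit Unit j

variable {H} in
theorem Host.AC1s.ace {N : ℕ} (h : H.AC1s N) : H.ACe1s N := by
  intro V _ cV j hV
  exact ⟨(H.pair cV Unit j).condKernel, inferInstance, h V cV j hV⟩

/-- a.c. independence of two groups over a base, in the law of a finite vertex set -/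
def Host.AIF {U : Type} [Fintype U] (cl : U → J) (A T S : Finset U) : Prop :=
  Pool.Agent.SPHK.AI (H.law cl) (rs A) (rs T) (rs S)

variable {H} in
theorem Host.AIF.symm {U : Type} [Fintype U] {cl : U → J} {A T S : Finset U}
    (h : H.AIF cl A T S) : H.AIF cl A S T :=
  Pool.Agent.SPHK.AI.symm h (measurable_rs A) (measurable_rs T) (measurable_rs S)

variable {H} in
theorem Host.AIF.chain {U : Type} [Fintype U] [DecidableEq U] {cl : U → J} {A T S S' : Finset U}
    (h : H.AIF cl A T S) (h' : H.AIF cl (A ∪ S) T S') : H.AIF cl A T (S ∪ S') := by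
  obtain ⟨e, he, he'⟩ := rs_glue (O := H.Om) (A := A) (S := S) (T := A ∪ S) subset_rfl
  obtain ⟨f1, hf1, hf1'⟩ := rs_sub (O := H.Om) (A := A) (T := A ∪ S) Finset.subset_union_left
  obtain ⟨f2, hf2, hf2'⟩ := rs_sub (O := H.Om) (A := S) (T := A ∪ S) Finset.subset_union_right
  have h1 : Pool.Agent.SPHK.AI (H.law cl) (fun y => (rs A y, rs S y)) (rs T) (rs S') :=
    Pool.Agent.SPHK.AI.base h' (measurable_rs _) (measurable_rs _) (measurable_rs _)
      ((measurable_rs A).prodMk (measurable_rs S)) he (hf1.prodMk hf2) he'
      (fun y => Prod.ext (hf1' y) (hf2' y))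
  have h2 := Pool.Agent.SPHK.AI.chain h h1 (measurable_rs _) (measurable_rs _) (measurable_rs _)
    (measurable_rs _)
  obtain ⟨g, hg, hg'⟩ := rs_glue (O := H.Om) (A := S) (S := S') (T := S ∪ S') subset_rfl
  have h3 := Pool.Agent.SPHK.AI.comp h2 (measurable_rs _) (measurable_rs _)
    ((measurable_rs _).prodMk (measurable_rs _)) measurable_id hg
  have h4 : (fun y : U → H.Om => g (rs S y, rs S' y)) = rs (S ∪ S') := funext fun y => (hg' y).symm
  rw [h4] at h3
  exact h3

theorem Host.AIF_empty {U : Type} [Fintype U] (cl : U → J) (A T : Finset U) :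
    H.AIF cl A T ∅ := by
  refine ai_const (measurable_rs _) (measurable_rs _) (measurable_rs _)
    (fun i => (Finset.notMem_empty _ i.2).elim) (fun y => ?_)
  funext i
  exact (Finset.notMem_empty _ i.2).elim

/-- single vertices -/
theorem Host.AIF_one (N : ℕ) (h : H.ACe1s N) {U : Type} [Fintype U] (cl : U → J) (A : Finset U)
    (hA : A.card ≤ N) {t s : U} (htA : t ∉ A) (hsA : s ∉ A) (hts : t ≠ s) {j : J} (ht : cl t = j)
    (hs : cl s = j) : H.AIF cl A {t} {s} := by
  classical
  obtain ⟨κ, hκ, h1⟩ := h A (fun i => cl i.1) j (by rw [Fintype.card_coe]; exact hA)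
  let i : A ⊕ (Unit ⊕ Unit) → U := Sum.elim (fun a => a.1) (Sum.elim (fun _ => t) (fun _ => s))
  have hi : Function.Injective i := by
    rintro (a | a | a) (b | b | b) hab
    · exact congrArg Sum.inl (Subtype.ext hab)
    · exact (htA ((show a.1 = t from hab) ▸ a.2)).elim
    · exact (hsA ((show a.1 = s from hab) ▸ a.2)).elim
    · exact (htA ((show t = b.1 from hab) ▸ b.2)).elim
    · rfl
    · exact (hts hab).elim
    · exact (hsA ((show s = b.1 from hab) ▸ b.2)).elim
    · exact (hts (show s = t from hab).symm).elim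
    · rfl
  have hcl : (fun v => cl (i v)) = Sum.elim (fun a : A => cl a.1)
      (Sum.elim (fun _ : Unit => j) (fun _ : Unit => j)) := by
    funext v
    rcases v with a | a | a
    · rfl
    · exact ht
    · exact hs
  have hmi : Measurable (fun (y : U → H.Om) (v' : A ⊕ (Unit ⊕ Unit)) => y (i v')) :=
    measurable_pi_lambda _ fun v' => measurable_pi_apply _
  have h2 := H.law_map cl i hi
  rw [hcl] at h2
  let X : (U → H.Om) → (A → H.Om) := rs A
  let Y : (U → H.Om) → (Unit → H.Om) := fun y _ => y t
  let Z : (U → H.Om) → (Unit → H.Om) := fun y _ => y s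
  have mX : Measurable X := measurable_rs A
  have mY : Measurable Y := measurable_pi_lambda _ fun _ => measurable_pi_apply _
  have mZ : Measurable Z := measurable_pi_lambda _ fun _ => measurable_pi_apply _
  have h3 : (H.law cl).map (fun y => ((X y, Y y), Z y)) =
      H.triple (fun a : A => cl a.1) Unit Unit j := by
    unfold Host.triple
    rw [← h2, Measure.map_map ?_ hmi]
    · rfl
    · exact ((measurable_pi_lambda _ fun v => measurable_pi_apply _).prodMk
        (measurable_pi_lambda _ fun v => measurable_pi_apply _)).prodMk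
        (measurable_pi_lambda _ fun v => measurable_pi_apply _)
  have h4 : (H.law cl).map (fun y => (X y, Y y)) = H.pair (fun a : A => cl a.1) Unit j := by
    unfold Host.pair
    let i' : A ⊕ Unit → U := Sum.elim (fun a => a.1) (fun _ => t)
    have hi' : Function.Injective i' := by
      rintro (a | a) (b | b) hab
      · exact congrArg Sum.inl (Subtype.ext hab)
      · exact (htA ((show a.1 = t from hab) ▸ a.2)).elim
      · exact (htA ((show t = b.1 from hab) ▸ b.2)).elim
      · rfl
    have h5 := H.law_map cl i' hi'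
    have hcl' : (fun v => cl (i' v)) = Sum.elim (fun a : A => cl a.1) (fun _ : Unit => j) := by
      funext v
      rcases v with a | a
      · rfl
      · exact ht
    rw [hcl'] at h5
    have hm' : Measurable (fun (y : U → H.Om) (v' : A ⊕ Unit) => y (i' v')) :=
      measurable_pi_lambda _ fun v' => measurable_pi_apply _
    rw [← h5, Measure.map_map ?_ hm']
    · rfl
    · exact (measurable_pi_lambda _ fun v => measurable_pi_apply _).prodMk
        (measurable_pi_lambda _ fun v => measurable_pi_apply _)
  have h5 : Pool.Agent.SPHK.AI (H.law cl) X Y Z := by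
    refine ⟨κ, hκ, ?_⟩
    rw [h3, h4]
    exact h1
  have h6 := Pool.Agent.SPHK.AI.comp h5 mX mY mZ
    (f := fun (z : Unit → H.Om) (_ : ({t} : Finset U)) => z ())
    (measurable_pi_lambda _ fun _ => measurable_pi_apply _)
    (g := fun (z : Unit → H.Om) (_ : ({s} : Finset U)) => z ())
    (measurable_pi_lambda _ fun _ => measurable_pi_apply _)
  have h7 : (fun (y : U → H.Om) (_ : ({t} : Finset U)) => Y y ()) = rs {t} := by
    funext y k
    have : k.1 = t := Finset.mem_singleton.1 k.2
    simp only [rs, Y, this]
  have h8 : (fun (y : U → H.Om) (_ : ({s} : Finset U)) => Z y ()) = rs {s} := by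
    funext y k
    have : k.1 = s := Finset.mem_singleton.1 k.2
    simp only [rs, Z, this]
  change Pool.Agent.SPHK.AI (H.law cl) X (fun (y : U → H.Om) (_ : ({t} : Finset U)) => Y y ())
    (fun (y : U → H.Om) (_ : ({s} : Finset U)) => Z y ()) at h6
  rw [h7, h8] at h6
  exact h6

/-- one vertex against a group -/
theorem Host.AIF_left (N : ℕ) (h : H.ACe1s N) {U : Type} [Fintype U] [DecidableEq U] (cl : U → J)
    {j : J} (t : U) (ht : cl t = j) (S : Finset U) :
    ∀ A : Finset U, A.card + S.card ≤ N + 1 → t ∉ A → t ∉ S → Disjoint A S →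
      (∀ s ∈ S, cl s = j) → H.AIF cl A {t} S := by
  induction S using Finset.induction_on with
  | empty => intro A _ _ _ _ _; exact H.AIF_empty cl A {t}
  | insert s S hsS ih =>
    intro A hN htA htS hd hS
    have h1 : H.AIF cl A {t} S := by
      refine ih A ?_ htA (fun h => htS (Finset.mem_insert_of_mem h)) ?_
        (fun s' hs' => hS s' (Finset.mem_insert_of_mem hs'))
      · rw [Finset.card_insert_of_notMem hsS] at hN; omega
      · exact hd.mono_right (Finset.subset_insert _ _)
    have hsA : s ∉ A := fun hmem => (Finset.disjoint_left.1 hd) hmem (Finset.mem_insert_self _ _)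
    have h2 : H.AIF cl (A ∪ S) {t} {s} := by
      refine H.AIF_one N h cl (A ∪ S) ?_ ?_ ?_ ?_ ht (hS s (Finset.mem_insert_self _ _))
      · have := Finset.card_union_le A S
        rw [Finset.card_insert_of_notMem hsS] at hN
        omega
      · rw [Finset.mem_union, not_or]
        exact ⟨htA, fun h => htS (Finset.mem_insert_of_mem h)⟩
      · rw [Finset.mem_union, not_or]
        exact ⟨hsA, hsS⟩
      · rintro rfl
        exact htS (Finset.mem_insert_self _ _)
    have h3 := h1.chain h2
    have h4 : S ∪ {s} = insert s S := by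
      rw [Finset.union_comm, Finset.insert_eq]
    rwa [h4] at h3

/-- a group against a group -/
theorem Host.AIF_groups (N : ℕ) (h : H.ACe1s N) {U : Type} [Fintype U] [DecidableEq U] (cl : U → J)
    {j : J} (T : Finset U) (hT : ∀ t ∈ T, cl t = j) (S : Finset U) :
    ∀ A : Finset U, A.card + T.card + S.card ≤ N + 2 → Disjoint A T → Disjoint A S →
      Disjoint T S → (∀ s ∈ S, cl s = j) → H.AIF cl A T S := by
  induction S using Finset.induction_on with
  | empty => intro A _ _ _ _ _; exact H.AIF_empty cl A T
  | insert s S hsS ih =>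
    intro A hN hAT hAS hTS hS
    have hN' : A.card + T.card + (S.card + 1) ≤ N + 2 := by
      rwa [Finset.card_insert_of_notMem hsS] at hN
    have hsA : s ∉ A := fun hmem => (Finset.disjoint_left.1 hAS) hmem (Finset.mem_insert_self _ _)
    have hsT : s ∉ T := fun hmem => (Finset.disjoint_left.1 hTS) hmem (Finset.mem_insert_self _ _)
    have h1 : H.AIF cl A T S := by
      refine ih A ?_ hAT (hAS.mono_right (Finset.subset_insert _ _))
        (hTS.mono_right (Finset.subset_insert _ _))
        (fun s' hs' => hS s' (Finset.mem_insert_of_mem hs'))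
      omega
    have h2 : H.AIF cl (A ∪ S) {s} T := by
      refine H.AIF_left N h cl s (hS s (Finset.mem_insert_self _ _)) T (A ∪ S) ?_ ?_ hsT ?_ hT
      · have := Finset.card_union_le A S
        omega
      · rw [Finset.mem_union, not_or]
        exact ⟨hsA, hsS⟩
      · rw [Finset.disjoint_union_left]
        exact ⟨hAT, (hTS.mono_right (Finset.subset_insert _ _)).symm⟩
    have h3 := h1.chain h2.symm
    have h4 : S ∪ {s} = insert s S := by
      rw [Finset.union_comm, Finset.insert_eq]
    rwa [h4] at h3

theorem Host.ac_of_ace1 (N : ℕ) (h : H.ACe1s N) {V B B' : Type} [Fintype V] [Fintype B]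
    [Fintype B'] (cV : V → J) (j : J)
    (hN : Fintype.card V + Fintype.card B + Fintype.card B' ≤ N) : H.AC cV B B' j := by
  classical
  let U := V ⊕ (B ⊕ B')
  let cl : U → J := Sum.elim cV (Sum.elim (fun _ : B => j) (fun _ : B' => j))
  let A : Finset U := Finset.univ.map ⟨Sum.inl, Sum.inl_injective⟩
  let T : Finset U := Finset.univ.map ⟨fun b : B => Sum.inr (Sum.inl b),
    fun a b hab => Sum.inl_injective (Sum.inr_injective hab)⟩
  let S : Finset U := Finset.univ.map ⟨fun b : B' => Sum.inr (Sum.inr b),
    fun a b hab => Sum.inr_injective (Sum.inr_injective hab)⟩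
  have hAT : Disjoint A T := by
    rw [Finset.disjoint_left]
    simp [A, T]
  have hAS : Disjoint A S := by
    rw [Finset.disjoint_left]
    simp [A, S]
  have hTS : Disjoint T S := by
    rw [Finset.disjoint_left]
    intro x hx hx'
    simp only [T, S, Finset.mem_map, Finset.mem_univ, true_and, Function.Embedding.coeFn_mk]
      at hx hx'
    obtain ⟨b, rfl⟩ := hx
    obtain ⟨b', hb'⟩ := hx'
    exact Sum.inr_ne_inl (Sum.inr_injective hb')
  have hT : ∀ t ∈ T, cl t = j := by
    intro t ht
    simp only [T, Finset.mem_map, Finset.mem_univ, true_and, Function.Embedding.coeFn_mk] at ht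
    obtain ⟨b, rfl⟩ := ht
    rfl
  have hS : ∀ t ∈ S, cl t = j := by
    intro t ht
    simp only [S, Finset.mem_map, Finset.mem_univ, true_and, Function.Embedding.coeFn_mk] at ht
    obtain ⟨b, rfl⟩ := ht
    rfl
  have h1 : H.AIF cl A T S := by
    refine H.AIF_groups N h cl T hT S A ?_ hAT hAS hTS hS
    simp only [A, T, S, Finset.card_map, Finset.card_univ]
    omega
  let X : (U → H.Om) → (V → H.Om) := fun y v => y (Sum.inl v)
  let Y : (U → H.Om) → (B → H.Om) := fun y b => y (Sum.inr (Sum.inl b))
  let Z : (U → H.Om) → (B' → H.Om) := fun y b => y (Sum.inr (Sum.inr b))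
  have mX : Measurable X := measurable_pi_lambda _ fun v => measurable_pi_apply _
  have mY : Measurable Y := measurable_pi_lambda _ fun v => measurable_pi_apply _
  have mZ : Measurable Z := measurable_pi_lambda _ fun v => measurable_pi_apply _
  have memA : ∀ v : V, (Sum.inl v : U) ∈ A := fun v => by simp [A]
  have memT : ∀ v : B, (Sum.inr (Sum.inl v) : U) ∈ T := fun v => by simp [T]
  have memS : ∀ v : B', (Sum.inr (Sum.inr v) : U) ∈ S := fun v => by simp [S]
  have h2 : Pool.Agent.SPHK.AI (H.law cl) (rs A) Y Z := by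
    have h3 := Pool.Agent.SPHK.AI.comp h1 (measurable_rs _) (measurable_rs _) (measurable_rs _)
      (f := fun (z : T → H.Om) (b : B) => z ⟨_, memT b⟩)
      (measurable_pi_lambda _ fun _ => measurable_pi_apply _)
      (g := fun (z : S → H.Om) (b : B') => z ⟨_, memS b⟩)
      (measurable_pi_lambda _ fun _ => measurable_pi_apply _)
    exact h3
  have h3 : Pool.Agent.SPHK.AI (H.law cl) X Y Z := by
    refine Pool.Agent.SPHK.AI.base h2 (measurable_rs _) mY mZ mX
      (e := fun (z : V → H.Om) (i : A) => z (Classical.choose (show ∃ v : V, Sum.inl v = i.1 by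
        have := i.2
        simp only [A, Finset.mem_map, Finset.mem_univ, true_and, Function.Embedding.coeFn_mk]
          at this
        exact this))) (measurable_pi_lambda _ fun _ => measurable_pi_apply _)
      (e' := fun (z : A → H.Om) (v : V) => z ⟨_, memA v⟩)
      (measurable_pi_lambda _ fun _ => measurable_pi_apply _) (fun y => ?_) (fun y => rfl)
    funext i
    have h4 : ∃ v : V, Sum.inl v = i.1 := by
      have := i.2
      simp only [A, Finset.mem_map, Finset.mem_univ, true_and, Function.Embedding.coeFn_mk]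
        at this
      exact this
    change y i.1 = y (Sum.inl (Classical.choose h4))
    rw [Classical.choose_spec h4]
  have h4 := ai_cond h3 mX mY mZ
  unfold Host.AC
  have e1 : H.triple cV B B' j = (H.law cl).map (fun y => ((X y, Y y), Z y)) := rfl
  have e2 : H.pair cV B j = (H.law cl).map (fun y => (X y, Y y)) := by
    unfold Host.pair
    have hi : Function.Injective (Sum.map id Sum.inl : V ⊕ B → U) :=
      Function.Injective.sumMap Function.injective_id Sum.inl_injective
    have h5 := H.law_map cl (Sum.map id Sum.inl) hi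
    have h6 : (fun v => cl (Sum.map id Sum.inl v)) = Sum.elim cV (fun _ : B => j) := by
      funext v
      rcases v with a | a <;> rfl
    rw [h6] at h5
    have hm' : Measurable (fun (y : U → H.Om) (v' : V ⊕ B) => y (Sum.map id Sum.inl v')) :=
      measurable_pi_lambda _ fun v' => measurable_pi_apply _
    rw [← h5, Measure.map_map ?_ hm']
    · rfl
    · exact (measurable_pi_lambda _ fun v => measurable_pi_apply _).prodMk
        (measurable_pi_lambda _ fun v => measurable_pi_apply _)
  have e3 : H.pair cV B' j = (H.law cl).map (fun y => (X y, Z y)) := by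
    unfold Host.pair
    have hi : Function.Injective (Sum.map id Sum.inr : V ⊕ B' → U) :=
      Function.Injective.sumMap Function.injective_id Sum.inr_injective
    have h5 := H.law_map cl (Sum.map id Sum.inr) hi
    have h6 : (fun v => cl (Sum.map id Sum.inr v)) = Sum.elim cV (fun _ : B' => j) := by
      funext v
      rcases v with a | a <;> rfl
    rw [h6] at h5
    have hm' : Measurable (fun (y : U → H.Om) (v' : V ⊕ B') => y (Sum.map id Sum.inr v')) :=
      measurable_pi_lambda _ fun v' => measurable_pi_apply _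
    rw [← h5, Measure.map_map ?_ hm']
    · rfl
    · exact (measurable_pi_lambda _ fun v => measurable_pi_apply _).prodMk
        (measurable_pi_lambda _ fun v => measurable_pi_apply _)
  simp only [e1, e2, e3]
  exact h4

theorem Host.decs_of_ace1 (N : ℕ) (h : H.ACe1s (2 * N)) : H.DECs N := by
  intro V B _ _ cV j hN
  refine H.dec_of_ac cV j (H.ac_of_ace1 (2 * N) h cV j ?_)
  omega

theorem Host.ac_of_ac1 (N : ℕ) (h : H.AC1s N) {V B B' : Type} [Fintype V] [Fintype B] [Fintype B']
    (cV : V → J) (j : J) (hN : Fintype.card V + Fintype.card B + Fintype.card B' ≤ N) :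
    H.AC cV B B' j :=
  H.ac_of_ace1 N h.ace cV j hN

theorem Host.decs_of_ac1 (N : ℕ) (h : H.AC1s (2 * N)) : H.DECs N :=
  H.decs_of_ace1 N h.ace

end SPHK
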