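import Mathlib

/-! Project SPHK: the sigma algebras of part A.8 and the condition CI (defs only, no hosts). -/

set_option autoImplicit false

open MeasureTheory ProbabilityTheory Filter
open scoped ENNReal Topology

noncomputable section
namespace SPHK

variable {J : Type} [Fintype J] [DecidableEq J] {Ω : Type} [MeasurableSpace Ω] {X : Type}
  {D : Type} (y : X → J → Ω) (f : D → Finset J) (t : D → X → Bool)

/-- sigma( y_v (v in e) ) -/
@[instance_reducible] def SY (e : Finset J) : MeasurableSpace X :=
  ⨆ v ∈ e, MeasurableSpace.comap (fun x => y x v) inferInstance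

/-- G(e,s) = sigma( y_v (v in e), t_δ (f δ in e, card at most s) ) -/
@[instance_reducible] def GG (e : Finset J) (s : ℕ) : MeasurableSpace X :=
  SY y e ⊔ ⨆ δ ∈ {δ : D | f δ ⊆ e ∧ (f δ).card ≤ s}, MeasurableSpace.comap (t δ) inferInstance

/-- the same with a finite set E of digits only -/
@[instance_reducible] def GF (e : Finset J) (s : ℕ) (E : Finset D) : MeasurableSpace X :=
  SY y e ⊔ ⨆ δ ∈ {δ : D | δ ∈ E ∧ f δ ⊆ e ∧ (f δ).card ≤ s},
    MeasurableSpace.comap (t δ) inferInstance

/-- R(f0) = sigma( y, t_δ with card (f δ) ≤ card f0 and f δ ≠ f0 ) -/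
@[instance_reducible] def RR (f0 : Finset J) : MeasurableSpace X :=
  SY y Finset.univ ⊔ ⨆ δ ∈ {δ : D | (f δ).card ≤ f0.card ∧ f δ ≠ f0},
    MeasurableSpace.comap (t δ) inferInstance

/-- CI: for every nonempty f0 and every bounded G(f0, card f0)-measurable function the conditional
expectations on R(f0) and on G(f0, card f0 - 1) agree -/
def CI [MeasurableSpace X] (P : Measure X) : Prop :=
  ∀ f0 : Finset J, f0.Nonempty → ∀ φ : X → ℝ, Measurable[GG y f t f0 f0.card] φ → (∀ x, |φ x| ≤ 1) →
    P[φ | RR y f t f0] =ᵐ[P] P[φ | GG y f t f0 (f0.card - 1)]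

end SPHK
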