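import Pool.Agent.SPHK.Host
import Pool.Agent.SPHK.Digit

/-! Project SPHK: digits of a host (defs only). -/

set_option autoImplicit false

open MeasureTheory ProbabilityTheory Filter
open scoped ENNReal Topology

noncomputable section
namespace SPHK

/-- a sequence of sets of labels of the vertices in f -/
structure HDigit {J : Type} [Fintype J] [DecidableEq J] (H : Host J) where
  f : Finset J
  nef : f.Nonempty
  G : ℕ → Set (J → H.Om)
  meas : ∀ n, MeasurableSet (G n)
  dep : ∀ n, DependsOn (fun y => y ∈ G n) (f : Set J)

variable {J : Type} [Fintype J] [DecidableEq J] (H : Host J)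

/-- the law of one vertex in each class -/
def Host.lam : Measure (J → H.Om) := H.law (fun j : J => j)

instance : IsProbabilityMeasure H.lam := by unfold Host.lam; infer_instance

open scoped Classical in
/-- value of the digits at stage n -/
def tval {H : Host J} {D : Type} (dg : D → HDigit H) (n : ℕ) (y : J → H.Om) : D → Bool :=
  fun δ => decide (y ∈ (dg δ).G n)

/-- algebra generated by finitely many digits at stage n -/
@[instance_reducible] def algn {H : Host J} (E : Finset (HDigit H)) (n : ℕ) :
    MeasurableSpace (J → H.Om) :=
  MeasurableSpace.generateFrom {S | ∃ d ∈ E, S = d.G n}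

/-- energy of a digit with respect to finitely many digits at stage n -/
def energyn {H : Host J} (A : HDigit H) (E : Finset (HDigit H)) (n : ℕ) : ℝ :=
  ∫ y, ((H.lam)[(A.G n).indicator (fun _ => (1 : ℝ)) | algn E n] y) ^ 2 ∂H.lam

/-- the digits of E are of strictly lower order than f: support f without one element -/
def LowOrder {H : Host J} (f : Finset J) (E : Finset (HDigit H)) : Prop :=
  ∀ d ∈ E, ∃ v ∈ f, d.f = f.erase v

/-- intersection of two digits with the same support -/
def interDigit {H : Host J} (A B : HDigit H) (h : A.f = B.f) : HDigit H where
  f := A.f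
  nef := A.nef
  G := fun n => A.G n ∩ B.G n
  meas := fun n => (A.meas n).inter (B.meas n)
  dep := by
    intro n x y hxy
    have h1 := A.dep n hxy
    have h2 := B.dep n (h ▸ hxy)
    simp only [Set.mem_inter_iff] at *
    rw [h1, h2]

end SPHK
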