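import Mathlib

/-! Project SPHK (MP_f7e9f1_co): laws of projections of the direction of a Lebesgue random vector.
All statements are about Lebesgue null sets. -/

open MeasureTheory Set Metric Filter Module
open scoped ENNReal NNReal Topology

noncomputable section
namespace SPHK

/-- the direction of a vector -/
def dirn {V : Type*} [NormedAddCommGroup V] [NormedSpace ℝ V] (x : V) : V := (‖x‖)⁻¹ • x

theorem norm_dirn {V : Type*} [NormedAddCommGroup V] [NormedSpace ℝ V] {x : V} (hx : x ≠ 0) :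
    ‖dirn x‖ = 1 := by
  unfold dirn
  rw [norm_smul, norm_inv, norm_norm, inv_mul_cancel₀ (norm_ne_zero_iff.mpr hx)]

theorem measurable_dirn {V : Type*} [NormedAddCommGroup V] [NormedSpace ℝ V] [MeasurableSpace V]
    [BorelSpace V] [SecondCountableTopology V] : Measurable (dirn (V := V)) :=
  (measurable_norm.inv).smul measurable_id

namespace Prj

section ball
variable {W : Type*} [NormedAddCommGroup W] [InnerProductSpace ℝ W] [FiniteDimensional ℝ W]
  [MeasurableSpace W] [BorelSpace W] (μ : Measure W) [μ.IsAddHaarMeasure]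

/-- the map from the space onto the open ball -/
def phi (ρ : ℝ) (w : W) : W := (Real.sqrt (‖w‖ ^ 2 + ρ ^ 2))⁻¹ • w

/-- the inverse map -/
def psi (ρ : ℝ) (y : W) : W := (ρ * (Real.sqrt (1 - ‖y‖ ^ 2))⁻¹) • y

omit [InnerProductSpace ℝ W] [FiniteDimensional ℝ W] [MeasurableSpace W] [BorelSpace W] in
theorem pos_add {ρ : ℝ} (hρ : 0 < ρ) (w : W) : 0 < ‖w‖ ^ 2 + ρ ^ 2 := by positivity

omit [FiniteDimensional ℝ W] [MeasurableSpace W] [BorelSpace W] in
theorem norm_phi_sq {ρ : ℝ} (hρ : 0 < ρ) (w : W) :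
    ‖phi ρ w‖ ^ 2 = ‖w‖ ^ 2 / (‖w‖ ^ 2 + ρ ^ 2) := by
  unfold phi
  rw [norm_smul, norm_inv, Real.norm_eq_abs, abs_of_nonneg (Real.sqrt_nonneg _), mul_pow, inv_pow,
    Real.sq_sqrt (pos_add hρ w).le]
  field_simp

omit [FiniteDimensional ℝ W] [MeasurableSpace W] [BorelSpace W] in
theorem norm_phi_lt {ρ : ℝ} (hρ : 0 < ρ) (w : W) : ‖phi ρ w‖ < 1 := by
  have h1 := norm_phi_sq hρ w
  have h2 : ‖phi ρ w‖ ^ 2 < 1 := by
    rw [h1, div_lt_one (pos_add hρ w)]
    have : 0 < ρ ^ 2 := by positivity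
    linarith
  nlinarith [norm_nonneg (phi ρ w)]

omit [FiniteDimensional ℝ W] [MeasurableSpace W] [BorelSpace W] in
theorem psi_phi {ρ : ℝ} (hρ : 0 < ρ) (w : W) : psi ρ (phi ρ w) = w := by
  have hp := pos_add hρ w
  have h1 : 1 - ‖phi ρ w‖ ^ 2 = ρ ^ 2 / (‖w‖ ^ 2 + ρ ^ 2) := by
    rw [norm_phi_sq hρ w]
    field_simp
    ring
  unfold psi
  rw [h1, Real.sqrt_div' _ hp.le, Real.sqrt_sq hρ.le]
  unfold phi
  rw [smul_smul]
  have h2 : Real.sqrt (‖w‖ ^ 2 + ρ ^ 2) ≠ 0 := (Real.sqrt_pos.mpr hp).ne'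
  have h3 : ρ * (ρ / Real.sqrt (‖w‖ ^ 2 + ρ ^ 2))⁻¹ * (Real.sqrt (‖w‖ ^ 2 + ρ ^ 2))⁻¹ = 1 := by
    field_simp
  rw [h3, one_smul]

omit [FiniteDimensional ℝ W] [MeasurableSpace W] [BorelSpace W] in
theorem phi_psi {ρ : ℝ} (hρ : 0 < ρ) {y : W} (hy : ‖y‖ < 1) : phi ρ (psi ρ y) = y := by
  have h0 : 0 < 1 - ‖y‖ ^ 2 := by nlinarith [norm_nonneg y]
  have hs : 0 < Real.sqrt (1 - ‖y‖ ^ 2) := Real.sqrt_pos.mpr h0
  have h1 : ‖psi ρ y‖ ^ 2 + ρ ^ 2 = ρ ^ 2 / (1 - ‖y‖ ^ 2) := by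
    unfold psi
    rw [norm_smul, mul_pow, Real.norm_eq_abs, sq_abs, mul_pow, inv_pow, Real.sq_sqrt h0.le]
    field_simp
    ring
  unfold phi
  rw [h1, Real.sqrt_div' _ h0.le, Real.sqrt_sq hρ.le]
  unfold psi
  rw [smul_smul]
  have h3 : (ρ / Real.sqrt (1 - ‖y‖ ^ 2))⁻¹ * (ρ * (Real.sqrt (1 - ‖y‖ ^ 2))⁻¹) = 1 := by
    field_simp
  rw [h3, one_smul]

omit [FiniteDimensional ℝ W] [MeasurableSpace W] [BorelSpace W] in
theorem differentiable_phi {ρ : ℝ} (hρ : 0 < ρ) : Differentiable ℝ (phi (W := W) ρ) := by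
  intro w
  unfold phi
  have h1 : DifferentiableAt ℝ (fun w : W => ‖w‖ ^ 2 + ρ ^ 2) w :=
    (differentiableAt_id.norm_sq ℝ).add_const _
  have h2 : DifferentiableAt ℝ (fun w : W => Real.sqrt (‖w‖ ^ 2 + ρ ^ 2)) w :=
    h1.sqrt (pos_add hρ w).ne'
  have h3 : DifferentiableAt ℝ (fun w : W => (Real.sqrt (‖w‖ ^ 2 + ρ ^ 2))⁻¹) w :=
    h2.inv (Real.sqrt_pos.mpr (pos_add hρ w)).ne'
  exact h3.smul differentiableAt_id

omit [FiniteDimensional ℝ W] [MeasurableSpace W] [BorelSpace W] in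
theorem differentiableOn_psi {ρ : ℝ} : DifferentiableOn ℝ (psi (W := W) ρ) (ball 0 1) := by
  intro y hy
  have hy' : ‖y‖ < 1 := by simpa using hy
  have h0 : 0 < 1 - ‖y‖ ^ 2 := by nlinarith [norm_nonneg y]
  apply DifferentiableAt.differentiableWithinAt
  unfold psi
  have h1 : DifferentiableAt ℝ (fun w : W => 1 - ‖w‖ ^ 2) y :=
    (differentiableAt_id.norm_sq ℝ).const_sub _
  have h2 : DifferentiableAt ℝ (fun w : W => Real.sqrt (1 - ‖w‖ ^ 2)) y := h1.sqrt h0.ne'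
  have h3 : DifferentiableAt ℝ (fun w : W => (Real.sqrt (1 - ‖w‖ ^ 2))⁻¹) y :=
    h2.inv (Real.sqrt_pos.mpr h0).ne'
  exact (h3.const_mul ρ).smul differentiableAt_id

theorem null_phi {ρ : ℝ} (hρ : 0 < ρ) {N : Set W} (hN : μ (N ∩ ball 0 1) = 0) :
    μ (phi ρ ⁻¹' N) = 0 := by
  refine measure_mono_null ?_ (addHaar_image_eq_zero_of_differentiableOn_of_addHaar_eq_zero μ
    ((differentiableOn_psi (W := W) (ρ := ρ)).mono inter_subset_right) hN)
  intro w hw
  refine ⟨phi ρ w, ⟨hw, ?_⟩, psi_phi hρ w⟩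
  simpa using norm_phi_lt hρ w

theorem null_of_phi {ρ : ℝ} (hρ : 0 < ρ) {N : Set W} (hN : μ (phi ρ ⁻¹' N) = 0) :
    μ (N ∩ ball 0 1) = 0 := by
  refine measure_mono_null ?_ (addHaar_image_eq_zero_of_differentiableOn_of_addHaar_eq_zero μ
    ((differentiable_phi (W := W) hρ).differentiableOn) hN)
  rintro y ⟨hy, hy1⟩
  have hy' : ‖y‖ < 1 := by simpa using hy1
  refine ⟨psi ρ y, ?_, phi_psi hρ hy'⟩
  show phi ρ (psi ρ y) ∈ N
  rw [phi_psi hρ hy']
  exact hy

end ball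

section proj
variable {V : Type*} [NormedAddCommGroup V] [InnerProductSpace ℝ V] [FiniteDimensional ℝ V]
  [MeasurableSpace V] [BorelSpace V]

omit [FiniteDimensional ℝ V] [MeasurableSpace V] [BorelSpace V] in
theorem norm_add_orth (W : Submodule ℝ V) (w : W) (z : Wᗮ) :
    ‖(w : V) + (z : V)‖ = Real.sqrt (‖w‖ ^ 2 + ‖z‖ ^ 2) := by
  have h : ‖(w : V) + (z : V)‖ ^ 2 = ‖w‖ ^ 2 + ‖z‖ ^ 2 := by
    have h0 : inner ℝ (w : V) (z : V) = 0 := (Submodule.mem_orthogonal W (z : V)).mp z.2 w w.2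
    rw [norm_add_sq_real, h0]
    simp
  rw [← h, Real.sqrt_sq (norm_nonneg _)]

omit [MeasurableSpace V] [BorelSpace V] in
theorem proj_dirn_add (W : Submodule ℝ V) (w : W) (z : Wᗮ) :
    W.orthogonalProjectionOnto (dirn ((w : V) + (z : V))) = phi ‖z‖ w := by
  unfold dirn phi
  rw [map_smul, map_add, norm_add_orth,
    Submodule.orthogonalProjectionOnto_mem_subspace_eq_self,
    Submodule.orthogonalProjectionOnto_apply_of_mem_orthogonal z.2, add_zero]

/-- Lebesgue null sets of V in the coordinates W x Wperp -/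
theorem ae_iff_prod (W : Submodule ℝ V) {S : Set V} (hS : MeasurableSet S) :
    (∀ᵐ x : V, x ∈ S) ↔ ∀ᵐ z : Wᗮ, ∀ᵐ w : W, (w : V) + (z : V) ∈ S := by
  let L : Wᗮ × W →ₗ[ℝ] V :=
    (W.subtype.comp (LinearMap.snd ℝ Wᗮ W)) + (Wᗮ.subtype.comp (LinearMap.fst ℝ Wᗮ W))
  have hLe : ∀ p : Wᗮ × W, L p = (p.2 : V) + (p.1 : V) := fun p => rfl
  have hL : Function.Surjective L := by
    intro x
    obtain ⟨y, hy, z, hz, e⟩ := W.exists_add_mem_mem_orthogonal x
    exact ⟨(⟨z, hz⟩, ⟨y, hy⟩), by rw [hLe, e]⟩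
  have h1 := ae_comp_linearMap_mem_iff (L := L)
    (((volume : Measure Wᗮ).prod (volume : Measure W))) (volume : Measure V) hL hS
  rw [← h1]
  have hLm : Measurable L := by
    have : Continuous L := L.continuous_of_finiteDimensional
    exact this.measurable
  have hS' : MeasurableSet {p : Wᗮ × W | L p ∈ S} := hLm hS
  rw [Measure.ae_prod_iff_ae_ae hS']
  rfl

omit [FiniteDimensional ℝ V] [MeasurableSpace V] [BorelSpace V] in
theorem nontrivial_of_ne_bot {W : Submodule ℝ V} (h : W ≠ ⊥) : Nontrivial W :=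
  W.nontrivial_iff_ne_bot.mpr h

theorem ae_notMem_iff {α β : Type*} [MeasurableSpace α] {μ : Measure α} {f : α → β} {N : Set β} :
    (∀ᵐ x ∂μ, f x ∉ N) ↔ μ (f ⁻¹' N) = 0 := by
  rw [ae_iff]
  simp only [not_not]
  rfl

/-- PROJECTION LAW. For a proper subspace W of V: the projection to W of the direction of a
Lebesgue random vector of V and the Lebesgue measure on the unit ball of W have the same null
sets. -/
theorem proj_dirn_iff (W : Submodule ℝ V) (hW : Wᗮ ≠ ⊥) {N : Set W} (hN : MeasurableSet N) :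
    (∀ᵐ x : V, W.orthogonalProjectionOnto (dirn x) ∉ N) ↔ volume (N ∩ ball (0 : W) 1) = 0 := by
  have hS : MeasurableSet {x : V | W.orthogonalProjectionOnto (dirn x) ∉ N} := by
    have h1 : Measurable fun x : V => W.orthogonalProjectionOnto (dirn x) :=
      W.orthogonalProjectionOnto.continuous.measurable.comp measurable_dirn
    exact (h1 hN).compl
  have h2 := ae_iff_prod W hS
  simp only [mem_ofPred_eq, proj_dirn_add] at h2
  rw [h2]
  have hnt : Nontrivial Wᗮ := nontrivial_of_ne_bot hW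
  have hz : ∀ᵐ z : Wᗮ, z ≠ 0 := Measure.ae_ne volume 0
  constructor
  · intro h
    obtain ⟨z, hz1, hz2⟩ := (h.and hz).exists
    exact null_of_phi volume (norm_pos_iff.mpr hz2) (ae_notMem_iff.mp hz1)
  · intro h
    filter_upwards [hz] with z hz
    exact ae_notMem_iff.mpr (null_phi volume (norm_pos_iff.mpr hz) h)

/-- LINEAR IMAGE LAW. The image of the direction of a Lebesgue random vector under a surjective
linear map with nontrivial kernel has an absolutely continuous law. -/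
theorem lin_dirn_null {F : Type*} [NormedAddCommGroup F] [NormedSpace ℝ F] [MeasurableSpace F]
    [BorelSpace F] (ν : Measure F) [ν.IsAddHaarMeasure] (L : V →ₗ[ℝ] F)
    (hL : Function.Surjective L) (hk : LinearMap.ker L ≠ ⊥) (c : F) (r : ℝ) (hr : r ≠ 0) {N : Set F}
    (hN : MeasurableSet N) (h0 : ν N = 0) : ∀ᵐ x : V, c + r • L (dirn x) ∉ N := by
  have : FiniteDimensional ℝ F := Module.Finite.of_surjective L hL
  set W : Submodule ℝ V := (LinearMap.ker L)ᗮ with hW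
  have hWo : Wᗮ = LinearMap.ker L := Submodule.orthogonal_orthogonal _
  let M : W →ₗ[ℝ] F := r • (L.comp W.subtype)
  have hMe : ∀ w : W, M w = r • L (w : V) := fun w => rfl
  have hproj : ∀ x : V, L x = L (W.orthogonalProjectionOnto x : V) := by
    intro x
    have h1 : x - (W.orthogonalProjectionOnto x : V) ∈ Wᗮ := W.sub_starProjection_mem_orthogonal x
    rw [hWo, LinearMap.mem_ker, map_sub, sub_eq_zero] at h1
    exact h1
  have hM : Function.Surjective M := by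
    intro y
    obtain ⟨x, hx⟩ := hL (r⁻¹ • y)
    refine ⟨W.orthogonalProjectionOnto x, ?_⟩
    rw [hMe, ← hproj, hx, smul_smul, mul_inv_cancel₀ hr, one_smul]
  have hMm : Measurable M := (M.continuous_of_finiteDimensional).measurable
  have hN' : MeasurableSet ((fun y : F => c + y) ⁻¹' N) := (measurable_const_add c) hN
  have hN0 : ν ((fun y : F => c + y) ⁻¹' N) = 0 := by rw [measure_preimage_add]; exact h0
  have h2 : ∀ᵐ w : W, M w ∈ ((fun y : F => c + y) ⁻¹' N)ᶜ := by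
    refine (ae_comp_linearMap_mem_iff (L := M) (volume : Measure W) ν hM hN'.compl).mpr ?_
    exact ae_notMem_iff (f := fun y : F => y).mpr hN0
  have h3 : volume (M ⁻¹' ((fun y : F => c + y) ⁻¹' N)) = 0 := ae_notMem_iff.mp h2
  have hWne : Wᗮ ≠ ⊥ := by rw [hWo]; exact hk
  have h4 := (proj_dirn_iff W hWne (N := M ⁻¹' ((fun y : F => c + y) ⁻¹' N)) (hMm hN')).mpr
    (measure_mono_null inter_subset_left h3)
  filter_upwards [h4] with x hx
  intro hx'
  apply hx
  show c + M (W.orthogonalProjectionOnto (dirn x)) ∈ N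
  rw [hMe, ← hproj]
  exact hx'

/-- LEMMA X. A set of unit vectors that is saturated with respect to the projection to a proper
subspace W and null for the uniform law of the sphere is null for every law on the sphere whose
projection to W is absolutely continuous. -/
theorem lemmaX (W : Submodule ℝ V) (hW : Wᗮ ≠ ⊥) {G : Set V} (hG : MeasurableSet G)
    (hsat : ∀ θ θ' : V, ‖θ‖ = 1 → ‖θ'‖ = 1 →
      W.orthogonalProjectionOnto θ = W.orthogonalProjectionOnto θ' → θ ∈ G → θ' ∈ G)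
    (h0 : ∀ᵐ x : V, dirn x ∉ G) {Om : Type*} [MeasurableSpace Om] {P : Measure Om} {Y : Om → V}
    (hY1 : ∀ᵐ w ∂P, ‖Y w‖ = 1)
    (hYac : ∀ N : Set W, MeasurableSet N → volume N = 0 →
      ∀ᵐ w ∂P, W.orthogonalProjectionOnto (Y w) ∉ N) :
    ∀ᵐ w ∂P, Y w ∉ G := by
  obtain ⟨e1, he1, he10⟩ := Submodule.exists_mem_ne_zero_of_ne_bot hW
  set e : V := (‖e1‖)⁻¹ • e1 with he
  have hen : ‖e‖ = 1 := norm_dirn he10
  have heW : e ∈ Wᗮ := Wᗮ.smul_mem _ he1
  let s : W → V := fun w => (w : V) + Real.sqrt (1 - ‖w‖ ^ 2) • e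
  have hsm : Measurable s := by
    have h1 : Continuous s := by
      have := W.subtypeL.continuous
      fun_prop
    exact h1.measurable
  have hsP : ∀ w : W, W.orthogonalProjectionOnto (s w) = w := by
    intro w
    show W.orthogonalProjectionOnto ((w : V) + Real.sqrt (1 - ‖w‖ ^ 2) • e) = w
    rw [map_add, Submodule.orthogonalProjectionOnto_mem_subspace_eq_self,
      Submodule.orthogonalProjectionOnto_apply_of_mem_orthogonal (Wᗮ.smul_mem _ heW), add_zero]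
  have hsn : ∀ w : W, ‖w‖ ≤ 1 → ‖s w‖ = 1 := by
    intro w hw
    have h1 := norm_add_orth W w ⟨Real.sqrt (1 - ‖w‖ ^ 2) • e, Wᗮ.smul_mem _ heW⟩
    have h2 : 0 ≤ 1 - ‖w‖ ^ 2 := by nlinarith [norm_nonneg w]
    have h3 : ‖(⟨Real.sqrt (1 - ‖w‖ ^ 2) • e, Wᗮ.smul_mem _ heW⟩ : Wᗮ)‖ = Real.sqrt (1 - ‖w‖ ^ 2) := by
      show ‖Real.sqrt (1 - ‖w‖ ^ 2) • e‖ = _
      rw [norm_smul, hen, mul_one, Real.norm_eq_abs, abs_of_nonneg (Real.sqrt_nonneg _)]
    rw [h3, Real.sq_sqrt h2] at h1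
    show ‖(w : V) + Real.sqrt (1 - ‖w‖ ^ 2) • e‖ = 1
    rw [h1]
    simp
  have hPn : ∀ θ : V, ‖θ‖ = 1 → ‖W.orthogonalProjectionOnto θ‖ ≤ 1 := fun θ hθ =>
    (W.norm_orthogonalProjectionOnto_apply_le θ).trans hθ.le
  set N : Set W := s ⁻¹' G with hN
  have hNm : MeasurableSet N := hsm hG
  have hiff : ∀ θ : V, ‖θ‖ = 1 → (θ ∈ G ↔ W.orthogonalProjectionOnto θ ∈ N) := by
    intro θ hθ
    constructor
    · intro h
      exact hsat θ _ hθ (hsn _ (hPn θ hθ)) (hsP _).symm h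
    · intro h
      exact hsat _ θ (hsn _ (hPn θ hθ)) hθ (hsP _) h
  have hVn : Nontrivial V := ⟨e, 0, fun h => by rw [h, norm_zero] at hen; exact zero_ne_one hen⟩
  have h1 : ∀ᵐ x : V, W.orthogonalProjectionOnto (dirn x) ∉ N := by
    filter_upwards [h0, Measure.ae_ne volume (0 : V)] with x hx hx0
    rwa [← hiff _ (norm_dirn hx0)]
  have h2 : volume (N ∩ ball (0 : W) 1) = 0 := (proj_dirn_iff W hW hNm).mp h1
  have h3 : volume (N ∩ closedBall (0 : W) 1) = 0 := by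
    refine measure_mono_null ?_ (measure_union_null h2
      (Measure.addHaar_sphere_of_ne_zero volume (0 : W) one_ne_zero))
    rintro w ⟨hw1, hw2⟩
    rw [← ball_union_sphere] at hw2
    rcases hw2 with hw2 | hw2
    · exact Or.inl ⟨hw1, hw2⟩
    · exact Or.inr hw2
  filter_upwards [hY1, hYac _ (hNm.inter measurableSet_closedBall) h3] with w hw1 hw2
  rw [hiff _ hw1]
  intro hw3
  exact hw2 ⟨hw3, by simpa using hPn _ hw1⟩

end proj

end Prj
end SPHK
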