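import Pool.Agent.SPH.Basic

/-! Project SPHK (MP_f7e9f1_co): the spherical host (B.0 - B.2): frame data, model vectors, Gram
identities, the frame theorem. -/

open MeasureTheory Set Metric
open scoped ENNReal NNReal Topology

noncomputable section
namespace Pool.Agent.SPHK

open SPH

/-- classes: a point and an index of its basis; the index `none` is the point itself -/
abbrev Cl (n : ℕ) := Fin (n + 1) × Option (Fin n)

/-- the parameter space of the frames -/
abbrev VV (n : ℕ) := EuclideanSpace ℝ (Option (Fin n))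

/-- for every point an orthonormal basis whose vector of index `none` is the point -/
structure Fr (n : ℕ) where
  R : Fin (n + 1) → OrthonormalBasis (Option (Fin n)) ℝ (VV n)

namespace Fr

variable {n : ℕ} (F : Fr n)

/-- the points -/
def v (i : Fin (n + 1)) : VV n := F.R i none

/-- the direction of a class -/
def Rv (j : Cl n) : VV n := F.R j.1 j.2

/-- the coefficients of the point `i` -/
def nv (i : Fin (n + 1)) (l : Cl n) : ℝ := inner ℝ (F.v i) (F.Rv l)

/-- the edge of the point `i` -/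
def edge (i : Fin (n + 1)) : Finset (Cl n) := by
  classical exact Finset.univ.filter fun l => F.nv i l ≠ 0

theorem mem_edge (i : Fin (n + 1)) (l : Cl n) : l ∈ F.edge i ↔ F.nv i l ≠ 0 := by
  simp [edge]

theorem norm_Rv (j : Cl n) : ‖F.Rv j‖ = 1 := (F.R j.1).orthonormal.1 j.2

theorem norm_v (i : Fin (n + 1)) : ‖F.v i‖ = 1 := (F.R i).orthonormal.1 none

theorem nv_own_some (i : Fin (n + 1)) (b : Fin n) : F.nv i (i, some b) = 0 := by
  have h := (F.R i).orthonormal.2 (show (none : Option (Fin n)) ≠ some b by simp)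
  exact h

theorem nv_own_none (i : Fin (n + 1)) : F.nv i (i, none) = 1 := by
  show inner ℝ (F.v i) (F.v i) = 1
  rw [real_inner_self_eq_norm_sq, F.norm_v, one_pow]

theorem own_notMem (i : Fin (n + 1)) (b : Fin n) : (i, some b) ∉ F.edge i := by
  rw [mem_edge, not_not]
  exact F.nv_own_some i b

theorem sum_inner_mul_inner_basis (i : Fin (n + 1)) (w w' : VV n) :
    ∑ a, inner ℝ w (F.Rv (i, a)) * inner ℝ w' (F.Rv (i, a)) = inner ℝ w w' := by
  have h := (F.R i).sum_inner_mul_inner w w'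
  rw [← h]
  refine Finset.sum_congr rfl fun a _ => ?_
  show inner ℝ w (F.R i a) * inner ℝ w' (F.R i a) = _
  rw [real_inner_comm w' (F.R i a)]

/-- the resolution of the identity -/
theorem sum_inner_mul_inner (w w' : VV n) :
    ∑ j : Cl n, inner ℝ w (F.Rv j) * inner ℝ w' (F.Rv j) = (n + 1 : ℝ) * inner ℝ w w' := by
  rw [Fintype.sum_prod_type]
  simp only [F.sum_inner_mul_inner_basis]
  rw [Finset.sum_const, Finset.card_univ, Fintype.card_fin, nsmul_eq_mul]
  push_cast
  rfl

theorem sum_nv_sq (i : Fin (n + 1)) : ∑ l, F.nv i l ^ 2 = (n + 1 : ℝ) := by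
  have h := F.sum_inner_mul_inner (F.v i) (F.v i)
  rw [real_inner_self_eq_norm_sq, F.norm_v, one_pow, mul_one] at h
  rw [← h]
  refine Finset.sum_congr rfl fun l _ => ?_
  show inner ℝ (F.v i) (F.Rv l) ^ 2 = _
  ring

/-- projection of `ξ` to the hyperplane orthogonal to `nv i`, restricted to the edge -/
def xv (i : Fin (n + 1)) (ξ : Cl n → ℝ) (l : Cl n) : ℝ := by
  classical exact if F.nv i l = 0 then 0 else ξ l - (∑ m, ξ m * F.nv i m) / (n + 1) * F.nv i l

theorem sum_xv_nv (i : Fin (n + 1)) (ξ : Cl n → ℝ) : ∑ l, F.xv i ξ l * F.nv i l = 0 := by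
  have h : ∀ l, F.xv i ξ l * F.nv i l =
      ξ l * F.nv i l - (∑ m, ξ m * F.nv i m) / (n + 1) * F.nv i l ^ 2 := by
    intro l
    unfold xv
    by_cases h0 : F.nv i l = 0
    · rw [if_pos h0, h0]
      ring
    · rw [if_neg h0]
      ring
  simp only [h, Finset.sum_sub_distrib, ← Finset.mul_sum, F.sum_nv_sq]
  have hn : (n + 1 : ℝ) ≠ 0 := by positivity
  field_simp
  ring

/-- the vector `∑ x_l R_l` -/
def yv (i : Fin (n + 1)) (ξ : Cl n → ℝ) : VV n := ∑ l, F.xv i ξ l • F.Rv l

theorem inner_yv_v (i : Fin (n + 1)) (ξ : Cl n → ℝ) : inner ℝ (F.yv i ξ) (F.v i) = 0 := by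
  unfold yv
  rw [sum_inner, ← F.sum_xv_nv i ξ]
  refine Finset.sum_congr rfl fun l _ => ?_
  rw [real_inner_smul_left, real_inner_comm]
  rfl

/-- the scalars of the class `j` -/
def sv (j : Cl n) (ξ : Cl n → ℝ) (l : Cl n) : ℝ := by
  classical exact match j.2 with
    | none => 0
    | some b => F.xv j.1 ξ l -
        (if l.1 = j.1 ∧ l.2 ≠ none ∧ l.2 ≠ some b then inner ℝ (F.yv j.1 ξ) (F.Rv l) else 0)

/-- the scalar `β / c` of the class `j` -/
def be (j : Cl n) (ξ : Cl n → ℝ) : ℝ :=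
  match j.2 with
  | none => 0
  | some b => inner ℝ (F.yv j.1 ξ) (F.Rv (j.1, some b))

theorem sv_none (i : Fin (n + 1)) (ξ : Cl n → ℝ) (l : Cl n) : F.sv (i, none) ξ l = 0 := rfl

theorem sv_some (i : Fin (n + 1)) (b : Fin n) (ξ : Cl n → ℝ) (l : Cl n) :
    F.sv (i, some b) ξ l = F.xv i ξ l -
      (if l.1 = i ∧ l.2 ≠ none ∧ l.2 ≠ some b then inner ℝ (F.yv i ξ) (F.Rv l) else 0) := rfl

theorem sv_self (j : Cl n) (ξ : Cl n → ℝ) : F.sv j ξ j = 0 := by
  obtain ⟨i, o⟩ := j
  cases o with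
  | none => rfl
  | some b =>
    rw [sv_some]
    have h1 : F.xv i ξ (i, some b) = 0 := by
      unfold xv
      rw [if_pos (F.nv_own_some i b)]
    rw [h1, if_neg (fun h => h.2.2 rfl), sub_zero]

/-- on the edge of the point `i` the scalars of the class `(i, some b)` are the coordinates of the
projection to the hyperplane -/
theorem sv_edge (i : Fin (n + 1)) (b : Fin n) (ξ : Cl n → ℝ) (l : Cl n) (hl : l ∈ F.edge i) :
    F.sv (i, some b) ξ l = ξ l - (∑ m, ξ m * F.nv i m) / (n + 1) * F.nv i l := by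
  rw [mem_edge] at hl
  rw [sv_some]
  have h1 : ¬ (l.1 = i ∧ l.2 ≠ none ∧ l.2 ≠ some b) := by
    rintro ⟨h1, h2, -⟩
    obtain ⟨i', o⟩ := l
    cases o with
    | none => exact h2 rfl
    | some a =>
      simp only at h1
      subst h1
      exact hl (F.nv_own_some _ a)
  rw [if_neg h1, sub_zero]
  unfold xv
  rw [if_neg hl]

/-- the linear constraint -/
theorem sum_sv (j : Cl n) (ξ : Cl n → ℝ) : ∑ l, F.sv j ξ l • F.Rv l = F.be j ξ • F.Rv j := by
  classical
  obtain ⟨i, o⟩ := j
  cases o with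
  | none =>
    simp only [sv_none, zero_smul, Finset.sum_const_zero]
    show (0 : VV n) = (0 : ℝ) • _
    rw [zero_smul]
  | some b =>
    simp only [sv_some, sub_smul, Finset.sum_sub_distrib]
    show F.yv i ξ - _ = inner ℝ (F.yv i ξ) (F.Rv (i, some b)) • F.Rv (i, some b)
    have h1 : F.yv i ξ = ∑ a : Option (Fin n), inner ℝ (F.yv i ξ) (F.Rv (i, a)) • F.Rv (i, a) := by
      have h := (F.R i).sum_repr' (F.yv i ξ)
      rw [← h]
      refine Finset.sum_congr rfl fun a _ => ?_
      rw [h]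
      show inner ℝ (F.R i a) (F.yv i ξ) • _ = inner ℝ (F.yv i ξ) (F.R i a) • _
      rw [real_inner_comm]
      rfl
    have h2 : (∑ l : Cl n, (if l.1 = i ∧ l.2 ≠ none ∧ l.2 ≠ some b then
        inner ℝ (F.yv i ξ) (F.Rv l) else 0) • F.Rv l) =
        ∑ a : Option (Fin n), (if a ≠ none ∧ a ≠ some b then
          inner ℝ (F.yv i ξ) (F.Rv (i, a)) else 0) • F.Rv (i, a) := by
      rw [Fintype.sum_prod_type, Finset.sum_eq_single i]
      · refine Finset.sum_congr rfl fun a _ => ?_
        by_cases h : a ≠ none ∧ a ≠ some b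
        · rw [if_pos h, if_pos ⟨rfl, h.1, h.2⟩]
        · rw [if_neg h, if_neg (fun h' => h h'.2)]
      · intro i' _ hne
        refine Finset.sum_eq_zero fun a _ => ?_
        rw [if_neg (fun h' => hne h'.1), zero_smul]
      · intro h
        exact absurd (Finset.mem_univ i) h
    rw [h2]
    have h3 : ∑ a : Option (Fin n), (if a ≠ none ∧ a ≠ some b then
          inner ℝ (F.yv i ξ) (F.Rv (i, a)) else 0) • F.Rv (i, a) =
        ∑ a : Option (Fin n), inner ℝ (F.yv i ξ) (F.Rv (i, a)) • F.Rv (i, a) -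
          inner ℝ (F.yv i ξ) (F.Rv (i, some b)) • F.Rv (i, some b) := by
      rw [Fintype.sum_option, Fintype.sum_option]
      have h4 : inner ℝ (F.yv i ξ) (F.Rv (i, none)) = 0 := F.inner_yv_v i ξ
      rw [if_neg (fun h => h.1 rfl), h4, zero_smul, zero_add, zero_add]
      have h5 : inner ℝ (F.yv i ξ) (F.Rv (i, some b)) • F.Rv (i, some b) =
          ∑ a : Fin n, (if a = b then inner ℝ (F.yv i ξ) (F.Rv (i, some a)) • F.Rv (i, some a)
            else 0) := by
        rw [Finset.sum_ite_eq', if_pos (Finset.mem_univ b)]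
      rw [h5, ← Finset.sum_sub_distrib]
      refine Finset.sum_congr rfl fun a _ => ?_
      by_cases hab : a = b
      · rw [if_pos hab, if_neg (fun h => h.2 (by rw [hab])), zero_smul, sub_self]
      · rw [if_neg hab, if_pos ⟨by simp, by simpa using hab⟩, sub_zero]
    rw [h3, ← h1, sub_sub_cancel]

/-- the square of the radius -/
def rad (c : ℝ) (j : Cl n) (ξ : Cl n → ℝ) : ℝ :=
  1 / (n + 1) - 2 * c * F.be j ξ - ∑ l ∈ Finset.univ.erase j, (F.sv j ξ l ^ 2 + c ^ 2)

theorem continuous_xv (i : Fin (n + 1)) (l : Cl n) : Continuous fun ξ : Cl n → ℝ => F.xv i ξ l := by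
  unfold xv
  by_cases h : F.nv i l = 0
  · simp only [if_pos h]
    exact continuous_const
  · simp only [if_neg h]
    fun_prop

theorem continuous_yv (i : Fin (n + 1)) : Continuous fun ξ : Cl n → ℝ => F.yv i ξ := by
  unfold yv
  exact continuous_finsetSum _ fun l _ => (F.continuous_xv i l).smul continuous_const

theorem continuous_be (j : Cl n) : Continuous fun ξ : Cl n → ℝ => F.be j ξ := by
  obtain ⟨i, o⟩ := j
  cases o with
  | none => exact continuous_const
  | some b => exact (F.continuous_yv i).inner continuous_const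

theorem continuous_sv (j l : Cl n) : Continuous fun ξ : Cl n → ℝ => F.sv j ξ l := by
  obtain ⟨i, o⟩ := j
  cases o with
  | none => exact continuous_const
  | some b =>
    simp only [sv_some]
    refine (F.continuous_xv i l).sub ?_
    by_cases h : l.1 = i ∧ l.2 ≠ none ∧ l.2 ≠ some b
    · simp only [if_pos h]
      exact (F.continuous_yv i).inner continuous_const
    · simp only [if_neg h]
      exact continuous_const

theorem xv_zero (i : Fin (n + 1)) (l : Cl n) : F.xv i 0 l = 0 := by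
  unfold xv
  split_ifs <;> simp

theorem yv_zero (i : Fin (n + 1)) : F.yv i 0 = 0 := by
  unfold yv
  simp [xv_zero]

theorem be_zero (j : Cl n) : F.be j 0 = 0 := by
  obtain ⟨i, o⟩ := j
  cases o with
  | none => rfl
  | some b =>
    show inner ℝ (F.yv i 0) _ = 0
    rw [yv_zero, inner_zero_left]

theorem sv_zero (j l : Cl n) : F.sv j 0 l = 0 := by
  obtain ⟨i, o⟩ := j
  cases o with
  | none => rfl
  | some b =>
    rw [sv_some, xv_zero, yv_zero, inner_zero_left, ite_self, sub_zero]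

/-- small parameters -/
theorem exists_param : ∃ c η : ℝ, 0 < c ∧ 0 < η ∧ ∀ j (ξ : Cl n → ℝ), (∀ l, |ξ l| ≤ η) →
    (1 / (2 * (n + 1)) ≤ F.rad c j ξ ∧ F.rad c j ξ ≤ 2) ∧ 1 / (n + 1) - 2 * c * F.be j ξ ≤ 4 := by
  have hcont : ∀ j, Continuous fun p : ℝ × (Cl n → ℝ) => F.rad p.1 j p.2 := by
    intro j
    unfold rad
    refine ((continuous_const.sub ((continuous_const.mul continuous_fst).mul
      ((F.continuous_be j).comp continuous_snd))).sub ?_)
    exact continuous_finsetSum _ fun l _ =>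
      (((F.continuous_sv j l).comp continuous_snd).pow 2).add (continuous_fst.pow 2)
  have hval : ∀ j, F.rad 0 j 0 = 1 / (n + 1) := by
    intro j
    unfold rad
    simp [be_zero, sv_zero]
  have hn : (0 : ℝ) < n + 1 := by positivity
  have hpos : (1 : ℝ) / (2 * (n + 1)) < 1 / (n + 1) := by
    apply one_div_lt_one_div_of_lt hn
    linarith
  have hlt2 : (1 : ℝ) / (n + 1) < 2 := by
    rw [div_lt_iff₀ hn]
    have : (0 : ℝ) ≤ n := Nat.cast_nonneg n
    linarith
  have hev : ∀ᶠ p : ℝ × (Cl n → ℝ) in 𝓝 (0, 0), ∀ j, (1 / (2 * (n + 1)) ≤ F.rad p.1 j p.2 ∧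
      F.rad p.1 j p.2 ≤ 2) ∧ 1 / (n + 1) - 2 * p.1 * F.be j p.2 ≤ 4 := by
    rw [Filter.eventually_all]
    intro j
    have h1 := (hcont j).tendsto (0, 0)
    rw [hval j] at h1
    have hc2 : Continuous fun p : ℝ × (Cl n → ℝ) => 1 / (n + 1 : ℝ) - 2 * p.1 * F.be j p.2 :=
      continuous_const.sub ((continuous_const.mul continuous_fst).mul
        ((F.continuous_be j).comp continuous_snd))
    have h4 := hc2.tendsto (0, 0)
    have hlt4 : 1 / (n + 1 : ℝ) - 2 * (0 : ℝ) * F.be j 0 < 4 := by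
      rw [F.be_zero, mul_zero, sub_zero]
      linarith
    exact ((h1.eventually (lt_mem_nhds hpos)).and (h4.eventually (gt_mem_nhds hlt4))).mp
      ((h1.eventually (gt_mem_nhds hlt2)).mono fun p h2 h3 => ⟨⟨h3.1.le, h2.le⟩, h3.2.le⟩)
  rw [Metric.eventually_nhds_iff] at hev
  obtain ⟨δ, hδ, h⟩ := hev
  refine ⟨δ / 2, δ / 2, by positivity, by positivity, fun j ξ hξ => ?_⟩
  refine h (y := (δ / 2, ξ)) ?_ j
  rw [Prod.dist_eq, max_lt_iff]
  refine ⟨?_, ?_⟩
  · rw [Real.dist_eq, sub_zero, abs_of_pos (by positivity)]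
    linarith
  · rw [dist_zero_right]
    refine lt_of_le_of_lt ((pi_norm_le_iff_of_nonneg (by positivity)).mpr fun l => ?_)
      (show δ / 2 < δ by linarith)
    rw [Real.norm_eq_abs]
    exact hξ l

end Fr

/-- the data of the spherical host -/
structure SData (n d q : ℕ) extends Fr n where
  G : (Cl n × Cl n) ⊕ (Cl n × Fin (q + 1)) → E d
  hG : Orthonormal ℝ G
  c : ℝ
  η : ℝ
  c_pos : 0 < c
  η_pos : 0 < η
  rad_ge : ∀ j (ξ : Cl n → ℝ), (∀ l, |ξ l| ≤ η) → 1 / (2 * (n + 1)) ≤ toFr.rad c j ξ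
  rad_le : ∀ j (ξ : Cl n → ℝ), (∀ l, |ξ l| ≤ η) → toFr.rad c j ξ ≤ 2
  nor_le : ∀ j (ξ : Cl n → ℝ), (∀ l, |ξ l| ≤ η) → 1 / (n + 1) - 2 * c * toFr.be j ξ ≤ 4

namespace SData

variable {n d q : ℕ} (S : SData n d q)

/-- the embedding of the block of the class `j` -/
def blk (j : Cl n) (u : E q) : E d := ∑ a, u a • S.G (Sum.inr (j, a))

/-- the part of the model vector without the block -/
def base (j : Cl n) (ξ : Cl n → ℝ) : E d :=
  ∑ l ∈ Finset.univ.erase j, (S.sv j ξ l • S.G (Sum.inl (j, l)) + S.c • S.G (Sum.inl (l, j)))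

/-- the radius -/
def r (j : Cl n) (ξ : Cl n → ℝ) : ℝ := Real.sqrt (S.rad S.c j ξ)

/-- the model vector -/
def a (j : Cl n) (ξ : Cl n → ℝ) (u : E q) : E d := S.base j ξ + S.r j ξ • S.blk j u

theorem inner_G (x y : (Cl n × Cl n) ⊕ (Cl n × Fin (q + 1))) :
    inner ℝ (S.G x) (S.G y) = if x = y then (1 : ℝ) else 0 := by
  classical
  exact (orthonormal_iff_ite.mp S.hG) x y

theorem inner_blk (j : Cl n) (u u' : E q) : inner ℝ (S.blk j u) (S.blk j u') = inner ℝ u u' := by
  classical
  unfold blk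
  rw [sum_inner]
  simp only [inner_sum, real_inner_smul_left, real_inner_smul_right, S.inner_G]
  rw [PiLp.inner_apply]
  refine Finset.sum_congr rfl fun a _ => ?_
  rw [Finset.sum_eq_single a]
  · rw [if_pos rfl, mul_one]
    simp [mul_comm]
  · intro b _ hne
    rw [if_neg, mul_zero, mul_zero]
    intro h
    simp only [Sum.inr.injEq, Prod.mk.injEq, true_and] at h
    exact hne h.symm
  · intro h
    exact absurd (Finset.mem_univ a) h

theorem inner_blk_ne {j l : Cl n} (h : j ≠ l) (u u' : E q) :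
    inner ℝ (S.blk j u) (S.blk l u') = 0 := by
  classical
  unfold blk
  rw [sum_inner]
  simp only [inner_sum, real_inner_smul_left, real_inner_smul_right, S.inner_G]
  refine Finset.sum_eq_zero fun a _ => Finset.sum_eq_zero fun b _ => ?_
  rw [if_neg, mul_zero, mul_zero]
  intro h'
  simp only [Sum.inr.injEq, Prod.mk.injEq] at h'
  exact h h'.1

theorem inner_G_blk (x : Cl n × Cl n) (j : Cl n) (u : E q) :
    inner ℝ (S.G (Sum.inl x)) (S.blk j u) = 0 := by
  classical
  unfold blk
  rw [inner_sum]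
  refine Finset.sum_eq_zero fun a _ => ?_
  rw [real_inner_smul_right, S.inner_G, if_neg (by simp), mul_zero]

theorem inner_base_blk (j l : Cl n) (ξ : Cl n → ℝ) (u : E q) :
    inner ℝ (S.base j ξ) (S.blk l u) = 0 := by
  unfold base
  rw [sum_inner]
  refine Finset.sum_eq_zero fun m _ => ?_
  rw [inner_add_left, real_inner_smul_left, real_inner_smul_left, S.inner_G_blk, S.inner_G_blk]
  simp

theorem inner_blk_base (j l : Cl n) (ξ : Cl n → ℝ) (u : E q) :
    inner ℝ (S.blk l u) (S.base j ξ) = 0 := by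
  rw [real_inner_comm]
  exact S.inner_base_blk j l ξ u

theorem inner_base_same (j : Cl n) (ξ ξ' : Cl n → ℝ) :
    inner ℝ (S.base j ξ) (S.base j ξ') =
      ∑ l ∈ Finset.univ.erase j, (S.sv j ξ l * S.sv j ξ' l + S.c ^ 2) := by
  classical
  unfold base
  rw [sum_inner]
  refine Finset.sum_congr rfl fun l hl => ?_
  have hlj : l ≠ j := (Finset.mem_erase.mp hl).1
  rw [inner_sum, Finset.sum_eq_single l]
  · have g1 : inner ℝ (S.G (Sum.inl (j, l))) (S.G (Sum.inl (j, l))) = (1 : ℝ) := by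
      rw [S.inner_G, if_pos rfl]
    have g2 : inner ℝ (S.G (Sum.inl (l, j))) (S.G (Sum.inl (l, j))) = (1 : ℝ) := by
      rw [S.inner_G, if_pos rfl]
    have g3 : inner ℝ (S.G (Sum.inl (j, l))) (S.G (Sum.inl (l, j))) = (0 : ℝ) := by
      rw [S.inner_G, if_neg]
      intro h
      exact hlj (Prod.mk.inj (Sum.inl.inj h)).2
    have g4 : inner ℝ (S.G (Sum.inl (l, j))) (S.G (Sum.inl (j, l))) = (0 : ℝ) := by
      rw [real_inner_comm]
      exact g3
    simp only [inner_add_left, inner_add_right, real_inner_smul_left, real_inner_smul_right,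
      g1, g2, g3, g4]
    ring
  · intro m hm hne
    have hmj : m ≠ j := (Finset.mem_erase.mp hm).1
    have g1 : inner ℝ (S.G (Sum.inl (j, l))) (S.G (Sum.inl (j, m))) = (0 : ℝ) := by
      rw [S.inner_G, if_neg]
      intro h
      exact hne (Prod.mk.inj (Sum.inl.inj h)).2.symm
    have g2 : inner ℝ (S.G (Sum.inl (l, j))) (S.G (Sum.inl (m, j))) = (0 : ℝ) := by
      rw [S.inner_G, if_neg]
      intro h
      exact hne (Prod.mk.inj (Sum.inl.inj h)).1.symm
    have g3 : inner ℝ (S.G (Sum.inl (j, l))) (S.G (Sum.inl (m, j))) = (0 : ℝ) := by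
      rw [S.inner_G, if_neg]
      intro h
      exact hlj (Prod.mk.inj (Sum.inl.inj h)).2
    have g4 : inner ℝ (S.G (Sum.inl (l, j))) (S.G (Sum.inl (j, m))) = (0 : ℝ) := by
      rw [S.inner_G, if_neg]
      intro h
      exact hlj (Prod.mk.inj (Sum.inl.inj h)).1
    simp only [inner_add_left, inner_add_right, real_inner_smul_left, real_inner_smul_right,
      g1, g2, g3, g4]
    ring
  · intro h
    exact absurd hl h

theorem inner_base_ne {j l : Cl n} (h : j ≠ l) (ξ ξ' : Cl n → ℝ) :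
    inner ℝ (S.base j ξ) (S.base l ξ') = S.c * (S.sv j ξ l + S.sv l ξ' j) := by
  classical
  unfold base
  rw [sum_inner]
  have hterm : ∀ m ∈ Finset.univ.erase j, inner ℝ
      (S.sv j ξ m • S.G (Sum.inl (j, m)) + S.c • S.G (Sum.inl (m, j)))
      (∑ m' ∈ Finset.univ.erase l, (S.sv l ξ' m' • S.G (Sum.inl (l, m')) + S.c • S.G (Sum.inl (m', l)))) =
      if m = l then S.c * (S.sv j ξ l + S.sv l ξ' j) else 0 := by
    intro m hm
    have hmj : m ≠ j := (Finset.mem_erase.mp hm).1
    rw [inner_sum, Finset.sum_eq_single j]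
    · have g1 : inner ℝ (S.G (Sum.inl (j, m))) (S.G (Sum.inl (l, j))) = (0 : ℝ) := by
        rw [S.inner_G, if_neg]
        intro h'
        exact h (Prod.mk.inj (Sum.inl.inj h')).1
      have g2 : inner ℝ (S.G (Sum.inl (m, j))) (S.G (Sum.inl (j, l))) = (0 : ℝ) := by
        rw [S.inner_G, if_neg]
        intro h'
        exact hmj (Prod.mk.inj (Sum.inl.inj h')).1
      by_cases hml : m = l
      · have g3 : inner ℝ (S.G (Sum.inl (j, m))) (S.G (Sum.inl (j, l))) = (1 : ℝ) := by
          rw [S.inner_G, if_pos (by rw [hml])]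
        have g4 : inner ℝ (S.G (Sum.inl (m, j))) (S.G (Sum.inl (l, j))) = (1 : ℝ) := by
          rw [S.inner_G, if_pos (by rw [hml])]
        simp only [inner_add_left, inner_add_right, real_inner_smul_left, real_inner_smul_right,
          g1, g2, g3, g4, if_pos hml]
        rw [hml]
        ring
      · have g3 : inner ℝ (S.G (Sum.inl (j, m))) (S.G (Sum.inl (j, l))) = (0 : ℝ) := by
          rw [S.inner_G, if_neg]
          intro h'
          exact hml (Prod.mk.inj (Sum.inl.inj h')).2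
        have g4 : inner ℝ (S.G (Sum.inl (m, j))) (S.G (Sum.inl (l, j))) = (0 : ℝ) := by
          rw [S.inner_G, if_neg]
          intro h'
          exact hml (Prod.mk.inj (Sum.inl.inj h')).1
        simp only [inner_add_left, inner_add_right, real_inner_smul_left, real_inner_smul_right,
          g1, g2, g3, g4, if_neg hml]
        ring
    · intro m' hm' hne
      have hm'l : m' ≠ l := (Finset.mem_erase.mp hm').1
      simp only [inner_add_left, inner_add_right, real_inner_smul_left, real_inner_smul_right,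
        S.inner_G, Sum.inl.injEq, Prod.mk.injEq]
      rw [if_neg (fun h' : j = l ∧ m = m' => h h'.1), if_neg (fun h' : j = m' ∧ m = l => hne h'.1.symm),
        if_neg (fun h' : m = l ∧ j = m' => hne h'.2.symm), if_neg (fun h' : m = m' ∧ j = l => h h'.2)]
      ring
    · intro h'
      exact absurd (Finset.mem_erase.mpr ⟨h, Finset.mem_univ j⟩) h'
  rw [Finset.sum_congr rfl hterm, Finset.sum_ite_eq' , if_pos]
  exact Finset.mem_erase.mpr ⟨h.symm, Finset.mem_univ l⟩

/-- inner products of model vectors of different classes -/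
theorem inner_a_ne {j l : Cl n} (h : j ≠ l) (ξ ξ' : Cl n → ℝ) (u u' : E q) :
    inner ℝ (S.a j ξ u) (S.a l ξ' u') = S.c * (S.sv j ξ l + S.sv l ξ' j) := by
  unfold a
  rw [inner_add_left, inner_add_right, inner_add_right, real_inner_smul_left, real_inner_smul_left,
    real_inner_smul_right, real_inner_smul_right, S.inner_base_blk, S.inner_blk_base,
    S.inner_blk_ne h, S.inner_base_ne h]
  ring

/-- inner products of model vectors of the same class -/
theorem inner_a_same (j : Cl n) (ξ ξ' : Cl n → ℝ) (u u' : E q) :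
    inner ℝ (S.a j ξ u) (S.a j ξ' u') =
      ∑ l ∈ Finset.univ.erase j, (S.sv j ξ l * S.sv j ξ' l + S.c ^ 2) +
        S.r j ξ * S.r j ξ' * inner ℝ u u' := by
  unfold a
  rw [inner_add_left, inner_add_right, inner_add_right, real_inner_smul_left, real_inner_smul_left,
    real_inner_smul_right, real_inner_smul_right, S.inner_base_blk, S.inner_blk_base,
    S.inner_blk, S.inner_base_same]
  ring

theorem r_sq {j : Cl n} {ξ : Cl n → ℝ} (h : ∀ l, |ξ l| ≤ S.η) : S.r j ξ ^ 2 = S.rad S.c j ξ := by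
  refine Real.sq_sqrt ?_
  refine le_trans ?_ (S.rad_ge j ξ h)
  positivity

theorem r_pos {j : Cl n} {ξ : Cl n → ℝ} (h : ∀ l, |ξ l| ≤ S.η) : 0 < S.r j ξ := by
  refine Real.sqrt_pos.mpr (lt_of_lt_of_le ?_ (S.rad_ge j ξ h))
  positivity

/-- norm of the model vector -/
theorem inner_a_self {j : Cl n} {ξ : Cl n → ℝ} (h : ∀ l, |ξ l| ≤ S.η) (u : E q) (hu : ‖u‖ = 1) :
    inner ℝ (S.a j ξ u) (S.a j ξ u) = 1 / (n + 1) - 2 * S.c * S.be j ξ := by
  rw [S.inner_a_same, real_inner_self_eq_norm_sq, hu]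
  have h1 := S.r_sq h (j := j)
  have h2 : S.r j ξ * S.r j ξ * 1 ^ 2 = S.rad S.c j ξ := by rw [← h1]; ring
  rw [h2]
  unfold Fr.rad
  simp only [pow_two]
  ring

/-- the model vectors have norm at most two -/
theorem norm_a_le {j : Cl n} {ξ : Cl n → ℝ} (h : ∀ l, |ξ l| ≤ S.η) (u : E q) (hu : ‖u‖ ≤ 1) :
    ‖S.a j ξ u‖ ≤ 2 := by
  have h0 : inner ℝ (S.a j ξ u) (S.a j ξ u) ≤ (4 : ℝ) := by
    refine le_trans ?_ (S.nor_le j ξ h)
    rw [S.inner_a_same, real_inner_self_eq_norm_sq]
    have h1 := S.r_sq h (j := j)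
    have h2 : S.r j ξ * S.r j ξ * ‖u‖ ^ 2 ≤ S.rad S.c j ξ := by
      rw [← h1, pow_two (S.r j ξ)]
      have h3 : ‖u‖ ^ 2 ≤ 1 := by
        have := norm_nonneg u
        nlinarith
      have h4 : 0 ≤ S.r j ξ * S.r j ξ := mul_self_nonneg _
      nlinarith
    have h5 : ∑ l ∈ Finset.univ.erase j, (S.sv j ξ l * S.sv j ξ l + S.c ^ 2) =
        ∑ l ∈ Finset.univ.erase j, (S.sv j ξ l ^ 2 + S.c ^ 2) :=
      Finset.sum_congr rfl fun l _ => by ring
    rw [h5]
    unfold Fr.rad at h2
    linarith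
  rw [real_inner_self_eq_norm_sq] at h0
  have := norm_nonneg (S.a j ξ u)
  nlinarith

theorem continuous_base (j : Cl n) : Continuous fun ξ : Cl n → ℝ => S.base j ξ := by
  unfold base
  exact continuous_finsetSum _ fun l _ =>
    ((S.toFr.continuous_sv j l).smul continuous_const).add continuous_const

theorem continuous_r (j : Cl n) : Continuous fun ξ : Cl n → ℝ => S.r j ξ := by
  unfold r Fr.rad
  refine Real.continuous_sqrt.comp (((continuous_const.sub (continuous_const.mul
    (S.toFr.continuous_be j)))).sub ?_)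
  exact continuous_finsetSum _ fun l _ => ((S.toFr.continuous_sv j l).pow 2).add continuous_const

theorem continuous_blk (j : Cl n) : Continuous fun u : E q => S.blk j u := by
  unfold blk
  exact continuous_finsetSum _ fun a _ =>
    ((EuclideanSpace.proj (𝕜 := ℝ) a).continuous).smul continuous_const

theorem continuous_a (j : Cl n) : Continuous fun p : (Cl n → ℝ) × E q => S.a j p.1 p.2 := by
  unfold a
  exact ((S.continuous_base j).comp continuous_fst).add (((S.continuous_r j).comp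
    continuous_fst).smul ((S.continuous_blk j).comp continuous_snd))

/-- the frame of one vertex in each class -/
def X (ξ : Cl n → Cl n → ℝ) (u : Cl n → E q) (w : VV n) : E d :=
  ∑ j, inner ℝ w (S.Rv j) • S.a j (ξ j) (u j)

/-- THE FRAME THEOREM. -/
theorem inner_X (ξ : Cl n → Cl n → ℝ) (hξ : ∀ j l, |ξ j l| ≤ S.η) (u : Cl n → E q)
    (hu : ∀ j, ‖u j‖ = 1) (w w' : VV n) : inner ℝ (S.X ξ u w) (S.X ξ u w') = inner ℝ w w' := by
  classical
  have hn : (n + 1 : ℝ) ≠ 0 := by positivity
  have hG : ∀ j l, inner ℝ (S.a j (ξ j) (u j)) (S.a l (ξ l) (u l)) =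
      S.c * S.sv j (ξ j) l + S.c * S.sv l (ξ l) j +
        (if j = l then 1 / (n + 1) - 2 * S.c * S.be j (ξ j) else 0) := by
    intro j l
    by_cases h : j = l
    · subst h
      rw [if_pos rfl, S.inner_a_self (hξ j) (u j) (hu j), S.toFr.sv_self]
      ring
    · rw [if_neg h, S.inner_a_ne h]
      ring
  have e1 : ∀ j, ∑ l, inner ℝ w' (S.Rv l) * S.sv j (ξ j) l = S.be j (ξ j) * inner ℝ w' (S.Rv j) := by
    intro j
    have h := congrArg (fun z => inner ℝ w' z) (S.toFr.sum_sv j (ξ j))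
    simp only [inner_sum, real_inner_smul_right] at h
    rw [← h]
    exact Finset.sum_congr rfl fun l _ => mul_comm _ _
  have e2 : ∀ l, ∑ j, inner ℝ w (S.Rv j) * S.sv l (ξ l) j = S.be l (ξ l) * inner ℝ w (S.Rv l) := by
    intro l
    have h := congrArg (fun z => inner ℝ w z) (S.toFr.sum_sv l (ξ l))
    simp only [inner_sum, real_inner_smul_right] at h
    rw [← h]
    exact Finset.sum_congr rfl fun l _ => mul_comm _ _
  have e3 : ∀ j, ∑ l, inner ℝ w (S.Rv j) * (inner ℝ w' (S.Rv l) *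
      (S.c * S.sv j (ξ j) l + S.c * S.sv l (ξ l) j +
        (if j = l then 1 / (n + 1) - 2 * S.c * S.be j (ξ j) else 0))) =
      S.c * inner ℝ w (S.Rv j) * (S.be j (ξ j) * inner ℝ w' (S.Rv j)) +
      ∑ l, S.c * inner ℝ w' (S.Rv l) * (inner ℝ w (S.Rv j) * S.sv l (ξ l) j) +
      inner ℝ w (S.Rv j) * inner ℝ w' (S.Rv j) * (1 / (n + 1) - 2 * S.c * S.be j (ξ j)) := by
    intro j
    rw [← e1 j, Finset.mul_sum, ← Finset.sum_add_distrib]
    have e4 : inner ℝ w (S.Rv j) * inner ℝ w' (S.Rv j) * (1 / (n + 1) - 2 * S.c * S.be j (ξ j)) =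
        ∑ l, (if j = l then inner ℝ w (S.Rv j) * inner ℝ w' (S.Rv l) *
          (1 / (n + 1) - 2 * S.c * S.be j (ξ j)) else 0) := by
      rw [Finset.sum_ite_eq, if_pos (Finset.mem_univ j)]
    rw [e4, ← Finset.sum_add_distrib]
    refine Finset.sum_congr rfl fun l _ => ?_
    by_cases h : j = l
    · rw [if_pos h, if_pos h]
      ring
    · rw [if_neg h, if_neg h]
      ring
  have e8 : ∀ j, inner ℝ (inner ℝ w (S.Rv j) • S.a j (ξ j) (u j))
      (∑ l, inner ℝ w' (S.Rv l) • S.a l (ξ l) (u l)) =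
      ∑ l, inner ℝ w (S.Rv j) * (inner ℝ w' (S.Rv l) *
      (S.c * S.sv j (ξ j) l + S.c * S.sv l (ξ l) j +
        (if j = l then 1 / (n + 1) - 2 * S.c * S.be j (ξ j) else 0))) := by
    intro j
    rw [inner_sum]
    refine Finset.sum_congr rfl fun l _ => ?_
    rw [real_inner_smul_left, real_inner_smul_right, hG]
  unfold X
  rw [sum_inner, Finset.sum_congr rfl fun j _ => (e8 j).trans (e3 j), Finset.sum_add_distrib,
    Finset.sum_add_distrib]
  have e6 : ∀ l, ∑ j, S.c * inner ℝ w' (S.Rv l) * (inner ℝ w (S.Rv j) * S.sv l (ξ l) j) =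
      S.c * inner ℝ w' (S.Rv l) * (S.be l (ξ l) * inner ℝ w (S.Rv l)) := by
    intro l
    rw [← e2 l, Finset.mul_sum]
  have e7 : ∑ j, ∑ l, S.c * inner ℝ w' (S.Rv l) * (inner ℝ w (S.Rv j) * S.sv l (ξ l) j) =
      ∑ l, S.c * inner ℝ w' (S.Rv l) * (S.be l (ξ l) * inner ℝ w (S.Rv l)) := by
    rw [Finset.sum_comm]
    exact Finset.sum_congr rfl fun l _ => e6 l
  rw [e7]
  rw [← Finset.sum_add_distrib, ← Finset.sum_add_distrib]
  have e5 : ∀ j, S.c * inner ℝ w (S.Rv j) * (S.be j (ξ j) * inner ℝ w' (S.Rv j)) +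
      S.c * inner ℝ w' (S.Rv j) * (S.be j (ξ j) * inner ℝ w (S.Rv j)) +
      inner ℝ w (S.Rv j) * inner ℝ w' (S.Rv j) * (1 / (n + 1) - 2 * S.c * S.be j (ξ j)) =
      (1 / (n + 1)) * (inner ℝ w (S.Rv j) * inner ℝ w' (S.Rv j)) := by
    intro j
    ring
  simp only [e5]
  rw [← Finset.mul_sum, S.toFr.sum_inner_mul_inner]
  field_simp

end SData

/-- an isometric embedding of the frame space whose range contains given points -/
theorem exists_embed {n d : ℕ} (h : n ≤ d) (p : Fin (n + 1) → E d) :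
    ∃ (F0 : VV n →ₗᵢ[ℝ] E d) (v : Fin (n + 1) → VV n), ∀ i, F0 (v i) = p i := by
  classical
  have hcard : Module.finrank ℝ (E d) = Fintype.card (Fin (d + 1)) := by
    simp
  let f : Fin (d + 1) → E d := fun j => if hj : (j : ℕ) < n + 1 then p ⟨j, hj⟩ else 0
  let b : OrthonormalBasis (Fin (d + 1)) ℝ (E d) := InnerProductSpace.gramSchmidtOrthonormalBasis hcard f
  have hb : ∀ i j : Fin (d + 1), i < j → inner ℝ (b j) (f i) = 0 := by
    intro i j hij
    exact InnerProductSpace.gramSchmidtOrthonormalBasis_inv_triangular hcard f hij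
  let em : Fin (n + 1) → Fin (d + 1) := Fin.castLE (by omega)
  have hem : Function.Injective em := Fin.castLE_injective _
  let eo : Option (Fin n) ≃ Fin (n + 1) := Fintype.equivOfCardEq (by simp)
  let g : Option (Fin n) → E d := fun a => b (em (eo a))
  have hg : Orthonormal ℝ g := b.orthonormal.comp _ (hem.comp eo.injective)
  let B := (EuclideanSpace.basisFun (Option (Fin n)) ℝ)
  let L : VV n →ₗ[ℝ] E d := B.toBasis.constr ℝ g
  have hLg : ∀ a, L (B a) = g a := by
    intro a
    show (B.toBasis.constr ℝ g) (B a) = g a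
    rw [← B.coe_toBasis, Module.Basis.constr_basis]
  have hL : Orthonormal ℝ (L ∘ B.toBasis) := by
    have : (L ∘ B.toBasis) = g := by
      funext a
      rw [Function.comp_apply, B.coe_toBasis, hLg]
    rw [this]
    exact hg
  let F0 : VV n →ₗᵢ[ℝ] E d := L.isometryOfOrthonormal (by rw [B.coe_toBasis]; exact B.orthonormal) hL
  have hF0 : ∀ x, F0 x = L x := fun x => rfl
  refine ⟨F0, fun i => ∑ a, inner ℝ (g a) (p i) • B a, fun i => ?_⟩
  rw [map_sum]
  have h1 : ∀ a, F0 (inner ℝ (g a) (p i) • B a) = inner ℝ (g a) (p i) • g a := by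
    intro a
    rw [map_smul, hF0, hLg]
  simp only [h1]
  have h2 : ∀ j : Fin (d + 1), j ∉ Finset.univ.image em → inner ℝ (b j) (p i) = (0 : ℝ) := by
    intro j hj
    have hij : em i < j := by
      by_contra hle
      rw [not_lt] at hle
      apply hj
      rw [Finset.mem_image]
      have hj' : (j : ℕ) < n + 1 := lt_of_le_of_lt hle i.2
      exact ⟨⟨j, hj'⟩, Finset.mem_univ _, Fin.ext rfl⟩
    have h3 := hb (em i) j hij
    have h4 : f (em i) = p i := by
      show (if hj : ((em i : Fin (d + 1)) : ℕ) < n + 1 then p ⟨em i, hj⟩ else 0) = p i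
      rw [dif_pos (show ((em i : Fin (d + 1)) : ℕ) < n + 1 from i.2)]
      rfl
    rw [h4] at h3
    exact h3
  have h5 := b.sum_repr' (p i)
  rw [← Finset.sum_subset (Finset.subset_univ (Finset.univ.image em))
    (fun j _ hj => by rw [h2 j hj, zero_smul]), Finset.sum_image (fun x _ y _ h => hem h)] at h5
  rw [← eo.sum_comp fun i' => inner ℝ (b (em i')) (p i) • b (em i')] at h5
  exact h5

/-- existence of the data for given points -/
theorem exists_data {n d q : ℕ}
    (hd : Fintype.card ((Cl n × Cl n) ⊕ (Cl n × Fin (q + 1))) ≤ d + 1) (p : Fin (n + 1) → E d)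
    (hp : ∀ i, ‖p i‖ = 1) :
    ∃ (S : SData n d q) (F0 : VV n →ₗᵢ[ℝ] E d), ∀ i, F0 (S.toFr.v i) = p i := by
  classical
  have hnd : n ≤ d := by
    have h1 : Fintype.card (Fin (n + 1)) ≤ Fintype.card ((Cl n × Cl n) ⊕ (Cl n × Fin (q + 1))) := by
      refine Fintype.card_le_of_injective
        (fun i : Fin (n + 1) => Sum.inr (((i, none) : Cl n), (0 : Fin (q + 1)))) ?_
      intro i i' h
      simpa using h
    rw [Fintype.card_fin] at h1
    omega
  obtain ⟨F0, v, hv⟩ := exists_embed hnd p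
  have hv1 : ∀ i, ‖v i‖ = 1 := by
    intro i
    rw [← F0.norm_map, hv, hp]
  have hR : ∀ i, ∃ R : OrthonormalBasis (Option (Fin n)) ℝ (VV n), R none = v i := by
    intro i
    have hc : Module.finrank ℝ (VV n) = Fintype.card (Option (Fin n)) := by simp
    have ho : Orthonormal ℝ (({none} : Set (Option (Fin n))).domRestrict (fun _ => v i)) := by
      rw [orthonormal_iff_ite]
      intro x y
      have hxy : x = y := Subsingleton.elim x y
      rw [if_pos hxy]
      show inner ℝ (v i) (v i) = (1 : ℝ)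
      rw [real_inner_self_eq_norm_sq, hv1, one_pow]
    obtain ⟨b, hb⟩ := ho.exists_orthonormalBasis_extension_of_card_eq hc
    exact ⟨b, hb none rfl⟩
  choose R hR using hR
  let F : Fr n := ⟨R⟩
  obtain ⟨c, η, hc, hη, hrad⟩ := F.exists_param
  obtain ⟨em⟩ := Function.Embedding.nonempty_of_card_le (α := (Cl n × Cl n) ⊕ (Cl n × Fin (q + 1)))
    (β := Fin (d + 1)) (by rw [Fintype.card_fin]; exact hd)
  let B := EuclideanSpace.basisFun (Fin (d + 1)) ℝ
  refine ⟨{ toFr := F, G := fun x => B (em x), hG := B.orthonormal.comp _ em.injective, c := c,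
            η := η, c_pos := hc, η_pos := hη, rad_ge := fun j ξ h => (hrad j ξ h).1.1,
            rad_le := fun j ξ h => (hrad j ξ h).1.2, nor_le := fun j ξ h => (hrad j ξ h).2 },
            F0, fun i => ?_⟩
  show F0 (R i none) = p i
  rw [hR, hv]

end Pool.Agent.SPHK
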