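import Pool.Agent.SPHK.Host
import Pool.Agent.SPHK.HDigit
import Pool.Agent.SPHK.SphHost
import Pool.Agent.SPHK.Proj
import Pool.Agent.SPH.Cong

/-! Project SPHK (MP_f7e9f1_co): the spherical host as an object, the frame of a clique and the law
of the frame (row LEX). -/

set_option autoImplicit false

open MeasureTheory Set Metric
open scoped ENNReal NNReal Topology

noncomputable section
namespace Pool.Agent.SPHK

open SPH _root_.SPHK

namespace SData

variable {n d q : ℕ} (S : SData n d q)

/-- the label space: a vector of norm at most two and a parameter of the box -/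
abbrev Lb : Type := ↥(closedBall (0 : E d) 2) × ↥(closedBall (0 : Cl n → ℝ) S.η)

instance : CompactSpace S.Lb := by
  have h1 : CompactSpace ↥(closedBall (0 : E d) 2) :=
    isCompact_iff_compactSpace.mp (isCompact_closedBall _ _)
  have h2 : CompactSpace ↥(closedBall (0 : Cl n → ℝ) S.η) :=
    isCompact_iff_compactSpace.mp (isCompact_closedBall _ _)
  infer_instance

instance : Nonempty S.Lb :=
  ⟨(⟨0, mem_closedBall_self (by norm_num)⟩, ⟨0, mem_closedBall_self S.η_pos.le⟩)⟩

open scoped Classical in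
/-- the parameter, replaced by zero outside of the box -/
def clip (ξ : Cl n → ℝ) : Cl n → ℝ := if ‖ξ‖ ≤ S.η then ξ else 0

theorem clip_eq {ξ : Cl n → ℝ} (h : ‖ξ‖ ≤ S.η) : S.clip ξ = ξ := if_pos h

theorem norm_clip (ξ : Cl n → ℝ) : ‖S.clip ξ‖ ≤ S.η := by
  unfold clip
  split_ifs with h
  · exact h
  · rw [norm_zero]
    exact S.η_pos.le

theorem abs_clip (ξ : Cl n → ℝ) (l : Cl n) : |S.clip ξ l| ≤ S.η := by
  rw [← Real.norm_eq_abs]
  exact (norm_le_pi_norm _ l).trans (S.norm_clip ξ)

theorem measurable_clip : Measurable S.clip := by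
  unfold clip
  exact Measurable.ite (measurableSet_le measurable_norm measurable_const) measurable_id
    measurable_const

theorem norm_dirn_le {V : Type*} [NormedAddCommGroup V] [NormedSpace ℝ V] (x : V) :
    ‖dirn x‖ ≤ 1 := by
  by_cases hx : x = 0
  · unfold dirn
    rw [hx, smul_zero, norm_zero]
    exact zero_le_one
  · exact (norm_dirn hx).le

/-- the model vector as a function of the private variable -/
def av (j : Cl n) (w : (Cl n → ℝ) × E q) : E d := S.a j (S.clip w.1) (dirn w.2)

theorem norm_av_le (j : Cl n) (w : (Cl n → ℝ) × E q) : ‖S.av j w‖ ≤ 2 :=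
  S.norm_a_le (S.abs_clip w.1) _ (norm_dirn_le w.2)

theorem measurable_av (j : Cl n) : Measurable (S.av j) := by
  have h1 : Measurable fun p : (Cl n → ℝ) × E q => S.a j p.1 p.2 := (S.continuous_a j).measurable
  have h2 : Measurable fun w : (Cl n → ℝ) × E q => (S.clip w.1, dirn w.2) :=
    (S.measurable_clip.comp measurable_fst).prodMk (measurable_dirn.comp measurable_snd)
  have h3 := Measurable.comp h1 h2
  unfold av
  simpa only [Function.comp_def] using h3

/-- the label map -/
def lb (j : Cl n) (p : OG d × ((Cl n → ℝ) × E q)) : S.Lb :=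
  (⟨act p.1 (S.av j p.2), by
      rw [mem_closedBall_zero_iff, norm_act]
      exact S.norm_av_le j p.2⟩,
    ⟨S.clip p.2.1, by
      rw [mem_closedBall_zero_iff]
      exact S.norm_clip p.2.1⟩)

theorem measurable_act_av (j : Cl n) :
    Measurable fun p : OG d × ((Cl n → ℝ) × E q) => act p.1 (S.av j p.2) := by
  have e1 : Measurable fun p : OG d × E d => act p.1 p.2 := (continuous_act d).measurable
  have e0 := Measurable.comp (S.measurable_av j)
    (measurable_snd : Measurable (Prod.snd : OG d × ((Cl n → ℝ) × E q) → _))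
  simp only [Function.comp_def] at e0
  have e2 := Measurable.prodMk
    (measurable_fst : Measurable (Prod.fst : OG d × ((Cl n → ℝ) × E q) → _)) e0
  have e3 := Measurable.comp e1 e2
  simpa only [Function.comp_def] using e3

theorem measurable_lb (j : Cl n) : Measurable (S.lb j) := by
  have h2 : Measurable fun p : OG d × ((Cl n → ℝ) × E q) => S.clip p.2.1 :=
    S.measurable_clip.comp (measurable_fst.comp measurable_snd)
  exact (Measurable.subtype_mk (S.measurable_act_av j)).prodMk (Measurable.subtype_mk h2)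

instance instNeZeroBox : NeZero ((volume : Measure (Cl n → ℝ)).restrict (closedBall 0 S.η)) := by
  constructor
  rw [Ne, Measure.restrict_eq_zero]
  exact (measure_closedBall_pos volume _ S.η_pos).ne'

/-- the law of the parameter -/
def boxLaw : Measure (Cl n → ℝ) := ((volume : Measure (Cl n → ℝ)).restrict (closedBall 0 S.η)).toFinite

instance : IsProbabilityMeasure S.boxLaw := by
  unfold boxLaw
  infer_instance

theorem ae_boxLaw : ae S.boxLaw = ae ((volume : Measure (Cl n → ℝ)).restrict (closedBall 0 S.η)) :=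
  ae_toFinite

theorem boxLaw_ac : S.boxLaw ≪ (volume : Measure (Cl n → ℝ)) :=
  (toFinite_absolutelyContinuous _).trans Measure.restrict_le_self.absolutelyContinuous

theorem ae_norm_le : ∀ᵐ ξ ∂S.boxLaw, ‖ξ‖ ≤ S.η := by
  rw [Filter.Eventually, ae_boxLaw]
  filter_upwards [ae_restrict_mem measurableSet_closedBall] with ξ h
  exact mem_closedBall_zero_iff.mp h

/-- the law of the vector in the block -/
def vecLaw (q : ℕ) : Measure (E q) := (volume : Measure (E q)).toFinite

instance : NeZero (volume : Measure (E q)) := inferInstance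

instance : IsProbabilityMeasure (vecLaw q) := by
  unfold vecLaw
  infer_instance

theorem ae_vecLaw : ae (vecLaw q) = ae (volume : Measure (E q)) := ae_toFinite

theorem vecLaw_ac : vecLaw q ≪ (volume : Measure (E q)) := toFinite_absolutelyContinuous _

theorem ac_vecLaw : (volume : Measure (E q)) ≪ vecLaw q := absolutelyContinuous_toFinite _

theorem ae_ne_zero : ∀ᵐ x ∂(vecLaw q), x ≠ 0 := by
  refine vecLaw_ac.ae_le ?_
  exact Measure.ae_ne volume 0

/-- the private law -/
def priv : Measure ((Cl n → ℝ) × E q) := S.boxLaw.prod (vecLaw q)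

instance : IsProbabilityMeasure S.priv := by
  unfold priv
  infer_instance

theorem ae_priv : ∀ᵐ w ∂S.priv, ‖w.1‖ ≤ S.η ∧ w.2 ≠ 0 := by
  unfold priv
  have h1 : ∀ᵐ w ∂(S.boxLaw.prod (vecLaw q)), ‖w.1‖ ≤ S.η :=
    Measure.quasiMeasurePreserving_fst.ae S.ae_norm_le
  have h2 : ∀ᵐ w ∂(S.boxLaw.prod (vecLaw q)), w.2 ≠ 0 :=
    Measure.quasiMeasurePreserving_snd.ae ae_ne_zero
  filter_upwards [h1, h2] with w a b using ⟨a, b⟩

/-- THE SPHERICAL HOST -/
abbrev host : Host (Cl n) where
  Th := OG d
  W := (Cl n → ℝ) × E q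
  Om := S.Lb
  m := mu d
  pr := fun _ => S.priv
  Psi := S.lb
  mPsi := S.measurable_lb

/-- the labels of a finite vertex set -/
def labs {V : Type} (cl : V → Cl n) (T : OG d) (w : V → (Cl n → ℝ) × E q) : V → S.Lb :=
  fun v => S.lb (cl v) (T, w v)

theorem measurable_labs {V : Type} [Fintype V] (cl : V → Cl n) :
    Measurable fun p : OG d × (V → (Cl n → ℝ) × E q) => S.labs cl p.1 p.2 :=
  S.host.measurable_lab cl

theorem law_eq {V : Type} [Fintype V] (cl : V → Cl n) :
    S.host.law cl = ((mu d).prod (Measure.pi fun _ : V => S.priv)).map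
      (fun p => S.labs cl p.1 p.2) := rfl

/-- a null criterion for the laws of the host -/
theorem law_ae_iff {V : Type} [Fintype V] (cl : V → Cl n) {N : Set (V → S.Lb)}
    (hN : MeasurableSet N) :
    (∀ᵐ y ∂(S.host.law cl), y ∈ N) ↔ ∀ᵐ w ∂(Measure.pi fun _ : V => S.priv), ∀ᵐ T ∂(mu d),
      S.labs cl T w ∈ N := by
  have hm := S.measurable_labs cl
  rw [S.law_eq, ae_map_iff (p := fun y => y ∈ N) hm.aemeasurable hN,
    Measure.ae_prod_iff_ae_ae (hm hN),
    Measure.ae_ae_comm (p := fun (T : OG d) w => S.labs cl T w ∈ N) (hm hN)]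

/-- a frame vector as a function of the labels of one vertex in each class -/
def fr (z : VV n) (y : Cl n → S.Lb) : E d := ∑ j, inner ℝ z (S.Rv j) • ((y j).1 : E d)

theorem continuous_fr (z : VV n) : Continuous (S.fr z) := by
  unfold fr
  refine continuous_finsetSum _ fun j _ => ?_
  have h1 : Continuous fun y : Cl n → S.Lb => ((y j).1 : E d) := by fun_prop
  have h2 : Continuous fun y : Cl n → S.Lb => inner ℝ z (S.Rv j) • ((y j).1 : E d) :=
    h1.const_smul (inner ℝ z (S.Rv j))
  exact h2

theorem measurable_fr (z : VV n) : Measurable (S.fr z) := (S.continuous_fr z).measurable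

theorem dependsOn_fr (z : VV n) : DependsOn (S.fr z) {j | inner ℝ z (S.Rv j) ≠ 0} := by
  intro x y hxy
  unfold fr
  refine Finset.sum_congr rfl fun j _ => ?_
  by_cases h : inner ℝ z (S.Rv j) = 0
  · rw [h, zero_smul, zero_smul]
  · rw [hxy j h]

/-- the point of the copy as a function of the labels -/
def pt (i : Fin (n + 1)) (y : Cl n → S.Lb) : E d := S.fr (S.v i) y

theorem measurable_pt (i : Fin (n + 1)) : Measurable (S.pt i) := S.measurable_fr _

theorem dependsOn_pt (i : Fin (n + 1)) : DependsOn (S.pt i) ((S.edge i : Finset (Cl n)) : Set (Cl n)) := by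
  intro x y hxy
  refine S.dependsOn_fr (S.v i) fun j hj => hxy j ?_
  exact (S.toFr.mem_edge i j).mpr hj

/-- the model frame of private variables -/
def XX (w : Cl n → (Cl n → ℝ) × E q) (z : VV n) : E d :=
  S.X (fun j => S.clip (w j).1) (fun j => dirn (w j).2) z

theorem XX_eq (w : Cl n → (Cl n → ℝ) × E q) (z : VV n) :
    S.XX w z = ∑ j, inner ℝ z (S.Rv j) • S.av j (w j) := rfl

theorem act_sum {ι : Type*} (s : Finset ι) (T : OG d) (f : ι → E d) :
    act T (∑ j ∈ s, f j) = ∑ j ∈ s, act T (f j) := by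
  unfold act
  exact map_sum _ _ _

theorem fr_labs (z : VV n) (T : OG d) (w : Cl n → (Cl n → ℝ) × E q) :
    S.fr z (S.labs (fun j => j) T w) = act T (S.XX w z) := by
  rw [XX_eq, act_sum]
  unfold fr
  refine Finset.sum_congr rfl fun j _ => ?_
  rw [act_smul]
  rfl

theorem inner_XX {w : Cl n → (Cl n → ℝ) × E q} (hw : ∀ j, (w j).2 ≠ 0) (z z' : VV n) :
    inner ℝ (S.XX w z) (S.XX w z') = inner ℝ z z' :=
  S.inner_X _ (fun _ l => S.abs_clip _ l) _ (fun j => norm_dirn (hw j)) z z'

theorem ae_pi_priv {V : Type} [Fintype V] :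
    ∀ᵐ w ∂(Measure.pi fun _ : V => S.priv), ∀ v, ‖(w v).1‖ ≤ S.η ∧ (w v).2 ≠ 0 := by
  rw [ae_all_iff]
  intro v
  exact (measurePreserving_eval (fun _ : V => S.priv) v).quasiMeasurePreserving.ae S.ae_priv

/-- ROW LEX: the law of the frame vectors of a random clique -/
theorem lex {ι : Type} [Fintype ι] (F0 : VV n →ₗᵢ[ℝ] E d) (z : ι → VV n) :
    (S.host.lam).map (fun y a => S.fr (z a) y) = (mu d).map (fun T a => act T (F0 (z a))) := by
  have hfr : Measurable fun (y : Cl n → S.Lb) (a : ι) => S.fr (z a) y :=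
    measurable_pi_lambda _ fun a => S.measurable_fr (z a)
  have hact : ∀ x : ι → E d, Measurable fun (T : OG d) (a : ι) => act T (x a) := fun x =>
    measurable_pi_lambda _ fun a =>
      ((continuous_act d).comp (continuous_id.prodMk continuous_const)).measurable
  have hm := S.measurable_labs (V := Cl n) (fun j => j)
  ext A hA
  have e1 : S.host.lam = ((mu d).prod (Measure.pi fun _ : Cl n => S.priv)).map
      (fun p => S.labs (fun j => j) p.1 p.2) := rfl
  rw [Measure.map_apply hfr hA, e1, Measure.map_apply hm (hfr hA),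
    Measure.prod_apply_symm (hm (hfr hA)), Measure.map_apply (hact _) hA]
  have e2 : ∀ᵐ w ∂(Measure.pi fun _ : Cl n => S.priv),
      (mu d) ((fun T : OG d => (T, w)) ⁻¹' ((fun p : OG d × (Cl n → (Cl n → ℝ) × E q) =>
        S.labs (fun j => j) p.1 p.2) ⁻¹' ((fun (y : Cl n → S.Lb) (a : ι) => S.fr (z a) y) ⁻¹' A))) =
      (mu d) ((fun (T : OG d) (a : ι) => act T (F0 (z a))) ⁻¹' A) := by
    filter_upwards [S.ae_pi_priv (V := Cl n)] with w hw
    obtain ⟨T0, hT0⟩ := exists_act_of_gram (fun a => F0 (z a)) (fun a => S.XX w (z a)) (by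
      intro a b
      rw [S.inner_XX (fun j => (hw j).2), F0.inner_map_map])
    have e3 : ((fun T : OG d => (T, w)) ⁻¹' ((fun p : OG d × (Cl n → (Cl n → ℝ) × E q) =>
        S.labs (fun j => j) p.1 p.2) ⁻¹' ((fun (y : Cl n → S.Lb) (a : ι) => S.fr (z a) y) ⁻¹' A))) =
        (fun T => T * T0) ⁻¹' ((fun (T : OG d) (a : ι) => act T (F0 (z a))) ⁻¹' A) := by
      ext T
      simp only [mem_preimage, S.fr_labs, act_mul, hT0]
    rw [e3]
    exact measure_preimage_mul_right (mu d) T0 _
  rw [lintegral_congr_ae e2, lintegral_const, measure_univ, mul_one]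

/-- the points of a random clique form a random copy -/
theorem lex_pt (F0 : VV n →ₗᵢ[ℝ] E d) {p : Fin (n + 1) → E d} (hp : ∀ i, F0 (S.v i) = p i) :
    (S.host.lam).map (fun y i => S.pt i y) = (mu d).map (fun T i => act T (p i)) := by
  have h := S.lex F0 (fun i : Fin (n + 1) => S.v i)
  simp only [hp] at h
  exact h

end SData

end Pool.Agent.SPHK
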