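import Pool.Agent.SPHK.AC1core
import Pool.Agent.SPHK.SphObj
import Pool.Agent.SPHK.ACM

/-! Project SPHK (MP_f7e9f1_co), row AC1 (B.3): in the spherical host a new vertex is independent of
another vertex of its class over a base, up to a density. -/

set_option autoImplicit false

open MeasureTheory ProbabilityTheory Set Metric Filter Module
open scoped ENNReal NNReal Topology

noncomputable section
namespace Pool.Agent.SPHK

open SPH _root_.SPHK

section resample
variable {ι X : Type} [Fintype ι] [DecidableEq ι] [MeasurableSpace X]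

/-- resampling one coordinate of a product measure -/
theorem map_update_pi (μ : Measure X) [IsProbabilityMeasure μ] (i0 : ι) :
    ((Measure.pi fun _ : ι => μ).prod μ).map (fun p => Function.update p.1 i0 p.2) =
      Measure.pi fun _ : ι => μ := by
  have hm : Measurable fun p : (ι → X) × X => Function.update p.1 i0 p.2 := by
    refine measurable_pi_lambda _ fun i => ?_
    by_cases h : i = i0
    · subst h
      simp only [Function.update_self]
      exact measurable_snd
    · simp only [Function.update_of_ne h]
      exact (measurable_pi_apply i).comp measurable_fst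
  refine (Measure.pi_eq fun s hs => ?_).symm
  rw [Measure.map_apply hm (MeasurableSet.univ_pi hs)]
  have h1 : (fun p : (ι → X) × X => Function.update p.1 i0 p.2) ⁻¹' (univ.pi s) =
      (univ.pi fun i => if i = i0 then univ else s i) ×ˢ (s i0) := by
    ext p
    simp only [mem_preimage, mem_univ_pi, mem_prod]
    constructor
    · intro h
      refine ⟨fun i => ?_, ?_⟩
      · by_cases hi : i = i0
        · rw [if_pos hi]; trivial
        · rw [if_neg hi]
          have := h i
          rwa [Function.update_of_ne hi] at this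
      · have := h i0
        rwa [Function.update_self] at this
    · rintro ⟨h2, h3⟩ i
      by_cases hi : i = i0
      · subst hi
        rwa [Function.update_self]
      · rw [Function.update_of_ne hi]
        have := h2 i
        rwa [if_neg hi] at this
  rw [h1, Measure.prod_prod, Measure.pi_pi, ← Finset.prod_erase_mul _ _ (Finset.mem_univ i0),
    ← Finset.prod_erase_mul _ (fun i => μ (s i)) (Finset.mem_univ i0), if_pos rfl, measure_univ,
    mul_one]
  congr 1
  refine Finset.prod_congr rfl fun i hi => ?_
  rw [if_neg (Finset.ne_of_mem_erase hi)]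

/-- almost everywhere statements by resampling one coordinate -/
theorem ae_of_resample (μ : Measure X) [IsProbabilityMeasure μ] (i0 : ι) {N : Set (ι → X)}
    (hN : MeasurableSet N)
    (h : ∀ᵐ w ∂(Measure.pi fun _ : ι => μ), ∀ᵐ x ∂μ, Function.update w i0 x ∈ N) :
    ∀ᵐ w ∂(Measure.pi fun _ : ι => μ), w ∈ N := by
  have hm : Measurable fun p : (ι → X) × X => Function.update p.1 i0 p.2 := by
    refine measurable_pi_lambda _ fun i => ?_
    by_cases h : i = i0
    · subst h
      simp only [Function.update_self]
      exact measurable_snd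
    · simp only [Function.update_of_ne h]
      exact (measurable_pi_apply i).comp measurable_fst
  rw [← map_update_pi μ i0, ae_map_iff (p := fun w => w ∈ N) hm.aemeasurable hN]
  rw [Measure.ae_prod_iff_ae_ae (hm hN)]
  exact h

end resample

section indep
variable {n d q : ℕ} (S : SData n d q)

/-- almost surely the vector of a vertex is not in the span of the others -/
theorem ae_notMem_others {V : Type} [Fintype V] [DecidableEq V] (hV : Fintype.card V ≤ q + 1)
    (v0 : V) : ∀ᵐ w ∂(Measure.pi fun _ : V => S.priv),
      (w v0).2 ∉ Submodule.span ℝ ((fun v => (w v).2) '' {v | v ≠ v0}) := by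
  set C : Set ((V → (Cl n → ℝ) × E q) × (V → ℝ)) :=
    {p | ∑ v ∈ Finset.univ.erase v0, p.2 v • (p.1 v).2 - (p.1 v0).2 = 0} with hC
  have hCc : IsClosed C := by
    refine isClosed_eq ?_ continuous_const
    have h1 : ∀ v, Continuous fun p : (V → (Cl n → ℝ) × E q) × (V → ℝ) => (p.1 v).2 := fun v =>
      continuous_snd.comp ((continuous_apply v).comp continuous_fst)
    have h2 : ∀ v, Continuous fun p : (V → (Cl n → ℝ) × E q) × (V → ℝ) => p.2 v := fun v =>
      (continuous_apply v).comp continuous_snd
    exact (continuous_finsetSum _ fun v _ => (h2 v).smul (h1 v)).sub (h1 v0)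
  have hset : ∀ w : V → (Cl n → ℝ) × E q, (w v0).2 ∈
      Submodule.span ℝ ((fun v => (w v).2) '' {v | v ≠ v0}) ↔ ∃ c, (w, c) ∈ C := by
    intro w
    have e1 : ((fun v => (w v).2) '' {v | v ≠ v0}) =
        (fun v => (w v).2) '' ((Finset.univ.erase v0 : Finset V) : Set V) := by
      congr 1
      ext v
      simp
    rw [e1, Submodule.mem_span_image_finset_iff_exists_fun']
    constructor
    · rintro ⟨c, hc⟩
      exact ⟨c, sub_eq_zero.mpr hc⟩
    · rintro ⟨c, hc⟩
      exact ⟨c, sub_eq_zero.mp hc⟩
  have hm : MeasurableSet {w : V → (Cl n → ℝ) × E q | (w v0).2 ∉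
      Submodule.span ℝ ((fun v => (w v).2) '' {v | v ≠ v0})} := by
    have h1 := (meas_exists C hCc).compl
    have e1 : {w : V → (Cl n → ℝ) × E q | (w v0).2 ∉
        Submodule.span ℝ ((fun v => (w v).2) '' {v | v ≠ v0})} =
        {x : V → (Cl n → ℝ) × E q | ∃ c, (x, c) ∈ C}ᶜ := by
      ext w
      exact not_congr (hset w)
    rw [e1]
    exact h1
  refine ae_of_resample S.priv v0 hm (Eventually.of_forall fun w => ?_)
  have h1 : ∀ x : (Cl n → ℝ) × E q, (fun v => (Function.update w v0 x v).2) '' {v | v ≠ v0} =
      (fun v => (w v).2) '' {v | v ≠ v0} := by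
    intro x
    refine image_congr fun v hv => ?_
    show (Function.update w v0 x v).2 = (w v).2
    rw [Function.update_of_ne hv]
  set M : Submodule ℝ (E q) := Submodule.span ℝ ((fun v => (w v).2) '' {v | v ≠ v0}) with hM
  have hMne : M ≠ ⊤ := by
    intro htop
    have h2 : finrank ℝ M = q + 1 := by rw [htop, finrank_top, finrank_euclideanSpace_fin]
    have e1 : ((fun v => (w v).2) '' {v | v ≠ v0}) =
        (((Finset.univ.erase v0).image fun v => (w v).2 : Finset (E q)) : Set (E q)) := by
      rw [Finset.coe_image]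
      congr 1
      ext v
      simp
    have h3 : finrank ℝ M ≤ Fintype.card V - 1 := by
      rw [hM, e1]
      refine (finrank_span_finset_le_card _).trans (Finset.card_image_le.trans ?_)
      rw [Finset.card_erase_of_mem (Finset.mem_univ _), Finset.card_univ]
    have h4 : 0 < Fintype.card V := Fintype.card_pos_iff.mpr ⟨v0⟩
    omega
  have h5 : ∀ᵐ x ∂S.priv, x.2 ∉ M := by
    have h6 : ∀ᵐ x ∂(SData.vecLaw q), x ∉ (M : Set (E q)) := by
      refine SData.vecLaw_ac.ae_le ?_
      have h7 := Measure.addHaar_submodule (volume : Measure (E q)) M hMne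
      exact measure_eq_zero_iff_ae_notMem.mp h7
    unfold SData.priv
    exact Measure.quasiMeasurePreserving_snd.ae h6
  filter_upwards [h5] with x hx
  show (Function.update w v0 x v0).2 ∉ Submodule.span ℝ _
  rw [h1 x, Function.update_self]
  exact hx

/-- almost surely the directions are linearly independent -/
theorem ae_li {V : Type} [Fintype V] (hV : Fintype.card V ≤ q + 1) :
    ∀ᵐ w ∂(Measure.pi fun _ : V => S.priv), LinearIndependent ℝ (fun v => dirn (w v).2) := by
  classical
  have h1 : ∀ᵐ w ∂(Measure.pi fun _ : V => S.priv), ∀ v0 : V,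
      (w v0).2 ∉ Submodule.span ℝ ((fun v => (w v).2) '' {v | v ≠ v0}) := by
    rw [ae_all_iff]
    exact fun v0 => ae_notMem_others S hV v0
  filter_upwards [h1, S.ae_pi_priv (V := V)] with w hw hw2
  have h2 : LinearIndependent ℝ (fun v => (w v).2) := by
    rw [linearIndependent_iff_notMem_span]
    intro v0
    have e1 : (univ \ {v0} : Set V) = {v | v ≠ v0} := by
      ext v
      simp
    rw [e1]
    exact hw v0
  have h3 := h2.units_smul fun v => (Units.mk0 (‖(w v).2‖) (norm_ne_zero_iff.mpr (hw2 v).2))⁻¹
  have e : (fun v => dirn (w v).2) = (fun v => (Units.mk0 (‖(w v).2‖)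
      (norm_ne_zero_iff.mpr (hw2 v).2))⁻¹) • fun v => (w v).2 := by
    funext v
    rfl
  rw [e]
  exact h3

/-- independent block vectors give independent model vectors -/
theorem li_av {V : Type} [Fintype V] (cl : V → Cl n) (w : V → (Cl n → ℝ) × E q)
    (h : LinearIndependent ℝ (fun v => dirn (w v).2)) :
    LinearIndependent ℝ (fun v => S.av (cl v) (w v)) := by
  classical
  rw [Fintype.linearIndependent_iff]
  intro c hc v0
  have h1 : ∀ u : E q, inner ℝ (∑ v, (if cl v = cl v0 then c v * S.r (cl v) (S.clip (w v).1) else 0) •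
      dirn (w v).2) u = 0 := by
    intro u
    have h2 := congrArg (fun z => inner ℝ z (S.blk (cl v0) u)) hc
    simp only [sum_inner, real_inner_smul_left, inner_zero_left] at h2
    rw [sum_inner]
    refine (Finset.sum_congr rfl fun v _ => ?_).trans h2
    rw [real_inner_smul_left]
    by_cases hv : cl v = cl v0
    · rw [if_pos hv]
      unfold SData.av SData.a
      rw [inner_add_left, real_inner_smul_left, S.inner_base_blk, hv, S.inner_blk]
      ring
    · rw [if_neg hv]
      unfold SData.av SData.a
      rw [inner_add_left, real_inner_smul_left, S.inner_base_blk, S.inner_blk_ne hv]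
      ring
  have h3 : ∑ v, (if cl v = cl v0 then c v * S.r (cl v) (S.clip (w v).1) else 0) •
      dirn (w v).2 = 0 := inner_self_eq_zero.mp (h1 _)
  have h4 := (Fintype.linearIndependent_iff.mp h) _ h3 v0
  rw [if_pos rfl] at h4
  rcases mul_eq_zero.mp h4 with h5 | h5
  · exact h5
  · exact absurd h5 (S.r_pos (S.abs_clip _)).ne'

/-- the block embedding as a linear map -/
def blkL (j : Cl n) : E q →ₗ[ℝ] E d where
  toFun u := S.blk j u
  map_add' u u' := by
    unfold SData.blk
    rw [← Finset.sum_add_distrib]
    refine Finset.sum_congr rfl fun a _ => ?_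
    rw [← add_smul]
    rfl
  map_smul' c u := by
    unfold SData.blk
    rw [Finset.smul_sum]
    refine Finset.sum_congr rfl fun a _ => ?_
    rw [smul_smul]
    rfl

theorem blkL_apply (j : Cl n) (u : E q) : blkL S j u = S.blk j u := rfl

theorem norm_blk (j : Cl n) (u : E q) : ‖S.blk j u‖ = ‖u‖ := by
  have h := S.inner_blk j u u
  rw [real_inner_self_eq_norm_sq, real_inner_self_eq_norm_sq] at h
  exact (sq_eq_sq₀ (norm_nonneg _) (norm_nonneg _)).mp h

theorem q_lt_d (S : SData n d q) : q + 1 ≤ d := by
  have h1 := S.hG.linearIndependent.fintype_card_le_finrank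
  rw [finrank_euclideanSpace_fin, Fintype.card_sum] at h1
  have h2 : 1 ≤ Fintype.card (Cl n × Cl n) := Fintype.card_pos_iff.mpr ⟨((0, none), (0, none))⟩
  have h3 : Fintype.card (Fin (q + 1)) ≤ Fintype.card (Cl n × Fin (q + 1)) :=
    Fintype.card_le_of_injective (fun i => (((0, none) : Cl n), i)) fun i i' h => by simpa using h
  rw [Fintype.card_fin] at h3
  omega

/-- the vector, replaced by zero outside of the ball -/
def clipB (y : E d) : ↥(closedBall (0 : E d) 2) :=
  ⟨if ‖y‖ ≤ 2 then y else 0, by
    rw [mem_closedBall_zero_iff]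
    split_ifs with h
    · exact h
    · rw [norm_zero]; norm_num⟩

theorem measurable_clipB : Measurable (clipB (d := d)) := by
  refine Measurable.subtype_mk ?_
  exact Measurable.ite (measurableSet_le measurable_norm measurable_const) measurable_id
    measurable_const

theorem clipB_eq (y : ↥(closedBall (0 : E d) 2)) : clipB (y : E d) = y := by
  apply Subtype.ext
  show (if ‖(y : E d)‖ ≤ 2 then (y : E d) else 0) = y
  rw [if_pos (mem_closedBall_zero_iff.mp y.2)]

/-- the parameter as a label -/
def cb (ξ : Cl n → ℝ) : ↥(closedBall (0 : Cl n → ℝ) S.η) :=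
  ⟨S.clip ξ, by rw [mem_closedBall_zero_iff]; exact S.norm_clip ξ⟩

theorem measurable_cb : Measurable (cb S) := Measurable.subtype_mk S.measurable_clip

/-- the comparison label -/
def FF {V : Type} [Fintype V] [DecidableEq V] (cV : V → Cl n) (j : Cl n) (b : V → S.Lb)
    (p : (Cl n → ℝ) × E d) : S.Lb :=
  (clipB (Pool.Agent.SPHK.pt (fun z : {v : V // cV v ≠ j} => ((b z.1).1 : E d))
    (fun z => S.c * (S.sv (cV z.1) ((b z.1).2 : Cl n → ℝ) j + S.sv j (S.clip p.1) (cV z.1)))
    (1 / (n + 1) - 2 * S.c * S.be j (S.clip p.1)) p.2), cb S p.1)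

theorem measurable_FF {V : Type} [Fintype V] [DecidableEq V] (cV : V → Cl n) (j : Cl n) :
    Measurable fun r : (V → S.Lb) × ((Cl n → ℝ) × E d) => FF S cV j r.1 r.2 := by
  have hb : ∀ v : V, Measurable fun r : (V → S.Lb) × ((Cl n → ℝ) × E d) => r.1 v := fun v =>
    (measurable_pi_apply v).comp measurable_fst
  have hy : Measurable fun r : (V → S.Lb) × ((Cl n → ℝ) × E d) =>
      (fun z : {v : V // cV v ≠ j} => ((r.1 z.1).1 : E d)) :=
    measurable_pi_lambda _ fun z => measurable_subtype_coe.comp (measurable_fst.comp (hb z.1))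
  have hξ : Measurable fun r : (V → S.Lb) × ((Cl n → ℝ) × E d) => S.clip r.2.1 :=
    S.measurable_clip.comp (measurable_fst.comp measurable_snd)
  have hbb : Measurable fun r : (V → S.Lb) × ((Cl n → ℝ) × E d) =>
      (fun z : {v : V // cV v ≠ j} => S.c * (S.sv (cV z.1) ((r.1 z.1).2 : Cl n → ℝ) j +
        S.sv j (S.clip r.2.1) (cV z.1))) := by
    refine measurable_pi_lambda _ fun z => ?_
    have h1 : Measurable fun r : (V → S.Lb) × ((Cl n → ℝ) × E d) =>
        S.sv (cV z.1) ((r.1 z.1).2 : Cl n → ℝ) j :=
      (S.toFr.continuous_sv (cV z.1) j).measurable.comp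
        (measurable_subtype_coe.comp (measurable_snd.comp (hb z.1)))
    have h2 : Measurable fun r : (V → S.Lb) × ((Cl n → ℝ) × E d) =>
        S.sv j (S.clip r.2.1) (cV z.1) :=
      (S.toFr.continuous_sv j (cV z.1)).measurable.comp hξ
    exact (h1.add h2).const_mul S.c
  have hmm : Measurable fun r : (V → S.Lb) × ((Cl n → ℝ) × E d) =>
      1 / ((n : ℝ) + 1) - 2 * S.c * S.be j (S.clip r.2.1) := by
    have h1 : Measurable fun r : (V → S.Lb) × ((Cl n → ℝ) × E d) => S.be j (S.clip r.2.1) :=
      (S.toFr.continuous_be j).measurable.comp hξ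
    exact measurable_const.sub (h1.const_mul (2 * S.c))
  have hx : Measurable fun r : (V → S.Lb) × ((Cl n → ℝ) × E d) => r.2.2 :=
    measurable_snd.comp measurable_snd
  exact (measurable_clipB.comp (Pool.Agent.SPHK.measurable_pt hy hbb hmm hx)).prodMk
    ((measurable_cb S).comp (measurable_fst.comp measurable_snd))

/-- the law of the randomness of the comparison kernel -/
def P0 : Measure ((Cl n → ℝ) × E d) := S.boxLaw.prod (SData.vecLaw d)

instance : IsProbabilityMeasure (P0 S) := by
  unfold P0
  infer_instance

/-- the comparison kernel -/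
def kap {V : Type} [Fintype V] [DecidableEq V] (cV : V → Cl n) (j : Cl n) :
    Kernel (V → S.Lb) (Unit → S.Lb) where
  toFun b := ((P0 S).map (Prod.mk b)).map fun r (_ : Unit) => FF S cV j r.1 r.2
  measurable' := by
    have hG : Measurable fun (r : (V → S.Lb) × ((Cl n → ℝ) × E d)) (_ : Unit) =>
        FF S cV j r.1 r.2 := measurable_pi_lambda _ fun _ => measurable_FF S cV j
    exact (Measure.measurable_map _ hG).comp Measurable.map_prodMk_left

theorem kap_apply {V : Type} [Fintype V] [DecidableEq V] (cV : V → Cl n) (j : Cl n)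
    (b : V → S.Lb) : kap S cV j b = (P0 S).map fun p (_ : Unit) => FF S cV j b p := by
  have hG : Measurable fun (r : (V → S.Lb) × ((Cl n → ℝ) × E d)) (_ : Unit) =>
      FF S cV j r.1 r.2 := measurable_pi_lambda _ fun _ => measurable_FF S cV j
  show ((P0 S).map (Prod.mk b)).map _ = _
  rw [Measure.map_map hG measurable_prodMk_left]
  rfl

theorem measurable_FFb {V : Type} [Fintype V] [DecidableEq V] (cV : V → Cl n) (j : Cl n)
    (b : V → S.Lb) : Measurable fun (p : (Cl n → ℝ) × E d) (_ : Unit) => FF S cV j b p := by
  have h1 : Measurable (Prod.mk b : (Cl n → ℝ) × E d → (V → S.Lb) × ((Cl n → ℝ) × E d)) :=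
    measurable_prodMk_left
  have h2 := Measurable.comp (measurable_FF S cV j) h1
  exact measurable_pi_lambda _ fun _ => h2

instance {V : Type} [Fintype V] [DecidableEq V] (cV : V → Cl n) (j : Cl n) :
    IsMarkovKernel (kap S cV j) := by
  constructor
  intro b
  rw [kap_apply]
  exact Measure.isProbabilityMeasure_map (measurable_FFb S cV j b).aemeasurable

theorem kap_zero {V : Type} [Fintype V] [DecidableEq V] (cV : V → Cl n) (j : Cl n)
    (b : V → S.Lb) {s : Set (Unit → S.Lb)} (hs : MeasurableSet s) (h : kap S cV j b s = 0) :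
    ∀ᵐ p ∂(P0 S), (fun _ : Unit => FF S cV j b p) ∉ s := by
  rw [kap_apply, Measure.map_apply (measurable_FFb S cV j b) hs] at h
  exact measure_eq_zero_iff_ae_notMem.mp h

end indep

end Pool.Agent.SPHK
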