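import Pool.Agent.SPHK.AC1

/-! Project SPHK (MP_f7e9f1_co), row AC1: the final statement. -/

set_option autoImplicit false

open MeasureTheory ProbabilityTheory Set Metric Filter Module
open scoped ENNReal NNReal Topology

noncomputable section
namespace Pool.Agent.SPHK

open SPH _root_.SPHK

section fin
variable {n d q : ℕ} (S : SData n d q)

/-- the class map of the base and the first vertex -/
abbrev cl1 {V : Type} (cV : V → Cl n) (j : Cl n) : V ⊕ Unit → Cl n := Sum.elim cV fun _ => j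

/-- the triple of labels as a function of the vectors -/
def trip {V : Type} (w : V ⊕ Unit → (Cl n → ℝ) × E q) (ξ : Cl n → ℝ)
    (Y : V ⊕ Unit → E d) (y' : E d) : ((V → S.Lb) × (Unit → S.Lb)) × (Unit → S.Lb) :=
  ((fun v => (clipB (Y (Sum.inl v)), cb S (w (Sum.inl v)).1),
    fun _ => (clipB (Y (Sum.inr ())), cb S (w (Sum.inr ())).1)), fun _ => (clipB y', cb S ξ))

theorem measurable_trip {V : Type} (w : V ⊕ Unit → (Cl n → ℝ) × E q) (ξ : Cl n → ℝ) :
    Measurable fun p : (V ⊕ Unit → E d) × E d => trip S w ξ p.1 p.2 := by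
  have h1 : ∀ v : V ⊕ Unit, Measurable fun p : (V ⊕ Unit → E d) × E d => clipB (p.1 v) := by
    intro v
    have e1 : Measurable fun p : (V ⊕ Unit → E d) × E d => p.1 v :=
      (measurable_pi_apply v).comp measurable_fst
    have e2 := Measurable.comp (measurable_clipB (d := d)) e1
    exact e2
  have h2 : Measurable fun p : (V ⊕ Unit → E d) × E d => clipB p.2 := by
    have e2 := Measurable.comp (measurable_clipB (d := d))
      (measurable_snd : Measurable (Prod.snd : (V ⊕ Unit → E d) × E d → _))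
    exact e2
  refine Measurable.prodMk (Measurable.prodMk ?_ ?_) ?_
  · exact measurable_pi_lambda _ fun v => (h1 (Sum.inl v)).prodMk measurable_const
  · exact measurable_pi_lambda _ fun v => (h1 (Sum.inr ())).prodMk measurable_const
  · exact measurable_pi_lambda _ fun v => h2.prodMk measurable_const

/-- the labels are given by the vectors -/
theorem lb_eq (j : Cl n) (T : OG d) (w : (Cl n → ℝ) × E q) :
    S.lb j (T, w) = (clipB (act T (S.av j w)), cb S w.1) := by
  have h := clipB_eq (d := d) (S.lb j (T, w)).1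
  have h' : clipB (act T (S.av j w)) = (S.lb j (T, w)).1 := h
  rw [h']
  rfl

/-- the core for fixed private variables of the base and fixed parameter of the new vertex -/
theorem core_S {V : Type} [Fintype V] [DecidableEq V] (cV : V → Cl n) (j : Cl n)
    (hcard : Fintype.card V + 1 ≤ q) (w : V ⊕ Unit → (Cl n → ℝ) × E q)
    (hli : LinearIndependent ℝ (fun v => dirn (w v).2)) (ξ : Cl n → ℝ)
    (s : Set (((V → S.Lb) × (Unit → S.Lb)) × (Unit → S.Lb))) (hs : MeasurableSet s)
    (h : ∀ᵐ T ∂(mu d), ∀ᵐ x : E d,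
      (((fun v => S.lb (cV v) (T, w (Sum.inl v)), fun _ : Unit => S.lb j (T, w (Sum.inr ()))),
        fun _ : Unit => FF S cV j (fun v => S.lb (cV v) (T, w (Sum.inl v))) (ξ, x)) :
        ((V → S.Lb) × (Unit → S.Lb)) × (Unit → S.Lb)) ∉ s) :
    ∀ᵐ x : E q, ∀ᵐ T ∂(mu d),
      (((fun v => S.lb (cV v) (T, w (Sum.inl v)), fun _ : Unit => S.lb j (T, w (Sum.inr ()))),
        fun _ : Unit => S.lb j (T, (ξ, x))) :
        ((V → S.Lb) × (Unit → S.Lb)) × (Unit → S.Lb)) ∉ s := by
  classical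
  have hqd := q_lt_d S
  let m : V ⊕ Unit → E d := fun v => S.av (cl1 cV j v) (w v)
  let e : {v : V // cV v ≠ j} → V ⊕ Unit := fun z => Sum.inl z.1
  have he : Function.Injective e := fun a b hab => Subtype.ext (Sum.inl_injective hab)
  let B : Finset (V ⊕ Unit) := Finset.univ.filter fun v => cl1 cV j v = j
  have hmemB : ∀ v, v ∈ B ↔ cl1 cV j v = j := fun v => by simp [B]
  have hliav : LinearIndependent ℝ m := li_av S (cl1 cV j) w hli
  let Q : (V ⊕ Unit → E d) → E d → Prop := fun Y y' => trip S w ξ Y y' ∉ s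
  have hcore := core_abs (q := q) m e he B
    (by
      intro v hv
      rw [hmemB] at hv
      rcases v with v | v
      · exact ⟨⟨v, hv⟩, rfl⟩
      · exact absurd rfl hv)
    (by
      intro z hz
      rw [hmemB] at hz
      exact z.2 hz)
    (hliav.comp e he)
    (fun z => S.c * (S.sv (cV z.1) (S.clip (w (Sum.inl z.1)).1) j + S.sv j (S.clip ξ) (cV z.1)))
    (1 / (n + 1) - 2 * S.c * S.be j (S.clip ξ)) Q (measurable_trip S w ξ hs.compl)
    (by
      filter_upwards [h] with T hT
      filter_upwards [hT] with x hx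
      show trip S w ξ _ _ ∉ s
      intro hmem
      apply hx
      have e1 : trip S w ξ (fun v => act T (m v)) (Pool.Agent.SPHK.pt (fun z => act T (m (e z)))
          (fun z => S.c * (S.sv (cV z.1) (S.clip (w (Sum.inl z.1)).1) j +
            S.sv j (S.clip ξ) (cV z.1)))
          (1 / (n + 1) - 2 * S.c * S.be j (S.clip ξ)) x) =
          (((fun v => S.lb (cV v) (T, w (Sum.inl v)), fun _ : Unit => S.lb j (T, w (Sum.inr ()))),
            fun _ : Unit => FF S cV j (fun v => S.lb (cV v) (T, w (Sum.inl v))) (ξ, x)) :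
            ((V → S.Lb) × (Unit → S.Lb)) × (Unit → S.Lb)) := by
        simp only [lb_eq]
        have e2 : ∀ z : {v : V // cV v ≠ j},
            ((clipB (act T (S.av (cV z.1) (w (Sum.inl z.1)))) : ↥(closedBall (0 : E d) 2)) : E d) =
              act T (m (e z)) := by
          intro z
          have h3 := lb_eq S (cV z.1) T (w (Sum.inl z.1))
          have h4 := congrArg (fun l : S.Lb => ((l.1 : ↥(closedBall (0 : E d) 2)) : E d)) h3
          exact h4.symm
        unfold trip FF
        simp only [e2]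
        rfl
      rw [← e1]
      exact hmem)
    (S.base j (S.clip ξ)) (S.r j (S.clip ξ)) (S.r_pos (S.abs_clip ξ)).ne' (blkL S j)
    (by
      intro u hu
      have h1 := S.inner_a_self (j := j) (S.abs_clip ξ) u hu
      rw [real_inner_self_eq_norm_sq] at h1
      exact h1)
    (by
      intro u z
      exact S.inner_a_ne z.2 (S.clip (w (Sum.inl z.1)).1) (S.clip ξ)
        (dirn (w (Sum.inl z.1)).2) u)
    (by
      intro u z
      have hz : cl1 cV j (e z) ≠ j := z.2
      show inner ℝ (S.base _ _ + S.r _ _ • S.blk _ _) (S.blk j u) = 0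
      rw [inner_add_left, real_inner_smul_left, S.inner_base_blk, S.inner_blk_ne hz]
      ring)
    (fun u => norm_blk S j u)
    (fun u => S.inner_base_blk j j _ u)
    (by
      intro c hc h0 v0 hv0
      have h1 : ∀ u : E q, inner ℝ (∑ v ∈ B, (c v * S.r j (S.clip (w v).1)) • dirn (w v).2) u = 0 := by
        intro u
        rw [sum_inner]
        refine (Finset.sum_congr rfl fun v hv => ?_).trans (h0 u)
        have hvj : cl1 cV j v = j := (hmemB v).mp hv
        show _ = c v * inner ℝ (S.base (cl1 cV j v) _ + S.r (cl1 cV j v) _ • S.blk (cl1 cV j v) _)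
          (S.blk j u)
        rw [hvj, inner_add_left, real_inner_smul_left, real_inner_smul_left, S.inner_base_blk,
          S.inner_blk]
        ring
      have h2 : ∑ v ∈ B, (c v * S.r j (S.clip (w v).1)) • dirn (w v).2 = 0 :=
        inner_self_eq_zero.mp (h1 _)
      have h3 := (linearIndependent_iff'.mp hli) B _ h2 v0 hv0
      rcases mul_eq_zero.mp h3 with h5 | h5
      · exact h5
      · exact absurd h5 (S.r_pos (S.abs_clip _)).ne')
    (by
      refine (Finset.card_le_univ _).trans ?_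
      rw [Fintype.card_sum, Fintype.card_unit]
      exact hcard)
    (by
      rw [Fintype.card_sum, Fintype.card_unit]
      omega)
  filter_upwards [hcore] with x hx
  filter_upwards [hx] with T hT hmem
  apply hT
  show trip S w ξ _ _ ∈ s
  have e1 : trip S w ξ (fun v => act T (m v))
      (act T (S.base j (S.clip ξ) + S.r j (S.clip ξ) • blkL S j (dirn x))) =
      (((fun v => S.lb (cV v) (T, w (Sum.inl v)), fun _ : Unit => S.lb j (T, w (Sum.inr ()))),
        fun _ : Unit => S.lb j (T, (ξ, x))) :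
        ((V → S.Lb) × (Unit → S.Lb)) × (Unit → S.Lb)) := by
    simp only [lb_eq]
    rfl
  rw [e1]
  exact hmem

/-- the set of the private variables for which a property of the labels holds almost surely is
measurable -/
theorem measurableSet_aeT {X Y : Type} [MeasurableSpace X] [MeasurableSpace Y] (κ : Measure Y)
    [SFinite κ] {M : Set (X × Y)} (hM : MeasurableSet M) :
    MeasurableSet {x : X | ∀ᵐ y ∂κ, (x, y) ∈ M} := by
  have e1 : {x : X | ∀ᵐ y ∂κ, (x, y) ∈ M} = (fun x => κ (Prod.mk x ⁻¹' Mᶜ)) ⁻¹' {0} := by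
    ext x
    show (∀ᵐ y ∂κ, (x, y) ∈ M) ↔ _
    rw [ae_iff]
    rfl
  rw [e1]
  exact (measurable_measure_prodMk_left hM.compl) (measurableSet_singleton _)

theorem meas_aeT_pre {W T Y : Type} [MeasurableSpace W] [MeasurableSpace T] [MeasurableSpace Y]
    (f : T → W → Y) (hf : Measurable fun p : T × W => f p.1 p.2) (κ : Measure T) [SFinite κ]
    {A : Set Y} (hA : MeasurableSet A) : MeasurableSet {w : W | ∀ᵐ t ∂κ, f t w ∈ A} := by
  have e0 : Measurable fun p : W × T => (p.2, p.1) := measurable_snd.prodMk measurable_fst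
  have e1 : Measurable fun p : W × T => f p.2 p.1 := Measurable.comp hf e0
  have e2 : MeasurableSet {p : W × T | f p.2 p.1 ∈ A} := e1 hA
  exact measurableSet_aeT κ e2

theorem measurable_lbc {X : Type} [MeasurableSpace X] (j : Cl n) (w : (Cl n → ℝ) × E q)
    {f : X → OG d} (hf : Measurable f) : Measurable fun r : X => S.lb j (f r, w) := by
  have h1 : Measurable fun r : X => (f r, w) := hf.prodMk measurable_const
  have h2 := Measurable.comp (S.measurable_lb j) h1
  exact h2

theorem measurable_lv {V X : Type} [MeasurableSpace X] (cV : V → Cl n)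
    (w : V → (Cl n → ℝ) × E q) {f : X → OG d} (hf : Measurable f) :
    Measurable fun (r : X) (v : V) => S.lb (cV v) (f r, w v) :=
  measurable_pi_lambda _ fun v => measurable_lbc S (cV v) (w v) hf

theorem measurable_FFc {V X : Type} [Fintype V] [DecidableEq V] [MeasurableSpace X]
    (cV : V → Cl n) (j : Cl n) {b : X → V → S.Lb} (hb : Measurable b)
    {p : X → (Cl n → ℝ) × E d} (hp : Measurable p) :
    Measurable fun (r : X) (_ : Unit) => FF S cV j (b r) (p r) := by
  have h1 : Measurable fun r : X => (b r, p r) := hb.prodMk hp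
  have h2 := Measurable.comp (measurable_FF S cV j) h1
  exact measurable_pi_lambda _ fun _ => h2

/-- the statement for fixed private variables of the base -/
theorem fixed_base {V : Type} [Fintype V] [DecidableEq V] (cV : V → Cl n) (j : Cl n)
    (hcard : Fintype.card V + 1 ≤ q) (w : V ⊕ Unit → (Cl n → ℝ) × E q)
    (hli : LinearIndependent ℝ (fun v => dirn (w v).2))
    (s : Set (((V → S.Lb) × (Unit → S.Lb)) × (Unit → S.Lb))) (hs : MeasurableSet s)
    (h : ∀ᵐ T ∂(mu d), ∀ᵐ p ∂(P0 S),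
      (((fun v => S.lb (cV v) (T, w (Sum.inl v)), fun _ : Unit => S.lb j (T, w (Sum.inr ()))),
        fun _ : Unit => FF S cV j (fun v => S.lb (cV v) (T, w (Sum.inl v))) p) :
        ((V → S.Lb) × (Unit → S.Lb)) × (Unit → S.Lb)) ∉ s) :
    ∀ᵐ ξ ∂S.boxLaw, ∀ᵐ x ∂(SData.vecLaw q), ∀ᵐ T ∂(mu d),
      (((fun v => S.lb (cV v) (T, w (Sum.inl v)), fun _ : Unit => S.lb j (T, w (Sum.inr ()))),
        fun _ : Unit => S.lb j (T, (ξ, x))) :
        ((V → S.Lb) × (Unit → S.Lb)) × (Unit → S.Lb)) ∉ s := by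
  let M2 : Set (OG d × ((Cl n → ℝ) × E d)) := {r |
    (((fun v => S.lb (cV v) (r.1, w (Sum.inl v)), fun _ : Unit => S.lb j (r.1, w (Sum.inr ()))),
      fun _ : Unit => FF S cV j (fun v => S.lb (cV v) (r.1, w (Sum.inl v))) r.2) :
      ((V → S.Lb) × (Unit → S.Lb)) × (Unit → S.Lb)) ∉ s}
  have hM2 : MeasurableSet M2 := by
    have e1 := measurable_lv S cV (fun v => w (Sum.inl v))
      (measurable_fst : Measurable (Prod.fst : OG d × ((Cl n → ℝ) × E d) → _))
    have e2 := measurable_lv S (fun _ : Unit => j) (fun _ => w (Sum.inr ()))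
      (measurable_fst : Measurable (Prod.fst : OG d × ((Cl n → ℝ) × E d) → _))
    have e3 := measurable_FFc S cV j e1
      (measurable_snd : Measurable (Prod.snd : OG d × ((Cl n → ℝ) × E d) → _))
    have e4 := (e1.prodMk e2).prodMk e3
    exact e4 hs.compl
  have h2 : ∀ᵐ T ∂(mu d), ∀ᵐ p ∂(P0 S), (T, p) ∈ M2 := h
  have h3 : ∀ᵐ p ∂(P0 S), ∀ᵐ T ∂(mu d), (T, p) ∈ M2 := (Measure.ae_ae_comm hM2).mp h2
  have h4 : ∀ᵐ ξ ∂S.boxLaw, ∀ᵐ x ∂(SData.vecLaw d), ∀ᵐ T ∂(mu d), (T, (ξ, x)) ∈ M2 :=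
    Measure.ae_ae_of_ae_prod h3
  filter_upwards [h4] with ξ hξ
  have hsec : MeasurableSet {r : OG d × E d | (r.1, (ξ, r.2)) ∈ M2} := by
    have e1 : Measurable fun r : OG d × E d => (r.1, (ξ, r.2)) :=
      measurable_fst.prodMk (measurable_const.prodMk measurable_snd)
    exact e1 hM2
  have h6 : ∀ᵐ T ∂(mu d), ∀ᵐ x ∂(SData.vecLaw d), (T, (ξ, x)) ∈ M2 :=
    (Measure.ae_ae_comm (p := fun (T : OG d) (x : E d) => (T, (ξ, x)) ∈ M2) hsec).mpr hξ
  have h7 : ∀ᵐ T ∂(mu d), ∀ᵐ x : E d, (T, (ξ, x)) ∈ M2 := by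
    filter_upwards [h6] with T hT
    exact SData.ac_vecLaw.ae_le hT
  have h8 := core_S S cV j hcard w hli ξ s hs h7
  exact SData.vecLaw_ac.ae_le h8

section trans
variable {V : Type}

/-- the classes of the base and two further vertices -/
abbrev cl3 (cV : V → Cl n) (j : Cl n) : V ⊕ (Unit ⊕ Unit) → Cl n :=
  Sum.elim cV (Sum.elim (fun _ => j) fun _ => j)

/-- grouping of the labels -/
def g3 {O : Type} (y : V ⊕ (Unit ⊕ Unit) → O) : ((V → O) × (Unit → O)) × (Unit → O) :=
  ((fun v => y (Sum.inl v), fun b => y (Sum.inr (Sum.inl b))), fun b => y (Sum.inr (Sum.inr b)))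

theorem measurable_g3 {O : Type} [MeasurableSpace O] : Measurable (g3 (V := V) (O := O)) :=
  ((measurable_pi_lambda _ fun v => measurable_pi_apply _).prodMk
    (measurable_pi_lambda _ fun v => measurable_pi_apply _)).prodMk
    (measurable_pi_lambda _ fun v => measurable_pi_apply _)

/-- the embedding of the base and the first vertex -/
def i1 : V ⊕ Unit → V ⊕ (Unit ⊕ Unit) := Sum.elim Sum.inl fun _ => Sum.inr (Sum.inl ())

theorem i1_injective : Function.Injective (i1 (V := V)) := by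
  rintro (a | a) (b | b) hab
  · exact congrArg Sum.inl (Sum.inl_injective hab)
  · exact absurd hab (by simp [i1])
  · exact absurd hab (by simp [i1])
  · rfl

theorem g3_labs [DecidableEq V] (cV : V → Cl n) (j : Cl n) (T : OG d)
    (w' : V ⊕ (Unit ⊕ Unit) → (Cl n → ℝ) × E q) (p : (Cl n → ℝ) × E q) :
    g3 (S.labs (cl3 cV j) T (Function.update w' (Sum.inr (Sum.inr ())) p)) =
      (((fun v => S.lb (cV v) (T, w' (i1 (Sum.inl v))),
        fun _ : Unit => S.lb j (T, w' (i1 (Sum.inr ())))),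
        fun _ : Unit => S.lb j (T, p)) :
        ((V → S.Lb) × (Unit → S.Lb)) × (Unit → S.Lb)) := by
  refine Prod.ext (Prod.ext ?_ ?_) ?_
  · funext v
    show S.lb (cV v) (T, Function.update w' (Sum.inr (Sum.inr ())) p (Sum.inl v)) = _
    rw [Function.update_of_ne (by simp)]
    rfl
  · funext v
    show S.lb j (T, Function.update w' (Sum.inr (Sum.inr ())) p (Sum.inr (Sum.inl v))) = _
    rw [Function.update_of_ne (by simp)]
    rfl
  · funext v
    show S.lb j (T, Function.update w' (Sum.inr (Sum.inr ())) p (Sum.inr (Sum.inr v))) = _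
    rw [show (Sum.inr (Sum.inr v) : V ⊕ (Unit ⊕ Unit)) = Sum.inr (Sum.inr ()) from rfl,
      Function.update_self]

theorem measurableSet_N3 [Fintype V] (cV : V → Cl n) (j : Cl n)
    (s : Set (((V → S.Lb) × (Unit → S.Lb)) × (Unit → S.Lb))) (hs : MeasurableSet s) :
    MeasurableSet {w : V ⊕ (Unit ⊕ Unit) → (Cl n → ℝ) × E q |
      ∀ᵐ T ∂(mu d), S.labs (cl3 cV j) T w ∈ (g3 ⁻¹' s)ᶜ} := by
  have h1 : MeasurableSet ((g3 (V := V) (O := S.Lb)) ⁻¹' s)ᶜ := (measurable_g3 hs).compl
  exact meas_aeT_pre (fun (T : OG d) (w : V ⊕ (Unit ⊕ Unit) → (Cl n → ℝ) × E q) =>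
    S.labs (cl3 cV j) T w) (S.measurable_labs (cl3 cV j)) (mu d) h1

end trans

/-- the hypothesis in terms of the private variables -/
theorem hyp_unfold {V : Type} [Fintype V] [DecidableEq V] (cV : V → Cl n) (j : Cl n)
    (s : Set (((V → S.Lb) × (Unit → S.Lb)) × (Unit → S.Lb))) (hs : MeasurableSet s)
    (h0 : ((S.host.pair cV Unit j) ⊗ₘ ((kap S cV j).prodMkRight (Unit → S.Lb))) s = 0) :
    ∀ᵐ w ∂(Measure.pi fun _ : V ⊕ Unit => S.priv), ∀ᵐ T ∂(mu d), ∀ᵐ p ∂(P0 S),
      (((fun v => S.lb (cV v) (T, w (Sum.inl v)), fun _ : Unit => S.lb j (T, w (Sum.inr ()))),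
        fun _ : Unit => FF S cV j (fun v => S.lb (cV v) (T, w (Sum.inl v))) p) :
        ((V → S.Lb) × (Unit → S.Lb)) × (Unit → S.Lb)) ∉ s := by
  have hg2 : Measurable (fun (y : V ⊕ Unit → S.Lb) =>
      ((fun v => y (Sum.inl v), fun b => y (Sum.inr b)) : (V → S.Lb) × (Unit → S.Lb))) :=
    (measurable_pi_lambda _ fun v => measurable_pi_apply _).prodMk
      (measurable_pi_lambda _ fun v => measurable_pi_apply _)
  have hkm : Measurable fun p : (V → S.Lb) × (Unit → S.Lb) =>
      ((kap S cV j).prodMkRight (Unit → S.Lb)) p (Prod.mk p ⁻¹' s) :=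
    Kernel.measurable_kernel_prodMk_left hs
  rw [Measure.compProd_apply hs, lintegral_eq_zero_iff hkm] at h0
  have hmZ : MeasurableSet {p : (V → S.Lb) × (Unit → S.Lb) |
      ((kap S cV j).prodMkRight (Unit → S.Lb)) p (Prod.mk p ⁻¹' s) = 0} :=
    hkm (measurableSet_singleton _)
  have h1 : ∀ᵐ y ∂(S.host.law (Sum.elim cV fun _ : Unit => j)),
      y ∈ (fun (y : V ⊕ Unit → S.Lb) =>
      ((fun v => y (Sum.inl v), fun b => y (Sum.inr b)) : (V → S.Lb) × (Unit → S.Lb))) ⁻¹'
      {p : (V → S.Lb) × (Unit → S.Lb) |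
      ((kap S cV j).prodMkRight (Unit → S.Lb)) p (Prod.mk p ⁻¹' s) = 0} :=
    ae_of_ae_map hg2.aemeasurable h0
  rw [S.law_ae_iff _ (hg2 hmZ)] at h1
  filter_upwards [h1] with w hw
  filter_upwards [hw] with T hT
  exact kap_zero S cV j (fun v => S.lb (cV v) (T, w (Sum.inl v))) (measurable_prodMk_left hs) hT

/-- ROW AC1. -/
theorem SData.ace1s (N : ℕ) (hN : N + 1 ≤ q) : S.host.ACe1s N := by
  classical
  intro V _ cV j hV
  refine ⟨kap S cV j, inferInstance, Measure.AbsolutelyContinuous.mk fun s hs h0 => ?_⟩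
  have h1 := hyp_unfold S cV j s hs h0
  show ((S.host.law (cl3 cV j)).map g3) s = 0
  rw [Measure.map_apply measurable_g3 hs, measure_eq_zero_iff_ae_notMem]
  show ∀ᵐ y ∂(S.host.law (cl3 cV j)), y ∈ (g3 ⁻¹' s)ᶜ
  rw [S.law_ae_iff _ (measurable_g3 hs).compl]
  refine ae_of_resample S.priv (Sum.inr (Sum.inr ())) (measurableSet_N3 S cV j s hs) ?_
  have hm1 : Measurable fun (w : V ⊕ (Unit ⊕ Unit) → (Cl n → ℝ) × E q) (v : V ⊕ Unit) =>
      w (i1 v) := measurable_pi_lambda _ fun v => measurable_pi_apply _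
  have hmp := map_pi_comp (V := V ⊕ (Unit ⊕ Unit)) (V' := V ⊕ Unit) (fun _ => S.priv) i1
    i1_injective
  have hcq : Fintype.card (V ⊕ Unit) ≤ q + 1 := by
    rw [Fintype.card_sum, Fintype.card_unit]
    omega
  have hli := ae_li S hcq
  rw [← hmp] at h1 hli
  have h1' := ae_of_ae_map hm1.aemeasurable h1
  have hli' := ae_of_ae_map hm1.aemeasurable hli
  filter_upwards [h1', hli'] with w' h1w hliw
  have h5 := fixed_base S cV j (by omega) (fun v => w' (i1 v)) hliw s hs h1w
  have hmN : MeasurableSet {p : (Cl n → ℝ) × E q |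
      Function.update w' (Sum.inr (Sum.inr ())) p ∈
        {w : V ⊕ (Unit ⊕ Unit) → (Cl n → ℝ) × E q |
          ∀ᵐ T ∂(mu d), S.labs (cl3 cV j) T w ∈ (g3 ⁻¹' s)ᶜ}} :=
    (measurable_update w' (a := Sum.inr (Sum.inr ()))) (measurableSet_N3 S cV j s hs)
  show ∀ᵐ p ∂(S.boxLaw.prod (SData.vecLaw q)), p ∈ {p : (Cl n → ℝ) × E q |
      Function.update w' (Sum.inr (Sum.inr ())) p ∈
        {w : V ⊕ (Unit ⊕ Unit) → (Cl n → ℝ) × E q |
          ∀ᵐ T ∂(mu d), S.labs (cl3 cV j) T w ∈ (g3 ⁻¹' s)ᶜ}}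
  refine (Measure.ae_prod_iff_ae_ae hmN).mpr ?_
  filter_upwards [h5] with ξ hξ
  filter_upwards [hξ] with x hx
  show ∀ᵐ T ∂(mu d), S.labs (cl3 cV j) T
    (Function.update w' (Sum.inr (Sum.inr ())) (ξ, x)) ∈ (g3 ⁻¹' s)ᶜ
  filter_upwards [hx] with T hT hmem
  apply hT
  rw [← g3_labs S cV j T w' (ξ, x)]
  exact hmem

end fin

end Pool.Agent.SPHK
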