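import Pool.Agent.SPHK.GramP
import Pool.Agent.SPHK.SphHost
import Pool.Agent.SPH.Pair

/-! Project SPHK (MP_f7e9f1_co), row B.3: absolute continuity of a new vertex over a base, for fixed
private variables of the base. -/

open MeasureTheory Set Metric Filter Module
open scoped ENNReal NNReal Topology Pointwise

noncomputable section
namespace Pool.Agent.SPHK

open SPH _root_.SPHK

section gen

variable {d : ℕ} {V : Type*}

/-- measurability of the set of exceptional directions -/
theorem measurableSet_bad (m : V → E d) (Q : (V → E d) → E d → Prop)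
    (hQ : MeasurableSet {p : (V → E d) × E d | Q p.1 p.2}) {X : Type*} [MeasurableSpace X]
    (f : X → E d) (hf : Measurable f) :
    MeasurableSet {θ : X | ¬ ∀ᵐ T ∂(mu d), Q (fun v => act T (m v)) (act T (f θ))} := by
  have e1 : Measurable fun p : X × OG d => ((fun v => act p.2 (m v)), act p.2 (f p.1)) := by
    refine Measurable.prodMk ?_ ?_
    · exact measurable_pi_lambda _ fun v => meas_act measurable_snd measurable_const
    · exact meas_act measurable_snd (hf.comp measurable_fst)
  have e2 : Measurable fun θ : X => mu d (Prod.mk θ ⁻¹' {p : X × OG d |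
      ((fun v => act p.2 (m v)), act p.2 (f p.1)) ∈ {p : (V → E d) × E d | Q p.1 p.2}ᶜ}) :=
    measurable_measure_prodMk_left (e1 hQ.compl)
  have e3 : {θ : X | ¬ ∀ᵐ T ∂(mu d), Q (fun v => act T (m v)) (act T (f θ))} =
      (fun θ : X => mu d (Prod.mk θ ⁻¹' {p : X × OG d |
      ((fun v => act p.2 (m v)), act p.2 (f p.1)) ∈ {p : (V → E d) × E d | Q p.1 p.2}ᶜ})) ⁻¹'
        {0}ᶜ := by
    ext θ
    show (¬ ∀ᵐ T ∂(mu d), _) ↔ _
    rw [ae_iff]
    rfl
  rw [e3]
  exact e2 (measurableSet_singleton _).compl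

/-- change of variables and exchange of the quantifiers -/
theorem swap_vars (m : V → E d) {Z : Type*} [Fintype Z] [DecidableEq Z] (e : Z → V)
    (bb : Z → ℝ) (mm : ℝ) (Q : (V → E d) → E d → Prop)
    (hQ : MeasurableSet {p : (V → E d) × E d | Q p.1 p.2})
    (h : ∀ᵐ T ∂(mu d), ∀ᵐ x : E d,
      Q (fun v => act T (m v)) (pt (fun z => act T (m (e z))) bb mm x)) :
    ∀ᵐ x : E d, ∀ᵐ T ∂(mu d),
      Q (fun v => act T (m v)) (act T (pt (fun z => m (e z)) bb mm x)) := by
  have h2 : ∀ᵐ T ∂(mu d), ∀ᵐ x : E d,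
      Q (fun v => act T (m v)) (act T (pt (fun z => m (e z)) bb mm x)) := by
    filter_upwards [h] with T hT
    have h3 := (act_measurePreserving T).quasiMeasurePreserving.ae hT
    filter_upwards [h3] with x hx
    rw [← pt_act]
    exact hx
  refine (Measure.ae_ae_comm ?_).mp h2
  have e1 : Measurable fun p : OG d × E d => (fun v => act p.1 (m v)) :=
    measurable_pi_lambda _ fun v => meas_act measurable_fst measurable_const
  have e2 : Measurable fun p : OG d × E d => act p.1 (pt (fun z => m (e z)) bb mm p.2) :=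
    meas_act measurable_fst
      (measurable_pt measurable_const measurable_const measurable_const measurable_snd)
  exact (e1.prodMk e2) hQ

/-- the exceptional directions in the orthogonal complement are null -/
theorem bad_null (m : V → E d) {Z : Type*} [Fintype Z] [DecidableEq Z] (e : Z → V)
    (hy : LinearIndependent ℝ (fun z => m (e z)))
    (bb : Z → ℝ) (mm : ℝ) (Q : (V → E d) → E d → Prop)
    (hQ : MeasurableSet {p : (V → E d) × E d | Q p.1 p.2})
    (h : ∀ᵐ T ∂(mu d), ∀ᵐ x : E d,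
      Q (fun v => act T (m v)) (pt (fun z => act T (m (e z))) bb mm x))
    (V2 : Submodule ℝ (E d)) (hV2 : V2 = (Submodule.span ℝ (range fun z => m (e z)))ᗮ)
    (p0 : E d) (hp0 : p0 = cmb (fun z => m (e z)) bb) (ρ : ℝ)
    (hρ : ρ = Real.sqrt (mm - ‖p0‖ ^ 2)) :
    ∀ᵐ x : V2, dirn x ∉
      {θ : V2 | ¬ ∀ᵐ T ∂(mu d), Q (fun v => act T (m v)) (act T (p0 + ρ • (θ : E d)))} := by
  have h1 := swap_vars m e bb mm Q hQ h
  have hGm := measurableSet_bad m Q hQ (fun θ : V2 => p0 + ρ • (θ : E d))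
    (measurable_const.add (measurable_subtype_coe.const_smul ρ))
  have hsurj : Function.Surjective (V2.orthogonalProjectionOnto : E d →ₗ[ℝ] V2) := fun x =>
    ⟨x, Submodule.orthogonalProjectionOnto_mem_subspace_eq_self x⟩
  refine (ae_comp_linearMap_mem_iff (L := (V2.orthogonalProjectionOnto : E d →ₗ[ℝ] V2))
    (volume : Measure (E d)) (volume : Measure V2) hsurj (measurable_dirn hGm).compl).mp ?_
  filter_upwards [h1] with x hx
  show ¬ ¬ _
  rw [not_not]
  filter_upwards [hx] with T hT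
  have e1 : pt (fun z => m (e z)) bb mm x =
      p0 + ρ • ((dirn (V2.orthogonalProjectionOnto x) : V2) : E d) := by
    unfold pt
    rw [prp_eq hy, hρ, hp0]
    subst hV2
    rfl
  rw [e1] at hT
  exact hT

/-- the exceptional set is saturated -/
theorem bad_sat (m : V → E d) [Fintype V] {Z : Type*} (e : Z → V)
    (B : Set V) (hB : ∀ v, v ∉ B → ∃ z, e z = v) (Q : (V → E d) → E d → Prop)
    (V2 : Submodule ℝ (E d)) (hV2 : V2 = (Submodule.span ℝ (range fun z => m (e z)))ᗮ)
    (p0 : E d) (hp0 : p0 ∈ Submodule.span ℝ (range fun z => m (e z))) (ρ : ℝ)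
    (W : Submodule ℝ V2) (hW : ∀ v ∈ B, V2.orthogonalProjectionOnto (m v) ∈ W)
    (θ θ' : V2) (h1 : ‖θ‖ = 1) (h2 : ‖θ'‖ = 1)
    (h3 : W.orthogonalProjectionOnto θ = W.orthogonalProjectionOnto θ')
    (h4 : ∀ᵐ T ∂(mu d), Q (fun v => act T (m v)) (act T (p0 + ρ • (θ : E d)))) :
    ∀ᵐ T ∂(mu d), Q (fun v => act T (m v)) (act T (p0 + ρ • (θ' : E d))) := by
  have horth : ∀ t : V2, ∀ w ∈ Submodule.span ℝ (range fun z => m (e z)), inner ℝ w (t : E d) = 0 := by
    intro t w hw
    have ht : (t : E d) ∈ (Submodule.span ℝ (range fun z => m (e z)))ᗮ := hV2.le t.2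
    exact (Submodule.mem_orthogonal _ _).mp ht w hw
  have hnorm : ∀ t : V2, ‖t‖ = 1 → ‖p0 + ρ • (t : E d)‖ ^ 2 = ‖p0‖ ^ 2 + ρ ^ 2 := by
    intro t ht
    have ht' : ‖(t : E d)‖ = 1 := ht
    rw [norm_add_sq_real, real_inner_smul_right, horth t p0 hp0, norm_smul, ht', mul_one,
      Real.norm_eq_abs, sq_abs]
    ring
  refine gram_ae m (p0 + ρ • (θ : E d)) (p0 + ρ • (θ' : E d)) (fun v => ?_) ?_ Q h4
  · rw [inner_add_right, inner_add_right, real_inner_smul_right, real_inner_smul_right]
    have key : inner ℝ (m v) (θ : E d) = inner ℝ (m v) (θ' : E d) := by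
      by_cases hv : v ∈ B
      · have k : ∀ t : V2, inner ℝ (m v) (t : E d) =
            inner ℝ (⟨V2.orthogonalProjectionOnto (m v), hW v hv⟩ : W)
              (W.orthogonalProjectionOnto t) := by
          intro t
          rw [Submodule.inner_orthogonalProjectionOnto_eq_of_mem_left]
          show _ = inner ℝ (V2.orthogonalProjectionOnto (m v)) t
          rw [real_inner_comm, real_inner_comm _ (V2.orthogonalProjectionOnto (m v)),
            Submodule.inner_orthogonalProjectionOnto_eq_of_mem_left]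
        rw [k θ, k θ', h3]
      · obtain ⟨z, rfl⟩ := hB v hv
        rw [horth θ _ (Submodule.subset_span ⟨z, rfl⟩), horth θ' _ (Submodule.subset_span ⟨z, rfl⟩)]
    rw [key]
  · have e1 := hnorm θ h1
    have e2 := hnorm θ' h2
    rw [← e2] at e1
    exact (sq_eq_sq₀ (norm_nonneg _) (norm_nonneg _)).mp e1

/-- THE CORE. The base vectors are m v, v in V. The new vector a0 + r blk u, u uniform, has
prescribed inner products bb z with the base vectors m (e z), and square norm mm; the other base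
vectors have index in B. If Q holds almost surely for the point with these inner products in a
Lebesgue random direction, then it holds almost surely for the new vector. -/
theorem core_abs {q : ℕ} [Fintype V] (m : V → E d) {Z : Type*} [Fintype Z] [DecidableEq Z]
    (e : Z → V) (he : Function.Injective e)
    (B : Finset V) (hB : ∀ v, v ∉ B → ∃ z, e z = v) (hB' : ∀ z, e z ∉ B)
    (hy : LinearIndependent ℝ (fun z => m (e z)))
    (bb : Z → ℝ) (mm : ℝ) (Q : (V → E d) → E d → Prop)
    (hQ : MeasurableSet {p : (V → E d) × E d | Q p.1 p.2})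
    (h : ∀ᵐ T ∂(mu d), ∀ᵐ x : E d,
      Q (fun v => act T (m v)) (pt (fun z => act T (m (e z))) bb mm x))
    (a0 : E d) (r : ℝ) (hr : r ≠ 0) (blk : E q →ₗ[ℝ] E d)
    (ha : ∀ u : E q, ‖u‖ = 1 → ‖a0 + r • blk u‖ ^ 2 = mm)
    (hb : ∀ u z, inner ℝ (m (e z)) (a0 + r • blk u) = bb z)
    (hblk : ∀ u z, inner ℝ (m (e z)) (blk u) = 0)
    (hbn : ∀ u, ‖blk u‖ = ‖u‖) (hba : ∀ u, inner ℝ a0 (blk u) = 0)
    (hli : ∀ c : V → ℝ, (∀ v, v ∉ B → c v = 0) →
      (∀ u : E q, ∑ v ∈ B, c v * inner ℝ (m v) (blk u) = 0) → ∀ v ∈ B, c v = 0)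
    (hcB : B.card ≤ q) (hcV : Fintype.card V ≤ d) :
    ∀ᵐ x : E q, ∀ᵐ T ∂(mu d),
      Q (fun v => act T (m v)) (act T (a0 + r • blk (dirn x))) := by
  classical
  set A0 : Submodule ℝ (E d) := Submodule.span ℝ (range fun z => m (e z)) with hA0
  set V2 : Submodule ℝ (E d) := A0ᗮ with hV2
  set p0 : E d := cmb (fun z => m (e z)) bb with hp0
  set ρ : ℝ := Real.sqrt (mm - ‖p0‖ ^ 2) with hρ
  have hp0A : p0 ∈ A0 := cmb_mem_span _ bb
  have hnull := bad_null m e hy bb mm Q hQ h V2 rfl p0 rfl ρ rfl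
  have hGm := measurableSet_bad m Q hQ (fun θ : V2 => p0 + ρ • (θ : E d))
    (measurable_const.add (measurable_subtype_coe.const_smul ρ))
  set W : Submodule ℝ V2 :=
    Submodule.span ℝ (range fun v : B => V2.orthogonalProjectionOnto (m v)) with hW
  have hmW : ∀ v ∈ B, V2.orthogonalProjectionOnto (m v) ∈ W := fun v hv =>
    Submodule.subset_span ⟨⟨v, hv⟩, rfl⟩
  -- dimensions
  have hWr : finrank ℝ W ≤ B.card := by
    have := finrank_range_le_card (R := ℝ) (fun v : B => V2.orthogonalProjectionOnto (m v))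
    rwa [Fintype.card_coe] at this
  have hA0r : finrank ℝ A0 ≤ Fintype.card Z := finrank_range_le_card _
  have hV2r : finrank ℝ A0 + finrank ℝ V2 = d + 1 := by
    have := Submodule.finrank_add_finrank_orthogonal A0
    rwa [finrank_euclideanSpace_fin] at this
  have hZB : Fintype.card Z + B.card ≤ Fintype.card V := by
    have h1 : Fintype.card Z = (Finset.univ.image e).card := by
      rw [Finset.card_image_of_injective _ he, Finset.card_univ]
    rw [h1, ← Finset.card_union_of_disjoint]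
    · exact Finset.card_le_univ _
    · rw [Finset.disjoint_left]
      intro v hv hvB
      obtain ⟨z, _, rfl⟩ := Finset.mem_image.mp hv
      exact hB' z hvB
  have hWne : Wᗮ ≠ ⊥ := by
    intro hbot
    have h1 := Submodule.finrank_add_finrank_orthogonal W
    rw [hbot, finrank_bot] at h1
    omega
  -- the new vector
  have hblkV2 : ∀ u, blk u ∈ V2 := fun u => mem_orth_of (hblk u)
  have hp0V2 : p0 ∈ V2ᗮ := by
    rw [hV2, Submodule.orthogonal_orthogonal]
    exact hp0A
  have hsub : ∀ u : E q, a0 + r • blk u - p0 ∈ V2 := by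
    intro u
    refine mem_orth_of fun z => ?_
    rw [inner_sub_right, hb, hp0, inner_cmb hy, sub_self]
  have hP2 : ∀ u : E q, ((V2.orthogonalProjectionOnto (a0 + r • blk u) : V2) : E d) =
      a0 + r • blk u - p0 := by
    intro u
    refine Submodule.eq_starProjection_of_mem_orthogonal (hsub u) ?_
    rw [sub_sub_cancel]
    exact hp0V2
  have hn2 : ∀ u : E q, ‖u‖ = 1 → ‖a0 + r • blk u - p0‖ ^ 2 = mm - ‖p0‖ ^ 2 := by
    intro u hu
    have h1 : a0 + r • blk u = (a0 + r • blk u - p0) + p0 := by abel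
    have h2 := ha u hu
    rw [h1, norm_add_sq_real, real_inner_comm,
      (Submodule.mem_orthogonal _ _).mp (hsub u) p0 hp0A] at h2
    linarith
  obtain ⟨u0, hu0⟩ : ∃ u0 : E q, ‖u0‖ = 1 := ⟨EuclideanSpace.single 0 1, by simp⟩
  have hρpos : 0 < ρ := by
    rw [hρ, ← hn2 u0 hu0]
    refine Real.sqrt_pos.mpr ?_
    have h1 : a0 + r • blk u0 - p0 ≠ 0 := by
      intro h0
      have h2 := congrArg (fun w => inner ℝ w (blk u0)) h0
      simp only [inner_sub_left, inner_add_left, real_inner_smul_left, inner_zero_left] at h2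
      rw [hba, (Submodule.mem_orthogonal _ _).mp (hblkV2 u0) p0 hp0A, real_inner_self_eq_norm_sq,
        hbn, hu0] at h2
      apply hr
      linarith
    have h2 : 0 < ‖a0 + r • blk u0 - p0‖ := norm_pos_iff.mpr h1
    positivity
  set P2 := V2.orthogonalProjectionOnto with hP2def
  let Y : E q → V2 := fun x => ρ⁻¹ • P2 (a0 + r • blk (dirn x))
  have hYe : ∀ x : E q, p0 + ρ • ((Y x : V2) : E d) = a0 + r • blk (dirn x) := by
    intro x
    show p0 + ρ • (ρ⁻¹ • ((P2 (a0 + r • blk (dirn x)) : V2) : E d)) = _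
    rw [smul_smul, mul_inv_cancel₀ hρpos.ne', one_smul, hP2]
    abel
  have hY1 : ∀ᵐ x : E q, ‖Y x‖ = 1 := by
    filter_upwards [Measure.ae_ne volume (0 : E q)] with x hx
    have hu : ‖dirn x‖ = 1 := norm_dirn hx
    show ‖ρ⁻¹ • P2 (a0 + r • blk (dirn x))‖ = 1
    rw [norm_smul, Real.norm_eq_abs, abs_of_pos (inv_pos.mpr hρpos)]
    have h1 : ‖P2 (a0 + r • blk (dirn x))‖ = ρ := by
      have h2 : ‖P2 (a0 + r • blk (dirn x))‖ = ‖a0 + r • blk (dirn x) - p0‖ := by
        rw [← hP2]
        rfl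
      rw [h2, hρ, ← hn2 _ hu, Real.sqrt_sq (norm_nonneg _)]
    rw [h1, inv_mul_cancel₀ hρpos.ne']
  let L : E q →ₗ[ℝ] W := (W.orthogonalProjectionOnto : V2 →ₗ[ℝ] W).comp
    ((P2 : E d →ₗ[ℝ] V2).comp blk)
  have hLe : ∀ u, L u = W.orthogonalProjectionOnto (P2 (blk u)) := fun u => rfl
  have hL : Function.Surjective L := by
    rw [← LinearMap.range_eq_top]
    rw [← Submodule.orthogonal_eq_bot_iff]
    rw [Submodule.eq_bot_iff]
    intro w hw
    obtain ⟨c, hc⟩ := (Submodule.mem_span_range_iff_exists_fun ℝ).mp w.2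
    set c' : V → ℝ := fun v => if h : v ∈ B then c ⟨v, h⟩ else 0 with hc'
    have hcc : ∀ v : B, c' v = c v := by
      intro v
      show (if h : (v : V) ∈ B then c ⟨v, h⟩ else 0) = c v
      rw [dif_pos v.2]
    have hinner : ∀ u : E q, inner ℝ (L u) w = ∑ v ∈ B, c' v * inner ℝ (m v) (blk u) := by
      intro u
      have h1 : inner ℝ (L u) w = inner ℝ (P2 (blk u)) (w : V2) := by
        rw [hLe, real_inner_comm, Submodule.inner_orthogonalProjectionOnto_eq_of_mem_left,
          real_inner_comm]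
      have h2 : (P2 (blk u) : V2) = ⟨blk u, hblkV2 u⟩ :=
        Submodule.orthogonalProjectionOnto_mem_subspace_eq_self (⟨blk u, hblkV2 u⟩ : V2)
      rw [h1, ← hc, inner_sum, ← Finset.sum_coe_sort B fun v => c' v * inner ℝ (m v) (blk u)]
      refine Finset.sum_congr rfl fun v _ => ?_
      rw [real_inner_smul_right, h2, Submodule.inner_orthogonalProjectionOnto_eq_of_mem_left, hcc]
      show c v * inner ℝ (blk u) (m v) = _
      rw [real_inner_comm]
    have h3 := hli c' (fun v hv => by show (if h : v ∈ B then c ⟨v, h⟩ else 0) = 0; rw [dif_neg hv])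
      (fun u => by
        rw [← hinner u]
        exact (Submodule.mem_orthogonal _ _).mp hw (L u) ⟨u, rfl⟩)
    apply Subtype.ext
    rw [← hc]
    show _ = (0 : V2)
    refine Finset.sum_eq_zero fun v _ => ?_
    rw [← hcc, h3 v v.2, zero_smul]
  have hk : LinearMap.ker L ≠ ⊥ := by
    intro hker
    have h1 := LinearMap.finrank_le_finrank_of_injective (LinearMap.ker_eq_bot.mp hker)
    rw [finrank_euclideanSpace_fin] at h1
    omega
  have hYac : ∀ N : Set W, MeasurableSet N → volume N = 0 →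
      ∀ᵐ x : E q, W.orthogonalProjectionOnto (Y x) ∉ N := by
    intro N hN hN0
    have hr' : ρ⁻¹ * r ≠ 0 := mul_ne_zero (inv_ne_zero hρpos.ne') hr
    have h1 := Prj.lin_dirn_null (volume : Measure W) L hL hk
      (ρ⁻¹ • W.orthogonalProjectionOnto (P2 a0)) (ρ⁻¹ * r) hr' hN hN0
    filter_upwards [h1] with x hx
    have e1 : W.orthogonalProjectionOnto (Y x) =
        ρ⁻¹ • W.orthogonalProjectionOnto (P2 a0) + (ρ⁻¹ * r) • L (dirn x) := by
      show W.orthogonalProjectionOnto (ρ⁻¹ • P2 (a0 + r • blk (dirn x))) = _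
      rw [map_smul, map_add, map_add, map_smul, map_smul, smul_add, smul_smul, hLe]
    rw [e1]
    exact hx
  have hfin := Prj.lemmaX W hWne hGm (fun θ θ' h1 h2 h3 hθ hθ' => hθ
      (bad_sat m e (B : Set V) (fun v hv => hB v (by simpa using hv)) Q V2 rfl p0 hp0A ρ W
        (fun v hv => hmW v (by simpa using hv)) θ' θ h2 h1 h3.symm hθ')) hnull
    (P := (volume : Measure (E q))) (Y := Y) hY1 hYac
  filter_upwards [hfin] with u hu
  have hu' := not_not.mp hu
  rw [hYe u] at hu'
  exact hu'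

end gen

end Pool.Agent.SPHK
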