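import Pool.Agent.SPHK.AI
import Mathlib.Probability.Kernel.RadonNikodym

/-! Project SPHK: the existential form of a.c. independence implies the form with the conditional
kernel. -/

set_option autoImplicit false

open MeasureTheory ProbabilityTheory Set Filter
open scoped ENNReal

noncomputable section

namespace Pool.Agent.SPHK

variable {Ω A B C : Type*} [MeasurableSpace Ω] [MeasurableSpace A] [MeasurableSpace B]
  [MeasurableSpace C] {P : Measure Ω} {X : Ω → A} {Y : Ω → B} {Z : Ω → C}

/-- any disintegration of the law of `(X, Z)` can be used in `AI` -/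
theorem AI.kernel [IsProbabilityMeasure P] [StandardBorelSpace C] (h : AI P X Y Z)
    (hX : Measurable X) (hY : Measurable Y) (hZ : Measurable Z) (κ0 : Kernel A C)
    [IsMarkovKernel κ0] (h0 : P.map (fun ω => (X ω, Z ω)) = (P.map X) ⊗ₘ κ0) :
    P.map (fun ω => ((X ω, Y ω), Z ω)) ≪ (P.map (fun ω => (X ω, Y ω))) ⊗ₘ (κ0.prodMkRight B) := by
  obtain ⟨κ, h1, h2⟩ := (AI_iff hX hY hZ).1 h
  have : IsProbabilityMeasure (P.map X) := Measure.isProbabilityMeasure_map hX.aemeasurable
  have hac : (P.map X) ⊗ₘ κ0 ≪ (P.map X) ⊗ₘ κ := by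
    rw [← h0]
    refine Measure.AbsolutelyContinuous.mk fun s hs hs0 => ?_
    rw [Measure.map_apply (hX.prodMk hZ) hs]
    rw [Measure.compProd_apply hs, lintegral_eq_zero_iff (Kernel.measurable_kernel_prodMk_left hs)]
      at hs0
    have hm : Measurable (fun p : (A × B) × C => (p.1.1, p.2)) := by fun_prop
    have h3 := h2 _ (hm hs) (by
      have h4 := ae_of_ae_map hX.aemeasurable hs0
      filter_upwards [h4] with ω hω
      exact hω)
    rw [measure_eq_zero_iff_ae_notMem]
    exact h3
  have hk := hac.kernel_of_compProd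
  have hk' : ∀ᵐ ω ∂P, κ0 (X ω) ≪ κ (X ω) := ae_of_ae_map hX.aemeasurable hk
  have hgm : Measurable (fun p : A × C => κ0.rnDeriv κ p.1 p.2) := κ0.measurable_rnDeriv κ
  have hga : ∀ a, Measurable (fun c => κ0.rnDeriv κ a c) := fun a => hgm.comp measurable_prodMk_left
  -- the density does not vanish along `Z`
  have hg : ∀ᵐ ω ∂P, κ0.rnDeriv κ (X ω) (Z ω) ≠ 0 := by
    have hs : MeasurableSet {p : A × C | κ0.rnDeriv κ p.1 p.2 = 0} :=
      hgm (measurableSet_singleton 0)
    have h3 : (P.map (fun ω => (X ω, Z ω))) {p : A × C | κ0.rnDeriv κ p.1 p.2 = 0} = 0 := by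
      rw [h0, Measure.compProd_apply hs, lintegral_eq_zero_iff
        (Kernel.measurable_kernel_prodMk_left hs)]
      filter_upwards [hk] with a ha
      have hsa : MeasurableSet {c | κ0.rnDeriv κ a c = 0} := measurable_prodMk_left hs
      show κ0 a {c | κ0.rnDeriv κ a c = 0} = 0
      rw [← Kernel.withDensity_rnDeriv_eq ha, Kernel.withDensity_apply' _ hgm,
        setLIntegral_eq_zero_iff hsa (hga a)]
      exact Eventually.of_forall fun c hc => hc
    rw [Measure.map_apply (hX.prodMk hZ) hs, measure_eq_zero_iff_ae_notMem] at h3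
    exact h3
  rw [ac_iff hX hY hZ κ0]
  intro s hs h3
  have hm : Measurable (fun p : (A × B) × C => (p.1.1, p.2)) := by fun_prop
  have hN : MeasurableSet {p : (A × B) × C | κ0.rnDeriv κ p.1.1 p.2 ≠ 0} :=
    (hgm.comp hm) (measurableSet_singleton 0).compl
  have h4 := h2 (s ∩ {p | κ0.rnDeriv κ p.1.1 p.2 ≠ 0}) (hs.inter hN) (by
    filter_upwards [h3, hk'] with ω hω ha
    have hsa : MeasurableSet (Prod.mk (X ω, Y ω) ⁻¹' s) := measurable_prodMk_left hs
    rw [← Kernel.withDensity_rnDeriv_eq ha, Kernel.withDensity_apply' _ hgm,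
      setLIntegral_eq_zero_iff hsa (hga (X ω))] at hω
    rw [measure_eq_zero_iff_ae_notMem]
    filter_upwards [hω] with c hc hc'
    exact hc'.2 (hc hc'.1))
  filter_upwards [h4, hg] with ω hω hω2 hs'
  exact hω ⟨hs', hω2⟩

end Pool.Agent.SPHK
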