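import Pool.Agent.SPHK.Law

/-! Project SPHK, row GVN: the generalised von Neumann inequality in a host. -/

set_option autoImplicit false

open MeasureTheory ProbabilityTheory Filter
open scoped ENNReal Topology

noncomputable section
namespace SPHK

variable {J : Type} (H : Host J)

namespace GVN

theorem measurePreserving_update {V W : Type} [Fintype V] [DecidableEq V] [MeasurableSpace W]
    (μ : V → Measure W) [∀ v, IsProbabilityMeasure (μ v)] (i : V) :
    MeasurePreserving (fun p : (V → W) × W => Function.update p.1 i p.2)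
      ((Measure.pi μ).prod (μ i)) (Measure.pi μ) := by
  refine ⟨measurable_update', (Measure.pi_eq fun s hs => ?_).symm⟩
  rw [Measure.map_apply measurable_update' (MeasurableSet.univ_pi hs)]
  have h1 : (fun p : (V → W) × W => Function.update p.1 i p.2) ⁻¹' (Set.univ.pi s)
      = (Set.univ.pi (Function.update s i Set.univ)) ×ˢ (s i) := by
    ext p
    simp only [Set.mem_preimage, Set.mem_univ_pi, Set.mem_prod]
    constructor
    · intro h
      refine ⟨fun v => ?_, ?_⟩
      · by_cases hv : v = i
        · subst hv
          simp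
        · have := h v
          rw [Function.update_of_ne hv] at this ⊢
          exact this
      · have := h i
        rwa [Function.update_self] at this
    · rintro ⟨h, h'⟩ v
      by_cases hv : v = i
      · subst hv
        rwa [Function.update_self]
      · have := h v
        rw [Function.update_of_ne hv] at this ⊢
        exact this
  rw [h1, Measure.prod_prod, Measure.pi_pi, ← Finset.mul_prod_erase _ _ (Finset.mem_univ i),
    ← Finset.mul_prod_erase (s := Finset.univ) (f := fun v => μ v (s v)) (Finset.mem_univ i),
    Function.update_self, measure_univ, one_mul, mul_comm]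
  congr 1
  refine Finset.prod_congr rfl fun v hv => ?_
  rw [Function.update_of_ne (Finset.ne_of_mem_erase hv)]

/-- Resampling one private variable. -/
theorem integral_update {V : Type} [Fintype V] [DecidableEq V] (cl : V → J) (i : V)
    {F : H.Th × (V → H.W) → ℝ} (hF : Measurable F) {c : ℝ} (hb : ∀ x, |F x| ≤ c) :
    ∫ x, F x ∂(H.src cl)
      = ∫ x, ∫ t, F (x.1, Function.update x.2 i t) ∂(H.pr (cl i)) ∂(H.src cl) := by
  have h1 := ((MeasurePreserving.id H.m).prod
    (measurePreserving_update (fun v => H.pr (cl v)) i)).comp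
    (measurePreserving_prodAssoc H.m (Measure.pi fun v => H.pr (cl v)) (H.pr (cl i)))
  have h2 : ∫ x, F x ∂(H.src cl)
      = ∫ p, F (p.1.1, Function.update p.1.2 i p.2) ∂((H.src cl).prod (H.pr (cl i))) := by
    have h3 := h1.map_eq
    unfold Host.src
    conv_lhs => rw [← h3]
    rw [integral_map h1.measurable.aemeasurable hF.aestronglyMeasurable]
    rfl
  rw [h2, integral_prod]
  have hm : Measurable (fun p : (H.Th × (V → H.W)) × H.W =>
      F (p.1.1, Function.update p.1.2 i p.2)) := by
    refine hF.comp (Measurable.prodMk (by fun_prop) ?_)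
    exact measurable_update'.comp (Measurable.prodMk (by fun_prop) (by fun_prop))
  exact Integrable.of_bound hm.aestronglyMeasurable c (Filter.Eventually.of_forall fun x => hb _)

/-- `(∫ f)² ≤ ∫ f²` -/
theorem sq_integral_le {X : Type} [MeasurableSpace X] (μ : Measure X) [IsProbabilityMeasure μ]
    {f : X → ℝ} (hf : Measurable f) {C : ℝ} (hb : ∀ x, |f x| ≤ C) :
    (∫ x, f x ∂μ) ^ 2 ≤ ∫ x, f x ^ 2 ∂μ := by
  have hi : Integrable f μ :=
    Integrable.of_bound hf.aestronglyMeasurable C (Filter.Eventually.of_forall hb)
  have hi2 : Integrable (fun x => f x ^ 2) μ := by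
    refine Integrable.of_bound (hf.pow_const 2).aestronglyMeasurable (C ^ 2)
      (Filter.Eventually.of_forall fun x => ?_)
    rw [Real.norm_eq_abs, abs_pow]
    exact pow_le_pow_left₀ (abs_nonneg _) (hb x) 2
  set c := ∫ x, f x ∂μ with hc
  have h1 : 0 ≤ ∫ x, (f x - c) ^ 2 ∂μ := integral_nonneg fun x => sq_nonneg _
  have h2 : ∫ x, (f x - c) ^ 2 ∂μ = ∫ x, f x ^ 2 ∂μ - c ^ 2 := by
    have h3 : ∀ x, (f x - c) ^ 2 = f x ^ 2 - (2 * c) * f x + c ^ 2 := fun x => by ring
    simp only [h3]
    have e1 : Integrable (fun x => f x ^ 2 - (2 * c) * f x) μ := hi2.sub (hi.const_mul _)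
    rw [integral_add e1 (integrable_const _), integral_sub hi2 (hi.const_mul _),
      integral_const_mul, ← hc, integral_const, probReal_univ, one_smul]
    ring
  linarith

theorem lab_update {V : Type} [DecidableEq V] (cl : V → J) (x : H.Th × (V → H.W)) (i : V)
    (t : H.W) : H.lab cl (x.1, Function.update x.2 i t)
      = Function.update (H.lab cl x) i (H.Psi (cl i) (x.1, t)) := by
  funext v
  unfold Host.lab
  by_cases hv : v = i
  · subst hv
    simp only [Function.update_self]
  · simp only [Function.update_of_ne hv]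

theorem integral_law {V : Type} [Fintype V] (cl : V → J) {f : (V → H.Om) → ℝ}
    (hf : Measurable f) : ∫ y, f y ∂(H.law cl) = ∫ x, f (H.lab cl x) ∂(H.src cl) := by
  unfold Host.law
  rw [integral_map (H.measurable_lab cl).aemeasurable hf.aestronglyMeasurable]

/-- One Cauchy-Schwarz step: `i'` is a fresh vertex of the class of `i`. -/
theorem cs_step {V : Type} [Fintype V] [DecidableEq V] (cl : V → J) (i i' : V) (hne : i ≠ i')
    (hcl : cl i' = cl i) {G g : (V → H.Om) → ℝ} (hG : Measurable G) (hg : Measurable g) {c : ℝ}
    (hGb : ∀ y, |G y| ≤ c) (hgb : ∀ y, |g y| ≤ 1)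
    (hG' : ∀ y t, G (Function.update y i' t) = G y)
    (hg' : ∀ y t, g (Function.update y i t) = g y) :
    (∫ y, G y * g y ∂(H.law cl)) ^ 2 ≤
      ∫ y, G y * G (Function.update y i (y i')) ∂(H.law cl) := by
  have hL := H.measurable_lab cl
  have hup : Measurable (fun p : (H.Th × (V → H.W)) × H.W =>
      ((p.1.1, Function.update p.1.2 i p.2) : H.Th × (V → H.W))) :=
    Measurable.prodMk (by fun_prop)
      (measurable_update'.comp (Measurable.prodMk (by fun_prop) (by fun_prop)))
  have hGL : Measurable (fun p : (H.Th × (V → H.W)) × H.W =>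
      G (H.lab cl (p.1.1, Function.update p.1.2 i p.2))) := hG.comp (hL.comp hup)
  let A : H.Th × (V → H.W) → ℝ := fun x =>
    ∫ t, G (H.lab cl (x.1, Function.update x.2 i t)) ∂(H.pr (cl i))
  have hAm : Measurable A := (hGL.stronglyMeasurable.integral_prod_right').measurable
  have hAb : ∀ x, |A x| ≤ c := by
    intro x
    have h1 : ‖∫ t, G (H.lab cl (x.1, Function.update x.2 i t)) ∂(H.pr (cl i))‖
        ≤ c * (H.pr (cl i)).real Set.univ :=
      norm_integral_le_of_norm_le_const (Filter.Eventually.of_forall fun t => hGb _)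
    rwa [probReal_univ, mul_one, Real.norm_eq_abs] at h1
  have hleft : ∫ y, G y * g y ∂(H.law cl) = ∫ x, g (H.lab cl x) * A x ∂(H.src cl) := by
    have hm0 : Measurable (fun y => G y * g y) := hG.mul hg
    rw [integral_law H cl hm0,
      integral_update H cl i (F := fun x => G (H.lab cl x) * g (H.lab cl x)) (hm0.comp hL)
        (c := c)]
    · refine integral_congr_ae (Filter.Eventually.of_forall fun x => ?_)
      simp only [A]
      rw [← integral_const_mul]
      refine integral_congr_ae (Filter.Eventually.of_forall fun t => ?_)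
      simp only [lab_update, hg']
      ring
    · intro x
      rw [abs_mul]
      calc |G (H.lab cl x)| * |g (H.lab cl x)| ≤ |G (H.lab cl x)| * 1 :=
            mul_le_mul_of_nonneg_left (hgb _) (abs_nonneg _)
        _ ≤ c := by rw [mul_one]; exact hGb _
  have hright : ∫ y, G y * G (Function.update y i (y i')) ∂(H.law cl)
      = ∫ x, A x ^ 2 ∂(H.src cl) := by
    have hm1 : Measurable (fun y : V → H.Om => G y * G (Function.update y i (y i'))) := by
      refine hG.mul (hG.comp ?_)
      exact (measurable_update' (a := i)).comp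
        (Measurable.prodMk measurable_id (measurable_pi_apply i'))
    have hb1 : ∀ y : V → H.Om, |G y * G (Function.update y i (y i'))| ≤ c * c := by
      intro y
      rw [abs_mul]
      exact mul_le_mul (hGb _) (hGb _) (abs_nonneg _) ((abs_nonneg _).trans (hGb y))
    rw [integral_law H cl hm1, integral_update H cl i' (F := fun x => G (H.lab cl x) *
      G (Function.update (H.lab cl x) i (H.lab cl x i'))) (hm1.comp hL) (fun x => hb1 _)]
    have h2 : ∀ x : H.Th × (V → H.W), ∫ t, G (H.lab cl (x.1, Function.update x.2 i' t)) *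
        G (Function.update (H.lab cl (x.1, Function.update x.2 i' t)) i
          (H.lab cl (x.1, Function.update x.2 i' t) i')) ∂(H.pr (cl i')) = G (H.lab cl x) * A x := by
      intro x
      simp only [A]
      rw [← integral_const_mul, hcl]
      refine integral_congr_ae (Filter.Eventually.of_forall fun t => ?_)
      simp only [lab_update, hG']
      rw [Function.update_self, Function.update_comm hne.symm, hG', hcl]
    simp only [h2]
    have hm3 : Measurable (fun x : H.Th × (V → H.W) => G (H.lab cl x) * A x) :=
      (hG.comp hL).mul hAm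
    rw [integral_update H cl i hm3 (c := c * c) (fun x => by
      rw [abs_mul]
      exact mul_le_mul (hGb _) (hAb _) (abs_nonneg _) ((abs_nonneg _).trans (hAb x)))]
    refine integral_congr_ae (Filter.Eventually.of_forall fun x => ?_)
    have h4 : ∀ t, A (x.1, Function.update x.2 i t) = A x := by
      intro t
      simp only [A, Function.update_idem]
    simp only [h4]
    rw [integral_mul_const, sq]
  rw [hleft, hright]
  refine (sq_integral_le (H.src cl) ((hg.comp hL).mul hAm) (C := c) fun x => ?_).trans ?_
  · rw [Pi.mul_apply, abs_mul]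
    calc |(g ∘ H.lab cl) x| * |A x| ≤ 1 * |A x| :=
          mul_le_mul_of_nonneg_right (hgb _) (abs_nonneg _)
      _ ≤ c := by rw [one_mul]; exact hAb _
  · refine integral_mono_of_nonneg (Filter.Eventually.of_forall fun x => sq_nonneg _) ?_ ?_
    · refine Integrable.of_bound (hAm.pow_const 2).aestronglyMeasurable (c ^ 2)
        (Filter.Eventually.of_forall fun x => ?_)
      rw [Real.norm_eq_abs, abs_pow]
      exact pow_le_pow_left₀ (abs_nonneg _) (hAb x) 2
    · refine Filter.Eventually.of_forall fun x => ?_
      simp only [Pi.mul_apply, Function.comp_apply, mul_pow]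
      have h5 : g (H.lab cl x) ^ 2 ≤ 1 := by
        rw [sq_le_one_iff_abs_le_one]
        exact hgb _
      exact mul_le_of_le_one_left (sq_nonneg _) h5

/-- the copy given by a set `w` of doubled vertices -/
def cp {A C O : Type} [DecidableEq A] (w : Finset A) (y : (A × Bool) ⊕ C → O) : A ⊕ C → O :=
  pick (fun a => decide (a ∈ w)) y

theorem cp_update {A C O : Type} [DecidableEq A] {P w : Finset A} (hw : w ⊆ P) {a : A}
    (ha : a ∉ P) (y : (A × Bool) ⊕ C → O) [DecidableEq ((A × Bool) ⊕ C)] :
    cp w (Function.update y (Sum.inl (a, false)) (y (Sum.inl (a, true)))) = cp (insert a w) y := by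
  funext v
  unfold cp pick
  rcases v with b | z
  · simp only [Sum.elim_inl]
    by_cases hb : b = a
    · subst hb
      have h1 : b ∉ w := fun h => ha (hw h)
      simp [h1]
    · rw [Function.update_of_ne]
      · simp [hb]
      · intro h
        exact hb (congrArg Prod.fst (Sum.inl_injective h))
  · simp only [Sum.elim_inr]
    rw [Function.update_of_ne (by simp)]

theorem cp_update_true {A C O : Type} [DecidableEq A] {P w : Finset A} (hw : w ⊆ P) {a : A}
    (ha : a ∉ P) (y : (A × Bool) ⊕ C → O) (t : O) [DecidableEq ((A × Bool) ⊕ C)] :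
    cp w (Function.update y (Sum.inl (a, true)) t) = cp w y := by
  funext v
  unfold cp pick
  rcases v with b | z
  · simp only [Sum.elim_inl]
    rw [Function.update_of_ne]
    intro h
    have h0 := Sum.inl_injective h
    have h1 : b = a := congrArg Prod.fst h0
    have h2 : decide (b ∈ w) = true := congrArg Prod.snd h0
    rw [decide_eq_true_eq, h1] at h2
    exact ha (hw h2)
  · simp only [Sum.elim_inr]
    rw [Function.update_of_ne (by simp)]

theorem cp_update_false {A C O : Type} [DecidableEq A] {w : Finset A} {a : A}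
    (y : (A × Bool) ⊕ C → O) (t : O) [DecidableEq ((A × Bool) ⊕ C)] (v : A ⊕ C)
    (hv : v ≠ Sum.inl a) :
    cp w (Function.update y (Sum.inl (a, false)) t) v = cp w y v := by
  unfold cp pick
  rcases v with b | z
  · simp only [Sum.elim_inl]
    rw [Function.update_of_ne]
    intro h
    exact hv (congrArg Sum.inl (congrArg Prod.fst (Sum.inl_injective h)))
  · simp only [Sum.elim_inr]
    rw [Function.update_of_ne (by simp)]

theorem prod_powerset_bool {A : Type} [Fintype A] [DecidableEq A] (f : (A → Bool) → ℝ) :
    ∏ w ∈ (Finset.univ : Finset A).powerset, f (fun a => decide (a ∈ w)) = ∏ w, f w := by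
  refine Finset.prod_bij (fun w _ => fun a => decide (a ∈ w)) (fun _ _ => Finset.mem_univ _) ?_ ?_
    (fun _ _ => rfl)
  · intro w _ w' _ h
    ext a
    have := congrFun h a
    simpa using this
  · intro g _
    refine ⟨Finset.univ.filter fun a => g a = true, Finset.mem_powerset.mpr (Finset.subset_univ _),
      ?_⟩
    funext a
    simp

end GVN

open GVN

theorem Host.gvn {A C : Type} [Fintype A] [DecidableEq A] [Nonempty A] [Fintype C] (cA : A → J)
    (cC : C → J) (h : (A ⊕ C → H.Om) → ℝ) (hh : Measurable h) (c : ℝ) (hc : ∀ x, |h x| ≤ c)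
    (g : A → (A ⊕ C → H.Om) → ℝ) (hg : ∀ a, Bdd (g a))
    (hd : ∀ a, DependsOn (g a) {i | i ≠ Sum.inl a}) :
    |∫ y, h y * ∏ a, g a y ∂(H.law (Sum.elim cA cC))| ^ (2 ^ Fintype.card A) ≤ H.box cA cC h := by
  classical
  let cl2 : (A × Bool) ⊕ C → J := boxCl cA cC
  let B : Finset A → ℝ := fun P =>
    ∫ y, ∏ w ∈ P.powerset, (h (cp w y) * ∏ s ∈ Pᶜ, g s (cp w y)) ∂(H.law cl2)
  have hcpm : ∀ w : Finset A, Measurable (cp w : ((A × Bool) ⊕ C → H.Om) → (A ⊕ C → H.Om)) :=
    fun w => measurable_pick _
  have hFm : ∀ (P w : Finset A),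
      Measurable (fun y : (A × Bool) ⊕ C → H.Om => h (cp w y) * ∏ s ∈ Pᶜ, g s (cp w y)) :=
    fun P w => (hh.comp (hcpm w)).mul
      (Finset.measurable_prod _ fun s _ => (hg s).1.comp (hcpm w))
  have hFb : ∀ (P w : Finset A) (y : (A × Bool) ⊕ C → H.Om),
      |h (cp w y) * ∏ s ∈ Pᶜ, g s (cp w y)| ≤ c := by
    intro P w y
    rw [abs_mul, Finset.abs_prod]
    have h1 : ∏ s ∈ Pᶜ, |g s (cp w y)| ≤ 1 :=
      Finset.prod_le_one (fun _ _ => abs_nonneg _) fun s _ => (hg s).2 _
    calc |h (cp w y)| * ∏ s ∈ Pᶜ, |g s (cp w y)| ≤ |h (cp w y)| * 1 :=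
          mul_le_mul_of_nonneg_left h1 (abs_nonneg _)
      _ ≤ c := by rw [mul_one]; exact hc _
  have hstep : ∀ P : Finset A, ∀ a, a ∉ P → B P ^ 2 ≤ B (insert a P) := by
    intro P a haP
    let G : ((A × Bool) ⊕ C → H.Om) → ℝ := fun y =>
      ∏ w ∈ P.powerset, (h (cp w y) * ∏ s ∈ (insert a P)ᶜ, g s (cp w y))
    let gg : ((A × Bool) ⊕ C → H.Om) → ℝ := fun y => ∏ w ∈ P.powerset, g a (cp w y)
    have hGm : Measurable G := Finset.measurable_prod _ fun w _ => hFm (insert a P) w
    have hgm : Measurable gg := Finset.measurable_prod _ fun w _ => (hg a).1.comp (hcpm w)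
    have hGb : ∀ y, |G y| ≤ c ^ P.powerset.card := by
      intro y
      simp only [G]
      rw [Finset.abs_prod]
      refine (Finset.prod_le_prod (fun _ _ => abs_nonneg _) (fun w _ => hFb _ w y)).trans ?_
      rw [Finset.prod_const]
    have hgb : ∀ y, |gg y| ≤ 1 := by
      intro y
      simp only [gg]
      rw [Finset.abs_prod]
      exact Finset.prod_le_one (fun _ _ => abs_nonneg _) fun w _ => (hg a).2 _
    have h1 := cs_step H cl2 (Sum.inl (a, false)) (Sum.inl (a, true)) (by simp) rfl hGm hgm hGb hgb
      (by
        intro y t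
        simp only [G]
        refine Finset.prod_congr rfl fun w hw => ?_
        rw [cp_update_true (Finset.mem_powerset.mp hw) haP])
      (by
        intro y t
        simp only [gg]
        refine Finset.prod_congr rfl fun w _ => ?_
        refine hd a fun v hv => ?_
        exact cp_update_false y t v hv)
    have h2 : B P = ∫ y, G y * gg y ∂(H.law cl2) := by
      simp only [B, G, gg]
      refine integral_congr_ae (Filter.Eventually.of_forall fun y => ?_)
      simp only
      rw [← Finset.prod_mul_distrib]
      refine Finset.prod_congr rfl fun w _ => ?_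
      have h3 : Pᶜ = insert a ((insert a P)ᶜ) := by
        ext s
        simp only [Finset.mem_compl, Finset.mem_insert]
        constructor
        · intro h4
          by_cases h6 : s = a
          · exact Or.inl h6
          · exact Or.inr fun h7 => h7.elim h6 h4
        · rintro (rfl | h5)
          · exact haP
          · exact fun h6 => h5 (Or.inr h6)
      rw [h3, Finset.prod_insert (by simp)]
      ring
    have h3 : B (insert a P) = ∫ y, G y *
        G (Function.update y (Sum.inl (a, false)) (y (Sum.inl (a, true)))) ∂(H.law cl2) := by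
      simp only [B, G]
      refine integral_congr_ae (Filter.Eventually.of_forall fun y => ?_)
      simp only
      rw [Finset.prod_powerset_insert haP]
      congr 1
      refine Finset.prod_congr rfl fun w hw => ?_
      rw [cp_update (Finset.mem_powerset.mp hw) haP]
    rw [h2, h3]
    exact h1
  have hB0 : B ∅ = ∫ y, h y * ∏ a, g a y ∂(H.law (Sum.elim cA cC)) := by
    have hm2 : Measurable (fun y : A ⊕ C → H.Om => h y * ∏ a, g a y) :=
      hh.mul (Finset.measurable_prod _ fun s _ => (hg s).1)
    have h1 := H.integral_marg cl2 (Sum.map (fun a : A => (a, false)) id)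
      (Function.Injective.sumMap (fun a b hab => by simpa using hab) Function.injective_id) _ hm2
    have h2 : H.law (fun v' => cl2 (Sum.map (fun a : A => (a, false)) id v'))
        = H.law (Sum.elim cA cC) := by
      refine H.law_congr fun v => ?_
      rcases v with a | z <;> rfl
    rw [h2] at h1
    rw [← h1]
    simp only [B, Finset.powerset_empty, Finset.prod_singleton, Finset.compl_empty]
    have h3 : ∀ y : (A × Bool) ⊕ C → H.Om,
        cp (∅ : Finset A) y = fun v' => y (Sum.map (fun a : A => (a, false)) id v') := by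
      intro y
      funext v
      rcases v with a | z <;> simp [cp, pick]
    simp only [h3]
  have hBS : B Finset.univ = H.box cA cC h := by
    simp only [B, Host.box, Finset.compl_univ, Finset.prod_empty, mul_one]
    refine integral_congr_ae (Filter.Eventually.of_forall fun y => ?_)
    exact prod_powerset_bool (fun w => h (pick w y))
  have key : ∀ P : Finset A, |B ∅| ^ (2 ^ P.card) ≤ |B P| ∧ (P.Nonempty → 0 ≤ B P) := by
    intro P
    induction P using Finset.induction_on with
    | empty => simp
    | insert a P ha ih =>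
      have h1 := hstep P a ha
      have h0 : 0 ≤ B (insert a P) := (sq_nonneg _).trans h1
      refine ⟨?_, fun _ => h0⟩
      rw [Finset.card_insert_of_notMem ha, pow_succ, pow_mul, abs_of_nonneg h0]
      refine le_trans ?_ h1
      rw [← sq_abs (B P)]
      exact pow_le_pow_left₀ (pow_nonneg (abs_nonneg _) _) ih.1 2
  have h1 := key Finset.univ
  rw [hBS, hB0, Finset.card_univ] at h1
  have h2 := h1.2 Finset.univ_nonempty
  rw [abs_of_nonneg h2] at h1
  exact h1.1

/-- box integrals are nonnegative -/
theorem Host.box_nonneg {A C : Type} [Fintype A] [DecidableEq A] [Nonempty A] [Fintype C]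
    (cA : A → J) (cC : C → J) (h : (A ⊕ C → H.Om) → ℝ) (hh : Measurable h) (c : ℝ)
    (hc : ∀ x, |h x| ≤ c) : 0 ≤ H.box cA cC h := by
  have h1 := H.gvn cA cC h hh c hc (fun _ _ => 1) (fun _ => ⟨measurable_const, fun _ => by simp⟩)
    (fun _ _ _ _ => rfl)
  exact (pow_nonneg (abs_nonneg _) _).trans h1

end SPHK
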