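import Mathlib

/-!
# Weak regularity (row A.2 of SPHK)

`X` a probability space, `M i` finitely many sub sigma algebras.  Every `p : X → [-1,1]` is, up to
a function `p - q` which is almost orthogonal to all products `∏ r i` with `r i` measurable for
`M i`, a bounded combination `q` of boundedly many products of indicators of sets of the `M i`.
-/

set_option autoImplicit false

namespace Pool.Agent.SPHK

open MeasureTheory

universe u v

namespace WR

variable {X : Type u} [m : MeasurableSpace X] {μ : Measure X} [IsProbabilityMeasure μ]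

theorem integrable_of_le {f : X → ℝ} {B : ℝ} (hf : Measurable f) (hb : ∀ x, |f x| ≤ B) :
    Integrable f μ :=
  Integrable.of_bound hf.aestronglyMeasurable B (Filter.Eventually.of_forall fun x => by
    simpa [Real.norm_eq_abs] using hb x)

theorem abs_prod_le {I : Type v} (s : Finset I) (r : I → ℝ) (h : ∀ i ∈ s, |r i| ≤ 1) :
    |∏ i ∈ s, r i| ≤ 1 := by
  rw [Finset.abs_prod]
  exact Finset.prod_le_one (fun i _ => abs_nonneg _) h

/-- One coordinate: replace a function by an indicator. -/
theorem one_step {X : Type u} {N : MeasurableSpace X} [m : MeasurableSpace X] {μ : Measure X}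
    [IsProbabilityMeasure μ] (hN : N ≤ m) (F : X → ℝ) (B : ℝ) (hF : Measurable F)
    (hFb : ∀ x, |F x| ≤ B) (γ : ℝ)
    (h : ∀ G : Set X, MeasurableSet[N] G → |∫ x, F x * G.indicator 1 x ∂μ| ≤ γ)
    (r : X → ℝ) (hr : Measurable[N] r) (hr1 : ∀ x, |r x| ≤ 1) :
    |∫ x, F x * r x ∂μ| ≤ 2 * γ := by
  have hFi : Integrable F μ := integrable_of_le hF hFb
  set g : X → ℝ := μ[F | N] with hg
  have hgm : StronglyMeasurable[N] g := stronglyMeasurable_condExp
  have hgi : Integrable g μ := integrable_condExp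
  -- for every bounded N-measurable s : ∫ F s = ∫ g s
  have key : ∀ s : X → ℝ, Measurable[N] s → (∀ x, |s x| ≤ 1) →
      ∫ x, F x * s x ∂μ = ∫ x, g x * s x ∂μ := by
    intro s hs hs1
    have hs' : StronglyMeasurable[N] s := hs.stronglyMeasurable
    have hsm : Measurable s := hs.mono hN le_rfl
    have hFs : Integrable (F * s) μ := by
      refine integrable_of_le (B := B) (hF.mul hsm) fun x => ?_
      rw [Pi.mul_apply, abs_mul]
      calc |F x| * |s x| ≤ |F x| * 1 := by gcongr; exact hs1 x
        _ ≤ B := by simpa using hFb x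
    have h1 : μ[F * s | N] =ᵐ[μ] μ[F | N] * s :=
      condExp_mul_of_stronglyMeasurable_right hs' hFs hFi
    calc ∫ x, F x * s x ∂μ = ∫ x, (F * s) x ∂μ := rfl
      _ = ∫ x, (μ[F * s | N]) x ∂μ := (integral_condExp hN).symm
      _ = ∫ x, (μ[F | N] * s) x ∂μ := integral_congr_ae h1
      _ = ∫ x, g x * s x ∂μ := rfl
  set G : Set X := {x | 0 < g x} with hG
  have hGm : MeasurableSet[N] G := measurableSet_lt measurable_const hgm.measurable
  have hGc : MeasurableSet[N] Gᶜ := hGm.compl
  have ind : ∀ S : Set X, MeasurableSet[N] S → Measurable[N] (S.indicator (1 : X → ℝ)) :=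
    fun S hS => (@measurable_one ℝ X _ N _).indicator hS
  have ind1 : ∀ S : Set X, ∀ x, |S.indicator (1 : X → ℝ) x| ≤ 1 := by
    intro S x
    by_cases hx : x ∈ S <;> simp [hx]
  have hb : |∫ x, F x * r x ∂μ| ≤ ∫ x, |g x| ∂μ := by
    rw [key r hr hr1]
    refine (abs_integral_le_integral_abs).trans ?_
    refine integral_mono_of_nonneg (Filter.Eventually.of_forall fun x => abs_nonneg _)
      hgi.abs (Filter.Eventually.of_forall fun x => ?_)
    show |g x * r x| ≤ |g x|
    rw [abs_mul]
    calc |g x| * |r x| ≤ |g x| * 1 := by gcongr; exact hr1 x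
      _ = |g x| := mul_one _
  have hsplit : ∫ x, |g x| ∂μ = ∫ x, F x * G.indicator 1 x ∂μ - ∫ x, F x * Gᶜ.indicator 1 x ∂μ := by
    rw [key _ (ind G hGm) (ind1 G), key _ (ind Gᶜ hGc) (ind1 Gᶜ), ← integral_sub]
    · congr 1
      funext x
      by_cases hx : x ∈ G
      · have h0 : 0 < g x := hx
        simp [hx, abs_of_pos h0]
      · have h0 : g x ≤ 0 := not_lt.mp hx
        simp [hx, abs_of_nonpos h0]
    · refine hgi.mul_bdd (c := 1) ((ind G hGm).mono hN le_rfl).aestronglyMeasurable
        (Filter.Eventually.of_forall fun x => ?_)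
      simpa [Real.norm_eq_abs] using ind1 G x
    · refine hgi.mul_bdd (c := 1) ((ind Gᶜ hGc).mono hN le_rfl).aestronglyMeasurable
        (Filter.Eventually.of_forall fun x => ?_)
      simpa [Real.norm_eq_abs] using ind1 Gᶜ x
  have hA := abs_le.mp (h G hGm)
  have hC := abs_le.mp (h Gᶜ hGc)
  rw [hsplit] at hb
  linarith [hA.2, hC.1]

/-- Bounds for products of indicators give bounds for products of functions. -/
theorem prod_le_of_set {I : Type v} [Fintype I] (M : I → MeasurableSpace X) (hM : ∀ i, M i ≤ m)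
    (f : X → ℝ) (B : ℝ) (hf : Measurable f) (hfb : ∀ x, |f x| ≤ B) (γ : ℝ)
    (h : ∀ G : I → Set X, (∀ i, MeasurableSet[M i] (G i)) →
      |∫ x, f x * ∏ i, (G i).indicator 1 x ∂μ| ≤ γ)
    (r : I → X → ℝ) (hr : ∀ i, Measurable[M i] (r i)) (hr1 : ∀ i x, |r i x| ≤ 1) :
    |∫ x, f x * ∏ i, r i x ∂μ| ≤ 2 ^ Fintype.card I * γ := by
  classical
  have main : ∀ s : Finset I, ∀ r : I → X → ℝ, (∀ i, Measurable[M i] (r i)) →
      (∀ i x, |r i x| ≤ 1) → (∀ i ∉ s, ∃ G : Set X, MeasurableSet[M i] G ∧ r i = G.indicator 1) →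
      |∫ x, f x * ∏ i, r i x ∂μ| ≤ 2 ^ s.card * γ := by
    intro s
    induction s using Finset.induction_on with
    | empty =>
      intro r _ _ hG
      have hG' : ∀ i, ∃ G : Set X, MeasurableSet[M i] G ∧ r i = G.indicator 1 :=
        fun i => hG i (Finset.notMem_empty i)
      choose G hGm hGr using hG'
      have := h G hGm
      simpa [hGr] using this
    | insert j s hj ih =>
      intro r hr hr1 hG
      rw [Finset.card_insert_of_notMem hj, pow_succ, mul_comm (2 ^ s.card) 2, mul_assoc]
      set F : X → ℝ := fun x => f x * ∏ i ∈ Finset.univ.erase j, r i x with hF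
      have hFm : Measurable F :=
        hf.mul (Finset.measurable_fun_prod _ fun i _ => (hr i).mono (hM i) le_rfl)
      have hFb : ∀ x, |F x| ≤ B := by
        intro x
        rw [hF]
        show |f x * ∏ i ∈ Finset.univ.erase j, r i x| ≤ B
        rw [abs_mul]
        calc |f x| * |∏ i ∈ Finset.univ.erase j, r i x| ≤ |f x| * 1 := by
              gcongr
              exact abs_prod_le _ _ fun i _ => hr1 i x
          _ ≤ B := by simpa using hfb x
      have hprod : ∀ (t : I → X → ℝ), (∀ i, i ≠ j → t i = r i) → ∀ x,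
          f x * ∏ i, t i x = F x * t j x := by
        intro t ht x
        rw [hF]
        show f x * ∏ i, t i x = (f x * ∏ i ∈ Finset.univ.erase j, r i x) * t j x
        rw [← Finset.mul_prod_erase Finset.univ (fun i => t i x) (Finset.mem_univ j)]
        rw [Finset.prod_congr rfl (fun i hi => by rw [ht i (Finset.ne_of_mem_erase hi)] :
          ∀ i ∈ Finset.univ.erase j, t i x = r i x)]
        ring
      have e1 : ∫ x, f x * ∏ i, r i x ∂μ = ∫ x, F x * r j x ∂μ :=
        integral_congr_ae (Filter.Eventually.of_forall fun x => hprod r (fun _ _ => rfl) x)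
      rw [e1]
      refine one_step (hM j) F B hFm hFb (2 ^ s.card * γ) (fun G hGm => ?_) (r j) (hr j) (hr1 j)
      have e2 : ∫ x, F x * G.indicator 1 x ∂μ =
          ∫ x, f x * ∏ i, (Function.update r j (G.indicator 1)) i x ∂μ := by
        refine integral_congr_ae (Filter.Eventually.of_forall fun x => ?_)
        show F x * G.indicator 1 x = f x * ∏ i, (Function.update r j (G.indicator 1)) i x
        rw [hprod (Function.update r j (G.indicator 1))
          (fun i hi => Function.update_of_ne hi _ _) x, Function.update_self]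
      rw [e2]
      refine ih _ (fun i => ?_) (fun i x => ?_) (fun i hi => ?_)
      · by_cases hij : i = j
        · subst hij
          rw [Function.update_self]
          exact (@measurable_one ℝ X _ (M i) _).indicator hGm
        · rw [Function.update_of_ne hij]
          exact hr i
      · by_cases hij : i = j
        · subst hij
          rw [Function.update_self]
          by_cases hx : x ∈ G <;> simp [hx]
        · rw [Function.update_of_ne hij]
          exact hr1 i x
      · by_cases hij : i = j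
        · subst hij
          exact ⟨G, hGm, Function.update_self _ _ _⟩
        · rw [Function.update_of_ne hij]
          exact hG i (fun hi' => (Finset.mem_insert.mp hi').elim hij hi)
  have := main Finset.univ r hr hr1 (fun i hi => absurd (Finset.mem_univ i) hi)
  simpa using this

/-! ### Averages over the fibres of a finite valued map -/

/-- The average of `p` over the fibre of `a`. -/
noncomputable def avg {A : Type v} (μ : Measure X) (p : X → ℝ) (φ : X → A) (a : A) : ℝ :=
  (∫ x in φ ⁻¹' {a}, p x ∂μ) / μ.real (φ ⁻¹' {a})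

theorem abs_avg_le {A : Type v} (p : X → ℝ) (_hp : Measurable p) (hp1 : ∀ x, |p x| ≤ 1)
    (φ : X → A) (a : A) : |avg μ p φ a| ≤ 1 := by
  unfold avg
  rw [abs_div, abs_of_nonneg (measureReal_nonneg (μ := μ) (s := φ ⁻¹' {a}))]
  refine div_le_one_of_le₀ ?_ measureReal_nonneg
  have := norm_setIntegral_le_of_norm_le_const (μ := μ) (s := φ ⁻¹' {a}) (f := p) (C := 1)
    (measure_lt_top _ _) (fun x _ => by simpa [Real.norm_eq_abs] using hp1 x)
  simpa [Real.norm_eq_abs] using this

omit [IsProbabilityMeasure μ] in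
theorem integral_fibres {A : Type v} [Fintype A] (φ : X → A)
    (hφ : ∀ a, MeasurableSet (φ ⁻¹' {a})) (f : X → ℝ) (hf : Integrable f μ) :
    ∫ x, f x ∂μ = ∑ a, ∫ x in φ ⁻¹' {a}, f x ∂μ := by
  have hU : (⋃ a, φ ⁻¹' {a}) = Set.univ := by
    ext x
    simp
  rw [← setIntegral_univ, ← hU]
  refine integral_iUnion_fintype hφ ?_ (fun a => hf.integrableOn)
  intro a b hab
  exact Disjoint.preimage φ (Set.disjoint_singleton.mpr hab)

theorem avg_mul {A : Type v} (p : X → ℝ) (φ : X → A)
    (a : A) : avg μ p φ a * μ.real (φ ⁻¹' {a}) = ∫ x in φ ⁻¹' {a}, p x ∂μ := by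
  unfold avg
  by_cases h0 : μ.real (φ ⁻¹' {a}) = 0
  · rw [h0, mul_zero]
    have : μ (φ ⁻¹' {a}) = 0 := by
      rwa [measureReal_eq_zero_iff] at h0
    rw [setIntegral_measure_zero _ this]
  · rw [div_mul_cancel₀ _ h0]

theorem measurable_comp {A : Type v} [Fintype A] (φ : X → A)
    (hφ : ∀ a, MeasurableSet (φ ⁻¹' {a})) (q : A → ℝ) : Measurable (fun x => q (φ x)) := by
  classical
  have : (fun x => q (φ x)) = fun x => ∑ a, (φ ⁻¹' {a}).indicator (fun _ => q a) x := by
    funext x
    rw [Finset.sum_eq_single (φ x)]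
    · simp
    · intro b _ hb
      rw [Set.indicator_of_notMem]
      intro h
      exact hb (by simpa using h.symm)
    · intro h
      exact absurd (Finset.mem_univ _) h
  rw [this]
  exact Finset.measurable_fun_sum _ fun a _ => measurable_const.indicator (hφ a)

theorem bdd_comp {A : Type v} [Fintype A] (q : A → ℝ) : ∃ B, ∀ a, |q a| ≤ B :=
  ⟨∑ a, |q a|, fun a => Finset.single_le_sum (f := fun a => |q a|) (fun _ _ => abs_nonneg _)
    (Finset.mem_univ a)⟩

/-- Orthogonality. -/
theorem orth {A : Type v} [Fintype A] (p : X → ℝ) (hp : Measurable p) (hp1 : ∀ x, |p x| ≤ 1)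
    (φ : X → A) (hφ : ∀ a, MeasurableSet (φ ⁻¹' {a})) (q : A → ℝ) :
    ∫ x, (p x - avg μ p φ (φ x)) * q (φ x) ∂μ = 0 := by
  obtain ⟨B, hB⟩ := bdd_comp q
  have hm : Measurable fun x => (p x - avg μ p φ (φ x)) * q (φ x) :=
    (hp.sub (measurable_comp φ hφ _)).mul (measurable_comp φ hφ q)
  have hi : Integrable (fun x => (p x - avg μ p φ (φ x)) * q (φ x)) μ := by
    refine integrable_of_le (B := 2 * B) hm fun x => ?_
    rw [abs_mul]
    have h1 : |p x - avg μ p φ (φ x)| ≤ 2 :=
      (abs_sub _ _).trans (by linarith [hp1 x, abs_avg_le (μ := μ) p hp hp1 φ (φ x)])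
    exact mul_le_mul h1 (hB _) (abs_nonneg _) (by norm_num)
  rw [integral_fibres φ hφ _ hi]
  refine Finset.sum_eq_zero fun a _ => ?_
  have e : ∫ x in φ ⁻¹' {a}, (p x - avg μ p φ (φ x)) * q (φ x) ∂μ =
      ∫ x in φ ⁻¹' {a}, (p x - avg μ p φ a) * q a ∂μ := by
    refine setIntegral_congr_fun (hφ a) fun x hx => ?_
    have : φ x = a := hx
    simp only [this]
  rw [e, integral_mul_const, integral_sub (integrable_of_le hp hp1).integrableOn
    (integrable_const _).integrableOn]
  rw [setIntegral_const, smul_eq_mul, mul_comm (μ.real _), avg_mul]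
  simp

/-- The energy of a refinement. -/
theorem energy {A : Type v} [Fintype A] {A' : Type v} [Fintype A'] (p : X → ℝ)
    (hp : Measurable p) (hp1 : ∀ x, |p x| ≤ 1)
    (φ : X → A) (hφ : ∀ a, MeasurableSet (φ ⁻¹' {a}))
    (φ' : X → A') (hφ' : ∀ a, MeasurableSet (φ' ⁻¹' {a})) (pr : A' → A)
    (hpr : ∀ x, φ x = pr (φ' x)) :
    ∫ x, avg μ p φ' (φ' x) ^ 2 ∂μ = ∫ x, avg μ p φ (φ x) ^ 2 ∂μ +
      ∫ x, (avg μ p φ' (φ' x) - avg μ p φ (φ x)) ^ 2 ∂μ := by
  have h1 := orth (μ := μ) p hp hp1 φ' hφ' (fun a => avg μ p φ (pr a))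
  have h2 := orth (μ := μ) p hp hp1 φ hφ (fun a => avg μ p φ a)
  simp only [← hpr] at h1
  have b1 : ∀ x, |avg μ p φ' (φ' x)| ≤ 1 := fun x => abs_avg_le p hp hp1 φ' _
  have b2 : ∀ x, |avg μ p φ (φ x)| ≤ 1 := fun x => abs_avg_le p hp hp1 φ _
  have m1 := measurable_comp φ' hφ' (avg μ p φ')
  have m2 := measurable_comp φ hφ (avg μ p φ)
  have bm : ∀ a b : ℝ, |a| ≤ 2 → |b| ≤ 2 → |a * b| ≤ 4 := by
    intro a b ha hb
    rw [abs_mul]
    calc |a| * |b| ≤ 2 * 2 := mul_le_mul ha hb (abs_nonneg _) (by norm_num)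
      _ = 4 := by norm_num
  have i1 : Integrable (fun x => avg μ p φ (φ x) ^ 2) μ :=
    integrable_of_le (B := 4) (m2.pow_const 2) fun x => by
      rw [sq]; exact bm _ _ ((b2 x).trans (by norm_num)) ((b2 x).trans (by norm_num))
  have i2 : Integrable (fun x => (avg μ p φ' (φ' x) - avg μ p φ (φ x)) ^ 2) μ :=
    integrable_of_le (B := 4) ((m1.sub m2).pow_const 2) fun x => by
      rw [sq]
      have : |avg μ p φ' (φ' x) - avg μ p φ (φ x)| ≤ 2 :=
        (abs_sub _ _).trans (by linarith [b1 x, b2 x])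
      exact bm _ _ this this
  have i3 : Integrable (fun x => (p x - avg μ p φ' (φ' x)) * avg μ p φ (φ x)) μ :=
    integrable_of_le (B := 4) ((hp.sub m1).mul m2) fun x =>
      bm _ _ ((abs_sub _ _).trans (by linarith [b1 x, hp1 x])) ((b2 x).trans (by norm_num))
  have i4 : Integrable (fun x => (p x - avg μ p φ (φ x)) * avg μ p φ (φ x)) μ :=
    integrable_of_le (B := 4) ((hp.sub m2).mul m2) fun x =>
      bm _ _ ((abs_sub _ _).trans (by linarith [b2 x, hp1 x])) ((b2 x).trans (by norm_num))
  have e : ∀ x, avg μ p φ' (φ' x) ^ 2 = (avg μ p φ (φ x) ^ 2 +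
      (avg μ p φ' (φ' x) - avg μ p φ (φ x)) ^ 2) -
      2 * ((p x - avg μ p φ' (φ' x)) * avg μ p φ (φ x)) +
      2 * ((p x - avg μ p φ (φ x)) * avg μ p φ (φ x)) := by
    intro x
    ring
  simp_rw [e]
  rw [integral_add, integral_sub, integral_add i1 i2, integral_const_mul, integral_const_mul,
    h1, h2]
  · ring
  · exact i1.add i2
  · exact i3.const_mul 2
  · exact (i1.add i2).sub (i3.const_mul 2)
  · exact i4.const_mul 2

/-- Increment of the energy. -/
theorem increment {A : Type v} [Fintype A] {A' : Type v} [Fintype A'] (p : X → ℝ)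
    (hp : Measurable p) (hp1 : ∀ x, |p x| ≤ 1)
    (φ : X → A) (hφ : ∀ a, MeasurableSet (φ ⁻¹' {a}))
    (φ' : X → A') (hφ' : ∀ a, MeasurableSet (φ' ⁻¹' {a})) (q : A' → ℝ) (hq : ∀ a, |q a| ≤ 1) :
    (∫ x, (p x - avg μ p φ (φ x)) * q (φ' x) ∂μ) ^ 2 ≤
      ∫ x, (avg μ p φ' (φ' x) - avg μ p φ (φ x)) ^ 2 ∂μ := by
  have h1 := orth (μ := μ) p hp hp1 φ' hφ' q
  have b1 : ∀ x, |avg μ p φ' (φ' x)| ≤ 1 := fun x => abs_avg_le p hp hp1 φ' _
  have b2 : ∀ x, |avg μ p φ (φ x)| ≤ 1 := fun x => abs_avg_le p hp hp1 φ _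
  have m1 := measurable_comp φ' hφ' (avg μ p φ')
  have m2 := measurable_comp φ hφ (avg μ p φ)
  have mq := measurable_comp φ' hφ' q
  have bm : ∀ a b : ℝ, |a| ≤ 2 → |b| ≤ 2 → |a * b| ≤ 4 := by
    intro a b ha hb
    rw [abs_mul]
    calc |a| * |b| ≤ 2 * 2 := mul_le_mul ha hb (abs_nonneg _) (by norm_num)
      _ = 4 := by norm_num
  set D : X → ℝ := fun x => avg μ p φ' (φ' x) - avg μ p φ (φ x) with hD
  have mD : Measurable D := m1.sub m2
  have bD : ∀ x, |D x| ≤ 2 := fun x => (abs_sub _ _).trans (by linarith [b1 x, b2 x])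
  have i1 : Integrable (fun x => (p x - avg μ p φ' (φ' x)) * q (φ' x)) μ :=
    integrable_of_le (B := 4) ((hp.sub m1).mul mq) fun x =>
      bm _ _ ((abs_sub _ _).trans (by linarith [b1 x, hp1 x])) ((hq _).trans (by norm_num))
  have i2 : Integrable (fun x => D x * q (φ' x)) μ :=
    integrable_of_le (B := 4) (mD.mul mq) fun x => bm _ _ (bD x) ((hq _).trans (by norm_num))
  have i3 : Integrable (fun x => D x ^ 2) μ :=
    integrable_of_le (B := 4) (mD.pow_const 2) fun x => by
      rw [sq]; exact bm _ _ (bD x) (bD x)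
  have e1 : ∫ x, (p x - avg μ p φ (φ x)) * q (φ' x) ∂μ = ∫ x, D x * q (φ' x) ∂μ := by
    have : ∀ x, (p x - avg μ p φ (φ x)) * q (φ' x) =
        (p x - avg μ p φ' (φ' x)) * q (φ' x) + D x * q (φ' x) := by
      intro x
      rw [hD]
      ring
    simp_rw [this]
    rw [integral_add i1 i2, h1, zero_add]
  rw [e1]
  set c : ℝ := ∫ x, D x * q (φ' x) ∂μ with hc
  have hle : ∀ x, 2 * c * (D x * q (φ' x)) - c ^ 2 ≤ D x ^ 2 := by
    intro x
    have hq2 : q (φ' x) ^ 2 ≤ 1 := by
      rw [← sq_abs]
      have := hq (φ' x)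
      nlinarith [abs_nonneg (q (φ' x))]
    nlinarith [sq_nonneg (D x - c * q (φ' x)), mul_nonneg (sq_nonneg c) (sub_nonneg.mpr hq2)]
  have := integral_mono ((i2.const_mul (2 * c)).sub (integrable_const (c ^ 2))) i3 hle
  rw [integral_sub' (i2.const_mul (2 * c)) (integrable_const _), integral_const_mul, ← hc] at this
  simp only [integral_const, probReal_univ, smul_eq_mul, one_mul] at this
  nlinarith [this]

omit m in
/-- Sum over the atoms. -/
theorem sum_atoms {A : Type v} [Fintype A] {I : Type v} [Fintype I] (φ : X → A)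
    (C : A → I → Set X) (hC : ∀ a x, φ x = a ↔ ∀ i, x ∈ C a i) (q : A → ℝ) (x : X) :
    ∑ a, q a * ∏ i, (C a i).indicator 1 x = q (φ x) := by
  classical
  have h1 : ∀ a, (∏ i, (C a i).indicator (1 : X → ℝ) x) = if φ x = a then 1 else 0 := by
    intro a
    by_cases h : φ x = a
    · rw [if_pos h]
      refine Finset.prod_eq_one fun i _ => ?_
      rw [Set.indicator_of_mem ((hC a x).mp h i)]
      rfl
    · rw [if_neg h]
      have h2 : ¬ ∀ i, x ∈ C a i := fun h3 => h ((hC a x).mpr h3)
      push Not at h2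
      obtain ⟨i, hi⟩ := h2
      exact Finset.prod_eq_zero (Finset.mem_univ i) (Set.indicator_of_notMem hi _)
  simp [h1]

/-- Structured maps: the fibres are intersections of sets of the `M i`. -/
def Struc {A : Type} {I : Type} (M : I → MeasurableSpace X) (φ : X → A) : Prop :=
  ∃ C : A → I → Set X, (∀ a i, MeasurableSet[M i] (C a i)) ∧ ∀ a x, φ x = a ↔ ∀ i, x ∈ C a i

theorem Struc.meas {A : Type} {I : Type} [Fintype I] {M : I → MeasurableSpace X}
    (hM : ∀ i, M i ≤ m) {φ : X → A} (h : Struc M φ) (a : A) : MeasurableSet (φ ⁻¹' {a}) := by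
  obtain ⟨C, hC, hCx⟩ := h
  have : φ ⁻¹' {a} = ⋂ i, C a i := by
    ext x
    simp only [Set.mem_preimage, Set.mem_singleton_iff, Set.mem_iInter]
    exact hCx a x
  rw [this]
  exact MeasurableSet.iInter fun i => hM i _ (hC a i)

end WR

open WR in
/-- Weak regularity. -/
theorem weak_reg (I : Type) [Fintype I] (β : ℝ) (hβ : 0 < β) : ∃ T : ℕ,
    ∀ (X : Type u) [m : MeasurableSpace X] (μ : Measure X) [IsProbabilityMeasure μ]
      (M : I → MeasurableSpace X) (_ : ∀ i, M i ≤ m) (p : X → ℝ) (_ : Measurable p)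
      (_ : ∀ x, |p x| ≤ 1),
    ∃ (c : Fin T → ℝ) (C : Fin T → I → Set X), (∀ t, |c t| ≤ 1) ∧
      (∀ t i, MeasurableSet[M i] (C t i)) ∧
      (∀ x, |∑ t, c t * ∏ i, (C t i).indicator 1 x| ≤ 1) ∧
      ∀ r : I → X → ℝ, (∀ i, Measurable[M i] (r i)) → (∀ i x, |r i x| ≤ 1) →
        |∫ x, (p x - ∑ t, c t * ∏ i, (C t i).indicator 1 x) * ∏ i, r i x ∂μ| ≤ β := by
  classical
  set n := Fintype.card I with hn
  set γ : ℝ := β / 2 ^ n with hγ
  have hγ0 : 0 < γ := by positivity
  obtain ⟨S, hS⟩ := exists_nat_gt (1 / γ ^ 2)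
  refine ⟨(2 ^ n) ^ S, ?_⟩
  intro X m μ _ M hM p hp hp1
  -- it suffices to find a good structured map
  suffices H : ∃ (A : Type) (_ : Fintype A) (φ : X → A), Fintype.card A ≤ (2 ^ n) ^ S ∧
      Struc M φ ∧ ∀ G : I → Set X, (∀ i, MeasurableSet[M i] (G i)) →
        |∫ x, (p x - avg μ p φ (φ x)) * ∏ i, (G i).indicator 1 x ∂μ| ≤ γ by
    obtain ⟨A, _, φ, hcard, hst, hgood⟩ := H
    have hφm : ∀ a, MeasurableSet (φ ⁻¹' {a}) := hst.meas hM
    obtain ⟨C, hC, hCx⟩ := hst
    have hcard' : Fintype.card A ≤ Fintype.card (Fin ((2 ^ n) ^ S)) := by simpa using hcard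
    obtain ⟨e⟩ := Function.Embedding.nonempty_of_card_le hcard'
    refine ⟨Function.extend e (avg μ p φ) 0, Function.extend e C (fun _ _ => ∅), ?_, ?_, ?_⟩
    · intro t
      by_cases ht : ∃ a, e a = t
      · obtain ⟨a, rfl⟩ := ht
        rw [e.injective.extend_apply]
        exact abs_avg_le p hp hp1 φ a
      · rw [Function.extend_apply' _ _ _ ht]
        simp
    · intro t i
      by_cases ht : ∃ a, e a = t
      · obtain ⟨a, rfl⟩ := ht
        rw [e.injective.extend_apply]
        exact hC a i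
      · rw [Function.extend_apply' _ _ _ ht]
        exact @MeasurableSet.empty _ (M i)
    · have hsum : ∀ x, ∑ t, Function.extend e (avg μ p φ) 0 t *
          ∏ i, (Function.extend e C (fun _ _ => ∅) t i).indicator 1 x = avg μ p φ (φ x) := by
        intro x
        rw [← sum_atoms φ C hCx (avg μ p φ) x]
        symm
        refine Fintype.sum_of_injective e e.injective _ _ ?_ ?_
        · intro t ht
          rw [Function.extend_apply' _ _ _ (fun ⟨a, ha⟩ => ht ⟨a, ha⟩)]
          simp
        · intro a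
          rw [e.injective.extend_apply, e.injective.extend_apply]
      refine ⟨fun x => ?_, fun r hr hr1 => ?_⟩
      · rw [hsum x]
        exact abs_avg_le p hp hp1 φ _
      · simp_rw [hsum]
        have hfm : Measurable fun x => p x - avg μ p φ (φ x) :=
          hp.sub (measurable_comp φ hφm _)
        have hfb : ∀ x, |p x - avg μ p φ (φ x)| ≤ 2 := fun x =>
          (abs_sub _ _).trans (by linarith [hp1 x, abs_avg_le (μ := μ) p hp hp1 φ (φ x)])
        refine (prod_le_of_set M hM _ 2 hfm hfb γ hgood r hr hr1).trans (le_of_eq ?_)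
        rw [hγ, ← hn]
        field_simp
  by_contra hno
  push Not at hno
  -- energy increments
  have step : ∀ s : ℕ, s ≤ S → ∃ (A : Type) (_ : Fintype A) (φ : X → A),
      Fintype.card A ≤ (2 ^ n) ^ s ∧ Struc M φ ∧
      s * γ ^ 2 ≤ ∫ x, avg μ p φ (φ x) ^ 2 ∂μ := by
    intro s
    induction s with
    | zero =>
      intro _
      refine ⟨Unit, inferInstance, fun _ => (), by simp, ⟨fun _ _ => Set.univ, ?_, ?_⟩, ?_⟩
      · intro _ i
        exact @MeasurableSet.univ _ (M i)
      · intro a x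
        simp
      · simp only [Nat.cast_zero, zero_mul]
        exact integral_nonneg fun x => sq_nonneg _
    | succ s ih =>
      intro hs
      obtain ⟨A, _, φ, hcard, hst, hE⟩ := ih (by omega)
      have hcard2 : Fintype.card A ≤ (2 ^ n) ^ S :=
        hcard.trans (Nat.pow_le_pow_right (by positivity) (by omega))
      obtain ⟨G, hG, hGγ⟩ := hno A inferInstance φ hcard2 hst
      have hφm : ∀ a, MeasurableSet (φ ⁻¹' {a}) := hst.meas hM
      obtain ⟨C, hC, hCx⟩ := hst
      set φ' : X → A × (I → Bool) := fun x => (φ x, fun i => decide (x ∈ G i)) with hφ'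
      have hst' : Struc M φ' := by
        refine ⟨fun a i => C a.1 i ∩ (if a.2 i then G i else (G i)ᶜ), ?_, ?_⟩
        · intro a i
          refine (hC a.1 i).inter ?_
          split
          · exact hG i
          · exact (hG i).compl
        · intro a x
          rw [hφ']
          constructor
          · intro h i
            have h1 : φ x = a.1 := congrArg Prod.fst h
            have h2 : (fun i => decide (x ∈ G i)) = a.2 := congrArg Prod.snd h
            refine ⟨(hCx a.1 x).mp h1 i, ?_⟩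
            rw [← h2]
            by_cases hx : x ∈ G i <;> simp [hx]
          · intro h
            have h1 : φ x = a.1 := (hCx a.1 x).mpr fun i => (h i).1
            refine Prod.ext h1 ?_
            funext i
            have h2 := (h i).2
            show decide (x ∈ G i) = a.2 i
            cases hb : a.2 i
            · rw [hb] at h2
              have h3 : x ∉ G i := by simpa using h2
              simp [h3]
            · rw [hb] at h2
              have h3 : x ∈ G i := by simpa using h2
              simp [h3]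
      have hφ'm : ∀ a, MeasurableSet (φ' ⁻¹' {a}) := hst'.meas hM
      refine ⟨A × (I → Bool), inferInstance, φ', ?_, hst', ?_⟩
      · rw [Fintype.card_prod, pow_succ]
        refine Nat.mul_le_mul hcard ?_
        simp [hn]
      · have hen := energy (μ := μ) p hp hp1 φ hφm φ' hφ'm Prod.fst (fun x => rfl)
        have hinc := increment (μ := μ) p hp hp1 φ hφm φ' hφ'm
          (fun a => ∏ i, if a.2 i then (1 : ℝ) else 0) (fun a => by
            refine abs_prod_le _ _ fun i _ => ?_
            split <;> simp)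
        have heq : ∀ x, (∏ i, if (φ' x).2 i then (1 : ℝ) else 0) =
            ∏ i, (G i).indicator 1 x := by
          intro x
          refine Finset.prod_congr rfl fun i _ => ?_
          rw [hφ']
          by_cases hx : x ∈ G i <;> simp [hx]
        simp_rw [heq] at hinc
        have h3 : γ ^ 2 ≤ (∫ x, (p x - avg μ p φ (φ x)) * ∏ i, (G i).indicator 1 x ∂μ) ^ 2 := by
          rw [← sq_abs (∫ x, _ ∂μ)]
          exact pow_le_pow_left₀ hγ0.le hGγ.le 2
        rw [hen]
        push_cast
        linarith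
  obtain ⟨A, _, φ, _, hst, hE⟩ := step S le_rfl
  have hφm : ∀ a, MeasurableSet (φ ⁻¹' {a}) := hst.meas hM
  have hle : ∫ x, avg μ p φ (φ x) ^ 2 ∂μ ≤ 1 := by
    have h1 : ∀ x, avg μ p φ (φ x) ^ 2 ≤ 1 := by
      intro x
      rw [← sq_abs]
      have := abs_avg_le (μ := μ) p hp hp1 φ (φ x)
      nlinarith [abs_nonneg (avg μ p φ (φ x))]
    have h2 : Integrable (fun x => avg μ p φ (φ x) ^ 2) μ :=
      integrable_of_le (B := 1) ((measurable_comp φ hφm _).pow_const 2) fun x => by
        rw [abs_of_nonneg (sq_nonneg _)]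
        exact h1 x
    have h3 := integral_mono h2 (integrable_const (1 : ℝ)) h1
    simpa using h3
  have h4 : 1 < S * γ ^ 2 := by
    rw [div_lt_iff₀ (by positivity)] at hS
    exact hS
  linarith

end Pool.Agent.SPHK
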