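import Pool.Agent.SPHK.HDigit
import Pool.Agent.SPHK.WR

/-!
# Row SUP: the energy property gives smallness against all products
-/

set_option autoImplicit false

open MeasureTheory ProbabilityTheory Filter
open scoped ENNReal Topology

noncomputable section
namespace SPHK

open Pool.Agent.SPHK

/-! ### Functions of finitely many coordinates -/

section coords

variable {J Om : Type} [DecidableEq J] [MeasurableSpace Om]

/-- The sigma algebra of the coordinates in `e`. -/
@[instance_reducible] def Mco (Om : Type) [MeasurableSpace Om] (e : Finset J) :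
    MeasurableSpace (J → Om) :=
  MeasurableSpace.comap (fun (y : J → Om) (w : e) => y w) inferInstance

omit [DecidableEq J] in
theorem Mco_le (e : Finset J) : Mco Om e ≤ (inferInstance : MeasurableSpace (J → Om)) := by
  refine MeasurableSpace.comap_le_iff_le_map.mpr ?_
  have : Measurable (fun (y : J → Om) (w : e) => y w) :=
    measurable_pi_lambda _ fun w => measurable_pi_apply _
  exact this.le_map

/-- Fill up with a constant. -/
def fillc (e : Finset J) (o : Om) (z : e → Om) : J → Om :=
  fun v => if h : v ∈ e then z ⟨v, h⟩ else o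

theorem measurable_fillc (e : Finset J) (o : Om) : Measurable (fillc (J := J) e o) := by
  refine measurable_pi_lambda _ fun v => ?_
  unfold fillc
  by_cases h : v ∈ e
  · simp only [h, dif_pos]
    exact measurable_pi_apply _
  · simp only [h, dif_neg, not_false_eq_true]
    exact measurable_const

theorem measurable_Mco_of_dependsOn [Nonempty Om] {β : Type} [MeasurableSpace β] (e : Finset J)
    (r : (J → Om) → β) (hr : Measurable r) (hd : DependsOn r (e : Set J)) :
    Measurable[Mco Om e] r := by
  have o : Om := Classical.arbitrary Om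
  have heq : r = (fun z => r (fillc e o z)) ∘ (fun (y : J → Om) (w : e) => y w) := by
    funext y
    refine hd ?_
    intro v hv
    have hv' : v ∈ e := hv
    simp [fillc, hv']
  rw [heq]
  exact (hr.comp (measurable_fillc e o)).comp (comap_measurable _)

theorem measurableSet_Mco_of_dependsOn [Nonempty Om] (e : Finset J)
    (S : Set (J → Om)) (hS : MeasurableSet S) (hd : DependsOn (fun y => y ∈ S) (e : Set J)) :
    MeasurableSet[Mco Om e] S := by
  have o : Om := Classical.arbitrary Om
  have heq : S = (fun (y : J → Om) (w : e) => y w) ⁻¹' ((fillc e o) ⁻¹' S) := by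
    ext y
    have : (y ∈ S) = (fillc e o (fun w : e => y w) ∈ S) := by
      refine hd ?_
      intro v hv
      have hv' : v ∈ e := hv
      simp [fillc, hv']
    rw [this]
    rfl
  rw [heq]
  exact ⟨_, (measurable_fillc e o) hS, rfl⟩

omit [DecidableEq J] in
theorem dependsOn_of_Mco (e : Finset J) (S : Set (J → Om)) (hS : MeasurableSet[Mco Om e] S) :
    DependsOn (fun y => y ∈ S) (e : Set J) := by
  obtain ⟨T, _, rfl⟩ := hS
  intro y y' h
  have : (fun w : e => y w) = (fun w : e => y' w) := by
    funext w
    exact h w w.2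
  simp only [Set.mem_preimage]
  rw [this]

omit [DecidableEq J] in
theorem measurableSet_of_Mco (e : Finset J) (S : Set (J → Om)) (hS : MeasurableSet[Mco Om e] S) :
    MeasurableSet S := Mco_le e S hS

end coords

/-! ### Conditional expectations on finite algebras are averages -/

theorem comap_fin_eq {X ι : Type} [Fintype ι] (S : ι → Set X) (φ : X → ι → Bool)
    (hφ : ∀ x i, φ x i = true ↔ x ∈ S i) :
    MeasurableSpace.comap φ ⊤ = MeasurableSpace.generateFrom {T | ∃ i, T = S i} := by
  apply le_antisymm
  · rintro T ⟨V, _, rfl⟩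
    have h1 : ∀ i, MeasurableSet[MeasurableSpace.generateFrom {T | ∃ i, T = S i}] (S i) :=
      fun i => MeasurableSpace.measurableSet_generateFrom ⟨i, rfl⟩
    have h2 : ∀ b : ι → Bool, MeasurableSet[MeasurableSpace.generateFrom {T | ∃ i, T = S i}]
        (φ ⁻¹' {b}) := by
      intro b
      have : φ ⁻¹' {b} = ⋂ i, (if b i then S i else (S i)ᶜ) := by
        ext x
        simp only [Set.mem_preimage, Set.mem_singleton_iff, Set.mem_iInter]
        constructor
        · intro h i
          rw [← h]
          by_cases hx : x ∈ S i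
          · rw [(hφ x i).mpr hx]
            simpa using hx
          · have : φ x i = false := by
              rw [← Bool.not_eq_true]
              exact fun h' => hx ((hφ x i).mp h')
            rw [this]
            simpa using hx
        · intro h
          funext i
          have hi := h i
          cases hb : b i
          · rw [hb] at hi
            rw [← Bool.not_eq_true]
            intro h'
            have h3 : x ∉ S i := by simpa using hi
            exact h3 ((hφ x i).mp h')
          · rw [hb] at hi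
            have h3 : x ∈ S i := by simpa using hi
            exact (hφ x i).mpr h3
      rw [this]
      refine MeasurableSet.iInter fun i => ?_
      split
      · exact h1 i
      · exact (h1 i).compl
    have : φ ⁻¹' V = ⋃ b : V, φ ⁻¹' {(b : ι → Bool)} := by
      ext x
      simp
    rw [this]
    exact MeasurableSet.iUnion fun b => h2 b
  · refine MeasurableSpace.generateFrom_le ?_
    rintro T ⟨i, rfl⟩
    refine ⟨{b | b i = true}, trivial, ?_⟩
    ext x
    exact hφ x i

theorem condExp_eq_avg {X A : Type} [m0 : MeasurableSpace X] (μ : Measure X)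
    [IsProbabilityMeasure μ] [Fintype A] (φ : X → A) (hφ : ∀ a, MeasurableSet (φ ⁻¹' {a}))
    (p : X → ℝ) (hp : Measurable p) (hp1 : ∀ x, |p x| ≤ 1) :
    (fun x => WR.avg μ p φ (φ x)) =ᵐ[μ] μ[p | MeasurableSpace.comap φ ⊤] := by
  have hle : MeasurableSpace.comap φ ⊤ ≤ m0 := by
    rintro T ⟨V, _, rfl⟩
    have : φ ⁻¹' V = ⋃ b : V, φ ⁻¹' {(b : A)} := by
      ext x
      simp
    rw [this]
    exact MeasurableSet.iUnion fun b => hφ b
  have hpi : Integrable p μ := WR.integrable_of_le hp hp1
  have hai : Integrable (fun x => WR.avg μ p φ (φ x)) μ :=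
    WR.integrable_of_le (WR.measurable_comp φ hφ _) fun x => WR.abs_avg_le p hp hp1 φ _
  refine ae_eq_condExp_of_forall_setIntegral_eq hle hpi (fun s _ _ => hai.integrableOn) ?_ ?_
  · rintro s ⟨V, _, rfl⟩ _
    classical
    have h := WR.orth (μ := μ) p hp hp1 φ hφ (fun a => if a ∈ V then 1 else 0)
    have e1 : ∀ x, (p x - WR.avg μ p φ (φ x)) * (if φ x ∈ V then (1 : ℝ) else 0) =
        (φ ⁻¹' V).indicator (fun x => p x - WR.avg μ p φ (φ x)) x := by
      intro x
      by_cases hx : φ x ∈ V
      · rw [Set.indicator_of_mem (show x ∈ φ ⁻¹' V from hx)]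
        simp [hx]
      · rw [Set.indicator_of_notMem (show x ∉ φ ⁻¹' V from hx)]
        simp [hx]
    simp_rw [e1] at h
    rw [integral_indicator (hle _ ⟨V, trivial, rfl⟩), integral_sub hpi.integrableOn
      hai.integrableOn] at h
    linarith
  · refine StronglyMeasurable.aestronglyMeasurable ?_
    have : (fun x => WR.avg μ p φ (φ x)) = (fun a => WR.avg μ p φ a) ∘ φ := rfl
    rw [this]
    have h1 : Measurable[⊤] (fun a => WR.avg μ p φ a) := fun _ _ => trivial
    have h2 : Measurable[MeasurableSpace.comap φ ⊤] ((fun a => WR.avg μ p φ a) ∘ φ) :=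
      h1.comp (comap_measurable φ)
    exact h2.stronglyMeasurable

/-! ### Energies as averages -/

variable {J : Type} [Fintype J] [DecidableEq J] {H : Host J}

open scoped Classical in
/-- The pattern of the digits of `E` at stage `n`. -/
def pat (E : Finset (HDigit H)) (n : ℕ) (y : J → H.Om) : E → Bool :=
  fun d => decide (y ∈ d.1.G n)

theorem pat_iff (E : Finset (HDigit H)) (n : ℕ) (y : J → H.Om) (d : E) :
    pat E n y d = true ↔ y ∈ d.1.G n := by
  classical
  simp [pat]

theorem algn_eq (E : Finset (HDigit H)) (n : ℕ) :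
    algn E n = MeasurableSpace.comap (pat E n) ⊤ := by
  rw [comap_fin_eq (fun d : E => d.1.G n) (pat E n) (pat_iff E n)]
  unfold algn
  congr 1
  ext T
  simp only [Set.mem_ofPred_eq, Subtype.exists, exists_prop]

theorem pat_meas (E : Finset (HDigit H)) (n : ℕ) (b : E → Bool) :
    MeasurableSet (pat E n ⁻¹' {b}) := by
  have h1 : Measurable (pat E n) := by
    refine measurable_pi_lambda _ fun d => ?_
    refine measurable_to_bool ?_
    have : (fun y => pat E n y d) ⁻¹' {true} = d.1.G n := by
      ext y
      exact pat_iff E n y d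
    rw [this]
    exact d.1.meas n
  exact h1 (MeasurableSet.singleton b)

/-- The indicator of a digit at stage `n`. -/
def ind1 (A : HDigit H) (n : ℕ) : (J → H.Om) → ℝ := (A.G n).indicator (fun _ => (1 : ℝ))

theorem measurable_ind1 (A : HDigit H) (n : ℕ) : Measurable (ind1 A n) :=
  measurable_const.indicator (A.meas n)

theorem abs_ind1_le (A : HDigit H) (n : ℕ) (y : J → H.Om) : |ind1 A n y| ≤ 1 := by
  unfold ind1
  by_cases hy : y ∈ A.G n <;> simp [hy]

theorem condExp_algn (A : HDigit H) (E : Finset (HDigit H)) (n : ℕ) :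
    (fun y => WR.avg H.lam (ind1 A n) (pat E n) (pat E n y)) =ᵐ[H.lam]
      (H.lam)[(A.G n).indicator (fun _ => (1 : ℝ)) | algn E n] := by
  classical
  rw [algn_eq]
  exact condExp_eq_avg H.lam (pat E n) (pat_meas E n) (ind1 A n) (measurable_ind1 A n)
    (abs_ind1_le A n)

theorem energyn_eq (A : HDigit H) (E : Finset (HDigit H)) (n : ℕ) :
    energyn A E n = ∫ y, WR.avg H.lam (ind1 A n) (pat E n) (pat E n y) ^ 2 ∂H.lam := by
  unfold energyn
  refine integral_congr_ae ?_
  filter_upwards [condExp_algn A E n] with y hy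
  rw [← hy]

/-- The energy increment. -/
theorem energyn_increment (A : HDigit H) (E E' : Finset (HDigit H)) (hEE : E ⊆ E') (n : ℕ)
    (q : (E' → Bool) → ℝ) (hq : ∀ b, |q b| ≤ 1) :
    energyn A E n + (∫ y, (ind1 A n y - WR.avg H.lam (ind1 A n) (pat E n) (pat E n y)) *
      q (pat E' n y) ∂H.lam) ^ 2 ≤ energyn A E' n := by
  classical
  have h1 := WR.energy (μ := H.lam) (ind1 A n) (measurable_ind1 A n) (abs_ind1_le A n)
    (pat E n) (pat_meas E n) (pat E' n) (pat_meas E' n)
    (fun b d => b ⟨d.1, hEE d.2⟩) (fun x => rfl)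
  have h2 := WR.increment (μ := H.lam) (ind1 A n) (measurable_ind1 A n) (abs_ind1_le A n)
    (pat E n) (pat_meas E n) (pat E' n) (pat_meas E' n) q hq
  rw [energyn_eq, energyn_eq, h1]
  linarith

theorem energyn_nonneg (A : HDigit H) (E : Finset (HDigit H)) (n : ℕ) : 0 ≤ energyn A E n := by
  rw [energyn_eq]
  exact integral_nonneg fun y => sq_nonneg _

theorem energyn_le_one (A : HDigit H) (E : Finset (HDigit H)) (n : ℕ) : energyn A E n ≤ 1 := by
  classical
  rw [energyn_eq]
  have h1 : ∀ y, WR.avg H.lam (ind1 A n) (pat E n) (pat E n y) ^ 2 ≤ 1 := by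
    intro y
    rw [← sq_abs]
    have := WR.abs_avg_le (μ := H.lam) (ind1 A n) (measurable_ind1 A n) (abs_ind1_le A n)
      (pat E n) (pat E n y)
    nlinarith [abs_nonneg (WR.avg H.lam (ind1 A n) (pat E n) (pat E n y))]
  have h2 : Integrable (fun y => WR.avg H.lam (ind1 A n) (pat E n) (pat E n y) ^ 2) H.lam :=
    WR.integrable_of_le (B := 1) ((WR.measurable_comp (pat E n) (pat_meas E n) _).pow_const 2)
      fun y => by
        rw [abs_of_nonneg (sq_nonneg _)]
        exact h1 y
  have h3 := integral_mono h2 (integrable_const (1 : ℝ)) h1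
  simpa using h3

theorem energyn_mono (A : HDigit H) (E E' : Finset (HDigit H)) (hEE : E ⊆ E') (n : ℕ) :
    energyn A E n ≤ energyn A E' n := by
  have := energyn_increment A E E' hEE n (fun _ => 0) (fun _ => by simp)
  simpa using this

/-- ROW SUP. -/
theorem small_corr (U : Ultrafilter ℕ) (A : HDigit H) (h2 : 2 ≤ A.f.card) (η : ℝ) (hη : 0 < η)
    (E : Finset (HDigit H)) (hE : LowOrder A.f E)
    (hEn : ∀ E' : Finset (HDigit H), LowOrder A.f E' → E ⊆ E' →
      ∀ᶠ n in (U : Filter ℕ), energyn A E' n ≤ energyn A E n + η) :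
    ∀ᶠ n in (U : Filter ℕ), ∀ r : J → (J → H.Om) → ℝ, (∀ v, Bdd (r v)) →
      (∀ v, DependsOn (r v) ((A.f.erase v : Finset J) : Set J)) →
      |∫ y, ((A.G n).indicator (fun _ => (1 : ℝ)) y -
          (H.lam)[(A.G n).indicator (fun _ => (1 : ℝ)) | algn E n] y) * ∏ v ∈ A.f, r v y ∂H.lam| ≤
        2 ^ Fintype.card J * (Real.sqrt η + η) := by
  classical
  set γ : ℝ := Real.sqrt η + η with hγ
  have hγ0 : 0 < γ := by positivity
  have hγη : η < γ ^ 2 := by
    have h1 : Real.sqrt η ^ 2 = η := Real.sq_sqrt hη.le
    have h3 : 0 < Real.sqrt η := Real.sqrt_pos.mpr hη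
    rw [hγ]
    nlinarith
  -- F n = the difference, everywhere bounded version
  set F : ℕ → (J → H.Om) → ℝ := fun n y =>
    ind1 A n y - WR.avg H.lam (ind1 A n) (pat E n) (pat E n y) with hF
  have hFm : ∀ n, Measurable (F n) := fun n =>
    (measurable_ind1 A n).sub (WR.measurable_comp (pat E n) (pat_meas E n) _)
  have hFb : ∀ n y, |F n y| ≤ 2 := fun n y =>
    (abs_sub _ _).trans (by
      linarith [abs_ind1_le A n y, WR.abs_avg_le (μ := H.lam) (ind1 A n) (measurable_ind1 A n)
        (abs_ind1_le A n) (pat E n) (pat E n y)])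
  -- good stages
  let good : ℕ → Prop := fun n => ∀ G : A.f → Set (J → H.Om),
    (∀ v, MeasurableSet[Mco H.Om (A.f.erase v.1)] (G v)) →
      |∫ y, F n y * ∏ v, (G v).indicator 1 y ∂H.lam| ≤ γ
  have hgood : ∀ᶠ n in (U : Filter ℕ), good n := by
    by_contra hno
    have hno' : ∀ᶠ n in (U : Filter ℕ), ¬ good n := Ultrafilter.eventually_not.mpr hno
    have hex : ∀ n, ∃ G : A.f → Set (J → H.Om),
        (∀ v, MeasurableSet[Mco H.Om (A.f.erase v.1)] (G v)) ∧
        (¬ good n → γ < |∫ y, F n y * ∏ v, (G v).indicator 1 y ∂H.lam|) := by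
      intro n
      by_cases hg : good n
      · exact ⟨fun _ => ∅, fun v => @MeasurableSet.empty _ (Mco H.Om (A.f.erase v.1)),
          fun h => absurd hg h⟩
      · have hg' := hg
        simp only [good] at hg'
        push Not at hg'
        obtain ⟨G, hG, hGγ⟩ := hg'
        exact ⟨G, hG, fun _ => hGγ⟩
    choose G hG hGγ using hex
    let dgt : A.f → HDigit H := fun v =>
      { f := A.f.erase v.1
        nef := by
          rw [← Finset.card_pos, Finset.card_erase_of_mem v.2]
          omega
        G := fun n => G n v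
        meas := fun n => measurableSet_of_Mco _ _ (hG n v)
        dep := fun n => dependsOn_of_Mco _ _ (hG n v) }
    set E' : Finset (HDigit H) := E ∪ Finset.univ.image dgt with hE'
    have hlow : LowOrder A.f E' := by
      intro d hd
      rw [hE', Finset.mem_union] at hd
      rcases hd with hd | hd
      · exact hE d hd
      · obtain ⟨v, _, rfl⟩ := Finset.mem_image.mp hd
        exact ⟨v.1, v.2, rfl⟩
    have hmem : ∀ v, dgt v ∈ E' := fun v =>
      Finset.mem_union_right _ (Finset.mem_image_of_mem _ (Finset.mem_univ v))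
    have hsub : E ⊆ E' := Finset.subset_union_left
    obtain ⟨n, hn1, hn2⟩ := (hno'.and (hEn E' hlow hsub)).exists
    have hinc := energyn_increment A E E' hsub n
      (fun b => ∏ v : A.f, if b ⟨dgt v, hmem v⟩ then (1 : ℝ) else 0) (fun b => by
        refine WR.abs_prod_le _ _ fun i _ => ?_
        split <;> simp)
    have heq : ∀ y, (∏ v : A.f, if pat E' n y ⟨dgt v, hmem v⟩ then (1 : ℝ) else 0) =
        ∏ v, (G n v).indicator 1 y := by
      intro y
      refine Finset.prod_congr rfl fun v _ => ?_
      by_cases hy : y ∈ G n v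
      · rw [if_pos ((pat_iff E' n y ⟨dgt v, hmem v⟩).mpr hy), Set.indicator_of_mem hy]
        rfl
      · rw [if_neg (fun h => hy ((pat_iff E' n y ⟨dgt v, hmem v⟩).mp h)),
          Set.indicator_of_notMem hy]
    simp_rw [heq] at hinc
    have h3 := hGγ n hn1
    have h4 : γ ^ 2 ≤ (∫ y, F n y * ∏ v, (G n v).indicator 1 y ∂H.lam) ^ 2 := by
      rw [← sq_abs (∫ y, _ ∂H.lam)]
      exact pow_le_pow_left₀ hγ0.le h3.le 2
    linarith
  filter_upwards [hgood] with n hn r hr hd
  have e1 : ∫ y, ((A.G n).indicator (fun _ => (1 : ℝ)) y -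
          (H.lam)[(A.G n).indicator (fun _ => (1 : ℝ)) | algn E n] y) * ∏ v ∈ A.f, r v y ∂H.lam =
      ∫ y, F n y * ∏ v : A.f, r v.1 y ∂H.lam := by
    refine integral_congr_ae ?_
    filter_upwards [condExp_algn A E n] with y hy
    rw [← hy, ← Finset.prod_coe_sort A.f (fun v => r v y)]
    rfl
  rw [e1]
  have h5 := WR.prod_le_of_set (μ := H.lam) (fun v : A.f => Mco H.Om (A.f.erase v.1))
    (fun v => Mco_le _) (F n) 2 (hFm n) (hFb n) γ hn (fun v => r v.1)
    (fun v => measurable_Mco_of_dependsOn _ _ (hr v.1).1 (hd v.1)) (fun v y => (hr v.1).2 y)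
  refine h5.trans ?_
  have h6 : Fintype.card A.f ≤ Fintype.card J := by
    rw [Fintype.card_coe]
    exact Finset.card_le_univ _
  have h7 : (2 : ℝ) ^ Fintype.card A.f ≤ 2 ^ Fintype.card J :=
    pow_le_pow_right₀ (by norm_num) h6
  exact mul_le_mul_of_nonneg_right h7 hγ0.le

end SPHK
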