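import Pool.Agent.SPHK.Law
import Pool.Agent.SPHK.Gvn
import Pool.Agent.SPHK.Sup

/-! Project SPHK (MP_f7e9f1_co), row CIP: the limit measure satisfies CI (A.7). helper40. -/

set_option autoImplicit false

open MeasureTheory ProbabilityTheory Filter
open scoped ENNReal Topology

noncomputable section
namespace SPHK.CIPA
section

variable {J : Type} [Fintype J] [DecidableEq J] (H : Host J)

/-- restriction to f0 -/
def rho {J O : Type} (f0 : Finset J) (y : J → O) : f0 ⊕ Empty → O :=
  Sum.elim (fun a => y a.1) Empty.elim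

theorem measurable_rho {J O : Type} [MeasurableSpace O] (f0 : Finset J) :
    Measurable (rho (O := O) f0) := by
  refine measurable_pi_lambda _ fun v => ?_
  rcases v with a | e
  · exact measurable_pi_apply _
  · exact e.elim

theorem lam_map_rho (f0 : Finset J) :
    H.lam.map (rho f0) = H.law (Sum.elim (fun a : f0 => a.1) Empty.elim) := by
  have h := H.law_map (fun j : J => j) (Sum.elim (fun a : f0 => a.1) Empty.elim) (by
    intro a b hab
    rcases a with a | e
    · rcases b with b | e
      · simp only [Sum.elim_inl] at hab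
        rw [Subtype.ext hab]
      · exact e.elim
    · exact e.elim)
  have h2 : (fun y : J → H.Om => fun v' : f0 ⊕ Empty => y (Sum.elim (fun a : f0 => a.1) Empty.elim v'))
      = rho f0 := by
    funext y v'
    rcases v' with a | e
    · rfl
    · exact e.elim
  rw [h2] at h
  exact h

/-- the reindexing of J -/
def rsum (f0 : Finset J) : f0 ⊕ (Empty ⊕ {j // j ∉ f0}) → J :=
  Sum.elim (fun a => a.1) (Sum.elim Empty.elim (fun c => c.1))

/-- its inverse -/
def rinv (f0 : Finset J) (j : J) : f0 ⊕ (Empty ⊕ {j // j ∉ f0}) :=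
  if h : j ∈ f0 then Sum.inl ⟨j, h⟩ else Sum.inr (Sum.inr ⟨j, h⟩)

theorem rsum_rinv (f0 : Finset J) (j : J) : rsum f0 (rinv f0 j) = j := by
  unfold rinv
  by_cases h : j ∈ f0
  · simp [h, rsum]
  · simp [h, rsum]

theorem rinv_rsum (f0 : Finset J) (v : f0 ⊕ (Empty ⊕ {j // j ∉ f0})) : rinv f0 (rsum f0 v) = v := by
  rcases v with a | e | c
  · simp [rinv, rsum, a.2]
  · exact e.elim
  · simp [rinv, rsum, c.2]

theorem rsum_inj (f0 : Finset J) : Function.Injective (rsum f0) :=
  Function.LeftInverse.injective (rinv_rsum f0)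

theorem gvnJ (f0 : Finset J) (hf0 : f0.Nonempty) (h : (f0 ⊕ Empty → H.Om) → ℝ) (hh : Bdd h)
    (g : J → (J → H.Om) → ℝ) (hg : ∀ a, Bdd (g a)) (hd : ∀ a ∈ f0, DependsOn (g a) {i | i ≠ a}) :
    |∫ y, h (rho f0 y) * ∏ a ∈ f0, g a y ∂H.lam| ^ (2 ^ f0.card) ≤
      H.box (fun a : f0 => a.1) Empty.elim h := by
  classical
  haveI : Nonempty f0 := ⟨⟨hf0.choose, hf0.choose_spec⟩⟩
  have hlaw := H.law_map (fun j : J => j) (rsum f0) (rsum_inj f0)
  have h1 := H.gvn (A := f0) (C := Empty ⊕ {j // j ∉ f0}) (fun a => a.1)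
    (Sum.elim Empty.elim (fun c => c.1))
    (fun y => h (Sum.elim (fun a => y (Sum.inl a)) (fun z => y (Sum.inr (Sum.inl z)))))
    (hh.1.comp (by
      refine measurable_pi_lambda _ fun v => ?_
      rcases v with a | e
      · exact measurable_pi_apply _
      · exact e.elim)) 1 (fun y => hh.2 _)
    (fun a y => g a.1 (fun j => y (rinv f0 j)))
    (fun a => ⟨(hg a.1).1.comp (measurable_pi_lambda _ fun j => measurable_pi_apply _),
      fun y => (hg a.1).2 _⟩)
    (by
      intro a y y' hyy
      apply hd a.1 a.2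
      intro j hj
      apply hyy
      intro hja
      apply hj
      have := congrArg (rsum f0) hja
      rw [rsum_rinv] at this
      exact this)
  rw [H.box_marg] at h1
  · have h2 : Fintype.card f0 = f0.card := Fintype.card_coe f0
    rw [h2] at h1
    refine le_trans (le_of_eq ?_) h1
    congr 2
    have h3 : (Sum.elim (fun a : f0 => a.1) (Sum.elim Empty.elim (fun c : {j // j ∉ f0} => c.1))) =
      fun v' => rsum f0 v' := rfl
    rw [h3, ← hlaw, integral_map]
    · refine integral_congr_ae (Filter.Eventually.of_forall fun y => ?_)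
      simp only [rsum_rinv]
      congr 1
      · congr 1
        funext v
        rcases v with a | e
        · rfl
        · exact e.elim
      · rw [← Finset.prod_coe_sort]
    · exact (measurable_pi_lambda _ fun v => measurable_pi_apply _).aemeasurable
    · refine Measurable.aestronglyMeasurable ?_
      refine Measurable.mul ?_ ?_
      · refine hh.1.comp ?_
        refine measurable_pi_lambda _ fun v => ?_
        rcases v with a | e
        · exact measurable_pi_apply _
        · exact e.elim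
      · exact Finset.measurable_prod _ fun a _ =>
          (hg a.1).1.comp (measurable_pi_lambda _ fun j => measurable_pi_apply _)
  · exact hh.1

end
end SPHK.CIPA
namespace SPHK.CIPA
section

/-- step approximation of an integral -/
theorem step_approx {Y : Type} [MeasurableSpace Y] (μ : Measure Y) [IsProbabilityMeasure μ]
    (G : Y → ℝ) (hG : Bdd G) (N : ℕ) (hN : 0 < N) :
    |∫ y, G y ∂μ - ∑ j ∈ Finset.Icc (-(N : ℤ)) N, ((j : ℝ) / N) * μ.real {y | ⌊(N : ℝ) * G y⌋ = j}| ≤
      1 / N := by
  have hNr : (0 : ℝ) < N := by exact_mod_cast hN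
  have hmS : ∀ j : ℤ, MeasurableSet {y | ⌊(N : ℝ) * G y⌋ = j} := by
    intro j
    have : Measurable fun y => ⌊(N : ℝ) * G y⌋ := (hG.1.const_mul (N : ℝ)).floor
    exact this (measurableSet_singleton j)
  have hmem : ∀ y, ⌊(N : ℝ) * G y⌋ ∈ Finset.Icc (-(N : ℤ)) N := by
    intro y
    have h := abs_le.mp (hG.2 y)
    rw [Finset.mem_Icc]
    constructor
    · rw [Int.le_floor]
      push_cast
      nlinarith
    · have : ((⌊(N : ℝ) * G y⌋ : ℤ) : ℝ) ≤ (N : ℝ) * G y := Int.floor_le _
      have h2 : ((⌊(N : ℝ) * G y⌋ : ℤ) : ℝ) ≤ ((N : ℤ) : ℝ) := by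
        push_cast
        nlinarith
      exact_mod_cast h2
  have hsum : ∀ y, ∑ j ∈ Finset.Icc (-(N : ℤ)) N,
      ((j : ℝ) / N) * ({y | ⌊(N : ℝ) * G y⌋ = j}).indicator (fun _ => (1 : ℝ)) y =
      (⌊(N : ℝ) * G y⌋ : ℝ) / N := by
    intro y
    rw [Finset.sum_eq_single ⌊(N : ℝ) * G y⌋]
    · rw [Set.indicator_of_mem (by simp)]
      ring
    · intro j _ hj
      rw [Set.indicator_of_notMem (by simpa using hj.symm)]
      ring
    · intro h
      exact absurd (hmem y) h
  have h1 : ∑ j ∈ Finset.Icc (-(N : ℤ)) N, ((j : ℝ) / N) * μ.real {y | ⌊(N : ℝ) * G y⌋ = j} =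
      ∫ y, (⌊(N : ℝ) * G y⌋ : ℝ) / N ∂μ := by
    have h2 : ∀ y, (⌊(N : ℝ) * G y⌋ : ℝ) / N = ∑ j ∈ Finset.Icc (-(N : ℤ)) N,
      ((j : ℝ) / N) * ({y | ⌊(N : ℝ) * G y⌋ = j}).indicator (fun _ => (1 : ℝ)) y :=
      fun y => (hsum y).symm
    simp_rw [h2]
    rw [integral_finsetSum]
    · refine Finset.sum_congr rfl fun j _ => ?_
      rw [integral_const_mul]
      congr 1
      rw [integral_indicator (hmS j)]
      simp [Measure.real]
    · intro j _
      exact ((integrable_const (1 : ℝ)).indicator (hmS j)).const_mul _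
  rw [h1, ← integral_sub]
  · have h3 : ∀ y, ‖G y - (⌊(N : ℝ) * G y⌋ : ℝ) / N‖ ≤ 1 / N := by
      intro y
      have e1 : ((⌊(N : ℝ) * G y⌋ : ℤ) : ℝ) ≤ (N : ℝ) * G y := Int.floor_le _
      have e2 : (N : ℝ) * G y < (⌊(N : ℝ) * G y⌋ : ℝ) + 1 := Int.lt_floor_add_one _
      have e3 : G y - (⌊(N : ℝ) * G y⌋ : ℝ) / N = ((N : ℝ) * G y - (⌊(N : ℝ) * G y⌋ : ℝ)) / N := by
        field_simp
      rw [Real.norm_eq_abs, e3, abs_div, abs_of_nonneg (by linarith), abs_of_pos hNr]
      gcongr
      linarith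
    have h4 := norm_integral_le_of_norm_le_const (μ := μ) (Filter.Eventually.of_forall h3)
    simpa using h4
  · exact Integrable.of_bound hG.1.aestronglyMeasurable 1
      (Filter.Eventually.of_forall fun y => by simpa using hG.2 y)
  · refine Integrable.of_bound (Measurable.aestronglyMeasurable ?_) 1 ?_
    · refine Measurable.div_const ?_ _
      exact (measurable_from_top (f := fun z : ℤ => (z : ℝ))).comp (hG.1.const_mul (N : ℝ)).floor
    · refine Filter.Eventually.of_forall fun y => ?_
      have h := Finset.mem_Icc.mp (hmem y)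
      have h5 : |((⌊(N : ℝ) * G y⌋ : ℤ) : ℝ)| ≤ N := by
        rw [abs_le]
        constructor
        · exact_mod_cast h.1
        · exact_mod_cast h.2
      rw [Real.norm_eq_abs, abs_div, abs_of_pos hNr, div_le_one hNr]
      exact h5

variable {J : Type} [Fintype J] [DecidableEq J] {H : Host J}

/-- the transfer property of the limit measure -/
def Transfer {D : Type} (dg : D → HDigit H) (U : Ultrafilter ℕ)
    (P : Measure ((J → H.Om) × (D → Bool))) : Prop :=
  ∀ (E : Finset D) (M : Set ((J → H.Om) × (D → Bool))),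
        MeasurableSet[GF (fun x : (J → H.Om) × (D → Bool) => x.1) (fun δ => (dg δ).f)
          (fun δ x => x.2 δ) Finset.univ (Fintype.card J) E] M →
        (∀ n, MeasurableSet {y | (y, tval dg n y) ∈ M}) ∧
        Tendsto (fun n => H.lam.real {y | (y, tval dg n y) ∈ M}) (U : Filter ℕ) (𝓝 (P.real M))

theorem GG_le {D : Type} {Ω : Type} [MeasurableSpace Ω] (f : D → Finset J) (e : Finset J) (s : ℕ) :
    GG (fun x : (J → Ω) × (D → Bool) => x.1) f (fun δ x => x.2 δ) e s ≤ (inferInstance : MeasurableSpace ((J → Ω) × (D → Bool))) := by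
  refine sup_le ?_ ?_
  · refine iSup_le fun v => iSup_le fun _ => ?_
    rw [← measurable_iff_comap_le]
    exact (measurable_pi_apply v).comp measurable_fst
  · refine iSup_le fun v => iSup_le fun _ => ?_
    rw [← measurable_iff_comap_le]
    exact (measurable_pi_apply v).comp measurable_snd

theorem GF_le_GG {D : Type} {Ω : Type} [MeasurableSpace Ω] (f : D → Finset J) (e : Finset J) (s : ℕ)
    (E : Finset D) :
    GF (fun x : (J → Ω) × (D → Bool) => x.1) f (fun δ x => x.2 δ) e s E ≤
      GG (fun x : (J → Ω) × (D → Bool) => x.1) f (fun δ x => x.2 δ) e s := by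
  refine sup_le_sup le_rfl ?_
  refine iSup_le fun v => iSup_le fun hv => ?_
  exact le_iSup_of_le v (le_iSup_of_le (show v ∈ {δ : D | f δ ⊆ e ∧ (f δ).card ≤ s} from
    ⟨hv.2.1, hv.2.2⟩) le_rfl)

theorem GF_le {D : Type} {Ω : Type} [MeasurableSpace Ω] (f : D → Finset J) (e : Finset J) (s : ℕ)
    (E : Finset D) :
    GF (fun x : (J → Ω) × (D → Bool) => x.1) f (fun δ x => x.2 δ) e s E ≤ (inferInstance : MeasurableSpace ((J → Ω) × (D → Bool))) :=
  (GF_le_GG f e s E).trans (GG_le f e s)

theorem transfer_meas {D : Type} {dg : D → HDigit H} {U : Ultrafilter ℕ}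
    {P : Measure ((J → H.Om) × (D → Bool))} (hP : Transfer dg U P) (E : Finset D)
    {β : Type} [MeasurableSpace β] (F : (J → H.Om) × (D → Bool) → β)
    (hF : Measurable[GF (fun x : (J → H.Om) × (D → Bool) => x.1) (fun δ => (dg δ).f)
          (fun δ x => x.2 δ) Finset.univ (Fintype.card J) E] F) (n : ℕ) :
    Measurable fun y => F (y, tval dg n y) := by
  intro B hB
  exact (hP E _ (hF hB)).1 n

theorem transfer_fun {D : Type} {dg : D → HDigit H} {U : Ultrafilter ℕ}
    {P : Measure ((J → H.Om) × (D → Bool))} [IsProbabilityMeasure P] (hP : Transfer dg U P)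
    (E : Finset D) (F : (J → H.Om) × (D → Bool) → ℝ)
    (hF : Measurable[GF (fun x : (J → H.Om) × (D → Bool) => x.1) (fun δ => (dg δ).f)
          (fun δ x => x.2 δ) Finset.univ (Fintype.card J) E] F) (hb : ∀ x, |F x| ≤ 1) :
    Tendsto (fun n => ∫ y, F (y, tval dg n y) ∂H.lam) (U : Filter ℕ) (𝓝 (∫ x, F x ∂P)) := by
  rw [Metric.tendsto_nhds]
  intro ε hε
  obtain ⟨N, hN⟩ := exists_nat_gt (3 / ε)
  have hN0 : 0 < N := by
    have : (0 : ℝ) < N := lt_trans (by positivity) hN
    exact_mod_cast this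
  have hNr : (0 : ℝ) < N := by exact_mod_cast hN0
  have hNe : 1 / (N : ℝ) < ε / 3 := by
    rw [div_lt_iff₀ hNr]
    rw [div_lt_iff₀ hε] at hN
    linarith
  have h1 := step_approx P F ⟨hF.mono (GF_le _ _ _ _) le_rfl, hb⟩ N hN0
  have h2 : Tendsto (fun n => ∑ j ∈ Finset.Icc (-(N : ℤ)) N,
      ((j : ℝ) / N) * H.lam.real {y | ⌊(N : ℝ) * F (y, tval dg n y)⌋ = j}) (U : Filter ℕ)
      (𝓝 (∑ j ∈ Finset.Icc (-(N : ℤ)) N, ((j : ℝ) / N) * P.real {x | ⌊(N : ℝ) * F x⌋ = j})) := by
    refine tendsto_finsetSum _ fun j _ => ?_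
    refine Tendsto.const_mul _ ?_
    refine (hP E {x | ⌊(N : ℝ) * F x⌋ = j} ?_).2
    have hg : Measurable fun r : ℝ => ⌊(N : ℝ) * r⌋ := (measurable_id.const_mul (N : ℝ)).floor
    exact (hg.comp hF) (measurableSet_singleton j)
  rw [Metric.tendsto_nhds] at h2
  filter_upwards [h2 (ε / 3) (by positivity)] with n hn
  have h3 := step_approx H.lam (fun y => F (y, tval dg n y)) ⟨transfer_meas hP E F hF n,
    fun y => hb _⟩ N hN0
  rw [Real.dist_eq] at hn ⊢
  have e1 := abs_le.mp h1
  have e3 := abs_le.mp h3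
  have e2 := abs_lt.mp hn
  rw [abs_lt]
  constructor <;> linarith [e1.1, e1.2, e2.1, e2.2, e3.1, e3.2]

end
end SPHK.CIPA
namespace SPHK.CIPA
section

open scoped Classical in
/-- pattern of a point with respect to a family of sets -/
def pat {Y ι : Type} (S : ι → Set Y) (y : Y) : ι → Bool := fun i => decide (y ∈ S i)

theorem gen_eq_comap {Y ι : Type} (S : ι → Set Y) :
    MeasurableSpace.generateFrom (Set.range S) = MeasurableSpace.comap (pat S) inferInstance := by
  apply le_antisymm
  · apply MeasurableSpace.generateFrom_le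
    rintro _ ⟨i, rfl⟩
    refine ⟨{θ | θ i = true}, ?_, ?_⟩
    · exact (measurable_pi_apply (X := fun _ : ι => Bool) i) (measurableSet_singleton true)
    · ext y
      simp [pat]
  · rw [← measurable_iff_comap_le]
    letI : MeasurableSpace Y := MeasurableSpace.generateFrom (Set.range S)
    refine measurable_pi_lambda _ fun i => ?_
    refine measurable_to_bool ?_
    apply MeasurableSpace.measurableSet_generateFrom
    refine ⟨i, ?_⟩
    ext y
    simp [pat]

theorem measurable_pat {Y ι : Type} [MeasurableSpace Y] (S : ι → Set Y)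
    (hS : ∀ i, MeasurableSet (S i)) : Measurable (pat S) := by
  refine measurable_pi_lambda _ fun i => ?_
  refine measurable_to_bool ?_
  have : (fun y => pat S y i) ⁻¹' {true} = S i := by
    ext y
    simp [pat]
  rw [this]
  exact hS i

theorem cell_cond {Y : Type} [mY : MeasurableSpace Y] (μ : Measure Y) [IsProbabilityMeasure μ]
    {ι : Type} [Finite ι] (S : ι → Set Y) (hS : ∀ i, MeasurableSet (S i)) (A : Set Y)
    (hA : MeasurableSet A) (d : (ι → Bool) → ℝ)
    (hd : (fun y => d (pat S y)) =ᵐ[μ]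
      μ[A.indicator (fun _ => (1 : ℝ)) | MeasurableSpace.generateFrom (Set.range S)])
    (θ : ι → Bool) :
    d θ * μ.real {y | pat S y = θ} = μ.real (A ∩ {y | pat S y = θ}) := by
  have hm : MeasurableSpace.generateFrom (Set.range S) ≤ mY := by
    apply MeasurableSpace.generateFrom_le
    rintro _ ⟨i, rfl⟩
    exact hS i
  have hcell : MeasurableSet[MeasurableSpace.generateFrom (Set.range S)] {y | pat S y = θ} := by
    rw [gen_eq_comap]
    exact ⟨{θ}, measurableSet_singleton θ, rfl⟩
  have h1 := setIntegral_condExp (μ := μ) hm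
    (((integrable_const (1 : ℝ)).indicator hA)) hcell
  rw [setIntegral_indicator hA] at h1
  have h2 : ∫ x in {y | pat S y = θ}, (μ[A.indicator (fun _ => (1 : ℝ)) |
      MeasurableSpace.generateFrom (Set.range S)]) x ∂μ = ∫ x in {y | pat S y = θ}, d θ ∂μ := by
    refine setIntegral_congr_ae (hm _ hcell) ?_
    filter_upwards [hd] with y hy hyθ
    rw [← hy, hyθ]
  rw [h2] at h1
  simp only [integral_const, smul_eq_mul, mul_one, MeasurableSet.univ, measureReal_restrict_apply,
    Set.univ_inter] at h1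
  rw [mul_comm, h1, Set.inter_comm]

theorem cond_disc {Y : Type} [mY : MeasurableSpace Y] (μ : Measure Y) [IsProbabilityMeasure μ]
    {ι : Type} [Fintype ι] [DecidableEq ι] (S : ι → Set Y) (hS : ∀ i, MeasurableSet (S i))
    (A : Set Y) (hA : MeasurableSet A) (c : (ι → Bool) → ℝ) :
    ∫ y, |c (pat S y) - (μ[A.indicator (fun _ => (1 : ℝ)) |
      MeasurableSpace.generateFrom (Set.range S)]) y| ∂μ =
      ∑ θ, |c θ * μ.real {y | pat S y = θ} - μ.real (A ∩ {y | pat S y = θ})| := by
  have hsm : StronglyMeasurable[MeasurableSpace.comap (pat S) inferInstance]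
      (μ[A.indicator (fun _ => (1 : ℝ)) | MeasurableSpace.generateFrom (Set.range S)]) := by
    have h := stronglyMeasurable_condExp (μ := μ) (f := A.indicator (fun _ => (1 : ℝ)))
      (m := MeasurableSpace.generateFrom (Set.range S))
    rwa [gen_eq_comap] at h ⊢
  obtain ⟨d, -, hd⟩ := hsm.exists_eq_measurable_comp
  have hcell := cell_cond μ S hS A hA d (by rw [hd]; rfl)
  have h1 : ∫ y, |c (pat S y) - (μ[A.indicator (fun _ => (1 : ℝ)) |
      MeasurableSpace.generateFrom (Set.range S)]) y| ∂μ = ∫ y, |c (pat S y) - d (pat S y)| ∂μ := by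
    rw [hd]
    rfl
  have hmp := measurable_pat S hS
  have h2 : ∫ y, |c (pat S y) - d (pat S y)| ∂μ = ∫ θ, |c θ - d θ| ∂(μ.map (pat S)) := by
    rw [integral_map hmp.aemeasurable]
    exact (measurable_of_finite _).aestronglyMeasurable
  have : IsProbabilityMeasure (μ.map (pat S)) := Measure.isProbabilityMeasure_map hmp.aemeasurable
  rw [h1, h2, integral_fintype (Integrable.of_finite)]
  refine Finset.sum_congr rfl fun θ _ => ?_
  have h3 : (μ.map (pat S)).real {θ} = μ.real {y | pat S y = θ} := by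
    rw [measureReal_def, Measure.map_apply hmp (measurableSet_singleton θ)]
    rfl
  rw [h3, ← hcell θ, smul_eq_mul, ← sub_mul, abs_mul, abs_of_nonneg (measureReal_nonneg
    (μ := μ) (s := {y | pat S y = θ})), mul_comm]

variable {J : Type} [Fintype J] [DecidableEq J] {H : Host J}

theorem disc_transfer {D : Type} {dg : D → HDigit H} {U : Ultrafilter ℕ}
    {P : Measure ((J → H.Om) × (D → Bool))} [IsProbabilityMeasure P] (hP : Transfer dg U P)
    (E : Finset D) {ι : Type} [Fintype ι] [DecidableEq ι] (Q : ι → Set ((J → H.Om) × (D → Bool)))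
    (hQ : ∀ i, MeasurableSet[GF (fun x : (J → H.Om) × (D → Bool) => x.1) (fun δ => (dg δ).f)
          (fun δ x => x.2 δ) Finset.univ (Fintype.card J) E] (Q i)) (a : D) (ha : a ∈ E)
    (c : (ι → Bool) → ℝ)
    (hc : (fun x => c (pat Q x)) =ᵐ[P] P[{x : (J → H.Om) × (D → Bool) | x.2 a = true}.indicator
      (fun _ => (1 : ℝ)) | MeasurableSpace.generateFrom (Set.range Q)])
    (m : ℕ → MeasurableSpace (J → H.Om))
    (hm : ∀ n, m n = MeasurableSpace.generateFrom
      (Set.range fun i => {y : J → H.Om | (y, tval dg n y) ∈ Q i})) :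
    Tendsto (fun n => ∫ y, |c (pat Q (y, tval dg n y)) - (H.lam[((dg a).G n).indicator
      (fun _ => (1 : ℝ)) | m n]) y| ∂H.lam) (U : Filter ℕ) (𝓝 0) := by
  have hle := GF_le (J := J) (Ω := H.Om) (fun δ => (dg δ).f) Finset.univ (Fintype.card J) E
  have hta : MeasurableSet[GF (fun x : (J → H.Om) × (D → Bool) => x.1) (fun δ => (dg δ).f)
          (fun δ x => x.2 δ) Finset.univ (Fintype.card J) E]
      {x : (J → H.Om) × (D → Bool) | x.2 a = true} := by
    have h1 : MeasurableSpace.comap (fun x : (J → H.Om) × (D → Bool) => x.2 a) inferInstance ≤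
        GF (fun x : (J → H.Om) × (D → Bool) => x.1) (fun δ => (dg δ).f)
          (fun δ x => x.2 δ) Finset.univ (Fintype.card J) E := by
      refine le_sup_of_le_right ?_
      exact le_iSup_of_le a (le_iSup_of_le (show a ∈ {δ : D | δ ∈ E ∧ (dg δ).f ⊆ Finset.univ ∧
        (dg δ).f.card ≤ Fintype.card J} from
        ⟨ha, Finset.subset_univ _, Finset.card_le_univ _⟩) le_rfl)
    exact h1 _ ⟨{true}, measurableSet_singleton true, rfl⟩
  have hcell : ∀ θ : ι → Bool, MeasurableSet[GF (fun x : (J → H.Om) × (D → Bool) => x.1)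
      (fun δ => (dg δ).f) (fun δ x => x.2 δ) Finset.univ (Fintype.card J) E]
      {x | pat Q x = θ} := by
    intro θ
    have h1 : MeasurableSet[MeasurableSpace.generateFrom (Set.range Q)] {x | pat Q x = θ} := by
      rw [gen_eq_comap]
      exact ⟨{θ}, measurableSet_singleton θ, rfl⟩
    refine (MeasurableSpace.generateFrom_le ?_ : MeasurableSpace.generateFrom (Set.range Q) ≤ _) _ h1
    rintro _ ⟨i, rfl⟩
    exact hQ i
  have hGeq : ∀ n, (dg a).G n = {y : J → H.Om | (y, tval dg n y) ∈
      {x : (J → H.Om) × (D → Bool) | x.2 a = true}} := by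
    intro n
    ext y
    simp [tval]
  have h1 : ∀ n, ∫ y, |c (pat Q (y, tval dg n y)) - (H.lam[((dg a).G n).indicator
      (fun _ => (1 : ℝ)) | m n]) y| ∂H.lam =
      ∑ θ, |c θ * H.lam.real {y | (y, tval dg n y) ∈ {x | pat Q x = θ}} -
        H.lam.real {y | (y, tval dg n y) ∈ {x : (J → H.Om) × (D → Bool) | x.2 a = true} ∩
          {x | pat Q x = θ}}| := by
    intro n
    rw [hm n]
    have h2 := cond_disc H.lam (fun i => {y : J → H.Om | (y, tval dg n y) ∈ Q i})
      (fun i => (hP E _ (hQ i)).1 n) ((dg a).G n) ((dg a).meas n) c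
    refine Eq.trans h2 ?_
    refine Finset.sum_congr rfl fun θ _ => ?_
    rw [hGeq n]
    rfl
  simp_rw [h1]
  have h3 : ∀ θ : ι → Bool, c θ * P.real {x | pat Q x = θ} =
      P.real ({x : (J → H.Om) × (D → Bool) | x.2 a = true} ∩ {x | pat Q x = θ}) :=
    cell_cond P Q (fun i => hle _ (hQ i)) _ (hle _ hta) c hc
  have h4 : (0 : ℝ) = ∑ θ : ι → Bool, |c θ * P.real {x | pat Q x = θ} -
      P.real ({x : (J → H.Om) × (D → Bool) | x.2 a = true} ∩ {x | pat Q x = θ})| := by
    symm
    refine Finset.sum_eq_zero fun θ _ => ?_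
    rw [h3 θ, sub_self, abs_zero]
  rw [h4]
  refine tendsto_finsetSum _ fun θ _ => ?_
  refine Tendsto.abs ?_
  refine Tendsto.sub (Tendsto.const_mul _ ((hP E _ (hcell θ)).2)) ?_
  exact (hP E _ (@MeasurableSet.inter _ (_) _ _ hta (hcell θ))).2

end
end SPHK.CIPA
namespace SPHK.CIPA
section

variable {J : Type} [Fintype J] [DecidableEq J] {H : Host J}

theorem GF_mono {D : Type} {Ω : Type} [MeasurableSpace Ω] (f : D → Finset J) (e : Finset J) (s : ℕ)
    {E E' : Finset D} (h : E ⊆ E') :
    GF (fun x : (J → Ω) × (D → Bool) => x.1) f (fun δ x => x.2 δ) e s E ≤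
      GF (fun x : (J → Ω) × (D → Bool) => x.1) f (fun δ x => x.2 δ) e s E' := by
  refine sup_le_sup le_rfl ?_
  refine iSup_le fun v => iSup_le fun hv => ?_
  exact le_iSup_of_le v (le_iSup_of_le (show v ∈ {δ : D | δ ∈ E' ∧ f δ ⊆ e ∧ (f δ).card ≤ s} from
    ⟨h hv.1, hv.2.1, hv.2.2⟩) le_rfl)

theorem GF_digit {D : Type} {Ω : Type} [MeasurableSpace Ω] (f : D → Finset J) (E : Finset D)
    (a : D) (ha : a ∈ E) :
    MeasurableSet[GF (fun x : (J → Ω) × (D → Bool) => x.1) f (fun δ x => x.2 δ) Finset.univ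
      (Fintype.card J) E] {x : (J → Ω) × (D → Bool) | x.2 a = true} := by
  have h1 : MeasurableSpace.comap (fun x : (J → Ω) × (D → Bool) => x.2 a) inferInstance ≤
      GF (fun x : (J → Ω) × (D → Bool) => x.1) f (fun δ x => x.2 δ) Finset.univ
        (Fintype.card J) E := by
    refine le_sup_of_le_right ?_
    exact le_iSup_of_le a (le_iSup_of_le (show a ∈ {δ : D | δ ∈ E ∧ f δ ⊆ Finset.univ ∧
      (f δ).card ≤ Fintype.card J} from
      ⟨ha, Finset.subset_univ _, Finset.card_le_univ _⟩) le_rfl)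
  exact h1 _ ⟨{true}, measurableSet_singleton true, rfl⟩

theorem GF_coord {D : Type} {Ω : Type} [MeasurableSpace Ω] (f : D → Finset J) (E : Finset D)
    (v : J) (R : Set Ω) (hR : MeasurableSet R) :
    MeasurableSet[GF (fun x : (J → Ω) × (D → Bool) => x.1) f (fun δ x => x.2 δ) Finset.univ
      (Fintype.card J) E] {x : (J → Ω) × (D → Bool) | x.1 v ∈ R} := by
  have h1 : MeasurableSpace.comap (fun x : (J → Ω) × (D → Bool) => x.1 v) inferInstance ≤
      GF (fun x : (J → Ω) × (D → Bool) => x.1) f (fun δ x => x.2 δ) Finset.univ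
        (Fintype.card J) E := by
    refine le_sup_of_le_left ?_
    exact le_iSup_of_le v (le_iSup_of_le (Finset.mem_univ v) le_rfl)
  exact h1 _ ⟨R, hR, rfl⟩

/-- a basic set -/
def basic {D Ω : Type} (R : J → Set Ω) (E : Finset D) : Set ((J → Ω) × (D → Bool)) :=
  {x | (∀ v, x.1 v ∈ R v) ∧ ∀ δ ∈ E, x.2 δ = true}

theorem basic_meas {X : Type} [MeasurableSpace X] {D Ω : Type} (y : X → J → Ω) (t : D → X → Bool)
    (R : J → Set Ω) (E : Finset D) (h1 : ∀ v, MeasurableSet {x | y x v ∈ R v})
    (h2 : ∀ δ ∈ E, MeasurableSet {x | t δ x = true}) :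
    MeasurableSet {x | (∀ v, y x v ∈ R v) ∧ ∀ δ ∈ E, t δ x = true} := by
  have : {x | (∀ v, y x v ∈ R v) ∧ ∀ δ ∈ E, t δ x = true} =
    (⋂ v, {x | y x v ∈ R v}) ∩ ⋂ δ ∈ E, {x | t δ x = true} := by
    ext x
    simp
  rw [this]
  exact (MeasurableSet.iInter h1).inter (Finset.measurableSet_biInter _ h2)

theorem F_meas {X : Type} [MeasurableSpace X] (S T : Set X) (hS : MeasurableSet S)
    (hT : MeasurableSet T) (aE : X → ℝ) (ha : Measurable aE) :
    Measurable (S.indicator fun x => T.indicator (fun _ => (1 : ℝ)) x - aE x) :=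
  (((measurable_const.indicator hT)).sub ha).indicator hS

theorem diff_abs {T : Prop} [Decidable T] (a : ℝ) (h0 : 0 ≤ a) (h1 : a ≤ 1) :
    |(if T then (1 : ℝ) else 0) - a| ≤ 1 := by
  split_ifs
  · rw [abs_le]; constructor <;> linarith
  · rw [abs_le]; constructor <;> linarith

theorem ind_sub_abs {X : Type} (T : Set X) (a : X → ℝ) (h0 : ∀ x, 0 ≤ a x) (h1 : ∀ x, a x ≤ 1)
    (x : X) : |T.indicator (fun _ => (1 : ℝ)) x - a x| ≤ 1 := by
  have := h0 x
  have := h1 x
  by_cases hx : x ∈ T
  · rw [Set.indicator_of_mem hx, abs_le]; constructor <;> linarith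
  · rw [Set.indicator_of_notMem hx, abs_le]; constructor <;> linarith

/-- extension of a point on f0 -/
def ext0 {O : Type} [Nonempty O] (f0 : Finset J) (z : f0 ⊕ Empty → O) (j : J) : O :=
  if h : j ∈ f0 then z (Sum.inl ⟨j, h⟩) else Classical.arbitrary O

omit [Fintype J] in
theorem ext0_rho {O : Type} [Nonempty O] (f0 : Finset J) (y : J → O) (j : J) (hj : j ∈ f0) :
    ext0 f0 (rho f0 y) j = y j := by
  simp [ext0, hj, rho]

omit [Fintype J] in
theorem measurable_ext0 {O : Type} [Nonempty O] [MeasurableSpace O] (f0 : Finset J) :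
    Measurable (ext0 (O := O) f0) := by
  refine measurable_pi_lambda _ fun j => ?_
  by_cases h : j ∈ f0
  · simp only [ext0, h, dite_true]
    exact measurable_pi_apply _
  · simp only [ext0, h, dite_false]
    exact measurable_const

theorem ind_abs {X : Type} (T : Set X) (x : X) : |T.indicator (fun _ => (1 : ℝ)) x| ≤ 1 := by
  by_cases hx : x ∈ T
  · simp [hx]
  · simp [hx]

theorem prod_abs {ι : Type} (s : Finset ι) (u : ι → ℝ) (h : ∀ i ∈ s, |u i| ≤ 1) :
    |∏ i ∈ s, u i| ≤ 1 := by
  rw [Finset.abs_prod]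
  exact Finset.prod_le_one (fun i _ => abs_nonneg _) h

theorem inter_ind {X : Type} (S T : Set X) (x : X) :
    (S ∩ T).indicator (fun _ => (1 : ℝ)) x =
      S.indicator (fun _ => (1 : ℝ)) x * T.indicator (fun _ => (1 : ℝ)) x := by
  by_cases h1 : x ∈ S
  · by_cases h2 : x ∈ T
    · simp [h1, h2]
    · simp [h1, h2]
  · simp [h1]

omit [DecidableEq J] in
theorem basic_ind {D O : Type} (R : J → Set O) (E : Finset D) (g : (J → O) × (D → Bool) → ℝ)
    (x : (J → O) × (D → Bool)) :
    (basic R E).indicator g x = g x * ((∏ v, (R v).indicator (fun _ => (1 : ℝ)) (x.1 v)) *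
      ∏ δ ∈ E, {x : (J → O) × (D → Bool) | x.2 δ = true}.indicator (fun _ => (1 : ℝ)) x) := by
  by_cases hx : x ∈ basic R E
  · rw [Set.indicator_of_mem hx, Finset.prod_eq_one, Finset.prod_eq_one]
    · ring
    · intro δ hδ
      rw [Set.indicator_of_mem]
      exact hx.2 δ hδ
    · intro v _
      rw [Set.indicator_of_mem (hx.1 v)]
  · rw [Set.indicator_of_notMem hx]
    simp only [basic, Set.mem_setOf_eq, not_and_or, not_forall] at hx
    rcases hx with ⟨v, hv⟩ | ⟨δ, hδ, h⟩
    · rw [Finset.prod_eq_zero (Finset.mem_univ v)]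
      · ring
      · rw [Set.indicator_of_notMem hv]
    · rw [Finset.prod_eq_zero (s := E) hδ]
      · ring
      · rw [Set.indicator_of_notMem]
        exact h

theorem mul_abs_le {a b : ℝ} (ha : |a| ≤ 1) (hb : |b| ≤ 1) : |a * b| ≤ 1 := by
  rw [abs_mul]
  exact mul_le_one₀ ha (abs_nonneg _) hb

theorem main_small {D : Type} {dg : D → HDigit H} {U : Ultrafilter ℕ}
    {P : Measure ((J → H.Om) × (D → Bool))} [IsProbabilityMeasure P] (hP : Transfer dg U P)
    (a : D) (f0 : Finset J) (hf0 : (dg a).f = f0)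
    (hRM : H.RM (A := f0) (Z := Empty) (fun v => v.1) Empty.elim)
    (ε : ℝ) (hε : 0 < ε) :
    ∃ δ' : ℝ, 0 < δ' ∧ ∀ (R : J → Set H.Om), (∀ v, MeasurableSet (R v)) → ∀ E : Finset D,
      (∀ δ ∈ E, (dg δ).f.card ≤ f0.card ∧ (dg δ).f ≠ f0) →
      ∀ (E1 : Finset D) (aE : (J → H.Om) × (D → Bool) → ℝ),
      Measurable[GF (fun x : (J → H.Om) × (D → Bool) => x.1) (fun δ => (dg δ).f)
          (fun δ x => x.2 δ) Finset.univ (Fintype.card J) E1] aE →
      (∀ x, 0 ≤ aE x) → (∀ x, aE x ≤ 1) →
      (∀ n, DependsOn (fun y => aE (y, tval dg n y)) (f0 : Set J)) →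
      (∀ R' : J → Set H.Om, (∀ v, MeasurableSet (R' v)) → ∀ᶠ n in (U : Filter ℕ),
        ∀ r : J → (J → H.Om) → ℝ, (∀ v, Bdd (r v)) →
        (∀ v, DependsOn (r v) ((f0.erase v : Finset J) : Set J)) →
        |∫ y, (((dg a).G n).indicator (fun _ => (1 : ℝ)) y - aE (y, tval dg n y)) *
          (∏ v ∈ f0, (R' v).indicator (fun _ => (1 : ℝ)) (y v)) *
          ∏ v ∈ f0, r v y ∂H.lam| < δ') →
      |∫ x, (basic R E).indicator (fun x =>
        {x : (J → H.Om) × (D → Bool) | x.2 a = true}.indicator (fun _ => (1 : ℝ)) x - aE x) x ∂P|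
        ≤ ε := by
  classical
  obtain ⟨δ', hδ', N, Rt, hRt, hRM'⟩ := hRM (ε ^ (2 ^ f0.card)) (by positivity)
  refine ⟨δ', hδ', ?_⟩
  intro R hR E hE E1 aE haE ha0 ha1 hdep hsmall
  -- stage n
  have hstage : ∀ᶠ n in (U : Filter ℕ), |∫ y, (basic R E).indicator (fun x =>
        {x : (J → H.Om) × (D → Bool) | x.2 a = true}.indicator (fun _ => (1 : ℝ)) x - aE x)
        (y, tval dg n y) ∂H.lam| ≤ ε := by
    have hall : ∀ᶠ n in (U : Filter ℕ), ∀ t : Fin N, ∀ r : J → (J → H.Om) → ℝ, (∀ v, Bdd (r v)) →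
        (∀ v, DependsOn (r v) ((f0.erase v : Finset J) : Set J)) →
        |∫ y, (((dg a).G n).indicator (fun _ => (1 : ℝ)) y - aE (y, tval dg n y)) *
          (∏ v ∈ f0, (R v ∩ (if h : v ∈ f0 then Rt t ⟨v, h⟩ else Set.univ)).indicator
            (fun _ => (1 : ℝ)) (y v)) *
          ∏ v ∈ f0, r v y ∂H.lam| < δ' := by
      rw [Filter.eventually_all]
      intro t
      apply hsmall (fun v => (R v ∩ (if h : v ∈ f0 then Rt t ⟨v, h⟩ else Set.univ)))
      intro v
      refine (hR v).inter ?_
      split_ifs with h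
      · exact hRt t _
      · exact MeasurableSet.univ
    filter_upwards [hall] with n hn
    have hmaE : Measurable fun y => aE (y, tval dg n y) := transfer_meas hP E1 aE haE n
    have hmR : ∀ v, Measurable fun y : J → H.Om => (R v).indicator (fun _ => (1 : ℝ)) (y v) :=
      fun v => (measurable_const.indicator (hR v)).comp (measurable_pi_apply v)
    -- the target function
    let h0 : (J → H.Om) → ℝ := fun y => (((dg a).G n).indicator (fun _ => (1 : ℝ)) y -
      aE (y, tval dg n y)) * ∏ v ∈ f0, (R v).indicator (fun _ => (1 : ℝ)) (y v)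
    have hh0 : Bdd h0 := by
      refine ⟨?_, ?_⟩
      · refine Measurable.mul ((measurable_const.indicator ((dg a).meas n)).sub hmaE) ?_
        exact Finset.measurable_prod _ fun v _ => hmR v
      · intro y
        refine mul_abs_le (ind_sub_abs ((dg a).G n) (fun y => aE (y, tval dg n y))
          (fun y => ha0 _) (fun y => ha1 _) y) ?_
        exact prod_abs _ _ fun v _ => ind_abs _ _
    have hh0dep : ∀ y y' : J → H.Om, (∀ j ∈ f0, y j = y' j) → h0 y = h0 y' := by
      intro y y' hyy
      have e1 : ((dg a).G n).indicator (fun _ => (1 : ℝ)) y =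
          ((dg a).G n).indicator (fun _ => (1 : ℝ)) y' := by
        have := (dg a).dep n (x := y) (y := y') (fun j hj => hyy j (by
          rw [← hf0]; exact hj))
        simp only [eq_iff_iff] at this
        by_cases hy : y ∈ (dg a).G n
        · rw [Set.indicator_of_mem hy, Set.indicator_of_mem (this.mp hy)]
        · rw [Set.indicator_of_notMem hy, Set.indicator_of_notMem (fun h => hy (this.mpr h))]
      have e2 : aE (y, tval dg n y) = aE (y', tval dg n y') :=
        hdep n (x := y) (y := y') (fun j hj => hyy j hj)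
      have e3 : ∏ v ∈ f0, (R v).indicator (fun _ => (1 : ℝ)) (y v) =
          ∏ v ∈ f0, (R v).indicator (fun _ => (1 : ℝ)) (y' v) :=
        Finset.prod_congr rfl fun v hv => by rw [hyy v hv]
      show (_ - _) * _ = (_ - _) * _
      rw [e1, e2, e3]
    let h' : (f0 ⊕ Empty → H.Om) → ℝ := fun z => h0 (ext0 f0 z)
    have hh' : Bdd h' := ⟨hh0.1.comp (measurable_ext0 f0), fun z => hh0.2 _⟩
    have hh'rho : ∀ y, h' (rho f0 y) = h0 y := fun y =>
      hh0dep _ _ fun j hj => ext0_rho f0 y j hj
    -- the box is small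
    have hbox : H.box (fun v : f0 => v.1) Empty.elim h' < ε ^ (2 ^ f0.card) := by
      by_contra hcon
      push Not at hcon
      obtain ⟨t, r, hr, hrd, hrb⟩ := hRM' h' hh' hcon
      rw [← lam_map_rho, integral_map (measurable_rho f0).aemeasurable] at hrb
      · have h5 := hn t (fun v y => if h : v ∈ f0 then r ⟨v, h⟩ (rho f0 y) else 1)
          (by
            intro v
            by_cases h : v ∈ f0
            · simp only [h, dite_true]
              exact ⟨(hr _).1.comp (measurable_rho f0), fun y => (hr _).2 _⟩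
            · simp only [h, dite_false]
              exact ⟨measurable_const, fun y => by simp⟩)
          (by
            intro v y y' hyy
            by_cases h : v ∈ f0
            · simp only [h, dite_true]
              apply hrd ⟨v, h⟩
              intro i hi
              rcases i with j | e
              · have hj : j.1 ≠ v := by
                  intro hjv
                  apply hi
                  rw [Sum.inl.injEq]
                  exact Subtype.ext hjv
                simp only [rho, Sum.elim_inl]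
                apply hyy
                simp [hj]
              · exact e.elim
            · simp only [h, dite_false])
        refine absurd h5 (not_lt.mpr (le_trans hrb (le_of_eq ?_)))
        congr 1
        refine integral_congr_ae (Filter.Eventually.of_forall fun y => ?_)
        have e1 : ∏ v ∈ f0, (R v ∩ (if h : v ∈ f0 then Rt t ⟨v, h⟩ else Set.univ)).indicator
            (fun _ => (1 : ℝ)) (y v) = (∏ v ∈ f0, (R v).indicator (fun _ => (1 : ℝ)) (y v)) *
            ∏ v : f0, (Rt t v).indicator (fun _ => (1 : ℝ)) (y v.1) := by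
          rw [← Finset.prod_coe_sort f0 (fun v => (R v).indicator (fun _ => (1 : ℝ)) (y v)),
            ← Finset.prod_mul_distrib, ← Finset.prod_coe_sort]
          refine Finset.prod_congr rfl fun v _ => ?_
          simp only [v.2, dite_true]
          rw [inter_ind]
        have e2 : (∏ v ∈ f0, (if h : v ∈ f0 then r ⟨v, h⟩ (rho f0 y) else 1)) =
            ∏ v : f0, r v (rho f0 y) := by
          rw [← Finset.prod_coe_sort]
          refine Finset.prod_congr rfl fun v _ => ?_
          simp only [v.2, dite_true]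
        beta_reduce
        rw [e1, e2, hh'rho]
        simp only [rho, Sum.elim_inl, h0]
        ring
      · refine Measurable.aestronglyMeasurable ?_
        refine Measurable.mul (Measurable.mul hh'.1 ?_) ?_
        · exact Finset.measurable_prod _ fun v _ =>
            (measurable_const.indicator (hRt t v)).comp (measurable_pi_apply _)
        · exact Finset.measurable_prod _ fun v _ => (hr v).1
    -- the other factors
    have hne : f0.Nonempty := by rw [← hf0]; exact (dg a).nef
    obtain ⟨a0, ha0m⟩ := hne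
    have hv : ∀ δ : D, ∃ v ∈ f0, (δ ∈ E → v ∉ (dg δ).f) := by
      intro δ
      by_cases hδ : δ ∈ E
      · obtain ⟨h1, h2⟩ := hE δ hδ
        by_contra hcon
        push Not at hcon
        apply h2
        have hsub : f0 ⊆ (dg δ).f := fun v hv => (hcon v hv).2
        exact (Finset.eq_of_subset_of_card_le hsub h1).symm
      · exact ⟨a0, ha0m, fun h => absurd h hδ⟩
    choose vd hvd hvd2 using hv
    let g : J → (J → H.Om) → ℝ := fun b y =>
      (if b = a0 then ∏ v ∈ Finset.univ \ f0, (R v).indicator (fun _ => (1 : ℝ)) (y v) else 1) *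
        ∏ δ ∈ E.filter (fun δ => vd δ = b), ((dg δ).G n).indicator (fun _ => (1 : ℝ)) y
    have hg : ∀ b, Bdd (g b) := by
      intro b
      refine ⟨?_, ?_⟩
      · refine Measurable.mul ?_ ?_
        · split_ifs
          · exact Finset.measurable_prod _ fun v _ => hmR v
          · exact measurable_const
        · exact Finset.measurable_prod _ fun δ _ => measurable_const.indicator ((dg δ).meas n)
      · intro y
        refine mul_abs_le ?_ (prod_abs _ _ fun δ _ => ind_abs _ _)
        split_ifs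
        · exact prod_abs _ _ fun v _ => ind_abs _ _
        · simp
    have hgd : ∀ b ∈ f0, DependsOn (g b) {i | i ≠ b} := by
      intro b hb y y' hyy
      have e1 : ∏ v ∈ Finset.univ \ f0, (R v).indicator (fun _ => (1 : ℝ)) (y v) =
          ∏ v ∈ Finset.univ \ f0, (R v).indicator (fun _ => (1 : ℝ)) (y' v) := by
        refine Finset.prod_congr rfl fun v hv => ?_
        rw [hyy v]
        intro hvb
        rw [hvb] at hv
        exact (Finset.mem_sdiff.mp hv).2 hb
      have e2 : ∏ δ ∈ E.filter (fun δ => vd δ = b),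
          ((dg δ).G n).indicator (fun _ => (1 : ℝ)) y =
          ∏ δ ∈ E.filter (fun δ => vd δ = b), ((dg δ).G n).indicator (fun _ => (1 : ℝ)) y' := by
        refine Finset.prod_congr rfl fun δ hδ => ?_
        rw [Finset.mem_filter] at hδ
        have := (dg δ).dep n (x := y) (y := y') (fun j hj => hyy j (by
          intro hjb
          apply hvd2 δ hδ.1
          rw [hδ.2, ← hjb]
          exact hj))
        simp only [eq_iff_iff] at this
        by_cases hy : y ∈ (dg δ).G n
        · rw [Set.indicator_of_mem hy, Set.indicator_of_mem (this.mp hy)]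
        · rw [Set.indicator_of_notMem hy, Set.indicator_of_notMem (fun h => hy (this.mpr h))]
      show _ * _ = _ * _
      rw [e1, e2]
    have hgvn := gvnJ H f0 ⟨a0, ha0m⟩ h' hh' g hg hgd
    have hlt := lt_of_le_of_lt hgvn hbox
    have hlt2 : |∫ y, h' (rho f0 y) * ∏ b ∈ f0, g b y ∂H.lam| < ε :=
      lt_of_pow_lt_pow_left₀ _ hε.le hlt
    refine le_of_lt (lt_of_le_of_lt (le_of_eq ?_) hlt2)
    congr 1
    refine integral_congr_ae (Filter.Eventually.of_forall fun y => ?_)
    beta_reduce
    rw [basic_ind, hh'rho]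
    have e1 : ∏ b ∈ f0, g b y = (∏ v ∈ Finset.univ \ f0, (R v).indicator (fun _ => (1 : ℝ)) (y v)) *
        ∏ δ ∈ E, ((dg δ).G n).indicator (fun _ => (1 : ℝ)) y := by
      simp only [g]
      rw [Finset.prod_mul_distrib, Finset.prod_ite_eq' f0 a0, if_pos ha0m]
      congr 1
      exact Finset.prod_fiberwise_of_maps_to (fun δ _ => hvd δ) _
    have e2 : ∏ δ ∈ E, {x : (J → H.Om) × (D → Bool) | x.2 δ = true}.indicator
        (fun _ => (1 : ℝ)) (y, tval dg n y) =
        ∏ δ ∈ E, ((dg δ).G n).indicator (fun _ => (1 : ℝ)) y := by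
      refine Finset.prod_congr rfl fun δ _ => ?_
      simp [Set.indicator, tval]
    have e3 : ({x : (J → H.Om) × (D → Bool) | x.2 a = true}.indicator
        (fun _ => (1 : ℝ)) (y, tval dg n y)) = ((dg a).G n).indicator (fun _ => (1 : ℝ)) y := by
      simp [Set.indicator, tval]
    have e4 : ∏ v, (R v).indicator (fun _ => (1 : ℝ)) (y v) =
        (∏ v ∈ Finset.univ \ f0, (R v).indicator (fun _ => (1 : ℝ)) (y v)) *
        ∏ v ∈ f0, (R v).indicator (fun _ => (1 : ℝ)) (y v) :=
      (Finset.prod_sdiff (Finset.subset_univ f0)).symm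
    rw [e1, e2, e3]
    simp only [h0]
    rw [e4]
    ring
  have hm0 : ∀ (S T : Set ((J → H.Om) × (D → Bool))) (m : MeasurableSpace ((J → H.Om) × (D → Bool))),
      MeasurableSet[m] S → MeasurableSet[m] T → ∀ a : (J → H.Om) × (D → Bool) → ℝ, Measurable[m] a →
      Measurable[m] (S.indicator fun x => T.indicator (fun _ => (1 : ℝ)) x - a x) := by
    intro S T m hS hT a ha
    exact @F_meas _ m S T hS hT a ha
  have htr := transfer_fun hP ({a} ∪ E ∪ E1) ((basic R E).indicator (fun x =>
        {x : (J → H.Om) × (D → Bool) | x.2 a = true}.indicator (fun _ => (1 : ℝ)) x - aE x))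
    (by
      apply hm0
      · exact @basic_meas J _ _ ((J → H.Om) × (D → Bool)) (_) D H.Om
          (fun x : (J → H.Om) × (D → Bool) => x.1)
          (fun δ (x : (J → H.Om) × (D → Bool)) => x.2 δ) R E
          (fun v => GF_coord _ _ v _ (hR v))
          (fun δ hδ => GF_digit _ _ δ (by
            rw [Finset.mem_union, Finset.mem_union]; exact Or.inl (Or.inr hδ)))
      · exact GF_digit _ _ a (by simp)
      · exact haE.mono (GF_mono _ _ _ (by
          intro δ hδ
          simp [hδ])) le_rfl)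
    (by
      intro x
      by_cases hx : x ∈ basic R E
      · rw [Set.indicator_of_mem hx]
        exact ind_sub_abs _ _ ha0 ha1 x
      · rw [Set.indicator_of_notMem hx]
        simp)
  exact le_of_tendsto htr.abs hstage

end
end SPHK.CIPA
namespace SPHK.CIPA
section

theorem cond_ind_nonneg {Y : Type} [mY : MeasurableSpace Y] (μ : Measure Y) [IsProbabilityMeasure μ]
    (A : Set Y) (m : MeasurableSpace Y) : ∀ᵐ y ∂μ, 0 ≤ (μ[A.indicator (fun _ => (1 : ℝ)) | m]) y :=
  condExp_nonneg (Filter.Eventually.of_forall fun y => Set.indicator_nonneg (fun _ _ => zero_le_one) y)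

theorem cond_ind_le_one {Y : Type} [mY : MeasurableSpace Y] (μ : Measure Y) [IsProbabilityMeasure μ]
    (A : Set Y) (hA : MeasurableSet A) (m : MeasurableSpace Y) (hm : m ≤ mY) :
    ∀ᵐ y ∂μ, (μ[A.indicator (fun _ => (1 : ℝ)) | m]) y ≤ 1 := by
  have h := condExp_mono (μ := μ) (m := m) ((integrable_const (1 : ℝ)).indicator hA)
    (integrable_const (1 : ℝ)) (Filter.Eventually.of_forall fun y =>
      Set.indicator_le_self' (f := fun _ => (1 : ℝ)) (fun _ _ => zero_le_one) y)
  rw [condExp_const hm] at h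
  exact h

/-- truncation to [0,1] -/
def clip (r : ℝ) : ℝ := max 0 (min 1 r)

theorem clip_nonneg (r : ℝ) : 0 ≤ clip r := le_max_left _ _

theorem clip_le_one (r : ℝ) : clip r ≤ 1 := max_le zero_le_one (min_le_left _ _)

theorem clip_eq {r : ℝ} (h0 : 0 ≤ r) (h1 : r ≤ 1) : clip r = r := by
  unfold clip
  rw [min_eq_right h1, max_eq_right h0]

theorem measurable_clip : Measurable clip := by
  unfold clip
  fun_prop

theorem cond_sq_mono {Y : Type} (m1 m2 : MeasurableSpace Y) [mY : MeasurableSpace Y]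
    (μ : Measure Y) [IsProbabilityMeasure μ] (A : Set Y) (hA : MeasurableSet A) (h12 : m1 ≤ m2) (h2 : m2 ≤ mY) :
    ∫ y, ((μ[A.indicator (fun _ => (1 : ℝ)) | m1]) y) ^ 2 ∂μ ≤
      ∫ y, ((μ[A.indicator (fun _ => (1 : ℝ)) | m2]) y) ^ 2 ∂μ := by
  set f := A.indicator (fun _ => (1 : ℝ)) with hf
  set g1 := μ[f | m1] with hg1
  set g2 := μ[f | m2] with hg2
  have hi : Integrable f μ := (integrable_const (1 : ℝ)).indicator hA
  have i1 : Integrable g1 μ := integrable_condExp
  have i2 : Integrable g2 μ := integrable_condExp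
  have b1 : ∀ᵐ y ∂μ, ‖g1 y‖ ≤ 1 := by
    filter_upwards [cond_ind_nonneg μ A m1, cond_ind_le_one μ A hA m1 (h12.trans h2)] with y e1 e2
    rw [Real.norm_eq_abs, abs_of_nonneg e1]
    exact e2
  have b2 : ∀ᵐ y ∂μ, ‖g2 y‖ ≤ 1 := by
    filter_upwards [cond_ind_nonneg μ A m2, cond_ind_le_one μ A hA m2 h2] with y e1 e2
    rw [Real.norm_eq_abs, abs_of_nonneg e1]
    exact e2
  have i11 : Integrable (fun y => g1 y * g1 y) μ := i1.bdd_mul i1.aestronglyMeasurable b1
  have i12 : Integrable (fun y => g1 y * g2 y) μ := i2.bdd_mul i1.aestronglyMeasurable b1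
  have i22 : Integrable (fun y => g2 y * g2 y) μ := i2.bdd_mul i2.aestronglyMeasurable b2
  have key : ∫ y, g1 y * g2 y ∂μ = ∫ y, g1 y * g1 y ∂μ := by
    have e1 : μ[g1 * g2 | m1] =ᵐ[μ] g1 * μ[g2 | m1] :=
      condExp_mul_of_stronglyMeasurable_left stronglyMeasurable_condExp i12 i2
    have e2 : μ[g2 | m1] =ᵐ[μ] g1 := condExp_condExp_of_le h12 h2
    have e3 : ∫ y, (μ[g1 * g2 | m1]) y ∂μ = ∫ y, (g1 * g2) y ∂μ := integral_condExp (h12.trans h2)
    calc ∫ y, g1 y * g2 y ∂μ = ∫ y, (μ[g1 * g2 | m1]) y ∂μ := e3.symm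
      _ = ∫ y, g1 y * g1 y ∂μ := by
        refine integral_congr_ae ?_
        filter_upwards [e1, e2] with y h1 h2
        rw [h1, Pi.mul_apply, h2]
  have hpos : 0 ≤ ∫ y, (g2 y - g1 y) ^ 2 ∂μ := integral_nonneg fun y => sq_nonneg _
  have hexp : ∫ y, (g2 y - g1 y) ^ 2 ∂μ = ∫ y, g2 y * g2 y ∂μ - 2 * ∫ y, g1 y * g2 y ∂μ +
      ∫ y, g1 y * g1 y ∂μ := by
    have : ∀ y, (g2 y - g1 y) ^ 2 = g2 y * g2 y - 2 * (g1 y * g2 y) + g1 y * g1 y := fun y => by ring
    simp_rw [this]
    have j1 : Integrable (fun y => g2 y * g2 y - 2 * (g1 y * g2 y)) μ := i22.sub (i12.const_mul 2)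
    rw [integral_add j1 i11, integral_sub i22 (i12.const_mul 2), integral_const_mul]
  rw [key] at hexp
  have s1 : ∫ y, (g1 y) ^ 2 ∂μ = ∫ y, g1 y * g1 y ∂μ := by simp_rw [sq]
  have s2 : ∫ y, (g2 y) ^ 2 ∂μ = ∫ y, g2 y * g2 y ∂μ := by simp_rw [sq]
  rw [s1, s2]
  linarith

variable {J : Type} [Fintype J] [DecidableEq J] {H : Host J}

theorem algn_le (E : Finset (HDigit H)) (n : ℕ) :
    algn E n ≤ (inferInstance : MeasurableSpace (J → H.Om)) := by
  apply MeasurableSpace.generateFrom_le
  rintro _ ⟨d, -, rfl⟩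
  exact d.meas n

theorem energyn_mono (A : HDigit H) (E E' : Finset (HDigit H)) (h : E ⊆ E') (n : ℕ) :
    energyn A E n ≤ energyn A E' n := by
  refine cond_sq_mono _ _ H.lam (A.G n) (A.meas n) ?_ (algn_le E' n)
  apply MeasurableSpace.generateFrom_mono
  rintro _ ⟨d, hd, rfl⟩
  exact ⟨d, h hd, rfl⟩

theorem SY_factor {D : Type} {Ω : Type} [MeasurableSpace Ω] (e : Finset J)
    (g : (J → Ω) × (D → Bool) → ℝ)
    (hg : Measurable[SY (fun x : (J → Ω) × (D → Bool) => x.1) e] g)
    (x x' : (J → Ω) × (D → Bool)) (h : ∀ v ∈ e, x.1 v = x'.1 v) : g x = g x' := by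
  have hle : SY (fun x : (J → Ω) × (D → Bool) => x.1) e ≤
      MeasurableSpace.comap (fun (x : (J → Ω) × (D → Bool)) (v : e) => x.1 v.1) inferInstance := by
    refine iSup_le fun v => iSup_le fun hv => ?_
    rintro _ ⟨S, hS, rfl⟩
    exact ⟨{z : e → Ω | z ⟨v, hv⟩ ∈ S}, (measurable_pi_apply (X := fun _ : e => Ω) ⟨v, hv⟩) hS, rfl⟩
  have h1 := (hg.mono hle le_rfl).factorsThrough
  apply h1
  funext v
  exact h v.1 v.2

end
end SPHK.CIPA
namespace SPHK.CIPA
section

variable {J : Type} [Fintype J] [DecidableEq J] {H : Host J}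

/-- the sigma algebra G(f0,s) of a family of digits -/
abbrev MG {D : Type} (dg : D → HDigit H) (f0 : Finset J) (s : ℕ) :
    MeasurableSpace ((J → H.Om) × (D → Bool)) :=
  GG (fun x : (J → H.Om) × (D → Bool) => x.1) (fun δ => (dg δ).f) (fun δ x => x.2 δ) f0 s

/-- the indicator of a digit -/
abbrev tA (H : Host J) (D : Type) (a : D) : (J → H.Om) × (D → Bool) → ℝ :=
  {x : (J → H.Om) × (D → Bool) | x.2 a = true}.indicator (fun _ => (1 : ℝ))

theorem clip_ae {Y : Type} (m0 : MeasurableSpace Y) [mY : MeasurableSpace Y] (μ : Measure Y)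
    [IsProbabilityMeasure μ] (A : Set Y) (hA : MeasurableSet A) (hm : m0 ≤ mY) :
    (fun y => clip ((μ[A.indicator (fun _ => (1 : ℝ)) | m0]) y)) =ᵐ[μ]
      μ[A.indicator (fun _ => (1 : ℝ)) | m0] := by
  filter_upwards [cond_ind_nonneg μ A m0, cond_ind_le_one μ A hA m0 hm] with x e1 e2
  exact clip_eq e1 e2

/-- smallness against products at stage n -/
def SmallAE {D : Type} (dg : D → HDigit H) (U : Ultrafilter ℕ) (a : D) (f0 : Finset J)
    (aE : (J → H.Om) × (D → Bool) → ℝ) (δ' : ℝ) : Prop :=
  ∀ R' : J → Set H.Om, (∀ v, MeasurableSet (R' v)) → ∀ᶠ n in (U : Filter ℕ),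
        ∀ r : J → (J → H.Om) → ℝ, (∀ v, Bdd (r v)) →
        (∀ v, DependsOn (r v) ((f0.erase v : Finset J) : Set J)) →
        |∫ y, (((dg a).G n).indicator (fun _ => (1 : ℝ)) y - aE (y, tval dg n y)) *
          (∏ v ∈ f0, (R' v).indicator (fun _ => (1 : ℝ)) (y v)) *
          ∏ v ∈ f0, r v y ∂H.lam| < δ'

/-- existence of a good approximation -/
def GoodAE {D : Type} (dg : D → HDigit H) (U : Ultrafilter ℕ)
    (P : Measure ((J → H.Om) × (D → Bool))) (a : D) (f0 : Finset J) (δ' ε : ℝ) : Prop :=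
  ∃ (E1 : Finset D) (aE : (J → H.Om) × (D → Bool) → ℝ),
    Measurable[GF (fun x : (J → H.Om) × (D → Bool) => x.1) (fun δ => (dg δ).f)
          (fun δ x => x.2 δ) Finset.univ (Fintype.card J) E1] aE ∧
    (∀ x, 0 ≤ aE x) ∧ (∀ x, aE x ≤ 1) ∧
    (∀ n, DependsOn (fun y => aE (y, tval dg n y)) (f0 : Set J)) ∧
    SmallAE dg U a f0 aE δ' ∧
    ∫ x, |(P[tA H D a | MG dg f0 (f0.card - 1)]) x - aE x| ∂P ≤ ε

theorem SY_le_GF {D : Type} {Ω : Type} [MeasurableSpace Ω] (f : D → Finset J) (e : Finset J)
    (E : Finset D) :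
    SY (fun x : (J → Ω) × (D → Bool) => x.1) e ≤
      GF (fun x : (J → Ω) × (D → Bool) => x.1) f (fun δ x => x.2 δ) Finset.univ
        (Fintype.card J) E := by
  refine le_sup_of_le_left ?_
  refine iSup_le fun v => iSup_le fun _ => ?_
  exact le_iSup_of_le v (le_iSup_of_le (Finset.mem_univ v) le_rfl)

theorem digit_meas {D Ω : Type} [MeasurableSpace Ω] (a : D) :
    MeasurableSet {x : (J → Ω) × (D → Bool) | x.2 a = true} := by
  have h : Measurable fun x : (J → Ω) × (D → Bool) => x.2 a :=
    (measurable_pi_apply a).comp measurable_snd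
  exact h (measurableSet_singleton true)

theorem good1 {D : Type} {dg : D → HDigit H} {U : Ultrafilter ℕ}
    {P : Measure ((J → H.Om) × (D → Bool))} [IsProbabilityMeasure P] (hP : Transfer dg U P)
    (a : D) (f0 : Finset J) (h1 : f0.card = 1) (δ' ε : ℝ) (hδ : 0 < δ')
    (hε : 0 < ε) : GoodAE dg U P a f0 δ' ε := by
  classical
  have hm0le : MG dg f0 (f0.card - 1) ≤ Prod.instMeasurableSpace := GG_le _ _ _
  have hm0SY : MG dg f0 (f0.card - 1) ≤ SY (fun x : (J → H.Om) × (D → Bool) => x.1) f0 := by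
    refine sup_le le_rfl ?_
    refine iSup_le fun δ => iSup_le fun hδ => ?_
    exfalso
    have h2 : (dg δ).f.card ≤ f0.card - 1 := hδ.2
    rw [h1] at h2
    have h3 := (dg δ).nef.card_pos
    omega
  have hαm : Measurable[SY (fun x : (J → H.Om) × (D → Bool) => x.1) f0] (P[tA H D a | MG dg f0 (f0.card - 1)]) :=
    (stronglyMeasurable_condExp (μ := P) (f := tA H D a) (m := MG dg f0 (f0.card - 1))).measurable.mono hm0SY le_rfl
  have hai : Integrable (tA H D a) P := (integrable_const (1 : ℝ)).indicator (digit_meas a)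
  have hclip : (fun x => clip ((P[tA H D a | MG dg f0 (f0.card - 1)]) x)) =ᵐ[P] P[tA H D a | MG dg f0 (f0.card - 1)] :=
    clip_ae _ P _ (digit_meas a) hm0le
  have haEm : Measurable[SY (fun x : (J → H.Om) × (D → Bool) => x.1) f0]
      (fun x => clip ((P[tA H D a | MG dg f0 (f0.card - 1)]) x)) := measurable_clip.comp hαm
  refine ⟨∅, fun x => clip ((P[tA H D a | MG dg f0 (f0.card - 1)]) x), haEm.mono (SY_le_GF _ _ _) le_rfl,
    fun x => clip_nonneg _, fun x => clip_le_one _, ?_, ?_, ?_⟩
  · intro n y y' hyy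
    exact SY_factor f0 _ haEm (y, tval dg n y) (y', tval dg n y') (fun v hv => hyy v hv)
  · obtain ⟨v, hv⟩ := Finset.card_eq_one.mp h1
    intro R' hR'
    have hcyl : MeasurableSet[MG dg f0 (f0.card - 1)] {x : (J → H.Om) × (D → Bool) | x.1 v ∈ R' v} := by
      have h2 : MeasurableSpace.comap (fun x : (J → H.Om) × (D → Bool) => x.1 v) inferInstance ≤
          MG dg f0 (f0.card - 1) := by
        refine le_sup_of_le_left ?_
        exact le_iSup_of_le v (le_iSup_of_le (by rw [hv]; simp) le_rfl)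
      exact h2 _ ⟨R' v, hR' v, rfl⟩
    have hF : Measurable[GF (fun x : (J → H.Om) × (D → Bool) => x.1) (fun δ => (dg δ).f)
          (fun δ x => x.2 δ) Finset.univ (Fintype.card J) {a}]
        ({x : (J → H.Om) × (D → Bool) | x.1 v ∈ R' v}.indicator
          (fun x => tA H D a x - clip ((P[tA H D a | MG dg f0 (f0.card - 1)]) x))) :=
      @F_meas _ (_) _ _ (GF_coord _ _ v _ (hR' v)) (GF_digit _ _ a (by simp)) _
        (haEm.mono (SY_le_GF _ _ _) le_rfl)
    have htr := transfer_fun hP {a} _ hF (by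
      intro x
      by_cases hx : x ∈ {x : (J → H.Om) × (D → Bool) | x.1 v ∈ R' v}
      · rw [Set.indicator_of_mem hx]
        exact ind_sub_abs _ _ (fun x => clip_nonneg _) (fun x => clip_le_one _) x
      · rw [Set.indicator_of_notMem hx]
        simp)
    have hz : ∫ x, {x : (J → H.Om) × (D → Bool) | x.1 v ∈ R' v}.indicator
        (fun x => tA H D a x - clip ((P[tA H D a | MG dg f0 (f0.card - 1)]) x)) x ∂P = 0 := by
      rw [integral_indicator (hm0le _ hcyl)]
      have h3 : ∫ x in {x : (J → H.Om) × (D → Bool) | x.1 v ∈ R' v},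
          (tA H D a x - clip ((P[tA H D a | MG dg f0 (f0.card - 1)]) x)) ∂P =
          ∫ x in {x : (J → H.Om) × (D → Bool) | x.1 v ∈ R' v}, (tA H D a x - (P[tA H D a | MG dg f0 (f0.card - 1)]) x) ∂P := by
        refine integral_congr_ae ?_
        filter_upwards [ae_restrict_of_ae hclip] with x hx
        rw [hx]
      rw [h3, integral_sub hai.integrableOn integrable_condExp.integrableOn,
        setIntegral_condExp hm0le hai hcyl, sub_self]
    rw [hz] at htr
    have hev : ∀ᶠ n in (U : Filter ℕ), |∫ y, {x : (J → H.Om) × (D → Bool) |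
        x.1 v ∈ R' v}.indicator (fun x => tA H D a x - clip ((P[tA H D a | MG dg f0 (f0.card - 1)]) x)) (y, tval dg n y) ∂H.lam|
        < δ' := by
      have := htr.abs
      rw [abs_zero] at this
      exact this.eventually (gt_mem_nhds hδ)
    filter_upwards [hev] with n hn r hr hrd
    have y0 : J → H.Om := fun _ => Classical.arbitrary _
    have hrc : ∀ y, r v y = r v y0 := by
      intro y
      apply hrd v
      intro j hj
      rw [hv] at hj
      simp at hj
    have h4 : ∀ y, (((dg a).G n).indicator (fun _ => (1 : ℝ)) y -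
        clip ((P[tA H D a | MG dg f0 (f0.card - 1)]) (y, tval dg n y))) *
        (∏ v ∈ f0, (R' v).indicator (fun _ => (1 : ℝ)) (y v)) * ∏ v ∈ f0, r v y =
        r v y0 * {x : (J → H.Om) × (D → Bool) | x.1 v ∈ R' v}.indicator
          (fun x => tA H D a x - clip ((P[tA H D a | MG dg f0 (f0.card - 1)]) x)) (y, tval dg n y) := by
      intro y
      have e3 : tA H D a (y, tval dg n y) = ((dg a).G n).indicator (fun _ => (1 : ℝ)) y := by
        simp [Set.indicator, tval]
      simp only [hv, Finset.prod_singleton]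
      rw [hrc y]
      by_cases hy : y v ∈ R' v
      · rw [Set.indicator_of_mem (show (y, tval dg n y) ∈
          {x : (J → H.Om) × (D → Bool) | x.1 v ∈ R' v} from hy), Set.indicator_of_mem hy, e3]
        ring
      · rw [Set.indicator_of_notMem (show (y, tval dg n y) ∉
          {x : (J → H.Om) × (D → Bool) | x.1 v ∈ R' v} from hy), Set.indicator_of_notMem hy]
        ring
    simp_rw [h4]
    rw [integral_const_mul, abs_mul]
    refine lt_of_le_of_lt ?_ hn
    exact mul_le_of_le_one_left (abs_nonneg _) ((hr v).2 y0)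
  · have : ∫ x, |(P[tA H D a | MG dg f0 (f0.card - 1)]) x - clip ((P[tA H D a | MG dg f0 (f0.card - 1)]) x)| ∂P = 0 := by
      rw [integral_eq_zero_iff_of_nonneg_ae]
      · filter_upwards [hclip] with x hx
        rw [hx]
        simp
      · exact Filter.Eventually.of_forall fun x => abs_nonneg _
      · refine Integrable.abs ?_
        exact integrable_condExp.sub (integrable_condExp.congr hclip.symm)
    rw [this]
    exact hε.le

end
end SPHK.CIPA
namespace SPHK.CIPA
section

theorem levy_l1 {Y : Type} [mY : MeasurableSpace Y] (μ : Measure Y) [IsProbabilityMeasure μ]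
    {I : Type} (Q : I → Set Y) (hQ : ∀ i, MeasurableSet (Q i)) (u : ℕ → I)
    (hu : Function.Surjective u) (A : Set Y) :
    Tendsto (fun N : ℕ => ∫ y, |(μ[A.indicator (fun _ => (1 : ℝ)) |
        MeasurableSpace.generateFrom (Set.range Q)]) y - (μ[A.indicator (fun _ => (1 : ℝ)) |
        MeasurableSpace.generateFrom (Set.range fun k : Fin N => Q (u k))]) y| ∂μ) atTop (𝓝 0) := by
  let F : Filtration ℕ mY :=
    { seq := fun N => MeasurableSpace.generateFrom (Set.range fun k : Fin N => Q (u k))
      mono' := by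
        intro N M hNM
        apply MeasurableSpace.generateFrom_mono
        rintro _ ⟨k, rfl⟩
        exact ⟨⟨k.1, lt_of_lt_of_le k.2 hNM⟩, rfl⟩
      le' := by
        intro N
        apply MeasurableSpace.generateFrom_le
        rintro _ ⟨k, rfl⟩
        exact hQ _ }
  have hsup : (⨆ N, F N) = MeasurableSpace.generateFrom (Set.range Q) := by
    apply le_antisymm
    · refine iSup_le fun N => ?_
      apply MeasurableSpace.generateFrom_mono
      rintro _ ⟨k, rfl⟩
      exact ⟨_, rfl⟩
    · apply MeasurableSpace.generateFrom_le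
      rintro _ ⟨i, rfl⟩
      obtain ⟨k, hk⟩ := hu i
      refine (le_iSup (fun N => F N) (k + 1)) _ ?_
      apply MeasurableSpace.measurableSet_generateFrom
      exact ⟨⟨k, Nat.lt_succ_self k⟩, by rw [← hk]⟩
  have h := tendsto_eLpNorm_condExp (μ := μ) (ℱ := F) (A.indicator (fun _ => (1 : ℝ)))
  rw [hsup] at h
  have h2 := (ENNReal.tendsto_toReal ENNReal.zero_ne_top).comp h
  rw [ENNReal.toReal_zero] at h2
  refine h2.congr fun N => ?_
  rw [Function.comp_apply, eLpNorm_one_eq_lintegral_enorm]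
  rw [← integral_norm_eq_lintegral_enorm]
  · refine integral_congr_ae (Filter.Eventually.of_forall fun y => ?_)
    beta_reduce
    rw [Pi.sub_apply, Real.norm_eq_abs, abs_sub_comm]
  · exact (integrable_condExp.sub integrable_condExp).aestronglyMeasurable

variable {J : Type} [Fintype J] [DecidableEq J] {H : Host J}

/-- index set of the generators of G(f0,s-1) -/
abbrev Ix {D : Type} (dg : D → HDigit H) (f0 : Finset J) : Type :=
  (f0 × ℕ) ⊕ {δ : D // (dg δ).f ⊆ f0 ∧ (dg δ).f.card ≤ f0.card - 1}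

/-- the generators -/
def QQ {D : Type} (dg : D → HDigit H) (f0 : Finset J) : Ix dg f0 → Set ((J → H.Om) × (D → Bool)) :=
  Sum.elim (fun p => {x | x.1 p.1.1 ∈ MeasurableSpace.natGeneratingSequence H.Om p.2})
    (fun δ => {x | x.2 δ.1 = true})

/-- the digits used by a generator -/
def DQ {D : Type} (dg : D → HDigit H) (f0 : Finset J) : Ix dg f0 → Finset D :=
  Sum.elim (fun _ => ∅) (fun δ => {δ.1})

theorem QQ_meas {D : Type} (dg : D → HDigit H) (f0 : Finset J) (i : Ix dg f0) (E : Finset D)
    (hE : DQ dg f0 i ⊆ E) :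
    MeasurableSet[GF (fun x : (J → H.Om) × (D → Bool) => x.1) (fun δ => (dg δ).f)
          (fun δ x => x.2 δ) Finset.univ (Fintype.card J) E] (QQ dg f0 i) := by
  rcases i with p | δ
  · exact GF_coord _ _ p.1.1 _ (MeasurableSpace.measurableSet_natGeneratingSequence p.2)
  · exact GF_digit _ _ δ.1 (hE (by simp [DQ]))

theorem QQ_gen {D : Type} (dg : D → HDigit H) (f0 : Finset J) :
    MeasurableSpace.generateFrom (Set.range (QQ dg f0)) = MG dg f0 (f0.card - 1) := by
  apply le_antisymm
  · apply MeasurableSpace.generateFrom_le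
    rintro _ ⟨i, rfl⟩
    rcases i with p | δ
    · have h2 : MeasurableSpace.comap (fun x : (J → H.Om) × (D → Bool) => x.1 p.1.1) inferInstance ≤
          MG dg f0 (f0.card - 1) := by
        refine le_sup_of_le_left ?_
        exact le_iSup_of_le p.1.1 (le_iSup_of_le p.1.2 le_rfl)
      exact h2 _ ⟨_, MeasurableSpace.measurableSet_natGeneratingSequence p.2, rfl⟩
    · have h2 : MeasurableSpace.comap (fun x : (J → H.Om) × (D → Bool) => x.2 δ.1) inferInstance ≤
          MG dg f0 (f0.card - 1) := by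
        refine le_sup_of_le_right ?_
        exact le_iSup_of_le δ.1 (le_iSup_of_le δ.2 le_rfl)
      exact h2 _ ⟨{true}, measurableSet_singleton true, rfl⟩
  · refine sup_le ?_ ?_
    · refine iSup_le fun v => iSup_le fun hv => ?_
      have hgen : (Host.mOm H) = MeasurableSpace.generateFrom
          (Set.range (MeasurableSpace.natGeneratingSequence H.Om)) :=
        (MeasurableSpace.generateFrom_natGeneratingSequence H.Om).symm
      have : MeasurableSpace.comap (fun x : (J → H.Om) × (D → Bool) => x.1 v) (Host.mOm H) =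
        MeasurableSpace.comap (fun x : (J → H.Om) × (D → Bool) => x.1 v)
          (MeasurableSpace.generateFrom
          (Set.range (MeasurableSpace.natGeneratingSequence H.Om))) := by rw [← hgen]
      show MeasurableSpace.comap (fun x : (J → H.Om) × (D → Bool) => x.1 v) (Host.mOm H) ≤ _
      rw [this, MeasurableSpace.comap_generateFrom]
      apply MeasurableSpace.generateFrom_mono
      rintro _ ⟨_, ⟨k, rfl⟩, rfl⟩
      exact ⟨Sum.inl (⟨v, hv⟩, k), rfl⟩
    · refine iSup_le fun δ => iSup_le fun hδ => ?_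
      rw [← measurable_iff_comap_le]
      refine @measurable_to_bool _ (_) _ ?_
      apply MeasurableSpace.measurableSet_generateFrom
      exact ⟨Sum.inr ⟨δ, hδ⟩, rfl⟩

theorem QQ_lift {D : Type} (dg : D → HDigit H) (f0 : Finset J) (h2 : 2 ≤ f0.card)
    (i : Ix dg f0) : ∃ d : HDigit H, (∃ v ∈ f0, d.f = f0.erase v) ∧
      ∀ n, d.G n = {y | (y, tval dg n y) ∈ QQ dg f0 i} := by
  rcases i with p | δ
  · obtain ⟨v', hv', hne⟩ := Finset.exists_mem_ne (lt_of_lt_of_le one_lt_two h2) p.1.1
    refine ⟨{ f := f0.erase v'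
              nef := ⟨p.1.1, Finset.mem_erase.mpr ⟨hne.symm, p.1.2⟩⟩
              G := fun n => {y | y p.1.1 ∈ MeasurableSpace.natGeneratingSequence H.Om p.2}
              meas := fun n => (measurable_pi_apply p.1.1)
                (MeasurableSpace.measurableSet_natGeneratingSequence p.2)
              dep := ?_ }, ⟨v', hv', rfl⟩, fun n => rfl⟩
    intro n y y' hyy
    have := hyy p.1.1 (by
      rw [Finset.mem_coe, Finset.mem_erase]
      exact ⟨hne.symm, p.1.2⟩)
    simp only [Set.mem_ofPred_eq, this]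
  · have hex : ∃ v ∈ f0, v ∉ (dg δ.1).f := by
      by_contra hcon
      push Not at hcon
      have h3 : f0 ⊆ (dg δ.1).f := hcon
      have h4 := Finset.card_le_card h3
      have h5 := δ.2.2
      omega
    obtain ⟨v, hv, hvn⟩ := hex
    have hsub : (dg δ.1).f ⊆ f0.erase v := by
      intro w hw
      rw [Finset.mem_erase]
      refine ⟨?_, δ.2.1 hw⟩
      rintro rfl
      exact hvn hw
    refine ⟨{ f := f0.erase v
              nef := (dg δ.1).nef.mono hsub
              G := (dg δ.1).G
              meas := (dg δ.1).meas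
              dep := ?_ }, ⟨v, hv, rfl⟩, fun n => ?_⟩
    · intro n y y' hyy
      exact (dg δ.1).dep n fun j hj => hyy j (hsub hj)
    · ext y
      simp [QQ, tval]

end
end SPHK.CIPA
namespace SPHK.CIPA
section

variable {J : Type} [Fintype J] [DecidableEq J] {H : Host J}

theorem good2 {D : Type} [Countable D] {dg : D → HDigit H} {U : Ultrafilter ℕ}
    {P : Measure ((J → H.Om) × (D → Bool))} [IsProbabilityMeasure P] (hP : Transfer dg U P)
    (a : D) (f0 : Finset J) (hf0 : (dg a).f = f0) (h2 : 2 ≤ f0.card)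
    (hEM : ∀ η : ℝ, 0 < η →
      ∃ E : Finset (HDigit H), (∀ d ∈ E, ∃ b : D, dg b = d) ∧ LowOrder f0 E ∧
        ∀ E' : Finset (HDigit H), LowOrder f0 E' → E ⊆ E' →
          ∀ᶠ n in (U : Filter ℕ), energyn (dg a) E' n ≤ energyn (dg a) E n + η)
    (δ' ε : ℝ) (hδ : 0 < δ')
    (hε : 0 < ε) : GoodAE dg U P a f0 δ' ε := by
  classical
  have hne : f0.Nonempty := Finset.card_pos.mp (by omega)
  -- choose η
  obtain ⟨η, hη, hηδ⟩ : ∃ η : ℝ, 0 < η ∧
      2 ^ Fintype.card J * (Real.sqrt η + η) < δ' / 2 := by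
    have hcont : Tendsto (fun η : ℝ => 2 ^ Fintype.card J * (Real.sqrt η + η)) (𝓝[>] 0) (𝓝 0) := by
      have : Tendsto (fun η : ℝ => (2 : ℝ) ^ Fintype.card J * (Real.sqrt η + η)) (𝓝 0)
          (𝓝 ((2 : ℝ) ^ Fintype.card J * (Real.sqrt 0 + 0))) :=
        (Continuous.tendsto (by fun_prop) 0)
      simp only [Real.sqrt_zero, add_zero, mul_zero] at this
      exact this.mono_left nhdsWithin_le_nhds
    have h3 := (hcont.eventually (gt_mem_nhds (show (0 : ℝ) < δ' / 2 by positivity))).and
      (self_mem_nhdsWithin)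
    obtain ⟨η, h4, h5⟩ := h3.exists
    exact ⟨η, h5, h4⟩
  obtain ⟨E0, hE0, hLow0, hEn0⟩ := hEM η hη
  -- enumerate the generators
  have hxne : Nonempty (Ix dg f0) := ⟨Sum.inl (⟨hne.choose, hne.choose_spec⟩, 0)⟩
  obtain ⟨u, hu⟩ := exists_surjective_nat (Ix dg f0)
  choose lift hlift1 hlift2 using QQ_lift dg f0 h2
  -- the digits of E0
  have hb : ∀ d ∈ E0, ∃ k : ℕ, ∀ n, d.G n = {y | (y, tval dg n y) ∈ QQ dg f0 (u k)} := by
    intro d hd
    obtain ⟨b, rfl⟩ := hE0 d hd
    obtain ⟨v, hv, hvf⟩ := hLow0 _ hd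
    have hmem : (dg b).f ⊆ f0 ∧ (dg b).f.card ≤ f0.card - 1 := by
      rw [hvf]
      exact ⟨Finset.erase_subset _ _, (Finset.card_erase_of_mem hv).le⟩
    obtain ⟨k, hk⟩ := hu (Sum.inr ⟨b, hmem⟩)
    refine ⟨k, fun n => ?_⟩
    rw [hk]
    ext y
    simp [QQ, tval]
  choose! kb hkb using hb
  -- choose N
  have hQm : ∀ i, MeasurableSet (QQ dg f0 i) := fun i =>
    (GF_le _ _ _ _) _ (QQ_meas dg f0 i (DQ dg f0 i) (Finset.Subset.refl _))
  have hlevy := levy_l1 P (QQ dg f0) hQm u hu {x : (J → H.Om) × (D → Bool) | x.2 a = true}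
  rw [QQ_gen] at hlevy
  obtain ⟨N, hN1, hN2⟩ : ∃ N : ℕ, (∫ x, |(P[tA H D a | MG dg f0 (f0.card - 1)]) x -
      (P[tA H D a | MeasurableSpace.generateFrom
        (Set.range fun k : Fin N => QQ dg f0 (u k))]) x| ∂P < ε) ∧ ∀ d ∈ E0, kb d < N := by
    have h3 := (hlevy.eventually (gt_mem_nhds hε)).and
      (Filter.eventually_gt_atTop (E0.sup kb))
    obtain ⟨N, h4, h5⟩ := h3.exists
    exact ⟨N, h4, fun d hd => lt_of_le_of_lt (Finset.le_sup hd) h5⟩
  -- the finite algebra
  let Q : Fin N → Set ((J → H.Om) × (D → Bool)) := fun k => QQ dg f0 (u k)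
  let E2 : Finset (HDigit H) := E0 ∪ Finset.univ.image (fun k : Fin N => lift (u k))
  have hE2low : LowOrder f0 E2 := by
    intro d hd
    rcases Finset.mem_union.mp hd with hd | hd
    · exact hLow0 d hd
    · obtain ⟨k, -, rfl⟩ := Finset.mem_image.mp hd
      exact hlift1 _
  have halg : ∀ n, algn E2 n = MeasurableSpace.generateFrom
      (Set.range fun k : Fin N => {y : J → H.Om | (y, tval dg n y) ∈ Q k}) := by
    intro n
    unfold algn
    congr 1
    ext S
    constructor
    · rintro ⟨d, hd, rfl⟩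
      rcases Finset.mem_union.mp hd with hd | hd
      · exact ⟨⟨kb d, hN2 d hd⟩, (hkb d hd n).symm⟩
      · obtain ⟨k, -, rfl⟩ := Finset.mem_image.mp hd
        exact ⟨k, (hlift2 _ n).symm⟩
    · rintro ⟨k, rfl⟩
      exact ⟨lift (u k), Finset.mem_union_right _ (Finset.mem_image.mpr ⟨k, Finset.mem_univ _, rfl⟩),
        (hlift2 _ n).symm⟩
  let E1 : Finset D := {a} ∪ Finset.univ.biUnion (fun k : Fin N => DQ dg f0 (u k))
  have hQE1 : ∀ k : Fin N, MeasurableSet[GF (fun x : (J → H.Om) × (D → Bool) => x.1)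
      (fun δ => (dg δ).f) (fun δ x => x.2 δ) Finset.univ (Fintype.card J) E1] (Q k) := by
    intro k
    apply QQ_meas
    intro δ hδ
    exact Finset.mem_union_right _ (Finset.mem_biUnion.mpr ⟨k, Finset.mem_univ _, hδ⟩)
  have hgenle : MeasurableSpace.generateFrom (Set.range Q) ≤
      GF (fun x : (J → H.Om) × (D → Bool) => x.1) (fun δ => (dg δ).f)
          (fun δ x => x.2 δ) Finset.univ (Fintype.card J) E1 := by
    apply MeasurableSpace.generateFrom_le
    rintro _ ⟨k, rfl⟩
    exact hQE1 k
  -- the function c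
  have hsm : StronglyMeasurable[MeasurableSpace.comap (pat Q) inferInstance]
      (P[tA H D a | MeasurableSpace.generateFrom (Set.range Q)]) := by
    have h := stronglyMeasurable_condExp (μ := P) (f := tA H D a)
      (m := MeasurableSpace.generateFrom (Set.range Q))
    rwa [gen_eq_comap] at h ⊢
  obtain ⟨d0, -, hd0⟩ := hsm.exists_eq_measurable_comp
  have hclip := clip_ae (MeasurableSpace.generateFrom (Set.range Q)) P
    {x : (J → H.Om) × (D → Bool) | x.2 a = true} (digit_meas a) (hgenle.trans (GF_le _ _ _ _))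
  have hc : (fun x => clip (d0 (pat Q x))) =ᵐ[P]
      P[tA H D a | MeasurableSpace.generateFrom (Set.range Q)] := by
    refine Filter.EventuallyEq.trans (Filter.Eventually.of_forall fun x => ?_) hclip
    rw [show (P[tA H D a | MeasurableSpace.generateFrom (Set.range Q)]) x = d0 (pat Q x) from
      congrFun hd0 x]
  have hmc : Measurable[MeasurableSpace.generateFrom (Set.range Q)]
      (fun x => clip (d0 (pat Q x))) := by
    rw [gen_eq_comap]
    exact (measurable_of_finite (fun θ : Fin N → Bool => clip (d0 θ))).comp (comap_measurable _)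
  refine ⟨E1, fun x => clip (d0 (pat Q x)), hmc.mono hgenle le_rfl, fun x => clip_nonneg _,
    fun x => clip_le_one _, ?_, ?_, ?_⟩
  · -- dependence
    intro n y y' hyy
    have hpat : pat Q (y, tval dg n y) = pat Q (y', tval dg n y') := by
      funext k
      have h3 : (y ∈ (lift (u k)).G n) = (y' ∈ (lift (u k)).G n) := by
        apply (lift (u k)).dep n
        intro j hj
        apply hyy
        obtain ⟨v, hv, hvf⟩ := hlift1 (u k)
        rw [hvf] at hj
        exact Finset.mem_of_mem_erase hj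
      rw [hlift2 (u k) n] at h3
      simp only [pat]
      exact decide_eq_decide.mpr (iff_of_eq h3)
    simp only [hpat]
  · -- smallness
    intro R' hR'
    have hdt := disc_transfer hP E1 Q hQE1 a (by simp [E1]) (fun θ => clip (d0 θ)) hc
      (fun n => algn E2 n) halg
    have hsc := small_corr (H := H) U (dg a) (by rw [hf0]; exact h2) η hη E2 (by rw [hf0]; exact hE2low)
      (by
        intro E' hE' hsub
        rw [hf0] at hE'
        filter_upwards [hEn0 E' hE' (Finset.subset_union_left.trans hsub)] with n hn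
        have := energyn_mono (dg a) E0 E2 Finset.subset_union_left n
        linarith)
    have hv' : ∀ v : J, ∃ w ∈ f0, w ≠ v := fun v =>
      Finset.exists_mem_ne (lt_of_lt_of_le one_lt_two h2) v
    choose w hw hwne using hv'
    filter_upwards [hsc, hdt.eventually (gt_mem_nhds (show (0 : ℝ) < δ' / 2 by positivity))]
      with n hn1 hn2 r hr hrd
    -- the absorbed functions
    let r' : J → (J → H.Om) → ℝ := fun b y => r b y *
      ∏ v ∈ f0.filter (fun v => w v = b), (R' v).indicator (fun _ => (1 : ℝ)) (y v)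
    have hr' : ∀ v, Bdd (r' v) := by
      intro v
      refine ⟨(hr v).1.mul (Finset.measurable_prod _ fun v _ =>
        (measurable_const.indicator (hR' v)).comp (measurable_pi_apply v)), fun y => ?_⟩
      exact mul_abs_le ((hr v).2 y) (prod_abs _ _ fun v _ => ind_abs _ _)
    have hrd' : ∀ v, DependsOn (r' v) (((dg a).f.erase v : Finset J) : Set J) := by
      intro b y y' hyy
      rw [hf0] at hyy
      have e1 : r b y = r b y' := hrd b hyy
      have e2 : ∏ v ∈ f0.filter (fun v => w v = b), (R' v).indicator (fun _ => (1 : ℝ)) (y v) =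
          ∏ v ∈ f0.filter (fun v => w v = b), (R' v).indicator (fun _ => (1 : ℝ)) (y' v) := by
        refine Finset.prod_congr rfl fun v hv => ?_
        rw [Finset.mem_filter] at hv
        rw [hyy v]
        rw [Finset.mem_coe, Finset.mem_erase]
        refine ⟨?_, hv.1⟩
        rintro rfl
        exact hwne v hv.2
      show _ * _ = _ * _
      rw [e1, e2]
    have hn3 := hn1 r' hr' hrd'
    rw [hf0] at hn3
    have hprod : ∀ y, ∏ v ∈ f0, r' v y =
        (∏ v ∈ f0, (R' v).indicator (fun _ => (1 : ℝ)) (y v)) * ∏ v ∈ f0, r v y := by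
      intro y
      simp only [r']
      rw [Finset.prod_mul_distrib, mul_comm]
      congr 1
      exact Finset.prod_fiberwise_of_maps_to (fun v _ => hw v) _
    have hpb : ∀ y, |∏ v ∈ f0, r' v y| ≤ 1 := fun y => prod_abs _ _ fun v _ => (hr' v).2 y
    have hpm : Measurable fun y => ∏ v ∈ f0, r' v y := Finset.measurable_prod _ fun v _ => (hr' v).1
    -- split
    let cn : (J → H.Om) → ℝ := (H.lam)[((dg a).G n).indicator (fun _ => (1 : ℝ)) | algn E2 n]
    have hcni : Integrable cn H.lam := integrable_condExp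
    have hGi : Integrable (((dg a).G n).indicator (fun _ => (1 : ℝ))) H.lam :=
      (integrable_const (1 : ℝ)).indicator ((dg a).meas n)
    have haEi : Integrable (fun y => clip (d0 (pat Q (y, tval dg n y)))) H.lam := by
      refine Integrable.of_bound (transfer_meas hP E1 (fun x => clip (d0 (pat Q x)))
        (hmc.mono hgenle le_rfl) n).aestronglyMeasurable 1 (Filter.Eventually.of_forall fun y => ?_)
      rw [Real.norm_eq_abs, abs_of_nonneg (clip_nonneg _)]
      exact clip_le_one _
    have hpbn : ∀ᵐ y ∂H.lam, ‖∏ v ∈ f0, r' v y‖ ≤ 1 :=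
      Filter.Eventually.of_forall fun y => hpb y
    have i1 : Integrable (fun y => (((dg a).G n).indicator (fun _ => (1 : ℝ)) y - cn y) *
        ∏ v ∈ f0, r' v y) H.lam := by
      have := (hGi.sub hcni).bdd_mul hpm.aestronglyMeasurable hpbn
      refine this.congr (Filter.Eventually.of_forall fun y => ?_)
      simp only [Pi.sub_apply]
      ring
    have i2 : Integrable (fun y => (cn y - clip (d0 (pat Q (y, tval dg n y)))) *
        ∏ v ∈ f0, r' v y) H.lam := by
      have := (hcni.sub haEi).bdd_mul hpm.aestronglyMeasurable hpbn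
      refine this.congr (Filter.Eventually.of_forall fun y => ?_)
      simp only [Pi.sub_apply]
      ring
    have hsplit : ∫ y, (((dg a).G n).indicator (fun _ => (1 : ℝ)) y -
        clip (d0 (pat Q (y, tval dg n y)))) *
        (∏ v ∈ f0, (R' v).indicator (fun _ => (1 : ℝ)) (y v)) * ∏ v ∈ f0, r v y ∂H.lam =
        ∫ y, (((dg a).G n).indicator (fun _ => (1 : ℝ)) y - cn y) * ∏ v ∈ f0, r' v y ∂H.lam +
        ∫ y, (cn y - clip (d0 (pat Q (y, tval dg n y)))) * ∏ v ∈ f0, r' v y ∂H.lam := by
      rw [← integral_add i1 i2]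
      refine integral_congr_ae (Filter.Eventually.of_forall fun y => ?_)
      simp only [hprod]
      ring
    have h5 : |∫ y, (cn y - clip (d0 (pat Q (y, tval dg n y)))) * ∏ v ∈ f0, r' v y ∂H.lam| ≤
        ∫ y, |clip (d0 (pat Q (y, tval dg n y))) - cn y| ∂H.lam := by
      refine (abs_integral_le_integral_abs).trans ?_
      refine integral_mono i2.abs (haEi.sub hcni).abs fun y => ?_
      beta_reduce
      rw [abs_mul, abs_sub_comm]
      exact mul_le_of_le_one_right (abs_nonneg _) (hpb y)
    rw [hsplit]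
    refine lt_of_le_of_lt (abs_add_le _ _) ?_
    have h6 : |∫ y, (((dg a).G n).indicator (fun _ => (1 : ℝ)) y - cn y) *
      ∏ v ∈ f0, r' v y ∂H.lam| < δ' / 2 := lt_of_le_of_lt hn3 hηδ
    have h7 : ∫ y, |clip (d0 (pat Q (y, tval dg n y))) - cn y| ∂H.lam < δ' / 2 := hn2
    linarith
  · -- L1 closeness
    refine le_trans (le_of_eq ?_) hN1.le
    refine integral_congr_ae ?_
    filter_upwards [hc] with x hx
    rw [hx]

end
end SPHK.CIPA
namespace SPHK.CIPA
section

theorem pi_lambda_zero {Y : Type} (m : MeasurableSpace Y) [mY : MeasurableSpace Y] (μ : Measure Y)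
    [IsProbabilityMeasure μ] (C : Set (Set Y)) (hpi : IsPiSystem C)
    (hm : m = MeasurableSpace.generateFrom C) (hle : m ≤ mY) (g : Y → ℝ) (hg : Integrable g μ)
    (h0 : ∀ S ∈ C, ∫ x in S, g x ∂μ = 0) (hu : ∫ x, g x ∂μ = 0) (S : Set Y)
    (hS : MeasurableSet[m] S) : ∫ x in S, g x ∂μ = 0 := by
  induction S, hS using MeasurableSpace.induction_on_inter hm hpi with
  | empty => simp
  | basic t ht => exact h0 t ht
  | compl t ht ih =>
    have h1 := integral_add_compl (μ := μ) (hle _ ht) hg
    rw [ih, hu] at h1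
    linarith
  | iUnion f hd hf ih =>
    rw [integral_iUnion (fun i => hle _ (hf i)) hd hg.integrableOn]
    simp [ih]

/-- conditional expectation is self-adjoint -/
theorem cond_sa {Y : Type} (m : MeasurableSpace Y) [mY : MeasurableSpace Y] (μ : Measure Y)
    [IsProbabilityMeasure μ] (hm : m ≤ mY) (f g : Y → ℝ) (hf : Measurable f) (hf1 : ∀ y, |f y| ≤ 1)
    (hg : Measurable g) (hg1 : ∀ y, |g y| ≤ 1) :
    ∫ y, f y * (μ[g | m]) y ∂μ = ∫ y, (μ[f | m]) y * (μ[g | m]) y ∂μ := by
  have hfi : Integrable f μ := Integrable.of_bound hf.aestronglyMeasurable 1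
    (Filter.Eventually.of_forall fun y => by simpa using hf1 y)
  have hcg : Integrable (μ[g | m]) μ := integrable_condExp
  have i1 : Integrable (f * μ[g | m]) μ := hcg.bdd_mul (c := 1) hf.aestronglyMeasurable
    (Filter.Eventually.of_forall fun y => by simpa using hf1 y)
  have e1 : μ[f * μ[g | m] | m] =ᵐ[μ] μ[f | m] * μ[g | m] :=
    condExp_mul_of_stronglyMeasurable_right stronglyMeasurable_condExp i1 hfi
  have e3 : ∫ y, (μ[f * μ[g | m] | m]) y ∂μ = ∫ y, (f * μ[g | m]) y ∂μ := integral_condExp hm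
  calc ∫ y, f y * (μ[g | m]) y ∂μ = ∫ y, (μ[f * μ[g | m] | m]) y ∂μ := e3.symm
    _ = ∫ y, (μ[f | m]) y * (μ[g | m]) y ∂μ := integral_congr_ae e1

theorem cond_sa2 {Y : Type} (m : MeasurableSpace Y) [mY : MeasurableSpace Y] (μ : Measure Y)
    [IsProbabilityMeasure μ] (hm : m ≤ mY) (f g : Y → ℝ) (hf : Measurable f) (hf1 : ∀ y, |f y| ≤ 1)
    (hg : Measurable g) (hg1 : ∀ y, |g y| ≤ 1) :
    ∫ y, f y * (μ[g | m]) y ∂μ = ∫ y, g y * (μ[f | m]) y ∂μ := by
  rw [cond_sa m μ hm f g hf hf1 hg hg1, cond_sa m μ hm g f hg hg1 hf hf1]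
  exact integral_congr_ae (Filter.Eventually.of_forall fun y => mul_comm _ _)

theorem ind_bdd {X : Type} [MeasurableSpace X] (T : Set X) (hT : MeasurableSet T) :
    Measurable (T.indicator fun _ => (1 : ℝ)) := measurable_const.indicator hT

theorem ci_abstract {X : Type} (mG mR mK : MeasurableSpace X) [mX : MeasurableSpace X]
    (P : Measure X) [IsProbabilityMeasure P] (hGR : mG ≤ mR) (hR : mR ≤ mX) (hK : mK ≤ mX)
    (hGX : mG ≤ mX)
    (C : Set (Set X)) (hC1 : Set.univ ∈ C) (hC2 : ∀ A ∈ C, ∀ B ∈ C, A ∩ B ∈ C)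
    (hCm : ∀ B ∈ C, MeasurableSet B)
    (hCR : ∀ B ∈ C, ∀ S, MeasurableSet[mR] S → ∫ x in S, B.indicator (fun _ => (1 : ℝ)) x ∂P =
      ∫ x in S, (P[B.indicator (fun _ => (1 : ℝ)) | mG]) x ∂P)
    (hgen : mK = MeasurableSpace.generateFrom
      {T | ∃ T0 B, MeasurableSet[mG] T0 ∧ B ∈ C ∧ T = T0 ∩ B})
    (φ : X → ℝ) (hφ : Measurable[mK] φ) (hφ1 : ∀ x, |φ x| ≤ 1) :
    P[φ | mR] =ᵐ[P] P[φ | mG] := by
  have hpi : IsPiSystem {T | ∃ T0 B, MeasurableSet[mG] T0 ∧ B ∈ C ∧ T = T0 ∩ B} := by
    rintro _ ⟨T0, B, hT0, hB, rfl⟩ _ ⟨T0', B', hT0', hB', rfl⟩ -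
    refine ⟨T0 ∩ T0', B ∩ B', @MeasurableSet.inter _ mG _ _ hT0 hT0', hC2 _ hB _ hB', ?_⟩
    ext x
    simp only [Set.mem_inter_iff]
    tauto
  have hφm : Measurable φ := hφ.mono hK le_rfl
  have hφi : Integrable φ P := Integrable.of_bound hφm.aestronglyMeasurable 1
    (Filter.Eventually.of_forall fun y => by simpa using hφ1 y)
  -- step 4: for S in R, the conditional expectations of 1_S on K and on G agree
  have h4 : ∀ S, MeasurableSet[mR] S →
      P[S.indicator (fun _ => (1 : ℝ)) | mG] =ᵐ[P] P[S.indicator (fun _ => (1 : ℝ)) | mK] := by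
    intro S hS
    have hSi : Integrable (S.indicator (fun _ => (1 : ℝ))) P :=
      (integrable_const (1 : ℝ)).indicator (hR _ hS)
    have hzero : ∀ T, MeasurableSet[mK] T →
        ∫ x in T, (S.indicator (fun _ => (1 : ℝ)) x -
          (P[S.indicator (fun _ => (1 : ℝ)) | mG]) x) ∂P = 0 := by
      intro T hT
      refine pi_lambda_zero mK P _ hpi hgen hK (fun x => S.indicator (fun _ => (1 : ℝ)) x -
          (P[S.indicator (fun _ => (1 : ℝ)) | mG]) x) (hSi.sub integrable_condExp) ?_ ?_ T hT
      · rintro _ ⟨T0, B, hT0, hB, rfl⟩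
        have hT0X := hGX _ hT0
        have hBX := hCm _ hB
        rw [integral_sub hSi.integrableOn integrable_condExp.integrableOn]
        -- P[1_{T0 ∩ B}|G] = 1_{T0} P[1_B|G]
        have hBi : Integrable (B.indicator (fun _ => (1 : ℝ))) P :=
          (integrable_const (1 : ℝ)).indicator hBX
        have e1 : P[T0.indicator (B.indicator (fun _ => (1 : ℝ))) | mG] =ᵐ[P]
            T0.indicator (P[B.indicator (fun _ => (1 : ℝ)) | mG]) := condExp_indicator hBi hT0
        rw [Set.indicator_indicator] at e1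
        have e2 : ∫ x in T0 ∩ B, S.indicator (fun _ => (1 : ℝ)) x ∂P =
            ∫ x, S.indicator (fun _ => (1 : ℝ)) x *
              (P[(T0 ∩ B).indicator (fun _ => (1 : ℝ)) | mG]) x ∂P := by
          have e3 := hCR B hB (S ∩ T0) (@MeasurableSet.inter _ mR _ _ hS (hGR _ hT0))
          calc ∫ x in T0 ∩ B, S.indicator (fun _ => (1 : ℝ)) x ∂P =
              ∫ x in S ∩ T0, B.indicator (fun _ => (1 : ℝ)) x ∂P := by
                rw [← integral_indicator (hT0X.inter hBX), ← integral_indicator ((hR _ hS).inter hT0X)]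
                refine integral_congr_ae (Filter.Eventually.of_forall fun x => ?_)
                by_cases h1 : x ∈ S <;> by_cases h2 : x ∈ T0 <;> by_cases h3 : x ∈ B <;>
                  simp [Set.indicator, h1, h2, h3]
            _ = ∫ x in S ∩ T0, (P[B.indicator (fun _ => (1 : ℝ)) | mG]) x ∂P := e3
            _ = ∫ x, S.indicator (fun _ => (1 : ℝ)) x *
                (P[(T0 ∩ B).indicator (fun _ => (1 : ℝ)) | mG]) x ∂P := by
                rw [← integral_indicator ((hR _ hS).inter hT0X)]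
                refine integral_congr_ae ?_
                filter_upwards [e1] with x hx
                rw [hx]
                by_cases h1 : x ∈ S <;> by_cases h2 : x ∈ T0 <;>
                  simp [Set.indicator, h1, h2]
        have e4 : ∫ x in T0 ∩ B, (P[S.indicator (fun _ => (1 : ℝ)) | mG]) x ∂P =
            ∫ x, (T0 ∩ B).indicator (fun _ => (1 : ℝ)) x *
              (P[S.indicator (fun _ => (1 : ℝ)) | mG]) x ∂P := by
          rw [← integral_indicator (hT0X.inter hBX)]
          refine integral_congr_ae (Filter.Eventually.of_forall fun x => ?_)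
          by_cases h1 : x ∈ T0 ∩ B <;> simp [Set.indicator, h1]
        rw [e2, e4, cond_sa2 mG P hGX _ _ (ind_bdd S (hR _ hS)) (ind_abs S)
          (ind_bdd (T0 ∩ B) (hT0X.inter hBX)) (ind_abs _), sub_self]
      · rw [integral_sub hSi integrable_condExp, integral_condExp hGX, sub_self]
    refine ae_eq_condExp_of_forall_setIntegral_eq hK hSi
      (fun s _ _ => integrable_condExp.integrableOn) (fun T hT _ => ?_) ?_
    · have := hzero T hT
      rw [integral_sub hSi.integrableOn integrable_condExp.integrableOn] at this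
      linarith
    · have hGK : mG ≤ mK := by
        intro T0 hT0
        rw [hgen]
        apply MeasurableSpace.measurableSet_generateFrom
        exact ⟨T0, Set.univ, hT0, hC1, by simp⟩
      exact (stronglyMeasurable_condExp.mono hGK).aestronglyMeasurable
  -- step 5
  symm
  refine ae_eq_condExp_of_forall_setIntegral_eq hR hφi
    (fun s _ _ => integrable_condExp.integrableOn) (fun S hS _ => ?_)
    (stronglyMeasurable_condExp.mono hGR).aestronglyMeasurable
  have hSX := hR _ hS
  have hSi : Integrable (S.indicator (fun _ => (1 : ℝ))) P :=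
      (integrable_const (1 : ℝ)).indicator hSX
  have hP2 : ∀ f : X → ℝ, ∫ x in S, f x ∂P = ∫ x, S.indicator (fun _ => (1 : ℝ)) x * f x ∂P := by
    intro f
    rw [← integral_indicator hSX]
    refine integral_congr_ae (Filter.Eventually.of_forall fun x => ?_)
    by_cases h1 : x ∈ S <;> simp [Set.indicator, h1]
  rw [hP2, hP2]
  have e1 : ∫ x, S.indicator (fun _ => (1 : ℝ)) x * φ x ∂P =
      ∫ x, φ x * (P[S.indicator (fun _ => (1 : ℝ)) | mK]) x ∂P := by
    have hm2 : StronglyMeasurable[mK] φ := hφ.stronglyMeasurable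
    have i1 : Integrable (φ * S.indicator (fun _ => (1 : ℝ))) P :=
      hSi.bdd_mul (c := 1) hφm.aestronglyMeasurable
        (Filter.Eventually.of_forall fun y => by simpa using hφ1 y)
    have e2 := condExp_mul_of_stronglyMeasurable_left (μ := P) hm2 i1 hSi
    have e3 : ∫ y, (P[φ * S.indicator (fun _ => (1 : ℝ)) | mK]) y ∂P =
      ∫ y, (φ * S.indicator (fun _ => (1 : ℝ))) y ∂P := integral_condExp hK
    calc ∫ x, S.indicator (fun _ => (1 : ℝ)) x * φ x ∂P =
        ∫ y, (φ * S.indicator (fun _ => (1 : ℝ))) y ∂P := by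
          refine integral_congr_ae (Filter.Eventually.of_forall fun x => ?_)
          simp only [Pi.mul_apply]
          ring
      _ = ∫ y, (P[φ * S.indicator (fun _ => (1 : ℝ)) | mK]) y ∂P := e3.symm
      _ = ∫ x, φ x * (P[S.indicator (fun _ => (1 : ℝ)) | mK]) x ∂P := integral_congr_ae e2
  rw [e1]
  have e2 : ∫ x, φ x * (P[S.indicator (fun _ => (1 : ℝ)) | mK]) x ∂P =
      ∫ x, φ x * (P[S.indicator (fun _ => (1 : ℝ)) | mG]) x ∂P := by
    refine integral_congr_ae ?_
    filter_upwards [h4 S hS] with x hx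
    rw [hx]
  rw [e2]
  exact (cond_sa2 mG P hGX _ _ hφm hφ1 (ind_bdd S hSX) (ind_abs S)).symm

end
end SPHK.CIPA
namespace SPHK.CIPA
section

variable {J : Type} [Fintype J] [DecidableEq J] {H : Host J}

/-- the sigma algebra R(f0) -/
abbrev MR {D : Type} (dg : D → HDigit H) (f0 : Finset J) :
    MeasurableSpace ((J → H.Om) × (D → Bool)) :=
  RR (fun x : (J → H.Om) × (D → Bool) => x.1) (fun δ => (dg δ).f) (fun δ x => x.2 δ) f0

theorem MR_le {D : Type} (dg : D → HDigit H) (f0 : Finset J) :
    MR dg f0 ≤ (Prod.instMeasurableSpace : MeasurableSpace ((J → H.Om) × (D → Bool))) := by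
  refine sup_le ?_ ?_
  · refine iSup_le fun v => iSup_le fun _ => ?_
    rw [← measurable_iff_comap_le]
    exact (measurable_pi_apply v).comp measurable_fst
  · refine iSup_le fun v => iSup_le fun _ => ?_
    rw [← measurable_iff_comap_le]
    exact (measurable_pi_apply v).comp measurable_snd

theorem MG_le_MR {D : Type} (dg : D → HDigit H) (f0 : Finset J) (hne : f0.Nonempty) :
    MG dg f0 (f0.card - 1) ≤ MR dg f0 := by
  refine sup_le_sup ?_ ?_
  · refine iSup_le fun v => iSup_le fun _ => ?_
    exact le_iSup_of_le v (le_iSup_of_le (Finset.mem_univ v) le_rfl)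
  · refine iSup_le fun δ => iSup_le fun hδ => ?_
    refine le_iSup_of_le δ (le_iSup_of_le ?_ le_rfl)
    have h1 := hδ.2
    have h2 := hne.card_pos
    refine ⟨by omega, fun h => ?_⟩
    rw [h] at h1
    omega

/-- the pi-system generating R(f0) -/
def CR {D : Type} (dg : D → HDigit H) (f0 : Finset J) : Set (Set ((J → H.Om) × (D → Bool))) :=
  {S | ∃ (R : J → Set H.Om) (E : Finset D), (∀ v, MeasurableSet (R v)) ∧
    (∀ δ ∈ E, (dg δ).f.card ≤ f0.card ∧ (dg δ).f ≠ f0) ∧ S = basic R E}

theorem CR_pi {D : Type} (dg : D → HDigit H) (f0 : Finset J) : IsPiSystem (CR dg f0) := by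
  classical
  rintro _ ⟨R, E, hR, hE, rfl⟩ _ ⟨R', E', hR', hE', rfl⟩ -
  refine ⟨fun v => R v ∩ R' v, E ∪ E', fun v => (hR v).inter (hR' v), ?_, ?_⟩
  · intro δ hδ
    rcases Finset.mem_union.mp hδ with h | h
    · exact hE δ h
    · exact hE' δ h
  · ext x
    simp only [basic, Set.mem_inter_iff, Set.mem_ofPred_eq, Finset.mem_union]
    constructor
    · rintro ⟨⟨h1, h2⟩, h3, h4⟩
      exact ⟨fun v => ⟨h1 v, h3 v⟩, fun δ hδ => hδ.elim (h2 δ) (h4 δ)⟩
    · rintro ⟨h1, h2⟩
      exact ⟨⟨fun v => (h1 v).1, fun δ hδ => h2 δ (Or.inl hδ)⟩,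
        fun v => (h1 v).2, fun δ hδ => h2 δ (Or.inr hδ)⟩

theorem CR_gen {D : Type} (dg : D → HDigit H) (f0 : Finset J) :
    MR dg f0 = MeasurableSpace.generateFrom (CR dg f0) := by
  classical
  apply le_antisymm
  · refine sup_le ?_ ?_
    · refine iSup_le fun v => iSup_le fun _ => ?_
      rintro _ ⟨B, hB, rfl⟩
      apply MeasurableSpace.measurableSet_generateFrom
      refine ⟨fun w => if w = v then B else Set.univ, ∅, ?_, by simp, ?_⟩
      · intro w
        beta_reduce
        split_ifs
        · exact hB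
        · exact MeasurableSet.univ
      · ext x
        simp only [basic, Set.mem_preimage, Set.mem_ofPred_eq, Finset.notMem_empty, false_imp_iff,
          implies_true, and_true]
        constructor
        · intro h w
          by_cases hw : w = v
          · rw [if_pos hw, hw]
            exact h
          · rw [if_neg hw]
            exact Set.mem_univ _
        · intro h
          have := h v
          rw [if_pos rfl] at this
          exact this
    · refine iSup_le fun δ => iSup_le fun hδ => ?_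
      rw [← measurable_iff_comap_le]
      refine @measurable_to_bool _ (_) _ ?_
      apply MeasurableSpace.measurableSet_generateFrom
      refine ⟨fun _ => Set.univ, {δ}, fun _ => MeasurableSet.univ, ?_, ?_⟩
      · intro δ' h
        rw [Finset.mem_singleton] at h
        rw [h]
        exact hδ
      · ext x
        simp [basic]
  · apply MeasurableSpace.generateFrom_le
    rintro _ ⟨R, E, hR, hE, rfl⟩
    refine @basic_meas J _ _ ((J → H.Om) × (D → Bool)) (_) D H.Om
          (fun x : (J → H.Om) × (D → Bool) => x.1)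
          (fun δ (x : (J → H.Om) × (D → Bool)) => x.2 δ) R E ?_ ?_
    · intro v
      have h1 : MeasurableSpace.comap (fun x : (J → H.Om) × (D → Bool) => x.1 v) inferInstance ≤
          MR dg f0 := by
        refine le_sup_of_le_left ?_
        exact le_iSup_of_le v (le_iSup_of_le (Finset.mem_univ v) le_rfl)
      exact h1 _ ⟨R v, hR v, rfl⟩
    · intro δ hδ
      have h1 : MeasurableSpace.comap (fun x : (J → H.Om) × (D → Bool) => x.2 δ) inferInstance ≤
          MR dg f0 := by
        refine le_sup_of_le_right ?_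
        exact le_iSup_of_le δ (le_iSup_of_le (hE δ hδ) le_rfl)
      exact h1 _ ⟨{true}, measurableSet_singleton true, rfl⟩

/-- step 1 and 2: E(t_a | R(f0)) = E(t_a | G(f0,s-1)) -/
theorem digit_ci {D : Type} {dg : D → HDigit H} {U : Ultrafilter ℕ}
    {P : Measure ((J → H.Om) × (D → Bool))} [IsProbabilityMeasure P] (hP : Transfer dg U P)
    (a : D) (f0 : Finset J) (hf0 : (dg a).f = f0)
    (hRM : H.RM (A := f0) (Z := Empty) (fun v => v.1) Empty.elim)
    (hgood : ∀ δ' ε : ℝ, 0 < δ' → 0 < ε → GoodAE dg U P a f0 δ' ε)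
    (S : Set ((J → H.Om) × (D → Bool))) (hS : MeasurableSet[MR dg f0] S) :
    ∫ x in S, tA H D a x ∂P = ∫ x in S, (P[tA H D a | MG dg f0 (f0.card - 1)]) x ∂P := by
  classical
  have hti : Integrable (tA H D a) P := (integrable_const (1 : ℝ)).indicator (digit_meas a)
  have hz : ∫ x in S, (tA H D a x - (P[tA H D a | MG dg f0 (f0.card - 1)]) x) ∂P = 0 := by
    refine pi_lambda_zero (MR dg f0) P (CR dg f0) (CR_pi dg f0) (CR_gen dg f0) (MR_le dg f0)
      (fun x => tA H D a x - (P[tA H D a | MG dg f0 (f0.card - 1)]) x)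
      (hti.sub integrable_condExp) ?_ ?_ S hS
    · rintro _ ⟨R, E, hR, hE, rfl⟩
      have hbX : MeasurableSet (basic (D := D) R E) :=
        @basic_meas J _ _ ((J → H.Om) × (D → Bool)) _ D H.Om
          (fun x : (J → H.Om) × (D → Bool) => x.1)
          (fun δ (x : (J → H.Om) × (D → Bool)) => x.2 δ) R E
          (fun v => (GF_le _ _ _ _) _ (GF_coord (fun δ : D => (dg δ).f) ∅ v _ (hR v)))
          (fun δ _ => digit_meas δ)
      refine abs_eq_zero.mp (le_antisymm ?_ (abs_nonneg _))
      refine le_of_forall_pos_le_add fun ε hε => ?_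
      obtain ⟨δ', hδ', hmain⟩ := main_small hP a f0 hf0 hRM (ε / 2) (by positivity)
      obtain ⟨E1, aE, haE, ha0, ha1, hdep, hsm, hL1⟩ := hgood δ' (ε / 2) hδ' (by positivity)
      have h1 := hmain R hR E hE E1 aE haE ha0 ha1 hdep hsm
      rw [integral_indicator hbX] at h1
      have haEi : Integrable aE P := by
        refine Integrable.of_bound (haE.mono (GF_le _ _ _ _) le_rfl).aestronglyMeasurable 1
          (Filter.Eventually.of_forall fun x => ?_)
        rw [Real.norm_eq_abs, abs_of_nonneg (ha0 x)]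
        exact ha1 x
      have h2 : ∫ x in basic R E, (tA H D a x - (P[tA H D a | MG dg f0 (f0.card - 1)]) x) ∂P =
          ∫ x in basic R E, (tA H D a x - aE x) ∂P -
          ∫ x in basic R E, ((P[tA H D a | MG dg f0 (f0.card - 1)]) x - aE x) ∂P := by
        have j1 : IntegrableOn (fun x => tA H D a x - aE x) (basic R E) P :=
          (hti.sub haEi).integrableOn
        have j2 : IntegrableOn (fun x => (P[tA H D a | MG dg f0 (f0.card - 1)]) x - aE x)
          (basic R E) P := (integrable_condExp.sub haEi).integrableOn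
        rw [← integral_sub j1 j2]
        refine integral_congr_ae (Filter.Eventually.of_forall fun x => ?_)
        beta_reduce
        ring
      have h3 : |∫ x in basic R E, ((P[tA H D a | MG dg f0 (f0.card - 1)]) x - aE x) ∂P| ≤
          ε / 2 := by
        refine (abs_integral_le_integral_abs).trans (le_trans ?_ hL1)
        exact setIntegral_le_integral (integrable_condExp.sub haEi).abs
          (Filter.Eventually.of_forall fun x => abs_nonneg _)
      rw [h2, zero_add]
      refine (abs_sub _ _).trans ?_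
      have h4 : |∫ x in basic R E, (tA H D a x - aE x) ∂P| ≤ ε / 2 := h1
      linarith
    · rw [integral_sub hti integrable_condExp, integral_condExp (GG_le _ _ _), sub_self]
  rw [integral_sub hti.integrableOn integrable_condExp.integrableOn] at hz
  linarith

/-- finite intersections of digits with support f0 are digits, almost everywhere -/
theorem inter_digit {D : Type} {dg : D → HDigit H} {U : Ultrafilter ℕ}
    {P : Measure ((J → H.Om) × (D → Bool))} [IsProbabilityMeasure P] (hP : Transfer dg U P)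
    (hinter : ∀ a b : D, ∀ h : (dg a).f = (dg b).f, ∃ c : D, dg c = interDigit (dg a) (dg b) h)
    (f0 : Finset J) (E : Finset D) (hE : ∀ δ ∈ E, (dg δ).f = f0) (hne : E.Nonempty) :
    ∃ a : D, (dg a).f = f0 ∧ ∀ᵐ x ∂P, (∀ δ ∈ E, x.2 δ = true) ↔ x.2 a = true := by
  classical
  induction hne using Finset.Nonempty.cons_induction with
  | singleton a =>
    exact ⟨a, hE a (by simp), Filter.Eventually.of_forall fun x => by simp⟩
  | cons δ s hδ hs ih =>
    obtain ⟨a, haf, hae⟩ := ih (fun δ' h => hE δ' (by simp [h]))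
    have hfδ : (dg δ).f = f0 := hE δ (by simp)
    obtain ⟨c, hc⟩ := hinter δ a (by rw [hfδ, haf])
    refine ⟨c, by rw [hc]; exact hfδ, ?_⟩
    -- the exceptional set
    let M : Set ((J → H.Om) × (D → Bool)) :=
      ({x | x.2 c = true} \ ({x | x.2 δ = true} ∩ {x | x.2 a = true})) ∪
        (({x | x.2 δ = true} ∩ {x | x.2 a = true}) \ {x | x.2 c = true})
    have hM : MeasurableSet[GF (fun x : (J → H.Om) × (D → Bool) => x.1) (fun δ => (dg δ).f)
          (fun δ x => x.2 δ) Finset.univ (Fintype.card J) {c, δ, a}] M := by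
      have e1 := GF_digit (Ω := H.Om) (fun δ => (dg δ).f) {c, δ, a} c (by simp)
      have e2 := GF_digit (Ω := H.Om) (fun δ => (dg δ).f) {c, δ, a} δ (by simp)
      have e3 := GF_digit (Ω := H.Om) (fun δ => (dg δ).f) {c, δ, a} a (by simp)
      have e4 := @MeasurableSet.inter _ (_) _ _ e2 e3
      exact @MeasurableSet.union _ (_) _ _ (@MeasurableSet.diff _ (_) _ _ e1 e4)
        (@MeasurableSet.diff _ (_) _ _ e4 e1)
    have hzero : P.real M = 0 := by
      have h1 := (hP _ M hM).2
      have h2 : ∀ n, {y : J → H.Om | (y, tval dg n y) ∈ M} = ∅ := by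
        intro n
        ext y
        simp only [Set.mem_ofPred_eq, Set.mem_empty_iff_false, iff_false]
        have hG : y ∈ (dg c).G n ↔ y ∈ (dg δ).G n ∧ y ∈ (dg a).G n := by
          rw [hc]
          rfl
        simp only [M, tval, Set.mem_union, Set.mem_diff, Set.mem_inter_iff, Set.mem_ofPred_eq,
          decide_eq_true_eq]
        rw [hG]
        tauto
      simp only [h2, measureReal_empty] at h1
      exact (tendsto_nhds_unique h1 tendsto_const_nhds)
    have hnull : P M = 0 := by
      rw [measureReal_def, ENNReal.toReal_eq_zero_iff] at hzero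
      exact hzero.resolve_right (measure_ne_top P M)
    have hMae : ∀ᵐ x ∂P, x ∉ M := measure_eq_zero_iff_ae_notMem.mp hnull
    filter_upwards [hae, hMae] with x hx1 hx2
    simp only [M, Set.mem_union, Set.mem_diff, Set.mem_inter_iff, Set.mem_ofPred_eq, not_or,
      not_and, not_not] at hx2
    rw [Finset.forall_mem_cons, hx1]
    constructor
    · rintro ⟨h1, h2⟩
      exact hx2.2 ⟨h1, h2⟩
    · intro h
      have := hx2.1 h
      tauto

end
end SPHK.CIPA

namespace SPHK
open CIPA

variable {J : Type} [Fintype J] [DecidableEq J] (H : Host J)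

theorem ci_limit {D : Type} [Countable D] (dg : D → HDigit H) (U : Ultrafilter ℕ)
    (hU : (U : Filter ℕ) ≤ atTop)
    (hRM : ∀ f : Finset J, f.Nonempty → H.RM (A := f) (Z := Empty) (fun a => a.1) Empty.elim)
    (hinter : ∀ a b : D, ∀ h : (dg a).f = (dg b).f, ∃ c : D, dg c = interDigit (dg a) (dg b) h)
    (hEM : ∀ a : D, 2 ≤ (dg a).f.card → ∀ η : ℝ, 0 < η →
      ∃ E : Finset (HDigit H), (∀ d ∈ E, ∃ b : D, dg b = d) ∧ LowOrder (dg a).f E ∧
        ∀ E' : Finset (HDigit H), LowOrder (dg a).f E' → E ⊆ E' →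
          ∀ᶠ n in (U : Filter ℕ), energyn (dg a) E' n ≤ energyn (dg a) E n + η)
    (P : Measure ((J → H.Om) × (D → Bool))) [IsProbabilityMeasure P]
    (hP : ∀ (E : Finset D) (M : Set ((J → H.Om) × (D → Bool))),
        MeasurableSet[GF (fun x : (J → H.Om) × (D → Bool) => x.1) (fun δ => (dg δ).f)
          (fun δ x => x.2 δ) Finset.univ (Fintype.card J) E] M →
        (∀ n, MeasurableSet {y | (y, tval dg n y) ∈ M}) ∧
        Tendsto (fun n => H.lam.real {y | (y, tval dg n y) ∈ M}) (U : Filter ℕ) (𝓝 (P.real M))) :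
    CI (fun x : (J → H.Om) × (D → Bool) => x.1) (fun δ => (dg δ).f) (fun δ x => x.2 δ) P := by
  classical
  have hT : Transfer dg U P := hP
  intro f0 hf0 φ hφ hφ1
  have hcard := hf0.card_pos
  have hgood : ∀ a : D, (dg a).f = f0 → ∀ δ' ε : ℝ, 0 < δ' → 0 < ε → GoodAE dg U P a f0 δ' ε := by
    intro a ha δ' ε hδ hε
    rcases Nat.lt_or_ge f0.card 2 with h1 | h2
    · exact good1 hT a f0 (by omega) δ' ε hδ hε
    · refine good2 hT a f0 ha h2 ?_ δ' ε hδ hε
      intro η hη
      have := hEM a (by rw [ha]; exact h2) η hη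
      rwa [ha] at this
  refine ci_abstract (MG dg f0 (f0.card - 1)) (MR dg f0) (MG dg f0 f0.card) P
    (MG_le_MR dg f0 hf0) (MR_le dg f0) (GG_le _ _ _) (GG_le _ _ _)
    {B | ∃ E : Finset D, (∀ δ ∈ E, (dg δ).f = f0) ∧ B = {x | ∀ δ ∈ E, x.2 δ = true}}
    ⟨∅, by simp, by ext x; simp⟩ ?_ ?_ ?_ ?_ φ hφ hφ1
  · rintro _ ⟨E, hE, rfl⟩ _ ⟨E', hE', rfl⟩
    refine ⟨E ∪ E', ?_, ?_⟩
    · intro δ hδ
      rcases Finset.mem_union.mp hδ with h | h
      · exact hE δ h
      · exact hE' δ h
    · ext x
      simp only [Set.mem_inter_iff, Set.mem_ofPred_eq, Finset.mem_union]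
      constructor
      · rintro ⟨h1, h2⟩ δ hδ
        exact hδ.elim (h1 δ) (h2 δ)
      · intro h
        exact ⟨fun δ hδ => h δ (Or.inl hδ), fun δ hδ => h δ (Or.inr hδ)⟩
  · rintro _ ⟨E, hE, rfl⟩
    have : {x : (J → H.Om) × (D → Bool) | ∀ δ ∈ E, x.2 δ = true} =
        ⋂ δ ∈ E, {x | x.2 δ = true} := by
      ext x
      simp
    rw [this]
    exact Finset.measurableSet_biInter _ fun δ _ => digit_meas δ
  · rintro _ ⟨E, hE, rfl⟩ S hS
    rcases E.eq_empty_or_nonempty with rfl | hne
    · have h1 : {x : (J → H.Om) × (D → Bool) | ∀ δ ∈ (∅ : Finset D), x.2 δ = true} = Set.univ := by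
        ext x
        simp
      rw [h1, Set.indicator_univ, condExp_const (GG_le _ _ _)]
    · obtain ⟨a, haf, hae⟩ := inter_digit hT hinter f0 E hE hne
      have h2 : {x : (J → H.Om) × (D → Bool) | ∀ δ ∈ E, x.2 δ = true}.indicator
          (fun _ => (1 : ℝ)) =ᵐ[P] tA H D a := by
        filter_upwards [hae] with x hx
        by_cases h3 : x.2 a = true
        · rw [tA, Set.indicator_of_mem (show x ∈ {x : (J → H.Om) × (D → Bool) |
            x.2 a = true} from h3), Set.indicator_of_mem]
          exact hx.mpr h3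
        · rw [tA, Set.indicator_of_notMem (show x ∉ {x : (J → H.Om) × (D → Bool) |
            x.2 a = true} from h3), Set.indicator_of_notMem]
          exact fun h => h3 (hx.mp h)
      have h4 := digit_ci hT a f0 haf (hRM f0 hf0) (hgood a haf) S hS
      have h5 : P[{x : (J → H.Om) × (D → Bool) | ∀ δ ∈ E, x.2 δ = true}.indicator
          (fun _ => (1 : ℝ)) | MG dg f0 (f0.card - 1)] =ᵐ[P]
          P[tA H D a | MG dg f0 (f0.card - 1)] := condExp_congr_ae h2
      refine (integral_congr_ae (ae_restrict_of_ae h2)).trans (h4.trans ?_)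
      exact integral_congr_ae (ae_restrict_of_ae h5.symm)
  · apply le_antisymm
    · refine sup_le ?_ ?_
      · refine iSup_le fun v => iSup_le fun hv => ?_
        rintro _ ⟨B, hB, rfl⟩
        apply MeasurableSpace.measurableSet_generateFrom
        refine ⟨(fun x : (J → H.Om) × (D → Bool) => x.1 v) ⁻¹' B, Set.univ, ?_,
          ⟨∅, by simp, by ext x; simp⟩, by simp⟩
        have h2 : MeasurableSpace.comap (fun x : (J → H.Om) × (D → Bool) => x.1 v) inferInstance ≤
            MG dg f0 (f0.card - 1) := by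
          refine le_sup_of_le_left ?_
          exact le_iSup_of_le v (le_iSup_of_le hv le_rfl)
        exact h2 _ ⟨B, hB, rfl⟩
      · refine iSup_le fun δ => iSup_le fun hδ => ?_
        rw [← measurable_iff_comap_le]
        refine @measurable_to_bool _ (_) _ ?_
        apply MeasurableSpace.measurableSet_generateFrom
        rcases Nat.lt_or_ge (dg δ).f.card f0.card with h1 | h1
        · refine ⟨{x | x.2 δ = true}, Set.univ, ?_, ⟨∅, by simp, by ext x; simp⟩, ?_⟩
          · have h2 : MeasurableSpace.comap (fun x : (J → H.Om) × (D → Bool) => x.2 δ)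
                inferInstance ≤ MG dg f0 (f0.card - 1) := by
              refine le_sup_of_le_right ?_
              exact le_iSup_of_le δ (le_iSup_of_le ⟨hδ.1, Nat.le_sub_one_of_lt h1⟩ le_rfl)
            exact h2 _ ⟨{true}, measurableSet_singleton true, rfl⟩
          · ext x
            simp
        · have hfe : (dg δ).f = f0 := Finset.eq_of_subset_of_card_le hδ.1 h1
          refine ⟨Set.univ, {x | ∀ δ' ∈ ({δ} : Finset D), x.2 δ' = true},
            @MeasurableSet.univ _ (_), ⟨{δ}, ?_, rfl⟩, ?_⟩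
          · intro δ' h
            rw [Finset.mem_singleton] at h
            rw [h]
            exact hfe
          · ext x
            simp
    · apply MeasurableSpace.generateFrom_le
      rintro _ ⟨T0, _, hT0, ⟨E, hE, rfl⟩, rfl⟩
      have h1 : MG dg f0 (f0.card - 1) ≤ MG dg f0 f0.card := by
        refine sup_le_sup le_rfl ?_
        refine iSup_le fun δ => iSup_le fun hδ => ?_
        exact le_iSup_of_le δ (le_iSup_of_le ⟨hδ.1, hδ.2.trans (Nat.sub_le _ _)⟩ le_rfl)
      refine @MeasurableSet.inter _ (_) _ _ (h1 _ hT0) ?_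
      have : {x : (J → H.Om) × (D → Bool) | ∀ δ ∈ E, x.2 δ = true} =
          ⋂ δ ∈ E, {x | x.2 δ = true} := by
        ext x
        simp
      rw [this]
      refine @Finset.measurableSet_biInter _ _ (_) _ _ fun δ hδ => ?_
      have h2 : MeasurableSpace.comap (fun x : (J → H.Om) × (D → Bool) => x.2 δ)
          inferInstance ≤ MG dg f0 f0.card := by
        refine le_sup_of_le_right ?_
        refine le_iSup_of_le δ (le_iSup_of_le ?_ le_rfl)
        exact ⟨(hE δ hδ).le, (congrArg Finset.card (hE δ hδ)).le⟩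
      exact h2 _ ⟨{true}, measurableSet_singleton true, rfl⟩

end SPHK
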