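import Pool.Agent.SPHK.Sup

/-!
# Row EM: the closed countable set of digits
-/

set_option autoImplicit false

open MeasureTheory ProbabilityTheory Filter
open scoped ENNReal Topology

noncomputable section
namespace SPHK

variable {J : Type} [Fintype J] [DecidableEq J] (H : Host J)

/-- Every digit has finite sets of digits of lower order with almost maximal energy. -/
theorem exists_max_energy (U : Ultrafilter ℕ) (A : HDigit H) (η : ℝ) (hη : 0 < η) :
    ∃ E : Finset (HDigit H), LowOrder A.f E ∧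
      ∀ E' : Finset (HDigit H), LowOrder A.f E' → E ⊆ E' →
        ∀ᶠ n in (U : Filter ℕ), energyn A E' n ≤ energyn A E n + η := by
  by_contra hno
  push Not at hno
  have step : ∀ k : ℕ, ∃ E : Finset (HDigit H), LowOrder A.f E ∧
      ∀ᶠ n in (U : Filter ℕ), k * η ≤ energyn A E n := by
    intro k
    induction k with
    | zero =>
      refine ⟨∅, fun d hd => absurd hd (Finset.notMem_empty d), Eventually.of_forall fun n => ?_⟩
      simpa using energyn_nonneg A ∅ n
    | succ k ih =>
      obtain ⟨E, hE, hEk⟩ := ih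
      obtain ⟨E', hE', hsub, hn⟩ := hno E hE
      refine ⟨E', hE', ?_⟩
      filter_upwards [hEk, hn] with n h1 h2
      push_cast
      linarith
  obtain ⟨k, hk⟩ := exists_nat_gt (1 / η)
  obtain ⟨E, _, hEk⟩ := step k
  obtain ⟨n, hn⟩ := hEk.exists
  have h1 := energyn_le_one A E n
  have h2 : 1 < k * η := by
    rw [div_lt_iff₀ hη] at hk
    exact hk
  linarith

theorem exists_closed_digits (U : Ultrafilter ℕ) (S0 : Set (HDigit H)) (h0 : S0.Countable) :
    ∃ S : Set (HDigit H), S0 ⊆ S ∧ S.Countable ∧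
      (∀ A ∈ S, ∀ B ∈ S, ∀ h : A.f = B.f, interDigit A B h ∈ S) ∧
      ∀ A ∈ S, 2 ≤ A.f.card → ∀ η : ℝ, 0 < η →
        ∃ E : Finset (HDigit H), (∀ d ∈ E, d ∈ S) ∧ LowOrder A.f E ∧
          ∀ E' : Finset (HDigit H), LowOrder A.f E' → E ⊆ E' →
            ∀ᶠ n in (U : Filter ℕ), energyn A E' n ≤ energyn A E n + η := by
  classical
  choose e heL heE using fun (A : HDigit H) (m : ℕ) =>
    exists_max_energy H U A (1 / ((m : ℝ) + 1)) (by positivity)
  let T : Set (HDigit H) → Set (HDigit H) := fun S =>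
    (S ∪ ⋃ A ∈ S, ⋃ B ∈ S, ⋃ h : A.f = B.f, {interDigit A B h}) ∪
      ⋃ A ∈ S, ⋃ m : ℕ, (e A m : Set (HDigit H))
  have hTc : ∀ S : Set (HDigit H), S.Countable → (T S).Countable := by
    intro S hS
    refine (hS.union ?_).union ?_
    · refine hS.biUnion fun A _ => hS.biUnion fun B _ => ?_
      exact Set.countable_iUnion fun h => Set.countable_singleton _
    · refine hS.biUnion fun A _ => Set.countable_iUnion fun m => ?_
      exact (e A m).countable_toSet
  let Sn : ℕ → Set (HDigit H) := fun n => Nat.rec S0 (fun _ S => T S) n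
  have hS0 : Sn 0 = S0 := rfl
  have hSs : ∀ n, Sn (n + 1) = T (Sn n) := fun n => rfl
  have hSc : ∀ n, (Sn n).Countable := by
    intro n
    induction n with
    | zero => rw [hS0]; exact h0
    | succ n ih => rw [hSs]; exact hTc _ ih
  have hmono1 : ∀ n, Sn n ⊆ Sn (n + 1) := by
    intro n d hd
    rw [hSs]
    exact Or.inl (Or.inl hd)
  have hmono : Monotone Sn := monotone_nat_of_le_succ hmono1
  refine ⟨⋃ n, Sn n, ?_, Set.countable_iUnion hSc, ?_, ?_⟩
  · intro d hd
    exact Set.mem_iUnion.mpr ⟨0, hd⟩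
  · intro A hA B hB h
    obtain ⟨n, hn⟩ := Set.mem_iUnion.mp hA
    obtain ⟨m, hm⟩ := Set.mem_iUnion.mp hB
    have hn' : A ∈ Sn (max n m) := hmono (le_max_left n m) hn
    have hm' : B ∈ Sn (max n m) := hmono (le_max_right n m) hm
    refine Set.mem_iUnion.mpr ⟨max n m + 1, ?_⟩
    rw [hSs]
    refine Or.inl (Or.inr ?_)
    simp only [Set.mem_iUnion]
    exact ⟨A, hn', B, hm', h, rfl⟩
  · intro A hA _ η hη
    obtain ⟨n, hn⟩ := Set.mem_iUnion.mp hA
    obtain ⟨m, hm⟩ := exists_nat_one_div_lt hη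
    refine ⟨e A m, ?_, heL A m, ?_⟩
    · intro d hd
      refine Set.mem_iUnion.mpr ⟨n + 1, ?_⟩
      rw [hSs]
      refine Or.inr ?_
      simp only [Set.mem_iUnion]
      exact ⟨A, hn, m, hd⟩
    · intro E' hE' hsub
      filter_upwards [heE A m E' hE' hsub] with k hk
      linarith

end SPHK
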