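import Pool.Agent.SPHK.DigSys

/-!
# The infinite removal lemma
-/

open MeasureTheory Filter Topology Set

set_option linter.unusedSectionVars false
set_option warn.classDefReducibility false

namespace Pool.Agent.SPHK

theorem pat_meas {X : Type*} {m : MeasurableSpace X} {A : Set X} (h : MeasurableSet[m] A)
    (p : Prop) : MeasurableSet[m] {x | x ∈ A ↔ p} := by
  by_cases hp : p
  · have h1 : {x | x ∈ A ↔ p} = A := by
      ext x
      simp [hp]
    rw [h1]
    exact h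
  · have h1 : {x | x ∈ A ↔ p} = Aᶜ := by
      ext x
      simp [hp]
    rw [h1]
    exact h.compl

namespace Dig

variable {J Om X Dg : Type*} [MeasurableSpace Om] {m0 : MeasurableSpace X} [DecidableEq J]
  [Fintype J] (D : Dig J Om X Dg)

/-- lower data and the digits of the finite set `E` inside `e` -/
def Hs (e : Finset J) (s : ℕ) (E : Finset Dg) : MeasurableSpace X :=
  D.Gs e s ⊔ D.Ds (fun δ => δ ∈ E ∧ D.supp δ ⊆ e)

/-- the side of the digit `δ` given by the pattern `θ` -/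
def Cd (θ : Finset Dg) (δ : Dg) : Set X := {x | x ∈ D.t δ ↔ δ ∈ θ}

variable {D}

theorem Hs_le (e : Finset J) (s : ℕ) (E : Finset Dg) : D.Hs e s E ≤ m0 :=
  sup_le (Gs_le e s) (Ds_le _)

theorem Cd_eq (θ : Finset Dg) (δ : Dg) : D.Cd θ δ = {x | x ∈ D.t δ ↔ δ ∈ θ} := rfl

theorem t_meas {Q : Dg → Prop} {δ : Dg} (h : Q δ) : MeasurableSet[D.Ds Q] (D.t δ) :=
  MeasurableSpace.measurableSet_generateFrom ⟨δ, h, rfl⟩

section

variable {P : Measure X} [IsProbabilityMeasure P]

/-- finitely many digits decide the sets up to a small error (martingale convergence) -/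
theorem exists_level [Countable Dg] (s : ℕ) {I : Type} [Fintype I] (e : I → Finset J)
    (K : I → Set X) (hK : ∀ i, MeasurableSet[D.Gs (e i) (s + 1)] (K i)) {d : ℝ} (hd : 0 < d)
    {ε : ENNReal} (hε : 0 < ε) :
    ∃ E : Finset Dg, (∀ δ ∈ E, (D.supp δ).card = s + 1 ∧ ∃ i, D.supp δ ⊆ e i) ∧
      ∀ i, P (K i ∩ {x | (P[ind (K i) | D.Hs (e i) s E]) x < 1 - d}) ≤ ε := by
  obtain ⟨enc, henc⟩ := Countable.exists_injective_nat Dg
  have hfin : ∀ n : ℕ, {δ | enc δ < n ∧ (D.supp δ).card = s + 1 ∧ ∃ i, D.supp δ ⊆ e i}.Finite := by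
    intro n
    refine Set.Finite.subset ((Set.finite_lt_nat n).preimage henc.injOn) ?_
    intro δ hδ
    exact hδ.1
  let En : ℕ → Finset Dg := fun n => (hfin n).toFinset
  have hEn : ∀ n δ, δ ∈ En n ↔ enc δ < n ∧ (D.supp δ).card = s + 1 ∧ ∃ i, D.supp δ ⊆ e i :=
    fun n δ => (hfin n).mem_toFinset
  let ℱ : I → Filtration ℕ m0 := fun i =>
    { seq := fun n => D.Hs (e i) s (En n)
      mono' := by
        intro n n' hn
        refine sup_le_sup le_rfl (Ds_mono ?_)
        rintro δ ⟨h1, h2⟩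
        refine ⟨?_, h2⟩
        rw [hEn] at h1 ⊢
        exact ⟨h1.1.trans_le hn, h1.2⟩
      le' := fun n => Hs_le _ _ _ }
  have hsup : ∀ i, D.Gs (e i) (s + 1) ≤ ⨆ n, ℱ i n := by
    intro i
    refine sup_le ?_ ?_
    · exact le_iSup_of_le 0 (le_sup_of_le_left (le_sup_of_le_left le_rfl))
    · refine MeasurableSpace.generateFrom_le ?_
      rintro A ⟨δ, ⟨h1, h2⟩, rfl⟩
      by_cases h3 : (D.supp δ).card ≤ s
      · refine (le_iSup (fun n => (ℱ i n)) 0) _ ?_
        exact (le_sup_left : D.Gs (e i) s ≤ D.Hs (e i) s (En 0)) _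
          ((le_sup_right : D.Ds _ ≤ D.Gs (e i) s) _ (t_meas ⟨h1, h3⟩))
      · refine (le_iSup (fun n => (ℱ i n)) (enc δ + 1)) _ ?_
        refine (le_sup_right : D.Ds _ ≤ D.Hs (e i) s (En (enc δ + 1))) _ (t_meas ⟨?_, h1⟩)
        rw [hEn]
        exact ⟨Nat.lt_succ_self _, by omega, i, h1⟩
  have hlim : ∀ i, Tendsto (fun n => P (K i ∩ {x | (P[ind (K i) | ℱ i n]) x < 1 - d})) atTop
      (𝓝 0) := by
    intro i
    have hKm : MeasurableSet[m0] (K i) := Gs_le _ _ _ (hK i)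
    have hi : Integrable (ind (K i)) P :=
      int_bdd P le_rfl (ind_measurable hKm) fun x => ind_abs _ x
    have h1 : ∀ᵐ x ∂P, Tendsto (fun n => (P[ind (K i) | ℱ i n]) x) atTop (𝓝 (ind (K i) x)) :=
      hi.tendsto_ae_condExp (ind_measurable (hsup i _ (hK i))).stronglyMeasurable
    have h2 : TendstoInMeasure P (fun n => P[ind (K i) | ℱ i n]) atTop (ind (K i)) :=
      tendstoInMeasure_of_tendsto_ae
        (fun n => (stronglyMeasurable_condExp.mono ((ℱ i).le n)).aestronglyMeasurable) h1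
    have h3 := h2 (ENNReal.ofReal d) (ENNReal.ofReal_pos.2 hd)
    refine tendsto_of_tendsto_of_tendsto_of_le_of_le tendsto_const_nhds h3 (fun _ => zero_le) ?_
    intro n
    refine measure_mono ?_
    rintro x ⟨hx1, hx2⟩
    show ENNReal.ofReal d ≤ edist ((P[ind (K i) | ℱ i n]) x) (ind (K i) x)
    rw [ind_apply_mem hx1, edist_dist, Real.dist_eq]
    refine ENNReal.ofReal_le_ofReal ?_
    have hx2' : (P[ind (K i) | ℱ i n]) x < 1 - d := hx2
    rw [abs_sub_comm]
    refine le_trans ?_ (le_abs_self _)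
    linarith
  have hev : ∀ᶠ n in atTop, ∀ i, P (K i ∩ {x | (P[ind (K i) | ℱ i n]) x < 1 - d}) ≤ ε := by
    rw [eventually_all]
    intro i
    filter_upwards [(hlim i).eventually (gt_mem_nhds hε)] with n hn
    exact hn.le
  obtain ⟨n, hn⟩ := hev.exists
  exact ⟨En n, fun δ hδ => ((hEn n δ).1 hδ).2, hn⟩

/-- on a side pattern, the sigma algebra `Hs` is the sigma algebra `Gs` -/
theorem exists_trace (s : ℕ) (e : Finset J) (E θ : Finset Dg) {C : Set X}
    (hC : ∀ x ∈ C, ∀ δ ∈ E, D.supp δ ⊆ e → (x ∈ D.t δ ↔ δ ∈ θ)) {B : Set X}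
    (hB : MeasurableSet[D.Hs e s E] B) :
    ∃ A, MeasurableSet[D.Gs e s] A ∧ B ∩ C = A ∩ C := by
  let m' : MeasurableSpace X :=
    { MeasurableSet' := fun B => ∃ A, MeasurableSet[D.Gs e s] A ∧ B ∩ C = A ∩ C
      measurableSet_empty := ⟨∅, @MeasurableSet.empty _ (D.Gs e s), rfl⟩
      measurableSet_compl := by
        rintro B ⟨A, hA, h⟩
        refine ⟨Aᶜ, hA.compl, ?_⟩
        ext x
        have h1 := Set.ext_iff.1 h x
        simp only [mem_inter_iff, mem_compl_iff] at h1 ⊢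
        tauto
      measurableSet_iUnion := by
        intro f hf
        choose A hA h using hf
        refine ⟨⋃ n, A n, @MeasurableSet.iUnion _ _ (D.Gs e s) _ _ hA, ?_⟩
        rw [iUnion_inter, iUnion_inter]
        exact iUnion_congr h }
  have hle : D.Hs e s E ≤ m' := by
    refine sup_le ?_ (MeasurableSpace.generateFrom_le ?_)
    · intro B hB
      exact ⟨B, hB, rfl⟩
    · rintro B ⟨δ, ⟨h1, h2⟩, rfl⟩
      by_cases hδ : δ ∈ θ
      · refine ⟨Set.univ, @MeasurableSet.univ _ (D.Gs e s), ?_⟩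
        ext x
        simp only [mem_inter_iff, mem_univ, true_and]
        constructor
        · exact fun h => h.2
        · exact fun h => ⟨(hC x h δ h1 h2).2 hδ, h⟩
      · refine ⟨∅, @MeasurableSet.empty _ (D.Gs e s), ?_⟩
        ext x
        simp only [mem_inter_iff, mem_empty_iff_false, false_and, iff_false, not_and]
        intro hx hxC
        exact hδ ((hC x hxC δ h1 h2).1 hx)
  exact hle B hB

theorem ind_biInter (F : Finset (Finset J)) (C : Finset J → Set X) (x : X) :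
    ind (⋂ f ∈ F, C f) x = ∏ f ∈ F, ind (C f) x := by
  by_cases hx : x ∈ ⋂ f ∈ F, C f
  · rw [ind_apply_mem hx]
    have hx' : ∀ f ∈ F, x ∈ C f := fun f hf => by
      have := Set.mem_iInter₂.1 hx f hf
      exact this
    rw [Finset.prod_eq_one fun f hf => ind_apply_mem (hx' f hf)]
  · rw [ind_apply_not_mem hx]
    have hx' : ∃ f ∈ F, x ∉ C f := by
      by_contra hcon
      push Not at hcon
      exact hx (Set.mem_iInter₂.2 hcon)
    obtain ⟨f, hf, hxf⟩ := hx'
    exact (Finset.prod_eq_zero hf (ind_apply_not_mem hxf)).symm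

/-- the conditional probability of an intersection of digit sets inside `e` is the product -/
theorem cE_prod (hCI : D.CI P) (s : ℕ) (e : Finset J) (F : Finset (Finset J))
    (C : Finset J → Set X) (hF : ∀ f ∈ F, f.card = s + 1) (hFe : ∀ f ∈ F, f ⊆ e)
    (hC : ∀ f ∈ F, MeasurableSet[D.Ts f] (C f)) :
    cE P (D.Gs e s) (⋂ f ∈ F, C f) =ᵐ[P] fun x => ∏ f ∈ F, cE P (D.Gs f s) (C f) x := by
  have hme : D.Gs e s ≤ m0 := Gs_le e s
  have hCm : MeasurableSet[m0] (⋂ f ∈ F, C f) :=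
    Finset.measurableSet_biInter F fun f hf => Ts_le f _ (hC f hf)
  have hi : Integrable (ind (⋂ f ∈ F, C f)) P :=
    int_bdd P le_rfl (ind_measurable hCm) fun x => ind_abs _ x
  have hgm : Measurable[D.Gs e s] (fun x => ∏ f ∈ F, cE P (D.Gs f s) (C f) x) :=
    meas_prod F _ fun f hf => (cE_meas _ _).mono (Gs_mono (hFe f hf) le_rfl) le_rfl
  have hgb : ∀ x, |∏ f ∈ F, cE P (D.Gs f s) (C f) x| ≤ 1 := fun x =>
    prod_abs F _ x fun f _ => cE_abs _ _ x
  have hgi : Integrable (fun x => ∏ f ∈ F, cE P (D.Gs f s) (C f) x) P := int_bdd P hme hgm hgb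
  refine (cE_ae hme hCm).trans ?_
  refine (ae_eq_condExp_of_forall_setIntegral_eq hme hi (fun _ _ _ => hgi.integrableOn) ?_
    hgm.stronglyMeasurable.aestronglyMeasurable).symm
  intro A hA _
  rw [setInt_eq P (hme _ hA), setInt_eq P (hme _ hA)]
  have h1 := prod_int hCI s F C hF hC (ind A) 1
    (ind_measurable (Gs_mono (Finset.subset_univ e) le_rfl _ hA)) (fun x => ind_abs _ x)
  rw [← h1]
  congr 1
  funext x
  rw [ind_biInter]

/-- the step from the finer to the coarser sigma algebra -/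
theorem cE_step {m H : MeasurableSpace X} (hmH : m ≤ H) (hH : H ≤ m0) {K C A : Set X}
    (hK : MeasurableSet[m0] K) (hC : MeasurableSet[H] C) (hA : MeasurableSet[m] A) (d : ℝ)
    (h : ∀ x ∈ A ∩ C, 1 - d ≤ (P[ind K | H]) x) :
    ∀ᵐ x ∂P, x ∈ A → cE P m (C \ K) x ≤ d * cE P m C x := by
  have hm0 : m ≤ m0 := hmH.trans hH
  have hCm : MeasurableSet[m0] C := hH _ hC
  have hAm : MeasurableSet[m0] A := hm0 _ hA
  have hi : ∀ {B : Set X}, MeasurableSet[m0] B → Integrable (ind B) P := fun hB =>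
    int_bdd P le_rfl (ind_measurable hB) fun x => ind_abs _ x
  -- the three products
  have hw1 : ind (A ∩ C) * ind Kᶜ = ind A * ind (C \ K) := by
    funext x
    show ind (A ∩ C) x * ind Kᶜ x = ind A x * ind (C \ K) x
    rw [Set.sdiff_eq, ind_inter, ind_inter]
    ring
  have hACm : MeasurableSet[H] (A ∩ C) := (hmH _ hA).inter hC
  have hprodi : ∀ {B B' : Set X}, MeasurableSet[m0] B → MeasurableSet[m0] B' →
      Integrable (ind B * ind B') P := by
    intro B B' hB hB'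
    exact int_bdd P le_rfl ((ind_measurable hB).mul (ind_measurable hB')) (B := 1 * 1) fun x =>
      mul_abs (ind_abs _ x) (ind_abs _ x)
  -- conditional expectation given `H`
  have h1 : P[ind (A ∩ C) * ind Kᶜ | H] =ᵐ[P] ind (A ∩ C) * P[ind Kᶜ | H] :=
    condExp_mul_of_stronglyMeasurable_left (ind_measurable hACm).stronglyMeasurable
      (hprodi (hH _ hACm) hK.compl) (hi hK.compl)
  have h2 : P[ind Kᶜ | H] =ᵐ[P] fun x => 1 - (P[ind K | H]) x := by
    have h3 : ind Kᶜ = (fun _ => (1 : ℝ)) - ind K := by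
      funext x
      by_cases hx : x ∈ K <;> simp [ind, hx]
    have h4 := condExp_sub (μ := P) (integrable_const (1 : ℝ)) (hi hK) H
    rw [← h3] at h4
    filter_upwards [h4] with x hx
    rw [hx, Pi.sub_apply, condExp_const hH]
  have h3 : P[ind A * ind (C \ K) | H] ≤ᵐ[P] d • (ind A * ind C) := by
    rw [← hw1]
    filter_upwards [h1, h2] with x hx1 hx2
    rw [hx1]
    show ind (A ∩ C) x * (P[ind Kᶜ | H]) x ≤ d * (ind A x * ind C x)
    rw [hx2, ← ind_inter]
    by_cases hx : x ∈ A ∩ C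
    · rw [ind_apply_mem hx]
      have := h x hx
      linarith
    · rw [ind_apply_not_mem hx]
      simp
  have h4 : P[ind A * ind (C \ K) | m] ≤ᵐ[P] P[d • (ind A * ind C) | m] := by
    have h5 := condExp_condExp_of_le (μ := P) (f := ind A * ind (C \ K)) hmH hH
    have h6 : P[P[ind A * ind (C \ K) | H] | m] ≤ᵐ[P] P[d • (ind A * ind C) | m] :=
      condExp_mono integrable_condExp ((hprodi hAm hCm).smul d) h3
    filter_upwards [h5, h6] with x hx5 hx6
    rw [← hx5]
    exact hx6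
  have h5 : P[ind A * ind (C \ K) | m] =ᵐ[P] ind A * P[ind (C \ K) | m] :=
    condExp_mul_of_stronglyMeasurable_left (ind_measurable hA).stronglyMeasurable
      (hprodi hAm (hCm.diff hK)) (hi (hCm.diff hK))
  have h6 : P[ind A * ind C | m] =ᵐ[P] ind A * P[ind C | m] :=
    condExp_mul_of_stronglyMeasurable_left (ind_measurable hA).stronglyMeasurable
      (hprodi hAm hCm) (hi hCm)
  have h7 : P[d • (ind A * ind C) | m] =ᵐ[P] d • P[ind A * ind C | m] := condExp_smul d _ m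
  filter_upwards [h4, h5, h6, h7, cE_ae (P := P) hm0 (hCm.diff hK), cE_ae (P := P) hm0 hCm] with x
    h4 h5 h6 h7 h8 h9 hxA
  rw [h5, h7] at h4
  have h10 : ind A x * (P[ind (C \ K) | m]) x ≤ d * ((P[ind A * ind C | m]) x) := h4
  rw [h6] at h10
  have h11 : ind A x * (P[ind (C \ K) | m]) x ≤ d * (ind A x * (P[ind C | m]) x) := h10
  rw [ind_apply_mem hxA, one_mul, one_mul] at h11
  rw [h8, h9]
  exact h11

/-- the pattern `θ` on the digits with support `f` -/
def Cf (D : Dig J Om X Dg) (E θ : Finset Dg) (f : Finset J) : Set X :=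
  {x | ∀ δ ∈ E, D.supp δ = f → (x ∈ D.t δ ↔ δ ∈ θ)}

/-- the pattern `θ` on the digits inside `e` -/
def Ce (D : Dig J Om X Dg) (E θ : Finset Dg) (e : Finset J) : Set X :=
  {x | ∀ δ ∈ E, D.supp δ ⊆ e → (x ∈ D.t δ ↔ δ ∈ θ)}

theorem Ce_eq (E θ : Finset Dg) (e : Finset J) :
    D.Ce E θ e = ⋂ f ∈ (E.image D.supp).filter (· ⊆ e), D.Cf E θ f := by
  ext x
  simp only [Ce, Cf, mem_iInter, Finset.mem_filter, Finset.mem_image]
  constructor
  · rintro h f ⟨-, hf⟩ δ hδ rfl
    exact h δ hδ hf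
  · intro h δ hδ he
    exact h (D.supp δ) ⟨⟨δ, hδ, rfl⟩, he⟩ δ hδ rfl

theorem Cf_meas (E θ : Finset Dg) (f : Finset J) : MeasurableSet[D.Ts f] (D.Cf E θ f) := by
  have h1 : D.Cf E θ f = ⋂ δ ∈ E, {x | D.supp δ = f → (x ∈ D.t δ ↔ δ ∈ θ)} := by
    ext x
    simp [Cf]
  rw [h1]
  refine Finset.measurableSet_biInter E fun δ _ => ?_
  by_cases hf : D.supp δ = f
  · have h2 : {x | D.supp δ = f → (x ∈ D.t δ ↔ δ ∈ θ)} = {x | x ∈ D.t δ ↔ δ ∈ θ} := by
      ext x
      simp [hf]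
    rw [h2]
    exact pat_meas (t_meas (D := D) (Q := fun δ => D.supp δ = f) hf) _
  · have h2 : {x | D.supp δ = f → (x ∈ D.t δ ↔ δ ∈ θ)} = Set.univ := by
      ext x
      simp [hf]
    rw [h2]
    exact @MeasurableSet.univ _ (D.Ts f)

theorem Ce_meas (E θ : Finset Dg) (e : Finset J) (s : ℕ)
    (hE : ∀ δ ∈ E, (D.supp δ).card = s + 1) : MeasurableSet[D.Gs e (s + 1)] (D.Ce E θ e) := by
  rw [Ce_eq]
  refine Finset.measurableSet_biInter _ fun f hf => ?_
  obtain ⟨h1, h2⟩ := Finset.mem_filter.1 hf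
  obtain ⟨δ, hδ, rfl⟩ := Finset.mem_image.1 h1
  exact Ts_le_Gs h2 (hE δ hδ).le _ (Cf_meas E θ _)

theorem Ce_meas_Hs (E θ : Finset Dg) (e : Finset J) (s : ℕ) :
    MeasurableSet[D.Hs e s E] (D.Ce E θ e) := by
  have h1 : D.Ce E θ e = ⋂ δ ∈ E, {x | D.supp δ ⊆ e → (x ∈ D.t δ ↔ δ ∈ θ)} := by
    ext x
    simp [Ce]
  rw [h1]
  refine Finset.measurableSet_biInter E fun δ hδ => ?_
  by_cases hf : D.supp δ ⊆ e
  · have h2 : {x | D.supp δ ⊆ e → (x ∈ D.t δ ↔ δ ∈ θ)} = {x | x ∈ D.t δ ↔ δ ∈ θ} := by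
      ext x
      simp [hf]
    rw [h2]
    exact pat_meas ((le_sup_right : D.Ds _ ≤ D.Hs e s E) _
      (t_meas (D := D) (Q := fun δ => δ ∈ E ∧ D.supp δ ⊆ e) ⟨hδ, hf⟩)) _
  · have h2 : {x | D.supp δ ⊆ e → (x ∈ D.t δ ↔ δ ∈ θ)} = Set.univ := by
      ext x
      simp [hf]
    rw [h2]
    exact @MeasurableSet.univ _ (D.Hs e s E)

/-- the key claim of the induction step -/
theorem claim0 (hCI : D.CI P) (s : ℕ) {I : Type} [Fintype I] [Nonempty I] (e : I → Finset J)
    (K : I → Set X) (hK : ∀ i, MeasurableSet[D.Gs (e i) (s + 1)] (K i)) (h0 : P (⋂ i, K i) = 0)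
    (E θ : Finset Dg) (hE : ∀ δ ∈ E, (D.supp δ).card = s + 1 ∧ ∃ i, D.supp δ ⊆ e i)
    (A : I → Set X) (hA : ∀ i, MeasurableSet[D.Gs (e i) s] (A i))
    (hq : ∀ i, ∀ x ∈ A i ∩ D.Ce E θ (e i),
      1 - 1 / (2 * (Fintype.card I : ℝ)) ≤ (P[ind (K i) | D.Hs (e i) s E]) x) :
    P (⋂ i, (A i ∩ {x | 0 < cE P (D.Gs (e i) s) (D.Ce E θ (e i)) x})) = 0 := by
  set d : ℝ := 1 / (2 * (Fintype.card I : ℝ)) with hd
  have hcardE : ∀ δ ∈ E, (D.supp δ).card = s + 1 := fun δ hδ => (hE δ hδ).1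
  have hFcard : ∀ f ∈ E.image D.supp, f.card = s + 1 := by
    intro f hf
    obtain ⟨δ, hδ, rfl⟩ := Finset.mem_image.1 hf
    exact hcardE δ hδ
  have hKm : ∀ i, MeasurableSet[m0] (K i) := fun i => Gs_le _ _ _ (hK i)
  have hCem : ∀ i, MeasurableSet[m0] (D.Ce E θ (e i)) := fun i =>
    Gs_le _ _ _ (Ce_meas E θ (e i) s hcardE)
  let Ls : I → Set X := fun i => A i ∩ {x | 0 < cE P (D.Gs (e i) s) (D.Ce E θ (e i)) x}
  have hLs : ∀ i, MeasurableSet[D.Gs (e i) s] (Ls i) := fun i =>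
    (hA i).inter (@measurableSet_lt _ _ _ _ _ (D.Gs (e i) s) _ _ _ _ _
      (@measurable_const _ _ _ (D.Gs (e i) s) _) (cE_meas _ _))
  have hL : MeasurableSet[D.Gs Finset.univ s] (⋂ i, Ls i) :=
    MeasurableSet.iInter fun i => Gs_mono (Finset.subset_univ _) le_rfl _ (hLs i)
  have hLm : MeasurableSet[m0] (⋂ i, Ls i) := Gs_le _ _ _ hL
  have hCum : MeasurableSet[m0] (D.Ce E θ Finset.univ) :=
    Gs_le _ _ _ (Ce_meas E θ Finset.univ s hcardE)
  -- intersections of patterns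
  have hpat : ∀ i x, ind (D.Ce E θ Finset.univ) x = ind (D.Ce E θ (e i)) x *
      ∏ f ∈ (E.image D.supp).filter (fun f => ¬ f ⊆ e i), ind (D.Cf E θ f) x := by
    intro i x
    rw [Ce_eq, Ce_eq, ind_biInter, ind_biInter, Finset.prod_filter_mul_prod_filter_not]
    refine Finset.prod_congr ?_ fun _ _ => rfl
    ext f
    simp
  -- one edge
  have hone : ∀ i, P.real (((⋂ i, Ls i) ∩ D.Ce E θ Finset.univ) \ K i) ≤
      d * P.real ((⋂ i, Ls i) ∩ D.Ce E θ Finset.univ) := by
    intro i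
    have hF1 : ∀ f ∈ (E.image D.supp).filter (fun f => ¬ f ⊆ e i), f.card = s + 1 := fun f hf =>
      hFcard f (Finset.mem_filter.1 hf).1
    have hF2 : ∀ f ∈ (E.image D.supp).filter (fun f => ¬ f ⊆ e i), ¬ f ⊆ e i := fun f hf =>
      (Finset.mem_filter.1 hf).2
    have hF3 : ∀ f ∈ (E.image D.supp).filter (fun f => ¬ f ⊆ e i),
        MeasurableSet[D.Ts f] (D.Cf E θ f) := fun f _ => Cf_meas E θ f
    have hCK : MeasurableSet[D.Gs (e i) (s + 1)] (D.Ce E θ (e i) \ K i) :=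
      (Ce_meas E θ (e i) s hcardE).diff (hK i)
    have hb1 := b_int hCI s (e i) hCK _ (D.Cf E θ) hF1 hF2 hF3 (ind (⋂ i, Ls i)) 1
      (ind_measurable hL) (fun x => ind_abs _ x)
    have hb2 := b_int hCI s (e i) (Ce_meas E θ (e i) s hcardE) _ (D.Cf E θ) hF1 hF2 hF3
      (ind (⋂ i, Ls i)) 1 (ind_measurable hL) (fun x => ind_abs _ x)
    have e1 : ∫ x, ind (D.Ce E θ (e i) \ K i) x * (ind (⋂ i, Ls i) x *
        ∏ f ∈ (E.image D.supp).filter (fun f => ¬ f ⊆ e i), ind (D.Cf E θ f) x) ∂P =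
        P.real (((⋂ i, Ls i) ∩ D.Ce E θ Finset.univ) \ K i) := by
      rw [← integral_ind P ((hLm.inter hCum).diff (hKm i))]
      congr 1
      funext x
      rw [Set.sdiff_eq, Set.sdiff_eq, ind_inter, ind_inter, ind_inter, hpat i x]
      ring
    have e2 : ∫ x, ind (D.Ce E θ (e i)) x * (ind (⋂ i, Ls i) x *
        ∏ f ∈ (E.image D.supp).filter (fun f => ¬ f ⊆ e i), ind (D.Cf E θ f) x) ∂P =
        P.real ((⋂ i, Ls i) ∩ D.Ce E θ Finset.univ) := by
      rw [← integral_ind P (hLm.inter hCum)]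
      congr 1
      funext x
      rw [ind_inter, hpat i x]
      ring
    rw [← e1, ← e2, hb1, hb2, ← integral_const_mul]
    have hrho_m : Measurable[m0] (fun x => ind (⋂ i, Ls i) x *
        ∏ f ∈ (E.image D.supp).filter (fun f => ¬ f ⊆ e i), cE P (D.Gs f s) (D.Cf E θ f) x) :=
      (ind_measurable hLm).mul (meas_prod _ _ fun f _ => (cE_meas _ _).mono (Gs_le _ _) le_rfl)
    have hrho_b : ∀ x, |ind (⋂ i, Ls i) x *
        ∏ f ∈ (E.image D.supp).filter (fun f => ¬ f ⊆ e i), cE P (D.Gs f s) (D.Cf E θ f) x| ≤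
        1 * 1 := fun x => mul_abs (ind_abs _ x) (prod_abs _ _ x fun f _ => cE_abs _ _ x)
    refine integral_mono_ae ?_ ?_ ?_
    · exact int_bdd P le_rfl (((cE_meas _ _).mono (Gs_le _ _) le_rfl).mul hrho_m)
        fun x => mul_abs (cE_abs _ _ x) (hrho_b x)
    · refine Integrable.const_mul ?_ d
      exact int_bdd P le_rfl (((cE_meas _ _).mono (Gs_le _ _) le_rfl).mul hrho_m)
        fun x => mul_abs (cE_abs _ _ x) (hrho_b x)
    · have hstep := cE_step (P := P) (m := D.Gs (e i) s) (H := D.Hs (e i) s E) le_sup_left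
        (Hs_le _ _ _) (hKm i) (Ce_meas_Hs E θ (e i) s) (hA i) d (hq i)
      filter_upwards [hstep] with x hx
      show cE P (D.Gs (e i) s) (D.Ce E θ (e i) \ K i) x * (ind (⋂ i, Ls i) x *
        ∏ f ∈ (E.image D.supp).filter (fun f => ¬ f ⊆ e i), cE P (D.Gs f s) (D.Cf E θ f) x) ≤
        d * (cE P (D.Gs (e i) s) (D.Ce E θ (e i)) x * (ind (⋂ i, Ls i) x *
        ∏ f ∈ (E.image D.supp).filter (fun f => ¬ f ⊆ e i), cE P (D.Gs f s) (D.Cf E θ f) x))
      by_cases hxL : x ∈ ⋂ i, Ls i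
      · have hxA : x ∈ A i := (Set.mem_iInter.1 hxL i).1
        rw [← mul_assoc d]
        refine mul_le_mul_of_nonneg_right (hx hxA) ?_
        exact mul_nonneg (ind_nonneg _ _) (Finset.prod_nonneg fun f _ => cE_nonneg _ _ _)
      · rw [ind_apply_not_mem hxL]
        simp
  -- the whole pattern has measure zero
  have hzero : P.real ((⋂ i, Ls i) ∩ D.Ce E θ Finset.univ) = 0 := by
    set W : Set X := (⋂ i, Ls i) ∩ D.Ce E θ Finset.univ with hW
    have h1 : W ⊆ (⋂ i, K i) ∪ ⋃ i, W \ K i := by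
      intro x hx
      by_cases hxK : x ∈ ⋂ i, K i
      · exact Or.inl hxK
      · right
        rw [Set.mem_iInter] at hxK
        push Not at hxK
        obtain ⟨i, hi⟩ := hxK
        exact Set.mem_iUnion.2 ⟨i, hx, hi⟩
    have h2 : P.real W ≤ P.real (⋂ i, K i) + ∑ i, P.real (W \ K i) := by
      refine (measureReal_mono h1).trans ((measureReal_union_le _ _).trans ?_)
      gcongr
      exact measureReal_iUnion_fintype_le _
    have h3 : P.real (⋂ i, K i) = 0 := by
      rw [Measure.real, h0]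
      rfl
    have h4 : ∑ i, P.real (W \ K i) ≤ ∑ _i : I, d * P.real W :=
      Finset.sum_le_sum fun i _ => hone i
    rw [Finset.sum_const, Finset.card_univ, nsmul_eq_mul] at h4
    have h5 : (Fintype.card I : ℝ) * (d * P.real W) = P.real W / 2 := by
      rw [hd]
      have h6 : (Fintype.card I : ℝ) ≠ 0 := by
        exact_mod_cast Fintype.card_ne_zero
      field_simp
    have h6 : 0 ≤ P.real W := measureReal_nonneg
    linarith
  -- conclusion
  have hprod := prod_int hCI s (E.image D.supp) (D.Cf E θ) hFcard (fun f _ => Cf_meas E θ f)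
    (ind (⋂ i, Ls i)) 1 (ind_measurable hL) (fun x => ind_abs _ x)
  have hprod0 : ∫ x, ind (⋂ i, Ls i) x * ∏ f ∈ E.image D.supp, ind (D.Cf E θ f) x ∂P = 0 := by
    rw [← hzero, ← integral_ind P (hLm.inter hCum)]
    congr 1
    funext x
    rw [ind_inter, Ce_eq, ind_biInter]
    congr 1
    refine Finset.prod_congr ?_ fun _ _ => rfl
    ext f
    simp
  rw [hprod0] at hprod
  have hint0 : Integrable (fun x => ind (⋂ i, Ls i) x *
      ∏ f ∈ E.image D.supp, cE P (D.Gs f s) (D.Cf E θ f) x) P :=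
    int_bdd P le_rfl ((ind_measurable hLm).mul (meas_prod _ _ fun f _ =>
      (cE_meas _ _).mono (Gs_le _ _) le_rfl)) (B := 1 * 1)
      fun x => mul_abs (ind_abs _ x) (prod_abs _ _ x fun f _ => cE_abs _ _ x)
  have hae := (integral_eq_zero_iff_of_nonneg (fun x => mul_nonneg (ind_nonneg _ _)
    (Finset.prod_nonneg fun f _ => cE_nonneg _ _ _)) hint0).1 hprod.symm
  have hpf : ∀ᵐ x ∂P, ∀ i, cE P (D.Gs (e i) s) (D.Ce E θ (e i)) x =
      ∏ f ∈ (E.image D.supp).filter (· ⊆ e i), cE P (D.Gs f s) (D.Cf E θ f) x := by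
    rw [ae_all_iff]
    intro i
    have h1 := cE_prod hCI s (e i) ((E.image D.supp).filter (· ⊆ e i)) (D.Cf E θ)
      (fun f hf => hFcard f (Finset.mem_filter.1 hf).1) (fun f hf => (Finset.mem_filter.1 hf).2)
      (fun f _ => Cf_meas E θ f)
    rw [← Ce_eq] at h1
    exact h1
  have hfinal : ∀ᵐ x ∂P, x ∉ ⋂ i, Ls i := by
    filter_upwards [hae, hpf] with x hx1 hx2 hxL
    have hx1' : ind (⋂ i, Ls i) x * ∏ f ∈ E.image D.supp, cE P (D.Gs f s) (D.Cf E θ f) x = 0 := hx1
    rw [ind_apply_mem hxL, one_mul] at hx1'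
    obtain ⟨f, hf, hf0⟩ := Finset.prod_eq_zero_iff.1 hx1'
    obtain ⟨δ, hδ, rfl⟩ := Finset.mem_image.1 hf
    obtain ⟨i, hi⟩ := (hE δ hδ).2
    have h1 : 0 < cE P (D.Gs (e i) s) (D.Ce E θ (e i)) x := (Set.mem_iInter.1 hxL i).2
    rw [hx2 i, Finset.prod_eq_zero (Finset.mem_filter.2 ⟨hf, hi⟩) hf0] at h1
    exact lt_irrefl _ h1
  rw [ae_iff] at hfinal
  have hset : {x | ¬ x ∉ ⋂ i, Ls i} = ⋂ i, Ls i := by
    ext x
    exact not_not
  rw [hset] at hfinal
  exact hfinal

/-- RS: the infinite removal lemma -/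
theorem RS (hCI : D.CI P) [Countable Dg] (s : ℕ) : ∀ {I : Type} [Fintype I] (e : I → Finset J)
    (K : I → Set X), (∀ i, MeasurableSet[D.Gs (e i) s] (K i)) → P (⋂ i, K i) = 0 →
    ∀ ε : ENNReal, 0 < ε → ∃ (E : Finset Dg) (M : I → Set X) (N : Set (J → Om)),
      MeasurableSet N ∧ P (D.y ⁻¹' N) = 0 ∧ (∀ i, MeasurableSet[D.Fs (e i) s E] (M i)) ∧
      (∀ i, P (K i \ M i) ≤ ε) ∧ ⋂ i, M i ⊆ D.y ⁻¹' N := by
  induction s with
  | zero =>
    intro I _ e K hK h0 ε hε
    have hG : ∀ i, D.Gs (e i) 0 = D.Ys (e i) := by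
      intro i
      refine le_antisymm (sup_le le_rfl (MeasurableSpace.generateFrom_le ?_)) le_sup_left
      rintro A ⟨δ, ⟨-, h2⟩, rfl⟩
      exact absurd (D.ne δ) (by simpa using h2)
    have hY : ∀ i, D.Ys (e i) ≤ MeasurableSpace.comap D.y inferInstance := by
      intro i
      refine iSup₂_le fun v _ => ?_
      have h1 : (fun x => D.y x v) = (fun z : J → Om => z v) ∘ D.y := rfl
      rw [h1, ← MeasurableSpace.comap_comp]
      exact MeasurableSpace.comap_mono (measurable_pi_apply v).comap_le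
    have hN : ∀ i, ∃ N : Set (J → Om), MeasurableSet N ∧ D.y ⁻¹' N = K i := by
      intro i
      have h1 := hK i
      rw [hG i] at h1
      exact MeasurableSpace.measurableSet_comap.1 (hY i _ h1)
    choose N hNm hNe using hN
    refine ⟨∅, K, ⋂ i, N i, MeasurableSet.iInter hNm, ?_, fun i => ?_, fun i => ?_, ?_⟩
    · rw [Set.preimage_iInter, Set.iInter_congr hNe]
      exact h0
    · have h1 := hK i
      rw [hG i] at h1
      exact (le_sup_left : D.Ys (e i) ≤ D.Fs (e i) 0 ∅) _ h1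
    · rw [Set.sdiff_self, measure_empty]
      exact zero_le
    · rw [Set.preimage_iInter, Set.iInter_congr hNe]
  | succ s ih =>
    intro I _ e K hK h0 ε hε
    rcases isEmpty_or_nonempty I with hI | hI
    · exfalso
      rw [Set.iInter_of_empty, measure_univ] at h0
      exact one_ne_zero h0
    classical
    have hcI : (0 : ℝ) < Fintype.card I := by exact_mod_cast Fintype.card_pos
    obtain ⟨E, hE, hEb⟩ := exists_level (P := P) (D := D) s e K hK
      (d := 1 / (2 * (Fintype.card I : ℝ))) (by positivity) (ε := ε / 2) (ENNReal.half_pos hε.ne')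
    -- the sets on which the density is large
    have hA : ∀ (θ : Finset Dg) (i : I), ∃ A, MeasurableSet[D.Gs (e i) s] A ∧
        {x | 1 - 1 / (2 * (Fintype.card I : ℝ)) ≤ (P[ind (K i) | D.Hs (e i) s E]) x} ∩
          D.Ce E θ (e i) = A ∩ D.Ce E θ (e i) := by
      intro θ i
      refine exists_trace s (e i) E θ (C := D.Ce E θ (e i)) (fun x hx δ hδ hδe => hx δ hδ hδe) ?_
      exact @measurableSet_le _ _ _ _ _ (D.Hs (e i) s E) _ _ _ _ _
        (@measurable_const _ _ _ (D.Hs (e i) s E) _) stronglyMeasurable_condExp.measurable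
    choose A hAm hAe using hA
    let Lt : Finset Dg → I → Set X := fun θ i =>
      A θ i ∩ {x | 0 < cE P (D.Gs (e i) s) (D.Ce E θ (e i)) x}
    have hLt : ∀ θ i, MeasurableSet[D.Gs (e i) s] (Lt θ i) := fun θ i =>
      (hAm θ i).inter (@measurableSet_lt _ _ _ _ _ (D.Gs (e i) s) _ _ _ _ _
        (@measurable_const _ _ _ (D.Gs (e i) s) _) (cE_meas _ _))
    have hLt0 : ∀ θ, P (⋂ i, Lt θ i) = 0 := fun θ =>
      claim0 hCI s e K hK h0 E θ hE (A θ) (hAm θ) (fun i x hx => by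
        have h1 : x ∈ {x | 1 - 1 / (2 * (Fintype.card I : ℝ)) ≤
          (P[ind (K i) | D.Hs (e i) s E]) x} ∩ D.Ce E θ (e i) := by
          rw [hAe θ i]
          exact hx
        exact h1.1)
    let ε' : ENNReal := ε / 2 / (E.powerset.card : ENNReal)
    have hε' : 0 < ε' := ENNReal.div_pos (ENNReal.half_pos hε.ne').ne' (ENNReal.natCast_ne_top _)
    have hrec := fun θ => ih e (Lt θ) (hLt θ) (hLt0 θ) ε' hε'
    choose Er Mr Nr hNm hN0 hMm hMs hMN using hrec
    refine ⟨E ∪ E.powerset.biUnion Er,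
      fun i => ⋂ θ ∈ E.powerset, ((D.Ce E θ (e i))ᶜ ∪ Mr θ i),
      ⋃ θ ∈ E.powerset, Nr θ, ?_, ?_, fun i => ?_, fun i => ?_, ?_⟩
    · exact Finset.measurableSet_biUnion _ fun θ _ => hNm θ
    · rw [Set.preimage_iUnion₂]
      exact (measure_biUnion_null_iff (Finset.countable_toSet _)).2 fun θ _ => hN0 θ
    · refine Finset.measurableSet_biInter _ fun θ hθ => ?_
      refine MeasurableSet.union (MeasurableSet.compl ?_) ?_
      · have h1 : D.Ce E θ (e i) = ⋂ δ ∈ E, {x | D.supp δ ⊆ e i → (x ∈ D.t δ ↔ δ ∈ θ)} := by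
          ext x
          simp [Ce]
        rw [h1]
        refine Finset.measurableSet_biInter E fun δ hδ => ?_
        by_cases hf : D.supp δ ⊆ e i
        · have h2 : {x | D.supp δ ⊆ e i → (x ∈ D.t δ ↔ δ ∈ θ)} = {x | x ∈ D.t δ ↔ δ ∈ θ} := by
            ext x
            simp [hf]
          rw [h2]
          refine pat_meas ((le_sup_right : D.Ds _ ≤
            D.Fs (e i) (s + 1) (E ∪ E.powerset.biUnion Er)) _ (t_meas (D := D) ?_)) _
          exact ⟨Finset.mem_union_left _ hδ, hf, (hE δ hδ).1.le⟩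
        · have h2 : {x | D.supp δ ⊆ e i → (x ∈ D.t δ ↔ δ ∈ θ)} = Set.univ := by
            ext x
            simp [hf]
          rw [h2]
          exact MeasurableSet.univ
      · refine Fs_mono (Nat.le_succ s) ?_ _ (hMm θ i)
        exact (Finset.subset_biUnion_of_mem Er hθ).trans Finset.subset_union_right
    · -- the size of the exceptional set
      have hsub : K i \ ⋂ θ ∈ E.powerset, ((D.Ce E θ (e i))ᶜ ∪ Mr θ i) ⊆
          (K i ∩ {x | (P[ind (K i) | D.Hs (e i) s E]) x < 1 - 1 / (2 * (Fintype.card I : ℝ))}) ∪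
          ((⋃ θ ∈ E.powerset, (D.Ce E θ (e i) ∩
            {x | ¬ 0 < cE P (D.Gs (e i) s) (D.Ce E θ (e i)) x})) ∪
          ⋃ θ ∈ E.powerset, (Lt θ i \ Mr θ i)) := by
        rintro x ⟨hxK, hxM⟩
        rw [Set.mem_iInter₂] at hxM
        push Not at hxM
        obtain ⟨θ, hθ, hxθ⟩ := hxM
        rw [Set.mem_union, not_or, Set.mem_compl_iff, not_not] at hxθ
        obtain ⟨hxC, hxMr⟩ := hxθ
        by_cases h1 : (P[ind (K i) | D.Hs (e i) s E]) x < 1 - 1 / (2 * (Fintype.card I : ℝ))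
        · exact Or.inl ⟨hxK, h1⟩
        · right
          by_cases h2 : 0 < cE P (D.Gs (e i) s) (D.Ce E θ (e i)) x
          · right
            refine Set.mem_iUnion₂.2 ⟨θ, hθ, ⟨?_, h2⟩, hxMr⟩
            have h3 : x ∈ A θ i ∩ D.Ce E θ (e i) := by
              rw [← hAe θ i]
              exact ⟨not_lt.1 h1, hxC⟩
            exact h3.1
          · left
            exact Set.mem_iUnion₂.2 ⟨θ, hθ, hxC, h2⟩
      have hcard : ∀ δ ∈ E, (D.supp δ).card = s + 1 := fun δ hδ => (hE δ hδ).1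
      have hnull : ∀ θ, P (D.Ce E θ (e i) ∩
          {x | ¬ 0 < cE P (D.Gs (e i) s) (D.Ce E θ (e i)) x}) = 0 := by
        intro θ
        have hCm : MeasurableSet[m0] (D.Ce E θ (e i)) :=
          Gs_le _ _ _ (Ce_meas E θ (e i) s hcard)
        have hZ : MeasurableSet[D.Gs (e i) s]
            {x | ¬ 0 < cE P (D.Gs (e i) s) (D.Ce E θ (e i)) x} :=
          (@measurableSet_lt _ _ _ _ _ (D.Gs (e i) s) _ _ _ _ _
            (@measurable_const _ _ _ (D.Gs (e i) s) _) (cE_meas _ _)).compl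
        have h1 := cE_key (P := P) (Gs_le (e i) s) hCm (ind_measurable hZ) (fun x => ind_abs _ x)
        have h2 : ∀ x, ind {x | ¬ 0 < cE P (D.Gs (e i) s) (D.Ce E θ (e i)) x} x *
            cE P (D.Gs (e i) s) (D.Ce E θ (e i)) x = 0 := by
          intro x
          by_cases hx : 0 < cE P (D.Gs (e i) s) (D.Ce E θ (e i)) x
          · rw [ind_apply_not_mem (by simpa using hx), zero_mul]
          · rw [le_antisymm (not_lt.1 hx) (cE_nonneg _ _ _), mul_zero]
        simp only [h2, integral_zero] at h1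
        have h3 : ∫ x, ind {x | ¬ 0 < cE P (D.Gs (e i) s) (D.Ce E θ (e i)) x} x *
            ind (D.Ce E θ (e i)) x ∂P = P.real (D.Ce E θ (e i) ∩
            {x | ¬ 0 < cE P (D.Gs (e i) s) (D.Ce E θ (e i)) x}) := by
          rw [← integral_ind P (hCm.inter (Gs_le _ _ _ hZ))]
          congr 1
          funext x
          rw [ind_inter, mul_comm]
        rw [h3] at h1
        exact (measureReal_eq_zero_iff (measure_ne_top _ _)).1 h1
      refine (measure_mono hsub).trans ((measure_union_le _ _).trans ?_)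
      have h1 := hEb i
      have h2 : P ((⋃ θ ∈ E.powerset, (D.Ce E θ (e i) ∩
            {x | ¬ 0 < cE P (D.Gs (e i) s) (D.Ce E θ (e i)) x})) ∪
          ⋃ θ ∈ E.powerset, (Lt θ i \ Mr θ i)) ≤ ε / 2 := by
        refine (measure_union_le _ _).trans ?_
        have h3 : P (⋃ θ ∈ E.powerset, (D.Ce E θ (e i) ∩
            {x | ¬ 0 < cE P (D.Gs (e i) s) (D.Ce E θ (e i)) x})) = 0 :=
          (measure_biUnion_null_iff (Finset.countable_toSet _)).2 fun θ _ => hnull θ
        rw [h3, zero_add]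
        refine (measure_biUnion_finset_le _ _).trans ?_
        refine (Finset.sum_le_sum fun θ _ => hMs θ i).trans ?_
        rw [Finset.sum_const, nsmul_eq_mul]
        exact ENNReal.mul_div_le
      calc _ ≤ ε / 2 + ε / 2 := add_le_add h1 h2
        _ = ε := ENNReal.add_halves ε
    · intro x hx
      have hx' := fun i => Set.mem_iInter.1 hx i
      let θ : Finset Dg := E.filter (fun δ => x ∈ D.t δ)
      have hθ : θ ∈ E.powerset := Finset.mem_powerset.2 (Finset.filter_subset _ _)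
      have hC : ∀ i, x ∈ D.Ce E θ (e i) := by
        intro i δ hδ _
        show x ∈ D.t δ ↔ δ ∈ E.filter (fun δ => x ∈ D.t δ)
        rw [Finset.mem_filter]
        exact ⟨fun h => ⟨hδ, h⟩, fun h => h.2⟩
      have hM : x ∈ ⋂ i, Mr θ i := by
        refine Set.mem_iInter.2 fun i => ?_
        rcases Set.mem_iInter₂.1 (hx' i) θ hθ with h1 | h1
        · exact absurd (hC i) h1
        · exact h1
      exact Set.mem_iUnion₂.2 ⟨θ, hθ, hMN θ hM⟩

end

end Dig

end Pool.Agent.SPHK
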