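import Pool.Agent.SPHK.Digit
import Pool.Agent.SPHK.RSet

/-! Project SPHK, row RS: the infinite removal lemma (A.8), adaptor to the set version. -/

set_option autoImplicit false
set_option linter.unusedSectionVars false

open MeasureTheory ProbabilityTheory Filter
open scoped ENNReal Topology

noncomputable section
namespace SPHK

section Adapt

variable {J : Type} [Fintype J] [DecidableEq J] {Ω : Type} [MeasurableSpace Ω] {X : Type}
  {D : Type}

theorem comap_bool (t : X → Bool) : MeasurableSpace.comap t inferInstance =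
    MeasurableSpace.generateFrom {{x | t x = true}} := by
  refine le_antisymm ?_ (MeasurableSpace.generateFrom_le ?_)
  · rintro A ⟨B, -, rfl⟩
    have h1 : MeasurableSet[MeasurableSpace.generateFrom {{x | t x = true}}] {x | t x = true} :=
      MeasurableSpace.measurableSet_generateFrom rfl
    have hm : Measurable[MeasurableSpace.generateFrom {{x | t x = true}}] t := by
      refine @measurable_to_bool _ (MeasurableSpace.generateFrom {{x | t x = true}}) t ?_
      exact h1
    exact hm trivial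
  · intro A hA
    rw [Set.mem_singleton_iff] at hA
    subst hA
    exact ⟨{true}, trivial, rfl⟩

theorem iSup_bool (t : D → X → Bool) (Q : D → Prop) :
    ⨆ δ ∈ {δ : D | Q δ}, MeasurableSpace.comap (t δ) inferInstance =
      MeasurableSpace.generateFrom {A | ∃ δ, Q δ ∧ A = {x | t δ x = true}} := by
  refine le_antisymm (iSup₂_le fun δ hδ => ?_) (MeasurableSpace.generateFrom_le ?_)
  · rw [comap_bool]
    refine MeasurableSpace.generateFrom_le ?_
    intro A hA
    rw [Set.mem_singleton_iff] at hA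
    subst hA
    exact MeasurableSpace.measurableSet_generateFrom ⟨δ, hδ, rfl⟩
  · rintro A ⟨δ, hδ, rfl⟩
    refine le_iSup₂ (f := fun δ (_ : δ ∈ {δ : D | Q δ}) =>
      MeasurableSpace.comap (t δ) (inferInstance : MeasurableSpace Bool)) δ hδ _ ?_
    exact ⟨{true}, trivial, rfl⟩

end Adapt

/-- RS, the infinite removal lemma -/
theorem infinite_removal {J : Type} [Fintype J] [DecidableEq J] {Ω : Type} [MeasurableSpace Ω]
    {X : Type} [mX : MeasurableSpace X] (P : Measure X) [IsProbabilityMeasure P] (y : X → J → Ω)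
    (hy : Measurable y) {D : Type} [Countable D] (f : D → Finset J) (hf : ∀ δ, (f δ).Nonempty)
    (t : D → X → Bool) (ht : ∀ δ, Measurable (t δ)) (hCI : CI y f t P) (s : ℕ)
    {I : Type} [Fintype I] (e : I → Finset J) (K : I → Set X)
    (hK : ∀ i, MeasurableSet[GG y f t (e i) s] (K i)) (h0 : P (⋂ i, K i) = 0) (ε : ℝ) (hε : 0 < ε) :
    ∃ (E : Finset D) (M : I → Set X) (N : Set (J → Ω)),
      (∀ i, MeasurableSet[GF y f t (e i) s E] (M i)) ∧ (∀ i, P.real (K i \ M i) ≤ ε) ∧
      MeasurableSet N ∧ P (y ⁻¹' N) = 0 ∧ (⋂ i, M i) ⊆ y ⁻¹' N := by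
  let Dg : Pool.Agent.SPHK.Dig J Ω X D :=
    { y := y
      supp := f
      t := fun δ => {x | t δ x = true}
      meas_y := fun v => (measurable_pi_apply v).comp hy
      meas_t := fun δ => ht δ (measurableSet_singleton true)
      ne := hf }
  have hGG : ∀ e s, Dg.Gs e s = GG y f t e s := by
    intro e s
    show Dg.Ys e ⊔ _ = SY y e ⊔ _
    rw [iSup_bool t (fun δ => f δ ⊆ e ∧ (f δ).card ≤ s)]
    rfl
  have hRR : ∀ f0, Dg.Rs f0 = RR y f t f0 := by
    intro f0
    show Dg.Ys Finset.univ ⊔ _ = SY y Finset.univ ⊔ _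
    rw [iSup_bool t (fun δ => (f δ).card ≤ f0.card ∧ f δ ≠ f0)]
    rfl
  have hGF : ∀ e s E, Dg.Fs e s E = GF y f t e s E := by
    intro e s E
    show Dg.Ys e ⊔ _ = SY y e ⊔ _
    rw [iSup_bool t (fun δ => δ ∈ E ∧ f δ ⊆ e ∧ (f δ).card ≤ s)]
    rfl
  have hCI' : Dg.CI P := by
    intro s f0 hf0 A hA
    have hne : f0.Nonempty := Finset.card_pos.1 (by omega)
    have hAm : MeasurableSet[mX] A := Pool.Agent.SPHK.Dig.Ts_le (D := Dg) f0 _ hA
    have hA1 : MeasurableSet[GG y f t f0 f0.card] A := by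
      rw [← hGG]
      exact Pool.Agent.SPHK.Dig.Ts_le_Gs (D := Dg) (Finset.Subset.refl f0) le_rfl _ hA
    have h1 := hCI f0 hne (Pool.Agent.SPHK.ind A) (Pool.Agent.SPHK.ind_measurable hA1)
      (fun x => Pool.Agent.SPHK.ind_abs A x)
    rw [← hRR, ← hGG, hf0, Nat.add_sub_cancel] at h1
    have h2 := Pool.Agent.SPHK.cE_ae (P := P) (Pool.Agent.SPHK.Dig.Rs_le (D := Dg) f0) hAm
    have h3 := Pool.Agent.SPHK.cE_ae (P := P) (Pool.Agent.SPHK.Dig.Gs_le (D := Dg) f0 s) hAm
    exact h2.trans (h1.trans h3.symm)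
  obtain ⟨E, M, N, hN, hN0, hM, hKM, hMN⟩ := Pool.Agent.SPHK.Dig.RS hCI' s e K
    (fun i => by
      rw [hGG]
      exact hK i) h0 (ENNReal.ofReal ε) (ENNReal.ofReal_pos.2 hε)
  refine ⟨E, M, N, fun i => ?_, fun i => ?_, hN, hN0, hMN⟩
  · rw [← hGF]
    exact hM i
  · exact ENNReal.toReal_le_of_le_ofReal hε.le (hKM i)

end SPHK
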