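import Pool.Agent.SPHK.Lim
import Pool.Agent.SPHK.EM
import Pool.Agent.SPHK.CIP
import Pool.Agent.SPHK.RS

/-! Project SPHK, row ART: removal in the host (A.9), by compactness from the limit measure, the
closed countable set of digits, CI for the limit measure and the infinite removal lemma. -/

set_option autoImplicit false

open MeasureTheory ProbabilityTheory Filter
open scoped ENNReal Topology

noncomputable section
namespace SPHK

/-- Sets measurable for GF y f t e s E depend only on y_v (v in e) and t_δ (f δ in e). -/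
theorem art_GF_dep {J : Type} [Fintype J] [DecidableEq J] {Ω : Type} [MeasurableSpace Ω] {X : Type}
    {D : Type} (y : X → J → Ω) (f : D → Finset J) (t : D → X → Bool) (e : Finset J) (s : ℕ)
    (E : Finset D) (M : Set X) (hM : MeasurableSet[GF y f t e s E] M) (x x2 : X)
    (hy : ∀ v ∈ e, y x v = y x2 v) (ht : ∀ δ, f δ ⊆ e → t δ x = t δ x2) : x ∈ M ↔ x2 ∈ M := by
  let MM : MeasurableSpace X :=
    { MeasurableSet' := fun S => x ∈ S ↔ x2 ∈ S
      measurableSet_empty := by simp
      measurableSet_compl := by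
        intro S hS
        simp only [Set.mem_compl_iff]
        exact not_congr hS
      measurableSet_iUnion := by
        intro S hS
        simp only [Set.mem_iUnion]
        exact exists_congr fun i => hS i }
  have hle : GF y f t e s E ≤ MM := by
    unfold GF SY
    refine sup_le ?_ ?_
    · refine iSup₂_le fun v hv => ?_
      rintro S ⟨S', _, rfl⟩
      change y x v ∈ S' ↔ y x2 v ∈ S'
      rw [hy v hv]
    · refine iSup₂_le fun δ hδ => ?_
      rintro S ⟨S', _, rfl⟩
      change t δ x ∈ S' ↔ t δ x2 ∈ S'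
      rw [ht δ hδ.2.1]
  exact hle M hM

theorem art_GF_mono {J : Type} [Fintype J] [DecidableEq J] {Ω : Type} [MeasurableSpace Ω] {X : Type}
    {D : Type} (y : X → J → Ω) (f : D → Finset J) (t : D → X → Bool) {e e2 : Finset J}
    (he : e ⊆ e2) {s s2 : ℕ} (hs : s ≤ s2) {E E2 : Finset D} (hE : E ⊆ E2) :
    GF y f t e s E ≤ GF y f t e2 s2 E2 := by
  unfold GF SY
  refine sup_le_sup ?_ ?_
  · exact biSup_mono fun v hv => he hv
  · exact biSup_mono fun δ hδ => ⟨hE hδ.1, hδ.2.1.trans he, hδ.2.2.trans hs⟩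

theorem art_GF_digit {J : Type} [Fintype J] [DecidableEq J] {Ω : Type} [MeasurableSpace Ω] {X : Type}
    {D : Type} (y : X → J → Ω) (f : D → Finset J) (t : D → X → Bool) {e : Finset J}
    {s : ℕ} {E : Finset D} {δ : D} (hδ : δ ∈ E) (hfe : f δ ⊆ e) (hs : (f δ).card ≤ s) :
    MeasurableSet[GF y f t e s E] {x | t δ x = true} := by
  have h1 : MeasurableSpace.comap (t δ) inferInstance ≤ GF y f t e s E := by
    unfold GF
    refine le_trans ?_ le_sup_right
    exact le_iSup₂_of_le δ (show δ ∈ {δ : D | δ ∈ E ∧ f δ ⊆ e ∧ (f δ).card ≤ s} from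
      ⟨hδ, hfe, hs⟩) le_rfl
  refine h1 _ ⟨{true}, MeasurableSet.of_discrete, ?_⟩
  ext x
  simp

theorem art_GG_digit {J : Type} [Fintype J] [DecidableEq J] {Ω : Type} [MeasurableSpace Ω] {X : Type}
    {D : Type} (y : X → J → Ω) (f : D → Finset J) (t : D → X → Bool) {e : Finset J}
    {s : ℕ} {δ : D} (hfe : f δ ⊆ e) (hs : (f δ).card ≤ s) :
    MeasurableSet[GG y f t e s] {x | t δ x = true} := by
  have h1 : MeasurableSpace.comap (t δ) inferInstance ≤ GG y f t e s := by
    unfold GG
    refine le_trans ?_ le_sup_right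
    exact le_iSup₂_of_le δ (show δ ∈ {δ : D | f δ ⊆ e ∧ (f δ).card ≤ s} from
      ⟨hfe, hs⟩) le_rfl
  refine h1 _ ⟨{true}, MeasurableSet.of_discrete, ?_⟩
  ext x
  simp

theorem art_GF_labels {J : Type} [Fintype J] [DecidableEq J] {Ω : Type} [MeasurableSpace Ω] {X : Type}
    {D : Type} (y : X → J → Ω) (f : D → Finset J) (t : D → X → Bool)
    (s : ℕ) (E : Finset D) (N : Set (J → Ω)) (hN : MeasurableSet N) :
    MeasurableSet[GF y f t Finset.univ s E] (y ⁻¹' N) := by
  have h1 : ∀ v : J, Measurable[GF y f t Finset.univ s E] (fun x => y x v) := by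
    intro v
    have h2 : MeasurableSpace.comap (fun x => y x v) inferInstance ≤ GF y f t Finset.univ s E := by
      unfold GF SY
      refine le_trans ?_ le_sup_left
      exact le_iSup₂_of_le v (Finset.mem_univ v) le_rfl
    exact fun S hS => h2 _ ⟨S, hS, rfl⟩
  exact (@measurable_pi_lambda X J (fun _ => Ω) (GF y f t Finset.univ s E) _ y h1) hN

variable {J : Type} [Fintype J] [DecidableEq J] (H : Host J)

/-- ROW ART: removal in the host. -/
theorem host_removal
    (hRM : ∀ f : Finset J, f.Nonempty → H.RM (A := f) (Z := Empty) (fun a => a.1) Empty.elim)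
    {I : Type} [Fintype I] (e : I → Finset J) (he : ∀ i, (e i).Nonempty) (η : ℝ) (hη : 0 < η) :
    ∃ ε : ℝ, 0 < ε ∧ ∀ F : I → Set (J → H.Om), (∀ i, MeasurableSet (F i)) →
      (∀ i, DependsOn (fun y => y ∈ F i) ((e i : Finset J) : Set J)) →
      H.lam.real (⋂ i, F i) ≤ ε →
      ∃ B : I → Set (J → H.Om), (∀ i, MeasurableSet (B i)) ∧ (∀ i, B i ⊆ F i) ∧
        (∀ i, DependsOn (fun y => y ∈ B i) ((e i : Finset J) : Set J)) ∧
        (∀ i, H.lam.real (B i) ≤ η) ∧ H.lam (⋂ i, (F i \ B i)) = 0 := by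
  classical
  by_contra hcon
  push Not at hcon
  choose F hFm hFd hFs hFn using fun n : ℕ => hcon (1 / ((n : ℝ) + 1)) (by positivity)
  -- the digits
  let dg0 : I → HDigit H := fun i =>
    { f := e i, nef := he i, G := fun n => F n i, meas := fun n => hFm n i,
      dep := fun n => hFd n i }
  let U : Ultrafilter ℕ := hyperfilter ℕ
  have hU : (U : Filter ℕ) ≤ atTop := by
    have h := hyperfilter_le_cofinite (α := ℕ)
    rwa [Nat.cofinite_eq_atTop] at h
  obtain ⟨S, hS0, hSc, hSi, hSE⟩ := exists_closed_digits H U (Set.range dg0)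
    (Set.countable_range dg0)
  haveI : Countable S := hSc.to_subtype
  let dg : S → HDigit H := fun a => a.1
  obtain ⟨P, hPp, hPt⟩ := exists_limit H dg U hU
  haveI := hPp
  have hinter : ∀ a b : S, ∀ h : (dg a).f = (dg b).f, ∃ c : S, dg c = interDigit (dg a) (dg b) h :=
    fun a b h => ⟨⟨_, hSi a.1 a.2 b.1 b.2 h⟩, rfl⟩
  have hEM : ∀ a : S, 2 ≤ (dg a).f.card → ∀ η : ℝ, 0 < η →
      ∃ E : Finset (HDigit H), (∀ d ∈ E, ∃ b : S, dg b = d) ∧ LowOrder (dg a).f E ∧
        ∀ E' : Finset (HDigit H), LowOrder (dg a).f E' → E ⊆ E' →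
          ∀ᶠ n in (U : Filter ℕ), energyn (dg a) E' n ≤ energyn (dg a) E n + η := by
    intro a ha η' hη'
    obtain ⟨E, hE1, hE2, hE3⟩ := hSE a.1 a.2 ha η' hη'
    exact ⟨E, fun d hd => ⟨⟨d, hE1 d hd⟩, rfl⟩, hE2, hE3⟩
  have hCI := ci_limit H dg U hU hRM hinter hEM P hPt
  let δ0 : I → S := fun i => ⟨dg0 i, hS0 ⟨i, rfl⟩⟩
  have hδf : ∀ i, (dg (δ0 i)).f = e i := fun i => rfl
  have hδG : ∀ i n, (dg (δ0 i)).G n = F n i := fun i n => rfl
  let K : I → Set ((J → H.Om) × (S → Bool)) := fun i => {x | x.2 (δ0 i) = true}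
  have hKm : ∀ i, MeasurableSet[GG (fun x : (J → H.Om) × (S → Bool) => x.1) (fun δ => (dg δ).f)
      (fun δ x => x.2 δ) (e i) (Fintype.card J)] (K i) := by
    intro i
    exact art_GG_digit (fun x : (J → H.Om) × (S → Bool) => x.1) (fun δ => (dg δ).f)
      (fun δ x => x.2 δ) (δ := δ0 i) (by rw [hδf]) (Finset.card_le_univ _)
  have hKt : ∀ i n y, ((y, tval dg n y) : (J → H.Om) × (S → Bool)) ∈ K i ↔ y ∈ F n i := by
    intro i n y
    simp only [K, Set.mem_setOf_eq, tval, hδG, decide_eq_true_eq]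
  have hreal0 : ∀ {A : Set ((J → H.Om) × (S → Bool))}, P.real A = 0 → P A = 0 := by
    intro A hA
    exact (measureReal_eq_zero_iff).mp hA
  have hK0 : P (⋂ i, K i) = 0 := by
    apply hreal0
    obtain ⟨_, h2⟩ := hPt (Finset.univ.image δ0) (⋂ i, K i) (by
      refine MeasurableSet.iInter fun i => ?_
      exact art_GF_digit (fun x : (J → H.Om) × (S → Bool) => x.1) (fun δ => (dg δ).f)
        (fun δ x => x.2 δ) (Finset.mem_image_of_mem δ0 (Finset.mem_univ i))
        (Finset.subset_univ _) (Finset.card_le_univ _))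
    have h3 : Tendsto (fun n => H.lam.real {y | (y, tval dg n y) ∈ ⋂ i, K i}) (U : Filter ℕ)
        (𝓝 0) := by
      have h4 : Tendsto (fun n : ℕ => 1 / ((n : ℝ) + 1)) (U : Filter ℕ) (𝓝 0) :=
        tendsto_one_div_add_atTop_nhds_zero_nat.mono_left hU
      refine squeeze_zero (fun n => measureReal_nonneg) (fun n => ?_) h4
      have h5 : {y | ((y, tval dg n y) : (J → H.Om) × (S → Bool)) ∈ ⋂ i, K i} = ⋂ i, F n i := by
        ext y
        simp only [Set.mem_setOf_eq, Set.mem_iInter]
        exact forall_congr' fun i => hKt i n y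
      rw [h5]
      exact hFs n
    exact tendsto_nhds_unique h2 h3
  obtain ⟨E, M, N, hM, hKM, hN, hPN, hMN⟩ := infinite_removal P
    (fun x : (J → H.Om) × (S → Bool) => x.1) measurable_fst (fun δ => (dg δ).f)
    (fun δ => (dg δ).nef) (fun δ x => x.2 δ)
    (fun δ => (measurable_pi_apply δ).comp measurable_snd) hCI (Fintype.card J) e K hKm hK0
    (η / 2) (by positivity)
  -- stage n
  let Mn : ℕ → I → Set (J → H.Om) := fun n i => {y | (y, tval dg n y) ∈ M i}
  have hMnm : ∀ n i, MeasurableSet (Mn n i) := by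
    intro n i
    exact (hPt E (M i) (art_GF_mono _ _ _ (Finset.subset_univ _) le_rfl (Finset.Subset.refl E) _
      (hM i))).1 n
  have hMnd : ∀ n i, DependsOn (fun y => y ∈ Mn n i) ((e i : Finset J) : Set J) := by
    intro n i y y2 hyy
    refine propext ?_
    refine art_GF_dep (fun x : (J → H.Om) × (S → Bool) => x.1) (fun δ => (dg δ).f)
      (fun δ x => x.2 δ) (e i) (Fintype.card J) E (M i) (hM i) (y, tval dg n y)
      (y2, tval dg n y2) (fun v hv => hyy v (by simpa using hv)) ?_
    intro δ hδ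
    have h1 := (dg δ).dep n (x := y) (y := y2) (fun v hv => hyy v (by
      have : v ∈ (dg δ).f := by simpa using hv
      simpa using hδ this))
    simp only [tval]
    simp only at h1
    by_cases h2 : y ∈ (dg δ).G n
    · have h3 : y2 ∈ (dg δ).G n := by rw [← h1]; exact h2
      simp [h2, h3]
    · have h3 : y2 ∉ (dg δ).G n := by rw [← h1]; exact h2
      simp [h2, h3]
  have hlim : ∀ i, ∀ᶠ n in (U : Filter ℕ), H.lam.real (F n i \ Mn n i) ≤ η := by
    intro i
    obtain ⟨_, h2⟩ := hPt (insert (δ0 i) E) (K i \ M i) (by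
      refine MeasurableSet.diff ?_ ?_
      · exact art_GF_digit (fun x : (J → H.Om) × (S → Bool) => x.1) (fun δ => (dg δ).f)
          (fun δ x => x.2 δ) (Finset.mem_insert_self _ _)
          (Finset.subset_univ _) (Finset.card_le_univ _)
      · exact art_GF_mono _ _ _ (Finset.subset_univ _) le_rfl (Finset.subset_insert _ _) _ (hM i))
    have h3 : P.real (K i \ M i) < η := lt_of_le_of_lt (hKM i) (by linarith)
    have h4 := h2.eventually_lt_const h3
    filter_upwards [h4] with n hn
    have h5 : {y | ((y, tval dg n y) : (J → H.Om) × (S → Bool)) ∈ K i \ M i} =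
        F n i \ Mn n i := by
      ext y
      simp only [Set.mem_setOf_eq, Set.mem_diff, Mn]
      rw [hKt]
    rw [h5] at hn
    exact hn.le
  have hNlam : H.lam N = 0 := by
    obtain ⟨_, h2⟩ := hPt ∅ ((fun x : (J → H.Om) × (S → Bool) => x.1) ⁻¹' N)
      (art_GF_labels _ _ _ _ _ N hN)
    have h3 : (fun n => H.lam.real {y | ((y, tval dg n y) : (J → H.Om) × (S → Bool)) ∈
        ((fun x : (J → H.Om) × (S → Bool) => x.1) ⁻¹' N)}) = fun _ => H.lam.real N := by
      funext n
      rfl
    rw [h3] at h2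
    have h4 : P.real ((fun x : (J → H.Om) × (S → Bool) => x.1) ⁻¹' N) = 0 := by
      rw [measureReal_def, hPN]; rfl
    rw [h4] at h2
    have h5 := tendsto_nhds_unique tendsto_const_nhds h2
    exact (measureReal_eq_zero_iff).mp h5
  have hall : ∀ᶠ n in (U : Filter ℕ), ∀ i, H.lam.real (F n i \ Mn n i) ≤ η :=
    (eventually_all).mpr hlim
  obtain ⟨n, hn⟩ := hall.exists
  refine hFn n (fun i => F n i \ Mn n i) (fun i => (hFm n i).diff (hMnm n i))
    (fun i => Set.diff_subset) ?_ hn ?_
  · intro i y y2 hyy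
    have h1 := hFd n i (x := y) (y := y2) hyy
    have h2 := hMnd n i (x := y) (y := y2) hyy
    simp only at h1 h2
    simp only [Set.mem_diff, h1, h2]
  · refine measure_mono_null ?_ hNlam
    intro y hy
    simp only [Set.mem_iInter, Set.mem_diff, not_and, not_not] at hy
    have h1 : ((y, tval dg n y) : (J → H.Om) × (S → Bool)) ∈ ⋂ i, M i := by
      simp only [Set.mem_iInter]
      exact fun i => (hy i).2 (hy i).1
    exact hMN h1

end SPHK
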