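import Pool.Agent.SPHK.Host

/-! Project SPHK (MP_f7e9f1_co, Theorem K), row CSB: the classical box Cauchy-Schwarz inequality on a
product space. -/

set_option autoImplicit false

open MeasureTheory ProbabilityTheory Filter
open scoped ENNReal Topology

noncomputable section
namespace SPHK

namespace CSB

section Resample

variable {P W : Type} [Fintype P] [DecidableEq P] [MeasurableSpace W] (μ : P → Measure W)
  [∀ p, IsProbabilityMeasure (μ p)]

/-- resampling one coordinate preserves the product measure -/
theorem measurePreserving_update (p : P) :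
    MeasurePreserving (fun z : (P → W) × W => Function.update z.1 p z.2)
      ((Measure.pi μ).prod (μ p)) (Measure.pi μ) := by
  have hm : Measurable (fun z : (P → W) × W => Function.update z.1 p z.2) := by
    refine measurable_pi_lambda _ fun i => ?_
    by_cases hi : i = p
    · subst hi
      simpa using measurable_snd
    · simp only [Function.update_of_ne hi]
      exact (measurable_pi_apply i).comp measurable_fst
  refine ⟨hm, ?_⟩
  symm
  refine Measure.pi_eq fun s hs => ?_
  rw [Measure.map_apply hm (MeasurableSet.univ_pi hs)]
  have h1 : (fun z : (P → W) × W => Function.update z.1 p z.2) ⁻¹' (Set.pi Set.univ s) =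
      (Set.pi Set.univ (Function.update s p Set.univ)) ×ˢ (s p) := by
    ext z
    simp only [Set.mem_preimage, Set.mem_pi, Set.mem_univ, true_implies, Set.mem_prod]
    constructor
    · intro h
      refine ⟨fun i => ?_, ?_⟩
      · by_cases hi : i = p
        · subst hi
          simp
        · have := h i
          simpa [Function.update_of_ne hi] using this
      · have := h p
        simpa using this
    · rintro ⟨h, h'⟩ i
      by_cases hi : i = p
      · subst hi
        simpa using h'
      · have := h i
        simpa [Function.update_of_ne hi] using this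
  rw [h1, Measure.prod_prod, Measure.pi_pi, ← Finset.mul_prod_erase Finset.univ _ (Finset.mem_univ p),
    ← Finset.mul_prod_erase Finset.univ (fun i => μ i (s i)) (Finset.mem_univ p)]
  have h2 : ∏ x ∈ Finset.univ.erase p, μ x (Function.update s p Set.univ x) =
      ∏ x ∈ Finset.univ.erase p, μ x (s x) := by
    refine Finset.prod_congr rfl fun i hi => ?_
    rw [Function.update_of_ne (Finset.ne_of_mem_erase hi)]
  rw [h2]
  simp only [Function.update_self, measure_univ, one_mul]
  rw [mul_comm]

theorem integral_resample (p : P) (Φ : (P → W) → ℝ) (hm : Measurable Φ) (C : ℝ)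
    (hC : ∀ x, |Φ x| ≤ C) :
    ∫ x, Φ x ∂(Measure.pi μ) = ∫ x, ∫ y, Φ (Function.update x p y) ∂(μ p) ∂(Measure.pi μ) := by
  have hp := measurePreserving_update μ p
  have h1 : ∫ z, Φ (Function.update z.1 p z.2) ∂((Measure.pi μ).prod (μ p)) =
      ∫ x, Φ x ∂(Measure.pi μ) := by
    have h2 := hp.map_eq
    conv_rhs => rw [← h2]
    rw [integral_map hp.measurable.aemeasurable hm.aestronglyMeasurable]
  rw [← h1, integral_prod]
  refine Integrable.of_bound (hm.comp hp.measurable).aestronglyMeasurable C ?_
  exact Eventually.of_forall fun z => by simpa [Real.norm_eq_abs] using hC _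

/-- one Cauchy-Schwarz step -/
theorem step {p q : P} (hpq : p ≠ q) (hμ : μ p = μ q) (F G : (P → W) → ℝ) (hF : Measurable F)
    (hG : Measurable G) (C : ℝ) (hFC : ∀ x, |F x| ≤ C) (hG1 : ∀ x, |G x| ≤ 1)
    (hFq : ∀ x y, F (Function.update x q y) = F x)
    (hGp : ∀ x y, G (Function.update x p y) = G x) :
    (∫ x, F x * G x ∂(Measure.pi μ)) ^ 2 ≤
      ∫ x, F x * F (Function.update x p (x q)) ∂(Measure.pi μ) := by
  have hC0 : 0 ≤ C := by
    obtain ⟨x⟩ : Nonempty (P → W) := by
      have h1 : (Measure.pi μ) Set.univ = 1 := measure_univ
      by_contra h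
      rw [not_nonempty_iff] at h
      have h2 : (Set.univ : Set (P → W)) = ∅ := Set.eq_empty_of_isEmpty _
      rw [h2, measure_empty] at h1
      exact zero_ne_one h1
    exact (abs_nonneg _).trans (hFC x)
  have hup : Measurable (fun z : (P → W) × W => Function.update z.1 p z.2) :=
    (measurePreserving_update μ p).measurable
  set T : (P → W) → ℝ := fun x => ∫ y, F (Function.update x p y) ∂(μ p) with hT
  have hTm : Measurable T := by
    have h1 : Measurable (Function.uncurry fun (x : P → W) (y : W) => F (Function.update x p y)) :=
      hF.comp hup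
    exact (h1.stronglyMeasurable.integral_prod_right).measurable
  have hTC : ∀ x, |T x| ≤ C := by
    intro x
    have h1 := norm_integral_le_of_norm_le_const (μ := μ p) (f := fun y => F (Function.update x p y))
      (C := C) (Eventually.of_forall fun y => by simpa [Real.norm_eq_abs] using hFC _)
    simpa [Real.norm_eq_abs] using h1
  -- (i)
  have h1 : ∫ x, F x * G x ∂(Measure.pi μ) = ∫ x, T x * G x ∂(Measure.pi μ) := by
    rw [integral_resample μ p (fun x => F x * G x) (hF.mul hG) C (fun x => by
      rw [abs_mul]
      calc |F x| * |G x| ≤ C * 1 := mul_le_mul (hFC x) (hG1 x) (abs_nonneg _) hC0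
        _ = C := mul_one C)]
    refine integral_congr_ae (Eventually.of_forall fun x => ?_)
    simp only [hGp]
    rw [integral_mul_const]
  -- (ii)
  have hqm : Measurable (fun x : P → W => Function.update x p (x q)) :=
    hup.comp (measurable_id.prodMk (measurable_pi_apply q))
  have hTq : ∀ x z, T (Function.update x q z) = T x := by
    intro x z
    simp only [hT]
    refine integral_congr_ae (Eventually.of_forall fun y => ?_)
    simp only
    rw [Function.update_comm hpq.symm, hFq]
  have h2 : ∫ x, F x * F (Function.update x p (x q)) ∂(Measure.pi μ) =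
      ∫ x, T x * F (Function.update x p (x q)) ∂(Measure.pi μ) := by
    rw [integral_resample μ p (fun x => F x * F (Function.update x p (x q)))
      (hF.mul (hF.comp hqm)) (C * C) (fun x => by
        rw [abs_mul]
        exact mul_le_mul (hFC x) (hFC _) (abs_nonneg _) hC0)]
    refine integral_congr_ae (Eventually.of_forall fun x => ?_)
    simp only [Function.update_idem, Function.update_of_ne hpq.symm]
    rw [integral_mul_const]
  have h3 : ∫ x, T x * F (Function.update x p (x q)) ∂(Measure.pi μ) =
      ∫ x, T x * T x ∂(Measure.pi μ) := by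
    rw [integral_resample μ q (fun x => T x * F (Function.update x p (x q)))
      (hTm.mul (hF.comp hqm)) (C * C) (fun x => by
        rw [abs_mul]
        exact mul_le_mul (hTC x) (hFC _) (abs_nonneg _) hC0)]
    refine integral_congr_ae (Eventually.of_forall fun x => ?_)
    simp only [hTq, Function.update_self]
    rw [integral_const_mul]
    congr 1
    simp only [hT]
    rw [hμ]
    refine integral_congr_ae (Eventually.of_forall fun z => ?_)
    simp only
    rw [Function.update_comm hpq.symm, hFq]
  rw [h1, h2, h3]
  -- Cauchy-Schwarz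
  have hTi : Integrable (fun x => T x * T x) (Measure.pi μ) :=
    Integrable.of_bound (hTm.mul hTm).aestronglyMeasurable (C * C)
      (Eventually.of_forall fun x => by
        rw [Real.norm_eq_abs, abs_mul]
        exact mul_le_mul (hTC x) (hTC x) (abs_nonneg _) hC0)
  have hTG : Integrable (fun x => T x * G x) (Measure.pi μ) :=
    Integrable.of_bound (hTm.mul hG).aestronglyMeasurable C
      (Eventually.of_forall fun x => by
        rw [Real.norm_eq_abs, abs_mul]
        calc |T x| * |G x| ≤ C * 1 := mul_le_mul (hTC x) (hG1 x) (abs_nonneg _) hC0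
          _ = C := mul_one C)
  set I : ℝ := ∫ x, T x * G x ∂(Measure.pi μ) with hI
  have h4 : 0 ≤ ∫ x, (T x - I * G x) ^ 2 ∂(Measure.pi μ) := integral_nonneg fun x => sq_nonneg _
  have hGG : Integrable (fun x => G x * G x) (Measure.pi μ) :=
    Integrable.of_bound (hG.mul hG).aestronglyMeasurable 1
      (Eventually.of_forall fun x => by
        rw [Real.norm_eq_abs, abs_mul]
        calc |G x| * |G x| ≤ 1 * 1 := mul_le_mul (hG1 x) (hG1 x) (abs_nonneg _) zero_le_one
          _ = 1 := mul_one 1)
  have h5 : ∫ x, (T x - I * G x) ^ 2 ∂(Measure.pi μ) =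
      ∫ x, T x * T x ∂(Measure.pi μ) - 2 * I * I + I ^ 2 * ∫ x, G x * G x ∂(Measure.pi μ) := by
    have h6 : (fun x => (T x - I * G x) ^ 2) =
        fun x => (T x * T x - 2 * I * (T x * G x)) + I ^ 2 * (G x * G x) := by
      funext x
      ring
    have h61 : Integrable (fun x => T x * T x - 2 * I * (T x * G x)) (Measure.pi μ) :=
      hTi.sub (hTG.const_mul (2 * I))
    have h62 : Integrable (fun x => I ^ 2 * (G x * G x)) (Measure.pi μ) := hGG.const_mul (I ^ 2)
    have h63 : Integrable (fun x => 2 * I * (T x * G x)) (Measure.pi μ) := hTG.const_mul (2 * I)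
    rw [h6, integral_add h61 h62, integral_sub hTi h63, integral_const_mul, integral_const_mul]
  have h7 : ∫ x, G x * G x ∂(Measure.pi μ) ≤ 1 := by
    have h8 : ∫ x, G x * G x ∂(Measure.pi μ) ≤ ∫ _x, (1 : ℝ) ∂(Measure.pi μ) := by
      refine integral_mono hGG (integrable_const 1) fun x => ?_
      have h9 := hG1 x
      have h10 : |G x| * |G x| ≤ 1 * 1 := mul_le_mul h9 h9 (abs_nonneg _) zero_le_one
      rw [← abs_mul, abs_mul_self] at h10
      linarith
    simpa using h8
  nlinarith [sq_nonneg I]

end Resample

section Main

variable {A W : Type} [Fintype A] [DecidableEq A] [MeasurableSpace W]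

/-- the vertex of the box chosen by w -/
def ev (x : A × Bool → W) (w : A → Bool) : A → W := fun a => x (a, w a)

omit [Fintype A] [DecidableEq A] in
theorem measurable_ev (w : A → Bool) : Measurable (fun x : A × Bool → W => ev x w) :=
  measurable_pi_lambda _ fun a => measurable_pi_apply (a, w a)

/-- the patterns that vanish off S -/
def ws (S : Finset A) : Finset (A → Bool) := Finset.univ.filter fun w => ∀ a, a ∉ S → w a = false

theorem mem_ws {S : Finset A} {w : A → Bool} : w ∈ ws S ↔ ∀ a, a ∉ S → w a = false := by
  simp [ws]

theorem ws_insert {S : Finset A} {b : A} (hb : b ∉ S) :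
    ws (insert b S) = ws S ∪ (ws S).image (fun w => Function.update w b true) := by
  ext w
  simp only [Finset.mem_union, Finset.mem_image, mem_ws]
  constructor
  · intro h
    cases hwb : w b with
    | false =>
      left
      intro a ha
      by_cases hab : a = b
      · rw [hab, hwb]
      · exact h a (by simp [hab, ha])
    | true =>
      right
      refine ⟨Function.update w b false, fun a ha => ?_, ?_⟩
      · by_cases hab : a = b
        · subst hab
          simp
        · rw [Function.update_of_ne hab]
          exact h a (by simp [hab, ha])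
      · rw [Function.update_idem]
        funext a
        by_cases hab : a = b
        · subst hab
          simp [hwb]
        · rw [Function.update_of_ne hab]
  · rintro (h | ⟨w', h, rfl⟩) a ha
    · exact h a fun h' => ha (Finset.mem_insert_of_mem h')
    · have hab : a ≠ b := fun h' => ha (h' ▸ Finset.mem_insert_self b S)
      rw [Function.update_of_ne hab]
      exact h a fun h' => ha (Finset.mem_insert_of_mem h')

theorem prod_ws_insert {S : Finset A} {b : A} (hb : b ∉ S) (f : (A → Bool) → ℝ) :
    ∏ w ∈ ws (insert b S), f w =
      (∏ w ∈ ws S, f w) * ∏ w ∈ ws S, f (Function.update w b true) := by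
  rw [ws_insert hb, Finset.prod_union, Finset.prod_image]
  · intro w hw w' hw' h
    have h1 : w b = false := mem_ws.1 hw b hb
    have h2 : w' b = false := mem_ws.1 hw' b hb
    funext a
    by_cases hab : a = b
    · rw [hab, h1, h2]
    · have := congrFun h a
      simpa [Function.update_of_ne hab] using this
  · rw [Finset.disjoint_left]
    intro w hw hw'
    obtain ⟨w', hw'', rfl⟩ := Finset.mem_image.1 hw'
    have := mem_ws.1 hw b hb
    simp at this

/-- the intermediate integrand -/
def term (h : (A → W) → ℝ) (g : A → (A → W) → ℝ) (D : Finset A) (z : A → W) : ℝ :=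
  h z * ∏ a ∈ D, g a z

variable (μ : A → Measure W) [∀ a, IsProbabilityMeasure (μ a)]

/-- the intermediate integrals -/
def inter (h : (A → W) → ℝ) (g : A → (A → W) → ℝ) (S : Finset A) : ℝ :=
  ∫ x : A × Bool → W, ∏ w ∈ ws S, term h g Sᶜ (ev x w) ∂(Measure.pi fun p => μ p.1)

theorem inter_step (h : (A → W) → ℝ) (hh : Measurable h)
    (c : ℝ) (hc : ∀ x, |h x| ≤ c) (g : A → (A → W) → ℝ) (hg : ∀ a, Bdd (g a))
    (hd : ∀ a, DependsOn (g a) {i | i ≠ a}) {S : Finset A} {b : A} (hb : b ∉ S) :
    (inter μ h g S) ^ 2 ≤ inter μ h g (insert b S) := by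
  have hDm : ∀ D : Finset A, Measurable (term h g D) := fun D =>
    hh.mul (Finset.measurable_prod _ fun a _ => (hg a).1)
  have hg1 : ∀ (D : Finset A) (z : A → W), |∏ a ∈ D, g a z| ≤ 1 := by
    intro D z
    rw [Finset.abs_prod]
    exact Finset.prod_le_one (fun a _ => abs_nonneg _) fun a _ => (hg a).2 z
  have hDc : ∀ (D : Finset A) (z : A → W), |term h g D z| ≤ c := by
    intro D z
    unfold term
    rw [abs_mul]
    calc |h z| * |∏ a ∈ D, g a z| ≤ |h z| * 1 :=
          mul_le_mul_of_nonneg_left (hg1 D z) (abs_nonneg _)
      _ ≤ c := by simpa using hc z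
  set D : Finset A := (insert b S)ᶜ with hD
  have hDS : Sᶜ = insert b D := by
    rw [hD]
    ext a
    simp only [Finset.mem_compl, Finset.mem_insert, not_or]
    constructor
    · intro ha
      by_cases hab : a = b
      · exact Or.inl hab
      · exact Or.inr ⟨hab, ha⟩
    · rintro (rfl | ⟨_, ha⟩)
      · exact hb
      · exact ha
  have hbD : b ∉ D := by simp [hD]
  set F : (A × Bool → W) → ℝ := fun x => ∏ w ∈ ws S, term h g D (ev x w) with hF
  set G : (A × Bool → W) → ℝ := fun x => ∏ w ∈ ws S, g b (ev x w) with hG
  have h1 : inter μ h g S = ∫ x, F x * G x ∂(Measure.pi fun p : A × Bool => μ p.1) := by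
    unfold inter
    refine integral_congr_ae (Eventually.of_forall fun x => ?_)
    simp only [hF, hG]
    rw [← Finset.prod_mul_distrib]
    refine Finset.prod_congr rfl fun w _ => ?_
    unfold term
    rw [hDS, Finset.prod_insert hbD]
    ring
  have hp : ((b, false) : A × Bool) ≠ (b, true) := by simp
  have hev_up : ∀ (x : A × Bool → W) (w : A → Bool), w ∈ ws S → ∀ y,
      ev (Function.update x (b, true) y) w = ev x w := by
    intro x w hw y
    funext a
    unfold ev
    rw [Function.update_of_ne]
    intro h'
    have h2 : a = b := congrArg Prod.fst h'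
    have h3 : w a = true := congrArg Prod.snd h'
    rw [h2, mem_ws.1 hw b hb] at h3
    exact Bool.false_ne_true h3
  have hst := step (μ := fun p : A × Bool => μ p.1) hp rfl F G
    (Finset.measurable_prod _ fun w _ => (hDm D).comp (measurable_ev w))
    (Finset.measurable_prod _ fun w _ => ((hg b).1).comp (measurable_ev w)) (c ^ (ws S).card)
    (fun x => by
      simp only [hF]
      rw [Finset.abs_prod]
      refine (Finset.prod_le_prod (fun w _ => abs_nonneg _) fun w _ => hDc D _).trans ?_
      rw [Finset.prod_const])
    (fun x => by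
      simp only [hG]
      rw [Finset.abs_prod]
      exact Finset.prod_le_one (fun a _ => abs_nonneg _) fun a _ => (hg b).2 _)
    (fun x y => by
      simp only [hF]
      exact Finset.prod_congr rfl fun w hw => by rw [hev_up x w hw y])
    (fun x y => by
      simp only [hG]
      refine Finset.prod_congr rfl fun w hw => ?_
      refine hd b fun a ha => ?_
      have hab : a ≠ b := ha
      unfold ev
      rw [Function.update_of_ne]
      intro h'
      exact hab (congrArg Prod.fst h'))
  rw [h1]
  refine hst.trans (le_of_eq ?_)
  unfold inter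
  refine integral_congr_ae (Eventually.of_forall fun x => ?_)
  simp only [hF]
  rw [prod_ws_insert hb]
  congr 1
  refine Finset.prod_congr rfl fun w hw => ?_
  congr 1
  funext a
  unfold ev
  by_cases hab : a = b
  · subst hab
    rw [Function.update_self, mem_ws.1 hw a hb, Function.update_self]
  · rw [Function.update_of_ne hab, Function.update_of_ne]
    intro h'
    exact hab (congrArg Prod.fst h')

theorem inter_empty (h : (A → W) → ℝ) (hh : Measurable h)
    (g : A → (A → W) → ℝ) (hg : ∀ a, Bdd (g a)) :
    inter μ h g ∅ = ∫ x, h x * ∏ a, g a x ∂(Measure.pi μ) := by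
  have hmap : (Measure.pi fun p : A × Bool => μ p.1).map (fun x a => x (a, false)) =
      Measure.pi μ := by
    symm
    refine Measure.pi_eq fun s hs => ?_
    have hm : Measurable (fun (x : A × Bool → W) (a : A) => x (a, false)) :=
      measurable_pi_lambda _ fun a => measurable_pi_apply (a, false)
    rw [Measure.map_apply hm (MeasurableSet.univ_pi hs)]
    have h1 : (fun (x : A × Bool → W) (a : A) => x (a, false)) ⁻¹' (Set.pi Set.univ s) =
        Set.pi Set.univ (fun p : A × Bool => if p.2 = false then s p.1 else Set.univ) := by
      ext x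
      simp only [Set.mem_preimage, Set.mem_pi, Set.mem_univ, true_implies, Prod.forall]
      constructor
      · intro h a v
        cases v
        · simpa using h a
        · simp
      · intro h a
        simpa using h a false
    rw [h1, Measure.pi_pi, ← Finset.univ_product_univ, Finset.prod_product]
    refine Finset.prod_congr rfl fun a _ => ?_
    rw [Fintype.prod_bool]
    simp
  have hm : Measurable (fun (x : A × Bool → W) (a : A) => x (a, false)) :=
    measurable_pi_lambda _ fun a => measurable_pi_apply (a, false)
  have hmeas : Measurable (fun x : A → W => h x * ∏ a, g a x) :=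
    hh.mul (Finset.measurable_prod _ fun a _ => (hg a).1)
  rw [← hmap, integral_map hm.aemeasurable hmeas.aestronglyMeasurable]
  unfold inter
  refine integral_congr_ae (Eventually.of_forall fun x => ?_)
  have h2 : ws (∅ : Finset A) = {fun _ => false} := by
    ext w
    simp only [mem_ws, Finset.notMem_empty, not_false_eq_true, true_implies, Finset.mem_singleton]
    constructor
    · intro h'
      funext a
      exact h' a
    · intro h' a
      rw [h']
  simp only [h2, Finset.prod_singleton, term, Finset.compl_empty]
  rfl

end Main

end CSB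

/-- The classical box Cauchy-Schwarz inequality on a product space. -/
theorem box_cauchy_schwarz {A W : Type} [Fintype A] [DecidableEq A] [Nonempty A] [MeasurableSpace W]
    (μ : A → Measure W) [∀ a, IsProbabilityMeasure (μ a)] (h : (A → W) → ℝ) (hh : Measurable h)
    (c : ℝ) (hc : ∀ x, |h x| ≤ c) (g : A → (A → W) → ℝ) (hg : ∀ a, Bdd (g a))
    (hd : ∀ a, DependsOn (g a) {i | i ≠ a}) :
    |∫ x, h x * ∏ a, g a x ∂(Measure.pi μ)| ^ (2 ^ Fintype.card A) ≤
      ∫ x : A × Bool → W, ∏ w : A → Bool, h (fun a => x (a, w a)) ∂(Measure.pi fun p => μ p.1) := by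
  have key : ∀ S : Finset A,
      |CSB.inter μ h g ∅| ^ (2 ^ S.card) ≤ |CSB.inter μ h g S| ∧
        (S.Nonempty → |CSB.inter μ h g ∅| ^ (2 ^ S.card) ≤ CSB.inter μ h g S) := by
    intro S
    induction S using Finset.induction_on with
    | empty => simp
    | insert b S hb ih =>
      have h1 := CSB.inter_step μ h hh c hc g hg hd hb
      have h2 : |CSB.inter μ h g ∅| ^ (2 ^ (insert b S).card) ≤ CSB.inter μ h g (insert b S) := by
        rw [Finset.card_insert_of_notMem hb, pow_succ, pow_mul]
        refine le_trans ?_ h1
        rw [← sq_abs (CSB.inter μ h g S)]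
        exact pow_le_pow_left₀ (by positivity) ih.1 2
      exact ⟨h2.trans (le_abs_self _), fun _ => h2⟩
  have h3 := (key Finset.univ).2 Finset.univ_nonempty
  rw [CSB.inter_empty μ h hh g hg, Finset.card_univ] at h3
  refine h3.trans (le_of_eq ?_)
  unfold CSB.inter
  refine integral_congr_ae (Eventually.of_forall fun x => ?_)
  have h4 : CSB.ws (Finset.univ : Finset A) = Finset.univ := by
    ext w
    simp [CSB.mem_ws]
  simp only [h4, CSB.term, Finset.compl_univ, Finset.prod_empty, mul_one]
  rfl

end SPHK
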