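import Pool.Agent.SPHK.Host

/-! Project SPHK, row CHAIN: the calculus of a.c. independence. -/

set_option autoImplicit false

open MeasureTheory ProbabilityTheory Filter
open scoped ENNReal Topology

noncomputable section
namespace SPHK

/-- AI(X0;Y;Y') for a joint law of ((X0,Y),Y') -/
def AI {X0 Y Y' : Type} [MeasurableSpace X0] [MeasurableSpace Y] [MeasurableSpace Y']
    [StandardBorelSpace Y'] [Nonempty Y'] (ρ : Measure ((X0 × Y) × Y')) [IsFiniteMeasure ρ] : Prop :=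
  ρ ≪ (ρ.map Prod.fst) ⊗ₘ (Kernel.prodMkRight Y (ρ.map (fun p => (p.1.1, p.2))).condKernel)

theorem lintegral_cond {α β : Type} [MeasurableSpace α] [MeasurableSpace β] [StandardBorelSpace β]
    [Nonempty β] (μ : Measure (α × β)) [IsFiniteMeasure μ] {f : α × β → ℝ≥0∞} (hf : Measurable f) :
    ∫⁻ p, f p ∂μ = ∫⁻ a, ∫⁻ b, f (a, b) ∂(μ.condKernel a) ∂(μ.map Prod.fst) := by
  have h := Measure.lintegral_compProd (μ := μ.fst) (κ := μ.condKernel) hf
  rw [μ.disintegrate μ.condKernel] at h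
  exact h

theorem AI_iff {X0 Y Y' : Type} [MeasurableSpace X0] [MeasurableSpace Y] [MeasurableSpace Y']
    [StandardBorelSpace Y'] [Nonempty Y'] (ρ : Measure ((X0 × Y) × Y')) [IsFiniteMeasure ρ]
    (μ : Measure (X0 × Y)) (ν : Measure (X0 × Y')) [IsFiniteMeasure ν]
    (h1 : ρ.map Prod.fst = μ) (h2 : ρ.map (fun p => (p.1.1, p.2)) = ν) :
    AI ρ ↔ ρ ≪ μ ⊗ₘ (Kernel.prodMkRight Y ν.condKernel) := by
  subst h1 h2
  exact Iff.rfl

/-- the integral for the reference measure -/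
theorem lintegral_ref {X0 Y Y' : Type} [MeasurableSpace X0] [MeasurableSpace Y]
    [MeasurableSpace Y'] [StandardBorelSpace Y] [Nonempty Y] (μ : Measure (X0 × Y))
    [IsFiniteMeasure μ] (κ : Kernel X0 Y') [IsSFiniteKernel κ] {f : (X0 × Y) × Y' → ℝ≥0∞}
    (hf : Measurable f) :
    ∫⁻ p, f p ∂(μ ⊗ₘ (Kernel.prodMkRight Y κ)) =
      ∫⁻ x, ∫⁻ y, ∫⁻ y', f ((x, y), y') ∂(κ x) ∂(μ.condKernel x) ∂(μ.map Prod.fst) := by
  rw [Measure.lintegral_compProd hf]
  have h : Measurable fun p : X0 × Y => ∫⁻ y', f (p, y') ∂(Kernel.prodMkRight Y κ p) :=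
    Measurable.lintegral_kernel_prod_right' hf
  rw [lintegral_cond μ h]
  rfl

theorem AI_symm {X0 Y Y' : Type} [MeasurableSpace X0] [MeasurableSpace Y] [MeasurableSpace Y']
    [StandardBorelSpace X0] [Nonempty X0]
    [StandardBorelSpace Y] [Nonempty Y] [StandardBorelSpace Y'] [Nonempty Y']
    (ρ : Measure ((X0 × Y) × Y')) [IsFiniteMeasure ρ] (h : AI ρ) :
    AI (ρ.map (fun p => ((p.1.1, p.2), p.1.2))) := by
  set μ : Measure (X0 × Y) := ρ.map Prod.fst with hμ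
  set ν : Measure (X0 × Y') := ρ.map (fun p => (p.1.1, p.2)) with hν
  have hS : Measurable (fun p : (X0 × Y) × Y' => ((p.1.1, p.2), p.1.2)) := by fun_prop
  have hfst : Measurable (Prod.fst : (X0 × Y) × Y' → X0 × Y) := measurable_fst
  have h13 : Measurable (fun p : (X0 × Y) × Y' => (p.1.1, p.2)) := by fun_prop
  have e1 : (ρ.map (fun p => ((p.1.1, p.2), p.1.2))).map Prod.fst = ν := by
    rw [Measure.map_map measurable_fst hS]
    rfl
  have e2 : (ρ.map (fun p => ((p.1.1, p.2), p.1.2))).map (fun p => (p.1.1, p.2)) = μ := by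
    rw [Measure.map_map (by fun_prop) hS]
    rfl
  rw [AI_iff _ ν μ e1 e2]
  have h' : ρ ≪ μ ⊗ₘ (Kernel.prodMkRight Y ν.condKernel) := h
  refine (h'.map hS).trans (le_of_eq ?_).absolutelyContinuous
  have e3 : μ.map Prod.fst = ν.map Prod.fst := by
    rw [hμ, hν, Measure.map_map measurable_fst hfst, Measure.map_map measurable_fst h13]
    rfl
  refine Measure.ext_of_lintegral _ fun f hf => ?_
  rw [lintegral_map hf hS]
  refine (lintegral_ref μ ν.condKernel (hf.comp hS)).trans ?_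
  rw [lintegral_ref ν μ.condKernel hf, e3]
  refine lintegral_congr fun x => ?_
  rw [lintegral_lintegral_swap]
  · rfl
  · have b : Measurable fun q : Y × Y' => ((x, q.2), q.1) := by fun_prop
    exact (hf.comp b).aemeasurable

/-- chain: AI(X0;Y;Y1) and AI((X0,Y1);Y;Y2) imply AI(X0;Y;(Y1,Y2)) -/
theorem AI_chain {X0 Y Y1 Y2 : Type} [MeasurableSpace X0] [MeasurableSpace Y] [MeasurableSpace Y1]
    [MeasurableSpace Y2] [StandardBorelSpace X0] [Nonempty X0]
    [StandardBorelSpace Y] [Nonempty Y] [StandardBorelSpace Y1] [Nonempty Y1]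
    [StandardBorelSpace Y2] [Nonempty Y2]
    (ρ : Measure ((X0 × Y) × (Y1 × Y2))) [IsFiniteMeasure ρ]
    (h1 : AI (ρ.map (fun p => (p.1, p.2.1))))
    (h2 : AI (ρ.map (fun p => (((p.1.1, p.2.1), p.1.2), p.2.2)))) : AI ρ := by
  -- the marginals
  set μ : Measure (X0 × Y) := ρ.map Prod.fst with hμ
  set ν : Measure (X0 × (Y1 × Y2)) := ρ.map (fun p => (p.1.1, p.2)) with hν
  set ν1 : Measure (X0 × Y1) := ρ.map (fun p => (p.1.1, p.2.1)) with hν1
  set ν2 : Measure ((X0 × Y1) × Y2) := ρ.map (fun p => ((p.1.1, p.2.1), p.2.2)) with hν2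
  set ρ1 : Measure ((X0 × Y) × Y1) := ρ.map (fun p => (p.1, p.2.1)) with hρ1
  set σ : (X0 × Y) × (Y1 × Y2) → ((X0 × Y1) × Y) × Y2 :=
    fun p => (((p.1.1, p.2.1), p.1.2), p.2.2) with hσ
  have mσ : Measurable σ := by fun_prop
  have m1 : Measurable (fun p : (X0 × Y) × (Y1 × Y2) => (p.1, p.2.1)) := by fun_prop
  have ms : Measurable (fun p : (X0 × Y) × Y1 => ((p.1.1, p.2), p.1.2)) := by fun_prop
  have a1 : ρ1 ≪ μ ⊗ₘ (Kernel.prodMkRight Y ν1.condKernel) := by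
    refine (AI_iff ρ1 μ ν1 ?_ ?_).1 h1
    · rw [hρ1, Measure.map_map measurable_fst m1]; rfl
    · rw [hρ1, Measure.map_map (by fun_prop) m1]; rfl
  have a2 : ρ.map σ ≪ (ρ1.map (fun p => ((p.1.1, p.2), p.1.2))) ⊗ₘ
      (Kernel.prodMkRight Y ν2.condKernel) := by
    refine (AI_iff (ρ.map σ) _ ν2 ?_ ?_).1 h2
    · rw [hρ1, Measure.map_map measurable_fst mσ, Measure.map_map ms m1]; rfl
    · rw [Measure.map_map (by fun_prop) mσ]; rfl
  have a3 : ρ.map σ ≪ ((μ ⊗ₘ (Kernel.prodMkRight Y ν1.condKernel)).map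
      (fun p => ((p.1.1, p.2), p.1.2))) ⊗ₘ (Kernel.prodMkRight Y ν2.condKernel) :=
    a2.trans ((a1.map ms).compProd_left _)
  have mτ : Measurable (fun p : ((X0 × Y1) × Y) × Y2 => ((p.1.1.1, p.1.2), (p.1.1.2, p.2))) := by
    fun_prop
  have a4 := a3.map mτ
  rw [Measure.map_map mτ mσ] at a4
  have a5 : ((fun p : ((X0 × Y1) × Y) × Y2 => ((p.1.1.1, p.1.2), (p.1.1.2, p.2))) ∘ σ) = id := rfl
  rw [a5, Measure.map_id] at a4
  refine (AI_iff ρ μ ν rfl rfl).2 (a4.trans (le_of_eq ?_).absolutelyContinuous)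
  have e1 : μ.map Prod.fst = ν.map Prod.fst := by
    rw [hμ, hν, Measure.map_map measurable_fst measurable_fst,
      Measure.map_map measurable_fst (by fun_prop)]
    rfl
  have e2 : ν.map Prod.fst = ν1.map Prod.fst := by
    rw [hν, hν1, Measure.map_map measurable_fst (by fun_prop),
      Measure.map_map measurable_fst (by fun_prop)]
    rfl
  have e3 : ν2.map Prod.fst = ν1 := by
    rw [hν2, hν1, Measure.map_map measurable_fst (by fun_prop)]
    rfl
  have e4 : ν.map (fun p => ((p.1, p.2.1), p.2.2)) = ν2 := by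
    rw [hν2, hν, Measure.map_map (by fun_prop) (by fun_prop)]
    rfl
  refine Measure.ext_of_lintegral _ fun f hf => ?_
  -- the left hand side
  rw [lintegral_map hf mτ]
  refine (Measure.lintegral_compProd (hf.comp mτ)).trans ?_
  have b1 : Measurable fun p : (X0 × Y1) × Y =>
      ∫⁻ y2, f ((p.1.1, p.2), (p.1.2, y2)) ∂(ν2.condKernel p.1) := by
    have : Measurable fun q : ((X0 × Y1) × Y) × Y2 => f ((q.1.1.1, q.1.2), (q.1.1.2, q.2)) :=
      hf.comp mτ
    exact Measurable.lintegral_kernel_prod_right' (κ := Kernel.prodMkRight Y ν2.condKernel) this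
  refine (lintegral_map b1 ms).trans ?_
  refine (lintegral_ref μ ν1.condKernel (b1.comp ms)).trans ?_
  -- the right hand side
  rw [lintegral_ref μ ν.condKernel hf]
  have b2 : Measurable fun q : X0 × (Y1 × Y2) => ∫⁻ y, f ((q.1, y), q.2) ∂(μ.condKernel q.1) := by
    have : Measurable fun q : (X0 × (Y1 × Y2)) × Y => f ((q.1.1, q.2), q.1.2) :=
      hf.comp (by fun_prop)
    exact Measurable.lintegral_kernel_prod_right'
      (κ := Kernel.prodMkRight (Y1 × Y2) μ.condKernel) this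
  have b3 : ∀ x, ∫⁻ y, ∫⁻ y', f ((x, y), y') ∂(ν.condKernel x) ∂(μ.condKernel x) =
      ∫⁻ y', ∫⁻ y, f ((x, y), y') ∂(μ.condKernel x) ∂(ν.condKernel x) := by
    intro x
    rw [lintegral_lintegral_swap]
    have b : Measurable fun q : Y × (Y1 × Y2) => ((x, q.1), q.2) := by fun_prop
    exact (hf.comp b).aemeasurable
  have c1 : ∫⁻ x, ∫⁻ y, ∫⁻ y', f ((x, y), y') ∂(ν.condKernel x) ∂(μ.condKernel x)
      ∂(μ.map Prod.fst) = ∫⁻ q, ∫⁻ y, f ((q.1, y), q.2) ∂(μ.condKernel q.1) ∂ν := by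
    rw [lintegral_cond ν b2, e1]
    exact lintegral_congr fun x => b3 x
  rw [c1]
  have c2 : ∫⁻ q, ∫⁻ y, f ((q.1, y), q.2) ∂(μ.condKernel q.1) ∂ν =
      ∫⁻ r, ∫⁻ y, f ((r.1.1, y), (r.1.2, r.2)) ∂(μ.condKernel r.1.1) ∂ν2 := by
    have b4 : Measurable fun r : (X0 × Y1) × Y2 =>
        ∫⁻ y, f ((r.1.1, y), (r.1.2, r.2)) ∂(μ.condKernel r.1.1) :=
      b2.comp (by fun_prop : Measurable fun r : (X0 × Y1) × Y2 => (r.1.1, (r.1.2, r.2)))
    rw [← e4, lintegral_map b4 (by fun_prop)]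
  rw [c2]
  have b4 : Measurable fun r : (X0 × Y1) × Y2 =>
      ∫⁻ y, f ((r.1.1, y), (r.1.2, r.2)) ∂(μ.condKernel r.1.1) :=
    b2.comp (by fun_prop : Measurable fun r : (X0 × Y1) × Y2 => (r.1.1, (r.1.2, r.2)))
  rw [lintegral_cond ν2 b4, e3]
  have b5 : Measurable fun q : X0 × Y1 => ∫⁻ y2, ∫⁻ y, f ((q.1, y), (q.2, y2))
      ∂(μ.condKernel q.1) ∂(ν2.condKernel q) :=
    Measurable.lintegral_kernel_prod_right' (κ := ν2.condKernel) b4
  rw [lintegral_cond ν1 b5, e1, e2]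
  refine lintegral_congr fun x => ?_
  -- swap the integrals
  have b6 : ∀ y1, ∫⁻ y2, ∫⁻ y, f ((x, y), (y1, y2)) ∂(μ.condKernel x) ∂(ν2.condKernel (x, y1)) =
      ∫⁻ y, ∫⁻ y2, f ((x, y), (y1, y2)) ∂(ν2.condKernel (x, y1)) ∂(μ.condKernel x) := by
    intro y1
    rw [lintegral_lintegral_swap]
    have b : Measurable fun q : Y2 × Y => ((x, q.2), (y1, q.1)) := by fun_prop
    exact (hf.comp b).aemeasurable
  have b7 : ∫⁻ y1, ∫⁻ y2, ∫⁻ y, f ((x, y), (y1, y2)) ∂(μ.condKernel x) ∂(ν2.condKernel (x, y1))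
      ∂(ν1.condKernel x) =
      ∫⁻ y1, ∫⁻ y, ∫⁻ y2, f ((x, y), (y1, y2)) ∂(ν2.condKernel (x, y1)) ∂(μ.condKernel x)
      ∂(ν1.condKernel x) := lintegral_congr b6
  rw [b7, lintegral_lintegral_swap]
  · rfl
  · have b8 : Measurable fun q : Y × Y1 => ((((x, q.2), q.1) : (X0 × Y1) × Y)) := by fun_prop
    exact (b1.comp b8).aemeasurable

end SPHK
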