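import Mathlib

/-! Project SPHK (MP_f7e9f1_co), row KEYA: two invariant laws, one absolutely continuous with
respect to the other, over a transitive action. -/

set_option autoImplicit false

open MeasureTheory Set Filter
open scoped ENNReal

noncomputable section
namespace Pool.Agent.SPHK

theorem key_abstract {G Y F : Type*} [MeasurableSpace G] [MeasurableSpace Y] [MeasurableSpace F]
    (m : Measure G) [IsProbabilityMeasure m] (P P'' : Measure (Y × F)) [IsProbabilityMeasure P]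
    [IsProbabilityMeasure P''] (aY : G → Y → Y) (aF : G → F → F)
    (haY : Measurable fun p : G × Y => aY p.1 p.2) (haF : Measurable fun p : G × F => aF p.1 p.2)
    (hP : ∀ g, P.map (fun p => (aY g p.1, aF g p.2)) = P)
    (hP'' : ∀ g, P''.map (fun p => (aY g p.1, aF g p.2)) = P'') (hac : P ≪ P'')
    (htr : ∀ G' : Set F, MeasurableSet G' →
      ∀ᵐ p ∂P'', m {g | aF g p.2 ∈ G'} = P (Prod.snd ⁻¹' G'))
    (ρ : ℝ≥0∞) (hρ : ρ ≠ 0) :
    ∃ τ : ℝ≥0∞, τ ≠ 0 ∧ ∀ (B : Set Y) (G' : Set F), MeasurableSet B → MeasurableSet G' →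
      P'' (B ×ˢ G') ≤ τ * P (Prod.snd ⁻¹' G') → P (B ×ˢ G') ≤ ρ * P (Prod.snd ⁻¹' G') := by
  -- epsilon delta
  have hf1 : ∫⁻ x, P.rnDeriv P'' x ∂P'' ≠ ⊤ := (Measure.lintegral_rnDeriv_lt_top P P'').ne
  have hPeq : P''.withDensity (P.rnDeriv P'') = P := Measure.withDensity_rnDeriv_eq P P'' hac
  have hρ2 : ρ / 2 ≠ 0 := by
    rw [Ne, ENNReal.div_eq_zero_iff]
    push Not
    exact ⟨hρ, by simp⟩
  obtain ⟨δ, hδ, hδs⟩ := exists_pos_setLIntegral_lt_of_measure_lt hf1 hρ2
  have hδP : ∀ s : Set (Y × F), MeasurableSet s → P'' s < δ → P s ≤ ρ / 2 := by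
    intro s hs h
    have h1 := (hδs s h).le
    rwa [← withDensity_apply _ hs, hPeq] at h1
  set t : ℝ≥0∞ := min (min (ρ / 2) (δ / 2)) 1 with ht
  have hδ2 : δ / 2 ≠ 0 := by
    rw [Ne, ENNReal.div_eq_zero_iff]
    push Not
    exact ⟨hδ.ne', by simp⟩
  have ht0 : t ≠ 0 := by
    have h1 : 0 < ρ / 2 := pos_iff_ne_zero.2 hρ2
    have h2 : 0 < δ / 2 := pos_iff_ne_zero.2 hδ2
    exact (lt_min (lt_min h1 h2) one_pos).ne'
  have ht1 : t ≠ ⊤ := ((min_le_right _ _).trans_lt ENNReal.one_lt_top).ne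
  have htδ : t < δ := by
    by_cases h : δ = ⊤
    · rw [h]
      exact lt_top_iff_ne_top.2 ht1
    · exact ((min_le_left _ _).trans (min_le_right _ _)).trans_lt (ENNReal.half_lt_self hδ.ne' h)
  have htρ : t ≤ ρ / 2 := (min_le_left _ _).trans (min_le_left _ _)
  refine ⟨t * t, mul_ne_zero ht0 ht0, fun B G' hB hG hle => ?_⟩
  set pG : ℝ≥0∞ := P (Prod.snd ⁻¹' G') with hpG
  have hpGt : pG ≠ ⊤ := measure_ne_top _ _
  by_cases hp0 : pG = 0
  · have h1 : P (B ×ˢ G') ≤ pG := measure_mono fun p hp => hp.2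
    rw [hp0] at h1
    rw [le_zero_iff.1 h1]
    exact zero_le
  have hBG : MeasurableSet (B ×ˢ G') := hB.prod hG
  have hact : Measurable fun q : G × (Y × F) => (aY q.1 q.2.1, aF q.1 q.2.2) :=
    (haY.comp (measurable_fst.prodMk (measurable_fst.comp measurable_snd))).prodMk
      (haF.comp (measurable_fst.prodMk (measurable_snd.comp measurable_snd)))
  have hactg : ∀ g : G, Measurable fun p : Y × F => (aY g p.1, aF g p.2) := fun g =>
    hact.comp (measurable_const.prodMk measurable_id)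
  set A : Set (G × (Y × F)) := {q | (aY q.1 q.2.1, aF q.1 q.2.2) ∈ B ×ˢ G'} with hA
  have hAm : MeasurableSet A := hact hBG
  set h : Y × F → ℝ≥0∞ := fun p => m {g | (g, p) ∈ A} with hh
  have hhm : Measurable h := measurable_measure_prodMk_right hAm
  have hint : ∀ Q : Measure (Y × F), IsProbabilityMeasure Q →
      (∀ g, Q.map (fun p => (aY g p.1, aF g p.2)) = Q) → ∫⁻ p, h p ∂Q = Q (B ×ˢ G') := by
    intro Q hQ hinv
    have e1 : (m.prod Q) A = ∫⁻ p, h p ∂Q := Measure.prod_apply_symm hAm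
    rw [← e1, Measure.prod_apply hAm]
    have e2 : ∀ g, Q (Prod.mk g ⁻¹' A) = Q (B ×ˢ G') := by
      intro g
      conv_rhs => rw [← hinv g, Measure.map_apply (hactg g) hBG]
      rfl
    simp only [e2]
    rw [lintegral_const, measure_univ, mul_one]
  have hle1 : ∀ᵐ p ∂P'', h p ≤ pG := by
    filter_upwards [htr G' hG] with p hp
    rw [← hpG] at hp
    rw [← hp]
    exact measure_mono fun g hg => hg.2
  set s : Set (Y × F) := {p | t * pG ≤ h p} with hs
  have hsm : MeasurableSet s := measurableSet_le measurable_const hhm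
  have htp : t * pG ≠ 0 := mul_ne_zero ht0 hp0
  have htpt : t * pG ≠ ⊤ := ENNReal.mul_ne_top ht1 hpGt
  have hs1 : P'' s ≤ t := by
    have h2 : t * pG * P'' s ≤ ∫⁻ p, h p ∂P'' := mul_meas_ge_le_lintegral₀ hhm.aemeasurable _
    rw [hint P'' inferInstance hP''] at h2
    have h3 : t * pG * P'' s ≤ t * pG * t := by
      refine h2.trans (hle.trans (le_of_eq ?_))
      ring
    exact (ENNReal.mul_le_mul_iff_right htp htpt).1 h3
  have hs2 : P s ≤ ρ / 2 := hδP s hsm (hs1.trans_lt htδ)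
  rw [← hint P inferInstance hP, ← lintegral_add_compl h hsm]
  have hle2 : ∀ᵐ p ∂P, h p ≤ pG := hac.ae_le hle1
  calc ∫⁻ p in s, h p ∂P + ∫⁻ p in sᶜ, h p ∂P
      ≤ ∫⁻ _ in s, pG ∂P + ∫⁻ _ in sᶜ, t * pG ∂P := by
        refine add_le_add (lintegral_mono_ae (ae_restrict_of_ae hle2)) ?_
        refine setLIntegral_mono measurable_const fun p hp => ?_
        have hp' : ¬ t * pG ≤ h p := hp
        exact (not_le.1 hp').le
    _ = pG * P s + t * pG * P sᶜ := by
        rw [setLIntegral_const, setLIntegral_const]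
    _ ≤ pG * (ρ / 2) + ρ / 2 * pG * 1 := by
        refine add_le_add (mul_le_mul_right hs2 _) ?_
        exact mul_le_mul' (mul_le_mul' htρ le_rfl) prob_le_one
    _ = ρ * pG := by
        rw [mul_one, mul_comm pG, ← add_mul, ENNReal.add_halves]

end Pool.Agent.SPHK
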