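import Pool.Agent.SPHK.GramP
import Pool.Agent.SPHK.KeyA

/-! Project SPHK (MP_f7e9f1_co), section B.4, version without stabilisers: the frame is resampled
one vector at a time; from absolute continuity of every step to the KEY inequality. -/

set_option autoImplicit false

open MeasureTheory Set Filter Module
open scoped ENNReal Topology

noncomputable section
namespace Pool.Agent.SPHK

open SPH _root_.SPHK

/-- resampling of the vector with index b + 1 -/
def stepF {n d : ℕ} (b : ℕ) (ψ : Fin (n + 1) → E d) (ξ : E d) : Fin (n + 1) → E d := fun z =>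
  if (z : ℕ) = b + 1 then dirn (prp (fun z' : {z : Fin (n + 1) // (z : ℕ) ≤ b} => ψ z') ξ) else ψ z

/-- the vectors with index at most b -/
def truncF {n d : ℕ} (b : ℕ) (ψ : Fin (n + 1) → E d) : Fin (n + 1) → E d := fun z =>
  if (z : ℕ) ≤ b then ψ z else 0

/-- the action on labels -/
def actY {J S : Type*} {d : ℕ} (T : OG d) (y : J → E d × S) : J → E d × S :=
  fun j => (act T (y j).1, (y j).2)

/-- the action on frames -/
def actF {n d : ℕ} (T : OG d) (ψ : Fin (n + 1) → E d) : Fin (n + 1) → E d := fun z => act T (ψ z)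

/-- the law of the labels and the first b + 1 vectors of the frame -/
def lawF {Ω0 J S : Type*} [MeasurableSpace Ω0] [MeasurableSpace S] {n d : ℕ} (P : Measure Ω0)
    (Y0 : Ω0 → J → E d × S) (ψ0 : Ω0 → Fin (n + 1) → E d) (b : ℕ) :
    Measure ((J → E d × S) × (Fin (n + 1) → E d)) :=
  ((mu d).prod P).map fun q => (actY q.1 (Y0 q.2), truncF b (actF q.1 (ψ0 q.2)))

/-- one resampling step -/
def stepLaw {J S : Type*} [MeasurableSpace S] {n d : ℕ} (b : ℕ)
    (Q : Measure ((J → E d × S) × (Fin (n + 1) → E d))) :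
    Measure ((J → E d × S) × (Fin (n + 1) → E d)) :=
  (Q.prod (sig d)).map fun q => (q.1.1, stepF b q.1.2 (q.2 : E d))

section meas

variable {n d : ℕ}

theorem measurable_act_unc (d : ℕ) : Measurable (fun p : OG d × E d => act p.1 p.2) :=
  (continuous_act d).measurable

theorem measurable_act_pair {X : Type*} [MeasurableSpace X] {T : X → OG d} (hT : Measurable T)
    {x : X → E d} (hx : Measurable x) : Measurable fun p => act (T p) (x p) := by
  have h := (measurable_act_unc d).comp (hT.prodMk hx)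
  exact h

theorem measurable_actF {X : Type*} [MeasurableSpace X] {T : X → OG d} (hT : Measurable T)
    {ψ : X → Fin (n + 1) → E d} (hψ : Measurable ψ) : Measurable fun p => actF (T p) (ψ p) :=
  measurable_pi_lambda _ fun z => measurable_act_pair hT ((measurable_pi_apply z).comp hψ)

theorem measurable_actY {J S : Type*} [MeasurableSpace S] {X : Type*} [MeasurableSpace X]
    {T : X → OG d} (hT : Measurable T) {y : X → J → E d × S} (hy : Measurable y) :
    Measurable fun p => actY (T p) (y p) :=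
  measurable_pi_lambda _ fun j =>
    (measurable_act_pair hT (measurable_fst.comp ((measurable_pi_apply j).comp hy))).prodMk
      (measurable_snd.comp ((measurable_pi_apply j).comp hy))

theorem measurable_truncF {X : Type*} [MeasurableSpace X] (b : ℕ)
    {ψ : X → Fin (n + 1) → E d} (hψ : Measurable ψ) : Measurable fun p => truncF b (ψ p) := by
  refine measurable_pi_lambda _ fun z => ?_
  unfold truncF
  by_cases h : (z : ℕ) ≤ b
  · simp only [if_pos h]
    exact (measurable_pi_apply z).comp hψ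
  · simp only [if_neg h]
    exact measurable_const

theorem measurable_prp {Z : Type*} [Fintype Z] [DecidableEq Z] {X : Type*} [MeasurableSpace X]
    {y : X → Z → E d} (hy : Measurable y) {x : X → E d} (hx : Measurable x) :
    Measurable fun p => prp (y p) (x p) := by
  unfold prp
  exact hx.sub (measurable_cmb hy (measurable_pi_lambda _ fun z =>
    ((measurable_pi_apply z).comp hy).inner hx))

theorem measurable_stepF {X : Type*} [MeasurableSpace X] (b : ℕ) {ψ : X → Fin (n + 1) → E d}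
    (hψ : Measurable ψ) {ξ : X → E d} (hξ : Measurable ξ) :
    Measurable fun p => stepF b (ψ p) (ξ p) := by
  refine measurable_pi_lambda _ fun z => ?_
  unfold stepF
  by_cases h : (z : ℕ) = b + 1
  · simp only [if_pos h]
    refine measurable_dirn.comp (measurable_prp ?_ hξ)
    exact measurable_pi_lambda _ fun z' => (measurable_pi_apply z'.1).comp hψ
  · simp only [if_neg h]
    exact (measurable_pi_apply z).comp hψ

end meas

theorem actF_truncF {n d : ℕ} (T : OG d) (b : ℕ) (ψ : Fin (n + 1) → E d) :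
    actF T (truncF b ψ) = truncF b (actF T ψ) := by
  funext z
  unfold actF truncF
  by_cases h : (z : ℕ) ≤ b
  · simp only [if_pos h]
  · simp only [if_neg h, act_zero]

theorem actF_stepF {n d : ℕ} (T : OG d) (b : ℕ) (ψ : Fin (n + 1) → E d) (ξ : E d) :
    actF T (stepF b ψ ξ) = stepF b (actF T ψ) (act T ξ) := by
  funext z
  unfold actF stepF
  by_cases h : (z : ℕ) = b + 1
  · simp only [if_pos h]
    rw [← dirn_act, ← prp_act]
  · simp only [if_neg h]

theorem actF_mul {n d : ℕ} (S T : OG d) (ψ : Fin (n + 1) → E d) :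
    actF (S * T) ψ = actF S (actF T ψ) := by
  funext z
  exact act_mul S T (ψ z)

theorem actY_mul {J S' : Type*} {d : ℕ} (S T : OG d) (y : J → E d × S') :
    actY (S * T) y = actY S (actY T y) := by
  funext j
  exact Prod.ext (act_mul S T (y j).1) rfl

/-- proper subspaces are null sets of the sphere -/
theorem sig_submodule {d : ℕ} (V : Submodule ℝ (E d)) (hV : V ≠ ⊤) :
    ∀ᵐ ξ : Sph d ∂(sig d), (ξ : E d) ∉ V := by
  have hVm : MeasurableSet ((V : Set (E d))ᶜ) := V.closed_of_finiteDimensional.measurableSet.compl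
  refine sig_of_dirn (S := (V : Set (E d))ᶜ) hVm ?_
  have h1 : (volume : Measure (E d)) (V : Set (E d)) = 0 :=
    Measure.addHaar_submodule volume V hV
  have h2 : ∀ᵐ x : E d, x ∉ (V : Set (E d)) := measure_eq_zero_iff_ae_notMem.1 h1
  filter_upwards [h2] with x hx
  intro hd
  apply hx
  by_cases h0 : x = 0
  · rw [h0]
    exact V.zero_mem
  · have h3 : x = ‖x‖ • dirn x := by
      unfold dirn
      rw [smul_smul, mul_inv_cancel₀ (norm_ne_zero_iff.2 h0), one_smul]
    rw [h3]
    exact V.smul_mem _ hd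

/-- the first b + 1 vectors are orthonormal -/
def OrtF {n d : ℕ} (b : ℕ) (ψ : Fin (n + 1) → E d) : Prop :=
  Orthonormal ℝ (fun z : {z : Fin (n + 1) // (z : ℕ) ≤ b} => ψ z)

theorem ortF_step {n d : ℕ} (hnd : n ≤ d) {b : ℕ} (hb : b < n) (ψ : Fin (n + 1) → E d)
    (h : OrtF b ψ) : ∀ᵐ ξ : Sph d ∂(sig d), OrtF (b + 1) (stepF b ψ (ξ : E d)) := by
  set y : {z : Fin (n + 1) // (z : ℕ) ≤ b} → E d := fun z => ψ z with hy
  have hlin : LinearIndependent ℝ y := h.linearIndependent
  have hne : Submodule.span ℝ (range y) ≠ ⊤ := by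
    intro htop
    have h1 := finrank_span_eq_card (R := ℝ) hlin
    rw [htop, finrank_top, finrank_euclideanSpace_fin] at h1
    have h2 : Fintype.card {z : Fin (n + 1) // (z : ℕ) ≤ b} ≤ n := by
      have h3 : Fintype.card {z : Fin (n + 1) // (z : ℕ) ≤ b} < Fintype.card (Fin (n + 1)) := by
        refine Fintype.card_subtype_lt (x := Fin.last n) ?_
        simp only [Fin.val_last]
        omega
      rw [Fintype.card_fin] at h3
      omega
    omega
  filter_upwards [sig_submodule _ hne] with ξ hξ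
  set x : E d := prp y (ξ : E d) with hx
  have hxm : x ∈ (Submodule.span ℝ (range y))ᗮ := by
    rw [hx, prp_eq hlin]
    exact Subtype.coe_prop _
  have hx0 : x ≠ 0 := by
    intro h0
    apply hξ
    have h1 : (ξ : E d) = cmb y (fun z => inner ℝ (y z) (ξ : E d)) := by
      have h2 : (ξ : E d) - cmb y (fun z => inner ℝ (y z) (ξ : E d)) = 0 := h0
      exact sub_eq_zero.1 h2
    rw [h1]
    exact cmb_mem_span _ _
  have hunit : ‖dirn x‖ = 1 := norm_dirn hx0
  have horth : ∀ z : {z : Fin (n + 1) // (z : ℕ) ≤ b}, inner ℝ (ψ z) (dirn x) = 0 := by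
    intro z
    unfold dirn
    rw [real_inner_smul_right]
    have h1 : inner ℝ (y z) x = 0 :=
      (Submodule.mem_orthogonal _ x).1 hxm (y z) (Submodule.subset_span ⟨z, rfl⟩)
    rw [show ψ z = y z from rfl, h1, mul_zero]
  unfold OrtF at h ⊢
  rw [orthonormal_iff_ite] at h ⊢
  have hval : ∀ z : {z : Fin (n + 1) // (z : ℕ) ≤ b + 1},
      stepF b ψ (ξ : E d) z = if (z : ℕ) = b + 1 then dirn x else ψ z := fun z => rfl
  rintro ⟨z, hz⟩ ⟨z', hz'⟩
  rw [hval, hval]
  simp only
  by_cases e1 : (z : ℕ) = b + 1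
  · by_cases e2 : (z' : ℕ) = b + 1
    · have e3 : z = z' := Fin.ext (e1.trans e2.symm)
      subst e3
      rw [if_pos e1, if_pos rfl, real_inner_self_eq_norm_sq, hunit, one_pow]
    · rw [if_pos e1, if_neg e2, if_neg (fun h => e2 (by
        have := congrArg (fun w : {z : Fin (n + 1) // (z : ℕ) ≤ b + 1} => ((w : Fin (n + 1)) : ℕ)) h
        simp only at this
        omega)), real_inner_comm]
      exact horth ⟨z', by omega⟩
  · by_cases e2 : (z' : ℕ) = b + 1
    · rw [if_neg e1, if_pos e2, if_neg (fun h => e1 (by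
        have := congrArg (fun w : {z : Fin (n + 1) // (z : ℕ) ≤ b + 1} => ((w : Fin (n + 1)) : ℕ)) h
        simp only at this
        omega))]
      exact horth ⟨z, by omega⟩
    · rw [if_neg e1, if_neg e2]
      have h1 := h ⟨z, by omega⟩ ⟨z', by omega⟩
      simp only at h1
      rw [h1]
      by_cases e3 : z = z'
      · subst e3
        rw [if_pos rfl, if_pos rfl]
      · rw [if_neg (fun h => e3 (by simpa using h)), if_neg (fun h => e3 (by simpa using h))]

section main

variable {Ω0 J S : Type*} [MeasurableSpace Ω0] [MeasurableSpace S] {n d : ℕ}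

/-- the resampled laws -/
def resLaw (Q : Measure ((J → E d × S) × (Fin (n + 1) → E d))) :
    ℕ → Measure ((J → E d × S) × (Fin (n + 1) → E d))
  | 0 => Q
  | b + 1 => stepLaw b (resLaw Q b)

theorem measurable_stepMap (b : ℕ) : Measurable
    (fun q : ((J → E d × S) × (Fin (n + 1) → E d)) × Sph d => (q.1.1, stepF b q.1.2 (q.2 : E d))) :=
  (measurable_fst.comp measurable_fst).prodMk
    (measurable_stepF b (measurable_snd.comp measurable_fst)
      (measurable_subtype_coe.comp measurable_snd))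

theorem measurable_lawMap {Y0 : Ω0 → J → E d × S} (hY0 : Measurable Y0)
    {ψ0 : Ω0 → Fin (n + 1) → E d} (hψ0 : Measurable ψ0) (b : ℕ) : Measurable
    (fun q : OG d × Ω0 => (actY q.1 (Y0 q.2), truncF b (actF q.1 (ψ0 q.2)))) :=
  (measurable_actY measurable_fst (hY0.comp measurable_snd)).prodMk
    (measurable_truncF b (measurable_actF measurable_fst (hψ0.comp measurable_snd)))

theorem isProb_lawF (P : Measure Ω0) [IsProbabilityMeasure P] {Y0 : Ω0 → J → E d × S}
    (hY0 : Measurable Y0) {ψ0 : Ω0 → Fin (n + 1) → E d} (hψ0 : Measurable ψ0) (b : ℕ) :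
    IsProbabilityMeasure (lawF P Y0 ψ0 b) :=
  Measure.isProbabilityMeasure_map (measurable_lawMap hY0 hψ0 b).aemeasurable

theorem isProb_resLaw (Q : Measure ((J → E d × S) × (Fin (n + 1) → E d)))
    [IsProbabilityMeasure Q] (b : ℕ) : IsProbabilityMeasure (resLaw Q b) := by
  induction b with
  | zero => exact inferInstanceAs (IsProbabilityMeasure Q)
  | succ b ih =>
    exact Measure.isProbabilityMeasure_map (measurable_stepMap b).aemeasurable

/-- the action on labels and frames -/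
def actQ (g : OG d) (p : (J → E d × S) × (Fin (n + 1) → E d)) :
    (J → E d × S) × (Fin (n + 1) → E d) := (actY g p.1, actF g p.2)

theorem measurable_actQ (g : OG d) :
    Measurable (actQ g : (J → E d × S) × (Fin (n + 1) → E d) → _) :=
  (measurable_actY measurable_const measurable_fst).prodMk
    (measurable_actF measurable_const measurable_snd)

theorem lawF_inv (P : Measure Ω0) [IsProbabilityMeasure P] {Y0 : Ω0 → J → E d × S}
    (hY0 : Measurable Y0) {ψ0 : Ω0 → Fin (n + 1) → E d} (hψ0 : Measurable ψ0) (b : ℕ) (g : OG d) :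
    (lawF P Y0 ψ0 b).map (actQ g) = lawF P Y0 ψ0 b := by
  unfold lawF
  rw [Measure.map_map (measurable_actQ g) (measurable_lawMap hY0 hψ0 b)]
  have hmp : MeasurePreserving (fun q : OG d × Ω0 => (g * q.1, q.2)) ((mu d).prod P)
      ((mu d).prod P) :=
    (measurePreserving_mul_left (mu d) g).prod (MeasurePreserving.id P)
  conv_rhs => rw [← hmp.map_eq, Measure.map_map (measurable_lawMap hY0 hψ0 b) hmp.measurable]
  refine congrArg (fun f => Measure.map f _) ?_
  funext q
  show (actY g (actY q.1 (Y0 q.2)), actF g (truncF b (actF q.1 (ψ0 q.2)))) =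
    (actY (g * q.1) (Y0 q.2), truncF b (actF (g * q.1) (ψ0 q.2)))
  rw [actY_mul, actF_truncF, actF_mul]

theorem map_act_sig (g : OG d) :
    MeasurePreserving (fun x : Sph d => g • x) (sig d) (sig d) := measurePreserving_sig g

theorem stepLaw_inv (Q : Measure ((J → E d × S) × (Fin (n + 1) → E d))) [IsProbabilityMeasure Q]
    (hQ : ∀ g, Q.map (actQ g) = Q) (b : ℕ) (g : OG d) :
    (stepLaw b Q).map (actQ g) = stepLaw b Q := by
  unfold stepLaw
  rw [Measure.map_map (measurable_actQ g) (measurable_stepMap b)]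
  have hmp : MeasurePreserving (fun q : ((J → E d × S) × (Fin (n + 1) → E d)) × Sph d =>
      (actQ g q.1, g • q.2)) (Q.prod (sig d)) (Q.prod (sig d)) :=
    MeasurePreserving.prod ⟨measurable_actQ g, hQ g⟩ (map_act_sig g)
  conv_rhs => rw [← hmp.map_eq, Measure.map_map (measurable_stepMap b) hmp.measurable]
  refine congrArg (fun f => Measure.map f _) ?_
  funext q
  show (actY g q.1.1, actF g (stepF b q.1.2 (q.2 : E d))) =
    (actY g q.1.1, stepF b (actF g q.1.2) ((g • q.2 : Sph d) : E d))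
  rw [actF_stepF]
  rfl

theorem resLaw_inv (Q : Measure ((J → E d × S) × (Fin (n + 1) → E d))) [IsProbabilityMeasure Q]
    (hQ : ∀ g, Q.map (actQ g) = Q) (b : ℕ) (g : OG d) :
    (resLaw Q b).map (actQ g) = resLaw Q b := by
  induction b generalizing g with
  | zero => exact hQ g
  | succ b ih =>
    have := isProb_resLaw Q b
    exact stepLaw_inv (resLaw Q b) ih b g

theorem stepLaw_ac {Q Q' : Measure ((J → E d × S) × (Fin (n + 1) → E d))} [SFinite Q] [SFinite Q']
    (h : Q ≪ Q') (b : ℕ) : stepLaw b Q ≪ stepLaw b Q' :=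
  (h.prod (Measure.AbsolutelyContinuous.refl (sig d))).map (measurable_stepMap b)

theorem lawF_ac (P : Measure Ω0) [IsProbabilityMeasure P] {Y0 : Ω0 → J → E d × S}
    (hY0 : Measurable Y0) {ψ0 : Ω0 → Fin (n + 1) → E d} (hψ0 : Measurable ψ0)
    (hstep : ∀ b < n, lawF P Y0 ψ0 (b + 1) ≪ stepLaw b (lawF P Y0 ψ0 b)) (b : ℕ) (hb : b ≤ n) :
    lawF P Y0 ψ0 b ≪ resLaw (lawF P Y0 ψ0 0) b := by
  induction b with
  | zero => exact Measure.AbsolutelyContinuous.refl _
  | succ b ih =>
    have h1 := isProb_lawF P hY0 hψ0 b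
    have h0 := isProb_lawF P hY0 hψ0 0
    have h2 := isProb_resLaw (lawF P Y0 ψ0 0) b
    exact (hstep b (by omega)).trans (stepLaw_ac (ih (by omega)) b)

theorem measurableSet_ortF (b : ℕ) : MeasurableSet {ψ : Fin (n + 1) → E d | OrtF b ψ} := by
  have e : {ψ : Fin (n + 1) → E d | OrtF b ψ} =
      ⋂ z : {z : Fin (n + 1) // (z : ℕ) ≤ b}, ⋂ z' : {z : Fin (n + 1) // (z : ℕ) ≤ b},
        {ψ : Fin (n + 1) → E d | inner ℝ (ψ z) (ψ z') = if z = z' then (1 : ℝ) else 0} := by
    ext ψ
    simp only [mem_ofPred_eq, OrtF, orthonormal_iff_ite, mem_iInter]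
  rw [e]
  refine MeasurableSet.iInter fun z => MeasurableSet.iInter fun z' => ?_
  exact measurableSet_eq_fun ((measurable_pi_apply _).inner (measurable_pi_apply _))
    measurable_const

theorem resLaw_ort (hnd : n ≤ d) (Q : Measure ((J → E d × S) × (Fin (n + 1) → E d)))
    [IsProbabilityMeasure Q] (hQ : ∀ᵐ p ∂Q, OrtF 0 p.2) (b : ℕ) (hb : b ≤ n) :
    ∀ᵐ p ∂(resLaw Q b), OrtF b p.2 := by
  induction b with
  | zero => exact hQ
  | succ b ih =>
    have h1 := isProb_resLaw Q b
    have h2 := ih (by omega)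
    have e0 : resLaw Q (b + 1) = ((resLaw Q b).prod (sig d)).map
      (fun q => (q.1.1, stepF b q.1.2 (q.2 : E d))) := rfl
    rw [e0]
    have hm : MeasurableSet {p : (J → E d × S) × (Fin (n + 1) → E d) | OrtF (b + 1) p.2} :=
      measurable_snd (measurableSet_ortF (b + 1))
    rw [ae_map_iff (measurable_stepMap b).aemeasurable hm]
    have hm2 : MeasurableSet {q : ((J → E d × S) × (Fin (n + 1) → E d)) × Sph d |
        OrtF (b + 1) (stepF b q.1.2 (q.2 : E d))} := (measurable_stepMap b) hm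
    rw [Measure.ae_prod_iff_ae_ae hm2]
    filter_upwards [h2] with p hp
    exact ortF_step hnd (by omega) p.2 hp

theorem ortF_gram {ψ ψ' : Fin (n + 1) → E d} (h : OrtF n ψ) (h' : OrtF n ψ') :
    ∃ T : OG d, actF T ψ = ψ' := by
  have key : ∀ φ : Fin (n + 1) → E d, OrtF n φ → ∀ i j, inner ℝ (φ i) (φ j) =
      if i = j then (1 : ℝ) else 0 := by
    intro φ hφ i j
    unfold OrtF at hφ
    rw [orthonormal_iff_ite] at hφ
    have e1 := hφ ⟨i, Nat.lt_succ_iff.1 i.2⟩ ⟨j, Nat.lt_succ_iff.1 j.2⟩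
    by_cases hij : i = j
    · subst hij
      rw [if_pos rfl]
      rw [if_pos rfl] at e1
      exact e1
    · rw [if_neg hij]
      rw [if_neg (fun hh => hij (congrArg Subtype.val hh))] at e1
      exact e1
  obtain ⟨T, hT⟩ := exists_act_of_gram ψ ψ' (fun i j => by rw [key ψ h, key ψ' h'])
  exact ⟨T, funext hT⟩

theorem mu_orbit {ψ ψ' : Fin (n + 1) → E d} (h : OrtF n ψ) (h' : OrtF n ψ')
    {G' : Set (Fin (n + 1) → E d)} (hG : MeasurableSet G') :
    mu d {g | actF g ψ ∈ G'} = mu d {g | actF g ψ' ∈ G'} := by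
  obtain ⟨T, hT⟩ := ortF_gram h h'
  have hm : MeasurableSet {g : OG d | actF g ψ ∈ G'} :=
    (measurable_actF measurable_id measurable_const) hG
  have hmp := measurePreserving_mul_right (mu d) T
  rw [← hmp.measure_preimage hm.nullMeasurableSet]
  refine congrArg _ ?_
  ext g
  show actF (g * T) ψ ∈ G' ↔ actF g ψ' ∈ G'
  rw [actF_mul, hT]

theorem truncF_self (ψ : Fin (n + 1) → E d) : truncF n ψ = ψ := by
  funext z
  unfold truncF
  rw [if_pos (Nat.lt_succ_iff.1 z.2)]

theorem ortF_of_orthonormal {ψ : Fin (n + 1) → E d} (h : Orthonormal ℝ ψ) (b : ℕ) : OrtF b ψ :=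
  h.comp _ Subtype.val_injective

theorem orthonormal_actF {ψ : Fin (n + 1) → E d} (h : Orthonormal ℝ ψ) (T : OG d) :
    Orthonormal ℝ (actF T ψ) := by
  rw [orthonormal_iff_ite] at h ⊢
  intro i j
  unfold actF
  rw [inner_act_act, h]

/-- the law of the frame does not depend on the frame -/
theorem lawF_snd (P : Measure Ω0) [IsProbabilityMeasure P] {Y0 : Ω0 → J → E d × S}
    (hY0 : Measurable Y0) {ψ0 : Ω0 → Fin (n + 1) → E d} (hψ0 : Measurable ψ0)
    (hort : ∀ᵐ ω ∂P, Orthonormal ℝ (ψ0 ω)) {ψ : Fin (n + 1) → E d} (hψ : OrtF n ψ)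
    {G' : Set (Fin (n + 1) → E d)} (hG : MeasurableSet G') :
    mu d {g | actF g ψ ∈ G'} = lawF P Y0 ψ0 n (Prod.snd ⁻¹' G') := by
  unfold lawF
  rw [Measure.map_apply (measurable_lawMap hY0 hψ0 n) (measurable_snd hG)]
  have hm : MeasurableSet {q : OG d × Ω0 | actF q.1 (ψ0 q.2) ∈ G'} :=
    (measurable_actF measurable_fst (hψ0.comp measurable_snd)) hG
  have e1 : ((fun q : OG d × Ω0 => (actY q.1 (Y0 q.2), truncF n (actF q.1 (ψ0 q.2)))) ⁻¹'
      (Prod.snd ⁻¹' G')) = {q : OG d × Ω0 | actF q.1 (ψ0 q.2) ∈ G'} := by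
    ext q
    show truncF n (actF q.1 (ψ0 q.2)) ∈ G' ↔ _
    rw [truncF_self]
    rfl
  rw [e1, Measure.prod_apply_symm hm]
  have e2 : ∀ᵐ ω ∂P, mu d ((fun x => (x, ω)) ⁻¹' {q : OG d × Ω0 | actF q.1 (ψ0 q.2) ∈ G'}) =
      mu d {g | actF g ψ ∈ G'} := by
    filter_upwards [hort] with ω hω
    exact mu_orbit (ortF_of_orthonormal hω n) hψ hG
  rw [lintegral_congr_ae e2, lintegral_const, measure_univ, mul_one]

theorem stepF_zero (b : ℕ) (ψ : Fin (n + 1) → E d) (ξ : E d) : stepF b ψ ξ 0 = ψ 0 := by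
  unfold stepF
  rw [if_neg]
  simp

/-- the bound of the resampled law -/
theorem resLaw_le (Q : Measure ((J → E d × S) × (Fin (n + 1) → E d))) [IsProbabilityMeasure Q]
    {B : Set (J → E d × S)} (hB : MeasurableSet B) {C0 : Set (E d)} {τ : ℝ≥0∞}
    (h0 : ∀ G' : Set (Fin (n + 1) → E d), MeasurableSet G' → (∀ ψ ∈ G', ψ 0 ∈ C0) →
      Q (B ×ˢ G') ≤ τ * Q (Prod.snd ⁻¹' G')) (b : ℕ) :
    ∀ G' : Set (Fin (n + 1) → E d), MeasurableSet G' → (∀ ψ ∈ G', ψ 0 ∈ C0) →
      resLaw Q b (B ×ˢ G') ≤ τ * resLaw Q b (Prod.snd ⁻¹' G') := by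
  induction b with
  | zero => exact h0
  | succ b ih =>
    intro G' hG hG0
    have h1 := isProb_resLaw Q b
    have e0 : resLaw Q (b + 1) = ((resLaw Q b).prod (sig d)).map
      (fun q => (q.1.1, stepF b q.1.2 (q.2 : E d))) := rfl
    have hst : ∀ ξ : Sph d, MeasurableSet {ψ : Fin (n + 1) → E d | stepF b ψ (ξ : E d) ∈ G'} :=
      fun ξ => (measurable_stepF b measurable_id measurable_const) hG
    have e1 : ∀ A : Set ((J → E d × S) × (Fin (n + 1) → E d)), MeasurableSet A →
        resLaw Q (b + 1) A = ∫⁻ ξ : Sph d, resLaw Q b {p | (p.1, stepF b p.2 (ξ : E d)) ∈ A}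
          ∂(sig d) := by
      intro A hA
      rw [e0, Measure.map_apply (measurable_stepMap b) hA,
        Measure.prod_apply_symm ((measurable_stepMap b) hA)]
      rfl
    have hmeas : Measurable fun ξ : Sph d =>
        resLaw Q b {p | (p.1, stepF b p.2 (ξ : E d)) ∈ (Prod.snd ⁻¹' G' :
          Set ((J → E d × S) × (Fin (n + 1) → E d)))} :=
      measurable_measure_prodMk_right ((measurable_stepMap b) (measurable_snd hG))
    rw [e1 _ (hB.prod hG), e1 _ (measurable_snd hG), ← lintegral_const_mul τ hmeas]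
    refine lintegral_mono fun ξ => ?_
    exact ih {ψ | stepF b ψ (ξ : E d) ∈ G'} (hst ξ) (fun ψ hψ => by
      have h2 := hG0 _ hψ
      rwa [stepF_zero] at h2)

/-- CHAINK. If every step of the true chain is absolutely continuous with respect to the
resampling step, the KEY inequality holds. -/
theorem chain_key (hnd : n ≤ d) (P : Measure Ω0) [IsProbabilityMeasure P]
    (Y0 : Ω0 → J → E d × S) (hY0 : Measurable Y0) (ψ0 : Ω0 → Fin (n + 1) → E d)
    (hψ0 : Measurable ψ0) (hort : ∀ᵐ ω ∂P, Orthonormal ℝ (ψ0 ω))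
    (hstep : ∀ b < n, lawF P Y0 ψ0 (b + 1) ≪ stepLaw b (lawF P Y0 ψ0 b)) (ρ : ℝ≥0∞) (hρ : ρ ≠ 0) :
    ∃ τ : ℝ≥0∞, τ ≠ 0 ∧ ∀ (B : Set (J → E d × S)) (C0 : Set (E d)), MeasurableSet B →
      MeasurableSet C0 →
      (∀ C ⊆ C0, MeasurableSet C →
        ((mu d).prod P) {q | actY q.1 (Y0 q.2) ∈ B ∧ actF q.1 (ψ0 q.2) 0 ∈ C} ≤
          τ * ((mu d).prod P) {q | actF q.1 (ψ0 q.2) 0 ∈ C}) →
      ∀ G' : Set (Fin (n + 1) → E d), MeasurableSet G' → (∀ ψ ∈ G', ψ 0 ∈ C0) →
        ((mu d).prod P) {q | actY q.1 (Y0 q.2) ∈ B ∧ actF q.1 (ψ0 q.2) ∈ G'} ≤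
          ρ * ((mu d).prod P) {q | actF q.1 (ψ0 q.2) ∈ G'} := by
  set Q0 := lawF P Y0 ψ0 0 with hQ0
  have hQ0p : IsProbabilityMeasure Q0 := isProb_lawF P hY0 hψ0 0
  have hPn : IsProbabilityMeasure (lawF P Y0 ψ0 n) := isProb_lawF P hY0 hψ0 n
  have hRn : IsProbabilityMeasure (resLaw Q0 n) := isProb_resLaw Q0 n
  have hinv0 : ∀ g, Q0.map (actQ g) = Q0 := lawF_inv P hY0 hψ0 0
  have hinvn : ∀ g, (lawF P Y0 ψ0 n).map (actQ g) = lawF P Y0 ψ0 n := lawF_inv P hY0 hψ0 n
  have hinvR : ∀ g, (resLaw Q0 n).map (actQ g) = resLaw Q0 n := resLaw_inv Q0 hinv0 n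
  have hort0 : ∀ᵐ p ∂Q0, OrtF 0 p.2 := by
    have hm : MeasurableSet {p : (J → E d × S) × (Fin (n + 1) → E d) | OrtF 0 p.2} :=
      measurable_snd (measurableSet_ortF 0)
    rw [hQ0]
    unfold lawF
    rw [ae_map_iff (measurable_lawMap hY0 hψ0 0).aemeasurable hm]
    have h2 : ∀ᵐ q ∂((mu d).prod P), Orthonormal ℝ (ψ0 q.2) :=
      Measure.quasiMeasurePreserving_snd.ae hort
    filter_upwards [h2] with q hq
    have h3 : Orthonormal ℝ (actF q.1 (ψ0 q.2)) := orthonormal_actF hq q.1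
    have h4 : OrtF 0 (actF q.1 (ψ0 q.2)) := ortF_of_orthonormal h3 0
    have e5 : (fun z : {z : Fin (n + 1) // (z : ℕ) ≤ 0} => truncF 0 (actF q.1 (ψ0 q.2)) z) =
        fun z : {z : Fin (n + 1) // (z : ℕ) ≤ 0} => actF q.1 (ψ0 q.2) z := by
      funext z
      unfold truncF
      rw [if_pos z.2]
    unfold OrtF at h4 ⊢
    rw [e5]
    exact h4
  have hortn : ∀ᵐ p ∂(resLaw Q0 n), OrtF n p.2 := resLaw_ort hnd Q0 hort0 n le_rfl
  have hac : lawF P Y0 ψ0 n ≪ resLaw Q0 n := lawF_ac P hY0 hψ0 hstep n le_rfl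
  have haY : Measurable fun p : OG d × (J → E d × S) => actY p.1 p.2 :=
    measurable_actY measurable_fst measurable_snd
  have haF : Measurable fun p : OG d × (Fin (n + 1) → E d) => actF p.1 p.2 :=
    measurable_actF measurable_fst measurable_snd
  have htr : ∀ G' : Set (Fin (n + 1) → E d), MeasurableSet G' →
      ∀ᵐ p ∂(resLaw Q0 n), mu d {g | actF g p.2 ∈ G'} = lawF P Y0 ψ0 n (Prod.snd ⁻¹' G') := by
    intro G' hG
    filter_upwards [hortn] with p hp
    exact lawF_snd P hY0 hψ0 hort hp hG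
  obtain ⟨τ, hτ, hmain⟩ := key_abstract (mu d) (lawF P Y0 ψ0 n) (resLaw Q0 n)
    (fun g y => actY g y) (fun g ψ => actF g ψ) haY haF hinvn hinvR hac htr ρ hρ
  refine ⟨τ, hτ, fun B C0 hB hC0 hle G' hG hG0 => ?_⟩
  -- the laws of sets
  have elaw : ∀ (b : ℕ) (A : Set ((J → E d × S) × (Fin (n + 1) → E d))), MeasurableSet A →
      lawF P Y0 ψ0 b A = ((mu d).prod P)
        {q | (actY q.1 (Y0 q.2), truncF b (actF q.1 (ψ0 q.2))) ∈ A} := by
    intro b A hA
    unfold lawF
    rw [Measure.map_apply (measurable_lawMap hY0 hψ0 b) hA]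
    rfl
  have hQ0le : ∀ G' : Set (Fin (n + 1) → E d), MeasurableSet G' → (∀ ψ ∈ G', ψ 0 ∈ C0) →
      Q0 (B ×ˢ G') ≤ τ * Q0 (Prod.snd ⁻¹' G') := by
    intro G' hG hG0
    have hup : Measurable fun x : E d => (fun z : Fin (n + 1) => if (z : ℕ) ≤ 0 then x else 0) := by
      refine measurable_pi_lambda _ fun z => ?_
      by_cases h : (z : ℕ) ≤ 0
      · simp only [if_pos h]
        exact measurable_id
      · simp only [if_neg h]
        exact measurable_const
    set C : Set (E d) := {x | (fun z : Fin (n + 1) => if (z : ℕ) ≤ 0 then x else 0) ∈ G'} with hC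
    have hCm : MeasurableSet C := hup hG
    have hCs : C ⊆ C0 := by
      intro x hx
      have h1 := hG0 _ hx
      simpa using h1
    have e1 : ∀ ψ : Fin (n + 1) → E d, truncF 0 ψ ∈ G' ↔ ψ 0 ∈ C := by
      intro ψ
      have e2 : truncF 0 ψ = fun z : Fin (n + 1) => if (z : ℕ) ≤ 0 then ψ 0 else 0 := by
        funext z
        unfold truncF
        by_cases h : (z : ℕ) ≤ 0
        · rw [if_pos h, if_pos h]
          have : z = 0 := Fin.ext (by simpa using h)
          rw [this]
        · rw [if_neg h, if_neg h]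
      rw [e2]
      rfl
    rw [hQ0, elaw 0 _ (hB.prod hG), elaw 0 _ (measurable_snd hG)]
    have e3 : {q : OG d × Ω0 | (actY q.1 (Y0 q.2), truncF 0 (actF q.1 (ψ0 q.2))) ∈ B ×ˢ G'} =
        {q | actY q.1 (Y0 q.2) ∈ B ∧ actF q.1 (ψ0 q.2) 0 ∈ C} := by
      ext q
      rw [mem_ofPred_eq, mem_prod, e1]
      rfl
    have e4 : {q : OG d × Ω0 | (actY q.1 (Y0 q.2), truncF 0 (actF q.1 (ψ0 q.2))) ∈
        (Prod.snd ⁻¹' G' : Set ((J → E d × S) × (Fin (n + 1) → E d)))} =
        {q | actF q.1 (ψ0 q.2) 0 ∈ C} := by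
      ext q
      rw [mem_ofPred_eq, mem_preimage, e1]
      rfl
    rw [e3, e4]
    exact hle C hCs hCm
  have h1 := resLaw_le Q0 hB hQ0le n G' hG hG0
  have e5 : resLaw Q0 n (Prod.snd ⁻¹' G') = lawF P Y0 ψ0 n (Prod.snd ⁻¹' G') := by
    have hGs : MeasurableSet (Prod.snd ⁻¹' G' : Set ((J → E d × S) × (Fin (n + 1) → E d))) :=
      measurable_snd hG
    have hA : MeasurableSet {q : OG d × ((J → E d × S) × (Fin (n + 1) → E d)) |
        actF q.1 q.2.2 ∈ G'} :=
      (measurable_actF measurable_fst (measurable_snd.comp measurable_snd)) hG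
    have e6 : ((mu d).prod (resLaw Q0 n)) {q | actF q.1 q.2.2 ∈ G'} =
        resLaw Q0 n (Prod.snd ⁻¹' G') := by
      rw [Measure.prod_apply hA]
      have e7 : ∀ g : OG d, resLaw Q0 n (Prod.mk g ⁻¹'
          {q : OG d × ((J → E d × S) × (Fin (n + 1) → E d)) | actF q.1 q.2.2 ∈ G'}) =
          resLaw Q0 n (Prod.snd ⁻¹' G') := by
        intro g
        conv_rhs => rw [← hinvR g, Measure.map_apply (measurable_actQ g) hGs]
        rfl
      simp only [e7]
      rw [lintegral_const, measure_univ, mul_one]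
    rw [← e6, Measure.prod_apply_symm hA]
    refine (lintegral_congr_ae (htr G' hG)).trans ?_
    rw [lintegral_const, measure_univ, mul_one]
  rw [e5] at h1
  have h2 := hmain B G' hB hG h1
  rw [elaw n _ (hB.prod hG), elaw n _ (measurable_snd hG)] at h2
  have e3 : {q : OG d × Ω0 | (actY q.1 (Y0 q.2), truncF n (actF q.1 (ψ0 q.2))) ∈ B ×ˢ G'} =
      {q | actY q.1 (Y0 q.2) ∈ B ∧ actF q.1 (ψ0 q.2) ∈ G'} := by
    ext q
    rw [mem_ofPred_eq, mem_prod, truncF_self]
    rfl
  have e4 : {q : OG d × Ω0 | (actY q.1 (Y0 q.2), truncF n (actF q.1 (ψ0 q.2))) ∈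
      (Prod.snd ⁻¹' G' : Set ((J → E d × S) × (Fin (n + 1) → E d)))} =
      {q | actF q.1 (ψ0 q.2) ∈ G'} := by
    ext q
    rw [mem_ofPred_eq, mem_preimage, truncF_self]
    rfl
  rw [e3, e4] at h2
  exact h2

end main

end Pool.Agent.SPHK
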