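import Mathlib

/-!
# Conditional probabilities with values in `[0, 1]`
-/

open MeasureTheory Filter Topology Set

set_option linter.unusedSectionVars false

namespace Pool.Agent.SPHK

section Cond

variable {X : Type*} {m0 : MeasurableSpace X} (P : Measure X) [IsProbabilityMeasure P]

/-- the indicator function with real values -/
noncomputable def ind (A : Set X) : X → ℝ := A.indicator (fun _ => (1 : ℝ))

theorem ind_apply_mem {A : Set X} {x : X} (h : x ∈ A) : ind A x = 1 := indicator_of_mem h _

theorem ind_apply_not_mem {A : Set X} {x : X} (h : x ∉ A) : ind A x = 0 :=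
  indicator_of_notMem h _

theorem ind_nonneg (A : Set X) (x : X) : 0 ≤ ind A x := by
  by_cases h : x ∈ A
  · simp [ind_apply_mem h]
  · simp [ind_apply_not_mem h]

theorem ind_le_one (A : Set X) (x : X) : ind A x ≤ 1 := by
  by_cases h : x ∈ A
  · simp [ind_apply_mem h]
  · simp [ind_apply_not_mem h]

theorem ind_inter (A B : Set X) (x : X) : ind (A ∩ B) x = ind A x * ind B x := by
  by_cases hA : x ∈ A <;> by_cases hB : x ∈ B <;>
    simp [ind, hA, hB]

theorem ind_measurable {m : MeasurableSpace X} {A : Set X} (hA : MeasurableSet[m] A) :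
    Measurable[m] (ind A) := by
  unfold ind
  exact Measurable.indicator (@measurable_const _ _ _ m _) hA

theorem integral_ind {A : Set X} (hA : MeasurableSet A) : ∫ x, ind A x ∂P = P.real A := by
  unfold ind
  rw [integral_indicator hA]
  simp

theorem setInt_eq {A : Set X} (hA : MeasurableSet A) (f : X → ℝ) :
    ∫ x in A, f x ∂P = ∫ x, ind A x * f x ∂P := by
  rw [← integral_indicator hA]
  congr 1
  funext x
  by_cases h : x ∈ A <;> simp [ind, h]

/-- bounded measurable functions are integrable -/
theorem int_bdd {m : MeasurableSpace X} (hm : m ≤ m0) {h : X → ℝ} (hh : Measurable[m] h) {B : ℝ}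
    (hb : ∀ x, |h x| ≤ B) : Integrable h P := by
  refine Integrable.of_bound (C := B) (hh.mono hm le_rfl).aestronglyMeasurable ?_
  exact Eventually.of_forall fun x => hb x

/-- a version of the conditional probability with values in `[0, 1]` -/
noncomputable def cE (m : MeasurableSpace X) (A : Set X) : X → ℝ :=
  fun x => max 0 (min 1 ((P[ind A | m]) x))

variable {P}

theorem cE_nonneg (m : MeasurableSpace X) (A : Set X) (x : X) : 0 ≤ cE P m A x := le_max_left _ _

theorem cE_le_one (m : MeasurableSpace X) (A : Set X) (x : X) : cE P m A x ≤ 1 :=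
  max_le zero_le_one (min_le_left _ _)

theorem cE_abs (m : MeasurableSpace X) (A : Set X) (x : X) : |cE P m A x| ≤ 1 := by
  rw [abs_of_nonneg (cE_nonneg m A x)]
  exact cE_le_one m A x

theorem cE_meas (m : MeasurableSpace X) (A : Set X) : Measurable[m] (cE P m A) := by
  unfold cE
  have h1 : Measurable[m] (P[ind A | m]) := stronglyMeasurable_condExp.measurable
  exact (@measurable_const _ _ _ m _).max ((@measurable_const _ _ _ m _).min h1)

theorem cE_ae {m : MeasurableSpace X} (hm : m ≤ m0) {A : Set X} (hA : MeasurableSet[m0] A) :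
    cE P m A =ᵐ[P] P[ind A | m] := by
  have hi : Integrable (ind A) P := int_bdd P le_rfl (ind_measurable hA) (B := 1) fun x => by
    rw [abs_of_nonneg (ind_nonneg A x)]
    exact ind_le_one A x
  have h0 : 0 ≤ᵐ[P] P[ind A | m] := condExp_nonneg (Eventually.of_forall fun x => ind_nonneg A x)
  have h1 : P[ind A | m] ≤ᵐ[P] P[(fun _ => (1 : ℝ)) | m] :=
    condExp_mono hi (integrable_const 1) (Eventually.of_forall fun x => ind_le_one A x)
  rw [condExp_const hm] at h1
  filter_upwards [h0, h1] with x hx0 hx1
  show max 0 (min 1 ((P[ind A | m]) x)) = (P[ind A | m]) x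
  have hx0' : (0 : ℝ) ≤ (P[ind A | m]) x := hx0
  rw [min_eq_right hx1, max_eq_right hx0']

theorem ind_abs (A : Set X) (x : X) : |ind A x| ≤ 1 := by
  rw [abs_of_nonneg (ind_nonneg A x)]
  exact ind_le_one A x

theorem mul_abs {a b c d : ℝ} (h1 : |a| ≤ c) (h2 : |b| ≤ d) : |a * b| ≤ c * d := by
  rw [abs_mul]
  exact mul_le_mul h1 h2 (abs_nonneg _) ((abs_nonneg _).trans h1)

/-- pull out of the conditional expectation -/
theorem condExp_key {m : MeasurableSpace X} (hm : m ≤ m0) {w : X → ℝ} (hw : Integrable w P)
    {h : X → ℝ} (hh : Measurable[m] h) {B : ℝ} (hb : ∀ x, |h x| ≤ B) :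
    ∫ x, h x * w x ∂P = ∫ x, h x * (P[w | m]) x ∂P := by
  have hs : StronglyMeasurable[m] h := hh.stronglyMeasurable
  have hi : Integrable (h * w) P := by
    refine hw.bdd_mul (c := B) (hh.mono hm le_rfl).aestronglyMeasurable ?_
    exact Eventually.of_forall fun x => hb x
  have h1 := condExp_mul_of_stronglyMeasurable_left hs hi hw
  have h2 := integral_condExp (μ := P) hm (f := h * w)
  rw [integral_congr_ae h1] at h2
  exact h2.symm

theorem cE_key {m : MeasurableSpace X} (hm : m ≤ m0) {A : Set X} (hA : MeasurableSet[m0] A)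
    {h : X → ℝ} (hh : Measurable[m] h) {B : ℝ} (hb : ∀ x, |h x| ≤ B) :
    ∫ x, h x * ind A x ∂P = ∫ x, h x * cE P m A x ∂P := by
  have hi : Integrable (ind A) P := int_bdd P le_rfl (ind_measurable hA) fun x => ind_abs A x
  rw [condExp_key hm hi hh hb]
  refine integral_congr_ae ?_
  filter_upwards [cE_ae hm hA] with x hx
  rw [hx]

/-- the conditional expectation is self adjoint -/
theorem condExp_adj {m : MeasurableSpace X} (hm : m ≤ m0) {w : X → ℝ} (hw : Integrable w P)
    {A : Set X} (hA : MeasurableSet[m0] A) :
    ∫ x, ind A x * (P[w | m]) x ∂P = ∫ x, cE P m A x * w x ∂P := by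
  have h1 := condExp_key hm hw (cE_meas (P := P) m A) (fun x => cE_abs m A x)
  rw [h1]
  have hi : Integrable (ind A) P := int_bdd P le_rfl (ind_measurable hA) fun x => ind_abs A x
  -- both sides are the integral of the product of the conditional expectations
  have hs : StronglyMeasurable[m] (P[w | m]) := stronglyMeasurable_condExp
  have hprod : Integrable (P[w | m] * ind A) P := by
    have h2 : Integrable (ind A * P[w | m]) P :=
      integrable_condExp.bdd_mul (c := 1) (ind_measurable hA).aestronglyMeasurable
        (Eventually.of_forall fun x => ind_abs A x)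
    rwa [mul_comm] at h2
  have h3 := condExp_mul_of_stronglyMeasurable_left hs hprod hi
  have h4 := integral_condExp (μ := P) hm (f := P[w | m] * ind A)
  rw [integral_congr_ae h3] at h4
  have h5 : ∫ x, ind A x * (P[w | m]) x ∂P = ∫ x, (P[w | m] * ind A) x ∂P := by
    refine integral_congr_ae (Eventually.of_forall fun x => ?_)
    exact mul_comm _ _
  rw [h5, ← h4]
  refine integral_congr_ae ?_
  filter_upwards [cE_ae hm hA] with x hx
  rw [hx]
  exact mul_comm _ _

/-- two bounded functions with the same integrals over a pi-system have the same integrals over the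
generated sigma algebra -/
theorem setInt_pi {C : Set (Set X)} {m : MeasurableSpace X} (hm : m = MeasurableSpace.generateFrom C)
    (hm0 : m ≤ m0) (hC : IsPiSystem C) {u v : X → ℝ} (hu : Integrable u P) (hv : Integrable v P)
    (huv : ∫ x, u x ∂P = ∫ x, v x ∂P)
    (h : ∀ A ∈ C, ∫ x in A, u x ∂P = ∫ x in A, v x ∂P) :
    ∀ A, MeasurableSet[m] A → ∫ x in A, u x ∂P = ∫ x in A, v x ∂P := by
  intro A hA
  induction A, hA using MeasurableSpace.induction_on_inter hm hC with
  | empty => simp
  | basic A hA => exact h A hA
  | compl A hA ih =>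
    have h1 := integral_add_compl (hm0 _ hA) hu
    have h2 := integral_add_compl (hm0 _ hA) hv
    linarith
  | iUnion f hd hf ih =>
    rw [integral_iUnion (fun i => hm0 _ (hf i)) hd hu.integrableOn,
      integral_iUnion (fun i => hm0 _ (hf i)) hd hv.integrableOn]
    exact tsum_congr ih

end Cond

end Pool.Agent.SPHK
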