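import Pool.Agent.SPHK.AI

/-! # Row A.3: from absolutely continuous independence to the decoupling statement DEC -/

set_option autoImplicit false

open MeasureTheory ProbabilityTheory Set Filter
open scoped ENNReal Topology

noncomputable section

namespace Pool.Agent.SPHK

section apx

variable {X : Type*} {m : MeasurableSpace X}

/-- approximation in `L¹` by finite linear combinations of indicators of sets of `C` -/
def Apx (μ : Measure X) (C : Set (Set X)) (f : X → ℝ) : Prop :=
  ∀ ε > 0, ∃ (T : Type) (_ : Fintype T) (c : T → ℝ) (S : T → Set X), (∀ t, S t ∈ C) ∧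
    ∫ x, |f x - ∑ t, c t * (S t).indicator (fun _ => (1 : ℝ)) x| ∂μ ≤ ε

variable {μ : Measure X} [IsFiniteMeasure μ] {C : Set (Set X)}

theorem integrable_comb (hC : ∀ S ∈ C, MeasurableSet S) {T : Type} [Fintype T] (c : T → ℝ)
    (S : T → Set X) (hS : ∀ t, S t ∈ C) :
    Integrable (fun x => ∑ t, c t * (S t).indicator (fun _ => (1 : ℝ)) x) μ := by
  refine integrable_finsetSum _ fun t _ => ?_
  exact ((integrable_const (1 : ℝ)).indicator (hC _ (hS t))).const_mul (c t)

theorem Apx.add (hC : ∀ S ∈ C, MeasurableSet S) {f g : X → ℝ} (hf : Integrable f μ)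
    (hg : Integrable g μ) (h1 : Apx μ C f) (h2 : Apx μ C g) : Apx μ C (fun x => f x + g x) := by
  intro ε hε
  obtain ⟨T, _, c, S, hS, h3⟩ := h1 (ε / 2) (half_pos hε)
  obtain ⟨T', _, c', S', hS', h4⟩ := h2 (ε / 2) (half_pos hε)
  refine ⟨T ⊕ T', inferInstance, Sum.elim c c', Sum.elim S S', ?_, ?_⟩
  · rintro (t | t)
    · exact hS t
    · exact hS' t
  · have i1 := (hf.sub (integrable_comb (μ := μ) hC c S hS)).abs
    have i2 := (hg.sub (integrable_comb (μ := μ) hC c' S' hS')).abs
    calc ∫ x, |f x + g x - ∑ t, (Sum.elim c c') t *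
          ((Sum.elim S S') t).indicator (fun _ => (1 : ℝ)) x| ∂μ
        ≤ ∫ x, (|f x - ∑ t, c t * (S t).indicator (fun _ => (1 : ℝ)) x| +
            |g x - ∑ t, c' t * (S' t).indicator (fun _ => (1 : ℝ)) x|) ∂μ := by
          refine integral_mono_of_nonneg (Eventually.of_forall fun x => abs_nonneg _) (i1.add i2)
            (Eventually.of_forall fun x => ?_)
          simp only [Fintype.sum_sum_type, Sum.elim_inl, Sum.elim_inr]
          rw [show f x + g x - (∑ t, c t * (S t).indicator (fun _ => (1 : ℝ)) x +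
            ∑ t, c' t * (S' t).indicator (fun _ => (1 : ℝ)) x) =
            (f x - ∑ t, c t * (S t).indicator (fun _ => (1 : ℝ)) x) +
            (g x - ∑ t, c' t * (S' t).indicator (fun _ => (1 : ℝ)) x) by ring]
          exact abs_add_le _ _
      _ = _ + _ := integral_add i1 i2
      _ ≤ ε / 2 + ε / 2 := add_le_add h3 h4
      _ = ε := by ring

theorem Apx.mul {f : X → ℝ} (h1 : Apx μ C f) (a : ℝ) : Apx μ C (fun x => a * f x) := by
  intro ε hε
  have ha : 0 < |a| + 1 := by positivity
  obtain ⟨T, _, c, S, hS, h3⟩ := h1 (ε / (|a| + 1)) (div_pos hε ha)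
  refine ⟨T, inferInstance, fun t => a * c t, S, hS, ?_⟩
  have h4 : ∀ x, |a * f x - ∑ t, a * c t * (S t).indicator (fun _ => (1 : ℝ)) x| =
      |a| * |f x - ∑ t, c t * (S t).indicator (fun _ => (1 : ℝ)) x| := by
    intro x
    rw [← abs_mul, mul_sub, Finset.mul_sum]
    simp only [mul_assoc]
  simp only [h4]
  rw [integral_const_mul]
  have h5 : 0 ≤ ∫ x, |f x - ∑ t, c t * (S t).indicator (fun _ => (1 : ℝ)) x| ∂μ :=
    integral_nonneg fun x => abs_nonneg _
  calc |a| * ∫ x, |f x - ∑ t, c t * (S t).indicator (fun _ => (1 : ℝ)) x| ∂μ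
      ≤ (|a| + 1) * (ε / (|a| + 1)) := mul_le_mul (by linarith) h3 h5 ha.le
    _ = ε := by field_simp

theorem Apx.of_close (hC : ∀ S ∈ C, MeasurableSet S) {f : X → ℝ} (hf : Integrable f μ)
    (h : ∀ ε > 0, ∃ g : X → ℝ, Integrable g μ ∧ Apx μ C g ∧ ∫ x, |f x - g x| ∂μ ≤ ε) :
    Apx μ C f := by
  intro ε hε
  obtain ⟨g, hg, hg', h1⟩ := h (ε / 2) (half_pos hε)
  obtain ⟨T, _, c, S, hS, h2⟩ := hg' (ε / 2) (half_pos hε)
  refine ⟨T, inferInstance, c, S, hS, ?_⟩
  have i1 := (hf.sub hg).abs
  have i2 := (hg.sub (integrable_comb (μ := μ) hC c S hS)).abs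
  calc ∫ x, |f x - ∑ t, c t * (S t).indicator (fun _ => (1 : ℝ)) x| ∂μ
      ≤ ∫ x, (|f x - g x| + |g x - ∑ t, c t * (S t).indicator (fun _ => (1 : ℝ)) x|) ∂μ := by
        refine integral_mono_of_nonneg (Eventually.of_forall fun x => abs_nonneg _) (i1.add i2)
          (Eventually.of_forall fun x => ?_)
        exact abs_sub_le _ _ _
    _ = _ + _ := integral_add i1 i2
    _ ≤ ε / 2 + ε / 2 := add_le_add h1 h2
    _ = ε := by ring

theorem apx_indicator (hC : ∀ S ∈ C, MeasurableSet S) (hpi : IsPiSystem C)
    (hgen : m = MeasurableSpace.generateFrom C) (huniv : univ ∈ C) {S : Set X}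
    (hS : MeasurableSet S) : Apx μ C (S.indicator (fun _ => (1 : ℝ))) := by
  have hint : ∀ S : Set X, MeasurableSet S → Integrable (S.indicator (fun _ => (1 : ℝ))) μ :=
    fun S hS => (integrable_const (1 : ℝ)).indicator hS
  induction S, hS using MeasurableSpace.induction_on_inter hgen hpi with
  | empty =>
    intro ε hε
    refine ⟨Empty, inferInstance, fun t => t.elim, fun t => t.elim, fun t => t.elim, ?_⟩
    simp [hε.le]
  | basic t ht =>
    intro ε hε
    refine ⟨Unit, inferInstance, fun _ => 1, fun _ => t, fun _ => ht, ?_⟩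
    simp [hε.le]
  | compl t ht ih =>
    have h1 : Apx μ C (univ.indicator (fun _ => (1 : ℝ))) := by
      intro ε hε
      refine ⟨Unit, inferInstance, fun _ => 1, fun _ => univ, fun _ => huniv, ?_⟩
      simp [hε.le]
    have h2 := h1.add hC (hint _ MeasurableSet.univ) ((hint t ht).const_mul (-1)) (ih.mul (-1))
    have h3 : (fun x => univ.indicator (fun _ => (1 : ℝ)) x +
        -1 * t.indicator (fun _ => (1 : ℝ)) x) = tᶜ.indicator (fun _ => (1 : ℝ)) := by
      funext x
      by_cases hx : x ∈ t
      · simp [hx]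
      · simp [hx]
    rw [h3] at h2
    exact h2
  | iUnion f hdisj hf ih =>
    have hsum : ∀ n : ℕ, Apx μ C (fun x => ∑ i ∈ Finset.range n,
        (f i).indicator (fun _ => (1 : ℝ)) x) := by
      intro n
      induction n with
      | zero =>
        intro ε hε
        refine ⟨Empty, inferInstance, fun t => t.elim, fun t => t.elim, fun t => t.elim, ?_⟩
        simp [hε.le]
      | succ n ihn =>
        simp only [Finset.sum_range_succ]
        exact ihn.add hC (integrable_finsetSum _ fun i _ => hint _ (hf i)) (hint _ (hf n)) (ih n)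
    refine Apx.of_close hC (hint _ (MeasurableSet.iUnion hf)) fun ε hε => ?_
    have hlim := tendsto_measure_biUnion_Ici_zero_of_pairwise_disjoint (μ := μ)
      (fun i => (hf i).nullMeasurableSet) hdisj
    obtain ⟨n, hn⟩ := ((ENNReal.tendsto_nhds_zero.1 hlim) (ENNReal.ofReal ε)
      (ENNReal.ofReal_pos.2 hε)).exists
    refine ⟨_, integrable_finsetSum _ fun i _ => hint _ (hf i), hsum n, ?_⟩
    have h1 : ∀ x, |(⋃ i, f i).indicator (fun _ => (1 : ℝ)) x -
        ∑ i ∈ Finset.range n, (f i).indicator (fun _ => (1 : ℝ)) x| =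
        (⋃ i ≥ n, f i).indicator (fun _ => (1 : ℝ)) x := by
      intro x
      by_cases hx : x ∈ ⋃ i, f i
      · obtain ⟨i, hi⟩ := mem_iUnion.1 hx
        have huniq : ∀ j, x ∈ f j → j = i := by
          intro j hj
          by_contra hne
          exact (hdisj hne).le_bot ⟨hj, hi⟩
        rw [indicator_of_mem hx]
        by_cases hin : i < n
        · rw [Finset.sum_eq_single i, indicator_of_mem hi, indicator_of_notMem]
          · simp
          · intro h
            simp only [mem_iUnion] at h
            obtain ⟨j, hj, hxj⟩ := h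
            have := huniq j hxj
            omega
          · intro j _ hj
            exact indicator_of_notMem (fun h => hj (huniq j h)) _
          · intro h
            exact absurd (Finset.mem_range.2 hin) h
        · rw [Finset.sum_eq_zero, indicator_of_mem]
          · simp
          · simp only [mem_iUnion]
            exact ⟨i, by omega, hi⟩
          · intro j hj
            refine indicator_of_notMem (fun h => ?_) _
            have := huniq j h
            have := Finset.mem_range.1 hj
            omega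
      · rw [indicator_of_notMem hx, Finset.sum_eq_zero, indicator_of_notMem]
        · simp
        · intro h
          simp only [mem_iUnion] at h
          obtain ⟨j, _, hxj⟩ := h
          exact hx (mem_iUnion.2 ⟨j, hxj⟩)
        · intro j _
          exact indicator_of_notMem (fun h => hx (mem_iUnion.2 ⟨j, h⟩)) _
    simp only [h1]
    have hm : MeasurableSet (⋃ i ≥ n, f i) :=
      MeasurableSet.iUnion fun i => MeasurableSet.iUnion fun _ => hf i
    rw [integral_indicator hm, integral_const, smul_eq_mul, mul_one]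
    refine ENNReal.toReal_le_of_le_ofReal hε.le ?_
    rw [Measure.restrict_apply_univ]
    exact hn

theorem apx_integrable (hC : ∀ S ∈ C, MeasurableSet S) (hpi : IsPiSystem C)
    (hgen : m = MeasurableSpace.generateFrom C) (huniv : univ ∈ C) {f : X → ℝ}
    (hf : Integrable f μ) : Apx μ C f := by
  refine Integrable.induction (fun f => Apx μ C f) ?_ ?_ ?_ ?_ hf
  · intro c s hs _
    have h1 := (apx_indicator (μ := μ) hC hpi hgen huniv hs).mul c
    have h2 : (fun x => c * s.indicator (fun _ => (1 : ℝ)) x) = s.indicator (fun _ => c) := by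
      funext x
      by_cases hx : x ∈ s
      · simp [hx]
      · simp [hx]
    rw [h2] at h1
    exact h1
  · intro f g _ hf hg ihf ihg
    exact ihf.add hC hf hg ihg
  · refine isClosed_of_closure_subset fun f hf => ?_
    refine Apx.of_close hC (L1.integrable_coeFn f) fun ε hε => ?_
    obtain ⟨g, hg, hfg⟩ := Metric.mem_closure_iff.1 hf ε hε
    refine ⟨g, L1.integrable_coeFn g, hg, ?_⟩
    rw [L1.dist_eq_integral_dist] at hfg
    simp only [Real.dist_eq] at hfg
    exact hfg.le
  · intro f g hfg hf ih ε hε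
    obtain ⟨T, _, c, S, hS, h1⟩ := ih ε hε
    refine ⟨T, inferInstance, c, S, hS, ?_⟩
    rw [integral_congr_ae (g := fun x => |f x - ∑ t, c t * (S t).indicator (fun _ => (1 : ℝ)) x|)]
    · exact h1
    · filter_upwards [hfg] with x hx
      rw [hx]

end apx

end Pool.Agent.SPHK
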