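import Pool.Agent.SPHK.Cond

/-!
# Coordinates and digits; consequences of the conditional independence of the digits
-/

open MeasureTheory Filter Topology Set

set_option linter.unusedSectionVars false
set_option warn.classDefReducibility false

namespace Pool.Agent.SPHK

/-- coordinates and digits on a measurable space -/
structure Dig (J Om X Dg : Type*) [MeasurableSpace Om] [MeasurableSpace X] where
  y : X → J → Om
  supp : Dg → Finset J
  t : Dg → Set X
  meas_y : ∀ v, Measurable (fun x => y x v)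
  meas_t : ∀ δ, MeasurableSet (t δ)
  ne : ∀ δ, (supp δ).Nonempty

namespace Dig

variable {J Om X Dg : Type*} [MeasurableSpace Om] {m0 : MeasurableSpace X} [DecidableEq J]
  [Fintype J] (D : Dig J Om X Dg)

/-- the sigma algebra of the coordinates in `e` -/
def Ys (e : Finset J) : MeasurableSpace X :=
  ⨆ v ∈ e, MeasurableSpace.comap (fun x => D.y x v) inferInstance

/-- the sigma algebra of the digits with property `Q` -/
def Ds (Q : Dg → Prop) : MeasurableSpace X :=
  MeasurableSpace.generateFrom {A | ∃ δ, Q δ ∧ A = D.t δ}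

/-- coordinates in `e` and digits of size at most `s` inside `e` -/
def Gs (e : Finset J) (s : ℕ) : MeasurableSpace X :=
  D.Ys e ⊔ D.Ds (fun δ => D.supp δ ⊆ e ∧ (D.supp δ).card ≤ s)

/-- all coordinates and the digits of size at most `#f` with support different from `f` -/
def Rs (f : Finset J) : MeasurableSpace X :=
  D.Ys Finset.univ ⊔ D.Ds (fun δ => (D.supp δ).card ≤ f.card ∧ D.supp δ ≠ f)

/-- the digits with support `f` -/
def Ts (f : Finset J) : MeasurableSpace X := D.Ds (fun δ => D.supp δ = f)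

/-- coordinates in `e` and digits in the finite set `E` of size at most `s` inside `e` -/
def Fs (e : Finset J) (s : ℕ) (E : Finset Dg) : MeasurableSpace X :=
  D.Ys e ⊔ D.Ds (fun δ => δ ∈ E ∧ D.supp δ ⊆ e ∧ (D.supp δ).card ≤ s)

/-- conditional independence: given the lower data inside `f`, the digits with support `f` do not
depend on the rest -/
def CI (P : Measure X) : Prop :=
  ∀ (s : ℕ) (f : Finset J), f.card = s + 1 → ∀ A, MeasurableSet[D.Ts f] A →
    cE P (D.Rs f) A =ᵐ[P] cE P (D.Gs f s) A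

variable {D}

theorem Ys_mono {e e' : Finset J} (h : e ⊆ e') : D.Ys e ≤ D.Ys e' :=
  iSup₂_le fun v hv => le_iSup₂ (f := fun v (_ : v ∈ e') =>
    MeasurableSpace.comap (fun x => D.y x v) (inferInstance : MeasurableSpace Om)) v (h hv)

theorem Ys_le (e : Finset J) : D.Ys e ≤ m0 :=
  iSup₂_le fun v _ => (D.meas_y v).comap_le

theorem Ds_mono {Q Q' : Dg → Prop} (h : ∀ δ, Q δ → Q' δ) : D.Ds Q ≤ D.Ds Q' := by
  refine MeasurableSpace.generateFrom_mono ?_
  rintro A ⟨δ, hδ, rfl⟩
  exact ⟨δ, h δ hδ, rfl⟩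

theorem Ds_le (Q : Dg → Prop) : D.Ds Q ≤ m0 := by
  refine MeasurableSpace.generateFrom_le ?_
  rintro A ⟨δ, _, rfl⟩
  exact D.meas_t δ

theorem Gs_le (e : Finset J) (s : ℕ) : D.Gs e s ≤ m0 := sup_le (Ys_le e) (Ds_le _)

theorem Rs_le (f : Finset J) : D.Rs f ≤ m0 := sup_le (Ys_le _) (Ds_le _)

theorem Ts_le (f : Finset J) : D.Ts f ≤ m0 := Ds_le _

theorem Fs_le (e : Finset J) (s : ℕ) (E : Finset Dg) : D.Fs e s E ≤ m0 :=
  sup_le (Ys_le _) (Ds_le _)

theorem Gs_mono {e e' : Finset J} {s s' : ℕ} (h : e ⊆ e') (hs : s ≤ s') :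
    D.Gs e s ≤ D.Gs e' s' :=
  sup_le_sup (Ys_mono h) (Ds_mono fun _ hδ => ⟨hδ.1.trans h, hδ.2.trans hs⟩)

theorem Fs_mono {e : Finset J} {s s' : ℕ} {E E' : Finset Dg} (hs : s ≤ s') (hE : E ⊆ E') :
    D.Fs e s E ≤ D.Fs e s' E' :=
  sup_le_sup le_rfl (Ds_mono fun _ hδ => ⟨hE hδ.1, hδ.2.1, hδ.2.2.trans hs⟩)

theorem Gs_le_Rs {e f : Finset J} {s : ℕ} (h : s < f.card) : D.Gs e s ≤ D.Rs f :=
  sup_le_sup (Ys_mono (Finset.subset_univ e)) (Ds_mono fun δ hδ => ⟨hδ.2.trans h.le, fun hf => by
    have h1 := hδ.2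
    rw [hf] at h1
    omega⟩)

theorem Ts_le_Rs {f f' : Finset J} (h : f' ≠ f) (hc : f'.card ≤ f.card) : D.Ts f' ≤ D.Rs f :=
  le_sup_of_le_right (Ds_mono fun δ hδ => by
    rw [hδ]
    exact ⟨hc, h⟩)

theorem Ts_le_Gs {e f : Finset J} {s : ℕ} (h : f ⊆ e) (hc : f.card ≤ s) : D.Ts f ≤ D.Gs e s :=
  le_sup_of_le_right (Ds_mono fun δ hδ => by
    rw [hδ]
    exact ⟨h, hc⟩)

/-- the sigma algebras which generate `Gs e (s + 1)` -/
def Os (D : Dig J Om X Dg) (e : Finset J) (s : ℕ) :
    Option {f // f ∈ e.powersetCard (s + 1)} → MeasurableSpace X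
  | none => D.Gs e s
  | some f => D.Ts f.1

theorem Gs_succ (e : Finset J) (s : ℕ) : D.Gs e (s + 1) = ⨆ i, D.Os e s i := by
  refine le_antisymm (sup_le ?_ ?_) (iSup_le ?_)
  · exact le_iSup_of_le none (le_sup_of_le_left le_rfl)
  · refine MeasurableSpace.generateFrom_le ?_
    rintro A ⟨δ, ⟨h1, h2⟩, rfl⟩
    by_cases h3 : (D.supp δ).card ≤ s
    · refine (le_iSup (D.Os e s) none) _ ?_
      show MeasurableSet[D.Gs e s] (D.t δ)
      exact (le_sup_right : D.Ds _ ≤ D.Gs e s) _ (MeasurableSpace.measurableSet_generateFrom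
        ⟨δ, ⟨h1, h3⟩, rfl⟩)
    · have h4 : D.supp δ ∈ e.powersetCard (s + 1) :=
        Finset.mem_powersetCard.2 ⟨h1, by omega⟩
      refine (le_iSup (D.Os e s) (some ⟨_, h4⟩)) _ ?_
      exact MeasurableSpace.measurableSet_generateFrom ⟨δ, rfl, rfl⟩
  · rintro (_ | ⟨f, hf⟩)
    · exact Gs_mono (Finset.Subset.refl e) (Nat.le_succ s)
    · obtain ⟨h1, h2⟩ := Finset.mem_powersetCard.1 hf
      exact Ts_le_Gs h1 h2.le

section

variable {P : Measure X} [IsProbabilityMeasure P]

theorem meas_prod {m : MeasurableSpace X} (F : Finset (Finset J)) (c : Finset J → X → ℝ)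
    (h : ∀ f ∈ F, Measurable[m] (c f)) : Measurable[m] (fun x => ∏ f ∈ F, c f x) := by
  exact Finset.measurable_fun_prod F h

theorem prod_abs (F : Finset (Finset J)) (c : Finset J → X → ℝ) (x : X)
    (h : ∀ f ∈ F, |c f x| ≤ 1) : |∏ f ∈ F, c f x| ≤ 1 := by
  rw [Finset.abs_prod]
  exact Finset.prod_le_one (fun _ _ => abs_nonneg _) h

/-- (b0): the products of digits of size `s + 1` -/
theorem prod_int (hCI : D.CI P) (s : ℕ) (F : Finset (Finset J)) (C : Finset J → Set X)
    (hF : ∀ f ∈ F, f.card = s + 1) (hC : ∀ f ∈ F, MeasurableSet[D.Ts f] (C f)) :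
    ∀ (g : X → ℝ) (B : ℝ), Measurable[D.Gs Finset.univ s] g → (∀ x, |g x| ≤ B) →
    ∫ x, g x * ∏ f ∈ F, ind (C f) x ∂P = ∫ x, g x * ∏ f ∈ F, cE P (D.Gs f s) (C f) x ∂P := by
  induction F using Finset.induction_on with
  | empty => intro g B _ _; simp
  | insert f F hf ih =>
    intro g B hg hB
    have hcf := hF f (Finset.mem_insert_self _ _)
    have hCf := hC f (Finset.mem_insert_self _ _)
    have hF' : ∀ f ∈ F, f.card = s + 1 := fun f hf => hF f (Finset.mem_insert_of_mem hf)
    have hC' : ∀ f ∈ F, MeasurableSet[D.Ts f] (C f) := fun f hf => hC f (Finset.mem_insert_of_mem hf)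
    -- the rest is measurable for `Rs f`
    have h1 : Measurable[D.Rs f] (fun x => g x * ∏ f' ∈ F, ind (C f') x) := by
      refine Measurable.mul (hg.mono (Gs_le_Rs (by omega)) le_rfl) (meas_prod F _ fun f' hf' => ?_)
      refine ind_measurable (Ts_le_Rs ?_ ?_ _ (hC' f' hf'))
      · rintro rfl
        exact hf hf'
      · rw [hF' f' hf', hcf]
    have hb1 : ∀ x, |g x * ∏ f' ∈ F, ind (C f') x| ≤ B * 1 := fun x =>
      mul_abs (hB x) (prod_abs F _ x fun f' _ => ind_abs _ x)
    have h2 := cE_key (P := P) (Rs_le f) (Ts_le f _ hCf) h1 hb1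
    have h3 : ∫ x, g x * ∏ f' ∈ insert f F, ind (C f') x ∂P =
        ∫ x, (g x * ∏ f' ∈ F, ind (C f') x) * ind (C f) x ∂P := by
      congr 1
      funext x
      rw [Finset.prod_insert hf]
      ring
    rw [h3, h2]
    have h4 : ∫ x, (g x * ∏ f' ∈ F, ind (C f') x) * cE P (D.Rs f) (C f) x ∂P =
        ∫ x, (g x * cE P (D.Gs f s) (C f) x) * ∏ f' ∈ F, ind (C f') x ∂P := by
      refine integral_congr_ae ?_
      filter_upwards [hCI s f hcf (C f) hCf] with x hx
      rw [hx]
      ring
    rw [h4, ih hF' hC' (fun x => g x * cE P (D.Gs f s) (C f) x) (B * 1)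
      (hg.mul ((cE_meas _ _).mono (Gs_mono (Finset.subset_univ f) le_rfl) le_rfl))
      (fun x => mul_abs (hB x) (cE_abs _ _ x))]
    congr 1
    funext x
    rw [Finset.prod_insert hf]
    ring

/-- a bounded version of the conditional expectation -/
theorem exists_bdd_condExp {m : MeasurableSpace X} (hm : m ≤ m0) {w : X → ℝ}
    (hw : Integrable w P) {B : ℝ} (hB : ∀ x, |w x| ≤ B) :
    ∃ v : X → ℝ, Measurable[m] v ∧ (∀ x, |v x| ≤ B) ∧ v =ᵐ[P] P[w | m] := by
  have hB0 : 0 ≤ B ∨ IsEmpty X := by
    rcases isEmpty_or_nonempty X with h | ⟨⟨x⟩⟩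
    · exact Or.inr h
    · exact Or.inl ((abs_nonneg _).trans (hB x))
  rcases hB0 with hB0 | hX
  · refine ⟨fun x => max (-B) (min B ((P[w | m]) x)), ?_, fun x => ?_, ?_⟩
    · have h1 : Measurable[m] (P[w | m]) := stronglyMeasurable_condExp.measurable
      exact (@measurable_const _ _ _ m _).max ((@measurable_const _ _ _ m _).min h1)
    · rw [abs_le]
      exact ⟨le_max_left _ _, max_le (by linarith) (min_le_left _ _)⟩
    · have h1 : P[w | m] ≤ᵐ[P] P[(fun _ => B) | m] :=
        condExp_mono hw (integrable_const B) (Eventually.of_forall fun x => (abs_le.1 (hB x)).2)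
      have h2 : P[(fun _ => -B) | m] ≤ᵐ[P] P[w | m] :=
        condExp_mono (integrable_const _) hw (Eventually.of_forall fun x => (abs_le.1 (hB x)).1)
      rw [condExp_const hm] at h1 h2
      filter_upwards [h1, h2] with x hx1 hx2
      have hx1' : (P[w | m]) x ≤ B := hx1
      have hx2' : -B ≤ (P[w | m]) x := hx2
      rw [min_eq_right hx1', max_eq_right hx2']
  · exact ⟨fun _ => 0, @measurable_const _ _ _ m _, fun x => hX.elim x,
      Eventually.of_forall fun x => hX.elim x⟩

/-- (b): products of a set of `Gs e (s + 1)` with digits not inside `e` -/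
theorem b_int (hCI : D.CI P) (s : ℕ) (e : Finset J) {K : Set X}
    (hK : MeasurableSet[D.Gs e (s + 1)] K) (F : Finset (Finset J)) (C : Finset J → Set X)
    (hF : ∀ f ∈ F, f.card = s + 1) (hFe : ∀ f ∈ F, ¬ f ⊆ e)
    (hC : ∀ f ∈ F, MeasurableSet[D.Ts f] (C f)) (g : X → ℝ) (B : ℝ)
    (hg : Measurable[D.Gs Finset.univ s] g) (hB : ∀ x, |g x| ≤ B) :
    ∫ x, ind K x * (g x * ∏ f ∈ F, ind (C f) x) ∂P =
      ∫ x, cE P (D.Gs e s) K x * (g x * ∏ f ∈ F, cE P (D.Gs f s) (C f) x) ∂P := by
  have hme : D.Gs e s ≤ m0 := Gs_le e s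
  have hmu : D.Gs Finset.univ s ≤ m0 := Gs_le _ s
  have heu : D.Gs e s ≤ D.Gs Finset.univ s := Gs_mono (Finset.subset_univ e) le_rfl
  -- the two functions
  have hu_m : Measurable[m0] (fun x => g x * ∏ f ∈ F, ind (C f) x) :=
    (hg.mono hmu le_rfl).mul (meas_prod F _ fun f hf => ind_measurable (Ts_le f _ (hC f hf)))
  have hu_b : ∀ x, |g x * ∏ f ∈ F, ind (C f) x| ≤ B * 1 := fun x =>
    mul_abs (hB x) (prod_abs F _ x fun f _ => ind_abs _ x)
  have hw_m : Measurable[D.Gs Finset.univ s] (fun x => g x * ∏ f ∈ F, cE P (D.Gs f s) (C f) x) :=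
    hg.mul (meas_prod F _ fun f _ =>
      (cE_meas _ _).mono (Gs_mono (Finset.subset_univ f) le_rfl) le_rfl)
  have hw_b : ∀ x, |g x * ∏ f ∈ F, cE P (D.Gs f s) (C f) x| ≤ B * 1 := fun x =>
    mul_abs (hB x) (prod_abs F _ x fun f _ => cE_abs _ _ x)
  have hu_i : Integrable (fun x => g x * ∏ f ∈ F, ind (C f) x) P := int_bdd P le_rfl hu_m hu_b
  have hw_i : Integrable (fun x => g x * ∏ f ∈ F, cE P (D.Gs f s) (C f) x) P :=
    int_bdd P hmu hw_m hw_b
  obtain ⟨v, hv_m, hv_b, hv_e⟩ := exists_bdd_condExp (P := P) hme hw_i hw_b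
  have hv_i : Integrable v P := int_bdd P hme hv_m hv_b
  have hint : ∫ x, v x ∂P = ∫ x, g x * ∏ f ∈ F, cE P (D.Gs f s) (C f) x ∂P := by
    rw [integral_congr_ae hv_e, integral_condExp hme]
  have key : ∀ A, MeasurableSet[D.Gs e (s + 1)] A →
      ∫ x in A, (g x * ∏ f ∈ F, ind (C f) x) ∂P = ∫ x in A, v x ∂P := by
    have hgen : D.Gs e (s + 1) = MeasurableSpace.generateFrom
        (piiUnionInter (fun i => {A | MeasurableSet[D.Os e s i] A}) Set.univ) := by
      have h1 := generateFrom_piiUnionInter_measurableSet (D.Os e s) Set.univ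
      rw [Gs_succ]
      refine Eq.trans ?_ h1.symm
      simp
    have hpi : IsPiSystem (piiUnionInter (fun i => {A | MeasurableSet[D.Os e s i] A}) Set.univ) :=
      isPiSystem_piiUnionInter _ (fun i => @MeasurableSpace.isPiSystem_measurableSet _ (D.Os e s i)) _
    refine setInt_pi hgen (Gs_le e (s + 1)) hpi hu_i hv_i ?_ ?_
    · rw [hint]
      exact prod_int hCI s F C hF hC g B hg hB
    · rintro A ⟨T, -, A', hA', rfl⟩
      classical
      -- normal form of the set
      let A0 : Set X := if none ∈ T then A' none else Set.univ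
      let C' : Finset J → Set X := fun f => if h : f ∈ e.powersetCard (s + 1) then
        (if some ⟨f, h⟩ ∈ T then A' (some ⟨f, h⟩) else Set.univ) else Set.univ
      have hA0 : MeasurableSet[D.Gs e s] A0 := by
        show MeasurableSet[D.Gs e s] (if none ∈ T then A' none else Set.univ)
        split_ifs with h
        · exact hA' none h
        · exact @MeasurableSet.univ _ (D.Gs e s)
      have hC' : ∀ f ∈ e.powersetCard (s + 1), MeasurableSet[D.Ts f] (C' f) := by
        intro f hf
        show MeasurableSet[D.Ts f] (if h : f ∈ e.powersetCard (s + 1) then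
          (if some ⟨f, h⟩ ∈ T then A' (some ⟨f, h⟩) else Set.univ) else Set.univ)
        rw [dif_pos hf]
        split_ifs with h
        · exact hA' (some ⟨f, hf⟩) h
        · exact @MeasurableSet.univ _ (D.Ts f)
      have hind : ∀ x, ind (⋂ i ∈ T, A' i) x =
          ind A0 x * ∏ f ∈ e.powersetCard (s + 1), ind (C' f) x := by
        intro x
        by_cases hx : x ∈ ⋂ i ∈ T, A' i
        · rw [ind_apply_mem hx]
          have hx' : ∀ i ∈ T, x ∈ A' i := fun i hi => by
            have := Set.mem_iInter₂.1 hx i hi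
            exact this
          have h1 : x ∈ A0 := by
            show x ∈ (if none ∈ T then A' none else Set.univ)
            split_ifs with h
            · exact hx' _ h
            · trivial
          have h2 : ∀ f ∈ e.powersetCard (s + 1), x ∈ C' f := by
            intro f hf
            show x ∈ (if h : f ∈ e.powersetCard (s + 1) then
              (if some ⟨f, h⟩ ∈ T then A' (some ⟨f, h⟩) else Set.univ) else Set.univ)
            rw [dif_pos hf]
            split_ifs with h
            · exact hx' _ h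
            · trivial
          rw [ind_apply_mem h1, Finset.prod_eq_one fun f hf => ind_apply_mem (h2 f hf), one_mul]
        · rw [ind_apply_not_mem hx]
          have hx' : ∃ i ∈ T, x ∉ A' i := by
            by_contra hcon
            push Not at hcon
            exact hx (Set.mem_iInter₂.2 hcon)
          obtain ⟨i, hi, hxi⟩ := hx'
          rcases i with _ | ⟨f, hf⟩
          · have h1 : x ∉ A0 := by
              show x ∉ (if none ∈ T then A' none else Set.univ)
              rw [if_pos hi]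
              exact hxi
            rw [ind_apply_not_mem h1, zero_mul]
          · have h1 : x ∉ C' f := by
              show x ∉ (if h : f ∈ e.powersetCard (s + 1) then
                (if some ⟨f, h⟩ ∈ T then A' (some ⟨f, h⟩) else Set.univ) else Set.univ)
              rw [dif_pos hf, if_pos hi]
              exact hxi
            have h2 : ∏ f ∈ e.powersetCard (s + 1), ind (C' f) x = 0 :=
              Finset.prod_eq_zero hf (ind_apply_not_mem h1)
            rw [h2, mul_zero]
      have hAm : MeasurableSet[m0] (⋂ i ∈ T, A' i) := by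
        refine Finset.measurableSet_biInter T fun i hi => ?_
        have h1 : D.Os e s i ≤ D.Gs e (s + 1) := by
          rw [Gs_succ]
          exact le_iSup _ i
        exact Gs_le e (s + 1) _ (h1 _ (hA' i hi))
      rw [setInt_eq P hAm, setInt_eq P hAm]
      -- the left side
      have hcard : ∀ f ∈ e.powersetCard (s + 1), f.card = s + 1 := fun f hf =>
        (Finset.mem_powersetCard.1 hf).2
      have hsub : ∀ f ∈ e.powersetCard (s + 1), f ⊆ e := fun f hf =>
        (Finset.mem_powersetCard.1 hf).1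
      have hdisj : Disjoint (e.powersetCard (s + 1)) F := by
        rw [Finset.disjoint_left]
        intro f hf hfF
        exact hFe f hfF (hsub f hf)
      let C2 : Finset J → Set X := fun f => if f ∈ e.powersetCard (s + 1) then C' f else C f
      have hC2a : ∀ f ∈ e.powersetCard (s + 1), C2 f = C' f := fun f hf => if_pos hf
      have hC2b : ∀ f ∈ F, C2 f = C f := fun f hf =>
        if_neg fun h => Finset.disjoint_left.1 hdisj h hf
      have hleft := prod_int hCI s (e.powersetCard (s + 1) ∪ F) C2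
        (fun f hf => by
          rcases Finset.mem_union.1 hf with h | h
          · exact hcard f h
          · exact hF f h)
        (fun f hf => by
          rcases Finset.mem_union.1 hf with h | h
          · rw [hC2a f h]
            exact hC' f h
          · rw [hC2b f h]
            exact hC f h)
        (fun x => g x * ind A0 x) (B * 1) (hg.mul (ind_measurable (heu _ hA0)))
        (fun x => mul_abs (hB x) (ind_abs _ x))
      simp only [Finset.prod_union hdisj] at hleft
      have hp1 : ∀ x, ∏ f ∈ e.powersetCard (s + 1), ind (C2 f) x =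
          ∏ f ∈ e.powersetCard (s + 1), ind (C' f) x := fun x =>
        Finset.prod_congr rfl fun f hf => by rw [hC2a f hf]
      have hp2 : ∀ x, ∏ f ∈ F, ind (C2 f) x = ∏ f ∈ F, ind (C f) x := fun x =>
        Finset.prod_congr rfl fun f hf => by rw [hC2b f hf]
      have hp3 : ∀ x, ∏ f ∈ e.powersetCard (s + 1), cE P (D.Gs f s) (C2 f) x =
          ∏ f ∈ e.powersetCard (s + 1), cE P (D.Gs f s) (C' f) x := fun x =>
        Finset.prod_congr rfl fun f hf => by rw [hC2a f hf]
      have hp4 : ∀ x, ∏ f ∈ F, cE P (D.Gs f s) (C2 f) x = ∏ f ∈ F, cE P (D.Gs f s) (C f) x :=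
        fun x => Finset.prod_congr rfl fun f hf => by rw [hC2b f hf]
      simp only [hp1, hp2, hp3, hp4] at hleft
      -- the right side
      have hright1 := prod_int hCI s (e.powersetCard (s + 1)) C' hcard hC'
        (fun x => ind A0 x * v x) (1 * (B * 1)) ((ind_measurable (heu _ hA0)).mul (hv_m.mono heu le_rfl))
        (fun x => mul_abs (ind_abs _ x) (hv_b x))
      have hh_m : Measurable[D.Gs e s]
          (fun x => ind A0 x * ∏ f ∈ e.powersetCard (s + 1), cE P (D.Gs f s) (C' f) x) :=
        (ind_measurable hA0).mul (meas_prod _ _ fun f hf =>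
          (cE_meas _ _).mono (Gs_mono (hsub f hf) le_rfl) le_rfl)
      have hh_b : ∀ x, |ind A0 x * ∏ f ∈ e.powersetCard (s + 1), cE P (D.Gs f s) (C' f) x| ≤ 1 * 1 :=
        fun x => mul_abs (ind_abs _ x) (prod_abs _ _ x fun f _ => cE_abs _ _ x)
      have hright2 := condExp_key (P := P) hme hw_i hh_m hh_b
      have hright3 : ∫ x, (ind A0 x * ∏ f ∈ e.powersetCard (s + 1), cE P (D.Gs f s) (C' f) x) *
            (P[fun x => g x * ∏ f ∈ F, cE P (D.Gs f s) (C f) x | D.Gs e s]) x ∂P =
          ∫ x, (ind A0 x * v x) * ∏ f ∈ e.powersetCard (s + 1), cE P (D.Gs f s) (C' f) x ∂P := by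
        refine integral_congr_ae ?_
        filter_upwards [hv_e] with x hx
        rw [← hx]
        ring
      calc ∫ x, ind (⋂ i ∈ T, A' i) x * (g x * ∏ f ∈ F, ind (C f) x) ∂P
          = ∫ x, g x * ind A0 x * ((∏ f ∈ e.powersetCard (s + 1), ind (C' f) x) *
              ∏ f ∈ F, ind (C f) x) ∂P := by
            congr 1
            funext x
            rw [hind]
            ring
        _ = _ := hleft
        _ = ∫ x, (ind A0 x * ∏ f ∈ e.powersetCard (s + 1), cE P (D.Gs f s) (C' f) x) *
              (g x * ∏ f ∈ F, cE P (D.Gs f s) (C f) x) ∂P := by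
            congr 1
            funext x
            ring
        _ = _ := hright2
        _ = _ := hright3
        _ = ∫ x, (ind A0 x * v x) * ∏ f ∈ e.powersetCard (s + 1), ind (C' f) x ∂P := hright1.symm
        _ = ∫ x, ind (⋂ i ∈ T, A' i) x * v x ∂P := by
            congr 1
            funext x
            rw [hind]
            ring
  have h1 := key K hK
  rw [setInt_eq P (Gs_le e (s + 1) _ hK), setInt_eq P (Gs_le e (s + 1) _ hK)] at h1
  rw [h1, ← condExp_adj hme hw_i (Gs_le e (s + 1) _ hK)]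
  refine integral_congr_ae ?_
  filter_upwards [hv_e] with x hx
  rw [hx]

end

end Dig

end Pool.Agent.SPHK
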