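import Pool.Agent.SPH.Zero
import Pool.Agent.SPH.Lat
import Pool.Agent.SPH.RemGen
import Pool.Agent.SPH.FinDefs

/-! Project SPHK (MP_f7e9f1_co, Theorem K), section B.5: the end of the argument, abstract form.
Removal in a host, a copy representation and the absolute continuity `Q1 ≪ Q2` give the multi-set
removal property. -/

set_option autoImplicit false

open MeasureTheory Set Filter
open scoped ENNReal Topology

noncomputable section
namespace SPHK

open SPH

/-- conclusion of the removal theorem in the host -/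
def HostRem {J Om : Type} [MeasurableSpace Om] (lam : Measure (J → Om)) {ι : Type}
    (e : ι → Finset J) : Prop :=
  ∀ η : ℝ, 0 < η → ∃ ε : ℝ, 0 < ε ∧ ∀ F : ι → Set (J → Om), (∀ i, MeasurableSet (F i)) →
      (∀ i, DependsOn (fun y => y ∈ F i) ((e i : Finset J) : Set J)) →
      lam.real (⋂ i, F i) ≤ ε →
      ∃ B : ι → Set (J → Om), (∀ i, MeasurableSet (B i)) ∧ (∀ i, B i ⊆ F i) ∧
        (∀ i, DependsOn (fun y => y ∈ B i) ((e i : Finset J) : Set J)) ∧
        (∀ i, lam.real (B i) ≤ η) ∧ lam (⋂ i, (F i \ B i)) = 0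

/-- the absolute continuity `Q1 ≪ Q2`, in the form used at the end: a set which is small over the
point is small over the frame -/
def CopyAC {J Om : Type} [MeasurableSpace Om] (lam : Measure (J → Om)) {d : ℕ} (v : Sph d)
    (e : Finset J) {W : Type} [MeasurableSpace W] (P : Measure W) (L : OG d × W → (J → Om)) : Prop :=
  ∀ ε : ℝ≥0∞, ε ≠ 0 → ∃ τ : ℝ≥0∞, τ ≠ 0 ∧ ∀ B : Set (J → Om), MeasurableSet B →
    DependsOn (fun y => y ∈ B) ((e : Finset J) : Set J) →
    ∃ gam : Sph d → ℝ≥0∞, Measurable gam ∧ ∫⁻ x, gam x ∂(sig d) ≤ lam B ∧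
      ∀ᵐ T ∂(mu d), gam (T • v) < τ → P {w | L (T, w) ∈ B} < ε

theorem exists_common_pos {ι : Type} [Finite ι] (f : ι → ℝ≥0∞) (hf : ∀ i, f i ≠ 0) :
    ∃ τ : ℝ≥0∞, τ ≠ 0 ∧ τ ≠ ∞ ∧ ∀ i, τ ≤ f i := by
  classical
  have : Fintype ι := Fintype.ofFinite ι
  have h : ∀ s : Finset ι, ∃ τ : ℝ≥0∞, τ ≠ 0 ∧ τ ≠ ∞ ∧ ∀ i ∈ s, τ ≤ f i := by
    intro s
    induction s using Finset.induction_on with
    | empty => exact ⟨1, one_ne_zero, ENNReal.one_ne_top, fun i hi => absurd hi (Finset.notMem_empty i)⟩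
    | insert a s _ ih =>
      obtain ⟨τ, h0, ht, h1⟩ := ih
      refine ⟨min τ (f a), ?_, ?_, fun i hi => ?_⟩
      · exact (lt_min (pos_iff_ne_zero.2 h0) (pos_iff_ne_zero.2 (hf a))).ne'
      · exact ((min_le_left _ _).trans_lt (lt_top_iff_ne_top.2 ht)).ne
      · rcases Finset.mem_insert.1 hi with rfl | hi
        · exact min_le_right _ _
        · exact (min_le_left _ _).trans (h1 i hi)
  obtain ⟨τ, h0, ht, h1⟩ := h Finset.univ
  exact ⟨τ, h0, ht, fun i => h1 i (Finset.mem_univ i)⟩

theorem multiRemoval_of_copy {J Om : Type} [MeasurableSpace Om] (lam : Measure (J → Om))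
    [IsProbabilityMeasure lam] {d : ℕ} {ι : Type} [Fintype ι] (v : ι → Sph d)
    (e : ι → Finset J) (hrem : HostRem lam e) {W : Type} [MeasurableSpace W] (P : Measure W)
    [IsProbabilityMeasure P] (L : OG d × W → (J → Om)) (mL : Measurable L)
    (hL : ((mu d).prod P).map L = lam) (x : ι → (J → Om) → E d) (mx : ∀ i, Measurable (x i))
    (dx : ∀ i, DependsOn (x i) ((e i : Finset J) : Set J))
    (hx : ∀ i, ∀ᵐ p ∂((mu d).prod P), x i (L p) = act p.1 (v i))
    (hac : ∀ i, CopyAC lam (v i) (e i) P L) : MultiRemoval v := by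
  classical
  intro η hη
  -- a family of thresholds
  set ε0 : ℝ≥0∞ := ((Fintype.card ι : ℝ≥0∞) + 1)⁻¹ with hε0
  have hε00 : ε0 ≠ 0 := by
    rw [hε0]
    simp
  choose τ' hτ' hgam using fun i => hac i ε0 hε00
  obtain ⟨τ, hτ0, hτt, hτle⟩ := exists_common_pos τ' hτ'
  have hτpos : 0 < τ.toReal := ENNReal.toReal_pos hτ0 hτt
  obtain ⟨ε, hε, hmain⟩ := hrem (η / 2 * τ.toReal) (by positivity)
  refine ⟨ε, hε, fun S hS hsmall => ?_⟩
  set F : ι → Set (J → Om) := fun i => (x i) ⁻¹' (Subtype.val '' S i) with hF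
  have hval : ∀ i, MeasurableSet (Subtype.val '' S i : Set (E d)) := fun i =>
    (MeasurableEmbedding.subtype_coe Metric.isClosed_sphere.measurableSet).measurableSet_image.2 (hS i)
  have hFm : ∀ i, MeasurableSet (F i) := fun i => mx i (hval i)
  have hFd : ∀ i, DependsOn (fun y => y ∈ F i) ((e i : Finset J) : Set J) := by
    intro i y z hyz
    have h1 := dx i hyz
    simp only [hF, mem_preimage, h1]
  have hxall : ∀ᵐ p ∂((mu d).prod P), ∀ i, x i (L p) = act p.1 (v i) := ae_all_iff.2 hx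
  have hact : ∀ (T : OG d) (i : ι), (act T (v i) ∈ (Subtype.val '' S i : Set (E d))) ↔
      T • v i ∈ S i := by
    intro T i
    constructor
    · rintro ⟨z, hz, hz'⟩
      have : z = T • v i := Subtype.ext hz'
      rw [← this]
      exact hz
    · intro h
      exact ⟨T • v i, h, rfl⟩
  have hFlam : lam.real (⋂ i, F i) ≤ ε := by
    have h1 : lam (⋂ i, F i) = mu d {T | ∀ i, T • v i ∈ S i} := by
      rw [← hL, Measure.map_apply mL (MeasurableSet.iInter hFm)]
      have h2 : (L ⁻¹' ⋂ i, F i) =ᵐ[(mu d).prod P] ({T : OG d | ∀ i, T • v i ∈ S i} ×ˢ univ) := by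
        filter_upwards [hxall] with p hp
        refine propext ?_
        constructor
        · intro h
          refine ⟨fun i => ?_, mem_univ _⟩
          have h3 : L p ∈ F i := mem_iInter.1 h i
          rw [← hact, ← hp i]
          exact h3
        · intro h
          refine mem_iInter.2 fun i => ?_
          have h3 := h.1 i
          rw [← hact, ← hp i] at h3
          exact h3
      rw [measure_congr h2, Measure.prod_prod, measure_univ, mul_one]
    rw [Measure.real, h1]
    exact ENNReal.toReal_le_of_le_ofReal hε.le hsmall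
  obtain ⟨B, hBm, hBF, hBd, hBs, hBn⟩ := hmain F hFm hFd hFlam
  choose gam hgm hgi hga using fun i => hgam i (B i) (hBm i) (hBd i)
  set D1 : ι → Set (Sph d) := fun i => S i ∩ {z | τ ≤ gam i z} with hD1
  have hD1m : ∀ i, MeasurableSet (D1 i) := fun i =>
    (hS i).inter (measurableSet_le measurable_const (hgm i))
  have hD1s : ∀ i, sig d (D1 i) ≤ ENNReal.ofReal (η / 2) := by
    intro i
    calc sig d (D1 i) ≤ sig d {z | τ ≤ gam i z} := measure_mono inter_subset_right
      _ ≤ (∫⁻ z, gam i z ∂(sig d)) / τ := meas_ge_le_lintegral_div (hgm i).aemeasurable hτ0 hτt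
      _ ≤ ENNReal.ofReal (η / 2 * τ.toReal) / τ := by
          refine ENNReal.div_le_div_right ((hgi i).trans ?_) τ
          have := hBs i
          rw [Measure.real] at this
          exact (ENNReal.le_ofReal_iff_toReal_le (measure_ne_top _ _) (by positivity)).2 this
      _ = ENNReal.ofReal (η / 2) := by
          rw [ENNReal.ofReal_mul (by positivity), ENNReal.ofReal_toReal hτt,
            ENNReal.mul_div_cancel_right hτ0 hτt]
  -- the remaining copies form a null set
  have hBn' : ∀ᵐ p ∂((mu d).prod P), L p ∉ ⋂ i, (F i \ B i) := by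
    have h1 : lam (⋂ i, (F i \ B i)) = 0 := hBn
    rw [← hL, Measure.map_apply mL (MeasurableSet.iInter fun i => (hFm i).diff (hBm i))] at h1
    exact measure_eq_zero_iff_ae_notMem.1 h1
  have hnull : mu d {T | ∀ i, T • v i ∈ S i \ D1 i} = 0 := by
    rw [measure_eq_zero_iff_ae_notMem]
    have h1 := Measure.ae_ae_of_ae_prod hxall
    have h2 := Measure.ae_ae_of_ae_prod hBn'
    have h3 : ∀ᵐ T ∂(mu d), ∀ i, gam i (T • v i) < τ' i → P {w | L (T, w) ∈ B i} < ε0 :=
      ae_all_iff.2 hga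
    filter_upwards [h1, h2, h3] with T hT1 hT2 hT3 hT
    have h4 : ∀ i, P {w | L (T, w) ∈ B i} ≤ ε0 := by
      intro i
      refine (hT3 i ?_).le
      have h5 := (hT i).2
      have h6 : ¬ τ ≤ gam i (T • v i) := fun h => h5 ⟨(hT i).1, h⟩
      exact (not_le.1 h6).trans_le (hτle i)
    have h5 : ∀ᵐ w ∂P, w ∈ ⋃ i, {w | L (T, w) ∈ B i} := by
      filter_upwards [hT1, hT2] with w hw1 hw2
      by_contra hcon
      refine hw2 (mem_iInter.2 fun i => ⟨?_, fun h => hcon (mem_iUnion.2 ⟨i, h⟩)⟩)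
      show x i (L (T, w)) ∈ (Subtype.val '' S i : Set (E d))
      rw [hw1 i]
      exact (hact T i).2 (hT i).1
    have h6 : P (⋃ i, {w | L (T, w) ∈ B i}) = 1 := by
      rw [← measure_univ (μ := P)]
      refine measure_congr ?_
      filter_upwards [h5] with w hw
      exact propext ⟨fun _ => mem_univ w, fun _ => hw⟩
    have h7 : (1 : ℝ≥0∞) ≤ (Fintype.card ι : ℝ≥0∞) * ε0 := by
      calc (1 : ℝ≥0∞) = P (⋃ i, {w | L (T, w) ∈ B i}) := h6.symm
        _ ≤ ∑ i, P {w | L (T, w) ∈ B i} := by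
            simpa using measure_biUnion_finset_le (μ := P) Finset.univ
              (fun i => {w | L (T, w) ∈ B i})
        _ ≤ ∑ _i : ι, ε0 := Finset.sum_le_sum fun i _ => h4 i
        _ = (Fintype.card ι : ℝ≥0∞) * ε0 := by
            rw [Finset.sum_const, nsmul_eq_mul]
            rfl
    have hc0 : ((Fintype.card ι : ℝ≥0∞) + 1) ≠ 0 := by simp
    have hct : ((Fintype.card ι : ℝ≥0∞) + 1) ≠ ∞ := by simp
    have h8 : (Fintype.card ι : ℝ≥0∞) * ε0 < 1 := by
      rw [hε0, ← div_eq_mul_inv]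
      refine ENNReal.div_lt_of_lt_mul ?_
      rw [one_mul]
      exact ENNReal.lt_add_right (ENNReal.natCast_ne_top _) one_ne_zero
    exact absurd h7 (not_le.2 h8)
  -- zero measure removal
  have hM : Measure.IsOpenPosMeasure (mu d) := inferInstance
  obtain ⟨K, hK1, hK2, hK3, hK4⟩ := exists_compact (I := ι) (Y := OG d) (X := Sph d) (mu d) (sig d)
    (fun _ g z => g • z) (fun _ => continuous_smul) (fun _ z => one_smul _ z)
    (fun _ g => ⟨(continuous_const_smul g).measurable, map_smul_sig g⟩)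
    (fun i T => T • v i) (fun i => continuous_id.smul continuous_const)
    (fun i g y => mul_smul g y (v i)) (fun i => S i \ D1 i) (fun i => (hS i).diff (hD1m i)) hnull
    (ENNReal.ofReal (η / 2)) (by simpa using hη)
  refine ⟨fun i => S i \ K i, fun i => (hS i).diff (hK1 i).isClosed.measurableSet,
    fun i => sdiff_subset, fun i => ?_, fun T hT => ?_⟩
  · have hsub : S i \ K i ⊆ D1 i ∪ ((S i \ D1 i) \ K i) := by
      intro z hz
      by_cases h : z ∈ D1 i
      · exact Or.inl h
      · exact Or.inr ⟨⟨hz.1, h⟩, hz.2⟩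
    calc sig d (S i \ K i) ≤ sig d (D1 i) + sig d ((S i \ D1 i) \ K i) :=
          (measure_mono hsub).trans (measure_union_le _ _)
      _ ≤ ENNReal.ofReal (η / 2) + ENNReal.ofReal (η / 2) := add_le_add (hD1s i) (hK3 i)
      _ = ENNReal.ofReal η := by
          rw [← ENNReal.ofReal_add (by positivity) (by positivity), add_halves]
  · obtain ⟨i, hi⟩ := hK4 T
    have h1 := hT i
    have h2 : T • v i ∈ K i := by
      by_contra h
      exact h1.2 ⟨h1.1, h⟩
    exact hi h2

/-- From the multi-set removal property of the points to the removal property. -/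
theorem hasRemoval_of_multiRemoval {d : ℕ} (Q : Finset (Sph d)) (hQ : Q.Nonempty)
    (h : MultiRemoval (fun p : Q => (p : Sph d))) : HasRemoval Q := by
  classical
  refine hasRemoval_of_eps Q hQ fun η hη => ?_
  have hcard : (0 : ℝ) < Q.card := by exact_mod_cast Finset.card_pos.mpr hQ
  obtain ⟨ε, hε, hrem⟩ := h (η / Q.card) (div_pos hη hcard)
  refine ⟨ε, hε, fun A hA hdens => ?_⟩
  have hset : {T : OG d | ∀ p : Q, T • (p : Sph d) ∈ A} = {T : OG d | ∀ p ∈ Q, T • p ∈ A} := by
    ext T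
    simp
  have hmu : mu d {T | ∀ p : Q, T • (p : Sph d) ∈ A} ≤ ENNReal.ofReal ε := by
    rw [hset]
    rw [density_eq Q hA] at hdens
    rw [← ENNReal.ofReal_toReal (measure_ne_top (mu d) {T : OG d | ∀ p ∈ Q, T • p ∈ A})]
    exact ENNReal.ofReal_le_ofReal hdens
  obtain ⟨D, hDm, hDS, hDs, hDav⟩ := hrem (fun _ => A) (fun _ => hA) hmu
  refine ⟨⋃ p : Q, D p, iUnion_subset hDS, MeasurableSet.iUnion hDm, ?_, ?_⟩
  · calc sig d (⋃ p : Q, D p) ≤ ∑ p : Q, sig d (D p) := by
          simpa using measure_biUnion_finset_le (μ := sig d) Finset.univ D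
      _ ≤ ∑ _p : Q, ENNReal.ofReal (η / Q.card) := Finset.sum_le_sum fun p _ => hDs p
      _ = ENNReal.ofReal η := by
          rw [Finset.sum_const, nsmul_eq_mul, Finset.card_univ, Fintype.card_coe,
            ← ENNReal.ofReal_natCast, ← ENNReal.ofReal_mul (Nat.cast_nonneg _),
            mul_div_cancel₀ _ hcard.ne']
  · intro T hT
    refine hDav T fun p => ?_
    have h1 := hT p p.2
    exact ⟨h1.1, fun h => h1.2 (mem_iUnion.2 ⟨p, h⟩)⟩

end SPHK
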