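import Pool.Agent.SPHK.EndA

/-! Project SPHK (MP_f7e9f1_co, Theorem K), section B.5, version without copy representation:
removal in a host, the law of the points and the KEY inequality give multi-set removal. -/

set_option autoImplicit false

open MeasureTheory Set Filter
open scoped ENNReal Topology

noncomputable section
namespace SPHK

open SPH

/-- the KEY property of the point i -/
def KeyAt {J Om : Type} [MeasurableSpace Om] (lam : Measure (J → Om)) {d : ℕ} {ι : Type}
    (x : ι → (J → Om) → E d) (i : ι) (e : Finset J) : Prop :=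
  ∀ ρ : ℝ≥0∞, ρ ≠ 0 → ∃ τ : ℝ≥0∞, τ ≠ 0 ∧ ∀ B : Set (J → Om), MeasurableSet B →
    DependsOn (fun y => y ∈ B) ((e : Finset J) : Set J) →
    ∀ C0 : Set (E d), MeasurableSet C0 →
      (∀ C ⊆ C0, MeasurableSet C → lam (B ∩ x i ⁻¹' C) ≤ τ * lam (x i ⁻¹' C)) →
      ∀ G : Set (ι → E d), MeasurableSet G → (∀ z ∈ G, z i ∈ C0) →
        lam (B ∩ {y | (fun l => x l y) ∈ G}) ≤ ρ * lam {y | (fun l => x l y) ∈ G}

theorem multiRemoval_of_key {J Om : Type} [MeasurableSpace Om] (lam : Measure (J → Om))
    [IsProbabilityMeasure lam] {d : ℕ} {ι : Type} [Fintype ι] (v : ι → Sph d)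
    (e : ι → Finset J) (hrem : HostRem lam e) (x : ι → (J → Om) → E d)
    (mx : ∀ i, Measurable (x i)) (dx : ∀ i, DependsOn (x i) ((e i : Finset J) : Set J))
    (hlaw : lam.map (fun y l => x l y) = (mu d).map (fun T l => act T (v l : E d)))
    (hkey : ∀ i, KeyAt lam x i (e i)) : MultiRemoval v := by
  classical
  intro η hη
  set ε0 : ℝ≥0∞ := ((Fintype.card ι : ℝ≥0∞) + 1)⁻¹ with hε0
  have hε00 : ε0 ≠ 0 := by
    rw [hε0]
    simp
  choose τ' hτ' hgam using fun i => hkey i ε0 hε00
  obtain ⟨τ, hτ0, hτt, hτle⟩ := exists_common_pos τ' hτ'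
  have hτpos : 0 < τ.toReal := ENNReal.toReal_pos hτ0 hτt
  obtain ⟨ε, hε, hmain⟩ := hrem (η / 2 * τ.toReal) (by positivity)
  refine ⟨ε, hε, fun S hS hsmall => ?_⟩
  have mX : Measurable (fun (y : J → Om) (l : ι) => x l y) := measurable_pi_lambda _ mx
  have mA : Measurable (fun (T : OG d) (l : ι) => act T (v l : E d)) :=
    measurable_pi_lambda _ fun l => (continuous_act_right (v l : E d)).measurable
  -- transfer between the two laws
  have htr : ∀ G : Set (ι → E d), MeasurableSet G →
      lam {y | (fun l => x l y) ∈ G} = mu d {T | (fun l => act T (v l : E d)) ∈ G} := by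
    intro G hG
    have h1 : lam.map (fun y l => x l y) G = (mu d).map (fun T l => act T (v l : E d)) G := by
      rw [hlaw]
    rw [Measure.map_apply mX hG, Measure.map_apply mA hG] at h1
    exact h1
  have htr1 : ∀ (i : ι) (C : Set (E d)), MeasurableSet C →
      lam (x i ⁻¹' C) = mu d {T | act T (v i : E d) ∈ C} := by
    intro i C hC
    exact htr {z | z i ∈ C} (measurable_pi_apply i hC)
  set F : ι → Set (J → Om) := fun i => (x i) ⁻¹' (Subtype.val '' S i) with hF
  have hval : ∀ i, MeasurableSet (Subtype.val '' S i : Set (E d)) := fun i =>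
    (MeasurableEmbedding.subtype_coe Metric.isClosed_sphere.measurableSet).measurableSet_image.2 (hS i)
  have hFm : ∀ i, MeasurableSet (F i) := fun i => mx i (hval i)
  have hFd : ∀ i, DependsOn (fun y => y ∈ F i) ((e i : Finset J) : Set J) := by
    intro i y z hyz
    have h1 := dx i hyz
    simp only [hF, mem_preimage, h1]
  have hact : ∀ (T : OG d) (i : ι), (act T (v i) ∈ (Subtype.val '' S i : Set (E d))) ↔
      T • v i ∈ S i := by
    intro T i
    constructor
    · rintro ⟨z, hz, hz'⟩
      have : z = T • v i := Subtype.ext hz'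
      rw [← this]
      exact hz
    · intro h
      exact ⟨T • v i, h, rfl⟩
  have hFlam : lam.real (⋂ i, F i) ≤ ε := by
    have h0 : (⋂ i, F i) = {y | (fun l => x l y) ∈ {z : ι → E d | ∀ i, z i ∈ (Subtype.val '' S i : Set (E d))}} := by
      ext y
      simp only [mem_iInter, hF, mem_preimage, mem_ofPred_eq]
    have hm : MeasurableSet {z : ι → E d | ∀ i, z i ∈ (Subtype.val '' S i : Set (E d))} := by
      rw [Set.ofPred_forall]
      exact MeasurableSet.iInter fun i => measurable_pi_apply i (hval i)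
    have h1 : lam (⋂ i, F i) = mu d {T | ∀ i, T • v i ∈ S i} := by
      rw [h0, htr _ hm]
      refine congrArg _ ?_
      ext T
      simp only [mem_ofPred_eq, hact]
    rw [Measure.real, h1]
    exact ENNReal.toReal_le_of_le_ofReal hε.le hsmall
  obtain ⟨B, hBm, hBF, hBd, hBs, hBn⟩ := hmain F hFm hFd hFlam
  -- densities
  set ν : ι → Measure (E d) := fun i => (lam.restrict (B i)).map (x i) with hν
  set σ : ι → Measure (E d) := fun i => lam.map (x i) with hσ
  have hσp : ∀ i, IsProbabilityMeasure (σ i) := fun i =>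
    Measure.isProbabilityMeasure_map (mx i).aemeasurable
  have hνf : ∀ i, IsFiniteMeasure (ν i) := fun i => by
    rw [hν]
    infer_instance
  have hac : ∀ i, ν i ≪ σ i := fun i =>
    (Measure.absolutelyContinuous_of_le Measure.restrict_le_self).map (mx i)
  set γ : ι → E d → ℝ≥0∞ := fun i => (ν i).rnDeriv (σ i) with hγ
  have hγm : ∀ i, Measurable (γ i) := fun i => Measure.measurable_rnDeriv _ _
  have hγe : ∀ i, (σ i).withDensity (γ i) = ν i := fun i =>
    Measure.withDensity_rnDeriv_eq _ _ (hac i)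
  set D0 : ι → Set (E d) := fun i => {z | τ ≤ γ i z} with hD0
  have hD0m : ∀ i, MeasurableSet (D0 i) := fun i => measurableSet_le measurable_const (hγm i)
  have hνapp : ∀ (i : ι) (C : Set (E d)), MeasurableSet C → ν i C = lam (B i ∩ x i ⁻¹' C) := by
    intro i C hC
    rw [hν]
    simp only
    rw [Measure.map_apply (mx i) hC, Measure.restrict_apply (mx i hC), inter_comm]
  have hC0 : ∀ i, ∀ C ⊆ (D0 i)ᶜ, MeasurableSet C →
      lam (B i ∩ x i ⁻¹' C) ≤ τ' i * lam (x i ⁻¹' C) := by
    intro i C hC hCm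
    rw [← hνapp i C hCm, ← hγe i, withDensity_apply _ hCm]
    calc ∫⁻ z in C, γ i z ∂(σ i) ≤ ∫⁻ _ in C, τ' i ∂(σ i) := by
          refine setLIntegral_mono measurable_const fun z hz => ?_
          have h1 : ¬ τ ≤ γ i z := hC hz
          exact (not_le.1 h1).le.trans (hτle i)
      _ = τ' i * lam (x i ⁻¹' C) := by
          rw [setLIntegral_const, hσ]
          simp only
          rw [Measure.map_apply (mx i) hCm]
  set D1 : ι → Set (Sph d) := fun i => S i ∩ Subtype.val ⁻¹' D0 i with hD1
  have hD1m : ∀ i, MeasurableSet (D1 i) := fun i => (hS i).inter (measurable_subtype_coe (hD0m i))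
  have hD1s : ∀ i, sig d (D1 i) ≤ ENNReal.ofReal (η / 2) := by
    intro i
    have e1 : sig d (Subtype.val ⁻¹' D0 i) = σ i (D0 i) := by
      rw [hσ]
      simp only
      rw [Measure.map_apply (mx i) (hD0m i), htr1 i _ (hD0m i), ← map_orbit (v i),
        Measure.map_apply (measurable_orbit (v i)) (measurable_subtype_coe (hD0m i))]
      rfl
    calc sig d (D1 i) ≤ sig d (Subtype.val ⁻¹' D0 i) := measure_mono inter_subset_right
      _ = σ i (D0 i) := e1
      _ ≤ (∫⁻ z, γ i z ∂(σ i)) / τ := meas_ge_le_lintegral_div (hγm i).aemeasurable hτ0 hτt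
      _ ≤ ENNReal.ofReal (η / 2 * τ.toReal) / τ := by
          refine ENNReal.div_le_div_right ?_ τ
          have e2 : ∫⁻ z, γ i z ∂(σ i) = lam (B i) := by
            have h1 := withDensity_apply (μ := σ i) (γ i) MeasurableSet.univ
            rw [hγe i, Measure.restrict_univ, hνapp i _ MeasurableSet.univ, preimage_univ,
              inter_univ] at h1
            exact h1.symm
          rw [e2]
          have := hBs i
          rw [Measure.real] at this
          exact (ENNReal.le_ofReal_iff_toReal_le (measure_ne_top _ _) (by positivity)).2 this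
      _ = ENNReal.ofReal (η / 2) := by
          rw [ENNReal.ofReal_mul (by positivity), ENNReal.ofReal_toReal hτt,
            ENNReal.mul_div_cancel_right hτ0 hτt]
  -- the good tuples
  set G : Set (ι → E d) := {z | ∀ i, z i ∈ (Subtype.val '' S i : Set (E d)) \ D0 i} with hG
  have hGm : MeasurableSet G := by
    rw [hG, Set.ofPred_forall]
    exact MeasurableSet.iInter fun i => measurable_pi_apply i ((hval i).diff (hD0m i))
  set p : ℝ≥0∞ := lam {y | (fun l => x l y) ∈ G} with hp
  have hpt : p ≠ ∞ := measure_ne_top _ _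
  have hple : p ≤ (Fintype.card ι : ℝ≥0∞) * ε0 * p := by
    have h1 : {y | (fun l => x l y) ∈ G} ≤ᵐ[lam] ⋃ i, (B i ∩ {y | (fun l => x l y) ∈ G}) := by
      have h2 : ∀ᵐ y ∂lam, y ∉ ⋂ i, (F i \ B i) := measure_eq_zero_iff_ae_notMem.1 hBn
      filter_upwards [h2] with y hy hyG
      have hyG' : ∀ i, x i y ∈ (Subtype.val '' S i : Set (E d)) \ D0 i := hyG
      by_contra hcon
      refine hy (mem_iInter.2 fun i => ⟨(hyG' i).1, fun h => hcon (mem_iUnion.2 ⟨i, h, hyG⟩)⟩)
    calc p ≤ lam (⋃ i, (B i ∩ {y | (fun l => x l y) ∈ G})) := measure_mono_ae h1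
      _ ≤ ∑ i, lam (B i ∩ {y | (fun l => x l y) ∈ G}) := by
          simpa using measure_biUnion_finset_le (μ := lam) Finset.univ
            (fun i => B i ∩ {y | (fun l => x l y) ∈ G})
      _ ≤ ∑ _i : ι, ε0 * p := Finset.sum_le_sum fun i _ =>
          hgam i (B i) (hBm i) (hBd i) (D0 i)ᶜ (hD0m i).compl (hC0 i) G hGm
            (fun z hz => (hz i).2)
      _ = (Fintype.card ι : ℝ≥0∞) * ε0 * p := by
          rw [Finset.sum_const, nsmul_eq_mul, mul_assoc]
          rfl
  have hp0 : p = 0 := by
    by_contra hne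
    have hc0 : ((Fintype.card ι : ℝ≥0∞) + 1) ≠ 0 := by simp
    have hct : ((Fintype.card ι : ℝ≥0∞) + 1) ≠ ∞ := by simp
    have h8 : (Fintype.card ι : ℝ≥0∞) * ε0 < 1 := by
      rw [hε0, ← div_eq_mul_inv]
      refine ENNReal.div_lt_of_lt_mul ?_
      rw [one_mul]
      exact ENNReal.lt_add_right (ENNReal.natCast_ne_top _) one_ne_zero
    have h9 : (Fintype.card ι : ℝ≥0∞) * ε0 * p < 1 * p :=
      (ENNReal.mul_lt_mul_iff_left hne hpt).2 h8
    rw [one_mul] at h9
    exact absurd hple (not_le.2 h9)
  have hnull : mu d {T | ∀ i, T • v i ∈ S i \ D1 i} = 0 := by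
    have h1 : mu d {T | (fun l => act T (v l : E d)) ∈ G} = 0 := by
      rw [← htr G hGm]
      exact hp0
    refine measure_mono_null ?_ h1
    intro T hT i
    refine ⟨(hact T i).2 (hT i).1, fun h => (hT i).2 ⟨(hT i).1, h⟩⟩
  -- zero measure removal
  have hM : Measure.IsOpenPosMeasure (mu d) := inferInstance
  obtain ⟨K, hK1, hK2, hK3, hK4⟩ := exists_compact (I := ι) (Y := OG d) (X := Sph d) (mu d) (sig d)
    (fun _ g z => g • z) (fun _ => continuous_smul) (fun _ z => one_smul _ z)
    (fun _ g => ⟨(continuous_const_smul g).measurable, map_smul_sig g⟩)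
    (fun i T => T • v i) (fun i => continuous_id.smul continuous_const)
    (fun i g y => mul_smul g y (v i)) (fun i => S i \ D1 i) (fun i => (hS i).diff (hD1m i)) hnull
    (ENNReal.ofReal (η / 2)) (by simpa using hη)
  refine ⟨fun i => S i \ K i, fun i => (hS i).diff (hK1 i).isClosed.measurableSet,
    fun i => sdiff_subset, fun i => ?_, fun T hT => ?_⟩
  · have hsub : S i \ K i ⊆ D1 i ∪ ((S i \ D1 i) \ K i) := by
      intro z hz
      by_cases h : z ∈ D1 i
      · exact Or.inl h
      · exact Or.inr ⟨⟨hz.1, h⟩, hz.2⟩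
    calc sig d (S i \ K i) ≤ sig d (D1 i) + sig d ((S i \ D1 i) \ K i) :=
          (measure_mono hsub).trans (measure_union_le _ _)
      _ ≤ ENNReal.ofReal (η / 2) + ENNReal.ofReal (η / 2) := add_le_add (hD1s i) (hK3 i)
      _ = ENNReal.ofReal η := by
          rw [← ENNReal.ofReal_add (by positivity) (by positivity), add_halves]
  · obtain ⟨i, hi⟩ := hK4 T
    have h1 := hT i
    have h2 : T • v i ∈ K i := by
      by_contra h
      exact h1.2 ⟨h1.1, h⟩
    exact hi h2

end SPHK
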