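import Pool.Agent.SPHK.EndK
import Pool.Agent.SPHK.HDigit
import Pool.Agent.SPHK.SphHost

/-! Project SPHK (MP_f7e9f1_co, Theorem K), row FINK: assembly over the spherical host. -/

set_option autoImplicit false

open MeasureTheory Set Filter
open scoped ENNReal Topology

noncomputable section
namespace SPHK

open SPH

/-- multi-set removal does not depend on the names of the indices -/
theorem multiRemoval_equiv {d : ℕ} {ι κ : Type} (e : κ ≃ ι) (v : ι → Sph d)
    (h : MultiRemoval v) : MultiRemoval (fun k => v (e k)) := by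
  intro η hη
  obtain ⟨ε, hε, hmain⟩ := h η hη
  refine ⟨ε, hε, fun S hS hsmall => ?_⟩
  have hset : {T : OG d | ∀ i, T • v i ∈ S (e.symm i)} = {T : OG d | ∀ k, T • v (e k) ∈ S k} := by
    ext T
    simp only [mem_ofPred_eq]
    constructor
    · intro hT k
      have := hT (e k)
      rwa [Equiv.symm_apply_apply] at this
    · intro hT i
      have := hT (e.symm i)
      rwa [Equiv.apply_symm_apply] at this
  obtain ⟨D, hD1, hD2, hD3, hD4⟩ := hmain (fun i => S (e.symm i)) (fun i => hS _) (by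
    rw [hset]
    exact hsmall)
  refine ⟨fun k => D (e k), fun k => hD1 _, fun k => ?_, fun k => hD3 _, fun T hT => hD4 T fun i => ?_⟩
  · have := hD2 (e k)
    simpa only [Equiv.symm_apply_apply] using this
  · have := hT (e.symm i)
    simpa only [Equiv.apply_symm_apply] using this

/-- removal for all families of n + 1 points gives removal for all sets of n + 1 points -/
theorem hasRemoval_of_families {d n : ℕ} (h : ∀ v : Fin (n + 1) → Sph d, MultiRemoval v)
    (P : Finset (Sph d)) (hP : P.card = n + 1) : HasRemoval P := by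
  have hne : P.Nonempty := by
    rw [← Finset.card_pos, hP]
    exact Nat.succ_pos n
  refine hasRemoval_of_multiRemoval P hne ?_
  have e : P ≃ Fin (n + 1) := Fintype.equivOfCardEq (by rw [Fintype.card_coe, hP, Fintype.card_fin])
  have h1 := multiRemoval_equiv e (fun i => ((e.symm i : P) : Sph d)) (h _)
  simpa only [Equiv.symm_apply_apply] using h1

/-- What the spherical host provides: for every `N` there is a dimension `q` of the blocks such
that every spherical host with blocks of dimension `q` satisfies DEC up to `N`, has the right law of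
the points and the KEY inequality. -/
def SphOK (n : ℕ) : Prop :=
  ∀ N : ℕ, ∃ q : ℕ, ∀ (d : ℕ) (S : Pool.Agent.SPHK.SData n d q)
    (F0 : Pool.Agent.SPHK.VV n →ₗᵢ[ℝ] E d),
    ∃ (H : Host (Pool.Agent.SPHK.Cl n))
      (x : Fin (n + 1) → (Pool.Agent.SPHK.Cl n → H.Om) → E d), H.DECs N ∧ (∀ i, Measurable (x i)) ∧
      (∀ i, DependsOn (x i) ((S.edge i : Finset (Pool.Agent.SPHK.Cl n)) : Set _)) ∧
      H.lam.map (fun y l => x l y) = (mu d).map (fun T l => act T (F0 (S.v l))) ∧
      ∀ i, KeyAt H.lam x i (S.edge i)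

theorem edge_nonempty {n : ℕ} (F : Pool.Agent.SPHK.Fr n) (i : Fin (n + 1)) : (F.edge i).Nonempty :=
  ⟨(i, none), by
    rw [F.mem_edge, F.nv_own_none]
    exact one_ne_zero⟩

theorem theoremK_core (n : ℕ)
    (hRM : ∃ N : ℕ, ∀ H : Host (Pool.Agent.SPHK.Cl n), H.DECs N →
      ∀ f : Finset (Pool.Agent.SPHK.Cl n), f.Nonempty →
        H.RM (A := f) (Z := Empty) (fun a => a.1) Empty.elim)
    (hHR : ∀ H : Host (Pool.Agent.SPHK.Cl n),
      (∀ f : Finset (Pool.Agent.SPHK.Cl n), f.Nonempty →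
        H.RM (A := f) (Z := Empty) (fun a => a.1) Empty.elim) →
      ∀ e : Fin (n + 1) → Finset (Pool.Agent.SPHK.Cl n), (∀ i, (e i).Nonempty) → HostRem H.lam e)
    (hS : SphOK n) :
    ∃ d0 : ℕ, ∀ d, d0 ≤ d → ∀ v : Fin (n + 1) → Sph d, MultiRemoval v := by
  obtain ⟨N, hN⟩ := hRM
  obtain ⟨q, hq⟩ := hS N
  refine ⟨Fintype.card ((Pool.Agent.SPHK.Cl n × Pool.Agent.SPHK.Cl n) ⊕
    (Pool.Agent.SPHK.Cl n × Fin (q + 1))), fun d hd v => ?_⟩
  obtain ⟨S, F0, hF0⟩ := Pool.Agent.SPHK.exists_data (n := n) (d := d) (q := q) (hd.trans d.le_succ)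
    (fun i => (v i : E d)) (fun i => norm_coe_sph (v i))
  obtain ⟨H, x, hDEC, hxm, hxd, hlaw, hkey⟩ := hq d S F0
  simp only [hF0] at hlaw
  exact multiRemoval_of_key H.lam v (fun i => S.edge i)
    (hHR H (hN H hDEC) _ fun i => edge_nonempty S.toFr i) x hxm hxd hlaw hkey

/-- Theorem K for sets of points from Theorem K for families. -/
theorem hasRemoval_of_core (h : ∀ n : ℕ, ∃ d0 : ℕ, ∀ d, d0 ≤ d → ∀ v : Fin (n + 1) → Sph d,
    MultiRemoval v) (k : ℕ) :
    ∃ d0 : ℕ, ∀ d, d0 ≤ d → ∀ P : Finset (Sph d), P.Nonempty → P.card ≤ k → HasRemoval P := by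
  choose d1 hd1 using h
  refine ⟨(Finset.range k).sup d1, fun d hd P hP hc => ?_⟩
  have hpos : 0 < P.card := Finset.card_pos.mpr hP
  obtain ⟨n, hn⟩ : ∃ n, P.card = n + 1 := ⟨P.card - 1, by omega⟩
  have hnk : n ∈ Finset.range k := Finset.mem_range.mpr (by omega)
  exact hasRemoval_of_families (hd1 n d ((Finset.le_sup (f := d1) hnk).trans hd)) P hn

end SPHK
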