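import Pool.Agent.SPHK.RM

/-! Project SPHK, row REIX: transport of a host along a bijection of the classes, and RM for hosts
over an arbitrary finite type of classes. -/

set_option autoImplicit false

open MeasureTheory ProbabilityTheory Filter
open scoped ENNReal Topology

noncomputable section
namespace SPHK

/-- the host H with its classes renamed along φ : J' → J -/
def Host.reindex {J J' : Type} (H : Host J) (φ : J' → J) : Host J' where
  Th := H.Th
  W := H.W
  Om := H.Om
  m := H.m
  pr := fun j => H.pr (φ j)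
  ppr := fun j => H.ppr (φ j)
  Psi := fun j => H.Psi (φ j)
  mPsi := fun j => H.mPsi (φ j)

section

variable {J J' : Type} (H : Host J) (φ : J' → J)

theorem Host.reindex_law {V : Type} [Fintype V] (cl : V → J') :
    (H.reindex φ).law cl = H.law (fun v => φ (cl v)) := rfl

theorem Host.reindex_DEC {V B : Type} [Fintype V] [Fintype B] (cV : V → J') (j : J')
    (h : H.DEC (V := V) (B := B) (fun v => φ (cV v)) (φ j)) :
    (H.reindex φ).DEC (V := V) (B := B) cV j := by
  have e1 : (H.reindex φ).law (Sum.elim cV (Sum.elim (fun _ : B => j) (fun _ : B => j))) =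
      H.law (Sum.elim (fun v => φ (cV v)) (Sum.elim (fun _ : B => φ j) (fun _ : B => φ j))) := by
    rw [Host.reindex_law]
    congr 1
    funext v
    rcases v with v | v | v <;> rfl
  have e2 : (H.reindex φ).law (Sum.elim cV (fun _ : B => j)) =
      H.law (Sum.elim (fun v => φ (cV v)) (fun _ : B => φ j)) := by
    rw [Host.reindex_law]
    congr 1
    funext v
    rcases v with v | v <;> rfl
  intro δ hδ
  obtain ⟨δ', hδ', N, R0, R, R', h1, h2, h3, h4⟩ := h δ hδ
  refine ⟨δ', hδ', N, R0, R, R', h1, h2, h3, ?_⟩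
  intro Φ hΦ hΦ2
  rw [e1] at hΦ2
  obtain ⟨t, s, hs, h5⟩ := h4 Φ hΦ hΦ2
  refine ⟨t, s, hs, ?_⟩
  rw [e2]
  exact h5

theorem Host.reindex_DECs {N : ℕ} (h : H.DECs N) : (H.reindex φ).DECs N := by
  intro V B _ _ cV j hN
  exact H.reindex_DEC φ cV j (h V B (fun v => φ (cV v)) (φ j) hN)

theorem Host.DECs_mono {M N : ℕ} (hMN : M ≤ N) (h : H.DECs N) : H.DECs M := by
  intro V B _ _ cV j hN
  exact h V B cV j (hN.trans hMN)

theorem Host.reindex_RM {A Z : Type} [Fintype A] [DecidableEq A] [Fintype Z] (cA : A → J')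
    (cZ : Z → J') (h : (H.reindex φ).RM cA cZ) :
    H.RM (fun a => φ (cA a)) (fun z => φ (cZ z)) := by
  have e1 : (H.reindex φ).law (boxCl cA cZ) =
      H.law (boxCl (fun a => φ (cA a)) (fun z => φ (cZ z))) := by
    rw [Host.reindex_law]
    congr 1
    funext v
    rcases v with v | v <;> rfl
  have e2 : (H.reindex φ).law (Sum.elim cA cZ) =
      H.law (Sum.elim (fun a => φ (cA a)) (fun z => φ (cZ z))) := by
    rw [Host.reindex_law]
    congr 1
    funext v
    rcases v with v | v <;> rfl
  intro δ hδ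
  obtain ⟨δ', hδ', N, R, h1, h2⟩ := h δ hδ
  refine ⟨δ', hδ', N, R, h1, ?_⟩
  intro f hf hf2
  have hf3 : δ ≤ (H.reindex φ).box cA cZ f := by
    unfold Host.box at hf2 ⊢
    rw [e1]
    exact hf2
  obtain ⟨t, r, hr, hr2, h3⟩ := h2 f hf hf3
  refine ⟨t, r, hr, hr2, ?_⟩
  rw [e2] at h3
  exact h3

end

/-- RM for all vertex sets of one vertex per class, hosts over any finite type of classes
(from the statement `exists_RM` for hosts over `Fin K`) -/
theorem exists_RM_all_of
    (hRM : ∀ (K : ℕ) (A Z : Type) [Fintype A] [DecidableEq A] [Nonempty A] [Fintype Z]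
      (cA : A → Fin K) (cZ : Z → Fin K), ∃ N : ℕ, ∀ H : Host (Fin K), H.DECs N → H.RM cA cZ)
    (J : Type) [Fintype J] [DecidableEq J] :
    ∃ N : ℕ, ∀ H : Host J, H.DECs N → ∀ f : Finset J, f.Nonempty →
      H.RM (A := f) (Z := Empty) (fun a => a.1) Empty.elim := by
  classical
  have key : ∀ f : Finset J, ∃ N : ℕ, f.Nonempty → ∀ H : Host J, H.DECs N →
      H.RM (A := f) (Z := Empty) (fun a => a.1) Empty.elim := by
    intro f
    by_cases hf : f.Nonempty
    · have : Nonempty f := hf.to_subtype
      let e : J ≃ Fin (Fintype.card J) := Fintype.equivFin J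
      obtain ⟨N, hN⟩ := hRM (Fintype.card J) f Empty (fun a => e a.1) Empty.elim
      refine ⟨N, fun _ H hH => ?_⟩
      have h1 := H.reindex_RM e.symm (fun a : f => e a.1) Empty.elim
        (hN (H.reindex e.symm) (H.reindex_DECs e.symm hH))
      have e1 : (fun a : f => e.symm (e a.1)) = fun a : f => a.1 := by
        funext a; exact e.symm_apply_apply a.1
      have e2 : (fun z : Empty => e.symm (Empty.elim z)) = (Empty.elim : Empty → J) := by
        funext z; exact z.elim
      rw [e1, e2] at h1
      exact h1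
    · exact ⟨0, fun h => absurd h hf⟩
  choose N hN using key
  refine ⟨Finset.univ.sup N, fun H hH f hf => ?_⟩
  exact hN f hf H (H.DECs_mono (Finset.le_sup (f := N) (Finset.mem_univ f)) hH)

theorem exists_RM_all (J : Type) [Fintype J] [DecidableEq J] :
    ∃ N : ℕ, ∀ H : Host J, H.DECs N → ∀ f : Finset J, f.Nonempty →
      H.RM (A := f) (Z := Empty) (fun a => a.1) Empty.elim :=
  exists_RM_all_of (fun _ _ _ _ _ _ _ cA cZ => exists_RM cA cZ) J

end SPHK
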