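import Pool.Agent.SPHK.SphFin
import Pool.Agent.SPHK.AC1Fin
import Pool.Agent.SPHK.ART
import Pool.Agent.SPHK.Reix

/-! Project SPHK (MP_f7e9f1_co): THEOREM K. -/

set_option autoImplicit false

open MeasureTheory Set Filter
open scoped ENNReal Topology

noncomputable section
namespace SPHK

open SPH

/-- THEOREM K for families of points. -/
theorem theoremK_multi (n : ℕ) :
    ∃ d0 : ℕ, ∀ d, d0 ≤ d → ∀ v : Fin (n + 1) → Sph d, MultiRemoval v := by
  classical
  refine theoremK_core n (exists_RM_all (Pool.Agent.SPHK.Cl n)) ?_ ?_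
  · intro H hRM e he η hη
    exact host_removal H hRM e he η hη
  · refine Pool.Agent.SPHK.sphOK_of_ace1s n fun N => ⟨N + 1, fun d S => ?_⟩
    exact S.ace1s N le_rfl

/-- THEOREM K. -/
theorem theoremK (k : ℕ) :
    ∃ d0 : ℕ, ∀ d, d0 ≤ d → ∀ P : Finset (Sph d), P.Nonempty → P.card ≤ k → HasRemoval P :=
  hasRemoval_of_core theoremK_multi k

end SPHK
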