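import Pool.Agent.SPHK.Proj
import Pool.Agent.SPH.Cong
import Pool.Agent.SPH.Lat
import Pool.Agent.SPH.GenNull

/-! Project SPHK (MP_f7e9f1_co): the point with prescribed inner products, as an explicit
measurable equivariant function; the law of (T m, T x) depends only on inner products; null sets of
the sphere. -/

open MeasureTheory Set Metric Filter Module
open scoped ENNReal NNReal Topology Pointwise

noncomputable section
namespace Pool.Agent.SPHK

open SPH _root_.SPHK

section gramproj
set_option linter.unusedSectionVars false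
variable {Z : Type*} [Fintype Z] [DecidableEq Z] {d : ℕ}

/-- the combination of the vectors y with prescribed inner products b -/
def cmb (y : Z → E d) (b : Z → ℝ) : E d := ∑ z, ((Matrix.gram ℝ y)⁻¹.mulVec b) z • y z

/-- the component orthogonal to the vectors y -/
def prp (y : Z → E d) (x : E d) : E d := x - cmb y (fun z => inner ℝ (y z) x)

/-- the point of square norm m with inner products b with the vectors y in the direction x -/
def pt (y : Z → E d) (b : Z → ℝ) (m : ℝ) (x : E d) : E d :=
  cmb y b + Real.sqrt (m - ‖cmb y b‖ ^ 2) • dirn (prp y x)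

theorem gram_act (T : OG d) (y : Z → E d) :
    Matrix.gram ℝ (fun z => act T (y z)) = Matrix.gram ℝ y := by
  ext i j
  rw [Matrix.gram_apply, Matrix.gram_apply, inner_act_act]

theorem act_sum {I : Type*} (s : Finset I) (T : OG d) (f : I → E d) :
    act T (∑ i ∈ s, f i) = ∑ i ∈ s, act T (f i) := by
  classical
  induction s using Finset.induction_on with
  | empty => simp
  | insert a s ha ih => rw [Finset.sum_insert ha, Finset.sum_insert ha, act_add, ih]

theorem cmb_act (T : OG d) (y : Z → E d) (b : Z → ℝ) :
    cmb (fun z => act T (y z)) b = act T (cmb y b) := by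
  unfold cmb
  rw [gram_act, act_sum]
  exact Finset.sum_congr rfl fun z _ => (act_smul T _ _).symm

theorem prp_act (T : OG d) (y : Z → E d) (x : E d) :
    prp (fun z => act T (y z)) (act T x) = act T (prp y x) := by
  unfold prp
  simp only [inner_act_act]
  rw [cmb_act, act_sub]

theorem dirn_act (T : OG d) (x : E d) : dirn (act T x) = act T (dirn x) := by
  unfold dirn
  rw [norm_act, act_smul]

theorem pt_act (T : OG d) (y : Z → E d) (b : Z → ℝ) (m : ℝ) (x : E d) :
    pt (fun z => act T (y z)) b m (act T x) = act T (pt y b m x) := by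
  unfold pt
  rw [cmb_act, prp_act, dirn_act, norm_act, act_add, act_smul]

theorem measurable_cmb {X : Type*} [MeasurableSpace X] {y : X → Z → E d} (hy : Measurable y)
    {b : X → Z → ℝ} (hb : Measurable b) : Measurable fun p => cmb (y p) (b p) := by
  have hyz : ∀ z, Measurable fun p => y p z := fun z => (measurable_pi_apply z).comp hy
  have hbz : ∀ z, Measurable fun p => b p z := fun z => (measurable_pi_apply z).comp hb
  have hg : Measurable fun p => (fun i j => (Matrix.gram ℝ (y p)) i j : Z → Z → ℝ) :=
    measurable_pi_lambda _ fun i => measurable_pi_lambda _ fun j => (hyz i).inner (hyz j)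
  have hc1 : Continuous fun A : Z → Z → ℝ => (Matrix.of A).det :=
    (continuous_id (X := Matrix Z Z ℝ)).matrix_det
  have hc2 : ∀ i j, Continuous fun A : Z → Z → ℝ => (Matrix.of A).adjugate i j := fun i j =>
    ((continuous_id (X := Matrix Z Z ℝ)).matrix_adjugate).matrix_elem i j
  have hinv : ∀ i j, Measurable fun p => (Matrix.gram ℝ (y p))⁻¹ i j := by
    intro i j
    have e : (fun p => (Matrix.gram ℝ (y p))⁻¹ i j) = fun p =>
        ((Matrix.of (fun i j => (Matrix.gram ℝ (y p)) i j)).det)⁻¹ *
          (Matrix.of (fun i j => (Matrix.gram ℝ (y p)) i j)).adjugate i j := by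
      funext p
      rw [Matrix.inv_def, Matrix.smul_apply, Ring.inverse_eq_inv', smul_eq_mul]
      rfl
    rw [e]
    exact ((hc1.measurable.comp hg).inv).mul ((hc2 i j).measurable.comp hg)
  unfold cmb
  refine Finset.measurable_fun_sum _ fun z _ => ?_
  have h1 : Measurable fun p => ((Matrix.gram ℝ (y p))⁻¹.mulVec (b p)) z := by
    show Measurable fun p => ∑ j, (Matrix.gram ℝ (y p))⁻¹ z j * b p j
    exact Finset.measurable_fun_sum _ fun j _ => (hinv z j).mul (hbz j)
  exact h1.smul (hyz z)

theorem measurable_pt {X : Type*} [MeasurableSpace X] {y : X → Z → E d} (hy : Measurable y)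
    {b : X → Z → ℝ} (hb : Measurable b) {m : X → ℝ} (hm : Measurable m) {x : X → E d}
    (hx : Measurable x) : Measurable fun p => pt (y p) (b p) (m p) (x p) := by
  have hyz : ∀ z, Measurable fun p => y p z := fun z => (measurable_pi_apply z).comp hy
  unfold pt
  have h1 := measurable_cmb hy hb
  have h2 : Measurable fun p => prp (y p) (x p) := by
    unfold prp
    exact hx.sub (measurable_cmb hy (measurable_pi_lambda _ fun z => (hyz z).inner hx))
  exact h1.add (((hm.sub (h1.norm.pow_const 2)).sqrt).smul (measurable_dirn.comp h2))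

theorem det_gram_ne {y : Z → E d} (hy : LinearIndependent ℝ y) : (Matrix.gram ℝ y).det ≠ 0 :=
  (Matrix.posDef_gram_of_linearIndependent hy).det_pos.ne'

theorem inner_cmb {y : Z → E d} (hy : LinearIndependent ℝ y) (b : Z → ℝ) (z : Z) :
    inner ℝ (y z) (cmb y b) = b z := by
  unfold cmb
  rw [inner_sum]
  have h1 : ∀ z', inner ℝ (y z) (((Matrix.gram ℝ y)⁻¹.mulVec b) z' • y z') =
      (Matrix.gram ℝ y) z z' * ((Matrix.gram ℝ y)⁻¹.mulVec b) z' := by
    intro z'
    rw [real_inner_smul_right, Matrix.gram_apply, mul_comm]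
  simp only [h1]
  show ((Matrix.gram ℝ y).mulVec ((Matrix.gram ℝ y)⁻¹.mulVec b)) z = b z
  rw [Matrix.mulVec_mulVec, Matrix.mul_nonsing_inv _ (isUnit_iff_ne_zero.mpr (det_gram_ne hy)),
    Matrix.one_mulVec]

theorem cmb_mem_span (y : Z → E d) (b : Z → ℝ) : cmb y b ∈ Submodule.span ℝ (range y) :=
  Submodule.sum_mem _ fun z _ => Submodule.smul_mem _ _ (Submodule.subset_span ⟨z, rfl⟩)

theorem mem_orth_of {y : Z → E d} {x : E d} (h : ∀ z, inner ℝ (y z) x = 0) :
    x ∈ (Submodule.span ℝ (range y))ᗮ := by
  rw [Submodule.mem_orthogonal]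
  intro w hw
  induction hw using Submodule.span_induction with
  | mem w hw => obtain ⟨z, rfl⟩ := hw; exact h z
  | zero => simp
  | add a b _ _ ha hb => rw [inner_add_left, ha, hb, add_zero]
  | smul c a _ ha => rw [real_inner_smul_left, ha, mul_zero]

theorem prp_eq {y : Z → E d} (hy : LinearIndependent ℝ y) (x : E d) :
    prp y x = ((Submodule.span ℝ (range y))ᗮ.orthogonalProjectionOnto x : E d) := by
  set A0 := Submodule.span ℝ (range y)
  have h1 : prp y x ∈ A0ᗮ := by
    refine mem_orth_of fun z => ?_
    unfold prp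
    rw [inner_sub_right, inner_cmb hy, sub_self]
  have h2 : x - prp y x ∈ (A0ᗮ)ᗮ := by
    rw [Submodule.orthogonal_orthogonal]
    unfold prp
    rw [sub_sub_cancel]
    exact cmb_mem_span y _
  exact (Submodule.eq_starProjection_of_mem_orthogonal h1 h2).symm

end gramproj

/-- GRAM. The law of (T m, T x) depends only on the inner products. -/
theorem gram_ae {d : ℕ} {I : Type*} [Fintype I] (m : I → E d) (x x' : E d)
    (h1 : ∀ i, inner ℝ (m i) x = inner ℝ (m i) x') (h2 : ‖x‖ = ‖x'‖) (Q : (I → E d) → E d → Prop)
    (h : ∀ᵐ T ∂(mu d), Q (fun i => act T (m i)) (act T x)) :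
    ∀ᵐ T ∂(mu d), Q (fun i => act T (m i)) (act T x') := by
  obtain ⟨g, hg⟩ := exists_act_of_gram (ι := Option I) (fun o => o.elim x m) (fun o => o.elim x' m)
    (by
      intro i j
      cases i with
      | none =>
        cases j with
        | none =>
          show inner ℝ x x = inner ℝ x' x'
          rw [real_inner_self_eq_norm_sq, real_inner_self_eq_norm_sq, h2]
        | some j =>
          show inner ℝ x (m j) = inner ℝ x' (m j)
          rw [real_inner_comm, h1, real_inner_comm]
      | some i =>
        cases j with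
        | none => exact h1 i
        | some j => rfl)
  have hgx : act g x = x' := hg none
  have hgm : ∀ i, act g (m i) = m i := fun i => hg (some i)
  have h3 := (measurePreserving_mul_right (mu d) g).quasiMeasurePreserving.ae h
  filter_upwards [h3] with T hT
  simp only [act_mul, hgx, hgm] at hT
  exact hT

/-- null sets of the sphere -/
theorem sig_of_dirn {q : ℕ} {S : Set (E q)} (hS : MeasurableSet S)
    (h : ∀ᵐ x : E q, dirn x ∈ S) : ∀ᵐ u : Sph q ∂(sig q), (u : E q) ∈ S := by
  have hm : MeasurableSet {u : Sph q | ¬ (u : E q) ∈ S} :=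
    ((measurable_subtype_coe (p := fun x : E q => x ∈ Metric.sphere (0 : E q) 1)) hS).compl
  rw [ae_iff, sig, Measure.smul_apply, Measure.toSphere_apply' _ hm, smul_eq_mul]
  have h0 : (volume : Measure (E q)) (Ioo (0 : ℝ) 1 • ((fun x : Sph q => (x : E q)) ''
      {u : Sph q | ¬ (u : E q) ∈ S})) = 0 := by
    rw [ae_iff] at h
    refine measure_mono_null ?_ h
    rintro y ⟨r, hr, z, ⟨x, hx, rfl⟩, rfl⟩
    intro hy
    apply hx
    have e : dirn (r • (x : E q)) = (x : E q) := by
      unfold dirn
      rw [norm_smul, norm_coe_sph, mul_one, Real.norm_eq_abs, abs_of_pos hr.1, smul_smul,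
        inv_mul_cancel₀ hr.1.ne', one_smul]
    rw [← e]
    exact hy
  rw [h0]
  simp

end Pool.Agent.SPHK
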