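import Mathlib

/-! Project SPHK (MP_f7e9f1_co, Theorem K): abstract hosts. See SPHK_h44.md, part A. -/

set_option autoImplicit false

open MeasureTheory ProbabilityTheory Filter
open scoped ENNReal Topology

noncomputable section
namespace SPHK

/-- A host over the classes J: a hidden probability space, a private probability space for every
class, a compact metrizable label space, and the label maps. -/
structure Host (J : Type) where
  Th : Type
  W : Type
  Om : Type
  [mTh : MeasurableSpace Th]
  [mW : MeasurableSpace W]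
  [tOm : TopologicalSpace Om]
  [mOm : MeasurableSpace Om]
  [bOm : BorelSpace Om]
  [cOm : CompactSpace Om]
  [hOm : T2Space Om]
  [sOm : SecondCountableTopology Om]
  [nOm : Nonempty Om]
  m : Measure Th
  [pm : IsProbabilityMeasure m]
  pr : J → Measure W
  [ppr : ∀ j, IsProbabilityMeasure (pr j)]
  Psi : J → Th × W → Om
  mPsi : ∀ j, Measurable (Psi j)

attribute [instance] Host.mTh Host.mW Host.tOm Host.mOm Host.bOm Host.cOm Host.hOm Host.sOm
  Host.nOm Host.pm Host.ppr

variable {J : Type} (H : Host J)

instance : PolishSpace H.Om := by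
  let _ : MetricSpace H.Om := TopologicalSpace.metrizableSpaceMetric H.Om
  infer_instance

instance : StandardBorelSpace H.Om := inferInstance

/-- the hidden and private variables of a finite vertex set -/
def Host.src {V : Type} [Fintype V] (cl : V → J) : Measure (H.Th × (V → H.W)) :=
  H.m.prod (Measure.pi fun v => H.pr (cl v))

/-- the labels -/
def Host.lab {V : Type} (cl : V → J) (p : H.Th × (V → H.W)) : V → H.Om :=
  fun v => H.Psi (cl v) (p.1, p.2 v)

/-- the law of the labels of a finite vertex set with class map cl -/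
def Host.law {V : Type} [Fintype V] (cl : V → J) : Measure (V → H.Om) :=
  (H.src cl).map (H.lab cl)

theorem Host.measurable_lab {V : Type} [Fintype V] (cl : V → J) : Measurable (H.lab cl) := by
  refine measurable_pi_lambda _ fun v => ?_
  exact (H.mPsi (cl v)).comp (measurable_fst.prodMk ((measurable_pi_apply v).comp measurable_snd))

instance {V : Type} [Fintype V] (cl : V → J) : IsProbabilityMeasure (H.src cl) := by
  unfold Host.src; infer_instance

instance {V : Type} [Fintype V] (cl : V → J) : IsProbabilityMeasure (H.law cl) :=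
  Measure.isProbabilityMeasure_map (H.measurable_lab cl).aemeasurable

/-- bounded measurable functions with values in [-1,1] -/
def Bdd {X : Type} [MeasurableSpace X] (h : X → ℝ) : Prop := Measurable h ∧ ∀ x, |h x| ≤ 1

/-- class map of the box type -/
def boxCl {A Z : Type} (cA : A → J) (cZ : Z → J) : (A × Bool) ⊕ Z → J :=
  Sum.elim (fun p => cA p.1) cZ

/-- the vertex chosen by w in the box -/
def pick {A Z : Type} {O : Type} (w : A → Bool) (y : (A × Bool) ⊕ Z → O) : A ⊕ Z → O :=
  Sum.elim (fun a => y (Sum.inl (a, w a))) (fun z => y (Sum.inr z))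

/-- the box integral of h : functions of the labels of A + Z -/
def Host.box {A Z : Type} [Fintype A] [DecidableEq A] [Fintype Z] (cA : A → J) (cZ : Z → J)
    (h : (A ⊕ Z → H.Om) → ℝ) : ℝ :=
  ∫ y, ∏ w : A → Bool, h (pick w y) ∂(H.law (boxCl cA cZ))

/-- RM(A|Z) -/
def Host.RM {A Z : Type} [Fintype A] [DecidableEq A] [Fintype Z] (cA : A → J) (cZ : Z → J) : Prop :=
  ∀ δ : ℝ, 0 < δ → ∃ δ' : ℝ, 0 < δ' ∧ ∃ (N : ℕ) (R : Fin N → A → Set H.Om),
    (∀ t a, MeasurableSet (R t a)) ∧
    ∀ h : (A ⊕ Z → H.Om) → ℝ, Bdd h → δ ≤ H.box cA cZ h →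
      ∃ (t : Fin N) (r : A → (A ⊕ Z → H.Om) → ℝ), (∀ a, Bdd (r a)) ∧
        (∀ a, DependsOn (r a) {i | i ≠ Sum.inl a}) ∧
        δ' ≤ |∫ y, h y * (∏ a, (R t a).indicator (fun _ => (1 : ℝ)) (y (Sum.inl a))) *
          ∏ a, r a y ∂(H.law (Sum.elim cA cZ))|

/-- DEC(V0,B,j): decorrelation of two groups of vertices of the same class over the base V0 -/
def Host.DEC {V B : Type} [Fintype V] [Fintype B] (cV : V → J) (j : J) : Prop :=
  ∀ δ : ℝ, 0 < δ → ∃ δ' : ℝ, 0 < δ' ∧ ∃ (N : ℕ) (R0 : Fin N → Set (V → H.Om))
    (R R' : Fin N → B → Set H.Om), (∀ t, MeasurableSet (R0 t)) ∧ (∀ t v, MeasurableSet (R t v)) ∧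
    (∀ t v, MeasurableSet (R' t v)) ∧
    ∀ Φ : (V → H.Om) × (B → H.Om) × (B → H.Om) → ℝ, Bdd Φ →
      δ ≤ |∫ y, Φ (fun v => y (Sum.inl v), fun v => y (Sum.inr (Sum.inl v)),
        fun v => y (Sum.inr (Sum.inr v)))
        ∂(H.law (Sum.elim cV (Sum.elim (fun _ : B => j) (fun _ : B => j))))| →
      ∃ (t : Fin N) (s : (V → H.Om) → (B → H.Om)), Measurable s ∧
        δ' ≤ |∫ y, Φ (fun v => y (Sum.inl v), fun v => y (Sum.inr v), s (fun v => y (Sum.inl v))) *
          (R0 t).indicator (fun _ => (1 : ℝ)) (fun v => y (Sum.inl v)) *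
          (∏ v : B, (R t v).indicator (fun _ => (1 : ℝ)) (y (Sum.inr v))) *
          (∏ v : B, (R' t v).indicator (fun _ => (1 : ℝ)) (s (fun v => y (Sum.inl v)) v))
          ∂(H.law (Sum.elim cV (fun _ : B => j)))|

/-- DEC for all sizes up to N -/
def Host.DECs (N : ℕ) : Prop :=
  ∀ (V B : Type) [Fintype V] [Fintype B] (cV : V → J) (j : J),
    Fintype.card V + Fintype.card B ≤ N → H.DEC (V := V) (B := B) cV j

/-- the joint law of base labels and the labels of a group B of class j -/
def Host.pair {V : Type} [Fintype V] (cV : V → J) (B : Type) [Fintype B] (j : J) :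
    Measure ((V → H.Om) × (B → H.Om)) :=
  (H.law (Sum.elim cV (fun _ : B => j))).map (fun y => (fun v => y (Sum.inl v), fun b => y (Sum.inr b)))

instance {V : Type} [Fintype V] (cV : V → J) (B : Type) [Fintype B] (j : J) :
    IsProbabilityMeasure (H.pair cV B j) := by
  unfold Host.pair
  refine Measure.isProbabilityMeasure_map (Measurable.aemeasurable ?_)
  refine Measurable.prodMk ?_ ?_
  · exact measurable_pi_lambda _ fun v => measurable_pi_apply _
  · exact measurable_pi_lambda _ fun v => measurable_pi_apply _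

/-- the joint law of base labels and the labels of two groups B, B' of class j -/
def Host.triple {V : Type} [Fintype V] (cV : V → J) (B B' : Type) [Fintype B] [Fintype B'] (j : J) :
    Measure (((V → H.Om) × (B → H.Om)) × (B' → H.Om)) :=
  (H.law (Sum.elim cV (Sum.elim (fun _ : B => j) (fun _ : B' => j)))).map
    (fun y => ((fun v => y (Sum.inl v), fun b => y (Sum.inr (Sum.inl b))),
      fun b => y (Sum.inr (Sum.inr b))))

/-- AC(V;B,B';j): given the base labels the two groups are independent up to a density -/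
def Host.AC {V : Type} [Fintype V] (cV : V → J) (B B' : Type) [Fintype B] [Fintype B'] (j : J) : Prop :=
  H.triple cV B B' j ≪ (H.pair cV B j) ⊗ₘ (Kernel.prodMkRight (B → H.Om) (H.pair cV B' j).condKernel)

/-- AC for single vertices and all bases up to size N -/
def Host.AC1s (N : ℕ) : Prop :=
  ∀ (V : Type) [Fintype V] (cV : V → J) (j : J), Fintype.card V ≤ N → H.AC cV Unit Unit j

end SPHK
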