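import Pool.Agent.SPH.Cong

/-! Project SPHK (MP_f7e9f1_co): Householder maps, pointwise stabilisers and their Haar
probabilities. -/

set_option autoImplicit false

open MeasureTheory Set Filter SPH
open scoped ENNReal NNReal Topology

noncomputable section
namespace SPHK

/-! ### Measurable maps into the orthogonal group -/

theorem measurable_og {X : Type*} [MeasurableSpace X] {d : ℕ} {f : X → OG d}
    (h : ∀ i j, Measurable fun a => (f a : Matrix (Fin (d + 1)) (Fin (d + 1)) ℝ) i j) :
    Measurable f := by
  have e : (instMeasurableSpaceOG d) = MeasurableSpace.comap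
      (fun T : OG d => fun i j : Fin (d + 1) => (T : Matrix (Fin (d + 1)) (Fin (d + 1)) ℝ) i j)
      (borel (Fin (d + 1) → Fin (d + 1) → ℝ)) := by
    show borel (OG d) = _
    rw [← borel_comap]
    rfl
  rw [e, measurable_comap_iff, ← BorelSpace.measurable_eq]
  exact measurable_pi_lambda _ fun i => measurable_pi_lambda _ fun j => h i j

theorem measurable_og_act {X : Type*} [MeasurableSpace X] {d : ℕ} {f : X → OG d}
    (h : ∀ x : E d, Measurable fun a => act (f a) x) : Measurable f := by
  refine measurable_og fun i j => ?_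
  have e : (fun a => (f a : Matrix (Fin (d + 1)) (Fin (d + 1)) ℝ) i j) =
      fun a => act (f a) (EuclideanSpace.single j (1 : ℝ)) i := by
    funext a
    rw [act_apply, Finset.sum_eq_single j]
    · simp
    · intro k _ hk
      simp [hk]
    · intro hj
      exact absurd (Finset.mem_univ j) hj
  rw [e]
  have hc : Continuous fun y : E d => y i := (EuclideanSpace.proj (𝕜 := ℝ) i).continuous
  exact hc.measurable.comp (h _)

theorem measurable_act_pair (d : ℕ) : Measurable fun p : OG d × E d => act p.1 p.2 :=
  (continuous_act d).measurable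

theorem measurable_actf {X : Type*} [MeasurableSpace X] {d : ℕ} {f : X → OG d} {g : X → E d}
    (hf : Measurable f) (hg : Measurable g) : Measurable fun a => act (f a) (g a) := by
  have h : Measurable fun a => ((f a, g a) : OG d × E d) := hf.prodMk hg
  have h2 := (measurable_act_pair d).comp h
  simpa only [Function.comp_def] using h2

/-! ### Householder maps -/

/-- the linear map x - 2 <w,x>/|w|^2 w -/
def hhFun {d : ℕ} (w x : E d) : E d := x - (2 * inner ℝ w x / ‖w‖ ^ 2) • w

theorem norm_hhFun {d : ℕ} (w x : E d) : ‖hhFun w x‖ = ‖x‖ := by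
  have e1 : ‖hhFun w x‖ ^ 2 = ‖x‖ ^ 2 := by
    unfold hhFun
    rcases eq_or_ne w 0 with h | h
    · simp [h]
    · have hw : ‖w‖ ≠ 0 := norm_ne_zero_iff.mpr h
      rw [norm_sub_sq_real, inner_smul_right, norm_smul, mul_pow, Real.norm_eq_abs, sq_abs,
        real_inner_comm w x]
      field_simp
      ring
  exact (sq_eq_sq₀ (norm_nonneg _) (norm_nonneg _)).mp e1

/-- the Householder map as a linear isometry -/
def hhI {d : ℕ} (w : E d) : E d →ₗᵢ[ℝ] E d where
  toFun := hhFun w
  map_add' x y := by
    unfold hhFun
    rw [inner_add_right, mul_add, add_div, add_smul]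
    abel
  map_smul' c x := by
    unfold hhFun
    rw [inner_smul_right, RingHom.id_apply, smul_sub, smul_smul]
    congr 2
    ring
  norm_map' x := norm_hhFun w x

/-- the Householder map taking u to v -/
def hh {d : ℕ} (u v : E d) : OG d := (exists_act_eq (hhI (u - v))).choose

theorem act_hh {d : ℕ} (u v x : E d) :
    act (hh u v) x = x - (2 * inner ℝ (u - v) x / ‖u - v‖ ^ 2) • (u - v) :=
  (exists_act_eq (hhI (u - v))).choose_spec x

theorem hh_fix {d : ℕ} (u v x : E d) (h : inner ℝ (u - v) x = 0) : act (hh u v) x = x := by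
  rw [act_hh, h]
  simp

theorem hh_map {d : ℕ} (u v : E d) (h : ‖u‖ = ‖v‖) : act (hh u v) u = v := by
  rw [act_hh]
  rcases eq_or_ne (u - v) 0 with h0 | h0
  · rw [h0]
    simp [sub_eq_zero.mp h0]
  · have hw : ‖u - v‖ ≠ 0 := norm_ne_zero_iff.mpr h0
    have e1 : 2 * inner ℝ (u - v) u = ‖u - v‖ ^ 2 := by
      rw [norm_sub_sq_real, inner_sub_left, real_inner_self_eq_norm_sq, real_inner_comm u v, ← h]
      ring
    rw [e1, div_self (pow_ne_zero 2 hw), one_smul]
    abel

theorem measurable_hh {X : Type*} [MeasurableSpace X] {d : ℕ} {u v : X → E d} (hu : Measurable u)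
    (hv : Measurable v) : Measurable fun a => hh (u a) (v a) := by
  refine measurable_og_act fun x => ?_
  simp only [act_hh]
  have hw : Measurable fun a => u a - v a := hu.sub hv
  have hc : Measurable fun a => 2 * inner ℝ (u a - v a) x / ‖u a - v a‖ ^ 2 :=
    ((hw.inner measurable_const).const_mul 2).div (hw.norm.pow_const 2)
  exact measurable_const.sub (hc.smul hw)

/-! ### Haar probability of a compact group -/

/-- on a compact group the Haar probability is right invariant -/
theorem haar_right_invariant {G : Type*} [Group G] [TopologicalSpace G] [IsTopologicalGroup G]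
    [CompactSpace G] [MeasurableSpace G] [BorelSpace G] (μ : Measure G) [μ.IsHaarMeasure]
    [IsProbabilityMeasure μ] : μ.IsMulRightInvariant := by
  constructor
  intro g
  have hc : Continuous fun x : G => x * g := continuous_mul_const g
  have hm : Measurable fun x : G => x * g := hc.measurable
  have : IsProbabilityMeasure (Measure.map (· * g) μ) :=
    Measure.isProbabilityMeasure_map hm.aemeasurable
  have : (Measure.map (· * g) μ).IsMulLeftInvariant := by
    constructor
    intro h
    have hmh : Measurable fun x : G => h * x := (continuous_const_mul h).measurable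
    have e1 : Measure.map (fun x => h * x) (Measure.map (· * g) μ) =
        Measure.map (· * g) (Measure.map (fun x => h * x) μ) := by
      rw [Measure.map_map hmh hm, Measure.map_map hm hmh]
      congr 1
      funext x
      simp [mul_assoc]
    rw [e1, map_mul_left_eq_self]
  have h := Measure.isMulInvariant_eq_smul_of_compactSpace (Measure.map (· * g) μ) μ
  have h1 : (Measure.haarScalarFactor (Measure.map (· * g) μ) μ : ℝ≥0) = 1 := by
    have h2 := congrArg (fun ν : Measure G => ν univ) h
    simp only [measure_univ, Measure.smul_apply] at h2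
    rw [ENNReal.smul_def, smul_eq_mul, mul_one] at h2
    exact_mod_cast h2.symm
  rw [h1, one_smul] at h
  exact h

/-! ### Pointwise stabilisers -/

/-- the pointwise stabiliser of a set of vectors -/
def Stab {d : ℕ} (S : Set (E d)) : Subgroup (OG d) where
  carrier := {T | ∀ v ∈ S, act T v = v}
  one_mem' := by intro v _; simp
  mul_mem' := by
    intro a b ha hb v hv
    rw [act_mul, hb v hv, ha v hv]
  inv_mem' := by
    intro a ha v hv
    have h : act (a⁻¹ * a) v = v := by simp
    rw [act_mul, ha v hv] at h
    exact h

theorem mem_Stab {d : ℕ} {S : Set (E d)} {T : OG d} : T ∈ Stab S ↔ ∀ v ∈ S, act T v = v := Iff.rfl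

theorem Stab_anti {d : ℕ} {S S' : Set (E d)} (h : S ⊆ S') : Stab S' ≤ Stab S :=
  fun _ hT v hv => hT v (h hv)

theorem isClosed_Stab {d : ℕ} (S : Set (E d)) : IsClosed (Stab S : Set (OG d)) := by
  have h : (Stab S : Set (OG d)) = ⋂ v ∈ S, {T | act T v = v} := by
    ext T
    simp [mem_Stab]
  rw [h]
  refine isClosed_biInter fun v _ => isClosed_eq ?_ continuous_const
  exact (continuous_act d).comp (continuous_id.prodMk continuous_const)

instance instCompactSpaceStab {d : ℕ} (S : Set (E d)) : CompactSpace (Stab S) :=
  isCompact_iff_compactSpace.mp (isClosed_Stab S).isCompact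

instance instBorelSpaceStab {d : ℕ} (S : Set (E d)) : BorelSpace (Stab S) := Subtype.borelSpace _

/-- Haar probability of the pointwise stabiliser -/
def ks {d : ℕ} (S : Set (E d)) : Measure (Stab S) := Measure.haarMeasure ⊤

instance instIsHaarMeasure_ks {d : ℕ} (S : Set (E d)) : (ks S).IsHaarMeasure := by
  unfold ks; infer_instance

instance instIsProbabilityMeasure_ks {d : ℕ} (S : Set (E d)) : IsProbabilityMeasure (ks S) := by
  constructor
  have h := Measure.haarMeasure_self (G := Stab S) (K₀ := ⊤)
  simpa [ks] using h

instance instRightInvariant_ks {d : ℕ} (S : Set (E d)) : (ks S).IsMulRightInvariant :=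
  haar_right_invariant (ks S)

theorem measurable_coe_Stab {d : ℕ} (S : Set (E d)) : Measurable fun g : Stab S => (g : OG d) :=
  measurable_subtype_coe

/-- left invariance for integrals of functions on the whole group -/
theorem lintegral_ks_left {d : ℕ} (S : Set (E d)) (F : OG d → ℝ≥0∞) (r : OG d) (hr : r ∈ Stab S) :
    ∫⁻ g : Stab S, F (r * g) ∂(ks S) = ∫⁻ g : Stab S, F g ∂(ks S) := by
  have h := lintegral_mul_left_eq_self (μ := ks S) (fun g : Stab S => F (g : OG d)) ⟨r, hr⟩
  exact h

theorem lintegral_ks_right {d : ℕ} (S : Set (E d)) (F : OG d → ℝ≥0∞) (r : OG d) (hr : r ∈ Stab S) :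
    ∫⁻ g : Stab S, F (g * r) ∂(ks S) = ∫⁻ g : Stab S, F g ∂(ks S) := by
  have h := lintegral_mul_right_eq_self (μ := ks S) (fun g : Stab S => F (g : OG d)) ⟨r, hr⟩
  exact h

end SPHK
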