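import Pool.Agent.SPHK.Host

/-! Project SPHK, row LAW: the laws of a host are exactly consistent. -/

set_option autoImplicit false

open MeasureTheory ProbabilityTheory Filter
open scoped ENNReal Topology

noncomputable section
namespace SPHK

variable {J : Type} (H : Host J)

/-- The product measure seen through an injection of the index sets. -/
theorem map_pi_comp {V V' W : Type} [Fintype V] [Fintype V'] [MeasurableSpace W]
    (μ : V → Measure W) [∀ v, IsProbabilityMeasure (μ v)] (i : V' → V)
    (hi : Function.Injective i) :
    (Measure.pi μ).map (fun w v' => w (i v')) = Measure.pi (fun v' => μ (i v')) := by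
  classical
  have hm : Measurable (fun (w : V → W) (v' : V') => w (i v')) :=
    measurable_pi_lambda _ fun v' => measurable_pi_apply _
  refine (Measure.pi_eq fun s hs => ?_).symm
  rw [Measure.map_apply hm (MeasurableSet.univ_pi hs)]
  have h1 : (fun (w : V → W) v' => w (i v')) ⁻¹' (Set.univ.pi s)
      = Set.univ.pi (fun v => if h : ∃ v', i v' = v then s h.choose else Set.univ) := by
    ext w
    simp only [Set.mem_preimage, Set.mem_univ_pi]
    constructor
    · intro h v
      split_ifs with hv
      · have := h hv.choose
        rwa [hv.choose_spec] at this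
      · trivial
    · intro h v'
      have := h (i v')
      have hex : ∃ v'', i v'' = i v' := ⟨v', rfl⟩
      rw [dif_pos hex] at this
      have h2 : hex.choose = v' := hi hex.choose_spec
      rwa [h2] at this
  rw [h1, Measure.pi_pi]
  have h2 : ∀ v, μ v (if h : ∃ v', i v' = v then s h.choose else Set.univ)
      = if h : ∃ v', i v' = v then μ v (s h.choose) else 1 := by
    intro v
    split_ifs with hv
    · rfl
    · exact measure_univ
  simp only [h2]
  have h3 : ∏ v, (if h : ∃ v', i v' = v then μ v (s h.choose) else 1)
      = ∏ v ∈ Finset.univ.image i, (if h : ∃ v', i v' = v then μ v (s h.choose) else 1) := by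
    symm
    refine Finset.prod_subset (Finset.subset_univ _) fun v _ hv => ?_
    rw [dif_neg]
    rintro ⟨v', hv'⟩
    exact hv (Finset.mem_image.mpr ⟨v', Finset.mem_univ _, hv'⟩)
  rw [h3, Finset.prod_image (fun a _ b _ h => hi h)]
  refine Finset.prod_congr rfl fun v' _ => ?_
  have hex : ∃ v'', i v'' = i v' := ⟨v', rfl⟩
  rw [dif_pos hex]
  have h4 : hex.choose = v' := hi hex.choose_spec
  rw [h4]

theorem Host.law_map {V V' : Type} [Fintype V] [Fintype V'] (cl : V → J) (i : V' → V)
    (hi : Function.Injective i) :
    (H.law cl).map (fun y => fun v' => y (i v')) = H.law (fun v' => cl (i v')) := by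
  unfold Host.law
  have hm : Measurable (fun (y : V → H.Om) (v' : V') => y (i v')) :=
    measurable_pi_lambda _ fun v' => measurable_pi_apply _
  rw [Measure.map_map hm (H.measurable_lab cl)]
  have h1 : (fun (y : V → H.Om) (v' : V') => y (i v')) ∘ H.lab cl
      = (H.lab fun v' => cl (i v')) ∘ (Prod.map id (fun (w : V → H.W) v' => w (i v'))) := rfl
  have hm2 : Measurable (fun (w : V → H.W) (v' : V') => w (i v')) :=
    measurable_pi_lambda _ fun v' => measurable_pi_apply _
  rw [h1, ← Measure.map_map (H.measurable_lab _) (measurable_id.prodMap hm2)]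
  congr 1
  unfold Host.src
  rw [← Measure.map_prod_map _ _ measurable_id hm2, Measure.map_id,
    map_pi_comp (fun v => H.pr (cl v)) i hi]

theorem Host.integral_marg {V V' : Type} [Fintype V] [Fintype V'] (cl : V → J) (i : V' → V)
    (hi : Function.Injective i) (h : (V' → H.Om) → ℝ) (hh : Measurable h) :
    ∫ y, h (fun v' => y (i v')) ∂(H.law cl) = ∫ y, h y ∂(H.law (fun v' => cl (i v'))) := by
  rw [← H.law_map cl i hi, integral_map _ hh.aestronglyMeasurable]
  exact (measurable_pi_lambda _ fun v' => measurable_pi_apply _).aemeasurable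

/-- Laws of equal class maps. -/
theorem Host.law_congr {V : Type} [Fintype V] {cl cl' : V → J} (h : ∀ v, cl v = cl' v) :
    H.law cl = H.law cl' := by
  rw [show cl = cl' from funext h]

theorem measurable_pick {A Z O : Type} [MeasurableSpace O] (w : A → Bool) :
    Measurable (pick w : ((A × Bool) ⊕ Z → O) → (A ⊕ Z → O)) := by
  refine measurable_pi_lambda _ fun v => ?_
  rcases v with a | z
  · exact measurable_pi_apply _
  · exact measurable_pi_apply _

/-- a vertex group on which h does not depend can be dropped from the box -/
theorem Host.box_marg {A Z C : Type} [Fintype A] [DecidableEq A] [Fintype Z] [Fintype C]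
    (cA : A → J) (cZ : Z → J) (cC : C → J) (h : (A ⊕ Z → H.Om) → ℝ) (hh : Measurable h) :
    H.box cA (Sum.elim cZ cC)
      (fun y => h (Sum.elim (fun a => y (Sum.inl a)) (fun z => y (Sum.inr (Sum.inl z))))) =
      H.box cA cZ h := by
  unfold Host.box
  let i : (A × Bool) ⊕ Z → (A × Bool) ⊕ (Z ⊕ C) := Sum.map id Sum.inl
  have hi : Function.Injective i := Function.Injective.sumMap Function.injective_id Sum.inl_injective
  have h1 := H.integral_marg (boxCl cA (Sum.elim cZ cC)) i hi
    (fun y => ∏ w : A → Bool, h (pick w y))
    (Finset.measurable_prod _ fun w _ => hh.comp (measurable_pick w))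
  have h2 : H.law (fun v' => boxCl cA (Sum.elim cZ cC) (i v')) = H.law (boxCl cA cZ) := by
    refine H.law_congr fun v => ?_
    rcases v with a | z <;> rfl
  rw [h2] at h1
  rw [← h1]
  rfl

end SPHK
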