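import Pool.Agent.SPHK.StepK
import Pool.Agent.SPHK.ChainK

/-! Project SPHK (MP_f7e9f1_co), row STEPK: the hypothesis of chain_key for the spherical host. -/

set_option autoImplicit false

open MeasureTheory Set Filter SPH Module Pool.Agent.SPHK
open scoped ENNReal NNReal Topology

noncomputable section
namespace SPHK

/-- the index of the basis vector with number z -/
def ob {n : ℕ} (z : Fin (n + 1)) : Option (Fin n) :=
  Fin.cases none some z

theorem ob_zero {n : ℕ} : ob (0 : Fin (n + 1)) = none := rfl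

theorem ob_succ {n : ℕ} (z : Fin n) : ob z.succ = some z := rfl

theorem ob_injective {n : ℕ} : Function.Injective (ob (n := n)) := by
  intro z z' h
  induction z using Fin.cases with
  | zero =>
    induction z' using Fin.cases with
    | zero => rfl
    | succ z' => rw [ob_zero, ob_succ] at h; exact absurd h (by simp)
  | succ z =>
    induction z' using Fin.cases with
    | zero => rw [ob_zero, ob_succ] at h; exact absurd h (by simp)
    | succ z' => rw [ob_succ, ob_succ, Option.some_inj] at h; rw [h]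

theorem ob_surjective {n : ℕ} : Function.Surjective (ob (n := n)) := by
  intro c
  cases c with
  | none => exact ⟨0, rfl⟩
  | some c => exact ⟨c.succ, rfl⟩

variable {n d q : ℕ} (S : SData n d q)

variable {Ω1 : Type*} [MeasurableSpace Ω1] (ξ : Ω1 → (Cl n → ℝ)) (u : Ω1 → E q)

/-- the frame of the clique, in the order point, basis vectors -/
def Fp (i : Fin (n + 1)) (p : Cl n → Ω1) (z : Fin (n + 1)) : E d := Xp S ξ u p (S.Rv (i, ob z))

variable {ξ u}

theorem measurable_Fp (hξm : Measurable ξ) (hum : Measurable u) (i : Fin (n + 1)) :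
    Measurable fun p : Cl n → Ω1 => Fp S ξ u i p :=
  measurable_pi_lambda _ fun _ => measurable_Xp S hξm hum _

omit [MeasurableSpace Ω1] in
theorem orthonormal_Fp (i : Fin (n + 1)) (p : Cl n → Ω1) (h1 : ∀ j l, |ξ (p j) l| ≤ S.η)
    (h2 : ∀ j, ‖u (p j)‖ = 1) : Orthonormal ℝ (Fp S ξ u i p) := by
  classical
  rw [orthonormal_iff_ite]
  intro z z'
  have h3 := S.inner_X (fun j => ξ (p j)) h1 (fun j => u (p j)) h2 (S.Rv (i, ob z)) (S.Rv (i, ob z'))
  show inner ℝ (S.X _ _ _) (S.X _ _ _) = _
  rw [h3]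
  have h4 := (orthonormal_iff_ite.mp (S.R i).orthonormal) (ob z) (ob z')
  show inner ℝ (S.R i (ob z)) (S.R i (ob z')) = _
  rw [h4]
  by_cases h : z = z'
  · rw [if_pos h, if_pos (by rw [h])]
  · rw [if_neg h, if_neg (fun h' => h (ob_injective h'))]

/-- STEPK. The hypothesis of chain_key for the spherical host. -/
theorem stepK (hξm : Measurable ξ) (hum : Measurable u) (κ : Measure Ω1)
    [IsProbabilityMeasure κ]
    (hξ : ∀ N : Set (Cl n → ℝ), MeasurableSet N → volume N = 0 → ∀ᵐ w ∂κ, ξ w ∉ N)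
    (hξb : ∀ᵐ w ∂κ, ∀ l, |ξ w l| ≤ S.η) (hu : ∀ᵐ w ∂κ, ‖u w‖ = 1)
    (i : Fin (n + 1)) (b : ℕ) (hb : b < n) :
    lawF (Measure.pi fun _ : Cl n => κ) (Yp S ξ u i) (Fp S ξ u i) (b + 1) ≪
      stepLaw b (lawF (Measure.pi fun _ : Cl n => κ) (Yp S ξ u i) (Fp S ξ u i) b) := by
  classical
  set P : Measure (Cl n → Ω1) := Measure.pi fun _ : Cl n => κ with hP
  have hYm := measurable_Yp S hξm hum i
  have hFm := measurable_Fp S hξm hum i
  have hpr := isProb_lawF P hYm hFm b
  have hb1 : ∀ᵐ p ∂P, ∀ j l, |ξ (p j) l| ≤ S.η := by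
    rw [ae_all_iff]
    intro j
    exact (Measure.tendsto_eval_ae_ae (μ := fun _ : Cl n => κ) (i := j)).eventually hξb
  have hb2 : ∀ᵐ p ∂P, ∀ j, ‖u (p j)‖ = 1 := by
    rw [ae_all_iff]
    intro j
    exact (Measure.tendsto_eval_ae_ae (μ := fun _ : Cl n => κ) (i := j)).eventually hu
  refine Measure.AbsolutelyContinuous.mk fun N hN hN0 => ?_
  -- the base
  set C : Finset (Option (Fin n)) := (Finset.univ.filter fun z : Fin (n + 1) => (z : ℕ) ≤ b).image ob
    with hC
  have hCmem : ∀ z : Fin (n + 1), ob z ∈ C ↔ (z : ℕ) ≤ b := by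
    intro z
    rw [hC, Finset.mem_image]
    constructor
    · rintro ⟨z', hz', he⟩
      rw [ob_injective he] at hz'
      simpa using hz'
    · intro h
      exact ⟨z, by simpa using h, rfl⟩
  have hC0 : none ∈ C := by
    rw [← ob_zero, hCmem]
    simp
  have hbs : ob (⟨b + 1, by omega⟩ : Fin (n + 1)) = some ⟨b, hb⟩ := ob_succ (⟨b, hb⟩ : Fin n)
  have hCb : some (⟨b, hb⟩ : Fin n) ∉ C := by
    rw [← hbs, hCmem]
    simp
  -- assembling a frame
  set asm : (C → E d) × E d → (Fin (n + 1) → E d) := fun x z =>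
    if h : (z : ℕ) ≤ b then x.1 ⟨ob z, (hCmem z).mpr h⟩ else if (z : ℕ) = b + 1 then x.2 else 0
    with hasm
  have hasmm : Measurable asm := by
    refine measurable_pi_lambda _ fun z => ?_
    by_cases h : (z : ℕ) ≤ b
    · simp only [hasm, dif_pos h]
      exact (measurable_pi_apply _).comp measurable_fst
    · by_cases h' : (z : ℕ) = b + 1
      · simp only [hasm, dif_neg h, if_pos h']
        exact measurable_snd
      · simp only [hasm, dif_neg h, if_neg h']
        exact measurable_const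
  set N' : Set ((Cl n → E d × (Cl n → ℝ)) × (C → E d) × E d) := {x | (x.1, asm x.2) ∈ N} with hN'
  have hN'm : MeasurableSet N' := by
    have h1 : Measurable fun x : (Cl n → E d × (Cl n → ℝ)) × (C → E d) × E d => (x.1, asm x.2) :=
      measurable_fst.prodMk (hasmm.comp measurable_snd)
    exact h1 hN
  -- step 1: unfold the resampled law
  have h1 : ∀ᵐ q ∂((lawF P (Yp S ξ u i) (Fp S ξ u i) b).prod (sig d)),
      (q.1.1, stepF b q.1.2 (q.2 : E d)) ∉ N := by
    have h2 : ∀ᵐ q ∂(stepLaw b (lawF P (Yp S ξ u i) (Fp S ξ u i) b)), q ∉ N :=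
      measure_eq_zero_iff_ae_notMem.mp hN0
    unfold stepLaw at h2
    exact (ae_map_iff (measurable_stepMap b).aemeasurable hN.compl).mp h2
  have h3 : ∀ᵐ q ∂(lawF P (Yp S ξ u i) (Fp S ξ u i) b), ∀ᵐ ζ : Sph d ∂(sig d),
      (q.1, stepF b q.2 (ζ : E d)) ∉ N := Measure.ae_ae_of_ae_prod h1
  have h4 : ∀ᵐ q ∂((mu d).prod P), ∀ᵐ ζ : Sph d ∂(sig d),
      (Pool.Agent.SPHK.actY q.1 (Yp S ξ u i q.2),
        stepF b (truncF b (actF q.1 (Fp S ξ u i q.2))) (ζ : E d)) ∉ N := by
    unfold lawF at h3
    exact ae_of_ae_map (measurable_lawMap hYm hFm b).aemeasurable h3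
  -- step 2: rotate the random direction
  have h5 : ∀ᵐ q ∂((mu d).prod P), ∀ᵐ ζ : Sph d ∂(sig d),
      (Pool.Agent.SPHK.actY q.1 (Yp S ξ u i q.2),
        actF q.1 (stepF b (truncF b (Fp S ξ u i q.2)) (ζ : E d))) ∉ N := by
    filter_upwards [h4] with q hq
    have h6 := (measurePreserving_sig q.1).quasiMeasurePreserving.ae hq
    filter_upwards [h6] with ζ hζ
    rw [actF_stepF, actF_truncF]
    exact hζ
  -- step 3: exchange the quantifiers
  have hm3 : MeasurableSet {x : (OG d × (Cl n → Ω1)) × Sph d |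
      (Pool.Agent.SPHK.actY x.1.1 (Yp S ξ u i x.1.2),
        actF x.1.1 (stepF b (truncF b (Fp S ξ u i x.1.2)) (x.2 : E d))) ∈ N} := by
    have h7 : Measurable fun x : (OG d × (Cl n → Ω1)) × Sph d =>
        (Pool.Agent.SPHK.actY x.1.1 (Yp S ξ u i x.1.2),
          actF x.1.1 (stepF b (truncF b (Fp S ξ u i x.1.2)) (x.2 : E d))) := by
      refine Measurable.prodMk ?_ ?_
      · exact Pool.Agent.SPHK.measurable_actY (measurable_fst.comp measurable_fst)
          (hYm.comp (measurable_snd.comp measurable_fst))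
      · exact measurable_actF (measurable_fst.comp measurable_fst)
          (measurable_stepF b (measurable_truncF b (hFm.comp (measurable_snd.comp measurable_fst)))
            (measurable_subtype_coe.comp measurable_snd))
    exact h7 hN
  have h8 : ∀ᵐ p ∂P, ∀ᵐ T ∂(mu d), ∀ᵐ ζ : Sph d ∂(sig d),
      (Pool.Agent.SPHK.actY T (Yp S ξ u i p),
        actF T (stepF b (truncF b (Fp S ξ u i p)) (ζ : E d))) ∉ N := by
    have hm4 : MeasurableSet {x : OG d × (Cl n → Ω1) | ∀ᵐ ζ : Sph d ∂(sig d),
        (Pool.Agent.SPHK.actY x.1 (Yp S ξ u i x.2),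
          actF x.1 (stepF b (truncF b (Fp S ξ u i x.2)) (ζ : E d))) ∉ N} := by
      have h9 := measurable_measure_prodMk_left (ν := sig d) hm3
      have h10 := h9 (measurableSet_singleton 0)
      convert h10 using 1
      ext x
      rw [Set.mem_ofPred_eq, ae_iff]
      simp only [not_not]
      rfl
    exact (Measure.ae_ae_comm (p := fun T p => ∀ᵐ ζ : Sph d ∂(sig d),
      (Pool.Agent.SPHK.actY T (Yp S ξ u i p),
        actF T (stepF b (truncF b (Fp S ξ u i p)) (ζ : E d))) ∉ N) hm4).mp
      (Measure.ae_ae_of_ae_prod h5)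
  have h11 : ∀ᵐ p ∂P, ∀ᵐ ζ : Sph d ∂(sig d), ∀ᵐ T ∂(mu d),
      (Pool.Agent.SPHK.actY T (Yp S ξ u i p),
        actF T (stepF b (truncF b (Fp S ξ u i p)) (ζ : E d))) ∉ N := by
    filter_upwards [h8] with p hp
    refine (Measure.ae_ae_comm (p := fun T (ζ : Sph d) =>
      (Pool.Agent.SPHK.actY T (Yp S ξ u i p),
        actF T (stepF b (truncF b (Fp S ξ u i p)) (ζ : E d))) ∉ N) ?_).mp hp
    have h12 : Measurable fun x : OG d × Sph d => ((x.1, p), x.2) :=
      (measurable_fst.prodMk measurable_const).prodMk measurable_snd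
    exact (h12 hm3).compl
  -- step 4: the main part
  have hmain := stepK_main S hξm hum κ hξ hξb hu i ⟨b, hb⟩ C hC0 hCb N' hN'm (by
    filter_upwards [h11, hb1, hb2] with p hp hp1 hp2
    filter_upwards [hp] with ζ hζ
    have hort := orthonormal_Fp S i p hp1 hp2
    have hli : LinearIndependent ℝ (fun z' : {z : Fin (n + 1) // (z : ℕ) ≤ b} =>
        truncF b (Fp S ξ u i p) z') := by
      have e1 : (fun z' : {z : Fin (n + 1) // (z : ℕ) ≤ b} => truncF b (Fp S ξ u i p) z') =
          fun z' : {z : Fin (n + 1) // (z : ℕ) ≤ b} => Fp S ξ u i p z' := by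
        funext z'
        unfold truncF
        rw [if_pos z'.2]
      rw [e1]
      exact (hort.comp _ Subtype.val_injective).linearIndependent
    have hrange : range (fun z' : {z : Fin (n + 1) // (z : ℕ) ≤ b} =>
        truncF b (Fp S ξ u i p) z') = range (fun c : C => Xp S ξ u p
          (S.Rv (i, (c : Option (Fin n))))) := by
      ext y
      constructor
      · rintro ⟨z', rfl⟩
        refine ⟨⟨ob z', (hCmem z').mpr z'.2⟩, ?_⟩
        simp only [truncF, if_pos z'.2]
        rfl
      · rintro ⟨c, rfl⟩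
        obtain ⟨z, hz⟩ := ob_surjective (c : Option (Fin n))
        have hz' : (z : ℕ) ≤ b := (hCmem z).mp (hz ▸ c.2)
        refine ⟨⟨z, hz'⟩, ?_⟩
        simp only [truncF, if_pos hz']
        show Xp S ξ u p (S.Rv (i, ob z)) = _
        rw [hz]
    have hkey : ∀ T : OG d, asm ((fun c : C => act T (Xp S ξ u p (S.Rv (i, (c : Option (Fin n)))))),
        act T (dirn ((Submodule.span ℝ (range fun c : C => Xp S ξ u p
          (S.Rv (i, (c : Option (Fin n))))))ᗮ.starProjection (ζ : E d)))) =
        actF T (stepF b (truncF b (Fp S ξ u i p)) (ζ : E d)) := by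
      intro T
      funext z
      simp only [hasm, actF, stepF]
      by_cases h : (z : ℕ) ≤ b
      · have h' : (z : ℕ) ≠ b + 1 := by omega
        rw [dif_pos h, if_neg h', truncF, if_pos h]
        rfl
      · rw [dif_neg h]
        by_cases h' : (z : ℕ) = b + 1
        · rw [if_pos h', if_pos h', prp_eq hli, hrange]
          rfl
        · rw [if_neg h', if_neg h', truncF, if_neg h, act_zero]
    rw [measure_eq_zero_iff_ae_notMem]
    filter_upwards [hζ] with T hT
    intro hT'
    apply hT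
    have hT2 : (SPHK.actY T (Yp S ξ u i p), asm ((fun c : C => act T (Xp S ξ u p
        (S.Rv (i, (c : Option (Fin n)))))),
        act T (dirn ((Submodule.span ℝ (range fun c : C => Xp S ξ u p
          (S.Rv (i, (c : Option (Fin n))))))ᗮ.starProjection (ζ : E d))))) ∈ N := hT'
    rw [hkey T] at hT2
    exact hT2)
  -- step 5: conclusion
  unfold lawF
  rw [Measure.map_apply (measurable_lawMap hYm hFm (b + 1)) hN,
    Measure.prod_apply_symm ((measurable_lawMap hYm hFm (b + 1)) hN), lintegral_eq_zero_iff]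
  · filter_upwards [hmain] with p hp
    show mu d _ = 0
    rw [← hp]
    congr 1
    ext T
    have hkey2 : asm ((fun c : C => act T (Xp S ξ u p (S.Rv (i, (c : Option (Fin n)))))),
        act T (Xp S ξ u p (S.Rv (i, some ⟨b, hb⟩)))) = truncF (b + 1) (actF T (Fp S ξ u i p)) := by
      funext z
      simp only [hasm, actF, truncF]
      by_cases h : (z : ℕ) ≤ b
      · rw [dif_pos h, if_pos (by omega : (z : ℕ) ≤ b + 1)]
        rfl
      · rw [dif_neg h]
        by_cases h' : (z : ℕ) = b + 1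
        · rw [if_pos h', if_pos (by omega : (z : ℕ) ≤ b + 1)]
          have hz : z = (⟨b + 1, by omega⟩ : Fin (n + 1)) := Fin.ext h'
          rw [← hbs, hz]
          rfl
        · rw [if_neg h', if_neg (by omega : ¬ (z : ℕ) ≤ b + 1)]
    show (Pool.Agent.SPHK.actY T (Yp S ξ u i p), truncF (b + 1) (actF T (Fp S ξ u i p))) ∈ N ↔
      (SPHK.actY T (Yp S ξ u i p), asm ((fun c : C => act T (Xp S ξ u p
        (S.Rv (i, (c : Option (Fin n)))))), act T (Xp S ξ u p (S.Rv (i, some ⟨b, hb⟩))))) ∈ N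
    rw [hkey2]
    rfl
  · exact measurable_measure_prodMk_right ((measurable_lawMap hYm hFm (b + 1)) hN)

end SPHK
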