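import Pool.Agent.SPHK.SphObj
import Pool.Agent.SPHK.ChainK
import Pool.Agent.SPHK.EndK
import Pool.Agent.SPHK.StepKF

/-! Project SPHK (MP_f7e9f1_co), row LEXK: the KEY inequality for the spherical host, from the
resampling steps. -/

set_option autoImplicit false

open MeasureTheory Set Metric
open scoped ENNReal NNReal Topology

noncomputable section
namespace Pool.Agent.SPHK

open SPH

namespace SData

variable {n d q : ℕ} (S : SData n d q)

/-- the private law of one vertex in each class -/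
def privAll : Measure (Cl n → (Cl n → ℝ) × E q) := Measure.pi fun _ : Cl n => S.priv

instance : IsProbabilityMeasure S.privAll := by
  unfold privAll
  infer_instance

/-- the labels of the edge of `i` before rotation -/
def Y0 (i : Fin (n + 1)) (w : Cl n → (Cl n → ℝ) × E q) : Cl n → E d × (Cl n → ℝ) :=
  _root_.SPHK.Yp S (fun w => S.clip w.1) (fun w => _root_.SPHK.dirn w.2) i w

/-- the orthonormal basis of index `i`, starting with the point -/
def ob (i : Fin (n + 1)) (z : Fin (n + 1)) : VV n := S.Rv (i, finSuccEquiv n z)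

/-- the frame before rotation -/
def F00 (i : Fin (n + 1)) (w : Cl n → (Cl n → ℝ) × E q) : Fin (n + 1) → E d := fun z =>
  _root_.SPHK.Xp S (fun w => S.clip w.1) (fun w => _root_.SPHK.dirn w.2) w (S.ob i z)

theorem F00_eq (i : Fin (n + 1)) (w : Cl n → (Cl n → ℝ) × E q) (z : Fin (n + 1)) :
    S.F00 i w z = S.XX w (S.ob i z) := rfl

theorem ob_zero (i : Fin (n + 1)) : S.ob i 0 = S.v i := by
  unfold ob
  rw [finSuccEquiv_zero]
  rfl

theorem inner_ob (i : Fin (n + 1)) (z z' : Fin (n + 1)) :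
    inner ℝ (S.ob i z) (S.ob i z') = if z = z' then (1 : ℝ) else 0 := by
  classical
  have h := (orthonormal_iff_ite.mp (S.R i).orthonormal) (finSuccEquiv n z) (finSuccEquiv n z')
  have h2 : inner ℝ (S.ob i z) (S.ob i z') =
      inner ℝ ((S.R i) (finSuccEquiv n z)) ((S.R i) (finSuccEquiv n z')) := rfl
  rw [h2, h]
  by_cases hz : z = z'
  · rw [if_pos hz, if_pos (by rw [hz])]
  · rw [if_neg hz, if_neg (fun h' => hz ((finSuccEquiv n).injective h'))]

/-- expansion of a vector -/
theorem sum_ob (i : Fin (n + 1)) (x : VV n) : ∑ z, inner ℝ (S.ob i z) x • S.ob i z = x := by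
  have h := (S.R i).sum_repr' x
  rw [← h]
  exact Fintype.sum_equiv (finSuccEquiv n) _ _ fun z => by rw [h]; rfl

theorem XX_sum (w : Cl n → (Cl n → ℝ) × E q) {ι : Type*} (s : Finset ι) (c : ι → ℝ)
    (x : ι → VV n) : S.XX w (∑ z ∈ s, c z • x z) = ∑ z ∈ s, c z • S.XX w (x z) := by
  simp only [XX_eq, sum_inner, real_inner_smul_left, Finset.sum_smul, Finset.smul_sum, smul_smul]
  rw [Finset.sum_comm]

theorem measurable_Y0 (i : Fin (n + 1)) : Measurable (S.Y0 i) :=
  _root_.SPHK.measurable_Yp S (S.measurable_clip.comp measurable_fst)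
    (_root_.SPHK.measurable_dirn.comp measurable_snd) i

theorem measurable_F00 (i : Fin (n + 1)) : Measurable (S.F00 i) :=
  measurable_pi_lambda _ fun z =>
    _root_.SPHK.measurable_Xp S (S.measurable_clip.comp measurable_fst)
      (_root_.SPHK.measurable_dirn.comp measurable_snd) (S.ob i z)

theorem orthonormal_F00 (i : Fin (n + 1)) : ∀ᵐ w ∂S.privAll, Orthonormal ℝ (S.F00 i w) := by
  classical
  filter_upwards [S.ae_pi_priv (V := Cl n)] with w hw
  rw [orthonormal_iff_ite]
  intro z z'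
  rw [S.F00_eq, S.F00_eq, S.inner_XX (fun j => (hw j).2), S.inner_ob]

open scoped Classical in
/-- the vector, replaced by zero outside of the ball of radius two -/
def cut (x : E d) : E d := if ‖x‖ ≤ 2 then x else 0

theorem norm_cut (x : E d) : ‖cut x‖ ≤ 2 := by
  unfold cut
  split_ifs with h
  · exact h
  · rw [norm_zero]
    norm_num

theorem measurable_cut : Measurable (cut (d := d)) := by
  unfold cut
  exact Measurable.ite (measurableSet_le measurable_norm measurable_const) measurable_id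
    measurable_const

/-- the retraction onto the label space -/
def ret (y : Cl n → E d × (Cl n → ℝ)) (j : Cl n) : S.Lb :=
  (⟨cut (y j).1, mem_closedBall_zero_iff.mpr (norm_cut _)⟩,
    ⟨S.clip (y j).2, mem_closedBall_zero_iff.mpr (S.norm_clip _)⟩)

theorem measurable_ret : Measurable S.ret := by
  refine measurable_pi_lambda _ fun j => Measurable.prodMk ?_ ?_
  · have h1 : Measurable fun y : Cl n → E d × (Cl n → ℝ) => cut (y j).1 :=
      measurable_cut.comp (measurable_fst.comp (measurable_pi_apply j))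
    exact Measurable.subtype_mk h1
  · have h1 : Measurable fun y : Cl n → E d × (Cl n → ℝ) => S.clip (y j).2 :=
      S.measurable_clip.comp (measurable_snd.comp (measurable_pi_apply j))
    exact Measurable.subtype_mk h1

theorem ret_Y0 (i : Fin (n + 1)) (T : OG d) (w : Cl n → (Cl n → ℝ) × E q) (j : Cl n)
    (hj : j ∈ S.edge i) : S.ret (actY T (S.Y0 i w)) j = S.labs (fun j => j) T w j := by
  have h1 : (actY T (S.Y0 i w)) j = (act T (S.av j (w j)), S.clip (w j).1) := by
    have h2 : S.Y0 i w j = (S.av j (w j), S.clip (w j).1) := if_pos hj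
    unfold actY
    rw [h2]
  have h3 : ‖act T (S.av j (w j))‖ ≤ 2 := by
    rw [norm_act]
    exact S.norm_av_le j (w j)
  refine Prod.ext (Subtype.ext ?_) (Subtype.ext ?_)
  · show cut (actY T (S.Y0 i w) j).1 = act T (S.av j (w j))
    rw [h1]
    exact if_pos h3
  · show S.clip (actY T (S.Y0 i w) j).2 = S.clip (w j).1
    rw [h1]
    exact S.clip_eq (S.norm_clip _)

/-- ROW LEXK. -/
theorem keyAt_of_step (hnd : n ≤ d) (i : Fin (n + 1))
    (hstep : ∀ b < n, lawF S.privAll (S.Y0 i) (S.F00 i) (b + 1) ≪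
      stepLaw b (lawF S.privAll (S.Y0 i) (S.F00 i) b)) :
    _root_.SPHK.KeyAt S.host.lam S.pt i (S.edge i) := by
  intro ρ hρ
  obtain ⟨τ, hτ, hmain⟩ := chain_key hnd S.privAll (S.Y0 i) (S.measurable_Y0 i) (S.F00 i)
    (S.measurable_F00 i) (S.orthonormal_F00 i) hstep ρ hρ
  refine ⟨τ, hτ, fun B hB hBd C0 hC0 hle G hG hG0 => ?_⟩
  have hm := S.measurable_labs (V := Cl n) (fun j => j)
  have elam : S.host.lam = ((mu d).prod S.privAll).map (fun p => S.labs (fun j => j) p.1 p.2) := rfl
  have hpt : ∀ (T : OG d) (w : Cl n → (Cl n → ℝ) × E q) (l : Fin (n + 1)),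
      S.pt l (S.labs (fun j => j) T w) = act T (S.XX w (S.v l)) := fun T w l => S.fr_labs _ T w
  have hB2 : ∀ (T : OG d) (w : Cl n → (Cl n → ℝ) × E q),
      S.ret (actY T (S.Y0 i w)) ∈ B ↔ S.labs (fun j => j) T w ∈ B := by
    intro T w
    exact iff_of_eq (hBd fun j hj => S.ret_Y0 i T w j hj)
  have hF : ∀ (T : OG d) (w : Cl n → (Cl n → ℝ) × E q),
      actF T (S.F00 i w) 0 = act T (S.XX w (S.v i)) := by
    intro T w
    unfold actF
    rw [S.F00_eq, S.ob_zero]
  -- the map from frames to points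
  let Φ : (Fin (n + 1) → E d) → Fin (n + 1) → E d := fun ψ l =>
    ∑ z, inner ℝ (S.ob i z) (S.v l) • ψ z
  have hΦm : Measurable Φ := by
    refine measurable_pi_lambda _ fun l => ?_
    refine Finset.measurable_fun_sum _ fun z _ => ?_
    have h1 : Measurable fun ψ : Fin (n + 1) → E d => ψ z := measurable_pi_apply z
    exact h1.const_smul (inner ℝ (S.ob i z) (S.v l))
  have hΦ : ∀ (T : OG d) (w : Cl n → (Cl n → ℝ) × E q) (l : Fin (n + 1)),
      Φ (actF T (S.F00 i w)) l = act T (S.XX w (S.v l)) := by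
    intro T w l
    have h1 : S.XX w (S.v l) = ∑ z, inner ℝ (S.ob i z) (S.v l) • S.XX w (S.ob i z) := by
      rw [← S.XX_sum, S.sum_ob]
    rw [h1, act_sum]
    refine Finset.sum_congr rfl fun z _ => ?_
    rw [act_smul]
    rfl
  have hΦi : ∀ ψ, Φ ψ i = ψ 0 := by
    intro ψ
    show ∑ z, inner ℝ (S.ob i z) (S.v i) • ψ z = ψ 0
    rw [← S.ob_zero i]
    simp only [S.inner_ob, ite_smul, one_smul, zero_smul]
    rw [Finset.sum_ite_eq', if_pos (Finset.mem_univ 0)]
  have hmeasC : ∀ C : Set (E d), MeasurableSet C → MeasurableSet (S.pt i ⁻¹' C) := fun C hC =>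
    S.measurable_pt i hC
  have eC : ∀ C : Set (E d), MeasurableSet C → S.host.lam (S.pt i ⁻¹' C) =
      ((mu d).prod S.privAll) {q | actF q.1 (S.F00 i q.2) 0 ∈ C} := by
    intro C hC
    rw [elam, Measure.map_apply hm (hmeasC C hC)]
    congr 1
    ext q
    simp only [mem_preimage, mem_ofPred_eq, hF, hpt]
  have eBC : ∀ C : Set (E d), MeasurableSet C → S.host.lam (B ∩ S.pt i ⁻¹' C) =
      ((mu d).prod S.privAll) {q | actY q.1 (S.Y0 i q.2) ∈ S.ret ⁻¹' B ∧
        actF q.1 (S.F00 i q.2) 0 ∈ C} := by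
    intro C hC
    rw [elam, Measure.map_apply hm (hB.inter (hmeasC C hC))]
    congr 1
    ext q
    simp only [mem_preimage, mem_inter_iff, mem_ofPred_eq, hF, hpt, hB2]
  have hGm : MeasurableSet {y : Cl n → S.Lb | (fun l => S.pt l y) ∈ G} := by
    have h1 : Measurable fun (y : Cl n → S.Lb) (l : Fin (n + 1)) => S.pt l y :=
      measurable_pi_lambda _ fun l => S.measurable_pt l
    exact h1 hG
  have hfin := hmain (S.ret ⁻¹' B) C0 (S.measurable_ret hB) hC0 (by
    intro C hCC hC
    rw [← eBC C hC, ← eC C hC]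
    exact hle C hCC hC) (Φ ⁻¹' G) (hΦm hG) (by
    intro ψ hψ
    have h1 := hG0 _ hψ
    rw [hΦi] at h1
    exact h1)
  have e1 : S.host.lam (B ∩ {y | (fun l => S.pt l y) ∈ G}) = ((mu d).prod S.privAll)
      {q | actY q.1 (S.Y0 i q.2) ∈ S.ret ⁻¹' B ∧ actF q.1 (S.F00 i q.2) ∈ Φ ⁻¹' G} := by
    rw [elam, Measure.map_apply hm (hB.inter hGm)]
    congr 1
    ext q
    have h2 : Φ (actF q.1 (S.F00 i q.2)) = fun l => S.pt l (S.labs (fun j => j) q.1 q.2) := by
      funext l
      rw [hΦ, hpt]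
    simp only [mem_preimage, mem_inter_iff, mem_ofPred_eq, hB2, h2]
  have e2 : S.host.lam {y | (fun l => S.pt l y) ∈ G} = ((mu d).prod S.privAll)
      {q | actF q.1 (S.F00 i q.2) ∈ Φ ⁻¹' G} := by
    rw [elam, Measure.map_apply hm hGm]
    congr 1
    ext q
    have h2 : Φ (actF q.1 (S.F00 i q.2)) = fun l => S.pt l (S.labs (fun j => j) q.1 q.2) := by
      funext l
      rw [hΦ, hpt]
    simp only [mem_preimage, mem_ofPred_eq, h2]
  rw [e1, e2]
  exact hfin

/-- THE KEY INEQUALITY OF THE SPHERICAL HOST. -/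
theorem keyAt (hnd : n ≤ d) (i : Fin (n + 1)) :
    _root_.SPHK.KeyAt S.host.lam S.pt i (S.edge i) := by
  refine S.keyAt_of_step hnd i fun b hb => ?_
  have hF : S.F00 i = _root_.SPHK.Fp S (fun w => S.clip w.1) (fun w => _root_.SPHK.dirn w.2) i := by
    funext w z
    unfold F00 _root_.SPHK.Fp ob
    have h1 : finSuccEquiv n z = _root_.SPHK.ob z := by
      induction z using Fin.cases with
      | zero => rw [finSuccEquiv_zero]; rfl
      | succ z => rw [finSuccEquiv_succ]; rfl
    rw [h1]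
  have hY : S.Y0 i = _root_.SPHK.Yp S (fun w => S.clip w.1) (fun w => _root_.SPHK.dirn w.2) i := rfl
  have hae : ∀ᵐ w ∂S.priv, ‖w.1‖ ≤ S.η ∧ w.2 ≠ 0 := S.ae_priv
  have h0 := _root_.SPHK.stepK S (S.measurable_clip.comp measurable_fst)
    (_root_.SPHK.measurable_dirn.comp measurable_snd) S.priv (by
      intro N hN h0
      have h1 : ∀ᵐ w ∂S.priv, w.1 ∉ N := by
        have h2 : ∀ᵐ ξ ∂S.boxLaw, ξ ∉ N := measure_eq_zero_iff_ae_notMem.mp (S.boxLaw_ac h0)
        exact Measure.quasiMeasurePreserving_fst.ae h2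
      filter_upwards [h1, hae] with w hw hw2
      show S.clip w.1 ∉ N
      rw [S.clip_eq hw2.1]
      exact hw) (Filter.Eventually.of_forall fun w l => S.abs_clip w.1 l) (by
      filter_upwards [hae] with w hw
      exact _root_.SPHK.norm_dirn hw.2) i b hb
  rw [hY, hF]
  exact h0

end SData

end Pool.Agent.SPHK
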