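import Pool.Agent.SPHK.HDigit

/-! Project SPHK, row LIM: the limit measure and transfer. -/

set_option autoImplicit false

open MeasureTheory ProbabilityTheory Filter
open scoped ENNReal Topology

noncomputable section
namespace SPHK

namespace LIM

/-- sets that are measurable for the first coordinate and finitely many digits -/
theorem exists_section {Y D : Type} [MeasurableSpace Y] {J Ω : Type} [Fintype J] [DecidableEq J]
    [MeasurableSpace Ω] (u : Y → J → Ω) (hu : Measurable u) (f : D → Finset J) (e : Finset J) (s : ℕ)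
    (E : Finset D) (M : Set (Y × (D → Bool)))
    (hM : MeasurableSet[GF (fun x : Y × (D → Bool) => u x.1) f (fun δ x => x.2 δ) e s E] M) :
    ∃ M' : Set (Y × (E → Bool)), MeasurableSet M' ∧
      M = (fun x : Y × (D → Bool) => (x.1, fun δ : E => x.2 δ)) ⁻¹' M' := by
  have key : GF (fun x : Y × (D → Bool) => u x.1) f (fun δ x => x.2 δ) e s E ≤
      MeasurableSpace.comap (fun x : Y × (D → Bool) => (x.1, fun δ : E => x.2 δ)) inferInstance := by
    refine sup_le (iSup₂_le fun v _ => ?_) (iSup₂_le fun δ hδ => ?_)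
    · rintro S ⟨T, hT, rfl⟩
      exact ⟨(fun p : Y × (E → Bool) => u p.1 v) ⁻¹' T,
        (((measurable_pi_apply v).comp hu).comp measurable_fst) hT, rfl⟩
    · rintro S ⟨T, hT, rfl⟩
      exact ⟨(fun p : Y × (E → Bool) => p.2 ⟨δ, hδ.1⟩) ⁻¹' T,
        ((measurable_pi_apply _).comp measurable_snd) hT, rfl⟩
  obtain ⟨M', hM', h⟩ := key _ hM
  exact ⟨M', hM', h.symm⟩

open scoped Classical in
theorem tendsto_of_marginal {Y D : Type} [TopologicalSpace Y] [MeasurableSpace Y] [BorelSpace Y]
    [CompactSpace Y] [T2Space Y] [SecondCountableTopology Y] [Countable D]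
    (ν : Measure Y) [IsProbabilityMeasure ν] (Q : ℕ → ProbabilityMeasure (Y × (D → Bool)))
    (P : ProbabilityMeasure (Y × (D → Bool))) (L : Filter ℕ) (hQ : Tendsto Q L (𝓝 P))
    (hQ1 : ∀ n, ((Q n : Measure (Y × (D → Bool)))).map Prod.fst = ν)
    (hP1 : ((P : Measure (Y × (D → Bool)))).map Prod.fst = ν) (E : Finset D)
    (M' : Set (Y × (E → Bool))) (hM' : MeasurableSet M') :
    Tendsto (fun n => (Q n : Measure (Y × (D → Bool))).real
        ((fun x : Y × (D → Bool) => (x.1, fun δ : E => x.2 δ)) ⁻¹' M')) L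
      (𝓝 ((P : Measure (Y × (D → Bool))).real
        ((fun x : Y × (D → Bool) => (x.1, fun δ : E => x.2 δ)) ⁻¹' M'))) := by
  let _ := TopologicalSpace.metrizableSpaceMetric Y
  set π : Y × (D → Bool) → Y × (E → Bool) := fun x => (x.1, fun δ : E => x.2 δ) with hπ
  have hπc : Continuous π := by
    refine continuous_fst.prodMk (continuous_pi fun δ => ?_)
    exact (continuous_apply (δ : D)).comp continuous_snd
  -- approximation of the sections
  have hB : ∀ θ : E → Bool, MeasurableSet {y : Y | (y, θ) ∈ M'} := fun θ =>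
    (measurable_id.prodMk measurable_const) hM'
  rw [Metric.tendsto_nhds]
  intro ε hε
  set c : ℝ := ((Fintype.card (E → Bool) : ℕ) : ℝ) with hc
  have hc0 : 0 ≤ c := by positivity
  have happ : ∀ θ : E → Bool, ∃ g : BoundedContinuousFunction Y ℝ,
      ∫ y, ‖({y : Y | (y, θ) ∈ M'}.indicator (fun _ => (1 : ℝ)) y) - g y‖ ∂ν ≤ ε / (4 * (c + 1)) ∧
        Integrable g ν := fun θ =>
    ((integrable_const (1 : ℝ)).indicator (hB θ)).exists_boundedContinuous_integral_sub_le
      (by positivity)
  choose g hg hgi using happ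
  -- the continuous approximation
  have hGc : Continuous (fun p : Y × (E → Bool) => g p.2 p.1) := by
    have : Continuous (fun p : Y × (E → Bool) => ∑ θ : E → Bool, (if p.2 = θ then 1 else 0) * g θ p.1) := by
      refine continuous_finsetSum _ fun θ _ => ?_
      refine Continuous.mul ?_ ((g θ).continuous.comp continuous_fst)
      have h1 : Continuous (fun q : E → Bool => (if q = θ then (1 : ℝ) else 0)) :=
        continuous_of_discreteTopology
      exact h1.comp continuous_snd
    convert this using 2 with p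
    rw [Finset.sum_eq_single p.2]
    · simp
    · intro θ _ hθ
      rw [if_neg (Ne.symm hθ), zero_mul]
    · intro h
      exact absurd (Finset.mem_univ _) h
  let G : BoundedContinuousFunction (Y × (D → Bool)) ℝ :=
    BoundedContinuousFunction.mkOfCompact ⟨fun x => g (π x).2 (π x).1, hGc.comp hπc⟩
  have hconv := (ProbabilityMeasure.tendsto_iff_forall_integral_tendsto.1 hQ) G
  -- the error
  have herr : ∀ R : ProbabilityMeasure (Y × (D → Bool)),
      ((R : Measure (Y × (D → Bool)))).map Prod.fst = ν →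
      |(R : Measure (Y × (D → Bool))).real (π ⁻¹' M') - ∫ x, G x ∂(R : Measure (Y × (D → Bool)))| ≤
        ε / 4 := by
    intro R hR
    have hm : MeasurableSet (π ⁻¹' M') := hπc.measurable hM'
    have e1 : (R : Measure (Y × (D → Bool))).real (π ⁻¹' M') =
        ∫ x, (π ⁻¹' M').indicator (fun _ => (1 : ℝ)) x ∂(R : Measure (Y × (D → Bool))) := by
      rw [integral_indicator hm]
      simp
    have hint : Integrable (fun x => (π ⁻¹' M').indicator (fun _ => (1 : ℝ)) x)
        (R : Measure (Y × (D → Bool))) := (integrable_const (1 : ℝ)).indicator hm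
    have hintG : Integrable (fun x => G x) (R : Measure (Y × (D → Bool))) := G.integrable _
    let h : Y → ℝ := fun y => ∑ θ : E → Bool,
      ‖({y : Y | (y, θ) ∈ M'}.indicator (fun _ => (1 : ℝ)) y) - g θ y‖
    have hh : ∀ x, ‖(π ⁻¹' M').indicator (fun _ => (1 : ℝ)) x - G x‖ ≤ h x.1 := by
      intro x
      have e2 : (π ⁻¹' M').indicator (fun _ => (1 : ℝ)) x =
          {y : Y | (y, (π x).2) ∈ M'}.indicator (fun _ => (1 : ℝ)) x.1 := rfl
      rw [e2]
      exact Finset.single_le_sum (f := fun θ : E → Bool =>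
        ‖({y : Y | (y, θ) ∈ M'}.indicator (fun _ => (1 : ℝ)) x.1) - g θ x.1‖)
        (fun θ _ => norm_nonneg _) (Finset.mem_univ (π x).2)
    have hθi : ∀ θ : E → Bool, Integrable (fun y =>
        ‖({y : Y | (y, θ) ∈ M'}.indicator (fun _ => (1 : ℝ)) y) - g θ y‖) ν := fun θ =>
      (((integrable_const (1 : ℝ)).indicator (hB θ)).sub (hgi θ)).norm
    have hhi : Integrable h ν := integrable_finsetSum _ fun θ _ => hθi θ
    have hhi' : Integrable (fun x : Y × (D → Bool) => h x.1) (R : Measure (Y × (D → Bool))) := by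
      have : Integrable h ((R : Measure (Y × (D → Bool))).map Prod.fst) := by rw [hR]; exact hhi
      exact this.comp_measurable measurable_fst
    rw [e1, ← integral_sub hint hintG]
    calc |∫ x, ((π ⁻¹' M').indicator (fun _ => (1 : ℝ)) x - G x) ∂(R : Measure (Y × (D → Bool)))|
        ≤ ∫ x, ‖(π ⁻¹' M').indicator (fun _ => (1 : ℝ)) x - G x‖ ∂(R : Measure (Y × (D → Bool))) := by
          rw [← Real.norm_eq_abs]
          exact norm_integral_le_integral_norm _
      _ ≤ ∫ x, h x.1 ∂(R : Measure (Y × (D → Bool))) :=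
          integral_mono (hint.sub hintG).norm hhi' hh
      _ = ∫ y, h y ∂ν := by
          rw [← hR, integral_map measurable_fst.aemeasurable]
          rw [hR]
          exact hhi.aestronglyMeasurable
      _ = ∑ θ : E → Bool, ∫ y,
            ‖({y : Y | (y, θ) ∈ M'}.indicator (fun _ => (1 : ℝ)) y) - g θ y‖ ∂ν :=
          integral_finsetSum _ fun θ _ => hθi θ
      _ ≤ ∑ _θ : E → Bool, ε / (4 * (c + 1)) := Finset.sum_le_sum fun θ _ => hg θ
      _ = c * (ε / (4 * (c + 1))) := by
          rw [Finset.sum_const, nsmul_eq_mul, Finset.card_univ]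
      _ ≤ ε / 4 := by
          rw [mul_div_assoc', div_le_div_iff₀ (by positivity) (by norm_num)]
          nlinarith
  have h1 := (Metric.tendsto_nhds.1 hconv) (ε / 4) (by positivity)
  filter_upwards [h1] with n hn
  have h2 := herr (Q n) (hQ1 n)
  have h3 := herr P hP1
  rw [Real.dist_eq] at hn ⊢
  have h4 := abs_le.1 h2
  have h5 := abs_le.1 h3
  have h6 := abs_lt.1 hn
  rw [abs_lt]
  constructor <;> linarith [h4.1, h4.2, h5.1, h5.2, h6.1, h6.2]

end LIM

variable {J : Type} [Fintype J] [DecidableEq J] (H : Host J)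

theorem exists_limit {D : Type} [Countable D] (dg : D → HDigit H) (U : Ultrafilter ℕ)
    (hU : (U : Filter ℕ) ≤ atTop) :
    ∃ P : Measure ((J → H.Om) × (D → Bool)), IsProbabilityMeasure P ∧
      ∀ (E : Finset D) (M : Set ((J → H.Om) × (D → Bool))),
        MeasurableSet[GF (fun x : (J → H.Om) × (D → Bool) => x.1) (fun δ => (dg δ).f)
          (fun δ x => x.2 δ) Finset.univ (Fintype.card J) E] M →
        (∀ n, MeasurableSet {y | (y, tval dg n y) ∈ M}) ∧
        Tendsto (fun n => H.lam.real {y | (y, tval dg n y) ∈ M}) (U : Filter ℕ) (𝓝 (P.real M)) := by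
  classical
  have htv : ∀ n, Measurable (fun y : J → H.Om => (y, tval dg n y)) := by
    intro n
    refine measurable_id.prodMk (measurable_pi_lambda _ fun δ => ?_)
    refine measurable_to_bool ?_
    have : (fun y : J → H.Om => tval dg n y δ) ⁻¹' {true} = (dg δ).G n := by
      ext y
      simp [tval]
    rw [this]
    exact (dg δ).meas n
  let Q : ℕ → ProbabilityMeasure ((J → H.Om) × (D → Bool)) := fun n =>
    ⟨H.lam.map (fun y => (y, tval dg n y)),
      Measure.isProbabilityMeasure_map (htv n).aemeasurable⟩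
  obtain ⟨P, -, hP⟩ := isCompact_univ.ultrafilter_le_nhds (U.map Q) (by simp)
  have hQ : Tendsto Q (U : Filter ℕ) (𝓝 P) := hP
  have hQ1 : ∀ n, ((Q n : Measure ((J → H.Om) × (D → Bool)))).map Prod.fst = H.lam := by
    intro n
    show (H.lam.map (fun y => (y, tval dg n y))).map Prod.fst = H.lam
    rw [Measure.map_map measurable_fst (htv n)]
    exact Measure.map_id
  have hP1 : ((P : Measure ((J → H.Om) × (D → Bool)))).map Prod.fst = H.lam := by
    have h1 := ProbabilityMeasure.tendsto_map_of_tendsto_of_continuous Q P hQ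
      (f := (Prod.fst : (J → H.Om) × (D → Bool) → (J → H.Om))) continuous_fst
    have h2 : (fun n => (Q n).map
        (continuous_fst (X := J → H.Om) (Y := D → Bool)).measurable.aemeasurable) =
        fun _ => (⟨H.lam, inferInstance⟩ : ProbabilityMeasure (J → H.Om)) := by
      funext n
      exact Subtype.ext (hQ1 n)
    rw [h2] at h1
    have h3 := tendsto_nhds_unique h1 tendsto_const_nhds
    exact congrArg Subtype.val h3
  refine ⟨P, inferInstance, fun E M hM => ?_⟩
  obtain ⟨M', hM', rfl⟩ := LIM.exists_section (fun y : J → H.Om => y) measurable_id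
    (fun δ => (dg δ).f) Finset.univ (Fintype.card J) E M hM
  have hmM : MeasurableSet ((fun x : (J → H.Om) × (D → Bool) => (x.1, fun δ : E => x.2 δ)) ⁻¹' M') := by
    refine (measurable_fst.prodMk (measurable_pi_lambda _ fun δ => ?_)) hM'
    exact (measurable_pi_apply (δ : D)).comp measurable_snd
  refine ⟨fun n => htv n hmM, ?_⟩
  have h1 := LIM.tendsto_of_marginal H.lam Q P (U : Filter ℕ) hQ hQ1 hP1 E M' hM'
  refine h1.congr fun n => ?_
  show (H.lam.map (fun y => (y, tval dg n y))).real _ = _
  rw [map_measureReal_apply (htv n) hmM]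
  rfl

end SPHK
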