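import Pool.Agent.SPHK.Proj
import Pool.Agent.SPH.GenNull

/-! Project SPHK: the orthogonal projection to the span of finitely many vectors, jointly
measurable and equivariant; the normal direction. -/

set_option autoImplicit false

open MeasureTheory Set Filter Module
open scoped ENNReal Topology

noncomputable section
namespace SPHK

open SPH

section gen

variable {V : Type*} [NormedAddCommGroup V] [InnerProductSpace ℝ V]

/-- the projection to the span of finitely many vectors, by recursion -/
def prjRec : (m : ℕ) → (Fin m → V) → V → V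
  | 0, _, _ => 0
  | m + 1, a, x =>
    prjRec m (fun i => a i.castSucc) x +
      (inner ℝ (a (Fin.last m) - prjRec m (fun i => a i.castSucc) (a (Fin.last m))) x /
        ‖a (Fin.last m) - prjRec m (fun i => a i.castSucc) (a (Fin.last m))‖ ^ 2) •
        (a (Fin.last m) - prjRec m (fun i => a i.castSucc) (a (Fin.last m)))

theorem prjRec_mem (m : ℕ) : ∀ (a : Fin m → V) (x : V),
    prjRec m a x ∈ Submodule.span ℝ (range a) := by
  induction m with
  | zero =>
    intro a x
    exact Submodule.zero_mem _
  | succ m ih =>
    intro a x
    have hsub : Submodule.span ℝ (range fun i : Fin m => a i.castSucc) ≤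
        Submodule.span ℝ (range a) := by
      refine Submodule.span_mono ?_
      rintro _ ⟨i, rfl⟩
      exact ⟨_, rfl⟩
    refine Submodule.add_mem _ (hsub (ih _ _)) (Submodule.smul_mem _ _ (Submodule.sub_mem _ ?_
      (hsub (ih _ _))))
    exact Submodule.subset_span ⟨_, rfl⟩

theorem inner_sub_prjRec (m : ℕ) : ∀ (a : Fin m → V) (x : V) (i : Fin m),
    inner ℝ (a i) (x - prjRec m a x) = 0 := by
  induction m with
  | zero => intro a x i; exact i.elim0
  | succ m ih =>
    intro a x i
    set b : Fin m → V := fun i => a i.castSucc with hb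
    set r : V := a (Fin.last m) - prjRec m b (a (Fin.last m)) with hr
    have hrb : ∀ w ∈ Submodule.span ℝ (range b), inner ℝ w r = 0 := by
      intro w hw
      induction hw using Submodule.span_induction with
      | mem w hw =>
        obtain ⟨i, rfl⟩ := hw
        exact ih b _ i
      | zero => exact inner_zero_left _
      | add u w _ _ hu hw => rw [inner_add_left, hu, hw, add_zero]
      | smul c u _ hu => rw [inner_smul_left, hu, mul_zero]
    have hxb : ∀ w ∈ Submodule.span ℝ (range b), inner ℝ w (x - prjRec m b x) = 0 := by
      intro w hw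
      induction hw using Submodule.span_induction with
      | mem w hw =>
        obtain ⟨i, rfl⟩ := hw
        exact ih b _ i
      | zero => exact inner_zero_left _
      | add u w _ _ hu hw => rw [inner_add_left, hu, hw, add_zero]
      | smul c u _ hu => rw [inner_smul_left, hu, mul_zero]
    have hval : x - prjRec (m + 1) a x = (x - prjRec m b x) - (inner ℝ r x / ‖r‖ ^ 2) • r := by
      show x - (prjRec m b x + (inner ℝ r x / ‖r‖ ^ 2) • r) = _
      abel
    rw [hval]
    have key : ∀ w ∈ Submodule.span ℝ (range b),
        inner ℝ w ((x - prjRec m b x) - (inner ℝ r x / ‖r‖ ^ 2) • r) = 0 := by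
      intro w hw
      rw [inner_sub_right, hxb w hw, inner_smul_right, hrb w hw, mul_zero, sub_zero]
    refine Fin.lastCases ?_ (fun j => ?_) i
    · have h1 : a (Fin.last m) = r + prjRec m b (a (Fin.last m)) := by rw [hr]; abel
      rw [h1, inner_add_left, key _ (prjRec_mem m b _), add_zero, inner_sub_right, inner_smul_right,
        real_inner_self_eq_norm_sq]
      have h2 : inner ℝ r (x - prjRec m b x) = inner ℝ r x := by
        rw [inner_sub_right, sub_eq_self, real_inner_comm]
        exact hrb _ (prjRec_mem m b x)
      rw [h2]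
      by_cases h0 : r = 0
      · simp [h0]
      · have : ‖r‖ ^ 2 ≠ 0 := by positivity
        rw [div_mul_cancel₀ _ this, sub_self]
    · exact key _ (Submodule.subset_span ⟨j, rfl⟩)

variable [FiniteDimensional ℝ V]

/-- the projection to the span of finitely many vectors -/
def prj {ι : Type*} [Finite ι] (a : ι → V) (x : V) : V :=
  (Submodule.span ℝ (range a)).starProjection x

theorem prj_mem {ι : Type*} [Finite ι] (a : ι → V) (x : V) :
    prj a x ∈ Submodule.span ℝ (range a) := Submodule.starProjection_apply_mem _ _

theorem inner_sub_prj {ι : Type*} [Finite ι] (a : ι → V) (x w : V)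
    (hw : w ∈ Submodule.span ℝ (range a)) : inner ℝ w (x - prj a x) = 0 := by
  have h := Submodule.sub_starProjection_mem_orthogonal (K := Submodule.span ℝ (range a)) x
  exact (Submodule.mem_orthogonal _ _).1 h w hw

/-- characterisation of the projection -/
theorem prj_unique {ι : Type*} [Finite ι] (a : ι → V) (x y : V)
    (hy : y ∈ Submodule.span ℝ (range a)) (h : ∀ i, inner ℝ (a i) (x - y) = 0) :
    prj a x = y := by
  refine Submodule.eq_starProjection_of_mem_of_inner_eq_zero hy fun w hw => ?_
  rw [real_inner_comm]
  induction hw using Submodule.span_induction with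
  | mem w hw =>
    obtain ⟨i, rfl⟩ := hw
    exact h i
  | zero => exact inner_zero_left _
  | add u w _ _ hu hw => rw [inner_add_left, hu, hw, add_zero]
  | smul c u _ hu => rw [inner_smul_left, hu, mul_zero]

theorem prj_eq_self {ι : Type*} [Finite ι] (a : ι → V) {x : V}
    (hx : x ∈ Submodule.span ℝ (range a)) : prj a x = x :=
  prj_unique a x x hx fun i => by rw [sub_self, inner_zero_right]

theorem prj_comp_equiv {ι κ : Type*} [Finite ι] [Finite κ] (a : ι → V) (e : κ ≃ ι) (x : V) :
    prj (fun i => a (e i)) x = prj a x := by
  have h : Submodule.span ℝ (range fun i => a (e i)) = Submodule.span ℝ (range a) := by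
    congr 1
    exact e.surjective.range_comp a
  refine prj_unique _ _ _ (h ▸ prj_mem a x) fun i => ?_
  exact inner_sub_prj a x _ (Submodule.subset_span ⟨e i, rfl⟩)

theorem prj_eq_rec (m : ℕ) (a : Fin m → V) (x : V) : prj a x = prjRec m a x :=
  prj_unique a x _ (prjRec_mem m a x) (inner_sub_prjRec m a x)

/-- equivariance -/
theorem prj_map {ι : Type*} [Finite ι] (L : V →ₗᵢ[ℝ] V) (a : ι → V) (x : V) :
    prj (fun i => L (a i)) (L x) = L (prj a x) := by
  refine prj_unique _ _ _ ?_ fun i => ?_
  · have h := Submodule.mem_map_of_mem (f := L.toLinearMap) (prj_mem a x)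
    rw [Submodule.map_span, ← range_comp] at h
    exact h
  · rw [← map_sub, L.inner_map_map]
    exact inner_sub_prj a x _ (Submodule.subset_span ⟨i, rfl⟩)

section meas

variable [MeasurableSpace V] [BorelSpace V] [SecondCountableTopology V]

omit [FiniteDimensional ℝ V] in
theorem measurable_prjRec (m : ℕ) :
    Measurable (fun p : (Fin m → V) × V => prjRec m p.1 p.2) := by
  induction m with
  | zero => exact measurable_const
  | succ m ih =>
    have hb : Measurable (fun p : (Fin (m + 1) → V) × V => (fun i : Fin m => p.1 i.castSucc)) :=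
      measurable_pi_lambda _ fun i => (measurable_pi_apply _).comp measurable_fst
    have hl : Measurable (fun p : (Fin (m + 1) → V) × V => p.1 (Fin.last m)) :=
      (measurable_pi_apply _).comp measurable_fst
    have h1 : Measurable (fun p : (Fin (m + 1) → V) × V =>
        prjRec m (fun i => p.1 i.castSucc) p.2) := ih.comp (hb.prodMk measurable_snd)
    have h2 : Measurable (fun p : (Fin (m + 1) → V) × V =>
        p.1 (Fin.last m) - prjRec m (fun i => p.1 i.castSucc) (p.1 (Fin.last m))) :=
      hl.sub (ih.comp (hb.prodMk hl))
    exact h1.add (((h2.inner measurable_snd).div (h2.norm.pow_const 2)).smul h2)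

theorem measurable_prj {ι : Type*} [Finite ι] :
    Measurable (fun p : (ι → V) × V => prj p.1 p.2) := by
  have := Fintype.ofFinite ι
  let e := (Fintype.equivFin ι).symm
  have h : (fun p : (ι → V) × V => prj p.1 p.2) =
      fun p => prjRec (Fintype.card ι) (fun i => p.1 (e i)) p.2 := by
    funext p
    rw [← prj_eq_rec, prj_comp_equiv]
  rw [h]
  have h1 : Measurable (fun p : (ι → V) × V => (fun i : Fin (Fintype.card ι) => p.1 (e i))) :=
    measurable_pi_lambda _ fun i => (measurable_pi_apply (e i)).comp measurable_fst
  exact (measurable_prjRec _).comp (h1.prodMk measurable_snd)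

end meas

/-- the direction of the part of `x` orthogonal to finitely many vectors -/
def nn {ι : Type*} [Finite ι] (a : ι → V) (x : V) : V := dirn (x - prj a x)

theorem norm_nn {ι : Type*} [Finite ι] (a : ι → V) {x : V}
    (hx : x ∉ Submodule.span ℝ (range a)) : ‖nn a x‖ = 1 := by
  refine norm_dirn fun h => hx ?_
  rw [sub_eq_zero.1 h]
  exact prj_mem a x

theorem inner_nn {ι : Type*} [Finite ι] (a : ι → V) (x w : V)
    (hw : w ∈ Submodule.span ℝ (range a)) : inner ℝ w (nn a x) = 0 := by
  unfold nn dirn
  rw [inner_smul_right, inner_sub_prj a x w hw, mul_zero]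

theorem nn_map {ι : Type*} [Finite ι] (L : V →ₗᵢ[ℝ] V) (a : ι → V) (x : V) :
    nn (fun i => L (a i)) (L x) = L (nn a x) := by
  unfold nn dirn
  rw [prj_map, ← map_sub, L.norm_map, map_smul]

theorem measurable_nn {ι : Type*} [Finite ι] [MeasurableSpace V] [BorelSpace V]
    [SecondCountableTopology V] : Measurable (fun p : (ι → V) × V => nn p.1 p.2) :=
  measurable_dirn.comp (measurable_snd.sub measurable_prj)

end gen

section sph

variable {d : ℕ}

/-- the linear isometry of an element of the orthogonal group -/
def actL (T : OG d) : E d →ₗᵢ[ℝ] E d where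
  toFun := act T
  map_add' := act_add T
  map_smul' := act_smul T
  norm_map' := norm_act T

@[simp] theorem actL_apply (T : OG d) (x : E d) : actL T x = act T x := rfl

theorem prj_act {ι : Type*} [Finite ι] (T : OG d) (a : ι → E d) (x : E d) :
    prj (fun i => act T (a i)) (act T x) = act T (prj a x) := prj_map (actL T) a x

theorem nn_act {ι : Type*} [Finite ι] (T : OG d) (a : ι → E d) (x : E d) :
    nn (fun i => act T (a i)) (act T x) = act T (nn a x) := nn_map (actL T) a x

theorem ae_notMem_span {ι : Type*} [Fintype ι] (a : ι → E d) (h : Fintype.card ι ≤ d) :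
    ∀ᵐ ξ : Sph d ∂(sig d), (ξ : E d) ∉ Submodule.span ℝ (range a) := by
  have hne : Submodule.span ℝ (range a) ≠ ⊤ := by
    intro htop
    have h1 : finrank ℝ (Submodule.span ℝ (range a)) ≤ Fintype.card ι := by
      have := finrank_range_le_card (R := ℝ) a
      exact this
    rw [htop, finrank_top, finrank_euclideanSpace, Fintype.card_fin] at h1
    omega
  rw [ae_iff]
  simp only [not_not]
  exact sig_subspace _ hne

theorem ae_norm_nn {ι : Type*} [Fintype ι] (a : ι → E d) (h : Fintype.card ι ≤ d) :
    ∀ᵐ ξ : Sph d ∂(sig d), ‖nn a (ξ : E d)‖ = 1 := by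
  filter_upwards [ae_notMem_span a h] with ξ hξ
  exact norm_nn a hξ

end sph

end SPHK
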