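import Pool.Agent.SPHK.Red

/-! Project SPHK, row RM: the inverse theorem for box norms (A.5). -/

set_option autoImplicit false

open MeasureTheory ProbabilityTheory Filter
open scoped ENNReal Topology

noncomputable section
namespace SPHK

variable {J : Type}

namespace RMP

open RED

theorem measurable_sumPair {A Z O : Type} [MeasurableSpace O] {X : Type} [MeasurableSpace X]
    {f : A → X → O} {g : Z → X → O} (hf : ∀ a, Measurable (f a)) (hg : ∀ z, Measurable (g z)) :
    Measurable (fun x => Sum.elim (fun a => f a x) (fun z => g z x) : X → (A ⊕ Z → O)) := by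
  refine measurable_pi_lambda _ fun v => ?_
  rcases v with a | z
  · exact hf a
  · exact hg z

/-- RM is invariant under equivalences of the first type. -/
theorem RM_congr (H : Host J) {A A2 Z : Type} [Fintype A] [DecidableEq A] [Fintype A2]
    [DecidableEq A2] [Fintype Z] (e : A ≃ A2) (cA2 : A2 → J) (cZ : Z → J)
    (h : H.RM cA2 cZ) : H.RM (fun a => cA2 (e a)) cZ := by
  intro δ hδ
  obtain ⟨δ', hδ', N, R, hR, hmain⟩ := h δ hδ
  refine ⟨δ', hδ', N, fun t a => R t (e a), fun t a => hR t (e a), fun f hf hbox => ?_⟩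
  have hre : Measurable (fun (y : A2 ⊕ Z → H.Om) (i : A ⊕ Z) => y (Sum.map e id i)) :=
    measurable_pi_lambda _ fun i => measurable_pi_apply _
  let f2 : (A2 ⊕ Z → H.Om) → ℝ := fun y => f (fun i => y (Sum.map e id i))
  have hf2 : Bdd f2 := bdd_comp hf hre
  have hbox2 : H.box cA2 cZ f2 = H.box (fun a => cA2 (e a)) cZ f := by
    unfold Host.box
    let i : (A × Bool) ⊕ Z → (A2 × Bool) ⊕ Z := Sum.map (Prod.map e id) id
    have hi : Function.Injective i := Function.Injective.sumMap
      (Function.Injective.prodMap e.injective Function.injective_id) Function.injective_id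
    have h1 := H.integral_marg (boxCl cA2 cZ) i hi
      (fun y => ∏ w : A → Bool, f (pick w y))
      (Finset.measurable_prod _ fun w _ => hf.1.comp (measurable_pick w))
    have h2 : H.law (fun v' => boxCl cA2 cZ (i v')) = H.law (boxCl (fun a => cA2 (e a)) cZ) := by
      refine H.law_congr fun v => ?_
      rcases v with a | z <;> rfl
    rw [h2] at h1
    rw [← h1]
    refine integral_congr_ae (Filter.Eventually.of_forall fun y => ?_)
    simp only
    refine Fintype.prod_equiv (e.symm.arrowCongr (Equiv.refl Bool)) _ _ fun w => ?_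
    simp only [f2]
    congr 1
    funext v
    rcases v with a | z
    · simp only [pick, Sum.map_inl, Sum.elim_inl, i, Prod.map_apply, id_eq]
      congr 3
    · rfl
  rw [← hbox2] at hbox
  obtain ⟨t, r, hr, hrd, hval⟩ := hmain f2 hf2 hbox
  have hre2 : Measurable (fun (y : A ⊕ Z → H.Om) (i : A2 ⊕ Z) => y (Sum.map e.symm id i)) :=
    measurable_pi_lambda _ fun i => measurable_pi_apply _
  refine ⟨t, fun a y => r (e a) (fun i => y (Sum.map e.symm id i)),
    fun a => bdd_comp (hr (e a)) hre2, fun a => ?_, ?_⟩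
  · intro y y' hyy'
    refine hrd (e a) fun i hi => hyy' _ fun hcon => hi ?_
    rcases i with b | z
    · have h1 : e.symm b = a := Sum.inl_injective hcon
      rw [← h1, Equiv.apply_symm_apply]
    · cases hcon
  · let F : (A ⊕ Z → H.Om) → ℝ := fun y => f y *
      (∏ a, (R t (e a)).indicator (fun _ => (1 : ℝ)) (y (Sum.inl a))) *
      ∏ a, r (e a) (fun i => y (Sum.map e.symm id i))
    have hF : Measurable F := by
      refine (hf.1.mul (Finset.measurable_prod _ fun a _ => ?_)).mul
        (Finset.measurable_prod _ fun a _ => (bdd_comp (hr (e a)) hre2).1)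
      exact (measurable_const.indicator (hR t (e a))).comp (measurable_pi_apply _)
    have h1 := H.integral_marg (Sum.elim cA2 cZ) (Sum.map e id)
      (Function.Injective.sumMap e.injective Function.injective_id) F hF
    have h2 : H.law (fun v' => Sum.elim cA2 cZ (Sum.map e id v'))
        = H.law (Sum.elim (fun a => cA2 (e a)) cZ) := by
      refine H.law_congr fun v => ?_
      rcases v with a | z <;> rfl
    rw [h2] at h1
    have h3 : ∀ y : A2 ⊕ Z → H.Om, F (fun v' => y (Sum.map e id v')) =
        f2 y * (∏ a, (R t a).indicator (fun _ => (1 : ℝ)) (y (Sum.inl a))) * ∏ a, r a y := by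
      intro y
      simp only [F, f2]
      congr 1
      · congr 1
        exact Fintype.prod_equiv e _ _ fun a => rfl
      · refine Fintype.prod_equiv e _ _ fun a => ?_
        congr 1
        funext i
        rcases i with b | z
        · simp
        · rfl
    simp only [h3] at h1
    rw [h1] at hval
    exact hval

/-- the vertices of the copy `u` -/
def Tset {A B : Type} [Fintype A] [DecidableEq A] [Fintype B] [DecidableEq B] (u : A → Bool) :
    Finset ((A × Bool) ⊕ B) :=
  Finset.univ.filter fun x => Sum.elim (fun p => decide (p.2 = u p.1)) (fun _ => true) x = true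

theorem mem_Tset_inl {A B : Type} [Fintype A] [DecidableEq A] [Fintype B] [DecidableEq B]
    {u : A → Bool} {p : A × Bool} : (Sum.inl p : (A × Bool) ⊕ B) ∈ Tset u ↔ p.2 = u p.1 := by
  unfold Tset
  simp

theorem mem_Tset_inr {A B : Type} [Fintype A] [DecidableEq A] [Fintype B] [DecidableEq B]
    {u : A → Bool} {v : B} : (Sum.inr v : (A × Bool) ⊕ B) ∈ Tset u := by
  unfold Tset
  simp

/-- both copies filled with the same labels -/
def fill {A B Z O : Type} (x : A ⊕ (B ⊕ Z) → O) : ((A × Bool) ⊕ B) ⊕ Z → O :=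
  Sum.elim (Sum.elim (fun p => x (Sum.inl p.1)) (fun v => x (Sum.inr (Sum.inl v))))
    (fun z => x (Sum.inr (Sum.inr z)))

theorem measurable_fill {A B Z O : Type} [MeasurableSpace O] :
    Measurable (fill : (A ⊕ (B ⊕ Z) → O) → (((A × Bool) ⊕ B) ⊕ Z → O)) := by
  refine measurable_pi_lambda _ fun v => ?_
  rcases v with (p | v) | z <;> exact measurable_pi_apply _

/-- reindexing for the generalised von Neumann inequality -/
def i3 {A B Z : Type} : A ⊕ ((B ⊕ Z) ⊕ A) → ((A × Bool) ⊕ B) ⊕ Z :=
  Sum.elim (fun a => Sum.inl (Sum.inl (a, false)))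
    (Sum.elim (Sum.elim (fun v => Sum.inl (Sum.inr v)) Sum.inr)
      (fun a => Sum.inl (Sum.inl (a, true))))

/-- its inverse -/
def i3inv {A B Z : Type} : ((A × Bool) ⊕ B) ⊕ Z → A ⊕ ((B ⊕ Z) ⊕ A) :=
  Sum.elim (Sum.elim (fun p => if p.2 then Sum.inr (Sum.inr p.1) else Sum.inl p.1)
    (fun v => Sum.inr (Sum.inl (Sum.inl v)))) (fun z => Sum.inr (Sum.inl (Sum.inr z)))

theorem i3_i3inv {A B Z : Type} (x : ((A × Bool) ⊕ B) ⊕ Z) : i3 (i3inv x) = x := by
  rcases x with (⟨a, b⟩ | v) | z
  · cases b <;> rfl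
  · rfl
  · rfl

theorem i3inv_i3 {A B Z : Type} (x : A ⊕ ((B ⊕ Z) ⊕ A)) : i3inv (i3 x) = x := by
  rcases x with a | (v | z) | a <;> rfl

/-- Step 3 of the proof. -/
theorem step3 (H : Host J) {A B Z : Type} [Fintype A] [DecidableEq A] [Fintype B] [DecidableEq B]
    [Fintype Z] (cA : A → J) (j : J) (cZ : Z → J)
    (hA : Nonempty A → H.RM cA (Sum.elim (fun _ : B => j) cZ)) (δ : ℝ) (hδ : 0 < δ) :
    ∃ δ4 : ℝ, 0 < δ4 ∧ ∃ (N : ℕ) (R : Fin N → A → Set H.Om), (∀ t a, MeasurableSet (R t a)) ∧
    ∀ g : (A → Bool) → (((A × Bool) ⊕ B) ⊕ Z → H.Om) → ℝ, (∀ u, Bdd (g u)) →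
      (∀ u, DependsOn (g u) (Sum.elim (fun v => v ∈ Tset u) (fun _ => True))) →
      δ ≤ |∫ y, ∏ u, g u y ∂(H.law (Sum.elim (Sum.elim (fun p => cA p.1) (fun _ => j)) cZ))| →
      ∃ (t : Fin N) (r : A → (A ⊕ (B ⊕ Z) → H.Om) → ℝ), (∀ a, Bdd (r a)) ∧
        (∀ a, DependsOn (r a) {i | i ≠ Sum.inl a}) ∧
        δ4 ≤ |∫ y, g (fun _ => false) (fill y) *
          (∏ a, (R t a).indicator (fun _ => (1 : ℝ)) (y (Sum.inl a))) *
          ∏ a, r a y ∂(H.law (Sum.elim cA (Sum.elim (fun _ : B => j) cZ)))| := by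
  classical
  -- the function on the reindexed space
  have key : ∀ g : (A → Bool) → (((A × Bool) ⊕ B) ⊕ Z → H.Om) → ℝ, (∀ u, Bdd (g u)) →
      ∫ y, ∏ u, g u y ∂(H.law (Sum.elim (Sum.elim (fun p => cA p.1) (fun _ => j)) cZ))
      = ∫ y, ∏ u, g u (fun x => y (i3inv x)) ∂(H.law (Sum.elim cA
          (Sum.elim (Sum.elim (fun _ : B => j) cZ) cA))) := by
    intro g hg
    have hm : Measurable (fun (y : A ⊕ ((B ⊕ Z) ⊕ A) → H.Om) (x : ((A × Bool) ⊕ B) ⊕ Z) =>
        y (i3inv x)) := measurable_pi_lambda _ fun x => measurable_pi_apply _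
    have h1 := H.integral_marg (Sum.elim (Sum.elim (fun p : A × Bool => cA p.1) (fun _ : B => j)) cZ)
      i3 (fun x y h => by rw [← i3inv_i3 x, h, i3inv_i3])
      (fun y => ∏ u, g u (fun x => y (i3inv x)))
      (Finset.measurable_prod _ fun u _ => (hg u).1.comp hm)
    have h2 : H.law (fun v' => (Sum.elim (Sum.elim (fun p : A × Bool => cA p.1)
        (fun _ : B => j)) cZ) (i3 v')) = H.law (Sum.elim cA
          (Sum.elim (Sum.elim (fun _ : B => j) cZ) cA)) := by
      refine H.law_congr fun v => ?_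
      rcases v with a | (v | z) | a <;> rfl
    rw [h2] at h1
    rw [← h1]
    refine integral_congr_ae (Filter.Eventually.of_forall fun y => ?_)
    simp only [i3_i3inv]
  rcases isEmpty_or_nonempty A with hE | hNE
  · -- no vertex of a smaller class
    refine ⟨δ, hδ, 1, fun _ _ => Set.univ, fun _ _ => MeasurableSet.univ, fun g hg _ hval => ?_⟩
    refine ⟨0, fun a => hE.elim a, fun a => hE.elim a, fun a => hE.elim a, ?_⟩
    have h1 := H.integral_marg (Sum.elim (Sum.elim (fun p : A × Bool => cA p.1) (fun _ : B => j)) cZ)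
      (Sum.elim (fun a => hE.elim a) (Sum.elim (fun v => Sum.inl (Sum.inr v)) Sum.inr) :
        A ⊕ (B ⊕ Z) → ((A × Bool) ⊕ B) ⊕ Z)
      (by
        rintro (a | v | z) (a' | v' | z') h
        · exact hE.elim a
        · exact hE.elim a
        · exact hE.elim a
        · exact hE.elim a'
        · simpa using h
        · simp at h
        · exact hE.elim a'
        · simp at h
        · simpa using h)
      (fun y => g (fun _ => false) (fill y)) ((hg _).1.comp measurable_fill)
    have h2 : H.law (fun v' => (Sum.elim (Sum.elim (fun p : A × Bool => cA p.1)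
        (fun _ : B => j)) cZ) ((Sum.elim (fun a => hE.elim a)
          (Sum.elim (fun v => Sum.inl (Sum.inr v)) Sum.inr) :
        A ⊕ (B ⊕ Z) → ((A × Bool) ⊕ B) ⊕ Z) v')) = H.law (Sum.elim cA
          (Sum.elim (fun _ : B => j) cZ)) := by
      refine H.law_congr fun v => ?_
      rcases v with a | v | z
      · exact hE.elim a
      · rfl
      · rfl
    rw [h2] at h1
    have h3 : ∀ y : ((A × Bool) ⊕ B) ⊕ Z → H.Om, ∏ u, g u y = g (fun _ => false) (fill
        (fun v' => y ((Sum.elim (fun a => hE.elim a)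
          (Sum.elim (fun v => Sum.inl (Sum.inr v)) Sum.inr) :
        A ⊕ (B ⊕ Z) → ((A × Bool) ⊕ B) ⊕ Z) v'))) := by
      intro y
      rw [Fintype.prod_subsingleton _ (fun _ => false)]
      congr 1
      funext x
      rcases x with (p | v) | z
      · exact hE.elim p.1
      · rfl
      · rfl
    simp only [h3] at hval
    rw [h1] at hval
    simpa using hval
  · -- the general case
    obtain ⟨δ', hδ', N, R, hR, hmain⟩ := hA hNE (δ ^ (2 ^ Fintype.card A)) (pow_pos hδ _)
    refine ⟨δ', hδ', N, R, hR, fun g hg hgd hval => ?_⟩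
    let u0 : A → Bool := fun _ => false
    have hm : Measurable (fun (y : A ⊕ ((B ⊕ Z) ⊕ A) → H.Om) (x : ((A × Bool) ⊕ B) ⊕ Z) =>
        y (i3inv x)) := measurable_pi_lambda _ fun x => measurable_pi_apply _
    let gt : (A → Bool) → (A ⊕ ((B ⊕ Z) ⊕ A) → H.Om) → ℝ := fun u y => g u (fun x => y (i3inv x))
    have hgt : ∀ u, Bdd (gt u) := fun u => bdd_comp (hg u) hm
    let f : (A ⊕ (B ⊕ Z) → H.Om) → ℝ := fun x => g u0 (fill x)
    have hf : Bdd f := bdd_comp (hg u0) measurable_fill
    have hfg : gt u0 = fun y => f (Sum.elim (fun a => y (Sum.inl a))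
        (fun z => y (Sum.inr (Sum.inl z)))) := by
      funext y
      refine hgd u0 fun x hx => ?_
      rcases x with (⟨a, b⟩ | v) | z
      · have hb : b = false := mem_Tset_inl.mp hx
        subst hb
        rfl
      · rfl
      · rfl
    have hsel : ∀ u : A → Bool, ∃ a, u ≠ u0 → u a = true := by
      intro u
      by_cases hu : ∃ a, u a = true
      · exact ⟨hu.choose, fun _ => hu.choose_spec⟩
      · obtain ⟨a0⟩ := hNE
        refine ⟨a0, fun hne => absurd ?_ hne⟩
        push Not at hu
        funext a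
        simpa using hu a
    choose sel hsel using hsel
    let Ga : A → (A ⊕ ((B ⊕ Z) ⊕ A) → H.Om) → ℝ := fun a y =>
      ∏ u ∈ (Finset.univ.erase u0).filter (fun u => sel u = a), gt u y
    have hGa : ∀ a, Bdd (Ga a) := fun a => bdd_prod _ fun u _ => hgt u
    have hGd : ∀ a, DependsOn (Ga a) {i | i ≠ Sum.inl a} := by
      intro a
      refine dep_prod _ _ _ fun u hu => ?_
      obtain ⟨h1, h2⟩ := Finset.mem_filter.mp hu
      intro y y' hyy'
      refine hgd u fun x hx => hyy' _ fun hcon => ?_
      rcases x with (⟨b, c⟩ | v) | z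
      · have hc : c = u b := mem_Tset_inl.mp hx
        have h3 := hsel u (Finset.ne_of_mem_erase h1)
        rw [h2] at h3
        cases c with
        | false =>
          have hb : b = a := Sum.inl_injective hcon
          rw [hb, h3] at hc
          exact Bool.noConfusion hc
        | true => cases hcon
      · cases hcon
      · cases hcon
    have hgv := H.gvn cA (Sum.elim (Sum.elim (fun _ : B => j) cZ) cA) (gt u0) (hgt u0).1 1
      (hgt u0).2 Ga hGa hGd
    have hprod : ∀ y, gt u0 y * ∏ a, Ga a y = ∏ u, gt u y := by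
      intro y
      rw [← Finset.mul_prod_erase _ _ (Finset.mem_univ u0)]
      congr 1
      exact Finset.prod_fiberwise _ _ _
    simp only [hprod] at hgv
    rw [key g hg] at hval
    have hbox : δ ^ (2 ^ Fintype.card A) ≤ H.box cA (Sum.elim (fun _ : B => j) cZ) f := by
      rw [← H.box_marg cA (Sum.elim (fun _ : B => j) cZ) cA f hf.1, ← hfg]
      exact (pow_le_pow_left₀ hδ.le hval _).trans hgv
    obtain ⟨t, r, hr, hrd, h5⟩ := hmain f hf hbox
    exact ⟨t, r, hr, hrd, h5⟩

/-- the vertex chosen by `w` in the doubled box -/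
def asm {A B Z O : Type} (w : A ⊕ B → Bool) (p : ((A × Bool) ⊕ Z → O) × (B → O) × (B → O)) :
    (A ⊕ B) ⊕ Z → O :=
  Sum.elim (Sum.elim (fun a => p.1 (Sum.inl (a, w (Sum.inl a))))
    (fun v => if w (Sum.inr v) then p.2.2 v else p.2.1 v)) (fun z => p.1 (Sum.inr z))

theorem measurable_asm {A B Z O : Type} [MeasurableSpace O] (w : A ⊕ B → Bool) :
    Measurable (asm w : ((A × Bool) ⊕ Z → O) × (B → O) × (B → O) → ((A ⊕ B) ⊕ Z → O)) := by
  refine measurable_pi_lambda _ fun v => ?_
  rcases v with (a | v) | z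
  · exact (measurable_pi_apply (Sum.inl (a, w (Sum.inl a)))).comp measurable_fst
  · by_cases hw : w (Sum.inr v) = true
    · simp only [asm, Sum.elim_inl, Sum.elim_inr, hw, if_true]
      exact (measurable_pi_apply v).comp (measurable_snd.comp measurable_snd)
    · simp only [asm, Sum.elim_inl, Sum.elim_inr, hw]
      exact (measurable_pi_apply v).comp (measurable_fst.comp measurable_snd)
  · have h0 : Measurable (fun p : ((A × Bool) ⊕ Z → O) × (B → O) × (B → O) => p.1 (Sum.inr z)) :=
      (measurable_pi_apply (Sum.inr z)).comp measurable_fst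
    exact h0

/-- the base coordinates -/
def bb {A B Z O : Type} (x : ((A × Bool) ⊕ B) ⊕ Z → O) : (A × Bool) ⊕ Z → O :=
  Sum.elim (fun p => x (Sum.inl (Sum.inl p))) (fun z => x (Sum.inr z))

theorem measurable_bb {A B Z O : Type} [MeasurableSpace O] :
    Measurable (bb : (((A × Bool) ⊕ B) ⊕ Z → O) → ((A × Bool) ⊕ Z → O)) := by
  refine measurable_pi_lambda _ fun v => ?_
  rcases v with p | z <;> exact measurable_pi_apply _

/-- the labels of the copy `u` -/
def pk {A B Z O : Type} (u : A → Bool) (x : ((A × Bool) ⊕ B) ⊕ Z → O) : (A ⊕ B) ⊕ Z → O :=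
  Sum.elim (Sum.elim (fun a => x (Sum.inl (Sum.inl (a, u a)))) (fun v => x (Sum.inl (Sum.inr v))))
    (fun z => x (Sum.inr z))

theorem measurable_pk {A B Z O : Type} [MeasurableSpace O] (u : A → Bool) :
    Measurable (pk u : (((A × Bool) ⊕ B) ⊕ Z → O) → ((A ⊕ B) ⊕ Z → O)) := by
  refine measurable_pi_lambda _ fun v => ?_
  rcases v with (a | v) | z <;> exact measurable_pi_apply _

/-- reindexing the box -/
def i1 {A B Z : Type} : ((A × Bool) ⊕ Z) ⊕ (B ⊕ B) → ((A ⊕ B) × Bool) ⊕ Z :=
  Sum.elim (Sum.elim (fun p => Sum.inl (Sum.inl p.1, p.2)) Sum.inr)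
    (Sum.elim (fun v => Sum.inl (Sum.inr v, false)) (fun v => Sum.inl (Sum.inr v, true)))

theorem i1_injective {A B Z : Type} : Function.Injective (i1 (A := A) (B := B) (Z := Z)) := by
  rintro ((⟨a, b⟩ | z) | (v | v)) ((⟨a', b'⟩ | z') | (v' | v')) h <;> simp_all [i1]

/-- The box as an integral over the base and two groups. -/
theorem box_eq (H : Host J) {A B Z : Type} [Fintype A] [DecidableEq A] [Fintype B] [DecidableEq B]
    [Fintype Z] (cA : A → J) (j : J) (cZ : Z → J) (h : ((A ⊕ B) ⊕ Z → H.Om) → ℝ)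
    (hh : Measurable h) :
    ∫ y, ∏ w : A ⊕ B → Bool, h (asm w (fun v => y (Sum.inl v), fun v => y (Sum.inr (Sum.inl v)),
        fun v => y (Sum.inr (Sum.inr v))))
        ∂(H.law (Sum.elim (Sum.elim (fun p : A × Bool => cA p.1) cZ)
          (Sum.elim (fun _ : B => j) (fun _ : B => j))))
      = H.box (Sum.elim cA (fun _ : B => j)) cZ h := by
  unfold Host.box
  have hm : Measurable (fun y : ((A × Bool) ⊕ Z) ⊕ (B ⊕ B) → H.Om =>
      ((fun v => y (Sum.inl v), fun v => y (Sum.inr (Sum.inl v)),
        fun v => y (Sum.inr (Sum.inr v))) :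
        ((A × Bool) ⊕ Z → H.Om) × (B → H.Om) × (B → H.Om))) := by
    refine Measurable.prodMk ?_ (Measurable.prodMk ?_ ?_) <;>
      exact measurable_pi_lambda _ fun v => measurable_pi_apply _
  have h1 := H.integral_marg (boxCl (Sum.elim cA (fun _ : B => j)) cZ) i1 i1_injective
    (fun y => ∏ w : A ⊕ B → Bool, h (asm w (fun v => y (Sum.inl v),
      fun v => y (Sum.inr (Sum.inl v)), fun v => y (Sum.inr (Sum.inr v)))))
    (Finset.measurable_prod _ fun w _ => hh.comp ((measurable_asm w).comp hm))
  have h2 : H.law (fun v' => boxCl (Sum.elim cA (fun _ : B => j)) cZ (i1 v')) =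
      H.law (Sum.elim (Sum.elim (fun p : A × Bool => cA p.1) cZ)
          (Sum.elim (fun _ : B => j) (fun _ : B => j))) := by
    refine H.law_congr fun v => ?_
    rcases v with (p | z) | (v | v) <;> rfl
  rw [h2] at h1
  rw [← h1]
  refine integral_congr_ae (Filter.Eventually.of_forall fun y => ?_)
  simp only
  refine Finset.prod_congr rfl fun w _ => ?_
  congr 1
  funext v
  rcases v with (a | v) | z
  · rfl
  · simp only [asm, pick, i1, Sum.elim_inl, Sum.elim_inr]
    cases w (Sum.inr v) <;> rfl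
  · rfl

/-- Step 1 of the proof. -/
theorem step1 (H : Host J) {A B Z : Type} [Fintype A] [DecidableEq A] [Fintype B] [DecidableEq B]
    [Fintype Z] [Nonempty B] (cA : A → J) (j : J) (cZ : Z → J)
    (hDEC : H.DEC (V := (A × Bool) ⊕ Z) (B := B) (Sum.elim (fun p => cA p.1) cZ) j)
    (δ : ℝ) (hδ : 0 < δ) :
    ∃ δ1 : ℝ, 0 < δ1 ∧ ∃ (N : ℕ) (R : Fin N → B → Set H.Om), (∀ t v, MeasurableSet (R t v)) ∧
    ∀ h : ((A ⊕ B) ⊕ Z → H.Om) → ℝ, Bdd h → δ ≤ H.box (Sum.elim cA (fun _ : B => j)) cZ h →
      ∃ (t : Fin N) (P : Finset ((A × Bool) ⊕ B) → (((A × Bool) ⊕ B) ⊕ Z → H.Om) → ℝ),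
        (∀ S, Bdd (P S)) ∧
        (∀ S, DependsOn (P S) (Sum.elim (fun v => v ∈ S) (fun _ => True))) ∧
        (∀ S, ¬ (∃ v, Sum.inr v ∉ S) → P S = fun _ => 1) ∧
        δ1 ≤ |∫ x, (∏ u : A → Bool, (h (pk u x) * if u = (fun _ => false) then
            ∏ v : B, (R t v).indicator (fun _ => (1 : ℝ)) (x (Sum.inl (Sum.inr v))) else 1)) *
          ∏ S, P S x ∂(H.law (Sum.elim (Sum.elim (fun p : A × Bool => cA p.1) (fun _ => j)) cZ))| := by
  classical
  obtain ⟨δ1, hδ1, N, R0, R, R', hR0, hR, hR', hmain⟩ := hDEC δ hδ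
  refine ⟨δ1, hδ1, N, R, hR, fun h hh hbox => ?_⟩
  let Φ : ((A × Bool) ⊕ Z → H.Om) × (B → H.Om) × (B → H.Om) → ℝ := fun p =>
    ∏ w : A ⊕ B → Bool, h (asm w p)
  have hΦ : Bdd Φ := bdd_prod _ fun w _ => bdd_comp hh (measurable_asm w)
  obtain ⟨t, s, hs, hval⟩ := hmain Φ hΦ (by
    simp only [Φ]
    rw [box_eq H cA j cZ h hh.1]
    exact hbox.trans (le_abs_self _))
  -- the sets of variables missed
  have hvs : ∃ vs : (B → Bool) → B, ∀ ε, ε ≠ (fun _ => false) → ε (vs ε) = true := by
    have : ∀ ε : B → Bool, ∃ v, ε ≠ (fun _ => false) → ε v = true := by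
      intro ε
      by_cases hε : ∃ v, ε v = true
      · exact ⟨hε.choose, fun _ => hε.choose_spec⟩
      · obtain ⟨v0⟩ := ‹Nonempty B›
        refine ⟨v0, fun hne => absurd ?_ hne⟩
        push Not at hε
        funext v
        simpa using hε v
    choose vs hvs using this
    exact ⟨vs, hvs⟩
  obtain ⟨vs, hvs⟩ := hvs
  obtain ⟨v0⟩ := ‹Nonempty B›
  let V1 := (A × Bool) ⊕ B
  -- the joint argument
  let ar : (V1 ⊕ Z → H.Om) → ((A × Bool) ⊕ Z → H.Om) × (B → H.Om) × (B → H.Om) := fun x =>
    (bb x, fun v => x (Sum.inl (Sum.inr v)), s (bb x))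
  have har : Measurable ar := by
    refine measurable_bb.prodMk (Measurable.prodMk ?_ (hs.comp measurable_bb))
    exact measurable_pi_lambda _ fun v => measurable_pi_apply _
  let Q : B → (V1 ⊕ Z → H.Om) → ℝ := fun v x =>
    (∏ q ∈ (Finset.univ : Finset ((A → Bool) × (B → Bool))).filter
      (fun q => q.2 ≠ (fun _ => false) ∧ vs q.2 = v), h (asm (Sum.elim q.1 q.2) (ar x))) *
    if v = v0 then (R0 t).indicator (fun _ => (1 : ℝ)) (bb x) *
      ∏ v' : B, (R' t v').indicator (fun _ => (1 : ℝ)) (s (bb x) v') else 1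
  have hQ : ∀ v, Bdd (Q v) := by
    intro v
    refine bdd_mul (bdd_prod _ fun q _ => bdd_comp hh ((measurable_asm _).comp har)) ?_
    by_cases hv : v = v0
    · simp only [hv, if_true]
      refine bdd_mul (bdd_comp (bdd_indicator (hR0 t)) measurable_bb) (bdd_prod _ fun v' _ => ?_)
      exact bdd_comp (bdd_indicator (hR' t v')) ((measurable_pi_apply v').comp (hs.comp measurable_bb))
    · simp only [hv, if_false]
      exact bdd_one
  have hQd : ∀ v, DependsOn (Q v) (Sum.elim (fun x => x ∈ Finset.univ.erase (Sum.inr v : V1))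
      (fun _ : Z => True)) := by
    intro v x x' hxx'
    have hb : bb x = bb x' := by
      funext i
      rcases i with p | z
      · exact hxx' (Sum.inl (Sum.inl p)) (Finset.mem_erase.mpr ⟨by simp, Finset.mem_univ _⟩)
      · exact hxx' (Sum.inr z) trivial
    simp only [Q]
    congr 1
    · refine Finset.prod_congr rfl fun q hq => ?_
      obtain ⟨-, hq1, hq2⟩ := Finset.mem_filter.mp hq
      congr 1
      funext i
      rcases i with (a | v') | z
      · simp only [asm, Sum.elim_inl, ar, hb]
      · by_cases hv' : v' = v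
        · have h3 : q.2 v' = true := by rw [hv', ← hq2]; exact hvs q.2 hq1
          simp only [asm, Sum.elim_inl, Sum.elim_inr, h3, if_true, ar, hb]
        · have h4 : x (Sum.inl (Sum.inr v')) = x' (Sum.inl (Sum.inr v')) :=
            hxx' (Sum.inl (Sum.inr v')) (Finset.mem_erase.mpr ⟨by simpa using hv', Finset.mem_univ _⟩)
          simp only [asm, Sum.elim_inl, Sum.elim_inr, ar, hb, h4]
      · simp only [asm, Sum.elim_inr, ar, hb]
    · rw [hb]
  let P : Finset V1 → (V1 ⊕ Z → H.Om) → ℝ := fun S x =>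
    ∏ v ∈ Finset.univ.filter (fun v : B => Finset.univ.erase (Sum.inr v : V1) = S), Q v x
  refine ⟨t, P, fun S => bdd_prod _ fun v _ => hQ v, fun S => ?_, fun S hS => ?_, ?_⟩
  · refine dep_prod _ _ _ fun v hv => ?_
    rw [← (Finset.mem_filter.mp hv).2]
    exact hQd v
  · funext x
    simp only [P]
    refine Finset.prod_eq_one fun v hv => absurd ⟨v, ?_⟩ hS
    rw [← (Finset.mem_filter.mp hv).2]
    exact Finset.notMem_erase _ _
  · -- the integral
    have hre : Measurable (fun (y : ((A × Bool) ⊕ Z) ⊕ B → H.Om) =>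
        ((fun v => y (Sum.inl v), fun v => y (Sum.inr v), s (fun v => y (Sum.inl v))) :
        ((A × Bool) ⊕ Z → H.Om) × (B → H.Om) × (B → H.Om))) := by
      have h0 : Measurable (fun (y : ((A × Bool) ⊕ Z) ⊕ B → H.Om) (v : (A × Bool) ⊕ Z) =>
          y (Sum.inl v)) := measurable_pi_lambda _ fun v => measurable_pi_apply _
      refine h0.prodMk (Measurable.prodMk ?_ (hs.comp h0))
      exact measurable_pi_lambda _ fun v => measurable_pi_apply _
    have h0 : Measurable (fun (y : ((A × Bool) ⊕ Z) ⊕ B → H.Om) (v : (A × Bool) ⊕ Z) =>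
          y (Sum.inl v)) := measurable_pi_lambda _ fun v => measurable_pi_apply _
    have h1 := H.integral_marg (Sum.elim (Sum.elim (fun p : A × Bool => cA p.1) (fun _ : B => j)) cZ)
      (Sum.elim (Sum.elim (fun p => Sum.inl (Sum.inl p)) Sum.inr) (fun v => Sum.inl (Sum.inr v)) :
        ((A × Bool) ⊕ Z) ⊕ B → ((A × Bool) ⊕ B) ⊕ Z)
      (by rintro ((p | z) | v) ((p' | z') | v') h <;> simp_all)
      (fun y => Φ (fun v => y (Sum.inl v), fun v => y (Sum.inr v), s (fun v => y (Sum.inl v))) *
          (R0 t).indicator (fun _ => (1 : ℝ)) (fun v => y (Sum.inl v)) *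
          (∏ v : B, (R t v).indicator (fun _ => (1 : ℝ)) (y (Sum.inr v))) *
          (∏ v : B, (R' t v).indicator (fun _ => (1 : ℝ)) (s (fun v => y (Sum.inl v)) v)))
      (by
        refine (((hΦ.1.comp hre).mul ((measurable_const.indicator (hR0 t)).comp h0)).mul
          (Finset.measurable_prod _ fun v _ => ?_)).mul (Finset.measurable_prod _ fun v _ => ?_)
        · exact (measurable_const.indicator (hR t v)).comp (measurable_pi_apply _)
        · exact (measurable_const.indicator (hR' t v)).comp ((measurable_pi_apply v).comp (hs.comp h0)))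
    have h2 : H.law (fun v' => (Sum.elim (Sum.elim (fun p : A × Bool => cA p.1)
        (fun _ : B => j)) cZ) ((Sum.elim (Sum.elim (fun p => Sum.inl (Sum.inl p)) Sum.inr)
          (fun v => Sum.inl (Sum.inr v)) : ((A × Bool) ⊕ Z) ⊕ B → ((A × Bool) ⊕ B) ⊕ Z) v')) =
        H.law (Sum.elim (Sum.elim (fun p : A × Bool => cA p.1) cZ) (fun _ : B => j)) := by
      refine H.law_congr fun v => ?_
      rcases v with (p | z) | v <;> rfl
    rw [h2] at h1
    rw [← h1] at hval
    refine hval.trans (le_of_eq ?_)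
    congr 1
    refine integral_congr_ae (Filter.Eventually.of_forall fun x => ?_)
    simp only
    have hbx : (fun v => x ((Sum.elim (Sum.elim (fun p => Sum.inl (Sum.inl p)) Sum.inr)
          (fun v => Sum.inl (Sum.inr v)) : ((A × Bool) ⊕ Z) ⊕ B → ((A × Bool) ⊕ B) ⊕ Z) (Sum.inl v)))
        = bb x := by
      funext v
      rcases v with p | z <;> rfl
    rw [hbx]
    have hPr : ∏ S, P S x = ∏ v, Q v x := Finset.prod_fiberwise _ _ _
    rw [hPr]
    have e1 : Φ (ar x) = (∏ u : A → Bool, h (pk u x)) *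
        ∏ q ∈ (Finset.univ : Finset ((A → Bool) × (B → Bool))).filter
          (fun q => q.2 ≠ (fun _ => false)), h (asm (Sum.elim q.1 q.2) (ar x)) := by
      have e2 : Φ (ar x) = ∏ q : (A → Bool) × (B → Bool), h (asm (Sum.elim q.1 q.2) (ar x)) := by
        refine Fintype.prod_equiv (Equiv.sumArrowEquivProdArrow A B Bool) _ _ fun w => ?_
        congr 2
        funext v
        rcases v with a | v <;> rfl
      rw [e2, ← Finset.prod_filter_mul_prod_filter_not Finset.univ
        (fun q : (A → Bool) × (B → Bool) => q.2 = fun _ => false)]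
      congr 1
      rw [Finset.prod_filter, Fintype.prod_prod_type]
      refine Finset.prod_congr rfl fun u _ => ?_
      simp only
      rw [Finset.prod_ite_eq', if_pos (Finset.mem_univ _)]
      refine congrArg h ?_
      funext i
      rcases i with (a | v) | z <;> rfl
    have e3 : ∏ v, Q v x = (∏ q ∈ (Finset.univ : Finset ((A → Bool) × (B → Bool))).filter
          (fun q => q.2 ≠ (fun _ => false)), h (asm (Sum.elim q.1 q.2) (ar x))) *
        ((R0 t).indicator (fun _ => (1 : ℝ)) (bb x) *
          ∏ v' : B, (R' t v').indicator (fun _ => (1 : ℝ)) (s (bb x) v')) := by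
      simp only [Q]
      rw [Finset.prod_mul_distrib]
      congr 1
      · rw [← Finset.prod_fiberwise (Finset.univ.filter
          (fun q : (A → Bool) × (B → Bool) => q.2 ≠ fun _ => false)) (fun q => vs q.2)]
        refine Finset.prod_congr rfl fun v _ => ?_
        rw [Finset.filter_filter]
      · rw [Finset.prod_ite_eq', if_pos (Finset.mem_univ _)]
    have e4 : (∏ u : A → Bool, (h (pk u x) * if u = (fun _ => false) then
            ∏ v : B, (R t v).indicator (fun _ => (1 : ℝ)) (x (Sum.inl (Sum.inr v))) else 1)) =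
        (∏ u : A → Bool, h (pk u x)) *
          ∏ v : B, (R t v).indicator (fun _ => (1 : ℝ)) (x (Sum.inl (Sum.inr v))) := by
      rw [Finset.prod_mul_distrib, Finset.prod_ite_eq', if_pos (Finset.mem_univ _)]
    rw [e3, e4]
    have e5 : Φ (bb x, fun v => x ((Sum.elim (Sum.elim (fun p => Sum.inl (Sum.inl p)) Sum.inr)
          (fun v => Sum.inl (Sum.inr v)) : ((A × Bool) ⊕ Z) ⊕ B → ((A × Bool) ⊕ B) ⊕ Z)
          (Sum.inr v)), s (bb x)) = Φ (ar x) := rfl
    rw [e5, e1]
    simp only [Sum.elim_inr]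
    ring

/-- the sets containing both copies of a vertex -/
def Bad {A B : Type} (S : Finset ((A × Bool) ⊕ B)) : Prop :=
  ∃ a, Sum.inl (a, false) ∈ S ∧ Sum.inl (a, true) ∈ S

/-- the sets missing a vertex of the last class -/
def Dom {A B : Type} (S : Finset ((A × Bool) ⊕ B)) : Prop := ∃ v, Sum.inr v ∉ S

/-- The step of the induction. -/
theorem RM_step (H : Host J) {A B Z : Type} [Fintype A] [DecidableEq A] [Fintype B] [DecidableEq B]
    [Fintype Z] [Nonempty B] (cA : A → J) (j : J) (cZ : Z → J)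
    (hDEC : H.DEC (V := (A × Bool) ⊕ Z) (B := B) (Sum.elim (fun p => cA p.1) cZ) j)
    (hS : ∀ S : Finset ((A × Bool) ⊕ B), Bad S → Dom S →
      H.RM (A := S) (fun x => Sum.elim (fun p : A × Bool => cA p.1) (fun _ : B => j) x.1) cZ)
    (hA : Nonempty A → H.RM cA (Sum.elim (fun _ : B => j) cZ)) :
    H.RM (Sum.elim cA (fun _ : B => j)) cZ := by
  classical
  intro δ hδ
  obtain ⟨δ1, hδ1, N1, R, hR, h1⟩ := step1 H cA j cZ hDEC δ hδ
  obtain ⟨δ2, hδ2, h2⟩ := H.red (Sum.elim (fun p : A × Bool => cA p.1) (fun _ : B => j)) cZ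
    Bad Dom (fun S T hST ⟨a, ha1, ha2⟩ => ⟨a, hST ha1, hST ha2⟩)
    (fun S T hST ⟨v, hv⟩ => ⟨v, fun hcon => hv (hST hcon)⟩)
    (fun S ⟨a, ha1, ha2⟩ => Finset.one_lt_card.mpr ⟨_, ha1, _, ha2, by simp⟩)
    hS (Wt := A → Bool) (fun u => Tset u)
    (fun u ⟨a, ha1, ha2⟩ => by
      have h3 := mem_Tset_inl.mp ha1
      have h4 := mem_Tset_inl.mp ha2
      rw [← h4] at h3
      exact Bool.noConfusion h3) δ1 hδ1
  obtain ⟨δ4, hδ4, N2, R2, hR2, h3⟩ := step3 H cA j cZ hA δ2 hδ2
  refine ⟨δ4, hδ4, N1 * N2, fun k => Sum.elim (R2 (finProdFinEquiv.symm k).2)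
    (R (finProdFinEquiv.symm k).1), fun k a => ?_, fun h hh hbox => ?_⟩
  · rcases a with a | v
    · exact hR2 _ a
    · exact hR _ v
  obtain ⟨t, P, hP, hPd, hPD, hval⟩ := h1 h hh hbox
  let u0 : A → Bool := fun _ => false
  let hhu : (A → Bool) → (((A × Bool) ⊕ B) ⊕ Z → H.Om) → ℝ := fun u x =>
    h (pk u x) * if u = (fun _ => false) then
      ∏ v : B, (R t v).indicator (fun _ => (1 : ℝ)) (x (Sum.inl (Sum.inr v))) else 1
  have hhub : ∀ u, Bdd (hhu u) := by
    intro u
    refine bdd_mul (bdd_comp hh (measurable_pk u)) ?_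
    by_cases hu : u = fun _ => false
    · simp only [hu, if_true]
      exact bdd_prod _ fun v _ => bdd_comp (bdd_indicator (hR t v)) (measurable_pi_apply _)
    · simp only [hu, if_false]
      exact bdd_one
  have hhud : ∀ u, DependsOn (hhu u) (Sum.elim (fun v => v ∈ Tset (B := B) u)
      (fun _ : Z => True)) := by
    intro u x x' hxx'
    have h4 : ∀ v, x (Sum.inl (Sum.inr v)) = x' (Sum.inl (Sum.inr v)) := fun v =>
      hxx' (Sum.inl (Sum.inr v)) mem_Tset_inr
    have h5 : pk u x = pk u x' := by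
      funext i
      rcases i with (a | v) | z
      · exact hxx' (Sum.inl (Sum.inl (a, u a))) (mem_Tset_inl.mpr rfl)
      · exact h4 v
      · exact hxx' (Sum.inr z) trivial
    simp only [hhu, h5, h4]
  obtain ⟨q, hq, hqd, hq1, hval2⟩ := h2 hhu P hhub hP hhud hPd hPD hval
  let ws : Finset ((A × Bool) ⊕ B) → (A → Bool) := fun S a => decide (Sum.inl (a, true) ∈ S)
  have hws : ∀ S, ¬ Bad S → ∀ a b, Sum.inl (a, b) ∈ S → b = ws S a := by
    intro S hSb a b hab
    cases b with
    | false =>
      have : Sum.inl (a, true) ∉ S := fun hcon => hSb ⟨a, hab, hcon⟩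
      simp [ws, this]
    | true => simp [ws, hab]
  let g : (A → Bool) → (((A × Bool) ⊕ B) ⊕ Z → H.Om) → ℝ := fun u x =>
    hhu u x * ∏ S ∈ Finset.univ.filter (fun S => ws S = u), q S x
  have hg : ∀ u, Bdd (g u) := fun u => bdd_mul (hhub u) (bdd_prod _ fun S _ => hq S)
  have hgd : ∀ u, DependsOn (g u) (Sum.elim (fun v => v ∈ Tset (B := B) u)
      (fun _ : Z => True)) := by
    intro u
    refine dep_mul (hhud u) (dep_prod _ _ _ fun S hSu => ?_)
    by_cases hc : Bad S ∨ ¬ Dom S
    · rw [hq1 S hc]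
      exact fun _ _ _ => rfl
    · push Not at hc
      have h4 : ws S = u := (Finset.mem_filter.mp hSu).2
      intro x x' hxx'
      refine hqd S fun i hi => hxx' i ?_
      rcases i with (⟨a, b⟩ | v) | z
      · exact mem_Tset_inl.mpr (by rw [← h4]; exact hws S hc.1 a b hi)
      · exact mem_Tset_inr
      · trivial
  have hprod : ∀ x, ∏ u, g u x = (∏ u, hhu u x) * ∏ S, q S x := by
    intro x
    simp only [g]
    rw [Finset.prod_mul_distrib]
    congr 1
    exact Finset.prod_fiberwise _ _ _
  obtain ⟨t2, r, hr, hrd, hval3⟩ := h3 g hg hgd (by simp only [hprod]; exact hval2)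
  -- the functions
  have hvS : ∀ S : Finset ((A × Bool) ⊕ B), ∃ v : B, Dom S → Sum.inr v ∉ S := by
    intro S
    by_cases hD : Dom S
    · exact ⟨hD.choose, fun _ => hD.choose_spec⟩
    · exact ⟨Classical.arbitrary B, fun h => absurd h hD⟩
  choose vS hvS using hvS
  let i : A ⊕ (B ⊕ Z) → (A ⊕ B) ⊕ Z := (Equiv.sumAssoc A B Z).symm
  have hi : Function.Injective i := (Equiv.sumAssoc A B Z).symm.injective
  have him : Measurable (fun (x : (A ⊕ B) ⊕ Z → H.Om) (v' : A ⊕ (B ⊕ Z)) => x (i v')) :=
    measurable_pi_lambda _ fun _ => measurable_pi_apply _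
  let r' : A ⊕ B → ((A ⊕ B) ⊕ Z → H.Om) → ℝ := Sum.elim
    (fun a x => r a (fun v' => x (i v')))
    (fun v x => ∏ S ∈ (Finset.univ.filter (fun S => ws S = u0)).filter (fun S => vS S = v),
      q S (fill (fun v' => x (i v'))))
  refine ⟨finProdFinEquiv (t, t2), r', ?_, ?_, ?_⟩
  · rintro (a | v)
    · exact bdd_comp (hr a) him
    · exact bdd_prod _ fun S _ => bdd_comp (hq S) (measurable_fill.comp him)
  · rintro (a | v)
    · intro x x' hxx'
      refine hrd a fun v' hv' => hxx' _ fun hcon => hv' ?_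
      rcases v' with a' | v' | z
      · have : Sum.inl a' = (Sum.inl a : A ⊕ B) := Sum.inl_injective hcon
        rw [Sum.inl_injective this]
      · cases hcon
      · cases hcon
    · refine dep_prod _ _ _ fun S hS' => ?_
      obtain ⟨-, h5⟩ := Finset.mem_filter.mp hS'
      by_cases hc : Bad S ∨ ¬ Dom S
      · rw [hq1 S hc]
        exact fun _ _ _ => rfl
      · push Not at hc
        intro x x' hxx'
        refine hqd S fun k hk => ?_
        rcases k with (⟨a, b⟩ | v') | z
        · exact hxx' (Sum.inl (Sum.inl a)) fun hcon => by cases hcon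
        · refine hxx' (Sum.inl (Sum.inr v')) fun hcon => ?_
          have h6 : Sum.inr v' = (Sum.inr v : A ⊕ B) := Sum.inl_injective hcon
          have h7 : v' = v := Sum.inr_injective h6
          rw [h7, ← h5] at hk
          exact hvS S hc.2 hk
        · exact hxx' (Sum.inr z) fun hcon => by cases hcon
  · have h4 := H.integral_marg (Sum.elim (Sum.elim cA (fun _ : B => j)) cZ) i hi
      (fun y => g (fun _ => false) (fill y) *
          (∏ a, (R2 t2 a).indicator (fun _ => (1 : ℝ)) (y (Sum.inl a))) * ∏ a, r a y)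
      (by
        refine (((hg _).1.comp measurable_fill).mul (Finset.measurable_prod _ fun a _ => ?_)).mul
          (Finset.measurable_prod _ fun a _ => (hr a).1)
        exact (measurable_const.indicator (hR2 t2 a)).comp (measurable_pi_apply _))
    have h5 : H.law (fun v' => Sum.elim (Sum.elim cA (fun _ : B => j)) cZ (i v')) =
        H.law (Sum.elim cA (Sum.elim (fun _ : B => j) cZ)) := by
      refine H.law_congr fun v => ?_
      rcases v with a | v | z <;> rfl
    rw [h5] at h4
    rw [← h4] at hval3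
    refine hval3.trans (le_of_eq ?_)
    congr 1
    refine integral_congr_ae (Filter.Eventually.of_forall fun x => ?_)
    simp only [Equiv.symm_apply_apply, g, hhu, if_true, Fintype.prod_sum_type, Sum.elim_inl,
      Sum.elim_inr, r']
    have h6 : pk (fun _ => false) (fill (fun v' => x (i v'))) = x := by
      funext k
      rcases k with (a | v) | z <;> rfl
    rw [h6, Finset.prod_fiberwise]
    have h7 : ∀ v : B, (fill (fun v' => x (i v')) (Sum.inl (Sum.inr v)) : H.Om) =
      x (Sum.inl (Sum.inr v)) := fun v => rfl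
    have h8 : ∀ a : A, x (i (Sum.inl a)) = x (Sum.inl (Sum.inl a)) := fun a => rfl
    simp only [h7, h8]
    ring

theorem DECs_mono {H : Host J} {N N' : ℕ} (h : N' ≤ N) (hN : H.DECs N) : H.DECs N' :=
  fun V B _ _ cV j hc => hN V B cV j (hc.trans h)

theorem card_aux {K : ℕ} {A B : Type} [Fintype A] [Fintype B] [DecidableEq A] [DecidableEq B]
    (cA : A → Fin K) (j : Fin K) (hcA : ∀ a, cA a ≠ j) (S : Finset ((A × Bool) ⊕ B)) (v : B)
    (hv : Sum.inr v ∉ S) :
    (Finset.univ.filter (fun x : S => Sum.elim (fun p : A × Bool => cA p.1)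
      (fun _ : B => j) x.1 = j)).card < Fintype.card B := by
  have h1 : (Finset.univ.filter (fun x : S => Sum.elim (fun p : A × Bool => cA p.1)
      (fun _ : B => j) x.1 = j)).card ≤ (Finset.univ.erase v).card := by
    refine Finset.card_le_card_of_injOn (fun x => Sum.elim (fun _ => v) id x.1) ?_ ?_
    · rintro ⟨x, hx⟩ h
      have h2 := (Finset.mem_filter.mp h).2
      rcases x with p | b
      · exact absurd h2 (hcA p.1)
      · refine Finset.mem_coe.mpr (Finset.mem_erase.mpr ⟨?_, Finset.mem_univ _⟩)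
        simp only [Sum.elim_inr, id_eq]
        rintro rfl
        exact hv hx
    · rintro ⟨x, hx⟩ h ⟨y, hy⟩ h' hxy
      have h2 := (Finset.mem_filter.mp h).2
      have h3 := (Finset.mem_filter.mp h').2
      rcases x with p | b
      · exact absurd h2 (hcA p.1)
      · rcases y with p' | b'
        · exact absurd h3 (hcA p'.1)
        · simp only [Sum.elim_inr, id_eq] at hxy
          subst hxy
          rfl
  refine h1.trans_lt ?_
  rw [Finset.card_erase_of_mem (Finset.mem_univ v), Finset.card_univ]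
  exact Nat.sub_lt (Fintype.card_pos_iff.mpr ⟨v⟩) Nat.one_pos

theorem exists_RM_aux {K : ℕ} (c : ℕ) (hcK : c ≤ K) : ∀ (A Z : Type) [Fintype A] [DecidableEq A]
    [Nonempty A] [Fintype Z] (cA : A → Fin K) (cZ : Z → Fin K), (∀ a, (cA a).val < c) →
    ∃ N : ℕ, ∀ H : Host (Fin K), H.DECs N → H.RM cA cZ := by
  classical
  induction c with
  | zero =>
    intro A Z _ _ _ _ cA cZ h
    exact absurd (h (Classical.arbitrary A)) (Nat.not_lt_zero _)
  | succ c ih =>
    let j : Fin K := ⟨c, hcK⟩
    have inner : ∀ (m : ℕ) (A Z : Type) [Fintype A] [DecidableEq A] [Nonempty A] [Fintype Z]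
        (cA : A → Fin K) (cZ : Z → Fin K), (∀ a, (cA a).val < c + 1) →
        (Finset.univ.filter (fun a => cA a = j)).card = m →
        ∃ N : ℕ, ∀ H : Host (Fin K), H.DECs N → H.RM cA cZ := by
      intro m
      induction m using Nat.strong_induction_on with
      | _ m ihm =>
        intro A Z _ _ _ _ cA cZ hlt hm
        by_cases hmem : ∃ b, cA b = j
        · obtain ⟨b0, hb0⟩ := hmem
          let A' := {a // ¬ cA a = j}
          let B := {a // cA a = j}
          have hBne : Nonempty B := ⟨⟨b0, hb0⟩⟩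
          let e : A ≃ A' ⊕ B :=
            (Equiv.sumCompl (fun a => cA a = j)).symm.trans (Equiv.sumComm _ _)
          let cA' : A' → Fin K := fun a => cA a.1
          have hcard : Fintype.card B = m := by
            rw [← hm, Fintype.card_subtype]
          have hSN : ∀ S : Finset ((A' × Bool) ⊕ B), ∃ N : ℕ, ∀ H : Host (Fin K), H.DECs N →
              Bad S → Dom S → H.RM (A := S) (fun x => Sum.elim (fun p : A' × Bool => cA' p.1)
                (fun _ : B => j) x.1) cZ := by
            intro S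
            by_cases hS : Bad S ∧ Dom S
            · obtain ⟨⟨a, ha1, ha2⟩, v, hv⟩ := hS
              have hSne : Nonempty S := ⟨⟨_, ha1⟩⟩
              obtain ⟨N, hN⟩ := ihm _ (by
                  rw [← hcard]
                  exact card_aux cA' j (fun a => a.2) S v hv) S Z
                (fun x => Sum.elim (fun p : A' × Bool => cA' p.1) (fun _ : B => j) x.1) cZ (by
                  rintro ⟨x, hx⟩
                  rcases x with p | b
                  · exact hlt p.1.1
                  · exact Nat.lt_succ_self c) rfl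
              exact ⟨N, fun H hH _ _ => hN H hH⟩
            · exact ⟨0, fun H _ h1 h2 => absurd ⟨h1, h2⟩ hS⟩
          choose NS hNS using hSN
          have hAN : ∃ N, ∀ H : Host (Fin K), H.DECs N → Nonempty A' →
              H.RM cA' (Sum.elim (fun _ : B => j) cZ) := by
            rcases isEmpty_or_nonempty A' with hE | hNE
            · exact ⟨0, fun H _ h => absurd h (not_nonempty_iff.mpr hE)⟩
            · obtain ⟨N, hN⟩ := ih (Nat.le_of_succ_le hcK) A' (B ⊕ Z) cA'
                (Sum.elim (fun _ : B => j) cZ) (fun a => by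
                  have h1 := hlt a.1
                  have h2 : (cA a.1).val ≠ c := fun hcon => a.2 (Fin.ext hcon)
                  simp only [cA']
                  omega)
              exact ⟨N, fun H hH _ => hN H hH⟩
          obtain ⟨NA, hNA⟩ := hAN
          refine ⟨max (max (Fintype.card ((A' × Bool) ⊕ Z) + Fintype.card B) NA)
            (Finset.univ.sup NS), fun H hH => ?_⟩
          have h1 := RM_congr H e (Sum.elim cA' (fun _ : B => j)) cZ (RM_step H cA' j cZ
            (hH _ _ _ _ ((le_max_left _ _).trans (le_max_left _ _)))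
            (fun S hb hd => hNS S H (DECs_mono ((Finset.le_sup (Finset.mem_univ S)).trans
              (le_max_right _ _)) hH) hb hd)
            (hNA H (DECs_mono ((le_max_right _ _).trans (le_max_left _ _)) hH)))
          have h2 : (fun a => Sum.elim cA' (fun _ : B => j) (e a)) = cA := by
            have h3 : ∀ x : A' ⊕ B, Sum.elim cA' (fun _ : B => j) x = cA (e.symm x) := by
              rintro (a | b)
              · rfl
              · exact b.2.symm
            funext a
            rw [h3, Equiv.symm_apply_apply]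
          rw [h2] at h1
          exact h1
        · push Not at hmem
          refine ih (Nat.le_of_succ_le hcK) A Z cA cZ fun a => ?_
          have h1 := hlt a
          have h2 : (cA a).val ≠ c := fun hcon => hmem a (Fin.ext hcon)
          omega
    intro A Z _ _ _ _ cA cZ hlt
    exact inner _ A Z cA cZ hlt rfl

end RMP

theorem exists_RM {K : ℕ} {A Z : Type} [Fintype A] [DecidableEq A] [Nonempty A] [Fintype Z]
    (cA : A → Fin K) (cZ : Z → Fin K) :
    ∃ N : ℕ, ∀ H : Host (Fin K), H.DECs N → H.RM cA cZ :=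
  RMP.exists_RM_aux K le_rfl A Z cA cZ fun a => (cA a).isLt

end SPHK
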