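import Pool.Agent.SPHK.Host
import Pool.Agent.SPHK.DecAI

/-! Project SPHK, row RECT: density of rectangles in `L¹` of a finite measure, for a density. -/

set_option autoImplicit false

open MeasureTheory ProbabilityTheory Filter
open scoped ENNReal Topology

noncomputable section
namespace SPHK

/-- the rectangles -/
def rectSets (Ω V B : Type) [MeasurableSpace Ω] : Set (Set (((V → Ω) × (B → Ω)) × (B → Ω))) :=
  {S | ∃ (R0 : Set (V → Ω)) (R R' : B → Set Ω), MeasurableSet R0 ∧ (∀ v, MeasurableSet (R v)) ∧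
    (∀ v, MeasurableSet (R' v)) ∧ S = (R0 ×ˢ Set.univ.pi R) ×ˢ Set.univ.pi R'}

theorem rectSets_measurable {Ω V B : Type} [MeasurableSpace Ω] [Fintype B] :
    ∀ S ∈ rectSets Ω V B, MeasurableSet S := by
  rintro S ⟨R0, R, R', h0, h, h', rfl⟩
  exact (h0.prod (MeasurableSet.univ_pi h)).prod (MeasurableSet.univ_pi h')

theorem rectSets_pi {Ω V B : Type} [MeasurableSpace Ω] : IsPiSystem (rectSets Ω V B) := by
  rintro S ⟨R0, R, R', h0, h, h', rfl⟩ T ⟨Q0, Q, Q', k0, k, k', rfl⟩ _
  refine ⟨R0 ∩ Q0, fun v => R v ∩ Q v, fun v => R' v ∩ Q' v, h0.inter k0,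
    fun v => (h v).inter (k v), fun v => (h' v).inter (k' v), ?_⟩
  rw [Set.prod_inter_prod, Set.prod_inter_prod, Set.pi_inter_distrib, Set.pi_inter_distrib]

theorem rectSets_univ {Ω V B : Type} [MeasurableSpace Ω] : Set.univ ∈ rectSets Ω V B := by
  refine ⟨Set.univ, fun _ => Set.univ, fun _ => Set.univ, MeasurableSet.univ,
    fun _ => MeasurableSet.univ, fun _ => MeasurableSet.univ, ?_⟩
  simp

theorem rectSets_gen {Ω V B : Type} [MeasurableSpace Ω] [Fintype B] :
    (inferInstance : MeasurableSpace (((V → Ω) × (B → Ω)) × (B → Ω))) =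
      MeasurableSpace.generateFrom (rectSets Ω V B) := by
  classical
  refine le_antisymm ?_ (MeasurableSpace.generateFrom_le rectSets_measurable)
  have key : @Measurable _ _ (MeasurableSpace.generateFrom (rectSets Ω V B)) inferInstance
      (fun x : ((V → Ω) × (B → Ω)) × (B → Ω) => ((x.1.1, x.1.2), x.2)) := by
    refine Measurable.prodMk (Measurable.prodMk ?_ ?_) ?_
    · intro S hS
      refine MeasurableSpace.measurableSet_generateFrom ⟨S, fun _ => Set.univ, fun _ => Set.univ, hS,
        fun _ => MeasurableSet.univ, fun _ => MeasurableSet.univ, ?_⟩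
      ext x
      simp
    · refine (@measurable_pi_iff (((V → Ω) × (B → Ω)) × (B → Ω)) B (fun _ => Ω)
        (MeasurableSpace.generateFrom (rectSets Ω V B)) _ _).2 fun v => ?_
      intro S hS
      refine MeasurableSpace.measurableSet_generateFrom ⟨Set.univ,
        Function.update (fun _ => Set.univ) v S, fun _ => Set.univ, MeasurableSet.univ,
        fun w => ?_, fun _ => MeasurableSet.univ, ?_⟩
      · by_cases hw : w = v
        · subst hw; simpa using hS
        · simp [Function.update_of_ne hw]
      · ext x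
        simp only [Set.mem_preimage, Set.mem_prod, Set.mem_univ, Set.mem_pi, true_and,
          forall_const, implies_true, and_true]
        constructor
        · intro h w
          by_cases hw : w = v
          · subst hw; simpa using h
          · simp [Function.update_of_ne hw]
        · intro h
          simpa using h v
    · refine (@measurable_pi_iff (((V → Ω) × (B → Ω)) × (B → Ω)) B (fun _ => Ω)
        (MeasurableSpace.generateFrom (rectSets Ω V B)) _ _).2 fun v => ?_
      intro S hS
      refine MeasurableSpace.measurableSet_generateFrom ⟨Set.univ, fun _ => Set.univ,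
        Function.update (fun _ => Set.univ) v S, MeasurableSet.univ, fun _ => MeasurableSet.univ,
        fun w => ?_, ?_⟩
      · by_cases hw : w = v
        · subst hw; simpa using hS
        · simp [Function.update_of_ne hw]
      · ext x
        simp only [Set.mem_preimage, Set.mem_prod, Set.mem_univ, Set.mem_pi, true_and,
          forall_const, implies_true]
        constructor
        · intro h w
          by_cases hw : w = v
          · subst hw; simpa using h
          · simp [Function.update_of_ne hw]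
        · intro h
          simpa using h v
  intro S hS
  exact key hS

theorem rect_indicator {Ω V B : Type} [Fintype B] (R0 : Set (V → Ω)) (R R' : B → Set Ω)
    (x : ((V → Ω) × (B → Ω)) × (B → Ω)) :
    ((R0 ×ˢ Set.univ.pi R) ×ˢ Set.univ.pi R').indicator (fun _ => (1 : ℝ)) x =
      R0.indicator (fun _ => (1 : ℝ)) x.1.1 *
        (∏ v, (R v).indicator (fun _ => (1 : ℝ)) (x.1.2 v)) *
        (∏ v, (R' v).indicator (fun _ => (1 : ℝ)) (x.2 v)) := by
  classical
  have hprod : ∀ (Q : B → Set Ω) (y : B → Ω),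
      (∏ v, (Q v).indicator (fun _ => (1 : ℝ)) (y v)) =
        (Set.univ.pi Q).indicator (fun _ => (1 : ℝ)) y := by
    intro Q y
    by_cases hy : y ∈ Set.univ.pi Q
    · rw [Set.indicator_of_mem hy]
      refine Finset.prod_eq_one fun v _ => ?_
      exact Set.indicator_of_mem (hy v (Set.mem_univ v)) _
    · rw [Set.indicator_of_notMem hy]
      simp only [Set.mem_pi, Set.mem_univ, forall_const, not_forall] at hy
      obtain ⟨v, hv⟩ := hy
      exact Finset.prod_eq_zero (Finset.mem_univ v) (Set.indicator_of_notMem hv _)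
  rw [hprod, hprod]
  by_cases h1 : x.1.1 ∈ R0 <;> by_cases h2 : x.1.2 ∈ Set.univ.pi R <;>
    by_cases h3 : x.2 ∈ Set.univ.pi R' <;>
    simp only [Set.indicator, Set.mem_prod, h1, h2, h3] <;> norm_num

theorem exists_rect_approx {Ω : Type} [MeasurableSpace Ω] {V B : Type} [Fintype V] [Fintype B]
    (ν μ : Measure (((V → Ω) × (B → Ω)) × (B → Ω))) [IsProbabilityMeasure ν] [IsProbabilityMeasure μ]
    (hac : ν ≪ μ) (δ : ℝ) (hδ : 0 < δ) :
    ∃ (N : ℕ) (c : Fin N → ℝ) (R0 : Fin N → Set (V → Ω)) (R R' : Fin N → B → Set Ω),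
      (∀ t, MeasurableSet (R0 t)) ∧ (∀ t v, MeasurableSet (R t v)) ∧ (∀ t v, MeasurableSet (R' t v)) ∧
      ∀ Φ : ((V → Ω) × (B → Ω)) × (B → Ω) → ℝ, Bdd Φ →
        |∫ x, Φ x ∂ν - ∑ t, c t * ∫ x, Φ x * (R0 t).indicator (fun _ => (1 : ℝ)) x.1.1 *
          (∏ v, (R t v).indicator (fun _ => (1 : ℝ)) (x.1.2 v)) *
          (∏ v, (R' t v).indicator (fun _ => (1 : ℝ)) (x.2 v)) ∂μ| ≤ δ := by
  have hint : Integrable (fun x => (ν.rnDeriv μ x).toReal) μ := Measure.integrable_toReal_rnDeriv
  obtain ⟨T, _, c, S, hS, hT⟩ := Pool.Agent.SPHK.apx_integrable (μ := μ)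
    rectSets_measurable rectSets_pi rectSets_gen rectSets_univ hint δ hδ
  choose R0 R R' h0 h h' hSeq using hS
  let e := (Fintype.equivFin T).symm
  refine ⟨Fintype.card T, fun t => c (e t), fun t => R0 (e t), fun t => R (e t), fun t => R' (e t),
    fun t => h0 _, fun t => h _, fun t => h' _, fun Φ hΦ => ?_⟩
  have hsum : ∑ t : Fin (Fintype.card T), c (e t) *
      ∫ x, Φ x * (R0 (e t)).indicator (fun _ => (1 : ℝ)) x.1.1 *
          (∏ v, (R (e t) v).indicator (fun _ => (1 : ℝ)) (x.1.2 v)) *
          (∏ v, (R' (e t) v).indicator (fun _ => (1 : ℝ)) (x.2 v)) ∂μ =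
      ∫ x, Φ x * ∑ t, c t * (S t).indicator (fun _ => (1 : ℝ)) x ∂μ := by
    rw [e.sum_comp (fun t => c t *
      ∫ x, Φ x * (R0 t).indicator (fun _ => (1 : ℝ)) x.1.1 *
          (∏ v, (R t v).indicator (fun _ => (1 : ℝ)) (x.1.2 v)) *
          (∏ v, (R' t v).indicator (fun _ => (1 : ℝ)) (x.2 v)) ∂μ)]
    simp only [Finset.mul_sum]
    rw [integral_finsetSum]
    · refine Finset.sum_congr rfl fun t _ => ?_
      rw [← integral_const_mul]
      refine integral_congr_ae (Eventually.of_forall fun x => ?_)
      simp only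
      rw [hSeq t, rect_indicator]
      ring
    · intro t _
      have hi : Integrable (fun x => c t * (S t).indicator (fun _ => (1 : ℝ)) x) μ := by
        refine Integrable.const_mul ?_ _
        rw [hSeq t]
        exact (integrable_const (1 : ℝ)).indicator
          (((h0 t).prod (MeasurableSet.univ_pi (h t))).prod (MeasurableSet.univ_pi (h' t)))
      exact hi.bdd_mul hΦ.1.aestronglyMeasurable (Eventually.of_forall fun x => hΦ.2 x)
  rw [hsum, ← integral_rnDeriv_smul hac]
  have hcomb := Pool.Agent.SPHK.integrable_comb (μ := μ) (C := rectSets Ω V B)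
    rectSets_measurable c S (fun t => ⟨R0 t, R t, R' t, h0 t, h t, h' t, hSeq t⟩)
  rw [← integral_sub]
  · calc |∫ x, ((ν.rnDeriv μ x).toReal • Φ x -
            Φ x * ∑ t, c t * (S t).indicator (fun _ => (1 : ℝ)) x) ∂μ|
        ≤ ∫ x, |(ν.rnDeriv μ x).toReal • Φ x -
            Φ x * ∑ t, c t * (S t).indicator (fun _ => (1 : ℝ)) x| ∂μ :=
          abs_integral_le_integral_abs
      _ ≤ ∫ x, |(ν.rnDeriv μ x).toReal - ∑ t, c t * (S t).indicator (fun _ => (1 : ℝ)) x| ∂μ := by
          refine integral_mono_of_nonneg (Eventually.of_forall fun x => abs_nonneg _)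
            (hint.sub hcomb).abs (Eventually.of_forall fun x => ?_)
          simp only [smul_eq_mul]
          rw [show (ν.rnDeriv μ x).toReal * Φ x -
            Φ x * ∑ t, c t * (S t).indicator (fun _ => (1 : ℝ)) x =
            Φ x * ((ν.rnDeriv μ x).toReal -
              ∑ t, c t * (S t).indicator (fun _ => (1 : ℝ)) x) by ring, abs_mul]
          exact mul_le_of_le_one_left (abs_nonneg _) (hΦ.2 x)
      _ ≤ δ := hT
  · exact hint.mul_bdd hΦ.1.aestronglyMeasurable (Eventually.of_forall fun x => hΦ.2 x)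
  · exact hcomb.bdd_mul hΦ.1.aestronglyMeasurable (Eventually.of_forall fun x => hΦ.2 x)

end SPHK
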