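import Pool.Agent.SPHK.Host
import Pool.Agent.SPHK.WR

/-!
# Rows WR and US: weak regularity in the form of the skeleton, uniform structure
-/

set_option autoImplicit false

open MeasureTheory ProbabilityTheory Filter
open scoped ENNReal Topology

noncomputable section
namespace SPHK

open Pool.Agent.SPHK

/-! ROW WR -/

theorem weak_regularity {I : Type} [Fintype I] (β : ℝ) (hβ : 0 < β) :
    ∃ M : ℕ, ∀ (X : Type) [m0 : MeasurableSpace X] (μ : Measure X) [IsProbabilityMeasure μ]
      (MM : I → MeasurableSpace X) (_ : ∀ i, MM i ≤ m0) (p : X → ℝ) (_ : Bdd p),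
      ∃ (c : Fin M → ℝ) (C : Fin M → I → Set X), (∀ t, |c t| ≤ 1) ∧
        (∀ t i, MeasurableSet[MM i] (C t i)) ∧
        (∀ x, |∑ t, c t * ∏ i, (C t i).indicator (fun _ => (1 : ℝ)) x| ≤ 1) ∧
        ∀ r : I → X → ℝ, (∀ i, Measurable[MM i] (r i)) → (∀ i x, |r i x| ≤ 1) →
          |∫ x, (p x - ∑ t, c t * ∏ i, (C t i).indicator (fun _ => (1 : ℝ)) x) * ∏ i, r i x ∂μ| ≤ β := by
  obtain ⟨T, hT⟩ := weak_reg.{0} I β hβ
  exact ⟨T, fun X m0 μ _ MM hMM p hp => hT X μ MM hMM p hp.1 hp.2⟩

/-! ### Functions of some coordinates -/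

section coords

variable {ι Om : Type} [MeasurableSpace Om]

/-- The sigma algebra of the coordinates in the set `S`. -/
@[instance_reducible] def McoS (Om : Type) [MeasurableSpace Om] (S : Set ι) :
    MeasurableSpace (ι → Om) :=
  MeasurableSpace.comap (fun (y : ι → Om) (w : S) => y w) inferInstance

theorem McoS_le (S : Set ι) : McoS Om S ≤ (inferInstance : MeasurableSpace (ι → Om)) := by
  refine MeasurableSpace.comap_le_iff_le_map.mpr ?_
  have : Measurable (fun (y : ι → Om) (w : S) => y w) :=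
    measurable_pi_lambda _ fun w => measurable_pi_apply _
  exact this.le_map

open scoped Classical in
/-- Fill up with a constant. -/
def fillS (S : Set ι) (o : Om) (z : S → Om) : ι → Om :=
  fun v => if h : v ∈ S then z ⟨v, h⟩ else o

theorem measurable_fillS (S : Set ι) (o : Om) : Measurable (fillS S o) := by
  refine measurable_pi_lambda _ fun v => ?_
  unfold fillS
  by_cases h : v ∈ S
  · simp only [h, dif_pos]
    exact measurable_pi_apply _
  · simp only [h, dif_neg, not_false_eq_true]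
    exact measurable_const

omit [MeasurableSpace Om] in
theorem fillS_restrict (S : Set ι) (o : Om) (y : ι → Om) (v : ι) (hv : v ∈ S) :
    fillS S o (fun w : S => y w) v = y v := by
  simp [fillS, hv]

theorem measurable_McoS_of_dependsOn [Nonempty Om] {β : Type} [MeasurableSpace β] (S : Set ι)
    (r : (ι → Om) → β) (hr : Measurable r) (hd : DependsOn r S) : Measurable[McoS Om S] r := by
  have o : Om := Classical.arbitrary Om
  have heq : r = (fun z => r (fillS S o z)) ∘ (fun (y : ι → Om) (w : S) => y w) := by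
    funext y
    exact hd fun v hv => (fillS_restrict S o y v hv).symm
  rw [heq]
  exact (hr.comp (measurable_fillS S o)).comp (comap_measurable _)

theorem dependsOn_of_McoS (S : Set ι) (T : Set (ι → Om)) (hT : MeasurableSet[McoS Om S] T) :
    DependsOn (fun y => y ∈ T) S := by
  obtain ⟨V, _, rfl⟩ := hT
  intro y y' h
  have : (fun w : S => y w) = (fun w : S => y' w) := by
    funext w
    exact h w w.2
  simp only [Set.mem_preimage]
  rw [this]

end coords

/-- A permutation without fixed points. -/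
theorem exists_derangement {A : Type} [Fintype A] (hA : 2 ≤ Fintype.card A) :
    ∃ σ : A ≃ A, ∀ a, σ a ≠ a := by
  classical
  obtain ⟨n, hn⟩ : ∃ n, Fintype.card A = n + 2 := ⟨Fintype.card A - 2, by omega⟩
  have e : A ≃ Fin (n + 2) := Fintype.equivFinOfCardEq hn
  refine ⟨(e.trans (finRotate (n + 2))).trans e.symm, fun a h => ?_⟩
  have h1 : finRotate (n + 2) (e a) = e a := by
    have := congrArg e h
    simpa using this
  rw [finRotate_apply] at h1
  have h2 : (1 : Fin (n + 2)) = 0 := by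
    have := add_left_cancel (a := e a) (b := 1) (c := 0) (by rw [h1, add_zero])
    exact this
  exact absurd h2 (by simp)

variable {J : Type} (H : Host J)

/-! ROW US -/

theorem Host.us {A Z : Type} [Fintype A] [DecidableEq A] [Fintype Z] (cA : A → J) (cZ : Z → J)
    (hA : 2 ≤ Fintype.card A) (hRM : H.RM cA cZ) (ν : ℝ) (hν : 0 < ν) :
    ∃ M : ℕ, ∀ p : (A ⊕ Z → H.Om) → ℝ, Bdd p →
      ∃ (c : Fin M → ℝ) (C : Fin M → A → Set (A ⊕ Z → H.Om)), (∀ t, |c t| ≤ 1) ∧
        (∀ t a, MeasurableSet (C t a)) ∧ (∀ t a, DependsOn (fun y => y ∈ C t a) {i | i ≠ Sum.inl a}) ∧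
        (∀ y, |p y - ∑ t, c t * ∏ a, (C t a).indicator (fun _ => (1 : ℝ)) y| ≤ 2) ∧
        H.box cA cZ (fun y => p y - ∑ t, c t * ∏ a, (C t a).indicator (fun _ => (1 : ℝ)) y) ≤ ν := by
  set K : ℝ := 2 ^ Fintype.card (A → Bool) with hK
  have hK0 : 0 < K := by positivity
  obtain ⟨δ', hδ', N, R, hR, hRMh⟩ := hRM (ν / K) (by positivity)
  obtain ⟨M, hM⟩ := weak_regularity (I := A) δ' hδ'
  obtain ⟨σ, hσ⟩ := exists_derangement hA
  refine ⟨M, fun p hp => ?_⟩
  let MM : A → MeasurableSpace (A ⊕ Z → H.Om) := fun a => McoS H.Om {i | i ≠ Sum.inl a}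
  obtain ⟨c, C, hc, hC, hb, hcorr⟩ :=
    hM (A ⊕ Z → H.Om) (H.law (Sum.elim cA cZ)) MM (fun a => McoS_le _) p hp
  have hCm : ∀ t a, MeasurableSet (C t a) := fun t a => McoS_le _ _ (hC t a)
  set ps : (A ⊕ Z → H.Om) → ℝ := fun y => ∑ t, c t * ∏ a, (C t a).indicator (fun _ => (1 : ℝ)) y
    with hps
  have hpsm : Measurable ps := by
    refine Finset.measurable_fun_sum _ fun t _ => ?_
    exact measurable_const.mul (Finset.measurable_fun_prod _ fun a _ =>
      measurable_const.indicator (hCm t a))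
  have h2 : ∀ y, |p y - ps y| ≤ 2 := fun y =>
    (abs_sub _ _).trans (by linarith [hp.2 y, hb y])
  refine ⟨c, C, hc, hCm, fun t a => dependsOn_of_McoS _ _ (hC t a), h2, ?_⟩
  by_contra hbig
  push Not at hbig
  set h : (A ⊕ Z → H.Om) → ℝ := fun y => (p y - ps y) / 2 with hh
  have hB : Bdd h := by
    refine ⟨(hp.1.sub hpsm).div_const 2, fun y => ?_⟩
    rw [hh]
    show |(p y - ps y) / 2| ≤ 1
    rw [abs_div, abs_two, div_le_one (by norm_num)]
    exact h2 y
  have hbox : H.box cA cZ h = H.box cA cZ (fun y => p y - ps y) / K := by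
    unfold Host.box
    rw [← integral_div]
    refine integral_congr_ae (Eventually.of_forall fun y => ?_)
    show ∏ w : A → Bool, (p (pick w y) - ps (pick w y)) / 2 = _
    rw [Finset.prod_div_distrib, Finset.prod_const, Finset.card_univ, hK]
  have hge : ν / K ≤ H.box cA cZ h := by
    rw [hbox]
    exact (div_le_div_iff_of_pos_right hK0).mpr hbig.le
  obtain ⟨t, r, hr, hrd, hcor⟩ := hRMh h hB hge
  -- absorb the standard factors
  let r' : A → (A ⊕ Z → H.Om) → ℝ := fun a y =>
    r a y * (R t (σ a)).indicator (fun _ => (1 : ℝ)) (y (Sum.inl (σ a)))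
  have hind : ∀ a (o : H.Om), |(R t a).indicator (fun _ => (1 : ℝ)) o| ≤ 1 := by
    intro a o
    by_cases ho : o ∈ R t a <;> simp [ho]
  have hr'm : ∀ a, Measurable[MM a] (r' a) := by
    intro a
    refine measurable_McoS_of_dependsOn _ _ ?_ ?_
    · exact (hr a).1.mul ((measurable_const.indicator (hR t (σ a))).comp (measurable_pi_apply _))
    · intro y y' hy
      have e1 : r a y = r a y' := hrd a hy
      have e2 : y (Sum.inl (σ a)) = y' (Sum.inl (σ a)) := by
        refine hy _ ?_
        intro h3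
        exact hσ a (Sum.inl.inj h3)
      show r a y * _ = r a y' * _
      rw [e1, e2]
  have hr'b : ∀ a y, |r' a y| ≤ 1 := by
    intro a y
    show |r a y * _| ≤ 1
    rw [abs_mul]
    exact mul_le_one₀ ((hr a).2 y) (abs_nonneg _) (hind _ _)
  have h4 := hcorr r' hr'm hr'b
  have e3 : ∀ y, h y * (∏ a, (R t a).indicator (fun _ => (1 : ℝ)) (y (Sum.inl a))) *
      ∏ a, r a y = (1 / 2) * ((p y - ps y) * ∏ a, r' a y) := by
    intro y
    have e4 : ∏ a, r' a y = (∏ a, r a y) *
        ∏ a, (R t a).indicator (fun _ => (1 : ℝ)) (y (Sum.inl a)) := by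
      show ∏ a, (r a y * (R t (σ a)).indicator (fun _ => (1 : ℝ)) (y (Sum.inl (σ a)))) = _
      rw [Finset.prod_mul_distrib]
      congr 1
      exact Equiv.prod_comp σ (fun a => (R t a).indicator (fun _ => (1 : ℝ)) (y (Sum.inl a)))
    rw [e4, hh]
    ring
  simp_rw [e3] at hcor
  rw [integral_const_mul, abs_mul] at hcor
  have h5 : |(1 / 2 : ℝ)| = 1 / 2 := abs_of_pos (by norm_num)
  rw [h5] at hcor
  have h6 : |∫ y, (p y - ps y) * ∏ a, r' a y ∂H.law (Sum.elim cA cZ)| ≤ δ' := h4
  linarith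

end SPHK
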