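import Pool.Agent.SPHK.Gvn
import Pool.Agent.SPHK.US

/-! Project SPHK, row RED: replacement of the factors with bad support. -/

set_option autoImplicit false

open MeasureTheory ProbabilityTheory Filter
open scoped ENNReal Topology

noncomputable section
namespace SPHK

variable {J : Type} (H : Host J)

namespace RED

theorem bdd_one {X : Type} [MeasurableSpace X] : Bdd (fun _ : X => (1 : ℝ)) :=
  ⟨measurable_const, fun _ => by simp⟩

theorem bdd_mul {X : Type} [MeasurableSpace X] {f g : X → ℝ} (hf : Bdd f) (hg : Bdd g) :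
    Bdd (fun x => f x * g x) :=
  ⟨hf.1.mul hg.1, fun x => by
    rw [abs_mul]
    exact mul_le_one₀ (hf.2 x) (abs_nonneg _) (hg.2 x)⟩

theorem bdd_prod {X ι : Type} [MeasurableSpace X] (s : Finset ι) {f : ι → X → ℝ}
    (hf : ∀ i ∈ s, Bdd (f i)) : Bdd (fun x => ∏ i ∈ s, f i x) := by
  classical
  induction s using Finset.induction_on with
  | empty => simpa using bdd_one
  | insert a s ha ih =>
    simp only [Finset.prod_insert ha]
    exact bdd_mul (hf a (Finset.mem_insert_self a s))
      (ih fun i hi => hf i (Finset.mem_insert_of_mem hi))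

theorem bdd_indicator {X : Type} [MeasurableSpace X] {C : Set X} (hC : MeasurableSet C) :
    Bdd (C.indicator (fun _ => (1 : ℝ))) := by
  refine ⟨measurable_const.indicator hC, fun x => ?_⟩
  by_cases hx : x ∈ C
  · simp [Set.indicator_of_mem hx]
  · simp [Set.indicator_of_notMem hx]

theorem bdd_comp {X Y : Type} [MeasurableSpace X] [MeasurableSpace Y] {f : Y → ℝ} (hf : Bdd f)
    {φ : X → Y} (hφ : Measurable φ) : Bdd (fun x => f (φ x)) :=
  ⟨hf.1.comp hφ, fun _ => hf.2 _⟩

theorem integrable_of_bdd {X : Type} [MeasurableSpace X] (μ : Measure X) [IsFiniteMeasure μ]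
    {f : X → ℝ} (hf : Measurable f) {c : ℝ} (hc : ∀ x, |f x| ≤ c) : Integrable f μ :=
  Integrable.of_bound hf.aestronglyMeasurable c (Filter.Eventually.of_forall hc)

theorem dep_prod {ι O : Type} {α : Type} (s : Finset α) (f : α → (ι → O) → ℝ) (T : Set ι)
    (hf : ∀ a ∈ s, DependsOn (f a) T) : DependsOn (fun x => ∏ a ∈ s, f a x) T := by
  intro x y hxy
  exact Finset.prod_congr rfl fun a ha => hf a ha hxy

theorem dep_mul {ι O : Type} {f g : (ι → O) → ℝ} {T : Set ι}
    (hf : DependsOn f T) (hg : DependsOn g T) : DependsOn (fun x => f x * g x) T := by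
  intro x y hxy
  simp only [hf hxy, hg hxy]

section Emb

variable {V1 Z : Type} [DecidableEq V1] (S : Finset V1)

/-- the coordinates of `S` and `Z` -/
def emb : S ⊕ Z → V1 ⊕ Z := Sum.map Subtype.val id

/-- the coordinates of `S`, `Z` and the complement of `S` -/
def full : S ⊕ (Z ⊕ {v // v ∉ S}) → V1 ⊕ Z :=
  Sum.elim (fun a => Sum.inl a.1) (Sum.elim Sum.inr (fun v => Sum.inl v.1))

/-- the inverse of `full` -/
def inv : V1 ⊕ Z → S ⊕ (Z ⊕ {v // v ∉ S}) :=
  Sum.elim (fun v => if h : v ∈ S then Sum.inl ⟨v, h⟩ else Sum.inr (Sum.inr ⟨v, h⟩))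
    (fun z => Sum.inr (Sum.inl z))

theorem full_inv (x : V1 ⊕ Z) : full S (inv S x) = x := by
  rcases x with v | z
  · unfold inv full
    simp only [Sum.elim_inl]
    split_ifs with h <;> rfl
  · rfl

theorem inv_full (x : S ⊕ (Z ⊕ {v // v ∉ S})) : inv S (full S x) = x := by
  rcases x with a | z | v
  · unfold inv full
    simp only [Sum.elim_inl]
    rw [dif_pos a.2]
  · rfl
  · unfold inv full
    simp only [Sum.elim_inr, Sum.elim_inl]
    rw [dif_neg v.2]

theorem full_injective : Function.Injective (full S (Z := Z)) := fun x y h => by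
  rw [← inv_full S x, h, inv_full]

end Emb

/-- The main estimate: replacing the factor `p S` by its structured part. -/
theorem replace_le {V1 Z : Type} [Fintype V1] [DecidableEq V1] [Fintype Z] (cV : V1 → J)
    (cZ : Z → J) (S : Finset V1) (hS : S.Nonempty) (f : (S ⊕ Z → H.Om) → ℝ) (hf : Measurable f)
    (hf2 : ∀ x, |f x| ≤ 2) (g : S → (V1 ⊕ Z → H.Om) → ℝ) (hg : ∀ a, Bdd (g a))
    (hd : ∀ a : S, DependsOn (g a) {i | i ≠ Sum.inl a.1}) (ν : ℝ)
    (hbox : H.box (fun a : S => cV a.1) cZ f ≤ ν) :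
    |∫ y, f (fun i => y (emb S i)) * ∏ a, g a y ∂(H.law (Sum.elim cV cZ))| ^ (2 ^ S.card) ≤ ν := by
  have hne : Nonempty S := hS.to_subtype
  let cA : S → J := fun a => cV a.1
  let cC : {v // v ∉ S} → J := fun v => cV v.1
  let f' : (S ⊕ (Z ⊕ {v // v ∉ S}) → H.Om) → ℝ := fun y =>
    f (Sum.elim (fun a => y (Sum.inl a)) (fun z => y (Sum.inr (Sum.inl z))))
  have hf'm : Measurable f' := by
    refine hf.comp (measurable_pi_lambda _ fun v => ?_)
    rcases v with a | z
    · exact measurable_pi_apply _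
    · exact measurable_pi_apply _
  let G : (S ⊕ (Z ⊕ {v // v ∉ S}) → H.Om) → ℝ := fun y =>
    f' y * ∏ a, g a (fun x => y (inv S x))
  have hinv : Measurable (fun (y : S ⊕ (Z ⊕ {v // v ∉ S}) → H.Om) (x : V1 ⊕ Z) => y (inv S x)) :=
    measurable_pi_lambda _ fun x => measurable_pi_apply _
  have hGm : Measurable G := hf'm.mul (Finset.measurable_prod _ fun a _ => (hg a).1.comp hinv)
  have h1 := H.integral_marg (Sum.elim cV cZ) (full S) (full_injective S) G hGm
  have h2 : H.law (fun v' => (Sum.elim cV cZ) (full S v')) = H.law (Sum.elim cA (Sum.elim cZ cC)) := by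
    refine H.law_congr fun v => ?_
    rcases v with a | z | v <;> rfl
  have h3 : ∫ y, f (fun i => y (emb S i)) * ∏ a, g a y ∂(H.law (Sum.elim cV cZ))
      = ∫ y, G y ∂(H.law (Sum.elim cA (Sum.elim cZ cC))) := by
    rw [← h2, ← h1]
    refine integral_congr_ae (Filter.Eventually.of_forall fun y => ?_)
    simp only [G, f']
    congr 1
    · congr 1
      funext i
      rcases i with a | z <;> rfl
    · refine Finset.prod_congr rfl fun a _ => ?_
      congr 1
      funext x
      rw [full_inv]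
  rw [h3]
  have h4 := H.gvn cA (Sum.elim cZ cC) f' hf'm 2 (fun x => hf2 _)
    (fun a y => g a (fun x => y (inv S x))) (fun a => bdd_comp (hg a) hinv)
    (by
      intro a y y' hyy'
      refine hd a fun x hx => ?_
      refine hyy' _ ?_
      intro hcon
      apply hx
      have h5 := congrArg (full S) hcon
      rw [full_inv] at h5
      exact h5)
  rw [Fintype.card_coe] at h4
  refine h4.trans ?_
  rw [H.box_marg cA cZ cC f hf]
  exact hbox

end RED

open RED

theorem Host.red {V1 Z : Type} [Fintype V1] [DecidableEq V1] [Fintype Z] (cV : V1 → J) (cZ : Z → J)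
    (Bad Dom : Finset V1 → Prop) (hBad : ∀ S T, S ⊆ T → Bad S → Bad T)
    (hDom : ∀ S T, S ⊆ T → Dom T → Dom S) (h2 : ∀ S, Bad S → 2 ≤ S.card)
    (hRM : ∀ S : Finset V1, Bad S → Dom S → H.RM (A := S) (fun a => cV a.1) cZ)
    {Wt : Type} [Fintype Wt] (T : Wt → Finset V1) (hT : ∀ w, ¬ Bad (T w)) (δ : ℝ) (hδ : 0 < δ) :
    ∃ δ' : ℝ, 0 < δ' ∧ ∀ (h : Wt → (V1 ⊕ Z → H.Om) → ℝ) (p : Finset V1 → (V1 ⊕ Z → H.Om) → ℝ),
      (∀ w, Bdd (h w)) → (∀ S, Bdd (p S)) →
      (∀ w, DependsOn (h w) (Sum.elim (fun v => v ∈ T w) (fun _ => True))) →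
      (∀ S, DependsOn (p S) (Sum.elim (fun v => v ∈ S) (fun _ => True))) →
      (∀ S, ¬ Dom S → p S = fun _ => 1) →
      δ ≤ |∫ y, (∏ w, h w y) * ∏ S, p S y ∂(H.law (Sum.elim cV cZ))| →
      ∃ q : Finset V1 → (V1 ⊕ Z → H.Om) → ℝ, (∀ S, Bdd (q S)) ∧
        (∀ S, DependsOn (q S) (Sum.elim (fun v => v ∈ S) (fun _ => True))) ∧
        (∀ S, (Bad S ∨ ¬ Dom S) → q S = fun _ => 1) ∧
        δ' ≤ |∫ y, (∏ w, h w y) * ∏ S, q S y ∂(H.law (Sum.elim cV cZ))| := by
  classical
  suffices key : ∀ (n : ℕ) (𝓐 : Finset (Finset V1)), 𝓐.card = n → (∀ S ∈ 𝓐, Bad S ∧ Dom S) →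
      (∀ S ∈ 𝓐, ∀ S', S' ⊂ S → Bad S' → S' ∈ 𝓐) → ∀ δ : ℝ, 0 < δ →
      ∃ δ' : ℝ, 0 < δ' ∧ ∀ (h : Wt → (V1 ⊕ Z → H.Om) → ℝ) (p : Finset V1 → (V1 ⊕ Z → H.Om) → ℝ),
      (∀ w, Bdd (h w)) → (∀ S, Bdd (p S)) →
      (∀ w, DependsOn (h w) (Sum.elim (fun v => v ∈ T w) (fun _ => True))) →
      (∀ S, DependsOn (p S) (Sum.elim (fun v => v ∈ S) (fun _ => True))) →
      (∀ S, S ∉ 𝓐 → (Bad S ∨ ¬ Dom S) → p S = fun _ => 1) →
      δ ≤ |∫ y, (∏ w, h w y) * ∏ S, p S y ∂(H.law (Sum.elim cV cZ))| →
      ∃ q : Finset V1 → (V1 ⊕ Z → H.Om) → ℝ, (∀ S, Bdd (q S)) ∧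
        (∀ S, DependsOn (q S) (Sum.elim (fun v => v ∈ S) (fun _ => True))) ∧
        (∀ S, (Bad S ∨ ¬ Dom S) → q S = fun _ => 1) ∧
        δ' ≤ |∫ y, (∏ w, h w y) * ∏ S, q S y ∂(H.law (Sum.elim cV cZ))| by
    obtain ⟨δ', hδ', hk⟩ := key _ (Finset.univ.filter fun S => Bad S ∧ Dom S) rfl
      (fun S hS => (Finset.mem_filter.mp hS).2)
      (fun S hS S' hS' hb => Finset.mem_filter.mpr ⟨Finset.mem_univ _, hb,
        hDom _ _ hS'.1 (Finset.mem_filter.mp hS).2.2⟩) δ hδ
    refine ⟨δ', hδ', fun h p h1 h3 h4 h5 h6 h7 => hk h p h1 h3 h4 h5 (fun S hS hS2 => ?_) h7⟩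
    apply h6
    intro hD
    rcases hS2 with hB | hD'
    · exact hS (Finset.mem_filter.mpr ⟨Finset.mem_univ _, hB, hD⟩)
    · exact hD' hD
  intro n
  induction n with
  | zero =>
    intro 𝓐 h𝓐 _ _ δ hδ
    refine ⟨δ, hδ, fun h p h1 h3 h4 h5 h6 h7 => ⟨p, h3, h5, fun S hS => h6 S ?_ hS, h7⟩⟩
    rw [Finset.card_eq_zero.mp h𝓐]
    exact Finset.notMem_empty S
  | succ n ih =>
    intro 𝓐 h𝓐 hbd hdown δ hδ
    -- a set of maximal size
    have hne : 𝓐.Nonempty := by
      rw [← Finset.card_pos]
      omega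
    obtain ⟨S, hS𝓐, hmax⟩ := Finset.exists_max_image 𝓐 Finset.card hne
    obtain ⟨hSB, hSD⟩ := hbd S hS𝓐
    have hS2 : 2 ≤ S.card := h2 S hSB
    have hSne : S.Nonempty := Finset.card_pos.mp (by omega)
    have hcard : 2 ≤ Fintype.card S := by rw [Fintype.card_coe]; exact hS2
    let ν : ℝ := (δ / 2) ^ (2 ^ S.card)
    have hν : 0 < ν := pow_pos (by linarith) _
    obtain ⟨M, hM⟩ := H.us (fun a : S => cV a.1) cZ hcard (hRM S hSB hSD) ν hν
    have hδ1 : 0 < δ / (2 * (M + 1)) := by positivity
    obtain ⟨δ', hδ', hk⟩ := ih (𝓐.erase S) (by rw [Finset.card_erase_of_mem hS𝓐, h𝓐]; rfl)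
      (fun S' hS' => hbd S' (Finset.mem_of_mem_erase hS'))
      (fun S' hS' S'' hS'' hb => by
        refine Finset.mem_erase.mpr ⟨?_, hdown S' (Finset.mem_of_mem_erase hS') S'' hS'' hb⟩
        rintro rfl
        have h1 := hmax S' (Finset.mem_of_mem_erase hS')
        have h3 := Finset.card_lt_card hS''
        omega) (δ / (2 * (M + 1))) hδ1
    refine ⟨δ', hδ', fun h p h1 h3 h4 h5 h6 h7 => ?_⟩
    -- the factor `p S` as a function of the coordinates in `S` and `Z`
    obtain ⟨o⟩ : Nonempty H.Om := inferInstance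
    let ext : (S ⊕ Z → H.Om) → (V1 ⊕ Z → H.Om) := fun x =>
      Sum.elim (fun v => if h : v ∈ S then x (Sum.inl ⟨v, h⟩) else o) (fun z => x (Sum.inr z))
    have hext : Measurable ext := by
      refine measurable_pi_lambda _ fun v => ?_
      rcases v with v | z
      · simp only [ext, Sum.elim_inl]
        split_ifs with hv
        · exact measurable_pi_apply _
        · exact measurable_const
      · exact measurable_pi_apply _
    have hemb : Measurable (fun (y : V1 ⊕ Z → H.Om) (i : S ⊕ Z) => y (emb S i)) :=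
      measurable_pi_lambda _ fun i => measurable_pi_apply _
    let pt : (S ⊕ Z → H.Om) → ℝ := fun x => p S (ext x)
    have hpt : ∀ y : V1 ⊕ Z → H.Om, pt (fun i => y (emb S i)) = p S y := by
      intro y
      refine h5 S fun v hv => ?_
      rcases v with v | z
      · have hv' : v ∈ S := hv
        simp only [ext, Sum.elim_inl, dif_pos hv']
        rfl
      · rfl
    obtain ⟨c, C, hc, hCm, hCd, hC2, hCbox⟩ := hM pt (bdd_comp (h3 S) hext)
    let st : Fin M → (S ⊕ Z → H.Om) → ℝ := fun t x => ∏ a, (C t a).indicator (fun _ => (1 : ℝ)) x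
    have hst : ∀ t, Bdd (st t) := fun t => bdd_prod _ fun a _ => bdd_indicator (hCm t a)
    let f : (S ⊕ Z → H.Om) → ℝ := fun x => pt x - ∑ t, c t * st t x
    have hfm : Measurable f := by
      refine ((bdd_comp (h3 S) hext).1).sub (Finset.measurable_sum _ fun t _ => ?_)
      exact measurable_const.mul (hst t).1
    -- the other factors
    let R : (V1 ⊕ Z → H.Om) → ℝ := fun y => (∏ w, h w y) * ∏ S' ∈ Finset.univ.erase S, p S' y
    have hR : Bdd R := bdd_mul (bdd_prod _ fun w _ => h1 w) (bdd_prod _ fun S' _ => h3 S')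
    have hσw : ∀ w, ∃ a : S, a.1 ∉ T w := by
      intro w
      by_contra hcon
      push Not at hcon
      exact hT w (hBad S (T w) (fun a ha => hcon ⟨a, ha⟩) hSB)
    choose σw hσw using hσw
    have hσs : ∀ S', ∃ a : S, S' ≠ S → DependsOn (p S') {i | i ≠ Sum.inl a.1} := by
      intro S'
      by_cases hsub : S ⊆ S'
      · obtain ⟨a0, ha0⟩ := hSne
        refine ⟨⟨a0, ha0⟩, fun hne' => ?_⟩
        have h8 : S' ∉ 𝓐 := by
          intro h9
          have h10 := hmax S' h9
          exact hne' (Finset.eq_of_subset_of_card_le hsub h10).symm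
        rw [h6 S' h8 (Or.inl (hBad S S' hsub hSB))]
        intro _ _ _
        rfl
      · obtain ⟨a, ha, ha'⟩ := Finset.not_subset.mp hsub
        refine ⟨⟨a, ha⟩, fun _ => ?_⟩
        intro y y' hyy'
        refine h5 S' fun v hv => hyy' v ?_
        rintro rfl
        exact ha' hv
    choose σs hσs using hσs
    let g : S → (V1 ⊕ Z → H.Om) → ℝ := fun a y =>
      (∏ w ∈ Finset.univ.filter (fun w => σw w = a), h w y) *
        ∏ S' ∈ (Finset.univ.erase S).filter (fun S' => σs S' = a), p S' y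
    have hg : ∀ a, Bdd (g a) := fun a =>
      bdd_mul (bdd_prod _ fun w _ => h1 w) (bdd_prod _ fun S' _ => h3 S')
    have hgd : ∀ a : S, DependsOn (g a) {i | i ≠ Sum.inl a.1} := by
      intro a
      refine dep_mul (dep_prod _ _ _ fun w hw => ?_) (dep_prod _ _ _ fun S' hS' => ?_)
      · intro y y' hyy'
        refine h4 w fun v hv => hyy' v ?_
        rintro rfl
        have h8 : a.1 ∈ T w := hv
        have h9 := (Finset.mem_filter.mp hw).2
        exact hσw w (by rw [h9]; exact h8)
      · obtain ⟨h8, h9⟩ := Finset.mem_filter.mp hS'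
        rw [← h9]
        exact hσs S' (Finset.ne_of_mem_erase h8)
    have hgR : ∀ y, ∏ a, g a y = R y := by
      intro y
      simp only [g, R]
      rw [Finset.prod_mul_distrib]
      congr 1
      · exact Finset.prod_fiberwise _ _ _
      · exact Finset.prod_fiberwise _ _ _
    have hsmall : |∫ y, f (fun i => y (emb S i)) * R y ∂(H.law (Sum.elim cV cZ))| ≤ δ / 2 := by
      have h8 := replace_le H cV cZ S hSne f hfm hC2 g hg hgd ν hCbox
      simp only [hgR] at h8
      exact le_of_pow_le_pow_left₀ (by positivity) (by linarith) h8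
    have hsplit : ∫ y, (∏ w, h w y) * ∏ S, p S y ∂(H.law (Sum.elim cV cZ))
        = ∫ y, f (fun i => y (emb S i)) * R y ∂(H.law (Sum.elim cV cZ))
          + ∑ t, c t * ∫ y, st t (fun i => y (emb S i)) * R y ∂(H.law (Sum.elim cV cZ)) := by
      have hint : ∀ t, Integrable (fun y : V1 ⊕ Z → H.Om => c t * (st t (fun i => y (emb S i)) * R y))
          (H.law (Sum.elim cV cZ)) := fun t =>
        (integrable_of_bdd _ (bdd_mul (bdd_comp (hst t) hemb) hR).1
          (bdd_mul (bdd_comp (hst t) hemb) hR).2).const_mul _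
      have h8 : ∑ t, c t * ∫ y, st t (fun i => y (emb S i)) * R y ∂(H.law (Sum.elim cV cZ))
          = ∫ y, ∑ t, c t * (st t (fun i => y (emb S i)) * R y) ∂(H.law (Sum.elim cV cZ)) := by
        rw [integral_finsetSum _ fun t _ => hint t]
        refine Finset.sum_congr rfl fun t _ => ?_
        rw [integral_const_mul]
      have hint2 : Integrable (fun y : V1 ⊕ Z → H.Om => f (fun i => y (emb S i)) * R y)
          (H.law (Sum.elim cV cZ)) := by
        refine integrable_of_bdd _ ((hfm.comp hemb).mul hR.1) (c := 2) fun y => ?_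
        rw [abs_mul]
        calc |f (fun i => y (emb S i))| * |R y| ≤ 2 * 1 :=
              mul_le_mul (hC2 (fun i => y (emb S i))) (hR.2 y) (abs_nonneg _) (by norm_num)
          _ = 2 := by norm_num
      rw [h8, ← integral_add hint2 (integrable_finsetSum _ fun t _ => hint t)]
      refine integral_congr_ae (Filter.Eventually.of_forall fun y => ?_)
      simp only [f, hpt]
      rw [← Finset.mul_prod_erase _ _ (Finset.mem_univ S)]
      simp only [R, sub_mul, Finset.sum_mul, mul_assoc]
      ring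
    obtain ⟨t, ht⟩ : ∃ t, δ / (2 * (M + 1))
        ≤ |∫ y, st t (fun i => y (emb S i)) * R y ∂(H.law (Sum.elim cV cZ))| := by
      by_contra hcon
      push Not at hcon
      have h8 : |∑ t, c t * ∫ y, st t (fun i => y (emb S i)) * R y ∂(H.law (Sum.elim cV cZ))|
          ≤ M * (δ / (2 * (M + 1))) := by
        refine (Finset.abs_sum_le_sum_abs _ _).trans ?_
        refine (Finset.sum_le_card_nsmul _ _ (δ / (2 * (M + 1))) fun t _ => ?_).trans ?_
        · rw [abs_mul]
          calc |c t| * |∫ y, st t (fun i => y (emb S i)) * R y ∂(H.law (Sum.elim cV cZ))|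
              ≤ 1 * (δ / (2 * (M + 1))) :=
                mul_le_mul (hc t) (hcon t).le (abs_nonneg _) (by norm_num)
            _ = _ := one_mul _
        · simp
      have h9 : M * (δ / (2 * ((M : ℝ) + 1))) < δ / 2 := by
        rw [mul_div_assoc', div_lt_div_iff₀ (by positivity) (by norm_num)]
        nlinarith
      rw [hsplit] at h7
      have h10 := abs_add_le (∫ y, f (fun i => y (emb S i)) * R y ∂(H.law (Sum.elim cV cZ)))
        (∑ t, c t * ∫ y, st t (fun i => y (emb S i)) * R y ∂(H.law (Sum.elim cV cZ)))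
      linarith
    -- the new family
    let p' : Finset V1 → (V1 ⊕ Z → H.Om) → ℝ := fun S' => if S' = S then fun _ => 1 else fun y =>
      p S' y * ∏ a ∈ (Finset.univ : Finset S).filter (fun a => S.erase a.1 = S'),
        (C t a).indicator (fun _ => (1 : ℝ)) (fun i => y (emb S i))
    have hp' : ∀ S', Bdd (p' S') := by
      intro S'
      by_cases hSS : S' = S
      · simp only [p', if_pos hSS]
        exact bdd_one
      · simp only [p', if_neg hSS]
        exact bdd_mul (h3 S') (bdd_prod _ fun a _ => bdd_comp (bdd_indicator (hCm t a)) hemb)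
    have hp'd : ∀ S', DependsOn (p' S') (Sum.elim (fun v => v ∈ S') (fun _ => True)) := by
      intro S'
      by_cases hSS : S' = S
      · simp only [p', if_pos hSS]
        intro _ _ _
        rfl
      · simp only [p', if_neg hSS]
        refine dep_mul (h5 S') (dep_prod _ _ _ fun a ha => ?_)
        have ha' := (Finset.mem_filter.mp ha).2
        intro y y' hyy'
        have h8 := hCd t a (x := fun i => y (emb S i)) (y := fun i => y' (emb S i)) (by
          intro i hi
          rcases i with b | z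
          · refine hyy' (Sum.inl b.1) ?_
            change b.1 ∈ S'
            rw [← ha']
            refine Finset.mem_erase.mpr ⟨fun h9 => hi ?_, b.2⟩
            rw [Subtype.ext h9]
          · exact hyy' (Sum.inr z) trivial)
        by_cases h9 : (fun i => y (emb S i)) ∈ C t a
        · have h10 : (fun i => y' (emb S i)) ∈ C t a := h8.mp h9
          simp only [Set.indicator_of_mem h9, Set.indicator_of_mem h10]
        · have h10 : (fun i => y' (emb S i)) ∉ C t a := fun h11 => h9 (h8.mpr h11)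
          simp only [Set.indicator_of_notMem h9, Set.indicator_of_notMem h10]
    have hp'1 : ∀ S', S' ∉ 𝓐.erase S → (Bad S' ∨ ¬ Dom S') → p' S' = fun _ => 1 := by
      intro S' h8 h9
      by_cases hSS : S' = S
      · simp only [p', if_pos hSS]
      · simp only [p', if_neg hSS]
        have h10 : S' ∉ 𝓐 := fun h11 => h8 (Finset.mem_erase.mpr ⟨hSS, h11⟩)
        rw [h6 S' h10 h9]
        have h11 : (Finset.univ : Finset S).filter (fun a => S.erase a.1 = S') = ∅ := by
          rw [Finset.filter_eq_empty_iff]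
          intro a _ ha
          have h12 : S' ⊂ S := by
            rw [← ha]
            exact Finset.erase_ssubset a.2
          rcases h9 with h13 | h13
          · exact h10 (hdown S hS𝓐 S' h12 h13)
          · exact h13 (hDom S' S h12.1 hSD)
        rw [h11]
        simp
    have hval : ∫ y, (∏ w, h w y) * ∏ S, p' S y ∂(H.law (Sum.elim cV cZ))
        = ∫ y, st t (fun i => y (emb S i)) * R y ∂(H.law (Sum.elim cV cZ)) := by
      refine integral_congr_ae (Filter.Eventually.of_forall fun y => ?_)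
      simp only
      have h8 : ∏ S', p' S' y = ∏ S' ∈ Finset.univ.erase S, (p S' y *
          ∏ a ∈ (Finset.univ : Finset S).filter (fun a => S.erase a.1 = S'),
            (C t a).indicator (fun _ => (1 : ℝ)) (fun i => y (emb S i))) := by
        rw [← Finset.mul_prod_erase _ _ (Finset.mem_univ S)]
        simp only [p', if_true, one_mul]
        refine Finset.prod_congr rfl fun S' hS' => ?_
        rw [if_neg (Finset.ne_of_mem_erase hS')]
      have h9 : ∏ S' ∈ Finset.univ.erase S,
          ∏ a ∈ (Finset.univ : Finset S).filter (fun a => S.erase a.1 = S'),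
            (C t a).indicator (fun _ => (1 : ℝ)) (fun i => y (emb S i))
          = st t (fun i => y (emb S i)) := by
        simp only [st]
        rw [Finset.prod_fiberwise_of_maps_to]
        intro a _
        exact Finset.mem_erase.mpr ⟨(Finset.erase_ssubset a.2).ne, Finset.mem_univ _⟩
      rw [h8, Finset.prod_mul_distrib, h9]
      simp only [R]
      ring
    exact hk h p' h1 hp' h4 hp'd hp'1 (by rw [hval]; exact ht)

end SPHK
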