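import Pool.Agent.SPHK.LexK
import Pool.Agent.SPHK.ACM
import Pool.Agent.SPHK.FinCore

/-! Project SPHK (MP_f7e9f1_co): what the spherical host provides for the final assembly. -/

set_option autoImplicit false

open MeasureTheory Set Metric
open scoped ENNReal NNReal Topology

noncomputable section
namespace Pool.Agent.SPHK

open SPH

namespace SData

/-- the dimension is large because of the orthonormal family -/
theorem n_le {n d q : ℕ} (S : SData n d q) : n ≤ d := by
  classical
  have h1 := S.hG.linearIndependent.fintype_card_le_finrank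
  have h2 : Fintype.card (Fin (n + 1)) ≤ Fintype.card ((Cl n × Cl n) ⊕ (Cl n × Fin (q + 1))) := by
    refine Fintype.card_le_of_injective
      (fun i : Fin (n + 1) => Sum.inr (((i, none) : Cl n), (0 : Fin (q + 1)))) ?_
    intro i i' h
    simpa using h
  rw [Fintype.card_fin] at h2
  have h3 : Module.finrank ℝ (E d) = d + 1 := by simp
  rw [h3] at h1
  omega

end SData

/-- the interface of the final assembly from the absolute continuity statement for single
vertices -/
theorem sphOK_of_ace1s (n : ℕ)
    (h : ∀ N : ℕ, ∃ q : ℕ, ∀ (d : ℕ) (S : SData n d q), S.host.ACe1s N) :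
    _root_.SPHK.SphOK n := by
  intro N
  obtain ⟨q, hq⟩ := h (2 * N)
  refine ⟨q, fun d S F0 => ⟨S.host, S.pt, S.host.decs_of_ace1 N (hq d S), S.measurable_pt,
    S.dependsOn_pt, S.lex_pt F0 (fun _ => rfl), fun i => S.keyAt S.n_le i⟩⟩

end Pool.Agent.SPHK
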