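import Pool.Agent.SPHK.Proj
import Pool.Agent.SPHK.House

/-! Project SPHK (MP_f7e9f1_co), row STEP (B.4): the replacement of one frame vector, for fixed base
vectors. -/

set_option autoImplicit false

open MeasureTheory Set Filter SPH Module
open scoped ENNReal NNReal Topology

noncomputable section
namespace SPHK

theorem coe_dirn {d : ℕ} {V : Submodule ℝ (E d)} (y : V) : ((dirn y : V) : E d) = dirn (y : E d) :=
  rfl

/-- ONE STEP, geometric form. U = span of the base frame vectors, α = the label vectors. A set G of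
unit vectors of Uᗮ which only depends on the inner products with the α j and which is null for the
uniform law is null for the law of Y = z1 + D ξ + (a part orthogonal to everything). -/
theorem step_core {d : ℕ} (U : Submodule ℝ (E d)) {κ : Type*} [Fintype κ] (α : κ → E d)
    (hdim : finrank ℝ U + Fintype.card κ < d + 1) {G : Set (E d)} (hG : MeasurableSet G)
    (hsat : ∀ x x' : E d, ‖x‖ = 1 → ‖x'‖ = 1 → x ∈ Uᗮ → x' ∈ Uᗮ →
      (∀ j, inner ℝ x (α j) = inner ℝ x' (α j)) → x ∈ G → x' ∈ G)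
    (h0 : ∀ᵐ x : E d, dirn (Uᗮ.starProjection x) ∉ G)
    {J : Type*} [Fintype J] (D : (J → ℝ) →ₗ[ℝ] E d) (hDU : ∀ x, D x ∈ Uᗮ)
    (hDs : ∀ w ∈ Uᗮ, ∃ x, ∀ j, inner ℝ (D x) (α j) = inner ℝ w (α j)) (z1 : E d)
    {Om : Type*} [MeasurableSpace Om] {P : Measure Om} (ξ : Om → (J → ℝ))
    (hξ : ∀ N : Set (J → ℝ), MeasurableSet N → volume N = 0 → ∀ᵐ w ∂P, ξ w ∉ N)
    (Y R : Om → E d) (hY1 : ∀ᵐ w ∂P, ‖Y w‖ = 1) (hYU : ∀ᵐ w ∂P, Y w ∈ Uᗮ)
    (hYR : ∀ᵐ w ∂P, Y w = z1 + D (ξ w) + R w)
    (hRU : ∀ᵐ w ∂P, R w ∈ Uᗮ) (hRα : ∀ᵐ w ∂P, ∀ j, inner ℝ (R w) (α j) = 0) :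
    ∀ᵐ w ∂P, Y w ∉ G := by
  classical
  set V : Submodule ℝ (E d) := Uᗮ with hV
  let pα : κ → V := fun j => V.orthogonalProjectionOnto (α j)
  have hpα : ∀ (θ : V) (j : κ), inner ℝ θ (pα j) = inner ℝ (θ : E d) (α j) := by
    intro θ j
    exact Submodule.inner_orthogonalProjectionOnto_eq_of_mem_left θ (α j)
  let W : Submodule ℝ V := Submodule.span ℝ (range pα)
  have hWfin : finrank ℝ W ≤ Fintype.card κ := finrank_range_le_card (R := ℝ) pα
  have hVfin : finrank ℝ U + finrank ℝ V = d + 1 := by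
    have h1 := Submodule.finrank_add_finrank_orthogonal U
    rw [h1]
    simp
  have hWne : Wᗮ ≠ ⊥ := by
    intro h
    rw [Submodule.orthogonal_eq_bot_iff] at h
    have h2 : finrank ℝ W = finrank ℝ V := by rw [h, finrank_top]
    omega
  have hmemW : ∀ j, pα j ∈ W := fun j => Submodule.subset_span ⟨j, rfl⟩
  -- the projection to W is determined by the inner products
  have hPW : ∀ (θ : V) (j : κ), inner ℝ (W.orthogonalProjectionOnto θ : V) (pα j) =
      inner ℝ (θ : E d) (α j) := by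
    intro θ j
    rw [← hpα]
    exact Submodule.inner_orthogonalProjectionOnto_eq_of_mem_right (⟨pα j, hmemW j⟩ : W) θ
  have huniq : ∀ w w' : W, (∀ j, inner ℝ (w : V) (pα j) = inner ℝ (w' : V) (pα j)) → w = w' := by
    intro w w' h
    have h1 : ∀ u ∈ W, inner ℝ ((w : V) - (w' : V)) u = 0 := by
      intro u hu
      induction hu using Submodule.span_induction with
      | mem u hu =>
        obtain ⟨j, rfl⟩ := hu
        rw [inner_sub_left, h j, sub_self]
      | zero => simp
      | add a b _ _ ha hb => rw [inner_add_right, ha, hb, add_zero]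
      | smul r a _ ha => rw [inner_smul_right, ha, mul_zero]
    have h2 := h1 _ (W.sub_mem w.2 w'.2)
    rw [inner_self_eq_zero, sub_eq_zero] at h2
    exact Subtype.ext h2
  have hVself : ∀ y : E d, y ∈ V → ((V.orthogonalProjectionOnto y : V) : E d) = y := by
    intro y hy
    exact Submodule.starProjection_eq_self_iff.mpr hy
  -- the set G in V
  set G' : Set V := {θ | (θ : E d) ∈ G} with hG'
  have hG'm : MeasurableSet G' := measurable_subtype_coe hG
  have hsat' : ∀ θ θ' : V, ‖θ‖ = 1 → ‖θ'‖ = 1 →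
      W.orthogonalProjectionOnto θ = W.orthogonalProjectionOnto θ' → θ ∈ G' → θ' ∈ G' := by
    intro θ θ' h1 h2 h3 h4
    refine hsat (θ : E d) (θ' : E d) h1 h2 θ.2 θ'.2 (fun j => ?_) h4
    rw [← hPW, ← hPW, h3]
  have h0' : ∀ᵐ x : V, dirn x ∉ G' := by
    have hL : Function.Surjective (V.orthogonalProjectionOnto : E d →L[ℝ] V).toLinearMap := by
      intro y
      exact ⟨(y : E d), Submodule.orthogonalProjectionOnto_mem_subspace_eq_self y⟩
    have hS : MeasurableSet {x : V | dirn x ∉ G'} := (measurable_dirn hG'm).compl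
    have h1 := ae_comp_linearMap_mem_iff (L := (V.orthogonalProjectionOnto : E d →L[ℝ] V).toLinearMap)
      (volume : Measure (E d)) (volume : Measure V) hL hS
    refine h1.mp ?_
    filter_upwards [h0] with x hx
    exact hx
  -- the map Y
  set Y' : Om → V := fun w => V.orthogonalProjectionOnto (Y w) with hY'
  have hYY' : ∀ᵐ w ∂P, ((Y' w : V) : E d) = Y w := by
    filter_upwards [hYU] with w hw
    exact hVself _ hw
  have hY1' : ∀ᵐ w ∂P, ‖Y' w‖ = 1 := by
    filter_upwards [hYY', hY1] with w h1 h2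
    rw [← h2, ← h1]
    rfl
  let M : (J → ℝ) →ₗ[ℝ] W := (W.orthogonalProjectionOnto : V →L[ℝ] W).toLinearMap ∘ₗ
    (V.orthogonalProjectionOnto : E d →L[ℝ] V).toLinearMap ∘ₗ D
  have hMe : ∀ x, M x = W.orthogonalProjectionOnto (V.orthogonalProjectionOnto (D x)) := fun x => rfl
  have hM : Function.Surjective M := by
    intro w
    obtain ⟨x, hx⟩ := hDs ((w : V) : E d) (w : V).2
    refine ⟨x, huniq _ _ fun j => ?_⟩
    rw [hMe, hPW, hVself _ (hDU x), hx, hpα]
  set w0 : W := W.orthogonalProjectionOnto (V.orthogonalProjectionOnto z1) with hw0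
  have hYM : ∀ᵐ w ∂P, W.orthogonalProjectionOnto (Y' w) = w0 + M (ξ w) := by
    filter_upwards [hYR, hRU, hRα] with w h1 h2 h3
    have h4 : W.orthogonalProjectionOnto (V.orthogonalProjectionOnto (R w)) = 0 := by
      refine huniq _ _ fun j => ?_
      rw [hPW, hVself _ h2, h3 j]
      simp
    rw [hY']
    simp only
    rw [h1, map_add, map_add, map_add, map_add, h4, add_zero, hMe, hw0]
  have hYac : ∀ N : Set W, MeasurableSet N → volume N = 0 →
      ∀ᵐ w ∂P, W.orthogonalProjectionOnto (Y' w) ∉ N := by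
    intro N hN hN0
    have hMm : Measurable M := (M.continuous_of_finiteDimensional).measurable
    have hN' : MeasurableSet ((fun y : W => w0 + y) ⁻¹' N) := (measurable_const_add w0) hN
    have hN0' : volume ((fun y : W => w0 + y) ⁻¹' N) = 0 := by rw [measure_preimage_add]; exact hN0
    have h2 : ∀ᵐ x : J → ℝ, M x ∈ ((fun y : W => w0 + y) ⁻¹' N)ᶜ := by
      refine (ae_comp_linearMap_mem_iff (L := M) (volume : Measure (J → ℝ)) (volume : Measure W) hM
        hN'.compl).mpr ?_
      exact Prj.ae_notMem_iff (f := fun y : W => y).mpr hN0'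
    have h3 : volume (M ⁻¹' ((fun y : W => w0 + y) ⁻¹' N)) = 0 := Prj.ae_notMem_iff.mp h2
    filter_upwards [hξ _ (hMm hN') h3, hYM] with w h4 h5
    rw [h5]
    exact h4
  have hfin := Prj.lemmaX W hWne hG'm hsat' h0' hY1' hYac
  filter_upwards [hfin, hYY'] with w h1 h2
  rw [← h2]
  exact h1

end SPHK
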