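import Pool.Agent.SPHK.StepK0

/-! Project SPHK (MP_f7e9f1_co), row STEPK: one step of the chain, in the product of the private
spaces. -/

set_option autoImplicit false

open MeasureTheory Set Filter SPH Module Pool.Agent.SPHK
open scoped ENNReal NNReal Topology

noncomputable section
namespace SPHK

variable {n d q : ℕ} (S : SData n d q)

theorem continuous_base (j : Cl n) : Continuous fun x : Cl n → ℝ => S.base j x := by
  unfold SData.base
  exact continuous_finsetSum _ fun l _ =>
    ((S.toFr.continuous_sv j l).smul continuous_const).add continuous_const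

theorem continuous_r (j : Cl n) : Continuous fun x : Cl n → ℝ => S.r j x := by
  unfold SData.r Fr.rad
  refine Real.continuous_sqrt.comp ?_
  refine (continuous_const.sub (continuous_const.mul (S.toFr.continuous_be j))).sub ?_
  exact continuous_finsetSum _ fun l _ => ((S.toFr.continuous_sv j l).pow 2).add continuous_const

theorem continuous_blk (j : Cl n) : Continuous fun u : E q => S.blk j u := by
  unfold SData.blk
  refine continuous_finsetSum _ fun a _ => ?_
  have h1 : Continuous fun u : E q => u a := (EuclideanSpace.proj (𝕜 := ℝ) a).continuous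
  exact h1.smul continuous_const

theorem continuous_a (j : Cl n) : Continuous fun p : (Cl n → ℝ) × E q => S.a j p.1 p.2 := by
  unfold SData.a
  exact ((continuous_base S j).comp continuous_fst).add
    (((continuous_r S j).comp continuous_fst).smul ((continuous_blk S j).comp continuous_snd))

variable {Ω1 : Type*} [MeasurableSpace Ω1] (ξ : Ω1 → (Cl n → ℝ)) (u : Ω1 → E q)

/-- the frame of the clique with private variables p -/
def Xp (p : Cl n → Ω1) (w : VV n) : E d := S.X (fun j => ξ (p j)) (fun j => u (p j)) w

/-- the labels of the edge i, zero outside the edge -/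
def Yp (i : Fin (n + 1)) (p : Cl n → Ω1) (j : Cl n) : E d × (Cl n → ℝ) :=
  if j ∈ S.edge i then (S.a j (ξ (p j)) (u (p j)), ξ (p j)) else 0

/-- the action on the labels -/
def actY {d n : ℕ} (T : OG d) (y : Cl n → E d × (Cl n → ℝ)) : Cl n → E d × (Cl n → ℝ) :=
  fun j => (act T (y j).1, (y j).2)

variable {ξ u}

theorem measurable_aj (hξm : Measurable ξ) (hum : Measurable u) (j : Cl n) :
    Measurable fun p : Cl n → Ω1 => S.a j (ξ (p j)) (u (p j)) := by
  have h1 : Measurable fun p : Cl n → Ω1 => (ξ (p j), u (p j)) :=
    (hξm.comp (measurable_pi_apply j)).prodMk (hum.comp (measurable_pi_apply j))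
  have h2 := (continuous_a S j).measurable.comp h1
  exact h2

theorem measurable_Xp (hξm : Measurable ξ) (hum : Measurable u) (w : VV n) :
    Measurable fun p : Cl n → Ω1 => Xp S ξ u p w := by
  unfold Xp SData.X
  refine Finset.measurable_fun_sum _ fun j _ => ?_
  have h1 := (measurable_aj S hξm hum j).const_smul (inner ℝ w (S.Rv j))
  exact h1

theorem measurable_Yp (hξm : Measurable ξ) (hum : Measurable u) (i : Fin (n + 1)) :
    Measurable fun p : Cl n → Ω1 => Yp S ξ u i p := by
  refine measurable_pi_lambda _ fun j => ?_
  unfold Yp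
  split_ifs
  · exact (measurable_aj S hξm hum j).prodMk (hξm.comp (measurable_pi_apply j))
  · exact measurable_const

theorem measurable_actY {X : Type*} [MeasurableSpace X] {T : X → OG d}
    {y : X → Cl n → E d × (Cl n → ℝ)} (hT : Measurable T) (hy : Measurable y) :
    Measurable fun a => actY (T a) (y a) := by
  refine measurable_pi_lambda _ fun j => ?_
  have h1 : Measurable fun a => y a j := (measurable_pi_apply j).comp hy
  exact (measurable_actf hT (measurable_fst.comp h1)).prodMk (measurable_snd.comp h1)

theorem dirn_smul_pos {V : Type*} [NormedAddCommGroup V] [NormedSpace ℝ V] (c : ℝ) (hc : 0 < c)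
    (x : V) : dirn (c • x) = dirn x := by
  unfold dirn
  rw [norm_smul, Real.norm_eq_abs, abs_of_pos hc, smul_smul, mul_inv, mul_comm c⁻¹, mul_assoc,
    inv_mul_cancel₀ hc.ne', mul_one]

theorem dirn_proj_dirn (U : Submodule ℝ (E d)) (x : E d) (hx : x ≠ 0) :
    dirn (Uᗮ.starProjection (dirn x)) = dirn (Uᗮ.starProjection x) := by
  have h : dirn x = (‖x‖)⁻¹ • x := rfl
  rw [h, map_smul, dirn_smul_pos _ (inv_pos.mpr (norm_pos_iff.mpr hx))]

/-- STEPK, main part. -/
theorem stepK_main (hξm : Measurable ξ) (hum : Measurable u) (κ : Measure Ω1)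
    [IsProbabilityMeasure κ]
    (hξ : ∀ N : Set (Cl n → ℝ), MeasurableSet N → volume N = 0 → ∀ᵐ w ∂κ, ξ w ∉ N)
    (hξb : ∀ᵐ w ∂κ, ∀ l, |ξ w l| ≤ S.η) (hu : ∀ᵐ w ∂κ, ‖u w‖ = 1)
    (i : Fin (n + 1)) (b : Fin n) (C : Finset (Option (Fin n))) (hC0 : none ∈ C) (hCb : some b ∉ C)
    (N : Set ((Cl n → E d × (Cl n → ℝ)) × (C → E d) × E d)) (hN : MeasurableSet N)
    (h0 : ∀ᵐ p ∂(Measure.pi fun _ : Cl n => κ), ∀ᵐ ζ : Sph d ∂(sig d),
      mu d {T | (actY T (Yp S ξ u i p), (fun c : C => act T (Xp S ξ u p (S.Rv (i, (c : Option (Fin n)))))),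
        act T (dirn ((Submodule.span ℝ (range fun c : C => Xp S ξ u p
          (S.Rv (i, (c : Option (Fin n))))))ᗮ.starProjection (ζ : E d)))) ∈ N} = 0) :
    ∀ᵐ p ∂(Measure.pi fun _ : Cl n => κ),
      mu d {T | (actY T (Yp S ξ u i p), (fun c : C => act T (Xp S ξ u p (S.Rv (i, (c : Option (Fin n)))))),
        act T (Xp S ξ u p (S.Rv (i, some b)))) ∈ N} = 0 := by
  classical
  -- measurability of the bad set
  have hm1 : MeasurableSet {x : (Cl n → Ω1) × OG d | (actY x.2 (Yp S ξ u i x.1),
      (fun c : C => act x.2 (Xp S ξ u x.1 (S.Rv (i, (c : Option (Fin n)))))),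
      act x.2 (Xp S ξ u x.1 (S.Rv (i, some b)))) ∈ N} := by
    have h1 : Measurable fun x : (Cl n → Ω1) × OG d => (actY x.2 (Yp S ξ u i x.1),
        (fun c : C => act x.2 (Xp S ξ u x.1 (S.Rv (i, (c : Option (Fin n)))))),
        act x.2 (Xp S ξ u x.1 (S.Rv (i, some b)))) := by
      refine Measurable.prodMk ?_ (Measurable.prodMk ?_ ?_)
      · exact measurable_actY measurable_snd ((measurable_Yp S hξm hum i).comp measurable_fst)
      · exact measurable_pi_lambda _ fun c =>
          measurable_actf measurable_snd ((measurable_Xp S hξm hum _).comp measurable_fst)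
      · exact measurable_actf measurable_snd ((measurable_Xp S hξm hum _).comp measurable_fst)
    exact h1 hN
  have hm2 : Measurable fun p : Cl n → Ω1 => mu d {T | (actY T (Yp S ξ u i p),
      (fun c : C => act T (Xp S ξ u p (S.Rv (i, (c : Option (Fin n)))))),
      act T (Xp S ξ u p (S.Rv (i, some b)))) ∈ N} := measurable_measure_prodMk_left hm1
  set Bad : Set (Cl n → Ω1) := {p | mu d {T | (actY T (Yp S ξ u i p),
      (fun c : C => act T (Xp S ξ u p (S.Rv (i, (c : Option (Fin n)))))),
      act T (Xp S ξ u p (S.Rv (i, some b)))) ∈ N} ≠ 0} with hBad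
  have hBadm : MeasurableSet Bad := (hm2 (measurableSet_singleton 0)).compl
  have hb1 : ∀ᵐ p ∂(Measure.pi fun _ : Cl n => κ), ∀ j l, |ξ (p j) l| ≤ S.η := by
    rw [ae_all_iff]
    intro j
    exact (Measure.tendsto_eval_ae_ae (μ := fun _ : Cl n => κ) (i := j)).eventually hξb
  have hb2 : ∀ᵐ p ∂(Measure.pi fun _ : Cl n => κ), ∀ j, ‖u (p j)‖ = 1 := by
    rw [ae_all_iff]
    intro j
    exact (Measure.tendsto_eval_ae_ae (μ := fun _ : Cl n => κ) (i := j)).eventually hu
  have hgoal : ∀ᵐ p ∂(Measure.pi fun _ : Cl n => κ), p ∉ Bad := by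
    refine pi_null_of_ae_sections (fun _ : Cl n => κ) ((i, some b) : Cl n) Bad hBadm ?_
    filter_upwards [h0, hb1, hb2] with p hp hp1 hp2
    -- the set for the fixed base
    set as : (S.edge i → E d) → (Cl n → E d × (Cl n → ℝ)) := fun α j =>
      if h : j ∈ S.edge i then (α ⟨j, h⟩, ξ (p j)) else 0 with has
    have hasm : Measurable as := by
      refine measurable_pi_lambda _ fun j => ?_
      by_cases h : j ∈ S.edge i
      · simp only [has, dif_pos h]
        exact (measurable_pi_apply _).prodMk measurable_const
      · simp only [has, dif_neg h]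
        exact measurable_const
    set N' : Set ((S.edge i → E d) × (C → E d) × E d) := {x | (as x.1, x.2.1, x.2.2) ∈ N} with hN'
    have hN'm : MeasurableSet N' := by
      have h1 : Measurable fun x : (S.edge i → E d) × (C → E d) × E d => (as x.1, x.2.1, x.2.2) :=
        (hasm.comp measurable_fst).prodMk ((measurable_fst.comp measurable_snd).prodMk
          (measurable_snd.comp measurable_snd))
      exact h1 hN
    have hasY : ∀ T : OG d, as (fun j => act T (lbv S i (fun j => ξ (p j)) (fun j => u (p j)) j)) =
        actY T (Yp S ξ u i p) := by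
      intro T
      funext j
      by_cases h : j ∈ S.edge i
      · simp only [has, dif_pos h, actY, Yp, if_pos h]
        rfl
      · simp only [has, dif_neg h, actY, Yp, if_neg h]
        exact Prod.ext (act_zero T).symm rfl
    set U : Submodule ℝ (E d) := Submodule.span ℝ (range fun c : C => Xp S ξ u p
          (S.Rv (i, (c : Option (Fin n))))) with hU
    -- the law of the direction
    set Sg : Set (E d) := {y | mu d {T | (actY T (Yp S ξ u i p),
      (fun c : C => act T (Xp S ξ u p (S.Rv (i, (c : Option (Fin n)))))),
      act T (dirn (Uᗮ.starProjection y))) ∈ N} = 0} with hSg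
    have hSgm : MeasurableSet Sg := by
      have h1 : Measurable fun x : E d × OG d => (actY x.2 (Yp S ξ u i p),
          (fun c : C => act x.2 (Xp S ξ u p (S.Rv (i, (c : Option (Fin n)))))),
          act x.2 (dirn (Uᗮ.starProjection x.1))) := by
        refine Measurable.prodMk ?_ (Measurable.prodMk ?_ ?_)
        · exact measurable_actY measurable_snd measurable_const
        · exact measurable_pi_lambda _ fun c => measurable_actf measurable_snd measurable_const
        · refine measurable_actf measurable_snd ?_
          exact measurable_dirn.comp ((Uᗮ.starProjection.continuous.measurable).comp measurable_fst)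
      have h2 : MeasurableSet {x : E d × OG d | (actY x.2 (Yp S ξ u i p),
          (fun c : C => act x.2 (Xp S ξ u p (S.Rv (i, (c : Option (Fin n)))))),
          act x.2 (dirn (Uᗮ.starProjection x.1))) ∈ N} := h1 hN
      have h3 : Measurable fun y : E d => mu d {T | (actY T (Yp S ξ u i p),
          (fun c : C => act T (Xp S ξ u p (S.Rv (i, (c : Option (Fin n)))))),
          act T (dirn (Uᗮ.starProjection y))) ∈ N} := measurable_measure_prodMk_left h2
      exact h3 (measurableSet_singleton 0)
    have hlaw : ∀ᵐ x : E d, dirn x ∈ Sg := dirn_of_sig hSgm hp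
    have hstep := step_S S i b C hC0 hCb (fun j => ξ (p j)) hp1 (fun j => u (p j)) hp2 N' hN'm (by
      filter_upwards [hlaw, Measure.ae_ne (volume : Measure (E d)) (0 : E d)] with x hx hx0
      have hx' : mu d {T | (actY T (Yp S ξ u i p),
          (fun c : C => act T (Xp S ξ u p (S.Rv (i, (c : Option (Fin n)))))),
          act T (dirn (Uᗮ.starProjection (dirn x)))) ∈ N} = 0 := hx
      rw [dirn_proj_dirn U x hx0] at hx'
      rw [← hx']
      congr 1
      ext T
      simp only [hN', Set.mem_ofPred_eq, hasY]
      rfl) ξ hξ hξb u hu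
    filter_upwards [hstep] with v hv
    rw [hBad, Set.mem_ofPred_eq, not_not, ← hv]
    have hv1 : ∀ j, Function.update p (i, some b) v j = if j = (i, some b) then v else p j := by
      intro j
      by_cases h : j = (i, some b)
      · subst h; rw [Function.update_self, if_pos rfl]
      · rw [Function.update_of_ne h, if_neg h]
    have hξu : (fun j => ξ (Function.update p (i, some b) v j)) =
        Function.update (fun j => ξ (p j)) (i, some b) (ξ v) := by
      funext j
      by_cases h : j = (i, some b)
      · subst h; rw [Function.update_self, Function.update_self]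
      · rw [Function.update_of_ne h, Function.update_of_ne h]
    have huu : (fun j => u (Function.update p (i, some b) v j)) =
        Function.update (fun j => u (p j)) (i, some b) (u v) := by
      funext j
      by_cases h : j = (i, some b)
      · subst h; rw [Function.update_self, Function.update_self]
      · rw [Function.update_of_ne h, Function.update_of_ne h]
    have hY : Yp S ξ u i (Function.update p (i, some b) v) = Yp S ξ u i p := by
      funext j
      unfold Yp
      by_cases h : j ∈ S.edge i
      · have hj : j ≠ (i, some b) := fun h' => S.toFr.own_notMem i b (h' ▸ h)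
        rw [if_pos h, if_pos h, Function.update_of_ne hj]
      · rw [if_neg h, if_neg h]
    have hX : ∀ c : C, Xp S ξ u (Function.update p (i, some b) v) (S.Rv (i, (c : Option (Fin n)))) =
        Xp S ξ u p (S.Rv (i, (c : Option (Fin n)))) := by
      intro c
      have hc : (c : Option (Fin n)) ≠ some b := fun h => hCb (h ▸ c.2)
      unfold Xp
      rw [hξu, huu]
      exact X_update_of_ne S i b _ _ _ _ _ hc
    congr 1
    ext T
    simp only [hN', Set.mem_ofPred_eq, hasY, hY, hX]
    have hXb : Xp S ξ u (Function.update p (i, some b) v) (S.Rv (i, some b)) =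
        S.X (Function.update (fun j => ξ (p j)) (i, some b) (ξ v))
          (Function.update (fun j => u (p j)) (i, some b) (u v)) (S.Rv (i, some b)) := by
      unfold Xp
      rw [hξu, huu]
    rw [hXb]
    rfl
  filter_upwards [hgoal] with p hp
  exact not_not.mp hp

end SPHK
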