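import Pool.Agent.SPHK.StepS
import Pool.Agent.SPHK.GramP

/-! Project SPHK (MP_f7e9f1_co), row STEPK: Fubini for one coordinate of a product measure, and the
passage from the sphere to Lebesgue measure. -/

set_option autoImplicit false

open MeasureTheory Set Filter SPH Module Pool.Agent.SPHK
open scoped ENNReal NNReal Topology Pointwise

noncomputable section
namespace SPHK

/-- a measurable set almost all of whose sections in one coordinate are null is null -/
theorem pi_null_of_ae_sections {ι : Type*} [Fintype ι] [DecidableEq ι] {X : ι → Type*}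
    [∀ i, MeasurableSpace (X i)] (μ : ∀ i, Measure (X i)) [∀ i, IsProbabilityMeasure (μ i)] (i0 : ι)
    (N : Set (∀ i, X i)) (hN : MeasurableSet N)
    (h : ∀ᵐ x ∂(Measure.pi μ), ∀ᵐ v ∂(μ i0), Function.update x i0 v ∉ N) :
    ∀ᵐ x ∂(Measure.pi μ), x ∉ N := by
  have hne : ∀ i, Nonempty (X i) := fun i => nonempty_of_isProbabilityMeasure (μ i)
  let x0 : ∀ i, X i := fun i => Classical.choice (hne i)
  have hf : Measurable (N.indicator (1 : (∀ i, X i) → ℝ≥0∞)) := measurable_one.indicator hN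
  set f := N.indicator (1 : (∀ i, X i) → ℝ≥0∞) with hfdef
  set g : (∀ i, X i) → ℝ≥0∞ := fun x => ∫⁻ v, f (Function.update x i0 v) ∂(μ i0) with hg
  have hgm : Measurable g := by
    have h1 := hf.lmarginal μ (s := {i0})
    rw [lmarginal_singleton] at h1
    exact h1
  have hginv : ∀ x v, g (Function.update x i0 v) = g x := by
    intro x v
    rw [hg]
    simp only [Function.update_idem]
  have e1 : ∫⁻ x, f x ∂(Measure.pi μ) = (∫⋯∫⁻_(Finset.univ.erase i0), g ∂μ) x0 := by
    rw [lintegral_eq_lmarginal_univ x0, lmarginal_erase' _ hf (Finset.mem_univ i0)]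
  have e2 : ∫⁻ x, g x ∂(Measure.pi μ) = (∫⋯∫⁻_(Finset.univ.erase i0), g ∂μ) x0 := by
    rw [lintegral_eq_lmarginal_univ x0, lmarginal_erase' _ hgm (Finset.mem_univ i0)]
    congr 2
    funext x
    simp only [hginv, lintegral_const, measure_univ, mul_one]
  have e3 : ∫⁻ x, g x ∂(Measure.pi μ) = 0 := by
    rw [lintegral_eq_zero_iff hgm]
    filter_upwards [h] with x hx
    show g x = 0
    have hs : MeasurableSet {v : X i0 | Function.update x i0 v ∈ N} :=
      (measurable_update x (a := i0)) hN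
    have e4 : (fun v => f (Function.update x i0 v)) =
        {v : X i0 | Function.update x i0 v ∈ N}.indicator (1 : X i0 → ℝ≥0∞) := rfl
    rw [hg]
    simp only
    rw [e4, lintegral_indicator_one hs]
    exact measure_eq_zero_iff_ae_notMem.mpr hx
  rw [e2, ← e1, hfdef, lintegral_indicator_one hN] at e3
  exact measure_eq_zero_iff_ae_notMem.mp e3

/-- from the sphere to Lebesgue measure -/
theorem dirn_of_sig {d : ℕ} {S : Set (E d)} (hS : MeasurableSet S)
    (h : ∀ᵐ u : Sph d ∂(sig d), (u : E d) ∈ S) : ∀ᵐ x : E d, dirn x ∈ S := by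
  have hm : MeasurableSet {u : Sph d | ¬ (u : E d) ∈ S} :=
    ((measurable_subtype_coe (p := fun x : E d => x ∈ Metric.sphere (0 : E d) 1)) hS).compl
  rw [ae_iff] at h ⊢
  have h1 : (volume : Measure (E d)).toSphere {u : Sph d | ¬ (u : E d) ∈ S} = 0 := by
    rw [sig, Measure.smul_apply, smul_eq_mul, mul_eq_zero] at h
    rcases h with h | h
    · exfalso
      rw [ENNReal.inv_eq_zero] at h
      exact measure_ne_top _ _ h
    · exact h
  rw [Measure.toSphere_apply' _ hm, mul_eq_zero] at h1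
  have h2 : (volume : Measure (E d)) (Ioo (0 : ℝ) 1 • ((fun x : Sph d => (x : E d)) ''
      {u : Sph d | ¬ (u : E d) ∈ S})) = 0 := by
    rcases h1 with h1 | h1
    · exfalso
      simp at h1
    · exact h1
  set C : Set (E d) := Ioo (0 : ℝ) 1 • ((fun x : Sph d => (x : E d)) ''
      {u : Sph d | ¬ (u : E d) ∈ S}) with hC
  have h3 : (volume : Measure (E d)) ({0} ∪ ⋃ k : ℕ, ((k : ℝ) + 1) • C) = 0 := by
    rw [measure_union_null_iff]
    refine ⟨by simp, ?_⟩
    rw [measure_iUnion_null_iff]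
    intro k
    rw [Measure.addHaar_smul, h2, mul_zero]
  refine measure_mono_null (fun x hx => ?_) h3
  rcases eq_or_ne x 0 with h0 | h0
  · exact Or.inl h0
  · right
    obtain ⟨k, hk⟩ := exists_nat_gt ‖x‖
    have hk1 : (0 : ℝ) < (k : ℝ) + 1 := by positivity
    have hn : 0 < ‖x‖ := norm_pos_iff.mpr h0
    rw [mem_iUnion]
    refine ⟨k, ?_⟩
    rw [Set.mem_smul_set_iff_inv_smul_mem₀ hk1.ne']
    refine ⟨((k : ℝ) + 1)⁻¹ * ‖x‖, ⟨by positivity, ?_⟩, dirn x, ⟨⟨dirn x, ?_⟩, hx, rfl⟩, ?_⟩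
    · rw [inv_mul_lt_iff₀ hk1]
      linarith
    · rw [mem_sphere_zero_iff_norm]
      exact norm_dirn h0
    · show (((k : ℝ) + 1)⁻¹ * ‖x‖) • dirn x = ((k : ℝ) + 1)⁻¹ • x
      unfold dirn
      rw [smul_smul, mul_assoc, mul_inv_cancel₀ hn.ne', mul_one]

end SPHK
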