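import Pool.Agent.SPHK.SphHost
import Pool.Agent.SPHK.StepCore

/-! Project SPHK (MP_f7e9f1_co), row STEP (B.4): the replacement of one frame vector of the spherical
host, for fixed private variables of the other classes. -/

set_option autoImplicit false

open MeasureTheory Set Filter SPH Module Pool.Agent.SPHK
open scoped ENNReal NNReal Topology

noncomputable section
namespace SPHK

section lin
variable {n : ℕ} (F : Fr n)

theorem xv_add (i : Fin (n + 1)) (x y : Cl n → ℝ) (l : Cl n) :
    F.xv i (x + y) l = F.xv i x l + F.xv i y l := by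
  unfold Fr.xv
  split_ifs
  · simp
  · simp only [Pi.add_apply, add_mul, Finset.sum_add_distrib]
    ring

theorem xv_smul (i : Fin (n + 1)) (c : ℝ) (x : Cl n → ℝ) (l : Cl n) :
    F.xv i (c • x) l = c * F.xv i x l := by
  unfold Fr.xv
  split_ifs
  · simp
  · simp only [Pi.smul_apply, smul_eq_mul, mul_assoc, ← Finset.mul_sum]
    ring

theorem yv_add (i : Fin (n + 1)) (x y : Cl n → ℝ) : F.yv i (x + y) = F.yv i x + F.yv i y := by
  unfold Fr.yv
  simp only [xv_add, add_smul, Finset.sum_add_distrib]

theorem yv_smul (i : Fin (n + 1)) (c : ℝ) (x : Cl n → ℝ) : F.yv i (c • x) = c • F.yv i x := by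
  unfold Fr.yv
  simp only [xv_smul, mul_smul, Finset.smul_sum]

theorem sv_add (i : Fin (n + 1)) (b : Fin n) (x y : Cl n → ℝ) (l : Cl n) :
    F.sv (i, some b) (x + y) l = F.sv (i, some b) x l + F.sv (i, some b) y l := by
  rw [F.sv_some, F.sv_some, F.sv_some, xv_add, yv_add, inner_add_left]
  split_ifs <;> ring

theorem sv_smul (i : Fin (n + 1)) (b : Fin n) (c : ℝ) (x : Cl n → ℝ) (l : Cl n) :
    F.sv (i, some b) (c • x) l = c * F.sv (i, some b) x l := by
  rw [F.sv_some, F.sv_some, xv_smul, yv_smul, real_inner_smul_left]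
  split_ifs <;> ring

end lin

variable {n d q : ℕ} (S : SData n d q)

/-- the linear part of the model vector of the class (i, some b) -/
def Dlin (i : Fin (n + 1)) (b : Fin n) : (Cl n → ℝ) →ₗ[ℝ] E d where
  toFun x := S.base (i, some b) x - S.base (i, some b) 0
  map_add' x y := by
    unfold SData.base
    rw [← Finset.sum_sub_distrib, ← Finset.sum_sub_distrib, ← Finset.sum_sub_distrib,
      ← Finset.sum_add_distrib]
    refine Finset.sum_congr rfl fun l _ => ?_
    rw [sv_add, S.toFr.sv_zero]
    module
  map_smul' c x := by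
    unfold SData.base
    rw [← Finset.sum_sub_distrib, ← Finset.sum_sub_distrib, Finset.smul_sum]
    refine Finset.sum_congr rfl fun l _ => ?_
    rw [sv_smul, S.toFr.sv_zero, RingHom.id_apply]
    module

theorem Dlin_apply (i : Fin (n + 1)) (b : Fin n) (x : Cl n → ℝ) :
    Dlin S i b x = S.base (i, some b) x - S.base (i, some b) 0 := rfl

theorem inner_Dlin_a (i : Fin (n + 1)) (b : Fin n) (x : Cl n → ℝ) (j : Cl n) (hj : j ≠ (i, some b))
    (ξ : Cl n → ℝ) (u : E q) : inner ℝ (Dlin S i b x) (S.a j ξ u) = S.c * S.sv (i, some b) x j := by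
  have h1 : inner ℝ (Dlin S i b x) (S.blk j u) = 0 := by
    rw [Dlin_apply, inner_sub_left, S.inner_base_blk, S.inner_base_blk, sub_zero]
  rw [show S.a j ξ u = S.base j ξ + S.r j ξ • S.blk j u from rfl, inner_add_right,
    real_inner_smul_right, h1, mul_zero, add_zero, Dlin_apply, inner_sub_left,
    S.inner_base_ne hj.symm, S.inner_base_ne hj.symm, S.toFr.sv_zero]
  ring

theorem inner_blk_a (l j : Cl n) (h : l ≠ j) (u u' : E q) (ξ : Cl n → ℝ) :
    inner ℝ (S.blk l u) (S.a j ξ u') = 0 := by
  rw [show S.a j ξ u' = S.base j ξ + S.r j ξ • S.blk j u' from rfl, inner_add_right,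
    real_inner_smul_right, S.inner_blk_base, S.inner_blk_ne h, mul_zero, add_zero]

/-- the base frame vectors -/
def frv (i : Fin (n + 1)) (C : Finset (Option (Fin n))) (ξ0 : Cl n → Cl n → ℝ) (u0 : Cl n → E q)
    (c : C) : E d := S.X ξ0 u0 (S.Rv (i, (c : Option (Fin n))))

/-- the label vectors of the edge -/
def lbv (i : Fin (n + 1)) (ξ0 : Cl n → Cl n → ℝ) (u0 : Cl n → E q) (j : S.edge i) : E d :=
  S.a j (ξ0 j) (u0 j)

theorem card_bound (i : Fin (n + 1)) (C : Finset (Option (Fin n))) (b : Fin n) (hCb : some b ∉ C) :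
    C.card + Fintype.card (S.edge i) < d + 1 := by
  classical
  have h1 := S.hG.linearIndependent.fintype_card_le_finrank
  have h2 : finrank ℝ (E d) = d + 1 := by simp
  rw [h2] at h1
  have h3 : C.card ≤ n := by
    have h4 : C ⊆ Finset.univ.erase (some b) := fun c hc =>
      Finset.mem_erase.mpr ⟨fun h => hCb (h ▸ hc), Finset.mem_univ c⟩
    have h5 := Finset.card_le_card h4
    rw [Finset.card_erase_of_mem (Finset.mem_univ _), Finset.card_univ, Fintype.card_option,
      Fintype.card_fin] at h5
    omega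
  have h6 : Fintype.card (S.edge i) ≤ (n + 1) * (n + 1) := by
    rw [Fintype.card_coe]
    refine (Finset.card_le_univ _).trans ?_
    simp [Cl]
  have h7 : Fintype.card ((Cl n × Cl n) ⊕ (Cl n × Fin (q + 1))) =
      ((n + 1) * (n + 1)) * ((n + 1) * (n + 1)) + ((n + 1) * (n + 1)) * (q + 1) := by
    simp [Cl]
  rw [h7] at h1
  have h8 : n + 1 ≤ ((n + 1) * (n + 1)) * ((n + 1) * (n + 1)) :=
    calc n + 1 ≤ (n + 1) * ((n + 1) * ((n + 1) * (n + 1))) :=
          Nat.le_mul_of_pos_right _ (by positivity)
      _ = ((n + 1) * (n + 1)) * ((n + 1) * (n + 1)) := by ring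
  have h9 : (n + 1) * (n + 1) ≤ ((n + 1) * (n + 1)) * (q + 1) :=
    Nat.le_mul_of_pos_right _ (by positivity)
  omega

theorem inner_Dlin_X (i : Fin (n + 1)) (b : Fin n) (x : Cl n → ℝ) (ξ0 : Cl n → Cl n → ℝ)
    (u0 : Cl n → E q) (c : Option (Fin n)) (hc : c ≠ some b) :
    inner ℝ (Dlin S i b x) (S.X ξ0 u0 (S.Rv (i, c))) = 0 := by
  classical
  have ho : ∀ c : Option (Fin n), c ≠ some b → inner ℝ (S.Rv (i, c)) (S.Rv (i, some b)) = (0 : ℝ) :=
    fun c hc => (S.R i).orthonormal.2 hc
  have h1 : ∀ j, inner ℝ (Dlin S i b x) (inner ℝ (S.Rv (i, c)) (S.Rv j) • S.a j (ξ0 j) (u0 j)) =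
      S.c * inner ℝ (S.Rv (i, c)) (S.sv (i, some b) x j • S.Rv j) := by
    intro j
    rw [real_inner_smul_right, real_inner_smul_right]
    by_cases hj : j = (i, some b)
    · subst hj
      rw [ho c hc]
      ring
    · rw [inner_Dlin_a S i b x j hj]
      ring
  unfold SData.X
  rw [inner_sum, Finset.sum_congr rfl fun j _ => h1 j, ← Finset.mul_sum, ← inner_sum,
    S.toFr.sum_sv, real_inner_smul_right, ho c hc]
  ring

theorem X_update_of_ne (i : Fin (n + 1)) (b : Fin n) (ξ0 : Cl n → Cl n → ℝ)
    (u0 : Cl n → E q) (x : Cl n → ℝ) (u : E q) (c : Option (Fin n)) (hc : c ≠ some b) :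
    S.X (Function.update ξ0 (i, some b) x) (Function.update u0 (i, some b) u) (S.Rv (i, c)) =
      S.X ξ0 u0 (S.Rv (i, c)) := by
  classical
  have ho : inner ℝ (S.Rv (i, c)) (S.Rv (i, some b)) = (0 : ℝ) := (S.R i).orthonormal.2 hc
  unfold SData.X
  refine Finset.sum_congr rfl fun j _ => ?_
  by_cases hj : j = (i, some b)
  · subst hj
    rw [ho, zero_smul, zero_smul]
  · rw [Function.update_of_ne hj, Function.update_of_ne hj]

/-- ONE STEP over the spherical host. -/
theorem step_S (i : Fin (n + 1)) (b : Fin n) (C : Finset (Option (Fin n))) (hC0 : none ∈ C)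
    (hCb : some b ∉ C) (ξ0 : Cl n → Cl n → ℝ) (hξ0 : ∀ j l, |ξ0 j l| ≤ S.η) (u0 : Cl n → E q)
    (hu0 : ∀ j, ‖u0 j‖ = 1) (N : Set ((S.edge i → E d) × (C → E d) × E d)) (hN : MeasurableSet N)
    (h0 : ∀ᵐ x : E d, mu d {T | ((fun j => act T (lbv S i ξ0 u0 j)),
      (fun c => act T (frv S i C ξ0 u0 c)),
      act T (dirn ((Submodule.span ℝ (range (frv S i C ξ0 u0)))ᗮ.starProjection x))) ∈ N} = 0)
    {Om : Type*} [MeasurableSpace Om] {P : Measure Om} (ξ : Om → (Cl n → ℝ))
    (hξ : ∀ N : Set (Cl n → ℝ), MeasurableSet N → volume N = 0 → ∀ᵐ w ∂P, ξ w ∉ N)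
    (hξb : ∀ᵐ w ∂P, ∀ l, |ξ w l| ≤ S.η) (u : Om → E q) (hu : ∀ᵐ w ∂P, ‖u w‖ = 1) :
    ∀ᵐ w ∂P, mu d {T | ((fun j => act T (lbv S i ξ0 u0 j)),
      (fun c => act T (frv S i C ξ0 u0 c)),
      act T (S.X (Function.update ξ0 (i, some b) (ξ w)) (Function.update u0 (i, some b) (u w))
        (S.Rv (i, some b)))) ∈ N} = 0 := by
  classical
  set α := lbv S i ξ0 u0 with hα
  set A := frv S i C ξ0 u0 with hA
  set U : Submodule ℝ (E d) := Submodule.span ℝ (range A) with hU
  have hAU : ∀ c, A c ∈ U := fun c => Submodule.subset_span ⟨c, rfl⟩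
  have hUorth : ∀ y : E d, (∀ c, inner ℝ y (A c) = 0) → y ∈ Uᗮ := by
    intro y hy
    rw [Submodule.mem_orthogonal']
    intro v hv
    induction hv using Submodule.span_induction with
    | mem v hv => obtain ⟨c, rfl⟩ := hv; exact hy c
    | zero => simp
    | add a b _ _ ha hb => rw [inner_add_right, ha, hb, add_zero]
    | smul r a _ ha => rw [inner_smul_right, ha, mul_zero]
  -- the null function
  have hmeas : MeasurableSet {p : E d × OG d | ((fun j => act p.2 (α j)), (fun c => act p.2 (A c)),
      act p.2 p.1) ∈ N} := by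
    have h1 : Measurable fun p : E d × OG d => ((fun j => act p.2 (α j)), (fun c => act p.2 (A c)),
      act p.2 p.1) := by
      refine Measurable.prodMk ?_ (Measurable.prodMk ?_ ?_)
      · exact measurable_pi_lambda _ fun j => measurable_actf measurable_snd measurable_const
      · exact measurable_pi_lambda _ fun c => measurable_actf measurable_snd measurable_const
      · exact measurable_actf measurable_snd measurable_fst
    exact h1 hN
  set Gf : E d → ℝ≥0∞ := fun x => mu d {T | ((fun j => act T (α j)), (fun c => act T (A c)),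
      act T x) ∈ N} with hGf
  have hGfm : Measurable Gf := measurable_measure_prodMk_left hmeas
  set G : Set (E d) := {x | Gf x ≠ 0} with hG
  have hGm : MeasurableSet G := (hGfm (measurableSet_singleton 0)).compl
  have hmain : ∀ᵐ w ∂P, S.X (Function.update ξ0 (i, some b) (ξ w))
      (Function.update u0 (i, some b) (u w)) (S.Rv (i, some b)) ∉ G := by
    refine step_core U α ?_ hGm ?_ ?_ (Dlin S i b) ?_ ?_
      (∑ j ∈ Finset.univ.erase (i, some b), inner ℝ (S.Rv (i, some b)) (S.Rv j) •
        S.a j (ξ0 j) (u0 j) + S.base (i, some b) 0) ξ hξ _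
      (fun w => S.r (i, some b) (ξ w) • S.blk (i, some b) (u w)) ?_ ?_ ?_ ?_ ?_
    · -- dimension
      have h1 : finrank ℝ U ≤ C.card := by
        have h2 := finrank_range_le_card (R := ℝ) A
        rw [Fintype.card_coe] at h2
        exact h2
      have h3 := card_bound S i C b hCb
      omega
    · -- saturation
      intro x x' hx hx' hxU hx'U hin hxG
      have hn : ‖x'‖ = ‖x‖ := by rw [hx, hx']
      have hrx : act (hh x' x) x' = x := hh_map x' x hn
      have hrα : ∀ j, act (hh x' x) (α j) = α j := by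
        intro j
        refine hh_fix _ _ _ ?_
        rw [inner_sub_left, hin j, sub_self]
      have hrA : ∀ c, act (hh x' x) (A c) = A c := by
        intro c
        refine hh_fix _ _ _ ?_
        rw [inner_sub_left, Submodule.inner_left_of_mem_orthogonal (hAU c) hxU,
          Submodule.inner_left_of_mem_orthogonal (hAU c) hx'U, sub_self]
      have e1 : Gf x = Gf x' := by
        have e2 : {T : OG d | ((fun j => act T (α j)), (fun c => act T (A c)), act T x) ∈ N} =
            (fun T => T * hh x' x) ⁻¹' {T : OG d | ((fun j => act T (α j)), (fun c => act T (A c)),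
              act T x') ∈ N} := by
          ext T
          simp only [Set.mem_ofPred_eq, mem_preimage, act_mul, hrα, hrA, hrx]
        rw [hGf]
        simp only
        rw [e2, measure_preimage_mul_right]
      show Gf x' ≠ 0
      rw [← e1]
      exact hxG
    · -- the uniform law
      filter_upwards [h0] with x hx
      show ¬ (Gf _ ≠ 0)
      rw [not_not]
      exact hx
    · intro x
      exact hUorth _ fun c => inner_Dlin_X S i b x ξ0 u0 _ (fun h => hCb (h ▸ c.2))
    · -- surjectivity
      intro w hw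
      refine ⟨fun l => if l ∈ S.edge i then inner ℝ w (S.a l (ξ0 l) (u0 l)) / S.c else 0, fun j => ?_⟩
      have hjne : (j : Cl n) ≠ (i, some b) := fun h => S.toFr.own_notMem i b (h ▸ j.2)
      have hc := S.c_pos.ne'
      have hsum : ∑ m, (if m ∈ S.edge i then inner ℝ w (S.a m (ξ0 m) (u0 m)) / S.c else 0) *
          S.nv i m = 0 := by
        have h1 : inner ℝ w (A ⟨none, hC0⟩) = 0 :=
          Submodule.inner_left_of_mem_orthogonal (hAU _) hw
        have h2 : A ⟨none, hC0⟩ = ∑ m, S.nv i m • S.a m (ξ0 m) (u0 m) := rfl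
        rw [h2, inner_sum] at h1
        have h3 : ∀ m, (if m ∈ S.edge i then inner ℝ w (S.a m (ξ0 m) (u0 m)) / S.c else 0) *
            S.nv i m = S.c⁻¹ * inner ℝ w (S.nv i m • S.a m (ξ0 m) (u0 m)) := by
          intro m
          rw [real_inner_smul_right]
          by_cases hm : m ∈ S.edge i
          · rw [if_pos hm]
            field_simp
          · have hm' : S.nv i m = 0 := by
              have := (S.toFr.mem_edge i m).not.mp hm
              exact not_not.mp this
            rw [if_neg hm, hm']
            ring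
        rw [Finset.sum_congr rfl fun m _ => h3 m, ← Finset.mul_sum, h1, mul_zero]
      show inner ℝ (Dlin S i b _) (S.a j (ξ0 j) (u0 j)) = inner ℝ w (S.a j (ξ0 j) (u0 j))
      rw [inner_Dlin_a S i b _ j hjne, S.toFr.sv_edge i b _ j j.2, hsum, if_pos j.2]
      field_simp
      ring
    · -- norm one
      filter_upwards [hξb, hu] with w h1 h2
      have hξ' : ∀ j l, |Function.update ξ0 (i, some b) (ξ w) j l| ≤ S.η := by
        intro j l
        by_cases hj : j = (i, some b)
        · subst hj; rw [Function.update_self]; exact h1 l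
        · rw [Function.update_of_ne hj]; exact hξ0 j l
      have hu' : ∀ j, ‖Function.update u0 (i, some b) (u w) j‖ = 1 := by
        intro j
        by_cases hj : j = (i, some b)
        · subst hj; rw [Function.update_self]; exact h2
        · rw [Function.update_of_ne hj]; exact hu0 j
      have h3 := S.inner_X _ hξ' _ hu' (S.Rv (i, some b)) (S.Rv (i, some b))
      rw [real_inner_self_eq_norm_sq, real_inner_self_eq_norm_sq, S.toFr.norm_Rv] at h3
      have h4 := norm_nonneg (S.X (Function.update ξ0 (i, some b) (ξ w))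
        (Function.update u0 (i, some b) (u w)) (S.Rv (i, some b)))
      nlinarith
    · -- orthogonality
      filter_upwards [hξb, hu] with w h1 h2
      have hξ' : ∀ j l, |Function.update ξ0 (i, some b) (ξ w) j l| ≤ S.η := by
        intro j l
        by_cases hj : j = (i, some b)
        · subst hj; rw [Function.update_self]; exact h1 l
        · rw [Function.update_of_ne hj]; exact hξ0 j l
      have hu' : ∀ j, ‖Function.update u0 (i, some b) (u w) j‖ = 1 := by
        intro j
        by_cases hj : j = (i, some b)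
        · subst hj; rw [Function.update_self]; exact h2
        · rw [Function.update_of_ne hj]; exact hu0 j
      refine hUorth _ fun c => ?_
      have hc : (c : Option (Fin n)) ≠ some b := fun h => hCb (h ▸ c.2)
      have h3 : A c = S.X (Function.update ξ0 (i, some b) (ξ w))
          (Function.update u0 (i, some b) (u w)) (S.Rv (i, (c : Option (Fin n)))) :=
        (X_update_of_ne S i b ξ0 u0 (ξ w) (u w) c hc).symm
      rw [h3, S.inner_X _ hξ' _ hu']
      exact (S.R i).orthonormal.2 (Ne.symm hc)
    · -- decomposition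
      refine Eventually.of_forall fun w => ?_
      have h1 : ∀ j ∈ Finset.univ.erase (i, some b), inner ℝ (S.Rv (i, some b)) (S.Rv j) •
          S.a j (Function.update ξ0 (i, some b) (ξ w) j) (Function.update u0 (i, some b) (u w) j) =
          inner ℝ (S.Rv (i, some b)) (S.Rv j) • S.a j (ξ0 j) (u0 j) := by
        intro j hj
        have hj' := Finset.ne_of_mem_erase hj
        rw [Function.update_of_ne hj', Function.update_of_ne hj']
      have h2 : inner ℝ (S.Rv (i, some b)) (S.Rv (i, some b)) = (1 : ℝ) := by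
        rw [real_inner_self_eq_norm_sq, S.toFr.norm_Rv, one_pow]
      unfold SData.X
      rw [← Finset.sum_erase_add _ _ (Finset.mem_univ ((i, some b) : Cl n)),
        Finset.sum_congr rfl h1, h2, one_smul, Function.update_self, Function.update_self,
        Dlin_apply]
      show _ + (S.base (i, some b) (ξ w) + S.r (i, some b) (ξ w) • S.blk (i, some b) (u w)) = _
      abel
    · refine Eventually.of_forall fun w => hUorth _ fun c => ?_
      have hc : (c : Option (Fin n)) ≠ some b := fun h => hCb (h ▸ c.2)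
      show inner ℝ (S.r (i, some b) (ξ w) • S.blk (i, some b) (u w))
        (∑ j, inner ℝ (S.Rv (i, (c : Option (Fin n)))) (S.Rv j) • S.a j (ξ0 j) (u0 j)) = 0
      rw [real_inner_smul_left, inner_sum]
      refine mul_eq_zero_of_right _ (Finset.sum_eq_zero fun j _ => ?_)
      rw [real_inner_smul_right]
      by_cases hj : j = (i, some b)
      · subst hj
        have h5 : inner ℝ (S.Rv (i, (c : Option (Fin n)))) (S.Rv (i, some b)) = (0 : ℝ) :=
          (S.R i).orthonormal.2 hc
        rw [h5, zero_mul]
      · rw [inner_blk_a S _ _ (Ne.symm hj), mul_zero]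
    · refine Eventually.of_forall fun w j => ?_
      have hjne : (j : Cl n) ≠ (i, some b) := fun h => S.toFr.own_notMem i b (h ▸ j.2)
      show inner ℝ (S.r (i, some b) (ξ w) • S.blk (i, some b) (u w)) (S.a j (ξ0 j) (u0 j)) = 0
      rw [real_inner_smul_left, inner_blk_a S _ _ (Ne.symm hjne), mul_zero]
  filter_upwards [hmain] with w hw
  exact not_not.mp hw

end SPHK
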